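import Pool.Agent.helper81.MX.Defs4

/-!
Row A08: `H^1 = 0` if every derivation is inner.
-/

set_option autoImplicit false

namespace MX
open scoped MatrixGroups

/-- A08 -/
theorem h1_of_allInner {H V : Type*} [Group H] [AddCommGroup V] [DistribMulAction H V]
    (h : AllInner H V) : h1 H V = 1 := by
  unfold h1
  rw [AddSubgroup.relIndex_eq_one]
  intro α hα
  obtain ⟨v, hv⟩ := h α hα
  exact ⟨v, funext fun x => (hv x).symm⟩

end MX
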