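import Pool.Agent.helper81.MX.Defs4

set_option autoImplicit false

namespace MX

/-- A09 -/
theorem inner_of_normal {H V : Type*} [Group H] [AddCommGroup V] [DistribMulAction H V]
    (K : Subgroup H) [K.Normal] (hfix : ∀ v : V, (∀ k ∈ K, k • v = v) → v = 0)
    (α : H → V) (hα : α ∈ Der H V) (v : V) (hv : ∀ k ∈ K, α k = k • v - v) :
    ∀ h : H, α h = h • v - v := by
  have hd : ∀ g h : H, α (g * h) = α g + g • α h := hα
  intro h
  rw [← sub_eq_zero]
  refine hfix _ (fun k hk => ?_)
  have h1 : α (k * h) = k • v - v + k • α h := by rw [hd, hv k hk]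
  have h2 : α (k * h) = α h + (k * h) • v - h • v := by
    have h3 : k * h = h * (h⁻¹ * k * h) := by group
    have h4 : h⁻¹ * k * h ∈ K := by
      have := (inferInstance : K.Normal).conj_mem k hk h⁻¹
      rwa [inv_inv] at this
    rw [h3, hd, hv _ h4, smul_sub, smul_smul, add_sub_assoc]
  have h5 : k • α h = α h + (k * h) • v - h • v - (k • v - v) := by
    rw [← h2, h1]; abel
  rw [smul_sub, smul_sub, smul_smul, h5]
  abel

end MX
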