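import Pool.Agent.helper81.MX.Defs4

/-!
# Row mx:D02 (MP_8aef6e_al), by helper29
-/

set_option autoImplicit false

namespace MX

/-- D02 -/
theorem inner_of_index {A W : Type*} [Group A] [AddCommGroup W] [DistribMulAction A W] [Finite A]
    (p : ℕ) [Fact p.Prime] (hp : ∀ w : W, p • w = 0) (Q : Subgroup A) (hQ : ¬ p ∣ Q.index)
    (α : A → W) (hα : α ∈ Der A W) (hin : ∃ v : W, ∀ x ∈ Q, α x = x • v - v) :
    ∃ v : W, ∀ h : A, α h = h • v - v := by
  classical
  obtain ⟨v, hv⟩ := hin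
  have hd : ∀ g h : A, α (g * h) = α g + g • α h := hα
  set β : A → W := fun g => α g - (g • v - v) with hβ
  have hβd : ∀ g h : A, β (g * h) = β g + g • β h := by
    intro g h
    simp only [hβ]
    rw [hd, smul_sub, smul_sub, mul_smul]
    abel
  have hβQ : ∀ q ∈ Q, β q = 0 := by
    intro q hq
    simp only [hβ]
    rw [hv q hq, sub_self]
  have hcos : ∀ g : A, ∀ q ∈ Q, β (g * q) = β g := by
    intro g q hq
    rw [hβd, hβQ q hq, smul_zero, add_zero]
  let γ : A ⧸ Q → W := Quotient.lift β (by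
    intro a b hab
    have h1 : a⁻¹ * b ∈ Q := QuotientGroup.leftRel_apply.mp hab
    have h2 := hcos a (a⁻¹ * b) h1
    rw [mul_inv_cancel_left] at h2
    exact h2.symm)
  have hγ : ∀ g : A, γ (g : A ⧸ Q) = β g := fun g => rfl
  have : Fintype (A ⧸ Q) := Fintype.ofFinite _
  set w : W := ∑ c : A ⧸ Q, γ c with hw
  have key : ∀ h : A, Q.index • β h = w - h • w := by
    intro h
    have h1 : ∑ c : A ⧸ Q, γ (h • c) = w := by
      exact Equiv.sum_comp (MulAction.toPerm h) γ
    have h2 : ∀ c : A ⧸ Q, γ (h • c) = β h + h • γ c := by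
      intro c
      obtain ⟨g, rfl⟩ := QuotientGroup.mk_surjective c
      have : (h • (g : A ⧸ Q)) = ((h * g : A) : A ⧸ Q) := rfl
      rw [this, hγ, hγ, hβd]
    rw [Finset.sum_congr rfl (fun c _ => h2 c), Finset.sum_add_distrib, Finset.sum_const,
      ← Finset.smul_sum, Finset.card_univ, ← Nat.card_eq_fintype_card] at h1
    have h3 : Nat.card (A ⧸ Q) = Q.index := rfl
    rw [h3] at h1
    rw [← hw] at h1
    exact eq_sub_of_add_eq h1
  have hcop : Nat.Coprime p Q.index := (Nat.Prime.coprime_iff_not_dvd (Fact.out)).mpr hQ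
  obtain ⟨m, hm⟩ : ∃ m : ℤ, ∀ u : W, m • (Q.index • u) = u := by
    have h1 := Int.gcd_eq_gcd_ab (p : ℤ) (Q.index : ℤ)
    have h2 : Int.gcd (p : ℤ) (Q.index : ℤ) = 1 := by
      rw [Int.gcd_natCast_natCast]
      exact hcop
    rw [h2] at h1
    refine ⟨Int.gcdB (p : ℤ) (Q.index : ℤ), fun u => ?_⟩
    have h3 : u = ((1 : ℕ) : ℤ) • u := by simp
    have h4 : ((p : ℤ) * Int.gcdA p Q.index + Q.index * Int.gcdB p Q.index) • u =
        Int.gcdB p Q.index • (Q.index • u) := by
      rw [add_smul, mul_comm (p : ℤ), mul_smul, natCast_zsmul, hp, smul_zero, zero_add,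
        mul_comm, mul_smul, natCast_zsmul]
    rw [← h4, ← h1]
    exact h3.symm
  refine ⟨v - m • w, fun h => ?_⟩
  have h4 := hm (β h)
  rw [key] at h4
  have h5 : α h = β h + (h • v - v) := by simp [hβ]
  rw [h5, ← h4, smul_sub m, smul_sub h, smul_comm h m w]
  abel

end MX
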