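import Pool.Agent.helper81.MX.Defs4

set_option autoImplicit false

namespace MX

section

variable {A W : Type*} [Group A] [AddCommGroup W] [DistribMulAction A W]

theorem d04_one {α : A → W} (hα : α ∈ Der A W) : α 1 = 0 := by
  have h := hα 1 1
  rw [mul_one, one_smul] at h
  exact left_eq_add.1 h

theorem d04_ext {α : A → W} (hα : α ∈ Der A W) (S : Set A) (hS : Subgroup.closure S = ⊤)
    (h0 : ∀ s ∈ S, α s = 0) : α = 0 := by
  funext x
  have hx : x ∈ Subgroup.closure S := by rw [hS]; trivial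
  refine Subgroup.closure_induction (p := fun x _ => α x = 0) h0 (d04_one hα) ?_ ?_ hx
  · intro x y _ _ h1 h2
    rw [hα x y, h1, h2, smul_zero, add_zero]
  · intro x _ h1
    have h2 := hα x x⁻¹
    rw [mul_inv_cancel, d04_one hα, h1, zero_add] at h2
    have h3 : x⁻¹ • (x • α x⁻¹) = x⁻¹ • (0 : W) := by rw [← h2]
    rw [smul_smul, inv_mul_cancel, one_smul, smul_zero] at h3
    exact h3

theorem d04_inn (v : W) : inn A W v ∈ Der A W := by
  intro g h
  change (g * h) • v - v = (g • v - v) + g • (h • v - v)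
  rw [smul_sub, mul_smul]
  abel

variable (A W) in
/-- Derivations vanishing on `U`. -/
def DZ (U : Subgroup A) : AddSubgroup (A → W) where
  carrier := {α | α ∈ Der A W ∧ ∀ u ∈ U, α u = 0}
  add_mem' := by
    rintro a b ⟨h1, h2⟩ ⟨h3, h4⟩
    exact ⟨(Der A W).add_mem h1 h3, fun u hu => by rw [Pi.add_apply, h2 u hu, h4 u hu, add_zero]⟩
  zero_mem' := ⟨(Der A W).zero_mem, fun u _ => rfl⟩
  neg_mem' := by
    rintro a ⟨h1, h2⟩
    exact ⟨(Der A W).neg_mem h1, fun u hu => by rw [Pi.neg_apply, h2 u hu, neg_zero]⟩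

theorem d04_avg [Finite A] (hp : ∀ w : W, 2 • w = 0) (U : Subgroup A) (hU : Odd (Nat.card U))
    {α : A → W} (hα : α ∈ Der A W) : ∃ v : W, ∀ u ∈ U, α u = u • v - v := by
  classical
  have : Fintype U := Fintype.ofFinite U
  refine ⟨-(∑ u : U, α (u : A)), ?_⟩
  intro x hx
  have h1 : ∑ u : U, α ((⟨x, hx⟩ * u : U) : A) = ∑ u : U, α (u : A) :=
    Equiv.sum_comp (Equiv.mulLeft (⟨x, hx⟩ : U)) (fun u : U => α (u : A))
  have h2 : ∑ u : U, α ((⟨x, hx⟩ * u : U) : A) =
      (Nat.card U) • α x + x • ∑ u : U, α (u : A) := by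
    rw [Finset.smul_sum, Nat.card_eq_fintype_card, ← Finset.card_univ, ← Finset.sum_const,
      ← Finset.sum_add_distrib]
    refine Finset.sum_congr rfl ?_
    intro u _
    exact hα x (u : A)
  have h3 : (Nat.card U) • α x = α x := by
    obtain ⟨k, hk⟩ := hU
    rw [hk, add_smul, mul_comm, mul_smul, hp, smul_zero, zero_add, one_smul]
  rw [h1, h3] at h2
  rw [smul_neg]
  have h4 : α x = ∑ u : U, α (u : A) - x • ∑ u : U, α (u : A) := by
    rw [eq_sub_iff_add_eq, ← h2]
  rw [h4]
  abel

end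

/-- D04 -/
theorem h1_le_fix {A W : Type*} [Group A] [AddCommGroup W] [DistribMulAction A W] [Finite A]
    [Finite W] (hp : ∀ w : W, 2 • w = 0) (hfix : ∀ w : W, (∀ a : A, a • w = w) → w = 0)
    (U : Subgroup A) (t a : A) (hU : Odd (Nat.card U)) (ht : ∀ u ∈ U, t * u * t⁻¹ ∈ U)
    (ha : a * a = 1) (hat : a * t * a⁻¹ = t⁻¹)
    (hgen : Subgroup.closure ((U : Set A) ∪ {t, a}) = ⊤) :
    h1 A W ≤ Nat.card {w : W // t • w = w ∧ a • w = w} := by
  classical
  have hneg : ∀ w : W, -w = w := by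
    intro w
    have := hp w
    rw [two_smul] at this
    exact neg_eq_of_add_eq_zero_left this
  -- Der = DZ ⊔ Inn
  have hInn : Inn A W ≤ Der A W := by
    rintro _ ⟨v, rfl⟩
    exact d04_inn v
  have hDZ : DZ A W U ≤ Der A W := fun α hα => hα.1
  have hsup : DZ A W U ⊔ Inn A W = Der A W := by
    apply le_antisymm (sup_le hDZ hInn)
    intro α hα
    obtain ⟨v, hv⟩ := d04_avg hp U hU hα
    have h1 : α - inn A W v ∈ DZ A W U := by
      refine ⟨(Der A W).sub_mem hα (d04_inn v), ?_⟩
      intro u hu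
      rw [Pi.sub_apply, hv u hu]
      exact sub_self _
    have h2 : α = (α - inn A W v) + inn A W v := (sub_add_cancel _ _).symm
    rw [h2]
    exact AddSubgroup.add_mem_sup h1 ⟨v, rfl⟩
  have hh1 : h1 A W = (Inn A W).relIndex (DZ A W U) := by
    unfold h1
    rw [← hsup, AddSubgroup.relIndex_sup_right]
  have hcard : (Inn A W).relIndex (DZ A W U) *
      Nat.card ((Inn A W).addSubgroupOf (DZ A W U)) = Nat.card (DZ A W U) := by
    rw [mul_comm]
    exact AddSubgroup.card_mul_index _
  -- the fixed points of U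
  have htU : ∀ u ∈ U, t⁻¹ * u * t ∈ U := by
    have hinj : Function.Injective (fun u : U => (⟨t * u * t⁻¹, ht u u.2⟩ : U)) := by
      intro u v huv
      have h1 : t * (u : A) * t⁻¹ = t * (v : A) * t⁻¹ := congrArg Subtype.val huv
      exact Subtype.ext (mul_left_cancel (mul_right_cancel h1))
    have hsurj := Finite.surjective_of_injective hinj
    intro u hu
    obtain ⟨v, hv⟩ := hsurj ⟨u, hu⟩
    have h1 : t * (v : A) * t⁻¹ = u := congrArg Subtype.val hv
    have h2 : t⁻¹ * u * t = v := by rw [← h1]; group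
    rw [h2]
    exact v.2
  have hlow : Nat.card (fixS A W U) ≤ Nat.card ((Inn A W).addSubgroupOf (DZ A W U)) := by
    have hmem : ∀ v : fixS A W U, inn A W (v : W) ∈ DZ A W U := by
      intro v
      refine ⟨d04_inn _, ?_⟩
      intro u hu
      change u • (v : W) - v = 0
      rw [v.2 u hu, sub_self]
    refine Nat.card_le_card_of_injective
      (fun v : fixS A W U => (⟨⟨inn A W (v : W), hmem v⟩, ⟨(v : W), rfl⟩⟩ :
        (Inn A W).addSubgroupOf (DZ A W U))) ?_
    intro v w hvw
    have h1 : inn A W (v : W) = inn A W (w : W) :=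
      congrArg (fun x : (Inn A W).addSubgroupOf (DZ A W U) => ((x : DZ A W U) : A → W)) hvw
    have h2 : (v : W) - w = 0 := by
      apply hfix
      intro x
      have h3 : x • (v : W) - v = x • (w : W) - w := congrFun h1 x
      rw [smul_sub]
      rw [sub_eq_sub_iff_add_eq_add] at h3 ⊢
      rw [add_comm (x • (v : W)) _, add_comm (v : W) _] at *
      rw [h3, add_comm]
    exact Subtype.ext (sub_eq_zero.1 h2)
  have hct : ∀ α ∈ DZ A W U, α t ∈ fixS A W U := by
    intro α hα u hu
    have h1 := hα.1 t (t⁻¹ * u * t)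
    have h2 := hα.1 u t
    have e : t * (t⁻¹ * u * t) = u * t := by group
    rw [e, h2, hα.2 u hu, hα.2 _ (htU u hu), smul_zero, add_zero, zero_add] at h1
    exact h1
  have hwa : ∀ α ∈ DZ A W U, α t = 0 → t • α a = α a ∧ a • α a = α a := by
    intro α hα h0
    have h1 := hα.1 a a
    rw [ha, d04_one hα.1] at h1
    have h2 : a • α a = α a := by
      have : a • α a = - α a := by
        rw [eq_neg_iff_add_eq_zero, add_comm]
        exact h1.symm
      rw [this, hneg]
    refine ⟨?_, h2⟩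
    have e : t * (a * t) = a := by
      have : a * t = t⁻¹ * a := by
        rw [← hat]
        group
      rw [this]
      group
    have h3 := hα.1 t (a * t)
    rw [e, hα.1 a t, h0, smul_zero, add_zero, zero_add] at h3
    exact h3.symm
  have hup : Nat.card (DZ A W U) ≤
      Nat.card (fixS A W U × {w : W // t • w = w ∧ a • w = w}) := by
    have hr : ∀ c : fixS A W U, ∃ r : A → W, r ∈ DZ A W U ∧
        ((∃ α ∈ DZ A W U, α t = c) → r t = c) := by
      intro c
      by_cases h : ∃ α ∈ DZ A W U, α t = c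
      · obtain ⟨α, hα, h1⟩ := h
        exact ⟨α, hα, fun _ => h1⟩
      · exact ⟨0, (DZ A W U).zero_mem, fun h' => absurd h' h⟩
    choose r hr1 hr2 using hr
    have hF : ∀ α : DZ A W U,
        t • ((α : A → W) a - r ⟨(α : A → W) t, hct α α.2⟩ a) =
          (α : A → W) a - r ⟨(α : A → W) t, hct α α.2⟩ a ∧
        a • ((α : A → W) a - r ⟨(α : A → W) t, hct α α.2⟩ a) =
          (α : A → W) a - r ⟨(α : A → W) t, hct α α.2⟩ a := by
      intro α
      refine hwa ((α : A → W) - r ⟨(α : A → W) t, hct α α.2⟩)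
        ((DZ A W U).sub_mem α.2 (hr1 _)) ?_
      rw [Pi.sub_apply, hr2 _ ⟨(α : A → W), α.2, rfl⟩]
      exact sub_self _
    refine Nat.card_le_card_of_injective
      (fun α : DZ A W U => ((⟨(α : A → W) t, hct α α.2⟩ : fixS A W U),
        (⟨(α : A → W) a - r ⟨(α : A → W) t, hct α α.2⟩ a, hF α⟩ :
          {w : W // t • w = w ∧ a • w = w}))) ?_
    intro α β hαβ
    have h1 : (⟨(α : A → W) t, hct α α.2⟩ : fixS A W U) = ⟨(β : A → W) t, hct β β.2⟩ :=
      congrArg Prod.fst hαβ
    have h2 : (α : A → W) a - r ⟨(α : A → W) t, hct α α.2⟩ a =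
        (β : A → W) a - r ⟨(β : A → W) t, hct β β.2⟩ a :=
      congrArg (fun x => ((Prod.snd x : {w : W // t • w = w ∧ a • w = w}) : W)) hαβ
    rw [h1] at h2
    have h3 : (α : A → W) a = (β : A → W) a := sub_left_injective h2
    have h4 : (α : A → W) t = (β : A → W) t := congrArg Subtype.val h1
    have h5 : ((α : A → W) - (β : A → W)) = 0 := by
      refine d04_ext ((Der A W).sub_mem α.2.1 β.2.1) _ hgen ?_
      rintro s (hs | hs | hs)
      · rw [Pi.sub_apply, α.2.2 s hs, β.2.2 s hs, sub_self]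
      · rw [hs, Pi.sub_apply, h4, sub_self]
      · have hs' : s = a := hs
        rw [hs', Pi.sub_apply, h3, sub_self]
    exact Subtype.ext (sub_eq_zero.1 h5)
  rw [Nat.card_prod] at hup
  rw [hh1]
  have hpos : 0 < Nat.card (fixS A W U) := Nat.card_pos
  have h6 : (Inn A W).relIndex (DZ A W U) * Nat.card (fixS A W U) ≤
      Nat.card {w : W // t • w = w ∧ a • w = w} * Nat.card (fixS A W U) := by
    calc (Inn A W).relIndex (DZ A W U) * Nat.card (fixS A W U)
        ≤ (Inn A W).relIndex (DZ A W U) * Nat.card ((Inn A W).addSubgroupOf (DZ A W U)) :=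
          Nat.mul_le_mul_left _ hlow
      _ = Nat.card (DZ A W U) := hcard
      _ ≤ Nat.card (fixS A W U) * Nat.card {w : W // t • w = w ∧ a • w = w} := hup
      _ = _ := mul_comm _ _
  exact Nat.le_of_mul_le_mul_right h6 hpos

end MX
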