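import Pool.Agent.helper81.MX.Defs

/-!
Definitions for the groups `PSL(2,p)`, `PGL(2,p)`.
-/

set_option autoImplicit false

namespace MX

open scoped MatrixGroups

/-- `PGL(2,p)`. -/
abbrev PG (p : ℕ) : Type := Matrix.ProjGenLinGroup (Fin 2) (ZMod p)

/-- The class of an invertible matrix. -/
abbrev pk {p : ℕ} (g : GL (Fin 2) (ZMod p)) : PG p := Matrix.ProjGenLinGroup.mk g

/-- `PSL(2,p)` inside `PGL(2,p)`. -/
def PS (p : ℕ) : Subgroup (PG p) :=
  (Matrix.ProjectiveSpecialLinearGroup.toPGL (n := Fin 2) (R := ZMod p)).range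

/-- The torus (image of the centralizer) of a matrix. -/
def tor {p : ℕ} (g : GL (Fin 2) (ZMod p)) : Subgroup (PG p) :=
  (Subgroup.centralizer ({g} : Set (GL (Fin 2) (ZMod p)))).map Matrix.ProjGenLinGroup.mk

/-- The discriminant. -/
def dsc {p : ℕ} (g : GL (Fin 2) (ZMod p)) : ZMod p :=
  (g : Matrix (Fin 2) (Fin 2) (ZMod p)).trace ^ 2 - 4 * (g : Matrix (Fin 2) (Fin 2) (ZMod p)).det

/-- Upper unipotent elements. -/
def uu {p : ℕ} (a : ZMod p) : SL(2, ZMod p) :=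
  ⟨!![1, a; 0, 1], by simp [Matrix.det_fin_two]⟩

/-- Lower unipotent elements. -/
def vv {p : ℕ} (a : ZMod p) : SL(2, ZMod p) :=
  ⟨!![1, 0; a, 1], by simp [Matrix.det_fin_two]⟩

/-- The class of a matrix of determinant one in `PGL(2,p)`. -/
abbrev sk {p : ℕ} (g : SL(2, ZMod p)) : PG p := Matrix.SpecialLinearGroup.toPGL g

/-- A partition of a finite group into cyclic subgroups with small normalizers. -/
structure Part (X : Type*) [Group X] (P : Set (Subgroup X)) : Prop where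
  ne : ∀ C ∈ P, C ≠ ⊥
  cov : ∀ x : X, x ≠ 1 → ∃ C ∈ P, x ∈ C
  dis : ∀ C ∈ P, ∀ D ∈ P, ∀ x : X, x ≠ 1 → x ∈ C → x ∈ D → C = D
  conj : ∀ C ∈ P, ∀ g : X, cj g C ∈ P
  cyc : ∀ C ∈ P, IsCyclic C
  idx : ∀ C ∈ P, Nat.card (Subgroup.normalizer (C : Set X)) = Nat.card C ∨
    Nat.card (Subgroup.normalizer (C : Set X)) = 2 * Nat.card C

/-- A normal Klein four subgroup without central elements. -/
def KleinN {X : Type*} [Group X] (V : Subgroup X) : Prop :=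
  V.Normal ∧ Nat.card V = 4 ∧ (∀ v ∈ V, v * v = 1) ∧
    ∀ v ∈ V, v ≠ 1 → ∃ x : X, x * v ≠ v * x

/-- The group has order 60 and behaves like the alternating group of degree 5. -/
def Ico (X : Type*) [Group X] : Prop :=
  Nat.card X = 60 ∧
  (∃ x y : X, orderOf x = 2 ∧ orderOf y = 3 ∧ orderOf (x * y) = 5) ∧
  (∀ x y : X, orderOf x = 2 → orderOf y = 3 → orderOf (x * y) = 5 →
    Subgroup.closure ({x, y} : Set X) = ⊤) ∧
  ∀ Y : Subgroup X, (∀ x : X, Odd (orderOf x) → x ∈ Y) → Y = ⊤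

/-- Structure used for modules in characteristic 2. -/
def Even2 (A : Type*) [Group A] : Prop :=
  ∃ (U : Subgroup A) (t a : A), Odd (Nat.card U) ∧ (∀ u ∈ U, t * u * t⁻¹ ∈ U) ∧
    a * a = 1 ∧ a ≠ 1 ∧ a * t * a⁻¹ = t⁻¹ ∧
    Subgroup.closure ((U : Set A) ∪ {t, a}) = ⊤ ∧
    ∀ (X : Subgroup A) (g : A), t ∈ X → a ∈ X → g * t * g⁻¹ ∈ X → g * a * g⁻¹ ∈ X →
      ∃ x ∈ X, x * g ∈ Subgroup.closure ({t, a} : Set A)

/-- Structure used for modules of the alternating group of degree 5 in characteristic 2. -/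
def Alt5 (A : Type*) [Group A] : Prop :=
  ∃ a b y : A, a * a = 1 ∧ b * b = 1 ∧ a * b = b * a ∧ a ≠ 1 ∧ b ≠ 1 ∧ a ≠ b ∧
    y * a * y⁻¹ = b ∧ y * b * y⁻¹ = a * b ∧
    (∀ x : A, x * a = a * x → x = 1 ∨ x = a ∨ x = b ∨ x = a * b) ∧
    ¬ 2 ∣ (Subgroup.closure ({a, b} : Set A)).index

end MX
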