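import Pool.Agent.helper81.MX.Defs4
import Pool.Agent.helper81.MX.D02

set_option autoImplicit false

namespace MX
open scoped MatrixGroups

section

variable {A W : Type*} [Group A] [AddCommGroup W] [DistribMulAction A W]

/-- `w ↦ x w - w` -/
def D06_d (x : A) : W →+ W := DistribSMul.toAddMonoidHom W x - AddMonoidHom.id W

theorem D06_d_apply (x : A) (w : W) : D06_d x w = x • w - w := rfl

theorem D06_cmm (x : A) : cmm A W x = (D06_d x : W →+ W).range := by
  ext w
  constructor
  · rintro ⟨u, rfl⟩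
    exact ⟨u, rfl⟩
  · rintro ⟨u, rfl⟩
    exact ⟨u, rfl⟩

theorem D06_der_one (α : A → W) (hα : α ∈ Der A W) : α 1 = 0 := by
  have h := hα 1 1
  rw [mul_one, one_smul] at h
  have h2 : α 1 + α 1 = α 1 + 0 := by rw [add_zero]; exact h.symm
  exact add_left_cancel h2

theorem D06_neg (hp : ∀ w : W, 2 • w = 0) (w : W) : -w = w := by
  have h := hp w
  rw [two_nsmul] at h
  exact neg_eq_of_add_eq_zero_left h

/-- conjugation -/
theorem D06_conj (α : A → W) (hα : α ∈ Der A W) (x y : A) (hx : α x ∈ cmm A W x) :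
    α (y * x * y⁻¹) ∈ cmm A W (y * x * y⁻¹) := by
  obtain ⟨u, hu⟩ := hx
  have h1 : α y⁻¹ = -(y⁻¹ • α y) := by
    have h2 := hα y⁻¹ y
    rw [inv_mul_cancel, D06_der_one α hα] at h2
    exact eq_neg_of_add_eq_zero_left h2.symm
  refine ⟨y • u - α y, ?_⟩
  have h3 : α (y * x * y⁻¹) = α y + y • α x + (y * x) • α y⁻¹ := by
    rw [hα, hα]
  rw [h3, h1, hu, smul_neg, smul_smul, smul_sub, smul_sub, smul_smul, smul_smul, inv_mul_cancel_right]
  abel

end

/-- D06 -/
theorem alt5_bound {A W : Type*} [Group A] [AddCommGroup W] [DistribMulAction A W] [Finite A]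
    [Finite W] (hp : ∀ w : W, 2 • w = 0) (a b y : A) (ha : a * a = 1) (hb : b * b = 1)
    (hab : a * b = b * a) (hya : y * a * y⁻¹ = b) (hyb : y * b * y⁻¹ = a * b)
    (hidx : ¬ 2 ∣ (Subgroup.closure ({a, b} : Set A)).index) :
    h1 A W * Nat.card (cmm A W a) ≤ Nat.card {w : W // b • w - w ∈ cmm A W a} := by
  classical
  haveI : Fact (Nat.Prime 2) := ⟨Nat.prime_two⟩
  have hneg := D06_neg hp
  -- fixed points as kernels
  set Fa : AddSubgroup W := (D06_d a : W →+ W).ker with hFa
  set Fb : AddSubgroup W := (D06_d b : W →+ W).ker with hFb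
  have hmFa : ∀ w : W, w ∈ Fa ↔ a • w = w := by
    intro w
    rw [hFa, AddMonoidHom.mem_ker, D06_d_apply, sub_eq_zero]
  have hmFb : ∀ w : W, w ∈ Fb ↔ b • w = w := by
    intro w
    rw [hFb, AddMonoidHom.mem_ker, D06_d_apply, sub_eq_zero]
  set Ca : AddSubgroup W := cmm A W a with hCa
  set Cb : AddSubgroup W := cmm A W b with hCb
  set Cab : AddSubgroup W := cmm A W (a * b) with hCab
  have hCaFa : Ca ≤ Fa := by
    rintro _ ⟨u, rfl⟩
    rw [hmFa, smul_sub, smul_smul, ha, one_smul]
    rw [← hneg (u - a • u), neg_sub]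
  -- evaluation
  set ea : (A → W) →+ W := Pi.evalAddMonoidHom (fun _ : A => W) a with hea
  set eb : (A → W) →+ W := Pi.evalAddMonoidHom (fun _ : A => W) b with heb
  set D := Der A W with hD
  set I := Inn A W with hI
  have hID : I ≤ D := by
    rintro _ ⟨u, rfl⟩
    intro g h
    show (g * h) • u - u = g • u - u + g • (h • u - u)
    rw [mul_smul, smul_sub]
    abel
  set Ka : AddSubgroup (A → W) := Ca.comap ea ⊓ D with hKa
  have hIKa : I ≤ Ka := by
    intro β hβ
    refine ⟨?_, hID hβ⟩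
    obtain ⟨u, rfl⟩ := hβ
    exact ⟨u, rfl⟩
  have hKaD : Ka ≤ D := inf_le_right
  -- step 1
  have hs1 : Ka.relIndex D * Nat.card Ca ≤ Nat.card Fa := by
    have e1 : Ka.relIndex D = Ca.relIndex (D.map ea) := by
      rw [hKa, AddSubgroup.inf_relIndex_right, AddSubgroup.relIndex_comap]
    have e2 : D.map ea ≤ Fa := by
      rintro _ ⟨α, hα, rfl⟩
      rw [hmFa]
      show a • α a = α a
      have h3 := hα a a
      rw [ha, D06_der_one α hα] at h3
      have h4 : a • α a = -α a := eq_neg_of_add_eq_zero_right h3.symm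
      rw [h4, hneg]
    have e3 : Ca.relIndex (D.map ea) ≤ Ca.relIndex Fa := by
      apply AddSubgroup.relIndex_le_of_le_right e2
      exact AddSubgroup.FiniteIndex.index_ne_zero
    have e4 : Nat.card Ca * Ca.relIndex Fa = Nat.card Fa := by
      have := AddSubgroup.relIndex_mul_relIndex (⊥ : AddSubgroup W) Ca Fa bot_le hCaFa
      rwa [AddSubgroup.relIndex_bot_left, AddSubgroup.relIndex_bot_left] at this
    rw [e1, ← e4, mul_comm]
    exact Nat.mul_le_mul_left _ e3
  -- step 2
  set K0 : AddSubgroup (A → W) := ea.ker ⊓ D with hK0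
  have hs2 : I.relIndex Ka ≤ Nat.card ((Cb ⊓ Cab : AddSubgroup W)) := by
    have e1 : Ka = K0 ⊔ I := by
      apply le_antisymm
      · rintro α ⟨hα1, hα2⟩
        obtain ⟨u, hu⟩ := hα1
        have h3 : α = (α - inn A W u) + inn A W u := by abel
        rw [h3]
        apply AddSubgroup.add_mem_sup
        · refine ⟨?_, D.sub_mem hα2 (hID ⟨u, rfl⟩)⟩
          show α a - (a • u - u) = 0
          have h4 : α a = a • u - u := hu
          rw [h4, sub_self]
        · exact ⟨u, rfl⟩
      · apply sup_le _ hIKa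
        rintro α ⟨hα1, hα2⟩
        refine ⟨?_, hα2⟩
        have h3 : ea α = 0 := hα1
        show ea α ∈ Ca
        rw [h3]
        exact Ca.zero_mem
    have e2 : I.relIndex Ka = I.relIndex K0 := by
      rw [e1, AddSubgroup.relIndex_sup_right]
    have e3 : eb.ker ⊓ K0 ≤ I := by
      rintro α ⟨hα1, hα2, hα3⟩
      have hαa : α a = 0 := hα2
      have hαb : α b = 0 := hα1
      have h4 : ∀ x ∈ Subgroup.closure ({a, b} : Set A), α x = 0 := by
        intro x hx
        induction hx using Subgroup.closure_induction with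
        | mem x hx =>
          rcases hx with rfl | hx
          · exact hαa
          · rw [Set.mem_singleton_iff] at hx
            rw [hx]
            exact hαb
        | one => exact D06_der_one α hα3
        | mul x y _ _ h5 h6 => rw [hα3 x y, h5, h6, smul_zero, add_zero]
        | inv x _ h5 =>
          have h6 := hα3 x⁻¹ x
          rw [inv_mul_cancel, D06_der_one α hα3, h5, smul_zero, add_zero] at h6
          exact h6.symm
      obtain ⟨v, hv⟩ := inner_of_index 2 hp (Subgroup.closure ({a, b} : Set A)) hidx α hα3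
        ⟨0, fun x hx => by rw [h4 x hx, smul_zero, sub_zero]⟩
      refine ⟨v, ?_⟩
      funext h
      exact (hv h).symm
    have e4 : I.relIndex K0 ≤ eb.ker.relIndex K0 := by
      have h5 : I.relIndex K0 ≤ (eb.ker ⊓ K0).relIndex K0 := by
        apply AddSubgroup.relIndex_le_of_le_left e3
        exact AddSubgroup.FiniteIndex.index_ne_zero
      rwa [AddSubgroup.inf_relIndex_right] at h5
    have e5 : eb.ker.relIndex K0 = Nat.card (K0.map eb) := AddSubgroup.relIndex_ker _ _
    have e6 : K0.map eb ≤ Cb ⊓ Cab := by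
      rintro _ ⟨α, ⟨hα1, hα2⟩, rfl⟩
      have hαa : α a = 0 := hα1
      have hαa' : α a ∈ cmm A W a := by rw [hαa]; exact (cmm A W a).zero_mem
      have h5 : α b ∈ cmm A W b := by
        have := D06_conj α hα2 a y hαa'
        rwa [hya] at this
      have h6 : α (a * b) ∈ cmm A W (a * b) := by
        have := D06_conj α hα2 b y h5
        rwa [hyb] at this
      have h7 : α (a * b) = α b := by
        rw [hab, hα2 b a, hαa, smul_zero, add_zero]
      rw [h7] at h6
      exact ⟨h5, h6⟩
    rw [e2]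
    refine e4.trans ?_
    rw [e5]
    exact AddSubgroup.card_le_of_le e6
  -- step 3
  set dy : W →+ W := DistribSMul.toAddMonoidHom W y with hdy
  have hdyinj : Function.Injective dy := MulAction.injective y
  have hs3 : Nat.card ((Cb ⊓ Cab : AddSubgroup W)) ≤ Nat.card ((Ca ⊓ Cb : AddSubgroup W)) := by
    have e1 : Cb ⊓ Cab ≤ (Ca ⊓ Cb).map dy := by
      rintro w ⟨⟨u, hu⟩, ⟨v, hv⟩⟩
      refine ⟨y⁻¹ • w, ⟨⟨y⁻¹ • u, ?_⟩, ⟨y⁻¹ • v, ?_⟩⟩, smul_inv_smul y w⟩
      · rw [hu, smul_sub, smul_smul, smul_smul]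
        congr 2
        rw [← hya]
        group
      · rw [hv, smul_sub, smul_smul, smul_smul]
        congr 2
        rw [← hyb]
        group
    refine (AddSubgroup.card_le_of_le e1).trans (le_of_eq ?_)
    exact AddSubgroup.card_map_of_injective hdyinj
  have hs4 : Nat.card Fa ≤ Nat.card Fb := by
    have e1 : Fa.map dy ≤ Fb := by
      rintro _ ⟨w, hw, rfl⟩
      have hw' : a • w = w := (hmFa w).mp hw
      rw [hmFb]
      show b • (y • w) = y • w
      rw [← hya, smul_smul, inv_mul_cancel_right, mul_smul, hw']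
    rw [← AddSubgroup.card_map_of_injective hdyinj (K := Fa)]
    exact AddSubgroup.card_le_of_le e1
  -- step 5
  have hs5 : Nat.card {w : W // b • w - w ∈ Ca} = Nat.card Fb * Nat.card ((Ca ⊓ Cb : AddSubgroup W)) := by
    have e1 : Nat.card {w : W // b • w - w ∈ Ca} = Nat.card (Ca.comap (D06_d b : W →+ W)) := rfl
    have e2 : Fb ≤ Ca.comap (D06_d b : W →+ W) := by
      intro w hw
      have hw' : D06_d b w = 0 := hw
      show D06_d b w ∈ Ca
      rw [hw']
      exact Ca.zero_mem
    have e3 := AddSubgroup.relIndex_mul_relIndex (⊥ : AddSubgroup W) Fb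
      (Ca.comap (D06_d b : W →+ W)) bot_le e2
    rw [AddSubgroup.relIndex_bot_left, AddSubgroup.relIndex_bot_left] at e3
    have e4 : Fb.relIndex (Ca.comap (D06_d b : W →+ W)) = Nat.card ((Ca ⊓ Cb : AddSubgroup W)) := by
      rw [hFb, AddSubgroup.relIndex_ker, AddSubgroup.map_comap_eq, hCb, D06_cmm b, inf_comm]
    rw [e1, ← e3, e4]
  -- conclusion
  have hs6 : h1 A W = I.relIndex Ka * Ka.relIndex D := by
    rw [AddSubgroup.relIndex_mul_relIndex I Ka D hIKa hKaD]
    rfl
  rw [hs6, hs5]
  calc I.relIndex Ka * Ka.relIndex D * Nat.card Ca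
      = I.relIndex Ka * (Ka.relIndex D * Nat.card Ca) := by rw [mul_assoc]
    _ ≤ Nat.card ((Cb ⊓ Cab : AddSubgroup W)) * Nat.card Fa := Nat.mul_le_mul hs2 hs1
    _ ≤ Nat.card ((Ca ⊓ Cb : AddSubgroup W)) * Nat.card Fb := Nat.mul_le_mul hs3 hs4
    _ = Nat.card Fb * Nat.card ((Ca ⊓ Cb : AddSubgroup W)) := mul_comm _ _

end MX
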