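import Pool.Agent.helper81.MX.Defs

/-!
Row mx:Q02 (helper88): a normal subgroup of a good group is good.
-/

set_option autoImplicit false

namespace MX

open scoped MatrixGroups

/-- the image of a normal subgroup `N` in `G/K` is `N/(N ∩ K)` -/
theorem Q02_equiv {G : Type} [Group G] (K N : Subgroup G) [K.Normal] :
    Nonempty ((N ⧸ (K.subgroupOf N)) ≃* (N.map (QuotientGroup.mk' K))) := by
  have hker : ((QuotientGroup.mk' K).comp N.subtype).ker = K.subgroupOf N := by
    ext x
    rw [MonoidHom.mem_ker, Subgroup.mem_subgroupOf]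
    exact QuotientGroup.eq_one_iff (x : G)
  have hrange : ((QuotientGroup.mk' K).comp N.subtype).range = N.map (QuotientGroup.mk' K) := by
    rw [MonoidHom.range_eq_map, ← Subgroup.map_map, ← MonoidHom.range_eq_map, Subgroup.range_subtype]
  exact ⟨((QuotientGroup.quotientMulEquivOfEq hker).symm.trans
    (QuotientGroup.quotientKerEquivRange ((QuotientGroup.mk' K).comp N.subtype))).trans
    (MulEquiv.subgroupCongr hrange)⟩

/-- `K ∩ N` as a subgroup of `N` and of `K` -/
theorem Q02_inter {G : Type} [Group G] (K N : Subgroup G) :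
    Nonempty ((N.subgroupOf K) ≃* (K.subgroupOf N)) :=
  ⟨{ toFun := fun x => ⟨⟨x.1.1, x.2⟩, x.1.2⟩
     invFun := fun x => ⟨⟨x.1.1, x.2⟩, x.1.2⟩
     left_inv := fun _ => rfl
     right_inv := fun _ => rfl
     map_mul' := fun _ _ => rfl }⟩

/-- Q02 -/
theorem Good.normal {G : Type} [Group G] (hG : Good G)
    (hiso : ∀ {G : Type} [Group G], Good G → ∀ {H : Type} [Group H], (G ≃* H) → Good H)
    (N : Subgroup G) [N.Normal] : Good N := by
  rename_i hNn
  revert N
  induction hG with
  | triv G h =>
    intro N _
    exact Good.triv N inferInstance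
  | ext G K hK hq ih =>
    intro N hN
    have h1 : Good (N.subgroupOf K) := ih (N.subgroupOf K)
    obtain ⟨e⟩ := Q02_inter K N
    refine Good.ext N (K.subgroupOf N) (hiso h1 e) ?_
    obtain ⟨f⟩ := Q02_equiv K N
    rcases hq with hq | ⟨p, hp, hp5, ⟨g⟩⟩
    · left
      intro a b
      apply f.injective
      rw [map_mul, map_mul]
      exact Subtype.ext (hq _ _)
    · have : Fact p.Prime := ⟨hp⟩
      have hsim : IsSimpleGroup PSL(2, ZMod p) :=
        Matrix.ProjectiveSpecialLinearGroup.rank_two_simple (by rw [Nat.card_zmod]; omega)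
      have hsim' : IsSimpleGroup (G ⧸ K) := g.isSimpleGroup
      have hmn : (N.map (QuotientGroup.mk' K)).Normal := hN.map _ (QuotientGroup.mk'_surjective K)
      rcases hsim'.eq_bot_or_eq_top_of_normal _ hmn with hb | ht
      · left
        intro a b
        apply f.injective
        have : Subsingleton (N.map (QuotientGroup.mk' K)) := by
          rw [hb]; infer_instance
        exact Subsingleton.elim _ _
      · right
        exact ⟨p, hp, hp5, ⟨(f.trans ((MulEquiv.subgroupCongr ht).trans Subgroup.topEquiv)).trans g⟩⟩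

end MX
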