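import Pool.Agent.helper81.MX.Defs

set_option autoImplicit false

namespace MX
open scoped MatrixGroups

/-- M02 -/
theorem Mfac_basic {G : Type*} [Group G] {L N : Subgroup G} (hM : Mfac L N) :
    L ≤ N ∧ N ≤ Subgroup.normalizer (L : Set G) ∧ L ⊓ Subgroup.centralizer (L : Set G) = ⊥ ∧
    (∀ n ∈ N, ∃ l ∈ L, l⁻¹ * n ∈ Subgroup.centralizer (L : Set G)) ∧
    (∀ g : G, g ∉ Subgroup.normalizer (L : Set G) → ∀ x ∈ L,
      g * x * g⁻¹ ∈ Subgroup.centralizer (L : Set G)) := by
  have hone : cj (1 : G) L = L := by
    ext x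
    rw [mem_cj]
    simp
  have hcc : ∀ g : G, cj g L = L ∨ cj g L ≤ Subgroup.centralizer (L : Set G) := by
    intro g
    rcases hM.comm g with h | h
    · exact Or.inl h
    · refine Or.inr fun y hy => ?_
      rw [Subgroup.mem_centralizer_iff]
      intro x hx
      exact h x hx y hy
  have hcn : Subgroup.centralizer (L : Set G) ≤ Subgroup.normalizer (L : Set G) := by
    intro y hy
    rw [Subgroup.mem_centralizer_iff] at hy
    rw [Subgroup.mem_normalizer_iff]
    intro h
    constructor
    · intro hh
      have h1 := hy h hh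
      have h2 : y * h * y⁻¹ = h := by rw [← h1]; group
      rw [h2]
      exact hh
    · intro hh
      have h1 := hy _ hh
      have h2 : y * h * y⁻¹ = h := by
        have h3 : h * y = y * h := by
          have h4 : y⁻¹ * (y * h * y⁻¹ * y) * 1 = y⁻¹ * (y * (y * h * y⁻¹)) * 1 := by rw [h1]
          have h5 : y⁻¹ * (y * h * y⁻¹ * y) * 1 = h := by group
          have h6 : y⁻¹ * (y * (y * h * y⁻¹)) * 1 = y * h * y⁻¹ := by group
          rw [h5, h6] at h4
          calc h * y = y * h * y⁻¹ * y := by rw [← h4]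
            _ = y * h := by group
        rw [← h3]
        group
      rw [h2] at hh
      exact hh
  have hLn : L ≤ Subgroup.normalizer (L : Set G) := Subgroup.le_normalizer
  refine ⟨?_, ?_, ?_, ?_, ?_⟩
  · rw [hM.sup]
    have := le_iSup (fun g : G => cj g L) 1
    simp only [hone] at this
    exact this
  · rw [hM.sup]
    refine iSup_le fun g => ?_
    rcases hcc g with h | h
    · rw [h]
      exact hLn
    · exact h.trans hcn
  · rw [eq_bot_iff]
    intro x hx
    have hxL : x ∈ L := hx.1
    have hxC := Subgroup.mem_centralizer_iff.1 hx.2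
    rw [Subgroup.mem_bot]
    by_contra hne
    have hs := hM.simple
    have hz : Subgroup.center L = ⊥ ∨ Subgroup.center L = ⊤ :=
      hs.eq_bot_or_eq_top_of_normal _ inferInstance
    rcases hz with hz | hz
    · have : (⟨x, hxL⟩ : L) ∈ Subgroup.center L := by
        rw [Subgroup.mem_center_iff]
        intro g
        exact Subtype.ext (hxC g g.2)
      rw [hz, Subgroup.mem_bot] at this
      exact hne (congrArg Subtype.val this)
    · obtain ⟨a, ha, b, hb, hab⟩ := hM.nc
      have : (⟨b, hb⟩ : L) ∈ Subgroup.center L := by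
        rw [hz]
        exact Subgroup.mem_top _
      rw [Subgroup.mem_center_iff] at this
      have h7 := congrArg Subtype.val (this ⟨a, ha⟩)
      exact hab h7
  · -- the subgroup L C
    have hcom : ∀ l ∈ L, ∀ c ∈ Subgroup.centralizer (L : Set G), l * c = c * l :=
      fun l hl c hc => Subgroup.mem_centralizer_iff.1 hc l hl
    let D : Subgroup G :=
      { carrier := {n | ∃ l ∈ L, l⁻¹ * n ∈ Subgroup.centralizer (L : Set G)}
        mul_mem' := by
          rintro a b ⟨l, hl, ha⟩ ⟨l', hl', hb⟩
          refine ⟨l * l', L.mul_mem hl hl', ?_⟩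
          have h8 : (l * l')⁻¹ * (a * b) = (l⁻¹ * a) * (l'⁻¹ * b) := by
            have h9 := hcom l'⁻¹ (L.inv_mem hl') _ ha
            calc (l * l')⁻¹ * (a * b) = (l'⁻¹ * (l⁻¹ * a)) * b := by group
              _ = ((l⁻¹ * a) * l'⁻¹) * b := by rw [h9]
              _ = (l⁻¹ * a) * (l'⁻¹ * b) := by group
          rw [h8]
          exact Subgroup.mul_mem _ ha hb
        one_mem' := ⟨1, L.one_mem, by simp⟩
        inv_mem' := by
          rintro a ⟨l, hl, ha⟩
          refine ⟨l⁻¹, L.inv_mem hl, ?_⟩
          have h8 : l⁻¹⁻¹ * a⁻¹ = (l⁻¹ * a)⁻¹ := by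
            have h9 := hcom l hl _ (Subgroup.inv_mem _ ha)
            calc l⁻¹⁻¹ * a⁻¹ = l * (l⁻¹ * a)⁻¹ * l⁻¹ := by group
              _ = (l⁻¹ * a)⁻¹ * l * l⁻¹ := by rw [h9]
              _ = (l⁻¹ * a)⁻¹ := by group
          rw [h8]
          exact Subgroup.inv_mem _ ha }
    have hND : N ≤ D := by
      rw [hM.sup]
      refine iSup_le fun g => ?_
      rcases hcc g with h | h
      · rw [h]
        intro x hx
        exact ⟨x, hx, by simp⟩
      · intro x hx
        exact ⟨1, L.one_mem, by simpa using h hx⟩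
    intro n hn
    exact hND hn
  · intro g hg x hx
    have hne : cj g L ≠ L := by
      intro h
      apply hg
      rw [Subgroup.mem_normalizer_iff]
      intro y
      have h1 : g * y * g⁻¹ ∈ cj g L ↔ y ∈ L := by
        rw [mem_cj]
        have h2 : g⁻¹ * (g * y * g⁻¹) * g = y := by group
        rw [h2]
      rw [h] at h1
      exact h1.symm
    rcases hcc g with h | h
    · exact absurd h hne
    · apply h
      rw [mem_cj]
      have h2 : g⁻¹ * (g * x * g⁻¹) * g = x := by group
      rw [h2]
      exact hx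

end MX
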