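import Pool.Agent.helper81.MX.Defs4

/-!
Row mx:A01 (helper23).
-/

set_option autoImplicit false

namespace MX

open scoped MatrixGroups

/-- A01 -/
theorem irr_prime {H V : Type*} [Group H] [AddCommGroup V] [DistribMulAction H V] [Finite V]
    (h : Irr H V) : ∃ p : ℕ, p.Prime ∧ ∀ v : V, p • v = 0 := by
  obtain ⟨hn, hirr⟩ := h
  have hcard : Nat.card V ≠ 1 := (Finite.one_lt_card (α := V)).ne'
  obtain ⟨p, hp, hd⟩ := Nat.exists_prime_and_dvd hcard
  have : Fact p.Prime := ⟨hp⟩
  obtain ⟨v, hv⟩ := exists_prime_addOrderOf_dvd_card' p hd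
  let U : AddSubgroup V :=
    { carrier := {v | p • v = 0}
      add_mem' := by
        intro a b ha hb
        show p • (a + b) = 0
        rw [smul_add, show p • a = 0 from ha, show p • b = 0 from hb, add_zero]
      zero_mem' := smul_zero p
      neg_mem' := by
        intro a ha
        show p • (-a) = 0
        rw [smul_neg, show p • a = 0 from ha, neg_zero] }
  have hst : ∀ g : H, ∀ v ∈ U, g • v ∈ U := by
    intro g v hv
    show p • (g • v) = 0
    have h1 : p • (g • v) = g • (p • v) := (map_nsmul (DistribMulAction.toAddMonoidHom V g) p v).symm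
    rw [h1, show p • v = 0 from hv, smul_zero]
  refine ⟨p, hp, fun w => ?_⟩
  rcases hirr U hst with hb | ht
  · exfalso
    have hvU : v ∈ U := by
      show p • v = 0
      rw [← hv]
      exact addOrderOf_nsmul_eq_zero v
    rw [hb, AddSubgroup.mem_bot] at hvU
    rw [hvU, addOrderOf_zero] at hv
    exact hp.one_lt.ne hv
  · have : w ∈ U := by rw [ht]; exact AddSubgroup.mem_top w
    exact this

end MX
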