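import Pool.Agent.helper81.MX.Defs4

set_option autoImplicit false

namespace MX

/-- restriction to the kernel -/
def A05_res {H Hq : Type*} [Group H] [Group Hq] (V : Type*) [AddCommGroup V] (q : H →* Hq) :
    (H → V) →+ (q.ker → V) where
  toFun α := fun c => α c
  map_zero' := rfl
  map_add' _ _ := rfl

/-- composition with `q` -/
def A05_comp {H Hq : Type*} [Group H] [Group Hq] (V : Type*) [AddCommGroup V] (q : H →* Hq) :
    (Hq → V) →+ (H → V) where
  toFun β := fun h => β (q h)
  map_zero' := rfl
  map_add' _ _ := rfl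

/-- A05 -/
theorem h1_le_Phi {H Hq V : Type*} [Group H] [Group Hq] [AddCommGroup V] [DistribMulAction H V]
    [DistribMulAction Hq V] [Finite H] [Finite V] (q : H →* Hq) (hq : Function.Surjective q)
    (hact : ∀ (h : H) (v : V), h • v = q h • v) :
    h1 H V ≤ Nat.card (PhiS V q) * h1 Hq V := by
  have hPhi : PhiS V q = (Der H V).map (A05_res V q) := by
    ext f
    constructor
    · rintro ⟨α, hα, h⟩
      exact ⟨α, hα, (funext h).symm⟩
    · rintro ⟨α, hα, rfl⟩
      exact ⟨α, hα, fun c => rfl⟩
  have hInn : Inn H V = (Inn Hq V).map (A05_comp V q) := by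
    ext f
    constructor
    · rintro ⟨v, rfl⟩
      refine ⟨inn Hq V v, ⟨v, rfl⟩, ?_⟩
      funext h
      show q h • v - v = h • v - v
      rw [hact]
    · rintro ⟨_, ⟨v, rfl⟩, rfl⟩
      refine ⟨v, ?_⟩
      funext h
      show h • v - v = q h • v - v
      rw [hact]
  have hK : (Der Hq V).map (A05_comp V q) = Der H V ⊓ (A05_res V q).ker := by
    ext f
    constructor
    · rintro ⟨β, hβ, rfl⟩
      refine AddSubgroup.mem_inf.2 ⟨?_, ?_⟩
      · intro g h
        show β (q (g * h)) = β (q g) + g • β (q h)
        rw [map_mul, hβ (q g) (q h), hact]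
      · rw [AddMonoidHom.mem_ker]
        funext c
        show β (q c) = 0
        have hc : q (c : H) = 1 := c.2
        have h1 := hβ 1 1
        rw [mul_one, one_smul] at h1
        rw [hc]
        exact left_eq_add.1 h1
    · intro hf
      obtain ⟨h1, h2⟩ := AddSubgroup.mem_inf.1 hf
      have h3 : ∀ c : H, q c = 1 → f c = 0 := fun c hc => congrFun h2 ⟨c, hc⟩
      have h4 : ∀ g h : H, q g = q h → f g = f h := by
        intro g h hgh
        have e : q (h⁻¹ * g) = 1 := by rw [map_mul, map_inv, hgh, inv_mul_cancel]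
        have h5 := h1 h (h⁻¹ * g)
        rw [mul_inv_cancel_left, h3 _ e, smul_zero, add_zero] at h5
        exact h5
      have h6 : ∀ x : H, f (Function.surjInv hq (q x)) = f x := fun x =>
        h4 _ _ (Function.surjInv_eq hq (q x))
      refine ⟨fun x => f (Function.surjInv hq x), ?_, ?_⟩
      · intro x y
        obtain ⟨g, rfl⟩ := hq x
        obtain ⟨h, rfl⟩ := hq y
        show f (Function.surjInv hq (q g * q h)) = f (Function.surjInv hq (q g)) +
          q g • f (Function.surjInv hq (q h))
        rw [← map_mul, h6, h6, h6, h1 g h, hact]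
      · funext x
        exact h6 x
  have hinj : Function.Injective (A05_comp V q) := by
    intro β β' h
    funext x
    obtain ⟨g, rfl⟩ := hq x
    exact congrFun h g
  have hle : Inn Hq V ≤ Der Hq V := by
    rintro _ ⟨v, rfl⟩ g h
    show (g * h) • v - v = (g • v - v) + g • (h • v - v)
    rw [mul_smul, smul_sub]
    abel
  have e1 := AddSubgroup.relIndex_mul_relIndex (Inn H V) (Der H V ⊓ (A05_res V q).ker) (Der H V)
    (by rw [hInn, ← hK]; exact AddSubgroup.map_mono hle) inf_le_left
  have e2 : (Inn H V).relIndex (Der H V ⊓ (A05_res V q).ker) = h1 Hq V := by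
    rw [hInn, ← hK, AddSubgroup.relIndex_map_map_of_injective _ _ hinj]
    rfl
  have e3 : (Der H V ⊓ (A05_res V q).ker).relIndex (Der H V) = Nat.card (PhiS V q) := by
    rw [AddSubgroup.inf_relIndex_left, AddSubgroup.relIndex_ker, hPhi]
  unfold h1
  rw [← e1, e2, e3]
  exact (mul_comm _ _).le

end MX
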