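import Pool.Agent.helper81.MX.Defs4

/-!
# Row mx:A07 (MP_8aef6e_al), by helper29
-/

set_option autoImplicit false

namespace MX

theorem A07_form0 {K V : Type*} [Field K] [AddCommGroup V] [Module K V] [Nontrivial V] :
    ∃ l : V →+ K, l ≠ 0 := by
  obtain ⟨v, hv⟩ := exists_ne (0 : V)
  obtain ⟨f, hf⟩ := Module.Projective.exists_dual_ne_zero K hv
  refine ⟨f.toAddMonoidHom, fun h => hf ?_⟩
  exact DFunLike.congr_fun h v

theorem A07_form {V : Type*} [AddCommGroup V] [Nontrivial V]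
    (p : ℕ) [Fact p.Prime] (hp : ∀ v : V, p • v = 0) : ∃ l : V →+ ZMod p, l ≠ 0 := by
  let _ : Module (ZMod p) V := AddCommGroup.zmodModule hp
  exact A07_form0

/-- A07 -/
theorem Dn_pos {H V : Type*} [Group H] [AddCommGroup V] [DistribMulAction H V] [Finite H] [Finite V]
    [Nontrivial V] (p : ℕ) [Fact p.Prime] (hp : ∀ v : V, p • v = 0) : 1 ≤ Dn H V p := by
  obtain ⟨l, hl⟩ := A07_form p hp
  rw [Dn]
  have hfin : Finite (V →+ ZMod p) := Finite.of_injective (fun l : V →+ ZMod p => (l : V → ZMod p)) DFunLike.coe_injective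
  have hfin2 : Finite (Pr H V p) := Subtype.finite
  have : Finite (Quotient (PrSetoid H V p)) := Quotient.finite _
  have h1 : Nonempty (Quotient (PrSetoid H V p)) :=
    ⟨Quotient.mk _ ⟨(1, l), hl, fun v => by rw [one_smul]⟩⟩
  exact Nat.card_pos

end MX
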