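import Pool.Agent.helper81.MX.Defs4
import Pool.Agent.helper81.MX.A01

/-!
Row mx:A10 (helper39).
-/

set_option autoImplicit false

namespace MX

open scoped MatrixGroups

theorem A10_normal {H V : Type*} [Group H] [AddCommGroup V] [DistribMulAction H V]
    (K : Subgroup H) [K.Normal] (hfix : ∀ v : V, (∀ k ∈ K, k • v = v) → v = 0)
    (α : H → V) (hα : α ∈ Der H V) (v : V) (hv : ∀ k ∈ K, α k = k • v - v) :
    ∀ h : H, α h = h • v - v := by
  intro h
  have hd : ∀ g h : H, α (g * h) = α g + g • α h := hα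
  have key : α h - (h • v - v) = 0 := by
    apply hfix
    intro k hk
    have hk' : h⁻¹ * k * h ∈ K := by
      have := Subgroup.Normal.conj_mem (inferInstance : K.Normal) k hk h⁻¹
      rwa [inv_inv] at this
    have e1 : α (k * h) = (k • v - v) + k • α h := by rw [hd, hv k hk]
    have e2 : α (k * h) = α h + h • ((h⁻¹ * k * h) • v - v) := by
      have : k * h = h * (h⁻¹ * k * h) := by group
      rw [this, hd, hv _ hk']
    have e3 : h • ((h⁻¹ * k * h) • v - v) = k • h • v - h • v := by
      rw [smul_sub, smul_smul, smul_smul]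
      have : h * (h⁻¹ * k * h) = k * h := by group
      rw [this]
    rw [e3] at e2
    rw [smul_sub, smul_sub]
    have e4 := e1.symm.trans e2
    have e5 : k • α h = α h + (k • h • v - h • v) - (k • v - v) := by
      rw [← e4]; abel
    rw [e5]; abel
  rwa [sub_eq_zero] at key

/-- the fixed points of a nontrivial normal subgroup -/
theorem A10_fix {H V : Type*} [Group H] [AddCommGroup V] [DistribMulAction H V]
    (hirr : Irr H V) (hf : Fth H V) (K : Subgroup H) [K.Normal] :
    K = ⊥ ∨ ∀ v : V, (∀ k ∈ K, k • v = v) → v = 0 := by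
  rcases hirr.2 (fixS H V K) (by
    intro h v hv k hk
    have hk' : h⁻¹ * k * h ∈ K := by
      have := Subgroup.Normal.conj_mem (inferInstance : K.Normal) k hk h⁻¹
      rwa [inv_inv] at this
    have h1 : (h⁻¹ * k * h) • v = v := hv _ hk'
    have h2 : k • h • v = h • (h⁻¹ * k * h) • v := by
      rw [smul_smul, smul_smul]
      have : h * (h⁻¹ * k * h) = k * h := by group
      rw [this]
    rw [h2, h1]) with hb | ht
  · right
    intro v hv
    have : v ∈ fixS H V K := hv
    rw [hb, AddSubgroup.mem_bot] at this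
    exact this
  · left
    rw [Subgroup.eq_bot_iff_forall]
    intro k hk
    apply hf
    intro v
    have : v ∈ fixS H V K := by rw [ht]; exact AddSubgroup.mem_top v
    exact this k hk

/-- A10 -/
theorem allInner_abelian {H V : Type*} [Group H] [AddCommGroup V] [DistribMulAction H V] [Finite H]
    [Finite V] (hirr : Irr H V) (hf : Fth H V) (K : Subgroup H) (hK : MinN K)
    (hc : ∀ a ∈ K, ∀ b ∈ K, a * b = b * a) : AllInner H V := by
  classical
  obtain ⟨p, hp, hpV⟩ := irr_prime hirr
  have : Fact p.Prime := ⟨hp⟩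
  have hKn : K.Normal := hK.1
  have hfix : ∀ v : V, (∀ k ∈ K, k • v = v) → v = 0 := (A10_fix hirr hf K).resolve_left hK.2.1
  -- the elements of order dividing `p`
  let P : Subgroup H :=
    { carrier := {k | k ∈ K ∧ k ^ p = 1}
      one_mem' := ⟨K.one_mem, one_pow p⟩
      mul_mem' := by
        rintro a b ⟨ha, ha'⟩ ⟨hb, hb'⟩
        refine ⟨K.mul_mem ha hb, ?_⟩
        have hab : Commute a b := hc a ha b hb
        rw [hab.mul_pow, ha', hb', one_mul]
      inv_mem' := by
        rintro a ⟨ha, ha'⟩
        exact ⟨K.inv_mem ha, by rw [inv_pow, ha', inv_one]⟩ }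
  have hPn : P.Normal := by
    refine ⟨?_⟩
    rintro a ⟨ha, ha'⟩ g
    refine ⟨hKn.conj_mem a ha g, ?_⟩
    rw [conj_pow, ha', mul_one, mul_inv_cancel]
  have hPp : IsPGroup p P := by
    rintro ⟨a, ha, ha'⟩
    refine ⟨1, ?_⟩
    rw [pow_one]
    exact Subtype.ext ha'
  have hVc : p ∣ Nat.card V := by
    haveI := hirr.1
    obtain ⟨v, hv⟩ := exists_ne (0 : V)
    have := addOrderOf_eq_prime (hpV v) hv
    rw [← this]
    exact addOrderOf_dvd_natCard v
  have hPb : P = ⊥ := by
    rcases A10_fix hirr hf P with h | h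
    · exact h
    · exfalso
      obtain ⟨b, hb, hb0⟩ := hPp.exists_fixed_point_of_prime_dvd_card_of_fixed_point V hVc (a := (0 : V))
        (fun g => smul_zero g)
      apply hb0
      exact (h b (fun k hk => hb ⟨k, hk⟩)).symm
  have hKc : ¬ p ∣ Nat.card K := by
    intro hd
    obtain ⟨x, hx⟩ := exists_prime_orderOf_dvd_card' p hd
    have h1 : (x : H) ∈ P := by
      refine ⟨x.2, ?_⟩
      have h2 : x ^ p = 1 := by rw [← hx]; exact pow_orderOf_eq_one x
      have h3 := congrArg (fun z : K => (z : H)) h2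
      simpa using h3
    rw [hPb, Subgroup.mem_bot] at h1
    have h2 : x = 1 := Subtype.ext h1
    rw [h2, orderOf_one] at hx
    exact hp.one_lt.ne hx
  obtain ⟨m, -, hm⟩ := Nat.exists_mul_mod_eq_one_of_coprime
    (Nat.Coprime.symm ((Nat.Prime.coprime_iff_not_dvd hp).mpr hKc)) hp.one_lt
  have hm' : ∀ x : V, (Nat.card K * m) • x = x := by
    intro x
    rw [← Nat.mod_add_div (Nat.card K * m) p, hm, add_smul, one_smul, mul_comm p, mul_smul, hpV, smul_zero,
      add_zero]
  intro α hα
  have hd : ∀ g h : H, α (g * h) = α g + g • α h := hα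
  haveI : Fintype K := Fintype.ofFinite K
  let s : V := ∑ k : K, α k
  have hs : ∀ g ∈ K, Nat.card K • α g = g • (-s) - (-s) := by
    intro g hg
    have e1 : ∑ k : K, α ((⟨g, hg⟩ : K) * k : K) = s :=
      Equiv.sum_comp (Equiv.mulLeft (⟨g, hg⟩ : K)) (fun k : K => α k)
    have e2 : ∑ k : K, α ((⟨g, hg⟩ : K) * k : K) = Nat.card K • α g + g • s := by
      have : ∀ k : K, α ((⟨g, hg⟩ : K) * k : K) = α g + g • α k := fun k => hd g k
      rw [Finset.sum_congr rfl (fun k _ => this k), Finset.sum_add_distrib, Finset.sum_const, Finset.card_univ,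
        Nat.card_eq_fintype_card, Finset.smul_sum]
    rw [e1] at e2
    have e3 : Nat.card K • α g = s - g • s := by
      rw [eq_sub_iff_add_eq]; exact e2.symm
    rw [e3, smul_neg]; abel
  refine ⟨m • (-s), ?_⟩
  apply A10_normal K hfix α hα
  intro g hg
  have e1 := congrArg (fun z : V => m • z) (hs g hg)
  rw [smul_smul, mul_comm m, hm'] at e1
  rw [e1, smul_sub, smul_comm m g]

end MX
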