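import Pool.Agent.helper81.MX.Defs4

set_option autoImplicit false

namespace MX
open scoped MatrixGroups

section

variable {H V : Type*} [Group H] [AddCommGroup V] [DistribMulAction H V]

/-- stable subgroups -/
def A12_st (R : Subgroup H) (U : AddSubgroup V) : Prop := ∀ r ∈ R, ∀ v ∈ U, r • v ∈ U

/-- simple stable subgroups -/
def A12_simp (R : Subgroup H) (S : AddSubgroup V) : Prop :=
  A12_st R S ∧ S ≠ ⊥ ∧ ∀ U : AddSubgroup V, A12_st R U → U ≤ S → U = ⊥ ∨ U = S

/-- the sum of the simple stable subgroups -/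
def A12_soc (R : Subgroup H) : AddSubgroup V := sSup {S : AddSubgroup V | A12_simp R S}

theorem A12_st_inf (R : Subgroup H) (U W : AddSubgroup V) (hU : A12_st R U) (hW : A12_st R W) :
    A12_st R (U ⊓ W) := by
  intro r hr v hv
  exact ⟨hU r hr v hv.1, hW r hr v hv.2⟩

theorem A12_st_sup (R : Subgroup H) (U W : AddSubgroup V) (hU : A12_st R U) (hW : A12_st R W) :
    A12_st R (U ⊔ W) := by
  intro r hr v hv
  rw [AddSubgroup.mem_sup] at hv ⊢
  obtain ⟨u, hu, w, hw, rfl⟩ := hv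
  exact ⟨r • u, hU r hr u hu, r • w, hW r hr w hw, (smul_add r u w).symm⟩

theorem A12_exists_simp [Finite V] (R : Subgroup H) (U : AddSubgroup V) (hU : A12_st R U)
    (hne : U ≠ ⊥) : ∃ S : AddSubgroup V, S ≤ U ∧ A12_simp R S := by
  obtain ⟨S, hS⟩ := exists_minimal_of_wellFoundedLT
    (fun W : AddSubgroup V => A12_st R W ∧ W ≠ ⊥ ∧ W ≤ U) ⟨U, hU, hne, le_rfl⟩
  refine ⟨S, hS.prop.2.2, hS.prop.1, hS.prop.2.1, ?_⟩
  intro W hW hWS
  by_cases h0 : W = ⊥
  · exact Or.inl h0
  · right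
    exact le_antisymm hWS (hS.le_of_le ⟨hW, h0, hWS.trans hS.prop.2.2⟩ hWS)

/-- the image under an element -/
theorem A12_simp_map (R : Subgroup H) (k : H) (h1 : ∀ r ∈ R, k * r * k⁻¹ ∈ R)
    (h2 : ∀ r ∈ R, k⁻¹ * r * k ∈ R) (S : AddSubgroup V) (hS : A12_simp R S) :
    A12_simp R (S.map (DistribSMul.toAddMonoidHom V k)) := by
  obtain ⟨hst, hne, hmin⟩ := hS
  refine ⟨?_, ?_, ?_⟩
  · rintro r hr _ ⟨s, hs, rfl⟩
    refine ⟨(k⁻¹ * r * k) • s, hst _ (h2 r hr) s hs, ?_⟩
    show k • ((k⁻¹ * r * k) • s) = r • (k • s)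
    rw [smul_smul, smul_smul]
    congr 1
    group
  · intro h0
    apply hne
    rw [eq_bot_iff]
    intro s hs
    have h3 : k • s ∈ S.map (DistribSMul.toAddMonoidHom V k) := ⟨s, hs, rfl⟩
    rw [h0, AddSubgroup.mem_bot] at h3
    rw [AddSubgroup.mem_bot]
    have h4 : k⁻¹ • (k • s) = s := inv_smul_smul k s
    rw [← h4, h3, smul_zero]
  · intro U hU hle
    have h3 : A12_st R (U.comap (DistribSMul.toAddMonoidHom V k)) := by
      intro r hr v hv
      show k • (r • v) ∈ U
      have h4 : k • (r • v) = (k * r * k⁻¹) • (k • v) := by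
        rw [smul_smul, smul_smul]
        congr 1
        group
      rw [h4]
      exact hU _ (h1 r hr) _ hv
    have h5 : U.comap (DistribSMul.toAddMonoidHom V k) ≤ S := by
      intro v hv
      obtain ⟨s, hs, hs'⟩ := hle hv
      have h6 : k • s = k • v := hs'
      have h7 : s = v := by
        rw [← inv_smul_smul k s, h6, inv_smul_smul]
      rw [← h7]
      exact hs
    have hmapcomap : ∀ u ∈ U, k⁻¹ • u ∈ U.comap (DistribSMul.toAddMonoidHom V k) := by
      intro u hu
      show k • (k⁻¹ • u) ∈ U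
      rw [smul_inv_smul]
      exact hu
    rcases hmin _ h3 h5 with h6 | h6
    · left
      rw [eq_bot_iff]
      intro u hu
      have h7 := hmapcomap u hu
      rw [h6, AddSubgroup.mem_bot] at h7
      rw [AddSubgroup.mem_bot, ← smul_inv_smul k u, h7, smul_zero]
    · right
      apply le_antisymm hle
      rintro _ ⟨s, hs, rfl⟩
      have h7 : s ∈ U.comap (DistribSMul.toAddMonoidHom V k) := by
        rw [h6]
        exact hs
      exact h7

theorem A12_soc_stable (R : Subgroup H) (k : H) (h1 : ∀ r ∈ R, k * r * k⁻¹ ∈ R)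
    (h2 : ∀ r ∈ R, k⁻¹ * r * k ∈ R) (v : V) (hv : v ∈ (A12_soc R : AddSubgroup V)) :
    k • v ∈ (A12_soc R : AddSubgroup V) := by
  have h3 : (A12_soc R : AddSubgroup V) ≤
      (A12_soc R : AddSubgroup V).comap (DistribSMul.toAddMonoidHom V k) := by
    apply sSup_le
    intro S hS
    rw [← AddSubgroup.map_le_iff_le_comap]
    exact le_sSup (A12_simp_map R k h1 h2 S hS)
  exact h3 hv

/-- a sum of simple stable subgroups is semisimple -/
theorem A12_SS_of_soc [Finite V] (R : Subgroup H) (h : (A12_soc R : AddSubgroup V) = ⊤) :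
    SS H V R := by
  intro U hU
  obtain ⟨U', hU'⟩ := exists_maximal_of_wellFoundedGT
    (fun W : AddSubgroup V => A12_st R W ∧ Disjoint U W)
    ⟨⊥, fun r _ v hv => by rw [AddSubgroup.mem_bot] at hv ⊢; rw [hv, smul_zero], disjoint_bot_right⟩
  refine ⟨U', hU'.prop.1, hU'.prop.2, ?_⟩
  rw [codisjoint_iff, eq_top_iff, ← h]
  apply sSup_le
  intro S hS
  by_contra hcon
  have h1 : S ⊓ (U ⊔ U') = ⊥ := by
    rcases hS.2.2 (S ⊓ (U ⊔ U')) (A12_st_inf R _ _ hS.1 (A12_st_sup R _ _ hU hU'.prop.1))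
      inf_le_left with h2 | h2
    · exact h2
    · exact absurd (inf_eq_left.mp h2) hcon
  have h2 : Disjoint (U ⊔ U') S := by
    rw [disjoint_iff, inf_comm]
    exact h1
  have h3 : Disjoint U (U' ⊔ S) := hU'.prop.2.disjoint_sup_right_of_disjoint_sup_left h2
  have h4 : U' ⊔ S ≤ U' := hU'.le_of_ge ⟨A12_st_sup R _ _ hU'.prop.1 hS.1, h3⟩ le_sup_left
  exact hcon ((le_sup_right.trans h4).trans le_sup_right)

theorem A12_soc_st (R : Subgroup H) : A12_st R (A12_soc R : AddSubgroup V) := by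
  intro r hr v hv
  exact A12_soc_stable R r (fun x hx => R.mul_mem (R.mul_mem hr hx) (R.inv_mem hr))
    (fun x hx => R.mul_mem (R.mul_mem (R.inv_mem hr) hx) hr) v hv

/-- a semisimple module is the sum of its simple stable subgroups -/
theorem A12_soc_of_SS [Finite V] (R : Subgroup H) (h : SS H V R) :
    (A12_soc R : AddSubgroup V) = ⊤ := by
  obtain ⟨U', hU', hc⟩ := h (A12_soc R) (A12_soc_st R)
  by_cases h0 : U' = ⊥
  · have h1 := hc.sup_eq_top
    rwa [h0, sup_bot_eq] at h1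
  · exfalso
    obtain ⟨S, hSU, hS⟩ := A12_exists_simp R U' hU' h0
    have h1 : S ≤ A12_soc R := le_sSup hS
    have h2 : S ≤ ⊥ := by
      rw [← hc.inf_eq_bot]
      exact le_inf h1 hSU
    exact hS.2.1 (le_bot_iff.mp h2)

end

/-- A12 -/
theorem clifford {H V : Type*} [Group H] [AddCommGroup V] [DistribMulAction H V] [Finite H] [Finite V]
    (hirr : Irr H V) (N : Subgroup H) [N.Normal] : SS H V N := by
  apply A12_SS_of_soc
  have h1 : ∀ h : H, ∀ v ∈ (A12_soc N : AddSubgroup V), h • v ∈ (A12_soc N : AddSubgroup V) := by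
    intro h v hv
    apply A12_soc_stable N h _ _ v hv
    · intro r hr
      exact Subgroup.Normal.conj_mem inferInstance r hr h
    · intro r hr
      have := Subgroup.Normal.conj_mem (inferInstance : N.Normal) r hr h⁻¹
      rwa [inv_inv] at this
  obtain ⟨hnt, hirr'⟩ := hirr
  rcases hirr' _ h1 with h2 | h2
  · exfalso
    have h3 : (⊤ : AddSubgroup V) ≠ ⊥ := top_ne_bot
    obtain ⟨S, -, hS⟩ := A12_exists_simp N (⊤ : AddSubgroup V) (fun _ _ _ _ => trivial) h3
    have h4 : S ≤ A12_soc N := le_sSup hS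
    rw [h2] at h4
    exact hS.2.1 (le_bot_iff.mp h4)
  · exact h2

end MX
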