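import Pool.Agent.helper81.MX.A12

set_option autoImplicit false

namespace MX
open scoped MatrixGroups

/-- A13 -/
theorem clifford_sub {H V : Type*} [Group H] [AddCommGroup V] [DistribMulAction H V] [Finite H]
    [Finite V] (K R : Subgroup H) (hR : R ≤ K) (hn : ∀ k ∈ K, ∀ r ∈ R, k * r * k⁻¹ ∈ R)
    (hK : SS H V K) : SS H V R := by
  apply A12_SS_of_soc
  rw [eq_top_iff, ← A12_soc_of_SS K hK]
  apply sSup_le
  intro M hM
  obtain ⟨hst, hne, hmin⟩ := hM
  have hsocK : A12_st K (A12_soc R : AddSubgroup V) := by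
    intro k hk v hv
    apply A12_soc_stable R k (fun r hr => hn k hk r hr) _ v hv
    intro r hr
    have := hn k⁻¹ (K.inv_mem hk) r hr
    rwa [inv_inv] at this
  have hstR : A12_st R M := fun r hr v hv => hst r (hR hr) v hv
  obtain ⟨S, hSM, hS⟩ := A12_exists_simp R M hstR hne
  rcases hmin (M ⊓ A12_soc R) (A12_st_inf K _ _ hst hsocK) inf_le_left with h1 | h1
  · exfalso
    have h2 : S ≤ M ⊓ A12_soc R := le_inf hSM (le_sSup hS)
    rw [h1] at h2
    exact hS.2.1 (le_bot_iff.mp h2)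
  · exact inf_eq_left.mp h1

end MX
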