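import Pool.Agent.helper81.MX.A11

/-!
# Row A14 of project MX
-/

set_option autoImplicit false

namespace MX

section A14

/-- the action on a stable subgroup -/
@[reducible] def A14_act {K V : Type*} [Group K] [AddCommGroup V] [DistribMulAction K V]
    (U : AddSubgroup V) (hU : ∀ (k : K), ∀ v ∈ U, k • v ∈ U) : DistribMulAction K U where
  smul k u := ⟨k • (u : V), hU k u u.2⟩
  one_smul u := Subtype.ext (one_smul K (u : V))
  mul_smul a b u := Subtype.ext (mul_smul a b (u : V))
  smul_zero k := Subtype.ext (smul_zero k)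
  smul_add k u v := Subtype.ext (smul_add k (u : V) (v : V))

theorem A14_sup {K ι : Type*} [Group K] (L : ι → Subgroup K) (J : Finset ι) {motive : K → Prop} {x : K}
    (hx : x ∈ ⨆ i ∈ J, L i) (mem : ∀ i ∈ J, ∀ y ∈ L i, motive y) (one : motive 1)
    (mul : ∀ y z, motive y → motive z → motive (y * z)) : motive x := by
  refine Subgroup.iSup_induction (fun i => ⨆ (_ : i ∈ J), L i) (C := motive) hx ?_ one mul
  intro i y hy
  exact Subgroup.iSup_induction (fun (_ : i ∈ J) => L i) (C := motive) hy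
    (fun h z hz => mem i h z hz) one mul

/-- semisimplicity for a subfamily -/
def A14_SSJ {K ι : Type*} [Group K] (V : Type*) [AddCommGroup V] [DistribMulAction K V]
    (L : ι → Subgroup K) (J : Finset ι) : Prop :=
  ∀ U : AddSubgroup V, (∀ i ∈ J, ∀ r ∈ L i, ∀ v ∈ U, r • v ∈ U) →
    ∃ U' : AddSubgroup V, (∀ i ∈ J, ∀ r ∈ L i, ∀ v ∈ U', r • v ∈ U') ∧ IsCompl U U'

theorem A14_ind {K : Type*} [Group K] [Finite K] {ι : Type*} [DecidableEq ι] (p : ℕ) [Fact p.Prime]
    (L : ι → Subgroup K) (hN : ∀ i, (L i).Normal)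
    (hcomm : ∀ i j, i ≠ j → ∀ x ∈ L i, ∀ y ∈ L j, x * y = y * x) (n : ℕ) :
    ∀ (V : Type*) [AddCommGroup V] [Finite V] [DistribMulAction K V], (∀ v : V, p • v = 0) →
      ∀ (J : Finset ι), J.card = n → (∀ J' ⊆ J, A14_SSJ V L J') →
      (∀ i ∈ J, ∀ v : V, (∀ j ∈ J, j ≠ i → ∀ x ∈ L j, x • v = v) → v = 0) →
      ∀ α : K → V, α ∈ Der K V → ∃ v : V, ∀ i ∈ J, ∀ x ∈ L i, α x = x • v - v := by
  induction n with
  | zero =>
    intro V _ _ _ _ J hJ _ _ α _
    rw [Finset.card_eq_zero] at hJ
    subst hJ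
    exact ⟨0, fun i hi => absurd hi (Finset.notMem_empty i)⟩
  | succ n ih =>
    intro V _ _ _ hp J hJ hss hfix α hα
    have hJne : J.Nonempty := by
      rw [← Finset.card_pos, hJ]; exact Nat.succ_pos n
    obtain ⟨j, hj⟩ := hJne
    have hαm : ∀ g h : K, α (g * h) = α g + g • α h := hα
    set J' := J.erase j with hJ'
    have hcard : J'.card = n := by
      rw [hJ', Finset.card_erase_of_mem hj, hJ]; rfl
    set R : Subgroup K := ⨆ i ∈ J', L i with hR
    have hLR : ∀ i ∈ J', L i ≤ R := fun i hi => le_iSup₂ (f := fun i (_ : i ∈ J') => L i) i hi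
    have hfin : Fintype R := Fintype.ofFinite R
    have hssR : SS R V ⊤ := by
      intro U hU
      have h1 : ∀ i ∈ J', ∀ r ∈ L i, ∀ v ∈ U, r • v ∈ U := by
        intro i hi r hr v hv
        exact hU ⟨r, hLR i hi hr⟩ (Subgroup.mem_top _) v hv
      obtain ⟨U', h2, h3⟩ := hss J' (Finset.erase_subset j J) U h1
      refine ⟨U', ?_, h3⟩
      rintro ⟨r, hr⟩ _ 
      change ∀ v ∈ U', r • v ∈ U'
      refine A14_sup L J' (motive := fun r => ∀ v ∈ U', r • v ∈ U') hr h2 ?_ ?_
      · intro v hv
        rwa [one_smul]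
      · intro y z hy hz v hv
        rw [mul_smul]
        exact hy _ (hz _ hv)
    have hfixR : ∀ v : V, (∀ r : R, r • v = v) → v = 0 := by
      intro v hv
      apply hfix j hj v
      intro i hi hij x hx
      exact hv ⟨x, hLR i (Finset.mem_erase.2 ⟨hij, hi⟩) hx⟩
    obtain ⟨c, hc⟩ := lemmaE (R := R) (V := V) p hp hssR hfixR
    have hRL : ∀ r ∈ R, ∀ l ∈ L j, r * l = l * r := by
      intro r hr
      refine A14_sup L J' (motive := fun r => ∀ l ∈ L j, r * l = l * r) hr ?_ ?_ ?_
      · intro i hi y hy l hl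
        exact hcomm i j (Finset.mem_erase.1 hi).1 y hy l hl
      · intro l _
        rw [one_mul, mul_one]
      · intro y z hy hz l hl
        rw [mul_assoc, hz l hl, ← mul_assoc, hy l hl, mul_assoc]
    set u : V := ∑ r : R, c r • α (r : K) with hu
    have hαl : ∀ l ∈ L j, α l = l • u - u := by
      intro l hl
      have h1 : ∀ r : R, (r : K) • α l - α l = l • α (r : K) - α (r : K) := by
        intro r
        have h2 := hαm (r : K) l
        have h3 := hαm l (r : K)
        rw [hRL r r.2 l hl, h3] at h2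
        have h4 : α (r : K) + (r : K) • α l = α l + l • α (r : K) := h2.symm
        have h5 : (r : K) • α l = α l + l • α (r : K) - α (r : K) := by
          rw [← h4]; abel
        rw [h5]; abel
      have h2 := hc (α l)
      rw [← h2, hu, Finset.smul_sum, ← Finset.sum_sub_distrib]
      refine Finset.sum_congr rfl fun r _ => ?_
      have h3 : r • α l - α l = l • α (r : K) - α (r : K) := h1 r
      rw [h3, smul_sub]
      have h4 : c r • (l • α (r : K)) = l • (c r • α (r : K)) :=
        (map_zsmul (DistribMulAction.toAddMonoidHom V l) (c r) (α (r : K))).symm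
      rw [h4]
    set β : K → V := fun k => α k - (k • u - u) with hβ
    have hβm : ∀ g h : K, β (g * h) = β g + g • β h := by
      intro g h
      simp only [hβ]
      rw [hαm, mul_smul, smul_sub, smul_sub]
      abel
    have hβl : ∀ l ∈ L j, β l = 0 := by
      intro l hl
      simp only [hβ]
      rw [hαl l hl, sub_self]
    set U : AddSubgroup V := fixS K V (L j) with hUdef
    have hUst : ∀ k : K, ∀ v ∈ U, k • v ∈ U := by
      intro k v hv l hl
      have h1 : k⁻¹ * l * k ∈ L j := by
        have := (hN j).conj_mem l hl k⁻¹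
        rwa [inv_inv] at this
      have h2 : l • k • v = k • (k⁻¹ * l * k) • v := by
        rw [← mul_smul, ← mul_smul]
        congr 1
        group
      rw [h2, hv _ h1]
    have hβU : ∀ k : K, β k ∈ U := by
      intro k l hl
      have h1 : k⁻¹ * l * k ∈ L j := by
        have := (hN j).conj_mem l hl k⁻¹
        rwa [inv_inv] at this
      have h2 := hβm l k
      have h3 := hβm k (k⁻¹ * l * k)
      have e : k * (k⁻¹ * l * k) = l * k := by group
      rw [e, h2, hβl l hl, hβl _ h1, zero_add, smul_zero, add_zero] at h3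
      exact h3
    let inst : DistribMulAction K U := A14_act U hUst
    have hsmul : ∀ (k : K) (w : U), ((k • w : U) : V) = k • (w : V) := fun _ _ => rfl
    have hss' : ∀ J'' ⊆ J', A14_SSJ U L J'' := by
      intro J'' hJ'' W hW
      have h1 : ∀ i ∈ J'', ∀ r ∈ L i, ∀ v ∈ W.map U.subtype, r • v ∈ W.map U.subtype := by
        rintro i hi r hr v ⟨w, hw, rfl⟩
        exact ⟨r • w, hW i hi r hr w hw, rfl⟩
      obtain ⟨W2, h2, h3⟩ := hss J'' (hJ''.trans (Finset.erase_subset j J)) _ h1
      refine ⟨W2.comap U.subtype, ?_, ?_, ?_⟩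
      · intro i hi r hr v hv
        exact h2 i hi r hr v hv
      · rw [disjoint_iff, eq_bot_iff]
        rintro x ⟨hx1, hx2⟩
        have h4 : (x : V) ∈ W.map U.subtype ⊓ W2 := ⟨⟨x, hx1, rfl⟩, hx2⟩
        rw [disjoint_iff.1 h3.disjoint, AddSubgroup.mem_bot] at h4
        rw [AddSubgroup.mem_bot]
        exact Subtype.ext h4
      · rw [codisjoint_iff, eq_top_iff]
        intro x _
        have h4 : (x : V) ∈ W.map U.subtype ⊔ W2 := by
          rw [codisjoint_iff.1 h3.codisjoint]; exact AddSubgroup.mem_top _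
        obtain ⟨y, ⟨y', hy', rfl⟩, z, hz, h5⟩ := AddSubgroup.mem_sup.1 h4
        have h6 : z = ((x - y' : U) : V) := by
          rw [AddSubgroup.coe_sub, ← h5]
          change z = (y' : V) + z - (y' : V)
          abel
        have h7 : x = y' + (x - y') := by abel
        rw [h7]
        refine AddSubgroup.add_mem_sup hy' ?_
        change ((x - y' : U) : V) ∈ W2
        rw [← h6]
        exact hz
    have hfix' : ∀ i ∈ J', ∀ v : U, (∀ k ∈ J', k ≠ i → ∀ x ∈ L k, x • v = v) → v = 0 := by
      intro i hi v hv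
      apply Subtype.ext
      apply hfix i (Finset.mem_of_mem_erase hi) (v : V)
      intro k hk hki x hx
      by_cases hkj : k = j
      · subst hkj
        exact v.2 x hx
      · have := hv k (Finset.mem_erase.2 ⟨hkj, hk⟩) hki x hx
        exact congrArg Subtype.val this
    obtain ⟨w, hw⟩ := ih U (fun v => Subtype.ext (by
        rw [AddSubgroup.coe_nsmul]; exact hp (v : V))) J' hcard hss' hfix'
      (fun k => ⟨β k, hβU k⟩) (by
        intro g h
        apply Subtype.ext
        exact hβm g h)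
    refine ⟨u + (w : V), ?_⟩
    intro i hi x hx
    rw [smul_add]
    by_cases hij : i = j
    · subst hij
      rw [hαl x hx, w.2 x hx]
      abel
    · have h1 := congrArg Subtype.val (hw i (Finset.mem_erase.2 ⟨hij, hi⟩) x hx)
      have h2 : α x - (x • u - u) = x • (w : V) - (w : V) := h1
      have h3 : α x = (x • u - u) + (x • (w : V) - (w : V)) := by
        rw [← h2]; abel
      rw [h3]; abel

/-- A14 -/
theorem family_inner {H V : Type*} [Group H] [AddCommGroup V] [DistribMulAction H V] [Finite H]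
    [Finite V] (p : ℕ) [Fact p.Prime] (hp : ∀ v : V, p • v = 0) {ι : Type*} [Fintype ι]
    [DecidableEq ι] (L : ι → Subgroup H)
    (hcomm : ∀ i j, i ≠ j → ∀ x ∈ L i, ∀ y ∈ L j, x * y = y * x)
    (hss : ∀ J : Finset ι, SS H V (⨆ i ∈ J, L i))
    (hfix : ∀ i, ∀ v : V, (∀ j, j ≠ i → ∀ x ∈ L j, x • v = v) → v = 0)
    (α : H → V) (hα : α ∈ Der H V) : ∃ v : V, ∀ i, ∀ x ∈ L i, α x = x • v - v := by
  set K : Subgroup H := ⨆ i, L i with hK
  have hLK : ∀ i, L i ≤ K := fun i => le_iSup L i
  have hnorm : ∀ k ∈ K, ∀ i, ∀ l ∈ L i, k * l * k⁻¹ ∈ L i := by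
    intro k hk
    refine Subgroup.iSup_induction L (C := fun k => ∀ i, ∀ l ∈ L i, k * l * k⁻¹ ∈ L i) hk
      ?_ ?_ ?_
    · intro j y hy i l hl
      by_cases hji : j = i
      · subst hji
        exact (L j).mul_mem ((L j).mul_mem hy hl) ((L j).inv_mem hy)
      · rw [hcomm j i hji y hy l hl, mul_inv_cancel_right]
        exact hl
    · intro i l hl
      rw [one_mul, inv_one, mul_one]
      exact hl
    · intro y z hy hz i l hl
      have e : y * z * l * (y * z)⁻¹ = y * (z * l * z⁻¹) * y⁻¹ := by group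
      rw [e]
      exact hy i _ (hz i l hl)
  have hN : ∀ i, ((L i).subgroupOf K).Normal := by
    intro i
    refine ⟨?_⟩
    intro l hl k
    rw [Subgroup.mem_subgroupOf] at hl ⊢
    exact hnorm k k.2 i l hl
  have hcomm' : ∀ i j, i ≠ j → ∀ x ∈ (L i).subgroupOf K, ∀ y ∈ (L j).subgroupOf K,
      x * y = y * x := by
    intro i j hij x hx y hy
    apply Subtype.ext
    exact hcomm i j hij x hx y hy
  have hss' : ∀ J' ⊆ (Finset.univ : Finset ι), A14_SSJ V (fun i => (L i).subgroupOf K) J' := by
    intro J' _ U hU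
    obtain ⟨U', h1, h2⟩ := hss J' U (by
      intro r hr
      refine A14_sup L J' (motive := fun r => ∀ v ∈ U, r • v ∈ U) hr ?_ ?_ ?_
      · intro i hi y hy v hv
        exact hU i hi ⟨y, hLK i hy⟩ hy v hv
      · intro v hv
        rwa [one_smul]
      · intro y z hy hz v hv
        rw [mul_smul]
        exact hy _ (hz _ hv))
    refine ⟨U', ?_, h2⟩
    intro i hi r hr v hv
    exact h1 (r : H) (le_iSup₂ (f := fun i (_ : i ∈ J') => L i) i hi hr) v hv
  have hfix' : ∀ i ∈ (Finset.univ : Finset ι), ∀ v : V,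
      (∀ j ∈ (Finset.univ : Finset ι), j ≠ i → ∀ x ∈ (L j).subgroupOf K, x • v = v) → v = 0 := by
    intro i _ v hv
    apply hfix i v
    intro j hj x hx
    exact hv j (Finset.mem_univ j) hj ⟨x, hLK j hx⟩ hx
  obtain ⟨v, hv⟩ := A14_ind (K := K) p (fun i => (L i).subgroupOf K) hN hcomm' _ V hp Finset.univ rfl
    hss' hfix' (fun k => α k) (by
      intro g h
      exact hα g h)
  refine ⟨v, ?_⟩
  intro i x hx
  exact hv i (Finset.mem_univ i) ⟨x, hLK i hx⟩ hx

end A14

end MX
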