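import Pool.Agent.helper81.MX.Defs4
import Pool.Agent.helper81.MX.M02
import Pool.Agent.helper81.MX.A01
import Pool.Agent.helper81.MX.A09
import Pool.Agent.helper81.MX.A12
import Pool.Agent.helper81.MX.A13
import Pool.Agent.helper81.MX.A14

/-!
Row A15: all derivations are inner if the fixed points of `K ⊓ C(L)` vanish.
-/

set_option autoImplicit false

namespace MX

open scoped MatrixGroups

theorem A15_inner {H V : Type*} [Group H] [AddCommGroup V] [DistribMulAction H V]
    (α : H → V) (hα : α ∈ Der H V) (v : V) (S : Set H) (hS : ∀ x ∈ S, α x = x • v - v) :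
    ∀ x ∈ Subgroup.closure S, α x = x • v - v := by
  intro x hx
  have hd : ∀ g h, α (g * h) = α g + g • α h := hα
  have h1 : α 1 = 0 := by
    have h := hd 1 1
    rw [mul_one, one_smul] at h
    exact left_eq_add.1 h
  induction hx using Subgroup.closure_induction with
  | mem x hx => exact hS x hx
  | one => rw [h1, one_smul, sub_self]
  | mul x y _ _ hx hy =>
    rw [hd, hx, hy, smul_sub, mul_smul]
    abel
  | inv x _ hx =>
    have h2 := hd x⁻¹ x
    rw [inv_mul_cancel, h1, hx, smul_sub, inv_smul_smul] at h2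
    have h3 : α x⁻¹ = - (v - x⁻¹ • v) := eq_neg_of_add_eq_zero_left h2.symm
    rw [h3]
    abel

theorem A15_cj_cj {G : Type*} [Group G] (a g : G) (H : Subgroup G) :
    cj a (cj g H) = cj (a * g) H := by
  ext x
  rw [mem_cj, mem_cj, mem_cj]
  have e : g⁻¹ * (a⁻¹ * x * a) * g = (a * g)⁻¹ * x * (a * g) := by group
  rw [e]

/-- A15 -/
theorem allInner_W0 {H V : Type*} [Group H] [AddCommGroup V] [DistribMulAction H V] [Finite H]
    [Finite V] (hirr : Irr H V) (hf : Fth H V) (K L : Subgroup H) (hK : MinN K) (hM : Mfac L K)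
    (hW : fixS H V (K ⊓ Subgroup.centralizer (L : Set H)) = ⊥) : AllInner H V := by
  classical
  intro α hα
  obtain ⟨p, hp, hpv⟩ := irr_prime hirr
  have : Fact p.Prime := ⟨hp⟩
  obtain ⟨m1, m2, m3, m4, m5⟩ := Mfac_basic hM
  have hKn : K.Normal := hK.1
  have hcK : ∀ g : H, cj g L ≤ K := by
    intro g
    rw [hM.sup]
    exact le_iSup (fun g : H => cj g L) g
  -- different conjugates commute
  have hcomm : ∀ a b : H, cj a L ≠ cj b L → ∀ x ∈ cj a L, ∀ y ∈ cj b L, x * y = y * x := by
    intro a b hab x hx y hy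
    rcases hM.comm (a⁻¹ * b) with h | h
    · exfalso
      apply hab
      have h2 : cj a (cj (a⁻¹ * b) L) = cj b L := by rw [A15_cj_cj, mul_inv_cancel_left]
      rw [← h2, h]
    · have hx' : a⁻¹ * x * a ∈ L := (mem_cj a L x).1 hx
      have hy' : a⁻¹ * y * a ∈ cj (a⁻¹ * b) L := by
        rw [mem_cj]
        have e : (a⁻¹ * b)⁻¹ * (a⁻¹ * y * a) * (a⁻¹ * b) = b⁻¹ * y * b := by group
        rw [e]
        exact (mem_cj b L y).1 hy
      have h3 := h _ hx' _ hy'
      have e1 : x * y = a * (a⁻¹ * x * a * (a⁻¹ * y * a)) * a⁻¹ := by group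
      have e2 : y * x = a * (a⁻¹ * y * a * (a⁻¹ * x * a)) * a⁻¹ := by group
      rw [e1, e2, h3]
  -- `K` normalises the conjugates
  have hKcj : ∀ g : H, ∀ k ∈ K, ∀ x ∈ cj g L, k * x * k⁻¹ ∈ cj g L := by
    intro g k hk x hx
    rw [mem_cj] at hx ⊢
    have h1 : g⁻¹ * k * g ∈ K := by
      have := hKn.conj_mem k hk g⁻¹
      rwa [inv_inv] at this
    have h2 := (Subgroup.mem_normalizer_iff.1 (m2 h1) (g⁻¹ * x * g)).1 hx
    have e : g⁻¹ * k * g * (g⁻¹ * x * g) * (g⁻¹ * k * g)⁻¹ = g⁻¹ * (k * x * k⁻¹) * g := by group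
    rwa [e] at h2
  have hSSK : SS H V K := clifford hirr K
  -- the sup of the conjugates different from `L`
  set R : Subgroup H := ⨆ g : {g : H // cj g L ≠ L}, cj (g : H) L with hR
  have h1L : cj (1 : H) L = L := by
    ext x
    rw [mem_cj]
    simp
  have hRC : R ≤ Subgroup.centralizer (L : Set H) := by
    rw [hR]
    apply iSup_le
    rintro ⟨g, hg⟩ x hx
    rw [Subgroup.mem_centralizer_iff]
    intro l hl
    refine hcomm 1 g ?_ l ?_ x hx
    · rw [h1L]
      exact fun h => hg h.symm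
    · rw [h1L]
      exact hl
  have hKD : ∀ k ∈ K, ∃ l ∈ L, ∃ r ∈ R, k = l * r := by
    have hc : ∀ l ∈ L, ∀ r ∈ R, l * r = r * l := fun l hl r hr =>
      Subgroup.mem_centralizer_iff.1 (hRC hr) l hl
    let D : Subgroup H :=
      { carrier := {k | ∃ l ∈ L, ∃ r ∈ R, k = l * r}
        mul_mem' := by
          rintro a b ⟨l, hl, r, hr, rfl⟩ ⟨l', hl', r', hr', rfl⟩
          refine ⟨l * l', L.mul_mem hl hl', r * r', R.mul_mem hr hr', ?_⟩
          calc l * r * (l' * r') = l * (r * l') * r' := by group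
            _ = l * (l' * r) * r' := by rw [hc l' hl' r hr]
            _ = l * l' * (r * r') := by group
        one_mem' := ⟨1, L.one_mem, 1, R.one_mem, by rw [mul_one]⟩
        inv_mem' := by
          rintro a ⟨l, hl, r, hr, rfl⟩
          refine ⟨l⁻¹, L.inv_mem hl, r⁻¹, R.inv_mem hr, ?_⟩
          rw [mul_inv_rev]
          exact (hc l⁻¹ (L.inv_mem hl) r⁻¹ (R.inv_mem hr)).symm }
    have hKle : K ≤ D := by
      rw [hM.sup]
      apply iSup_le
      intro g x hx
      by_cases hg : cj g L = L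
      · rw [hg] at hx
        exact ⟨x, hx, 1, R.one_mem, by rw [mul_one]⟩
      · refine ⟨1, L.one_mem, x, ?_, by rw [one_mul]⟩
        have : cj g L ≤ R := le_iSup (fun g : {g : H // cj g L ≠ L} => cj (g : H) L) ⟨g, hg⟩
        exact this hx
    exact fun k hk => hKle hk
  have hRle : K ⊓ Subgroup.centralizer (L : Set H) ≤ R := by
    intro k hk
    obtain ⟨l, hl, r, hr, rfl⟩ := hKD k hk.1
    have h2 : l ∈ Subgroup.centralizer (L : Set H) := by
      have h3 := Subgroup.mul_mem _ hk.2 (Subgroup.inv_mem _ (hRC hr))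
      rwa [mul_inv_cancel_right] at h3
    have h4 : l ∈ L ⊓ Subgroup.centralizer (L : Set H) := ⟨hl, h2⟩
    rw [m3] at h4
    rw [Subgroup.mem_bot.1 h4, one_mul]
    exact hr
  -- the family of conjugates
  let ι : Type _ := {M : Subgroup H // ∃ g : H, M = cj g L}
  have : Fintype ι := Fintype.ofFinite ι
  obtain ⟨v, hv⟩ := family_inner (H := H) (V := V) p hpv (ι := ι) (fun i => i.1)
    (by
      rintro ⟨_, a, rfl⟩ ⟨_, b, rfl⟩ hne x hx y hy
      exact hcomm a b (fun h => hne (Subtype.ext h)) x hx y hy)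
    (by
      intro J
      refine clifford_sub K _ ?_ ?_ hSSK
      · apply iSup₂_le
        rintro ⟨_, a, rfl⟩ _
        exact hcK a
      · intro k hk
        have hle : (⨆ i ∈ J, (i : ι).1) ≤ (⨆ i ∈ J, (i : ι).1).comap (MulAut.conj k).toMonoidHom := by
          apply iSup₂_le
          rintro ⟨_, a, rfl⟩ hJ x hx
          show k * x * k⁻¹ ∈ (⨆ i ∈ J, (i : ι).1 : Subgroup H)
          have h2 : cj a L ≤ ⨆ i ∈ J, (i : ι).1 :=
            le_iSup₂_of_le (⟨cj a L, a, rfl⟩ : ι) hJ le_rfl
          exact h2 (hKcj a k hk x hx)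
        exact fun r hr => hle hr)
    (by
      rintro ⟨_, g, rfl⟩ v hv
      have h2 : g⁻¹ • v ∈ fixS H V (K ⊓ Subgroup.centralizer (L : Set H)) := by
        have hst : R ≤ MulAction.stabilizer H (g⁻¹ • v) := by
          rw [hR]
          apply iSup_le
          rintro ⟨a, ha⟩ x hx
          rw [MulAction.mem_stabilizer_iff]
          have h3 : g * x * g⁻¹ ∈ cj (g * a) L := by
            rw [mem_cj]
            have e : (g * a)⁻¹ * (g * x * g⁻¹) * (g * a) = a⁻¹ * x * a := by group
            rw [e]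
            exact (mem_cj a L x).1 hx
          have h4 : (g * x * g⁻¹) • v = v := by
            refine hv ⟨cj (g * a) L, g * a, rfl⟩ ?_ _ h3
            intro h5
            apply ha
            have h6 : cj (g * a) L = cj g L := congrArg Subtype.val h5
            have h7 : cj g⁻¹ (cj (g * a) L) = cj g⁻¹ (cj g L) := by rw [h6]
            rw [A15_cj_cj, A15_cj_cj, inv_mul_cancel_left, inv_mul_cancel, h1L] at h7
            exact h7
          have h8 : x • g⁻¹ • v = g⁻¹ • (g * x * g⁻¹) • v := by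
            rw [smul_smul, smul_smul]
            have : g⁻¹ * (g * x * g⁻¹) = x * g⁻¹ := by group
            rw [this]
          rw [h8, h4]
        intro r hr
        exact MulAction.mem_stabilizer_iff.1 (hst (hRle hr))
      rw [hW] at h2
      have h3 := AddSubgroup.mem_bot.1 h2
      rw [← smul_inv_smul g v, h3, smul_zero])
    α hα
  refine ⟨v, inner_of_normal K ?_ α hα v ?_⟩
  · intro w hw
    have h2 : w ∈ fixS H V (K ⊓ Subgroup.centralizer (L : Set H)) := fun r hr => hw r hr.1
    rw [hW] at h2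
    exact AddSubgroup.mem_bot.1 h2
  · intro k hk
    have h2 : k ∈ Subgroup.closure (⋃ g : H, ((cj g L : Subgroup H) : Set H)) := by
      rw [← Subgroup.iSup_eq_closure, ← hM.sup]
      exact hk
    refine A15_inner α hα v _ ?_ k h2
    intro x hx
    obtain ⟨g, hg⟩ := Set.mem_iUnion.1 hx
    exact hv ⟨cj g L, g, rfl⟩ x hg

end MX
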