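import Pool.Agent.helper81.MX.Defs4
import Pool.Agent.helper81.MX.M02

/-!
Row A16: the irreducible module is induced from the normalizer of a simple factor.
-/

set_option autoImplicit false

namespace MX

open scoped MatrixGroups

section A16sec

variable {H V : Type} [Group H] [AddCommGroup V] [DistribMulAction H V]

theorem A16_stab (K L : Subgroup H) (hK : K.Normal) (t : H)
    (ht : t ∈ Subgroup.normalizer (L : Set H)) (v : V)
    (hv : v ∈ fixS H V (K ⊓ Subgroup.centralizer (L : Set H))) :
    t • v ∈ fixS H V (K ⊓ Subgroup.centralizer (L : Set H)) := by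
  intro r hr
  have h1 : t⁻¹ * r * t ∈ K ⊓ Subgroup.centralizer (L : Set H) := by
    refine Subgroup.mem_inf.2 ⟨?_, ?_⟩
    · have := hK.conj_mem r hr.1 t⁻¹
      rwa [inv_inv] at this
    · rw [Subgroup.mem_centralizer_iff]
      intro l hl
      have h2 : t * l * t⁻¹ ∈ L := (Subgroup.mem_normalizer_iff.1 ht l).1 hl
      have h3 := Subgroup.mem_centralizer_iff.1 hr.2 _ h2
      calc l * (t⁻¹ * r * t) = t⁻¹ * ((t * l * t⁻¹) * r) * t := by group
        _ = t⁻¹ * (r * (t * l * t⁻¹)) * t := by rw [h3]
        _ = t⁻¹ * r * t * l := by group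
  have h4 : r • t • v = t • (t⁻¹ * r * t) • v := by
    rw [smul_smul, smul_smul]
    have : t * (t⁻¹ * r * t) = r * t := by group
    rw [this]
  rw [h4, hv _ h1]

theorem A16_fix (hirr : Irr H V) (hf : Fth H V) (K : Subgroup H) (hK : MinN K) (v : V)
    (hv : ∀ k ∈ K, k • v = v) : v = 0 := by
  have hn : K.Normal := hK.1
  have hst : ∀ h : H, ∀ w ∈ fixS H V K, h • w ∈ fixS H V K := by
    intro h w hw k hk
    have h1 : h⁻¹ * k * h ∈ K := by
      have := hn.conj_mem k hk h⁻¹
      rwa [inv_inv] at this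
    have h4 : k • h • w = h • (h⁻¹ * k * h) • w := by
      rw [smul_smul, smul_smul]
      have : h * (h⁻¹ * k * h) = k * h := by group
      rw [this]
    rw [h4, hw _ h1]
  rcases hirr.2 (fixS H V K) hst with h | h
  · have h1 : v ∈ fixS H V K := hv
    rw [h] at h1
    exact AddSubgroup.mem_bot.1 h1
  · exfalso
    apply hK.2.1
    rw [Subgroup.eq_bot_iff_forall]
    intro k hk
    apply hf k
    intro w
    have h1 : w ∈ fixS H V K := by
      rw [h]
      exact AddSubgroup.mem_top w
    exact h1 k hk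

omit [Group H] [DistribMulAction H V] in
theorem A16_proj (W U : AddSubgroup V) (h1 : W ⊓ U = ⊥) (h2 : W ⊔ U = ⊤) :
    ∃ pr : V →+ W, ∀ (v : V) (w : W), v - (w : V) ∈ U → pr v = w := by
  have ex : ∀ v : V, ∃ w : W, v - (w : V) ∈ U := by
    intro v
    have hv : v ∈ W ⊔ U := by
      rw [h2]
      exact AddSubgroup.mem_top v
    obtain ⟨w, hw, u, hu, rfl⟩ := AddSubgroup.mem_sup.1 hv
    refine ⟨⟨w, hw⟩, ?_⟩
    have : w + u - w = u := by abel
    rw [this]
    exact hu
  have uniq : ∀ (v : V) (w w' : W), v - (w : V) ∈ U → v - (w' : V) ∈ U → w = w' := by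
    intro v w w' h h'
    have h3 : (w : V) - w' ∈ W ⊓ U := by
      refine AddSubgroup.mem_inf.2 ⟨W.sub_mem w.2 w'.2, ?_⟩
      have h4 := U.sub_mem h' h
      have h5 : v - (w' : V) - (v - (w : V)) = (w : V) - w' := by abel
      rwa [h5] at h4
    rw [h1] at h3
    exact Subtype.ext (sub_eq_zero.1 (AddSubgroup.mem_bot.1 h3))
  choose f hf using ex
  refine ⟨⟨⟨f, ?_⟩, ?_⟩, ?_⟩
  · apply uniq 0 (f 0) 0 (hf 0)
    have : (0 : V) - ((0 : W) : V) = 0 := by simp
    rw [this]
    exact U.zero_mem
  · intro x y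
    show f (x + y) = f x + f y
    apply uniq (x + y) (f (x + y)) (f x + f y) (hf (x + y))
    have h3 := U.add_mem (hf x) (hf y)
    have h4 : x - (f x : V) + (y - (f y : V)) = x + y - ((f x + f y : W) : V) := by
      rw [AddSubgroup.coe_add]
      abel
    rwa [h4] at h3
  · intro v w hw
    exact uniq v (f v) w (hf v) hw

end A16sec

/-- A16 -/
theorem exists_Ind {H V : Type} [Group H] [AddCommGroup V] [DistribMulAction H V] [Finite H]
    [Finite V] (hirr : Irr H V) (hf : Fth H V) (K L : Subgroup H) (hK : MinN K) (hM : Mfac L K)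
    (hW : fixS H V (K ⊓ Subgroup.centralizer (L : Set H)) ≠ ⊥) :
    ∃ (W : Type) (_ : AddCommGroup W) (_ : Finite W)
      (_ : DistribMulAction (Subgroup.normalizer (L : Set H)) W) (j : W →+ V) (pr : V →+ W),
      IndM (Subgroup.normalizer (L : Set H)).subtype j pr ∧
      (∀ w : W, (∀ l : Subgroup.normalizer (L : Set H), (l : H) ∈ L → l • w = w) → w = 0) := by
  classical
  obtain ⟨m1, m2, m3, m4, m5⟩ := Mfac_basic hM
  have hKn : K.Normal := hK.1
  set R : Subgroup H := K ⊓ Subgroup.centralizer (L : Set H) with hR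
  set T : Subgroup H := Subgroup.normalizer (L : Set H) with hT
  set W : AddSubgroup V := fixS H V R with hWdef
  have hstab : ∀ t ∈ T, ∀ v ∈ W, t • v ∈ W := fun t ht v hv => A16_stab K L hKn t ht v hv
  set U : AddSubgroup V := AddSubgroup.closure {v | ∃ h : H, h ∉ T ∧ ∃ w ∈ W, v = h • w} with hU
  -- `L` acts trivially on `U`
  have hLU : ∀ u ∈ U, ∀ l ∈ L, l • u = u := by
    have hle : U ≤ fixS H V L := by
      rw [hU, AddSubgroup.closure_le]
      rintro v ⟨h, hh, w, hw, rfl⟩ l hl
      have hh' : h⁻¹ ∉ T := fun h' => hh (by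
        have := T.inv_mem h'
        rwa [inv_inv] at this)
      have h1 : h⁻¹ * l * h ∈ R := by
        refine Subgroup.mem_inf.2 ⟨?_, ?_⟩
        · have := hKn.conj_mem l (m1 hl) h⁻¹
          rwa [inv_inv] at this
        · have := m5 h⁻¹ hh' l hl
          rwa [inv_inv] at this
      have h4 : l • h • w = h • (h⁻¹ * l * h) • w := by
        rw [smul_smul, smul_smul]
        have : h * (h⁻¹ * l * h) = l * h := by group
        rw [this]
      rw [h4, hw _ h1]
    exact fun u hu l hl => hle hu l hl
  -- vectors of `W` fixed by `L` vanish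
  have hWL : ∀ w ∈ W, (∀ l ∈ L, l • w = w) → w = 0 := by
    intro w hw hl
    apply A16_fix hirr hf K hK w
    intro k hk
    obtain ⟨l, hlL, hlk⟩ := m4 k hk
    have h1 : l⁻¹ * k ∈ R := Subgroup.mem_inf.2 ⟨K.mul_mem (K.inv_mem (m1 hlL)) hk, hlk⟩
    have h2 : k • w = l • (l⁻¹ * k) • w := by
      rw [smul_smul, mul_inv_cancel_left]
    rw [h2, hw _ h1, hl l hlL]
  have hbot : W ⊓ U = ⊥ := by
    rw [AddSubgroup.eq_bot_iff_forall]
    intro w hw
    exact hWL w (AddSubgroup.mem_inf.1 hw).1 (hLU w (AddSubgroup.mem_inf.1 hw).2)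
  -- the sum of all translates is everything
  have hgen : ∀ A : AddSubgroup V, (∀ h : H, ∀ w ∈ W, h • w ∈ A) → A = ⊤ := by
    intro A hA
    set B : AddSubgroup V := AddSubgroup.closure {v | ∃ h : H, ∃ w ∈ W, v = h • w} with hB
    have hBA : B ≤ A := by
      rw [hB, AddSubgroup.closure_le]
      rintro v ⟨h, w, hw, rfl⟩
      exact hA h w hw
    have hBst : ∀ h : H, ∀ v ∈ B, h • v ∈ B := by
      intro h
      have hle : B ≤ B.comap (DistribSMul.toAddMonoidHom V h) := by
        nth_rewrite 1 [hB]
        rw [AddSubgroup.closure_le]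
        rintro v ⟨g, w, hw, rfl⟩
        show h • g • w ∈ B
        rw [smul_smul]
        exact AddSubgroup.subset_closure ⟨h * g, w, hw, rfl⟩
      exact fun v hv => hle hv
    rcases hirr.2 B hBst with h | h
    · exfalso
      apply hW
      rw [AddSubgroup.eq_bot_iff_forall]
      intro w hw
      have h1 : (1 : H) • w ∈ B := AddSubgroup.subset_closure ⟨1, w, hw, rfl⟩
      rw [one_smul, h] at h1
      exact AddSubgroup.mem_bot.1 h1
    · rw [h] at hBA
      exact top_le_iff.1 hBA
  have htop : W ⊔ U = ⊤ := by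
    apply hgen
    intro h w hw
    by_cases hh : h ∈ T
    · exact AddSubgroup.mem_sup_left (hstab h hh w hw)
    · exact AddSubgroup.mem_sup_right (AddSubgroup.subset_closure ⟨h, hh, w, hw, rfl⟩)
  -- `T` preserves `U`
  have hUst : ∀ t ∈ T, ∀ u ∈ U, t • u ∈ U := by
    intro t ht
    have hle : U ≤ U.comap (DistribSMul.toAddMonoidHom V t) := by
      nth_rewrite 1 [hU]
      rw [AddSubgroup.closure_le]
      rintro v ⟨g, hg, w, hw, rfl⟩
      show t • g • w ∈ U
      rw [smul_smul]
      refine AddSubgroup.subset_closure ⟨t * g, fun h => hg ?_, w, hw, rfl⟩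
      have := T.mul_mem (T.inv_mem ht) h
      rwa [inv_mul_cancel_left] at this
    exact fun v hv => hle hv
  obtain ⟨pr, hpr⟩ := A16_proj W U hbot htop
  -- the action of `T` on `W`
  let act : DistribMulAction T W :=
    { smul := fun t w => ⟨(t : H) • (w : V), hstab t t.2 w w.2⟩
      one_smul := fun w => Subtype.ext (one_smul H (w : V))
      mul_smul := fun s t w => Subtype.ext (mul_smul (s : H) (t : H) (w : V))
      smul_zero := fun t => Subtype.ext (smul_zero (t : H))
      smul_add := fun t v w => Subtype.ext (smul_add (t : H) (v : V) (w : V)) }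
  have hact : ∀ (t : T) (w : W), ((t • w : W) : V) = (t : H) • (w : V) := fun t w => rfl
  refine ⟨W, inferInstance, inferInstance, act, W.subtype, pr, ?_, ?_⟩
  · refine ⟨Subtype.val_injective, fun t w => hact t w, ?_, ?_, ?_, ?_⟩
    · intro w
      apply hpr
      have : W.subtype w - (w : V) = 0 := sub_self _
      rw [this]
      exact U.zero_mem
    · intro h hh w
      apply hpr
      have : h • W.subtype w - ((0 : W) : V) = h • (w : V) := by
        rw [AddSubgroup.coe_zero, sub_zero]
        rfl
      rw [this]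
      refine AddSubgroup.subset_closure ⟨h, fun h' => hh ?_, w, w.2, rfl⟩
      exact ⟨⟨h, h'⟩, rfl⟩
    · intro t v
      apply hpr
      rw [hact]
      have h1 : v - ((pr v : W) : V) ∈ U := by
        have hv : v ∈ W ⊔ U := by
          rw [htop]
          exact AddSubgroup.mem_top v
        obtain ⟨w, hw, u, hu, rfl⟩ := AddSubgroup.mem_sup.1 hv
        have h2 : pr (w + u) = ⟨w, hw⟩ := by
          apply hpr
          have : w + u - ((⟨w, hw⟩ : W) : V) = u := by
            show w + u - w = u
            abel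
          rw [this]
          exact hu
        rw [h2]
        show w + u - w ∈ U
        have : w + u - w = u := by abel
        rw [this]
        exact hu
      have h3 := hUst t t.2 _ h1
      rw [smul_sub] at h3
      exact h3
    · intro A hA
      exact hgen A fun h w hw => hA h ⟨w, hw⟩
  · intro w hw
    apply Subtype.ext
    show (w : V) = 0
    apply hWL w w.2
    intro l hl
    have h1 := hw ⟨l, Subgroup.le_normalizer hl⟩ hl
    exact congrArg Subtype.val h1

end MX
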