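import Pool.Agent.helper81.MX.Defs4

/-!
Row A17: Shapiro's lemma for derivations (numbers).
-/

set_option autoImplicit false

namespace MX

section A17sec

variable {T H W V : Type*} [Group T] [Group H] [AddCommGroup W] [AddCommGroup V]
    [DistribMulAction T W] [DistribMulAction H V] {i : T →* H} {j : W →+ V} {pr : V →+ W}

theorem A17_out (i : T →* H) (g : H) : ∃ t : T, ((g : H ⧸ i.range)).out = g * i t := by
  obtain ⟨⟨x, t, rfl⟩, hx⟩ := QuotientGroup.mk_out_eq_mul i.range g
  exact ⟨t, hx⟩

theorem A17_ne {q : H ⧸ i.range} {g : H} (hq : q ≠ (g : H ⧸ i.range)) :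
    g⁻¹ * q.out ∉ i.range ∧ q.out⁻¹ * g ∉ i.range := by
  constructor
  · intro h
    apply hq
    have h1 := (QuotientGroup.eq (s := i.range) (a := g) (b := q.out)).2 h
    rw [QuotientGroup.out_eq'] at h1
    exact h1.symm
  · intro h
    apply hq
    have h1 := (QuotientGroup.eq (s := i.range) (a := q.out) (b := g)).2 h
    rw [QuotientGroup.out_eq'] at h1
    exact h1

theorem A17_key (h : IndM i j pr) [Fintype (H ⧸ i.range)] (φ : H → W)
    (hφ : ∀ g t, φ (g * i t) = t⁻¹ • φ g) (g : H) :
    pr (g⁻¹ • ∑ q : H ⧸ i.range, q.out • j (φ q.out)) = φ g := by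
  rw [Finset.smul_sum, map_sum, Finset.sum_eq_single (g : H ⧸ i.range)]
  · obtain ⟨t, ht⟩ := A17_out i g
    rw [ht, hφ, smul_smul, inv_mul_cancel_left, ← h.equi, smul_inv_smul, h.prj]
  · intro q _ hq
    rw [smul_smul]
    exact h.prz _ (A17_ne hq).1 _
  · intro h1
    exact absurd (Finset.mem_univ _) h1

theorem A17_sep (h : IndM i j pr) [Fintype (H ⧸ i.range)] (x : V) (hx : ∀ g : H, pr (g • x) = 0) :
    x = 0 := by
  have hU := h.gen
    { carrier := {x | x = ∑ q : H ⧸ i.range, q.out • j (pr (q.out⁻¹ • x))}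
      add_mem' := by
        intro a b ha hb
        show a + b = ∑ q : H ⧸ i.range, q.out • j (pr (q.out⁻¹ • (a + b)))
        have e : ∀ q : H ⧸ i.range, q.out • j (pr (q.out⁻¹ • (a + b))) =
            q.out • j (pr (q.out⁻¹ • a)) + q.out • j (pr (q.out⁻¹ • b)) := by
          intro q
          rw [smul_add, map_add, map_add, smul_add]
        rw [Finset.sum_congr rfl fun q _ => e q, Finset.sum_add_distrib]
        have ha' : a = ∑ q : H ⧸ i.range, q.out • j (pr (q.out⁻¹ • a)) := ha
        have hb' : b = ∑ q : H ⧸ i.range, q.out • j (pr (q.out⁻¹ • b)) := hb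
        rw [← ha', ← hb']
      zero_mem' := by
        show (0 : V) = ∑ q : H ⧸ i.range, q.out • j (pr (q.out⁻¹ • (0 : V)))
        simp
      neg_mem' := by
        intro a ha
        show -a = ∑ q : H ⧸ i.range, q.out • j (pr (q.out⁻¹ • (-a)))
        have e : ∀ q : H ⧸ i.range, q.out • j (pr (q.out⁻¹ • (-a))) =
            -(q.out • j (pr (q.out⁻¹ • a))) := by
          intro q
          rw [smul_neg, map_neg, map_neg, smul_neg]
        rw [Finset.sum_congr rfl fun q _ => e q, Finset.sum_neg_distrib]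
        have ha' : a = ∑ q : H ⧸ i.range, q.out • j (pr (q.out⁻¹ • a)) := ha
        rw [← ha'] }
    (by
      intro g w
      show g • j w = ∑ q : H ⧸ i.range, q.out • j (pr (q.out⁻¹ • (g • j w)))
      rw [Finset.sum_eq_single (g : H ⧸ i.range)]
      · obtain ⟨t, ht⟩ := A17_out i g
        rw [ht, smul_smul, mul_inv_rev, inv_mul_cancel_right, ← map_inv i, ← h.equi, h.prj,
          mul_smul, ← h.equi, smul_inv_smul]
      · intro q _ hq
        rw [smul_smul, h.prz _ (A17_ne hq).2, map_zero, smul_zero]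
      · intro h1
        exact absurd (Finset.mem_univ _) h1)
  have hx' : x ∈ (⊤ : AddSubgroup V) := AddSubgroup.mem_top x
  rw [← hU] at hx'
  have hx2 : x = ∑ q : H ⧸ i.range, q.out • j (pr (q.out⁻¹ • x)) := hx'
  rw [hx2]
  refine Finset.sum_eq_zero fun q _ => ?_
  rw [hx, map_zero, smul_zero]

/-- The map `α ↦ pr ∘ α ∘ i`. -/
def A17_f (i : T →* H) (pr : V →+ W) : (H → V) →+ (T → W) where
  toFun α := fun t => pr (α (i t))
  map_zero' := by funext t; simp
  map_add' := by intro a b; funext t; simp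

theorem A17_der (h : IndM i j pr) (α : H → V) (hα : α ∈ Der H V) :
    A17_f i pr α ∈ Der T W := by
  intro g t
  show pr (α (i (g * t))) = pr (α (i g)) + g • pr (α (i t))
  rw [map_mul, hα, map_add, h.pre]

theorem A17_inn (h : IndM i j pr) [Fintype (H ⧸ i.range)] (α : H → V) (hα : α ∈ Der H V)
    (hin : A17_f i pr α ∈ Inn T W) : α ∈ Inn H V := by
  obtain ⟨w, hw⟩ := hin
  have hw' : ∀ t : T, pr (α (i t)) = t • w - w := fun t => (congrFun hw t).symm
  have hα' : ∀ g k : H, α (g * k) = α g + g • α k := hα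
  set φ : H → W := fun g => w - pr (g⁻¹ • α g) with hφ
  have hφ1 : ∀ g t, φ (g * i t) = t⁻¹ • φ g := by
    intro g t
    simp only [hφ]
    rw [hα', mul_inv_rev, smul_add, mul_smul, mul_smul, ← map_inv i, map_add, h.pre, h.pre,
      smul_smul g⁻¹ g, inv_mul_cancel, one_smul, hw', smul_sub, smul_sub, inv_smul_smul]
    abel
  set v : V := ∑ q : H ⧸ i.range, q.out • j (φ q.out) with hv
  have hv1 : ∀ g, pr (g⁻¹ • v) = φ g := fun g => A17_key h φ hφ1 g
  have hone : α 1 = 0 := by
    have := hα' 1 1
    rw [mul_one, one_smul] at this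
    simpa using this
  have hprv : pr v = w := by
    have := hv1 1
    simp only [hφ, inv_one, one_smul, hone, map_zero, sub_zero] at this
    exact this
  -- the difference
  set β : H → V := fun g => α g - (g • v - v) with hβ
  have hβ1 : ∀ g k : H, β (g * k) = β g + g • β k := by
    intro g k
    simp only [hβ]
    rw [hα', mul_smul, smul_sub, smul_sub]
    abel
  have hβ2 : ∀ g : H, pr (g⁻¹ • β g) = 0 := by
    intro g
    simp only [hβ]
    rw [smul_sub, smul_sub, map_sub, map_sub, smul_smul g⁻¹ g, inv_mul_cancel, one_smul, hprv, hv1]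
    simp only [hφ]
    abel
  have hβone : β 1 = 0 := by
    have := hβ1 1 1
    rw [mul_one, one_smul] at this
    simpa using this
  have hβ3 : ∀ k : H, pr (β k) = 0 := by
    intro k
    have h1 := hβ1 k k⁻¹
    rw [mul_inv_cancel, hβone] at h1
    have h2 : β k = -(k • β k⁻¹) := eq_neg_of_add_eq_zero_left h1.symm
    have h3 := hβ2 k⁻¹
    rw [inv_inv] at h3
    rw [h2, map_neg, h3, neg_zero]
  have hβ4 : ∀ k : H, β k = 0 := by
    intro k
    apply A17_sep h
    intro g
    -- `g • β k = β (g k) - β g`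
    have h1 := hβ1 g k
    have h2 : g • β k = β (g * k) - β g := by rw [h1]; abel
    rw [h2, map_sub, hβ3, hβ3, sub_zero]
  refine ⟨v, ?_⟩
  funext g
  show g • v - v = α g
  have := hβ4 g
  simp only [hβ] at this
  exact (sub_eq_zero.1 this).symm

end A17sec

/-- A17 -/
theorem shapiro {T H W V : Type*} [Group T] [Group H] [AddCommGroup W] [AddCommGroup V]
    [DistribMulAction T W] [DistribMulAction H V] [Finite H] [Finite V] (i : T →* H) (j : W →+ V)
    (pr : V →+ W) (h : IndM i j pr) : h1 H V ≤ h1 T W := by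
  classical
  have hT : Finite T := Finite.of_injective i h.inj
  have hW : Finite W := Finite.of_injective j (Function.LeftInverse.injective h.prj)
  have := Fintype.ofFinite (H ⧸ i.range)
  unfold h1
  have e1 : (Inn H V).relIndex (Der H V) ≤ ((Inn T W).comap (A17_f i pr)).relIndex (Der H V) := by
    rw [← AddSubgroup.inf_relIndex_right ((Inn T W).comap (A17_f i pr))]
    refine AddSubgroup.relIndex_le_of_le_left ?_ ?_
    · intro α hα
      exact A17_inn h α hα.2 hα.1
    · exact AddSubgroup.index_ne_zero_of_finite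
  have e2 : ((Inn T W).comap (A17_f i pr)).relIndex (Der H V) =
      (Inn T W).relIndex ((Der H V).map (A17_f i pr)) := AddSubgroup.relIndex_comap _ _ _
  rw [e2] at e1
  refine e1.trans (AddSubgroup.relIndex_le_of_le_right ?_ ?_)
  · rintro _ ⟨α, hα, rfl⟩
    exact A17_der h α hα
  · exact AddSubgroup.index_ne_zero_of_finite

end MX
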