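import Pool.Agent.helper81.MX.Defs4

/-!
Row A18: classes of pairs for induced modules.
-/

set_option autoImplicit false

namespace MX
open scoped MatrixGroups

theorem A18_fin {H V : Type*} [Group H] [AddCommGroup V] [DistribMulAction H V] [Finite H]
    [Finite V] (p : ℕ) [Fact p.Prime] : Finite (Pr H V p) := by
  have h0 : NeZero p := ⟨(Fact.out : p.Prime).ne_zero⟩
  have h1 : Finite (V →+ ZMod p) :=
    Finite.of_injective (fun f : V →+ ZMod p => (f : V → ZMod p)) DFunLike.coe_injective
  unfold Pr
  infer_instance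

/-- A18 -/
theorem Dn_ind {T H W V A : Type*} [Group T] [Group H] [Group A] [AddCommGroup W] [AddCommGroup V]
    [DistribMulAction T W] [DistribMulAction H V] [DistribMulAction A W] [Finite H] [Finite V]
    (i : T →* H) (j : W →+ V) (pr : V →+ W) (h : IndM i j pr) (q : T →* A)
    (hq : Function.Surjective q) (hact : ∀ (t : T) (w : W), t • w = q t • w) (p : ℕ)
    [Fact p.Prime] : Dn A W p ≤ Dn H V p := by
  have hfin : Finite (Pr H V p) := A18_fin p
  choose s hs using hq
  let F : Pr A W p → Pr H V p := fun x => ⟨(i (s x.1.1), x.1.2.comp pr), by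
    constructor
    · intro h0
      apply x.2.1
      ext w
      have h1 := DFunLike.congr_fun h0 (j w)
      rw [AddMonoidHom.comp_apply, h.prj] at h1
      exact h1
    · intro v
      show x.1.2 (pr (i (s x.1.1) • v)) = x.1.2 (pr v)
      rw [h.pre, hact, hs]
      exact x.2.2 _⟩
  have hF : ∀ x y : Pr A W p, PrRel H V p (F x) (F y) → PrRel A W p x y := by
    rintro x y ⟨g, h1, h2⟩
    have h1' : i (s y.1.1) = g * i (s x.1.1) * g⁻¹ := h1
    have h2' : ∀ v : V, y.1.2 (pr v) = x.1.2 (pr (g⁻¹ • v)) := h2
    have hg : g ∈ i.range := by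
      by_contra hg
      apply y.2.1
      ext w
      have h3 := h2' (j w)
      rw [h.prj, h.prz g⁻¹ (fun h4 => hg (by simpa using i.range.inv_mem h4)), map_zero] at h3
      exact h3
    obtain ⟨r, rfl⟩ := hg
    refine ⟨q r, ?_, fun w => ?_⟩
    · have h3 : s y.1.1 = r * s x.1.1 * r⁻¹ := by
        apply h.inj
        rw [h1']
        simp
      rw [← hs y.1.1, h3]
      simp [hs]
    · have h3 := h2' (j w)
      rw [h.prj, ← map_inv, h.pre, h.prj, hact, map_inv] at h3
      exact h3
  unfold Dn
  refine Nat.card_le_card_of_injective (fun c : Quotient (PrSetoid A W p) =>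
    (Quotient.mk (PrSetoid H V p) (F c.out))) ?_
  intro c d hcd
  have h1 : PrRel H V p (F c.out) (F d.out) := Quotient.exact hcd
  have h2 := hF _ _ h1
  have h3 : (Quotient.mk (PrSetoid A W p) c.out) = Quotient.mk (PrSetoid A W p) d.out :=
    Quotient.sound h2
  rw [Quotient.out_eq, Quotient.out_eq] at h3
  exact h3

end MX
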