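import Pool.Agent.helper81.MX.Defs4

set_option autoImplicit false

namespace MX

/-- A19 -/
theorem irr_ind {T H W V : Type*} [Group T] [Group H] [AddCommGroup W] [AddCommGroup V]
    [DistribMulAction T W] [DistribMulAction H V] [Finite H] [Finite V] (i : T →* H) (j : W →+ V)
    (pr : V →+ W) (h : IndM i j pr) (hirr : Irr H V) : Irr T W := by
  obtain ⟨hV, hirr⟩ := hirr
  refine ⟨?_, ?_⟩
  · by_contra hW
    rw [not_nontrivial_iff_subsingleton] at hW
    have h1 := h.gen ⊥ (fun g w => by
      have : w = 0 := Subsingleton.elim _ _
      rw [this, map_zero, smul_zero]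
      exact AddSubgroup.zero_mem _)
    exact bot_ne_top h1
  · intro U hU
    set M : AddSubgroup V := AddSubgroup.closure {v | ∃ (g : H) (u : W), u ∈ U ∧ v = g • j u} with hM
    have hst : ∀ g : H, ∀ v ∈ M, g • v ∈ M := by
      intro g v hv
      rw [hM] at hv
      induction hv using AddSubgroup.closure_induction with
      | mem x hx =>
        obtain ⟨k, u, hu, rfl⟩ := hx
        exact AddSubgroup.subset_closure ⟨g * k, u, hu, by rw [mul_smul]⟩
      | zero => rw [smul_zero]; exact M.zero_mem
      | add x y _ _ hx hy => rw [smul_add]; exact M.add_mem hx hy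
      | neg x _ hx => rw [smul_neg]; exact M.neg_mem hx
    rcases hirr M hst with h1 | h1
    · left
      rw [eq_bot_iff]
      intro u hu
      have h2 : (1 : H) • j u ∈ M := AddSubgroup.subset_closure ⟨1, u, hu, rfl⟩
      rw [h1, one_smul, AddSubgroup.mem_bot] at h2
      have h3 := h.prj u
      rw [h2, map_zero] at h3
      rw [AddSubgroup.mem_bot, ← h3]
    · right
      have h2 : ∀ v ∈ M, pr v ∈ U := by
        intro v hv
        rw [hM] at hv
        induction hv using AddSubgroup.closure_induction with
        | mem x hx =>
          obtain ⟨k, u, hu, rfl⟩ := hx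
          by_cases hk : k ∈ i.range
          · obtain ⟨t, rfl⟩ := hk
            rw [h.pre, h.prj]
            exact hU t u hu
          · rw [h.prz k hk]
            exact U.zero_mem
        | zero => rw [map_zero]; exact U.zero_mem
        | add x y _ _ hx hy => rw [map_add]; exact U.add_mem hx hy
        | neg x _ hx => rw [map_neg]; exact U.neg_mem hx
      rw [eq_top_iff]
      intro w _
      have h3 := h2 (j w) (by rw [h1]; exact AddSubgroup.mem_top _)
      rwa [h.prj] at h3

end MX
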