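import Pool.Agent.helper81.MX.Defs4

set_option autoImplicit false

/-! Row mx:A20 (helper9). -/

namespace MX
open scoped MatrixGroups

/-- composition with `q` -/
def A20_comp {T A : Type*} [Group T] [Group A] (W : Type*) [AddCommGroup W] (q : T →* A) :
    (A → W) →+ (T → W) where
  toFun β := fun t => β (q t)
  map_zero' := rfl
  map_add' _ _ := rfl

theorem A20_inj {T A W : Type*} [Group T] [Group A] [AddCommGroup W] (q : T →* A)
    (hq : Function.Surjective q) : Function.Injective (A20_comp W q) := by
  intro β β' h
  funext a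
  obtain ⟨t, rfl⟩ := hq a
  exact congrFun h t

/-- A20 -/
theorem h1_quot {T W A : Type*} [Group T] [Group A] [AddCommGroup W] [Finite T] [Finite W]
    [DistribMulAction T W] [DistribMulAction A W] (q : T →* A)
    (hq : Function.Surjective q) (hact : ∀ (t : T) (w : W), t • w = q t • w) (L : Subgroup T)
    (hL : ∀ l ∈ L, ∀ c ∈ q.ker, l * c = c * l)
    (hfix : ∀ w : W, (∀ l ∈ L, l • w = w) → w = 0) : h1 T W ≤ h1 A W := by
  have htriv : ∀ c ∈ q.ker, ∀ w : W, c • w = w := by
    intro c hc w
    rw [hact, MonoidHom.mem_ker.1 hc, one_smul]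
  have hker : ∀ α ∈ Der T W, ∀ c ∈ q.ker, α c = 0 := by
    intro α hα c hc
    apply hfix
    intro l hl
    have e1 := hα l c
    have e2 := hα c l
    rw [← hL l hl c hc, e1, htriv c hc] at e2
    rw [add_comm] at e2
    exact add_right_cancel e2
  have hfac : ∀ α ∈ Der T W, ∀ s t : T, q s = q t → α s = α t := by
    intro α hα s t hst
    have h1 : t⁻¹ * s ∈ q.ker := by
      rw [MonoidHom.mem_ker, map_mul, map_inv, hst, inv_mul_cancel]
    have h2 := hα t (t⁻¹ * s)
    rw [hker α hα _ h1, smul_zero, add_zero, mul_inv_cancel_left] at h2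
    exact h2
  have hder : (Der A W).map (A20_comp W q) = Der T W := by
    ext α
    constructor
    · rintro ⟨β, hβ, rfl⟩ g h
      have h1 := hβ (q g) (q h)
      show β (q (g * h)) = β (q g) + g • β (q h)
      rw [map_mul, h1, hact]
    · intro hα
      refine ⟨fun a => α (Function.surjInv hq a), ?_, ?_⟩
      · intro a b
        have h1 := hα (Function.surjInv hq a) (Function.surjInv hq b)
        rw [hact, Function.surjInv_eq hq] at h1
        show α (Function.surjInv hq (a * b)) = _
        rw [← h1]
        apply hfac α hα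
        rw [map_mul, Function.surjInv_eq hq, Function.surjInv_eq hq, Function.surjInv_eq hq]
      · funext t
        show α (Function.surjInv hq (q t)) = α t
        apply hfac α hα
        rw [Function.surjInv_eq hq]
  have hinn : (Inn A W).map (A20_comp W q) = Inn T W := by
    ext α
    constructor
    · rintro ⟨β, ⟨v, rfl⟩, rfl⟩
      refine ⟨v, ?_⟩
      funext h
      show h • v - v = q h • v - v
      rw [hact]
    · rintro ⟨v, rfl⟩
      refine ⟨inn A W v, ⟨v, rfl⟩, ?_⟩
      funext h
      show q h • v - v = h • v - v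
      rw [hact]
  unfold h1
  rw [← hder, ← hinn, AddSubgroup.relIndex_map_map_of_injective _ _ (A20_inj q hq)]

end MX
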