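import Pool.Agent.helper81.MX.Defs4

/-!
# Row A11 of project MX
-/

set_option autoImplicit false

namespace MX

section A11

variable {R V : Type*} [Group R] [AddCommGroup V] [DistribMulAction R V]

/-- the ring homomorphism of the group ring -/
noncomputable def A11_f (R V : Type*) [Group R] [AddCommGroup V] [DistribMulAction R V] :
    MonoidAlgebra ℤ R →+* Module.End ℤ V :=
  (MonoidAlgebra.lift ℤ (Module.End ℤ V) R (DistribMulAction.toModuleEnd ℤ V)).toRingHom

theorem A11_f_apply (a : MonoidAlgebra ℤ R) (v : V) :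
    A11_f R V a v = a.coeff.sum fun r c => c • (r • v) := by
  have h : A11_f R V a = a.coeff.sum fun r c => c • (DistribMulAction.toModuleEnd ℤ V r) :=
    MonoidAlgebra.lift_apply (DistribMulAction.toModuleEnd ℤ V) a
  rw [h, Finsupp.sum, Finsupp.sum, LinearMap.sum_apply]
  rfl

theorem A11_f_single (r : R) (v : V) :
    A11_f R V (MonoidAlgebra.single r 1) v = r • v := by
  have h : A11_f R V (MonoidAlgebra.single r 1) = (1 : ℤ) • (DistribMulAction.toModuleEnd ℤ V r) :=
    MonoidAlgebra.lift_single (DistribMulAction.toModuleEnd ℤ V) r 1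
  rw [h, one_smul]
  rfl

/-- the augmentation -/
noncomputable def A11_aug (R : Type*) [Group R] : MonoidAlgebra ℤ R →+* ℤ :=
  (MonoidAlgebra.lift ℤ ℤ R (1 : R →* ℤ)).toRingHom

theorem A11_aug_apply (a : MonoidAlgebra ℤ R) : A11_aug R a = a.coeff.sum fun _ c => c := by
  have h : A11_aug R a = a.coeff.sum fun r c => c • ((1 : R →* ℤ) r) :=
    MonoidAlgebra.lift_apply (1 : R →* ℤ) a
  rw [h]
  simp

theorem A11_aug_single (r : R) : A11_aug R (MonoidAlgebra.single r 1) = 1 := by
  have h : A11_aug R (MonoidAlgebra.single r 1) = (1 : ℤ) • ((1 : R →* ℤ) r) :=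
    MonoidAlgebra.lift_single (1 : R →* ℤ) r 1
  rw [h]
  simp

end A11

/-- A11: Lemma E -/
theorem lemmaE {R V : Type*} [Group R] [Fintype R] [AddCommGroup V] [Finite V] [DistribMulAction R V]
    (p : ℕ) [Fact p.Prime] (hp : ∀ v : V, p • v = 0) (hss : SS R V ⊤)
    (hfix : ∀ v : V, (∀ r : R, r • v = v) → v = 0) :
    ∃ c : R → ℤ, ∀ v : V, ∑ r : R, c r • (r • v - v) = v := by
  classical
  let _ : Module (MonoidAlgebra ℤ R) V := Module.compHom V (A11_f R V)
  have hsm : ∀ (a : MonoidAlgebra ℤ R) (v : V), a • v = A11_f R V a v := fun a v => rfl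
  have hss' : IsSemisimpleModule (MonoidAlgebra ℤ R) V := by
    rw [isSemisimpleModule_iff]
    refine ⟨fun N => ?_⟩
    obtain ⟨U', hU', hc⟩ := hss N.toAddSubgroup (by
      intro r _ v hv
      have h1 : (MonoidAlgebra.single r (1 : ℤ) : MonoidAlgebra ℤ R) • v ∈ N := N.smul_mem _ hv
      rw [hsm, A11_f_single] at h1
      exact h1)
    refine ⟨{ carrier := U'
              add_mem' := fun ha hb => U'.add_mem ha hb
              zero_mem' := U'.zero_mem
              smul_mem' := ?_ }, ?_, ?_⟩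
    · intro a v hv
      rw [hsm, A11_f_apply, Finsupp.sum]
      exact U'.sum_mem (fun r _ => U'.zsmul_mem (hU' r (Subgroup.mem_top r) v hv) _)
    · rw [Submodule.disjoint_def]
      intro x hx hx'
      have h1 : x ∈ N.toAddSubgroup ⊓ U' := ⟨hx, hx'⟩
      rw [hc.inf_eq_bot] at h1
      exact h1
    · rw [codisjoint_iff, eq_top_iff]
      intro x _
      have h1 : x ∈ N.toAddSubgroup ⊔ U' := by rw [hc.sup_eq_top]; trivial
      obtain ⟨y, hy, z, hz, hyz⟩ := AddSubgroup.mem_sup.mp h1
      rw [← hyz]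
      exact Submodule.add_mem_sup hy hz
  -- the module of functions
  set A := MonoidAlgebra ℤ R with hAdef
  set u : V → V := id with hu
  set I : Submodule A A := RingHom.ker (A11_aug R) with hI
  set N : Submodule A (V → V) := I.map (LinearMap.toSpanSingleton A (V → V) u) with hN
  obtain ⟨N', hN'⟩ := exists_isCompl N
  have hu' : u ∈ N ⊔ N' := by rw [hN'.sup_eq_top]; trivial
  obtain ⟨x, hx, y, hy, hxy⟩ := Submodule.mem_sup.mp hu'
  -- `y` is fixed
  have hyfix : ∀ r : R, (MonoidAlgebra.single r (1 : ℤ) : A) • y = y := by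
    intro r
    have e1 : ((MonoidAlgebra.single r (1 : ℤ) : A) - 1) • u ∈ N := by
      refine ⟨(MonoidAlgebra.single r (1 : ℤ) : A) - 1, ?_, rfl⟩
      show (MonoidAlgebra.single r (1 : ℤ) : A) - 1 ∈ RingHom.ker (A11_aug R)
      rw [RingHom.mem_ker, map_sub, map_one, A11_aug_single, sub_self]
    have e2 : ((MonoidAlgebra.single r (1 : ℤ) : A) - 1) • x ∈ N := N.smul_mem _ hx
    have e3 : ((MonoidAlgebra.single r (1 : ℤ) : A) - 1) • y ∈ N' := N'.smul_mem _ hy
    have e4 : ((MonoidAlgebra.single r (1 : ℤ) : A) - 1) • y ∈ N := by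
      have : ((MonoidAlgebra.single r (1 : ℤ) : A) - 1) • y =
          ((MonoidAlgebra.single r (1 : ℤ) : A) - 1) • u - ((MonoidAlgebra.single r (1 : ℤ) : A) - 1) • x := by
        rw [← smul_sub, ← hxy, add_sub_cancel_left]
      rw [this]
      exact N.sub_mem e1 e2
    have e5 := (Submodule.disjoint_def.mp hN'.disjoint) _ e4 e3
    rw [sub_smul, one_smul, sub_eq_zero] at e5
    exact e5
  have hy0 : y = 0 := by
    funext v
    refine hfix (y v) (fun r => ?_)
    have h1 := congrFun (hyfix r) v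
    rw [Pi.smul_apply, hsm, A11_f_single] at h1
    exact h1
  rw [hy0, add_zero] at hxy
  rw [hxy] at hx
  obtain ⟨a, ha, hau⟩ := hx
  have ha0 : A11_aug R a = 0 := ha
  have hav : ∀ v : V, A11_f R V a v = v := by
    intro v
    have h1 := congrFun hau v
    exact h1
  refine ⟨fun r => a.coeff r, fun v => ?_⟩
  rw [A11_aug_apply, Finsupp.sum_fintype _ _ (fun _ => rfl)] at ha0
  have h2 := hav v
  rw [A11_f_apply, Finsupp.sum_fintype (a.coeff) (fun r c => c • (r • v)) (fun _ => zero_smul ℤ _)] at h2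
  simp only [smul_sub]
  rw [Finset.sum_sub_distrib, ← Finset.sum_smul, ha0, zero_smul, sub_zero, h2]

end MX
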