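import Pool.Agent.helper81.MX.Defs4
import Pool.Agent.helper81.MX.A01
import Pool.Agent.helper81.MX.A09
import Pool.Agent.helper81.MX.A11
import Pool.Agent.helper81.MX.A12

set_option autoImplicit false

namespace MX

theorem A21_SS {H V : Type*} [Group H] [AddCommGroup V] [DistribMulAction H V] (R : Subgroup H)
    (h : SS H V R) : SS R V ⊤ := by
  intro U hU
  obtain ⟨U', h1, h2⟩ := h U (fun r hr v hv => hU ⟨r, hr⟩ (Subgroup.mem_top _) v hv)
  exact ⟨U', fun r _ v hv => h1 (r : H) r.2 v hv, h2⟩

theorem A21_fix {A W : Type*} [Group A] [AddCommGroup W] [DistribMulAction A W]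
    (hirr : Irr A W) (hf : Fth A W) (R : Subgroup A) [hR : R.Normal]
    (hne : ∃ a : A, a ≠ 1 ∧ a ∈ R) : ∀ w : W, (∀ r ∈ R, r • w = w) → w = 0 := by
  obtain ⟨_, hmin⟩ := hirr
  have hstab : ∀ h : A, ∀ v ∈ fixS A W R, h • v ∈ fixS A W R := by
    intro h v hv r hr
    have hr' : h⁻¹ * r * h ∈ R := by
      have := hR.conj_mem r hr h⁻¹
      rwa [inv_inv] at this
    have h1 := hv _ hr'
    calc r • h • v = h • ((h⁻¹ * r * h) • v) := by
          rw [smul_smul, smul_smul]
          congr 1
          group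
      _ = h • v := by rw [h1]
  rcases hmin (fixS A W R) hstab with h | h
  · intro w hw
    have : w ∈ fixS A W R := hw
    rw [h] at this
    exact (AddSubgroup.mem_bot).1 this
  · exfalso
    obtain ⟨a, ha, haR⟩ := hne
    apply ha
    apply hf
    intro v
    have : v ∈ fixS A W R := by rw [h]; exact AddSubgroup.mem_top v
    exact this a haR

/-- A21 -/
theorem allInner_cent {A W : Type*} [Group A] [AddCommGroup W] [DistribMulAction A W] [Finite A]
    [Finite W] (hirr : Irr A W) (hf : Fth A W) (L : Subgroup A) [L.Normal]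
    (hfix : ∀ w : W, (∀ l ∈ L, l • w = w) → w = 0)
    (hC : ∃ a : A, a ≠ 1 ∧ ∀ x ∈ L, a * x = x * a) : AllInner A W := by
  classical
  intro α hα
  obtain ⟨p, hp, hpv⟩ := irr_prime hirr
  have : Fact p.Prime := ⟨hp⟩
  let R : Subgroup A := Subgroup.centralizer (L : Set A)
  have hRmem : ∀ r : A, r ∈ R ↔ ∀ x ∈ L, r * x = x * r := by
    intro r
    rw [Subgroup.mem_centralizer_iff]
    constructor
    · intro h x hx; exact (h x hx).symm
    · intro h x hx; exact (h x hx).symm
  have hRn : R.Normal := Subgroup.normal_centralizer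
  have hfR := A21_fix hirr hf R (by
    obtain ⟨a, ha, hax⟩ := hC
    exact ⟨a, ha, (hRmem a).2 hax⟩)
  letI : Fintype R := Fintype.ofFinite R
  obtain ⟨c, hc⟩ := lemmaE (R := R) (V := W) p hpv (A21_SS R (clifford hirr R))
    (fun v hv => hfR v (fun r hr => hv ⟨r, hr⟩))
  refine ⟨∑ r : R, c r • α (r : A), ?_⟩
  apply inner_of_normal L hfix α hα
  intro l hl
  have hcomm : ∀ r : R, r • α l - α l = l • α (r : A) - α (r : A) := by
    intro r
    have e : (r : A) * l = l * (r : A) := (hRmem r).1 r.2 l hl
    have h1 := hα (r : A) l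
    have h2 := hα l (r : A)
    rw [e, h2] at h1
    have h3 : (r • α l : W) = (r : A) • α l := rfl
    rw [h3]
    have h4 : (r : A) • α l = α l + l • α (r : A) - α (r : A) := by
      rw [h1]; abel
    rw [h4]; abel
  calc α l = ∑ r : R, c r • (r • α l - α l) := (hc (α l)).symm
    _ = ∑ r : R, c r • (l • α (r : A) - α (r : A)) := by
        apply Finset.sum_congr rfl
        intro r _
        rw [hcomm r]
    _ = l • (∑ r : R, c r • α (r : A)) - ∑ r : R, c r • α (r : A) := by
        rw [Finset.smul_sum, ← Finset.sum_sub_distrib]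
        apply Finset.sum_congr rfl
        intro r _
        have e : l • (c r • α (r : A)) = c r • (l • α (r : A)) :=
          map_zsmul (DistribSMul.toAddMonoidHom W l) (c r) (α (r : A))
        rw [smul_sub, e]

end MX
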