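import Pool.Agent.helper81.MX.Defs

/-!
# Row M01 of project MX
-/

set_option autoImplicit false

namespace MX

open scoped MatrixGroups

section M01

variable {G : Type*} [Group G]

theorem M01_cj_mul (g h : G) (L : Subgroup G) : cj g (cj h L) = cj (g * h) L := by
  ext x
  rw [mem_cj, mem_cj, mem_cj]
  have e : h⁻¹ * (g⁻¹ * x * g) * h = (g * h)⁻¹ * x * (g * h) := by group
  rw [e]

theorem M01_cj_one (L : Subgroup G) : cj 1 L = L := by
  ext x
  rw [mem_cj]
  simp

theorem M01_cj_mono (g : G) {L K : Subgroup G} (h : L ≤ K) : cj g L ≤ cj g K := by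
  intro x hx
  rw [mem_cj] at hx ⊢
  exact h hx

/-- nontrivial subgroups of `N` normalized by `N` -/
def M01_P (N L : Subgroup G) : Prop := L ≤ N ∧ L ≠ ⊥ ∧ ∀ n ∈ N, cj n L ≤ L

theorem M01_P_cj {N L : Subgroup G} (hN : N.Normal) (h : M01_P N L) (g : G) :
    M01_P N (cj g L) := by
  obtain ⟨h1, h2, h3⟩ := h
  refine ⟨?_, ?_, ?_⟩
  · intro x hx
    rw [mem_cj] at hx
    have h4 := hN.conj_mem _ (h1 hx) g
    have e : g * (g⁻¹ * x * g) * g⁻¹ = x := by group
    rwa [e] at h4
  · intro h4
    apply h2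
    have h5 : cj g⁻¹ (cj g L) = cj g⁻¹ ⊥ := by rw [h4]
    rw [M01_cj_mul, inv_mul_cancel, M01_cj_one] at h5
    rw [h5]
    ext x
    rw [mem_cj, Subgroup.mem_bot, Subgroup.mem_bot]
    constructor
    · intro h6
      have h7 : x = g⁻¹ * (g⁻¹⁻¹ * x * g⁻¹) * g := by group
      rw [h7, h6]
      group
    · intro h6
      rw [h6]
      group
  · intro n hn
    rw [M01_cj_mul]
    have e : n * g = g * (g⁻¹ * n * g) := by group
    rw [e, ← M01_cj_mul]
    apply M01_cj_mono
    apply h3
    have h4 := hN.conj_mem _ hn g⁻¹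
    rwa [inv_inv] at h4

theorem M01_P_inf {N L K : Subgroup G} (h : M01_P N L) (h' : M01_P N K) (hne : L ⊓ K ≠ ⊥) :
    M01_P N (L ⊓ K) := by
  refine ⟨inf_le_left.trans h.1, hne, ?_⟩
  intro n hn
  exact le_inf ((M01_cj_mono n inf_le_left).trans (h.2.2 n hn))
    ((M01_cj_mono n inf_le_right).trans (h'.2.2 n hn))

theorem M01_conj_mem {N L : Subgroup G} (h : M01_P N L) {n x : G} (hn : n ∈ N) (hx : x ∈ L) :
    n * x * n⁻¹ ∈ L := by
  apply h.2.2 n hn
  rw [mem_cj]
  have e : n⁻¹ * (n * x * n⁻¹) * n = x := by group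
  rw [e]
  exact hx

/-- existence of a nonabelian simple factor -/
theorem exists_Mfac {G : Type*} [Group G] [Finite G] (N : Subgroup G) (hN : MinN N)
    (hna : ∃ a ∈ N, ∃ b ∈ N, a * b ≠ b * a) : ∃ L : Subgroup G, Mfac L N := by
  obtain ⟨hNn, hNb, hNm⟩ := hN
  have hPN : M01_P N N := by
    refine ⟨le_rfl, hNb, ?_⟩
    intro n _ x hx
    rw [mem_cj] at hx
    have h4 := hNn.conj_mem _ hx n
    have e : n * (n⁻¹ * x * n) * n⁻¹ = x := by group
    rwa [e] at h4
  obtain ⟨L, hL, hmin⟩ : ∃ L, M01_P N L ∧ ∀ K, M01_P N K → K ≤ L → K = L := by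
    have hfin : {L : Subgroup G | M01_P N L}.Finite := Set.toFinite _
    obtain ⟨L, hL⟩ := hfin.exists_minimal ⟨N, hPN⟩
    refine ⟨L, hL.1, ?_⟩
    intro K hK hKL
    exact le_antisymm hKL (hL.2 hK hKL)
  have hcomm : ∀ g : G, cj g L = L ∨ ∀ x ∈ L, ∀ y ∈ cj g L, x * y = y * x := by
    intro g
    have hg := M01_P_cj hNn hL g
    by_cases hb : L ⊓ cj g L = ⊥
    · right
      intro x hx y hy
      have h1 : x * y * x⁻¹ * y⁻¹ ∈ L ⊓ cj g L := by
        refine Subgroup.mem_inf.2 ⟨?_, ?_⟩
        · have h2 : y * x⁻¹ * y⁻¹ ∈ L := M01_conj_mem hL (hg.1 hy) (L.inv_mem hx)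
          have h3 := L.mul_mem hx h2
          have e : x * (y * x⁻¹ * y⁻¹) = x * y * x⁻¹ * y⁻¹ := by group
          rwa [e] at h3
        · have h2 : x * y * x⁻¹ ∈ cj g L := M01_conj_mem hg (hL.1 hx) hy
          exact (cj g L).mul_mem h2 ((cj g L).inv_mem hy)
      rw [hb, Subgroup.mem_bot] at h1
      have h2 : x * y = (x * y * x⁻¹ * y⁻¹) * (y * x) := by group
      rw [h2, h1, one_mul]
    · left
      have h1 : L ⊓ cj g L = L := hmin _ (M01_P_inf hL hg hb) inf_le_left
      have h2 : L ≤ cj g L := h1.symm.le.trans inf_le_right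
      have h3 : cj g⁻¹ L ≤ L := by
        have h4 := M01_cj_mono g⁻¹ h2
        rwa [M01_cj_mul, inv_mul_cancel, M01_cj_one] at h4
      have h4 : cj g⁻¹ L = L := hmin _ (M01_P_cj hNn hL g⁻¹) h3
      calc cj g L = cj g (cj g⁻¹ L) := by rw [h4]
        _ = L := by rw [M01_cj_mul, mul_inv_cancel, M01_cj_one]
  have hsup : N = ⨆ g : G, cj g L := by
    have h1 : (⨆ g : G, cj g L) ≤ N := iSup_le fun g => (M01_P_cj hNn hL g).1
    have h2 : (⨆ g : G, cj g L).Normal := by
      refine ⟨?_⟩
      intro n hn g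
      have h3 : (⨆ h : G, cj h L) ≤ cj g⁻¹ (⨆ h : G, cj h L) := by
        refine iSup_le fun h => ?_
        have h4 : cj h L = cj g⁻¹ (cj (g * h) L) := by
          rw [M01_cj_mul]
          congr 1
          group
        rw [h4]
        exact M01_cj_mono _ (le_iSup (fun h : G => cj h L) (g * h))
      have h4 := h3 hn
      rw [mem_cj, inv_inv] at h4
      exact h4
    have h3 : (⨆ g : G, cj g L) ≠ ⊥ := by
      intro h4
      apply hL.2.1
      rw [eq_bot_iff, ← h4]
      have h5 := le_iSup (fun h : G => cj h L) 1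
      simp only [M01_cj_one] at h5
      exact h5
    rcases hNm _ h2 h1 with h4 | h4
    · exact absurd h4 h3
    · exact h4.symm
  refine ⟨L, ?_, ?_, hcomm, hsup⟩
  · have : Nontrivial L := (Subgroup.nontrivial_iff_ne_bot L).2 hL.2.1
    refine ⟨?_⟩
    intro H hH
    have hKL : H.map L.subtype ≤ L := Subgroup.map_subtype_le H
    by_cases hb : H.map L.subtype = ⊥
    · left
      exact (Subgroup.map_eq_bot_iff_of_injective H L.subtype_injective).1 hb
    · right
      have hP : M01_P N (H.map L.subtype) := by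
        refine ⟨hKL.trans hL.1, hb, ?_⟩
        have h1 : N ≤ Subgroup.normalizer (H.map L.subtype : Set G) := by
          rw [hsup]
          refine iSup_le fun g => ?_
          have h2 : ∀ y ∈ cj g L, ∀ k ∈ H.map L.subtype, y * k * y⁻¹ ∈ H.map L.subtype := by
            intro y hy k hk
            rcases hcomm g with h3 | h3
            · rw [h3] at hy
              obtain ⟨k', hk', rfl⟩ := hk
              refine ⟨⟨y, hy⟩ * k' * ⟨y, hy⟩⁻¹, hH.conj_mem k' hk' ⟨y, hy⟩, ?_⟩
              simp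
            · have h4 := h3 k (hKL hk) y hy
              have h5 : y * k * y⁻¹ = k := by
                rw [← h4]
                group
              rw [h5]
              exact hk
          intro y hy
          rw [Subgroup.mem_normalizer_iff]
          intro k
          constructor
          · intro hk
            exact h2 y hy k hk
          · intro hk
            have h3 := h2 y⁻¹ ((cj g L).inv_mem hy) _ hk
            have e : y⁻¹ * (y * k * y⁻¹) * y⁻¹⁻¹ = k := by group
            rwa [e] at h3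
        intro n hn x hx
        rw [mem_cj] at hx
        have h2 := (Subgroup.mem_normalizer_iff.1 (h1 hn) (n⁻¹ * x * n)).1 hx
        have e : n * (n⁻¹ * x * n) * n⁻¹ = x := by group
        rwa [e] at h2
      have h3 := hmin _ hP hKL
      rw [eq_top_iff]
      intro x _
      have h4 : (x : G) ∈ H.map L.subtype := by
        rw [h3]
        exact x.2
      obtain ⟨y, hy, hxy⟩ := h4
      have h5 : y = x := Subtype.ext hxy
      rw [← h5]
      exact hy
  · by_contra hc
    push Not at hc
    obtain ⟨a, ha, b, hb, hab⟩ := hna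
    apply hab
    have h1 : ∀ g h : G, ∀ x ∈ cj g L, ∀ y ∈ cj h L, x * y = y * x := by
      intro g h x hx y hy
      rw [mem_cj] at hx
      have hy' : g⁻¹ * y * g ∈ cj (g⁻¹ * h) L := by
        rw [mem_cj]
        rw [mem_cj] at hy
        have e : (g⁻¹ * h)⁻¹ * (g⁻¹ * y * g) * (g⁻¹ * h) = h⁻¹ * y * h := by group
        rw [e]
        exact hy
      have h2 : (g⁻¹ * x * g) * (g⁻¹ * y * g) = (g⁻¹ * y * g) * (g⁻¹ * x * g) := by
        rcases hcomm (g⁻¹ * h) with h3 | h3
        · rw [h3] at hy'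
          exact hc _ hx _ hy'
        · exact h3 _ hx _ hy'
      have h3 : x * y = g * ((g⁻¹ * x * g) * (g⁻¹ * y * g)) * g⁻¹ := by group
      rw [h3, h2]
      group
    have h2 : ∀ g : G, N ≤ Subgroup.centralizer (cj g L : Set G) := by
      intro g
      rw [hsup]
      refine iSup_le fun h => ?_
      intro y hy
      rw [Subgroup.mem_centralizer_iff]
      intro x hx
      exact h1 g h x hx y hy
    have h3 : N ≤ Subgroup.centralizer (N : Set G) := by
      have h4 : (⨆ g : G, cj g L) ≤ Subgroup.centralizer (N : Set G) := by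
        refine iSup_le fun g => ?_
        intro y hy
        rw [Subgroup.mem_centralizer_iff]
        intro x hx
        exact ((Subgroup.mem_centralizer_iff.1 (h2 g hx)) y hy).symm
      rw [← hsup] at h4
      exact h4
    exact ((Subgroup.mem_centralizer_iff.1 (h3 ha)) b hb).symm

end M01

end MX
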