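import Pool.Agent.helper81.MX.Defs4

set_option autoImplicit false

namespace MX
open scoped MatrixGroups

theorem A24_basic {G : Type} [Group G] (N : Subgroup G) (hN : MinN N)
    (hc : ∀ a ∈ N, ∀ b ∈ N, a * b = b * a) (H : Subgroup G) (hH : IsCoatom H) (hNH : ¬ N ≤ H) :
    N ⊔ H = ⊤ ∧ N ⊓ H = ⊥ ∧ ∀ K : Subgroup G, K ≤ N → (∀ h ∈ H, ∀ k ∈ K, h * k * h⁻¹ ∈ K) →
      K = ⊥ ∨ K = N := by
  have hn := hN.1
  have htop : N ⊔ H = ⊤ := by
    refine hH.2 _ (lt_of_le_of_ne le_sup_right ?_)
    intro h
    apply hNH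
    rw [h]
    exact le_sup_left
  have hK : ∀ K : Subgroup G, K ≤ N → (∀ h ∈ H, ∀ k ∈ K, h * k * h⁻¹ ∈ K) →
      K = ⊥ ∨ K = N := by
    intro K hKN hKH
    refine hN.2.2 K ⟨fun k hk g => ?_⟩ hKN
    have hg : g ∈ N ⊔ H := by
      rw [htop]
      exact Subgroup.mem_top g
    obtain ⟨n, hn', h, hh, rfl⟩ := Subgroup.mem_sup_of_normal_left.1 hg
    have h1 := hKH h hh k hk
    have h2 := hc n hn' _ (hKN h1)
    have h3 : n * h * k * (n * h)⁻¹ = (n * (h * k * h⁻¹)) * n⁻¹ := by group
    rw [h3, h2, mul_inv_cancel_right]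
    exact h1
  refine ⟨htop, ?_, hK⟩
  rcases hK (N ⊓ H) inf_le_left (fun h hh k hk =>
    ⟨hn.conj_mem k hk.1 h, H.mul_mem (H.mul_mem hh hk.2) (H.inv_mem hh)⟩) with h1 | h1
  · exact h1
  · exact absurd (inf_eq_left.1 h1) hNH

/-- A24 -/
theorem spl_exists {G : Type} [Group G] [Finite G] (N : Subgroup G) (hN : MinN N)
    (hc : ∀ a ∈ N, ∀ b ∈ N, a * b = b * a) (H : Subgroup G) (hH : IsCoatom H) (hNH : ¬ N ≤ H) :
    ∃ (V : Type) (_ : AddCommGroup V) (_ : Finite V) (_ : DistribMulAction H V)
      (j : Multiplicative V →* G), Spl N H j ∧ Irr H V := by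
  obtain ⟨htop, hdis, hK⟩ := A24_basic N hN hc H hH hNH
  have hn := hN.1
  letI cg : CommGroup N :=
    { (inferInstance : Group N) with
      mul_comm := fun a b => Subtype.ext (hc a a.2 b b.2) }
  letI ac : DistribMulAction H (Additive N) :=
    { smul := fun h v => Additive.ofMul
        (⟨(h : G) * ((Additive.toMul v : N) : G) * (h : G)⁻¹,
          hn.conj_mem _ (Additive.toMul v).2 _⟩ : N)
      one_smul := fun v => by
        change Additive.ofMul (⟨((1 : H) : G) * ((Additive.toMul v : N) : G) * ((1 : H) : G)⁻¹, _⟩ : N)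
          = v
        apply Additive.toMul.injective
        apply Subtype.ext
        change ((1 : H) : G) * ((Additive.toMul v : N) : G) * ((1 : H) : G)⁻¹ = _
        rw [Subgroup.coe_one, one_mul, inv_one, mul_one]
      mul_smul := fun g h v => by
        apply Additive.toMul.injective
        apply Subtype.ext
        change ((g * h : H) : G) * ((Additive.toMul v : N) : G) * ((g * h : H) : G)⁻¹ =
          (g : G) * ((h : G) * ((Additive.toMul v : N) : G) * (h : G)⁻¹) * (g : G)⁻¹
        rw [Subgroup.coe_mul]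
        group
      smul_zero := fun h => by
        apply Additive.toMul.injective
        apply Subtype.ext
        change (h : G) * (1 : G) * (h : G)⁻¹ = 1
        group
      smul_add := fun h v w => by
        apply Additive.toMul.injective
        apply Subtype.ext
        change (h : G) * (((Additive.toMul v : N) : G) * ((Additive.toMul w : N) : G)) * (h : G)⁻¹ =
          ((h : G) * ((Additive.toMul v : N) : G) * (h : G)⁻¹) *
            ((h : G) * ((Additive.toMul w : N) : G) * (h : G)⁻¹)
        group }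
  let j : Multiplicative (Additive N) →* G :=
    { toFun := fun x => ((Additive.toMul (Multiplicative.toAdd x) : N) : G)
      map_one' := rfl
      map_mul' := fun x y => rfl }
  have hj : ∀ v : Additive N, j (Multiplicative.ofAdd v) = ((Additive.toMul v : N) : G) :=
    fun v => rfl
  have hjinj : Function.Injective j := by
    intro x y hxy
    apply Multiplicative.toAdd.injective
    apply Additive.toMul.injective
    exact Subtype.ext hxy
  refine ⟨Additive N, inferInstance, inferInstance, ac, j, ⟨hjinj, ?_, fun h v => rfl, hdis, htop⟩,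
    ?_, ?_⟩
  · ext g
    constructor
    · rintro ⟨x, rfl⟩
      exact (Additive.toMul (Multiplicative.toAdd x)).2
    · intro hg
      exact ⟨Multiplicative.ofAdd (Additive.ofMul ⟨g, hg⟩), rfl⟩
  · by_contra hne
    rw [not_nontrivial_iff_subsingleton] at hne
    apply hN.2.1
    rw [Subgroup.eq_bot_iff_forall]
    intro x hx
    have h1 : Additive.ofMul (⟨x, hx⟩ : N) = Additive.ofMul (1 : N) := Subsingleton.elim _ _
    exact congrArg Subtype.val (Additive.ofMul.injective h1)
  · intro U hU
    let K : Subgroup G :=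
      { carrier := {g | ∃ v ∈ U, ((Additive.toMul v : N) : G) = g}
        mul_mem' := by
          rintro a b ⟨v, hv, rfl⟩ ⟨w, hw, rfl⟩
          exact ⟨v + w, U.add_mem hv hw, rfl⟩
        one_mem' := ⟨0, U.zero_mem, rfl⟩
        inv_mem' := by
          rintro a ⟨v, hv, rfl⟩
          exact ⟨-v, U.neg_mem hv, rfl⟩ }
    have hKN : K ≤ N := by
      rintro g ⟨v, -, rfl⟩
      exact (Additive.toMul v).2
    have hKH : ∀ h ∈ H, ∀ k ∈ K, h * k * h⁻¹ ∈ K := by
      rintro h hh k ⟨v, hv, rfl⟩
      exact ⟨(⟨h, hh⟩ : H) • v, hU ⟨h, hh⟩ v hv, rfl⟩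
    rcases hK K hKN hKH with h1 | h1
    · left
      rw [AddSubgroup.eq_bot_iff_forall]
      intro v hv
      have h2 : ((Additive.toMul v : N) : G) ∈ K := ⟨v, hv, rfl⟩
      rw [h1, Subgroup.mem_bot] at h2
      apply Additive.toMul.injective
      exact Subtype.ext h2
    · right
      rw [AddSubgroup.eq_top_iff']
      intro v
      have h2 : ((Additive.toMul v : N) : G) ∈ K := by
        rw [h1]
        exact (Additive.toMul v).2
      obtain ⟨w, hw, h3⟩ := h2
      have h4 : w = v := by
        apply Additive.toMul.injective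
        exact Subtype.ext h3
      rw [← h4]
      exact hw

end MX
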