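import Pool.Agent.helper81.MX.Defs

set_option autoImplicit false

namespace MX
open scoped MatrixGroups

theorem R01_cj_cj {G : Type*} [Group G] (a g : G) (H : Subgroup G) : cj a (cj g H) = cj (a * g) H := by
  ext x
  rw [mem_cj, mem_cj, mem_cj]
  have e : g⁻¹ * (a⁻¹ * x * a) * g = (a * g)⁻¹ * x * (a * g) := by group
  rw [e]

theorem R01_range {G : Type*} [Group G] (H K : Subgroup G) (h : SC H K) :
    Set.range (fun g : G => cj g H) = Set.range (fun g : G => cj g K) := by
  obtain ⟨g, rfl⟩ := h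
  ext T
  constructor
  · rintro ⟨a, rfl⟩
    refine ⟨a * g⁻¹, ?_⟩
    show cj (a * g⁻¹) (cj g H) = cj a H
    rw [R01_cj_cj, inv_mul_cancel_right]
  · rintro ⟨a, rfl⟩
    refine ⟨a * g, ?_⟩
    show cj (a * g) H = cj a (cj g H)
    rw [R01_cj_cj]

/-- R01 -/
theorem mcl_le {G : Type*} [Group G] [Finite G] (P : Subgroup G → Prop) {X : Type*}
    (f : Subgroup G → X) (S : Set X) (hS : S.Finite)
    (h1 : ∀ H, IsCoatom H → P H → f H ∈ S)
    (h2 : ∀ H K, IsCoatom H → P H → IsCoatom K → P K → f H = f K → SC H K) :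
    (mcl G P).ncard ≤ S.ncard := by
  classical
  set F : Set (Subgroup G) → X := fun T => if h : T ∈ mcl G P then f (Classical.choose h) else f ⊥ with hF
  have hsp : ∀ T (h : T ∈ mcl G P), IsCoatom (Classical.choose h) ∧ P (Classical.choose h) ∧
      T = Set.range (fun g : G => cj g (Classical.choose h)) := fun T h => Classical.choose_spec h
  refine Set.ncard_le_ncard_of_injOn F ?_ ?_ hS
  · intro T hT
    obtain ⟨a, b, -⟩ := hsp T hT
    simp only [hF, dif_pos hT]
    exact h1 _ a b
  · intro T hT T' hT' he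
    obtain ⟨a, b, c⟩ := hsp T hT
    obtain ⟨a', b', c'⟩ := hsp T' hT'
    simp only [hF, dif_pos hT, dif_pos hT'] at he
    rw [c, c']
    exact R01_range _ _ (h2 _ _ a b a' b' he)

end MX
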