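import Pool.Agent.helper81.MX.Defs4
import Pool.Agent.helper81.MX.R01

set_option autoImplicit false

/-! Row mx:A25 (helper9). -/

namespace MX
open scoped MatrixGroups

theorem A25_decomp {G : Type*} [Group G] {N M : Subgroup G} (hN : N.Normal) (h : N ⊔ M = ⊤) (g : G) :
    ∃ n ∈ N, ∃ m ∈ M, n * m = g := by
  have h1 : g ∈ ((N ⊔ M : Subgroup G) : Set G) := by
    rw [h]
    exact Subgroup.mem_top g
  rw [Subgroup.normal_mul] at h1
  exact Set.mem_mul.1 h1

theorem A25_key {G V : Type*} [Group G] (N : Subgroup G) (hN : MinN N)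
    (hc : ∀ a ∈ N, ∀ b ∈ N, a * b = b * a) (H : Subgroup G) [AddCommGroup V] [DistribMulAction H V]
    (j : Multiplicative V →* G) (hs : Spl N H j) (M : Subgroup G) (hM : IsCoatom M) (hNM : ¬ N ≤ M) :
    ∃ α ∈ Der H V, ∀ x : G, x ∈ M ↔ ∃ h : H, x = j (Multiplicative.ofAdd (α h)) * (h : G) := by
  have hNn : N.Normal := hN.1
  have hsup : N ⊔ M = ⊤ := hM.2 _ (right_lt_sup.2 hNM)
  have hnor : (N ⊓ M).Normal := by
    constructor
    rintro x ⟨hx1, hx2⟩ g
    obtain ⟨n, hn, m, hm, rfl⟩ := A25_decomp hNn hsup g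
    have h1 : m * x * m⁻¹ ∈ N := hNn.conj_mem x hx1 m
    have h2 : m * x * m⁻¹ ∈ M := M.mul_mem (M.mul_mem hm hx2) (M.inv_mem hm)
    have h3 : n * m * x * (n * m)⁻¹ = m * x * m⁻¹ := by
      have h4 := hc n hn _ h1
      calc n * m * x * (n * m)⁻¹ = n * (m * x * m⁻¹) * n⁻¹ := by group
        _ = (m * x * m⁻¹) * n * n⁻¹ := by rw [h4]
        _ = _ := by rw [mul_inv_cancel_right]
    rw [h3]
    exact ⟨h1, h2⟩
  have hinf : N ⊓ M = ⊥ := by
    rcases hN.2.2 _ hnor inf_le_left with h | h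
    · exact h
    · exact absurd (inf_eq_left.1 h) hNM
  have hjN : ∀ a : V, j (Multiplicative.ofAdd a) ∈ N := by
    intro a
    rw [← hs.rng]
    exact ⟨_, rfl⟩
  have huniq : ∀ (a b : V) (h : G), j (Multiplicative.ofAdd a) * h ∈ M →
      j (Multiplicative.ofAdd b) * h ∈ M → a = b := by
    intro a b h ha hb
    have h1 : j (Multiplicative.ofAdd a) * (j (Multiplicative.ofAdd b))⁻¹ ∈ M := by
      have h2 := M.mul_mem ha (M.inv_mem hb)
      have h3 : j (Multiplicative.ofAdd a) * h * (j (Multiplicative.ofAdd b) * h)⁻¹ =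
          j (Multiplicative.ofAdd a) * (j (Multiplicative.ofAdd b))⁻¹ := by group
      rwa [h3] at h2
    have h4 : j (Multiplicative.ofAdd a) * (j (Multiplicative.ofAdd b))⁻¹ ∈ N ⊓ M :=
      ⟨N.mul_mem (hjN a) (N.inv_mem (hjN b)), h1⟩
    rw [hinf, Subgroup.mem_bot, mul_inv_eq_one] at h4
    exact Multiplicative.ofAdd.injective (hs.inj h4)
  have hex : ∀ h : H, ∃ a : V, j (Multiplicative.ofAdd a) * (h : G) ∈ M := by
    intro h
    obtain ⟨n, hn, m, hm, hnm⟩ := A25_decomp hNn hsup (h : G)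
    have h1 : n⁻¹ ∈ j.range := by
      rw [hs.rng]
      exact N.inv_mem hn
    obtain ⟨y, hy⟩ := h1
    refine ⟨Multiplicative.toAdd y, ?_⟩
    rw [ofAdd_toAdd, hy, ← hnm, inv_mul_cancel_left]
    exact hm
  choose α hα using hex
  refine ⟨α, ?_, ?_⟩
  · intro g h
    apply huniq _ _ ((g * h : H) : G) (hα (g * h))
    have h1 := M.mul_mem (hα g) (hα h)
    have h2 : j (Multiplicative.ofAdd (α g + g • α h)) * ((g * h : H) : G) =
        j (Multiplicative.ofAdd (α g)) * (g : G) * (j (Multiplicative.ofAdd (α h)) * (h : G)) := by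
      rw [ofAdd_add, map_mul, hs.act, Subgroup.coe_mul]
      group
    rw [h2]
    exact h1
  · intro x
    constructor
    · intro hx
      obtain ⟨n, hn, h, hh, rfl⟩ := A25_decomp hNn hs.top x
      have h1 : n ∈ j.range := by
        rw [hs.rng]
        exact hn
      obtain ⟨y, rfl⟩ := h1
      refine ⟨⟨h, hh⟩, ?_⟩
      have h2 := huniq (Multiplicative.toAdd y) (α ⟨h, hh⟩) h (by rw [ofAdd_toAdd]; exact hx)
        (hα ⟨h, hh⟩)
      rw [← h2, ofAdd_toAdd]
    · rintro ⟨h, rfl⟩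
      exact hα h

/-- A25 -/
theorem spl_count {G V : Type*} [Group G] [Finite G] (N : Subgroup G) (hN : MinN N)
    (hc : ∀ a ∈ N, ∀ b ∈ N, a * b = b * a) (H : Subgroup G) [AddCommGroup V] [DistribMulAction H V]
    (j : Multiplicative V →* G) (hs : Spl N H j) :
    (mcl G (fun M => ¬ N ≤ M)).ncard ≤ h1 H V := by
  classical
  have hV : Finite V := Finite.of_injective (fun v : V => j (Multiplicative.ofAdd v))
    (fun a b h => Multiplicative.ofAdd.injective (hs.inj h))
  have key := A25_key N hN hc H j hs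
  let X := Der H V ⧸ (Inn H V).addSubgroupOf (Der H V)
  have hX : Finite X := inferInstance
  let f : Subgroup G → X := fun M => if h : IsCoatom M ∧ ¬ N ≤ M then
    QuotientAddGroup.mk ⟨Classical.choose (key M h.1 h.2), (Classical.choose_spec (key M h.1 h.2)).1⟩
    else 0
  have hcard : h1 H V = (Set.univ : Set X).ncard := by
    rw [Set.ncard_univ]
    rfl
  rw [hcard]
  refine mcl_le (fun M => ¬ N ≤ M) f Set.univ Set.finite_univ (fun _ _ _ => Set.mem_univ _) ?_
  intro M M' hM hNM hM' hNM' hf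
  have hfM : f M = QuotientAddGroup.mk ⟨Classical.choose (key M hM hNM),
      (Classical.choose_spec (key M hM hNM)).1⟩ := dif_pos (⟨hM, hNM⟩ : IsCoatom M ∧ ¬ N ≤ M)
  have hfM' : f M' = QuotientAddGroup.mk ⟨Classical.choose (key M' hM' hNM'),
      (Classical.choose_spec (key M' hM' hNM')).1⟩ := dif_pos (⟨hM', hNM'⟩ : IsCoatom M' ∧ ¬ N ≤ M')
  rw [hfM, hfM', QuotientAddGroup.eq, AddSubgroup.mem_addSubgroupOf] at hf
  have hα := (Classical.choose_spec (key M hM hNM)).2
  have hα' := (Classical.choose_spec (key M' hM' hNM')).2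
  have hf2 : -(Classical.choose (key M hM hNM)) + Classical.choose (key M' hM' hNM') ∈ Inn H V := hf
  clear hf hfM hfM'
  revert hf2 hα hα'
  generalize Classical.choose (key M hM hNM) = α
  generalize Classical.choose (key M' hM' hNM') = α'
  intro hα hα' hf
  obtain ⟨v, hv⟩ := hf
  have hv' : ∀ h : H, α' h = -v + (α h + h • v) := by
    intro h
    have h1 := congrFun hv h
    have h2 : h • v - v = -α h + α' h := h1
    rw [eq_neg_add_iff_add_eq, ← sub_eq_zero]
    rw [← sub_eq_zero] at h2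
    rw [← neg_eq_zero, ← h2]
    abel
  refine ⟨j (Multiplicative.ofAdd (-v)), ?_⟩
  ext x
  rw [mem_cj, hα, hα']
  refine exists_congr fun h => ?_
  have h3 : j (Multiplicative.ofAdd (α' h)) * (h : G) =
      j (Multiplicative.ofAdd (-v)) * (j (Multiplicative.ofAdd (α h)) * (h : G)) *
        (j (Multiplicative.ofAdd (-v)))⁻¹ := by
    rw [hv', ofAdd_add, ofAdd_add, map_mul, map_mul, hs.act, ofAdd_neg, map_inv, inv_inv]
    group
  rw [h3]
  constructor
  · intro h4
    rw [← h4]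
    group
  · intro h4
    rw [h4]
    group

end MX
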