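import Pool.Agent.helper81.MX.Defs4

/-!
Row A26: the number of classes of a split extension.
-/

set_option autoImplicit false

namespace MX

theorem A26_kk {G G' : Type*} [Group G] [Group G'] (e : G ≃* G') : kk G = kk G' := by
  unfold kk
  refine Nat.card_congr (Quotient.congr e.toEquiv ?_)
  intro a b
  show IsConj a b ↔ IsConj (e a) (e b)
  constructor
  · intro h
    exact e.toMonoidHom.map_isConj h
  · intro h
    have := e.symm.toMonoidHom.map_isConj h
    simpa using this

/-- A26 -/
theorem spl_kk {G V : Type*} [Group G] [Finite G] (N : Subgroup G) [N.Normal] (H : Subgroup G)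
    [AddCommGroup V] [DistribMulAction H V] (j : Multiplicative V →* G) (hs : Spl N H j) :
    kk G = kk (SD H V) ∧ kk (G ⧸ N) = kk H := by
  have hcond : ∀ g : H, j.comp (MulEquiv.toMonoidHom (phi H V g)) =
      (MulEquiv.toMonoidHom (MulAut.conj (H.subtype g))).comp j := by
    intro g
    ext v
    exact hs.act g (Multiplicative.toAdd v)
  set F : SD H V →* G := SemidirectProduct.lift j H.subtype hcond with hF
  have hFa : ∀ x : SD H V, F x = j x.left * (x.right : G) := fun x => rfl
  have hsurj : ∀ g : G, ∃ v : Multiplicative V, ∃ h : H, j v * (h : G) = g := by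
    intro g
    have hg : g ∈ N ⊔ H := by rw [hs.top]; exact Subgroup.mem_top g
    rw [← SetLike.mem_coe, Subgroup.normal_mul] at hg
    obtain ⟨n, hn, h, hh, rfl⟩ := hg
    rw [← hs.rng] at hn
    obtain ⟨v, rfl⟩ := hn
    exact ⟨v, ⟨h, hh⟩, rfl⟩
  constructor
  · symm
    refine A26_kk (MulEquiv.ofBijective F ⟨?_, ?_⟩)
    · rw [injective_iff_map_eq_one]
      intro x hx
      rw [hFa] at hx
      have h1 : (x.right : G) = (j x.left)⁻¹ := (inv_eq_of_mul_eq_one_right hx).symm
      have h2 : (x.right : G) ∈ N ⊓ H := by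
        refine ⟨?_, x.right.2⟩
        rw [h1, ← hs.rng]
        exact j.range.inv_mem ⟨x.left, rfl⟩
      rw [hs.dis, Subgroup.mem_bot] at h2
      rw [h2, mul_one] at hx
      have h3 : x.left = 1 := hs.inj (by rw [hx, map_one])
      have h4 : x.right = 1 := Subtype.ext h2
      exact SemidirectProduct.ext h3 h4
    · intro g
      obtain ⟨v, h, hg⟩ := hsurj g
      exact ⟨⟨v, h⟩, hg⟩
  · symm
    refine A26_kk (MulEquiv.ofBijective ((QuotientGroup.mk' N).comp H.subtype) ⟨?_, ?_⟩)
    · rw [injective_iff_map_eq_one]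
      intro x hx
      have h1 : (x : G) ∈ N := (QuotientGroup.eq_one_iff (x : G)).1 hx
      have h2 : (x : G) ∈ N ⊓ H := ⟨h1, x.2⟩
      rw [hs.dis, Subgroup.mem_bot] at h2
      exact Subtype.ext h2
    · intro q
      obtain ⟨g, rfl⟩ := QuotientGroup.mk_surjective q
      obtain ⟨v, h, hg⟩ := hsurj g
      refine ⟨h, ?_⟩
      show ((h : G) : G ⧸ N) = (g : G ⧸ N)
      rw [← hg]
      have h1 : j v ∈ N := by rw [← hs.rng]; exact ⟨v, rfl⟩
      rw [QuotientGroup.mk_mul, (QuotientGroup.eq_one_iff (j v)).2 h1, one_mul]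

end MX
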