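import Pool.Agent.helper81.MX.Defs4
import Pool.Agent.helper81.MX.A01
import Pool.Agent.helper81.MX.A24
import Pool.Agent.helper81.MX.A25
import Pool.Agent.helper81.MX.A26

set_option autoImplicit false

namespace MX
open scoped MatrixGroups

theorem A27_kk_le {G : Type} [Group G] [Finite G] (N : Subgroup G) [N.Normal] :
    kk (G ⧸ N) ≤ kk G := by
  unfold kk
  have hf : Function.Surjective (ConjClasses.map (QuotientGroup.mk' N)) := by
    intro c
    obtain ⟨x, rfl⟩ := ConjClasses.exists_rep c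
    obtain ⟨g, rfl⟩ := QuotientGroup.mk'_surjective N x
    exact ⟨ConjClasses.mk g, rfl⟩
  exact Nat.card_le_card_of_surjective _ hf

theorem A27_bij {G : Type} [Group G] (N H : Subgroup G) [N.Normal] (h1 : N ⊓ H = ⊥)
    (h2 : N ⊔ H = ⊤) : Function.Bijective ((QuotientGroup.mk' N).comp H.subtype) := by
  constructor
  · rw [injective_iff_map_eq_one]
    intro x hx
    have h3 : (x : G) ∈ N := by
      rw [← QuotientGroup.eq_one_iff]
      exact hx
    have h4 : (x : G) ∈ N ⊓ H := ⟨h3, x.2⟩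
    rw [h1, Subgroup.mem_bot] at h4
    exact Subtype.ext h4
  · intro y
    obtain ⟨g, rfl⟩ := QuotientGroup.mk'_surjective N y
    have h3 : g ∈ N ⊔ H := by
      rw [h2]
      exact Subgroup.mem_top g
    obtain ⟨n, hn, h, hh, rfl⟩ := Subgroup.mem_sup_of_normal_left.1 h3
    refine ⟨⟨h, hh⟩, ?_⟩
    change QuotientGroup.mk' N h = QuotientGroup.mk' N (n * h)
    rw [map_mul]
    have h4 : QuotientGroup.mk' N n = 1 := (QuotientGroup.eq_one_iff n).2 hn
    rw [h4, one_mul]

/-- A27 -/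
theorem RI_abelian
    (hiso : ∀ {G : Type} [Group G], Good G → ∀ {H : Type} [Group H], (G ≃* H) → Good H)
    (hquot : ∀ (G : Type) [Group G] (N : Subgroup G) [N.Normal], Good G → Good (G ⧸ N))
    (hstar : ∀ {H V : Type} [Group H] [Finite H] [AddCommGroup V] [Finite V] [DistribMulAction H V],
      Good H → Irr H V → ∀ (p : ℕ) [Fact p.Prime], (∀ v : V, p • v = 0) → h1 H V ≤ Dn H V p)
    (hkk : ∀ {H V : Type} [Group H] [AddCommGroup V] [DistribMulAction H V] [Finite H] [Finite V]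
      (p : ℕ) [Fact p.Prime], (∀ v : V, p • v = 0) → kk (SD H V) = kk H + Dn H V p)
    {G : Type} [Group G] [Finite G] (hG : Good G) (N : Subgroup G) [N.Normal] (hN : MinN N)
    (hc : ∀ a ∈ N, ∀ b ∈ N, a * b = b * a) : RI G N := by
  unfold RI
  by_cases hex : ∃ H : Subgroup G, IsCoatom H ∧ ¬ N ≤ H
  · obtain ⟨H, hH, hNH⟩ := hex
    obtain ⟨V, iV, fV, aV, j, hs, hirr⟩ := spl_exists N hN hc H hH hNH
    obtain ⟨p, hp, hpv⟩ := irr_prime hirr
    have : Fact p.Prime := ⟨hp⟩
    have e1 := spl_count N hN hc H j hs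
    obtain ⟨e2, e3⟩ := spl_kk N H j hs
    have hGH : Good H := hiso (hquot G N hG)
      (MulEquiv.ofBijective _ (A27_bij N H hs.dis hs.top)).symm
    have e4 := hstar (H := H) (V := V) hGH hirr p hpv
    have e5 := hkk (H := H) (V := V) p hpv
    rw [e2, e3, e5]
    omega
  · have h0 : mcl G (fun H => ¬ N ≤ H) = ∅ := by
      rw [Set.eq_empty_iff_forall_notMem]
      rintro S ⟨H, h1, h2, -⟩
      exact hex ⟨H, h1, h2⟩
    rw [h0, Set.ncard_empty, zero_add]
    exact A27_kk_le N

end MX
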