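import Pool.Agent.helper81.MX.Defs

/-!
# Row R05 of project MX
-/

set_option autoImplicit false

namespace MX

open scoped MatrixGroups

theorem R05_kk_le {G : Type*} [Group G] {H : Type*} [Group H] [Finite H] (e : G ≃* H) :
    kk G ≤ kk H := by
  unfold kk
  have hfin : Finite (ConjClasses H) := Quotient.finite _
  refine Nat.card_le_card_of_injective (ConjClasses.map e.toMonoidHom) ?_
  intro a b
  obtain ⟨a, rfl⟩ := ConjClasses.exists_rep a
  obtain ⟨b, rfl⟩ := ConjClasses.exists_rep b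
  intro h
  have h1 : ConjClasses.mk (e a) = ConjClasses.mk (e b) := h
  rw [ConjClasses.mk_eq_mk_iff_isConj] at h1 ⊢
  rw [isConj_iff] at h1 ⊢
  obtain ⟨c, hc⟩ := h1
  refine ⟨e.symm c, ?_⟩
  apply e.injective
  rw [map_mul, map_mul, map_inv, e.apply_symm_apply, hc]

theorem R05_min {G : Type*} [Group G] [Finite G] (N : Subgroup G) [N.Normal] (hN : N ≠ ⊥) :
    ∃ N₀ : Subgroup G, MinN N₀ ∧ N₀ ≤ N := by
  have hfin : {K : Subgroup G | K.Normal ∧ K ≠ ⊥ ∧ K ≤ N}.Finite := Set.toFinite _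
  obtain ⟨K, hK⟩ := hfin.exists_minimal ⟨N, inferInstance, hN, le_rfl⟩
  refine ⟨K, ⟨hK.1.1, hK.1.2.1, ?_⟩, hK.1.2.2⟩
  intro K' hK' hle
  by_cases h : K' = ⊥
  · exact Or.inl h
  · exact Or.inr (le_antisymm hle (hK.2 ⟨hK', h, hle.trans hK.1.2.2⟩ hle))

theorem RI_all
    (hq : ∀ (G : Type) [Group G] (N : Subgroup G) [N.Normal], Good G → Good (G ⧸ N))
    (hmin : ∀ (G : Type) [Group G] [Finite G] (N : Subgroup G) [N.Normal], Good G → MinN N → RI G N)
    (hstep : ∀ (G : Type) [Group G] [Finite G] (N₀ N : Subgroup G) [N₀.Normal] [N.Normal], N₀ ≤ N →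
      (mcl G (fun H => ¬ N ≤ H)).ncard ≤ (mcl G (fun H => ¬ N₀ ≤ H)).ncard +
      (mcl (G ⧸ N₀) (fun H => ¬ N.map (QuotientGroup.mk' N₀) ≤ H)).ncard) :
    ∀ (G : Type) [Group G] [Finite G] (N : Subgroup G) [N.Normal], Good G → RI G N := by
  have key : ∀ m : ℕ, ∀ (G : Type) [Group G] [Finite G] (N : Subgroup G) [N.Normal],
      Nat.card G = m → Good G → RI G N := by
    intro m
    induction m using Nat.strong_induction_on with
    | _ m ih =>
      intro G _ _ N _ hm hG
      by_cases hN : N = ⊥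
      · subst hN
        have h1 : mcl G (fun H => ¬ (⊥ : Subgroup G) ≤ H) = ∅ := by
          rw [Set.eq_empty_iff_forall_notMem]
          rintro S ⟨H, _, h2, _⟩
          exact h2 bot_le
        unfold RI
        rw [h1, Set.ncard_empty, zero_add]
        exact R05_kk_le QuotientGroup.quotientBot
      · obtain ⟨N₀, hN₀, hle⟩ := R05_min N hN
        have hn : N₀.Normal := hN₀.1
        have h1 : RI G N₀ := hmin G N₀ hG hN₀
        have hcard : Nat.card (G ⧸ N₀) < m := by
          have h2 := Subgroup.card_eq_card_quotient_mul_card_subgroup N₀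
          have h3 : 1 < Nat.card N₀ := by
            rw [Subgroup.one_lt_card_iff_ne_bot]
            exact hN₀.2.1
          have h4 : 0 < Nat.card (G ⧸ N₀) := Nat.card_pos
          rw [hm] at h2
          nlinarith
        have h2 : RI (G ⧸ N₀) (N.map (QuotientGroup.mk' N₀)) :=
          ih _ hcard (G ⧸ N₀) (N.map (QuotientGroup.mk' N₀)) rfl (hq G N₀ hG)
        have h3 := hstep G N₀ N hle
        have h4 : kk (G ⧸ N) ≤ kk ((G ⧸ N₀) ⧸ N.map (QuotientGroup.mk' N₀)) :=
          R05_kk_le (QuotientGroup.quotientQuotientEquivQuotient N₀ N hle).symm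
        unfold RI at h1 h2 ⊢
        omega
  intro G _ _ N _ hG
  exact key _ G N rfl hG

end MX
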