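import Pool.Agent.helper81.MX.Defs

/-!
Row mx:Q05: a finite group whose subnormal simple sections are commutative or `PSL(2,p)` is good.
-/

set_option autoImplicit false

namespace MX

open scoped MatrixGroups

/-- a maximal proper normal subgroup of a nontrivial finite group has a simple quotient -/
theorem Q05_max (H : Type) [Group H] [Finite H] (hH : Nontrivial H) :
    ∃ K : Subgroup H, ∃ _ : K.Normal, K ≠ ⊤ ∧ IsSimpleGroup (H ⧸ K) := by
  classical
  have hfin : (Set.univ : Set (Subgroup H)).Finite := Set.toFinite _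
  have hne : ({K : Subgroup H | K.Normal ∧ K ≠ ⊤} : Set (Subgroup H)).Nonempty :=
    ⟨⊥, inferInstance, bot_ne_top⟩
  obtain ⟨K, hK⟩ := (hfin.subset (Set.subset_univ {K : Subgroup H | K.Normal ∧ K ≠ ⊤})).exists_maximal hne
  obtain ⟨⟨hKn, hKt⟩, hmax⟩ := hK
  refine ⟨K, hKn, hKt, ?_⟩
  have hnt : Nontrivial (H ⧸ K) := by
    obtain ⟨x, hx⟩ : ∃ x, x ∉ K := by
      by_contra hcon
      push Not at hcon
      exact hKt ((Subgroup.eq_top_iff' K).2 hcon)
    refine ⟨⟨(x : H ⧸ K), 1, fun h => hx ?_⟩⟩
    exact (QuotientGroup.eq_one_iff x).1 h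
  refine { toNontrivial := hnt, eq_bot_or_eq_top_of_normal := ?_ }
  intro N hN
  have h1 : (N.comap (QuotientGroup.mk' K)).Normal := hN.comap _
  have h2 : K ≤ N.comap (QuotientGroup.mk' K) := by
    intro x hx
    rw [Subgroup.mem_comap]
    have h3 : QuotientGroup.mk' K x = 1 := (QuotientGroup.eq_one_iff x).2 hx
    rw [h3]
    exact one_mem _
  have hmap : (N.comap (QuotientGroup.mk' K)).map (QuotientGroup.mk' K) = N :=
    Subgroup.map_comap_eq_self_of_surjective (QuotientGroup.mk'_surjective K) N
  by_cases h3 : N.comap (QuotientGroup.mk' K) = ⊤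
  · right
    rw [← hmap, h3]
    exact Subgroup.map_top_of_surjective _ (QuotientGroup.mk'_surjective K)
  · left
    have h4 : N.comap (QuotientGroup.mk' K) ≤ K := hmax ⟨h1, h3⟩ h2
    rw [← hmap, eq_bot_iff]
    rintro _ ⟨x, hx, rfl⟩
    rw [Subgroup.mem_bot]
    exact (QuotientGroup.eq_one_iff x).2 (h4 hx)

theorem good_of_comp (G : Type) [Group G] [Finite G]
    (hiso : ∀ {G : Type} [Group G], Good G → ∀ {H : Type} [Group H], (G ≃* H) → Good H)
    (h : ∀ (H : Subgroup G) (K : Subgroup H) [K.Normal], H.IsSubnormal → IsSimpleGroup (H ⧸ K) →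
      (∃ a b : H ⧸ K, a * b ≠ b * a) →
      ∃ p : ℕ, p.Prime ∧ 5 ≤ p ∧ Nonempty ((H ⧸ K) ≃* PSL(2, ZMod p))) : Good G := by
  have key : ∀ n : ℕ, ∀ H : Subgroup G, H.IsSubnormal → Nat.card H ≤ n → Good H := by
    intro n
    induction n with
    | zero =>
      intro H _ hc
      have h1 : 0 < Nat.card H := Nat.card_pos
      omega
    | succ n ih =>
      intro H hs hc
      by_cases hH : Nontrivial H
      · obtain ⟨K, hKn, hKt, hsim⟩ := Q05_max H hH
        have hK1 : (K.map H.subtype).IsSubnormal := Subgroup.IsSubnormal.trans' hKn.isSubnormal hs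
        have e : K ≃* K.map H.subtype := K.equivMapOfInjective H.subtype H.subtype_injective
        have hcard : Nat.card (K.map H.subtype) ≤ n := by
          have h1 : Nat.card (K.map H.subtype) = Nat.card K := (Nat.card_congr e.toEquiv).symm
          have h2 : Nat.card K < Nat.card H := by
            have h3 := Subgroup.card_le_card_group K
            rcases h3.lt_or_eq with h4 | h4
            · exact h4
            · exact absurd (Subgroup.eq_top_of_card_eq K h4) hKt
          omega
        have hgood : Good K := hiso (ih _ hK1 hcard) e.symm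
        refine Good.ext H K hgood ?_
        by_cases hab : ∀ a b : H ⧸ K, a * b = b * a
        · exact Or.inl hab
        · right
          push Not at hab
          exact h H K hs hsim hab
      · have h1 : Subsingleton H := not_nontrivial_iff_subsingleton.1 hH
        exact Good.triv H h1
  exact hiso (key (Nat.card (⊤ : Subgroup G)) ⊤ Subgroup.IsSubnormal.top le_rfl) Subgroup.topEquiv

end MX
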