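import Pool.Agent.helper81.MX.Defs

/-!
Definitions for the nonabelian case.
-/

set_option autoImplicit false

namespace MX

variable {G : Type*} [Group G]

/-- The normalizer of `L`. -/
abbrev TT (L : Subgroup G) : Subgroup G := Subgroup.normalizer (L : Set G)

/-- The centralizer of `L`. -/
abbrev CC (L : Subgroup G) : Subgroup G := Subgroup.centralizer (L : Set G)

/-- The key (stabiliser of the block) of a maximal subgroup of diagonal type. -/
def keyS (L N M : Subgroup G) : Subgroup G :=
  N ⊔ (M ⊓ Subgroup.normalizer ((M ⊓ N ⊓ CC L : Subgroup G) : Set G))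

/-- The elements which centralise all `s L s⁻¹`, `s ∈ S`. -/
def DS (L S : Subgroup G) : Subgroup G where
  carrier := {g | ∀ s ∈ S, s⁻¹ * g * s ∈ CC L}
  mul_mem' := by
    intro a b ha hb s hs
    have : s⁻¹ * (a * b) * s = (s⁻¹ * a * s) * (s⁻¹ * b * s) := by group
    rw [this]
    exact (CC L).mul_mem (ha s hs) (hb s hs)
  one_mem' := by intro s _; simpa using (CC L).one_mem
  inv_mem' := by
    intro a ha s hs
    have : s⁻¹ * a⁻¹ * s = (s⁻¹ * a * s)⁻¹ := by group
    rw [this]
    exact (CC L).inv_mem (ha s hs)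

/-- The part of `N` which agrees with `M ⊓ N` on the block of `S`. -/
def FF (L N S M : Subgroup G) : Subgroup G := (M ⊓ N) ⊔ (N ⊓ DS L S)

/-- `M` is a maximal subgroup of diagonal type. -/
structure DT (L N M : Subgroup G) : Prop where
  max : IsCoatom M
  notle : ¬ N ≤ M
  top : imA L M = ⊤
  ndiag : ¬ M ⊓ N ≤ CC L

/-- `b` is the automorphism of `LA L` induced by the element `m`. -/
def Sg (L N M : Subgroup G) (m : G) (b : MulAut (LA L)) : Prop :=
  ∀ y ∈ M ⊓ N, ∀ (h1 : pa L y ∈ LA L) (h2 : pa L (m * y * m⁻¹) ∈ LA L),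
    b ⟨pa L y, h1⟩ = ⟨pa L (m * y * m⁻¹), h2⟩

/-- The classes of elements with exactly `k` marks. -/
def Zm (L : Subgroup G) (k : ℕ) : Set (ConjClasses G) :=
  {c | ∃ g : G, c = ConjClasses.mk g ∧ (Mk L g).ncard = k}

end MX
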