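import Pool.Agent.helper81.MX.Defs4

set_option autoImplicit false

namespace MX

section

variable (H V : Type*) [Group H] [AddCommGroup V] [DistribMulAction H V] (p : ℕ)

/-- the pairs `(h, lam)` with `lam` fixed by `h`, `lam = 0` allowed -/
def A04X : Type _ := {x : H × (V →+ ZMod p) // ∀ v : V, x.2 (x.1 • v) = x.2 v}

end

variable {H V : Type*} [Group H] [AddCommGroup V] [DistribMulAction H V] {p : ℕ}

/-- the action -/
def A04act (g : H) (x : A04X H V p) : A04X H V p :=
  ⟨(g * x.1.1 * g⁻¹, x.1.2.comp (DistribSMul.toAddMonoidHom V g⁻¹)), by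
    intro v
    show x.1.2 (g⁻¹ • (g * x.1.1 * g⁻¹) • v) = x.1.2 (g⁻¹ • v)
    have h1 : g⁻¹ * (g * x.1.1 * g⁻¹) = x.1.1 * g⁻¹ := by group
    rw [smul_smul, h1, mul_smul, x.2]⟩

theorem A04act_fst (g : H) (x : A04X H V p) : (A04act g x).1.1 = g * x.1.1 * g⁻¹ := rfl

theorem A04act_snd (g : H) (x : A04X H V p) (v : V) : (A04act g x).1.2 v = x.1.2 (g⁻¹ • v) := rfl

instance A04inst : MulAction H (A04X H V p) where
  smul := A04act
  one_smul x := by
    apply Subtype.ext
    apply Prod.ext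
    · show 1 * x.1.1 * 1⁻¹ = x.1.1
      group
    · ext v
      show x.1.2 ((1 : H)⁻¹ • v) = x.1.2 v
      rw [inv_one, one_smul]
  mul_smul g h x := by
    apply Subtype.ext
    apply Prod.ext
    · show g * h * x.1.1 * (g * h)⁻¹ = g * (h * x.1.1 * h⁻¹) * g⁻¹
      group
    · ext v
      show x.1.2 ((g * h)⁻¹ • v) = x.1.2 (h⁻¹ • g⁻¹ • v)
      rw [mul_inv_rev, mul_smul]

theorem A04_smul_fst (g : H) (x : A04X H V p) : (g • x).1.1 = g * x.1.1 * g⁻¹ := rfl

theorem A04_smul_snd (g : H) (x : A04X H V p) (v : V) : (g • x).1.2 v = x.1.2 (g⁻¹ • v) := rfl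

theorem A04_ext {x y : A04X H V p} (h1 : x.1.1 = y.1.1) (h2 : ∀ v, x.1.2 v = y.1.2 v) : x = y :=
  Subtype.ext (Prod.ext h1 (by ext v; exact h2 v))

/-- the orbit map on the pairs with `lam = 0` -/
def A04l : ConjClasses H → MulAction.orbitRel.Quotient H (A04X H V p) :=
  Quotient.lift (fun h : H => (Quotient.mk'' ⟨(h, 0), fun v => rfl⟩ : MulAction.orbitRel.Quotient H (A04X H V p))) (by
    intro a b hab
    obtain ⟨c, hc⟩ := isConj_iff.1 hab
    refine Quotient.sound' ?_
    rw [MulAction.orbitRel_apply]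
    refine ⟨c⁻¹, A04_ext ?_ ?_⟩
    · show c⁻¹ * b * c⁻¹⁻¹ = a
      rw [← hc]; group
    · intro v
      rfl)

/-- the orbit map on the other pairs -/
def A04r : Quotient (PrSetoid H V p) → MulAction.orbitRel.Quotient H (A04X H V p) :=
  Quotient.lift (fun x : Pr H V p => (Quotient.mk'' ⟨x.1, x.2.2⟩ : MulAction.orbitRel.Quotient H (A04X H V p))) (by
    intro x y hxy
    obtain ⟨g, h1, h2⟩ : PrRel H V p x y := hxy
    refine Quotient.sound' ?_
    rw [MulAction.orbitRel_apply]
    refine ⟨g⁻¹, A04_ext ?_ ?_⟩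
    · show g⁻¹ * y.1.1 * g⁻¹⁻¹ = x.1.1
      rw [h1]; group
    · intro v
      show y.1.2 (g⁻¹⁻¹ • v) = x.1.2 v
      rw [h2, inv_inv, inv_smul_smul])

theorem A04_bij : Function.Bijective (Sum.elim (A04l (H := H) (V := V) (p := p)) A04r) := by
  constructor
  · rintro (a | a) (b | b) hab
    · induction a using Quotient.inductionOn with | _ a => ?_
      induction b using Quotient.inductionOn with | _ b => ?_
      have h1 := Quotient.exact' hab
      rw [MulAction.orbitRel_apply] at h1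
      obtain ⟨c, hc⟩ := h1
      have h2 : c * b * c⁻¹ = a := congrArg (fun x : A04X H V p => x.1.1) hc
      refine congrArg Sum.inl (Quotient.sound ?_)
      exact (isConj_iff.2 ⟨c, h2⟩).symm
    · exfalso
      induction a using Quotient.inductionOn with | _ a => ?_
      induction b using Quotient.inductionOn with | _ b => ?_
      have h1 := Quotient.exact' hab
      rw [MulAction.orbitRel_apply] at h1
      obtain ⟨c, hc⟩ := h1
      refine b.2.1 ?_
      ext v
      have h2 : ∀ w : V, b.1.2 (c⁻¹ • w) = 0 := fun w => congrArg (fun x : A04X H V p => x.1.2 w) hc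
      have h3 := h2 (c • v)
      rw [inv_smul_smul] at h3
      exact h3
    · exfalso
      induction a using Quotient.inductionOn with | _ a => ?_
      induction b using Quotient.inductionOn with | _ b => ?_
      have h1 := Quotient.exact' hab
      rw [MulAction.orbitRel_apply] at h1
      obtain ⟨c, hc⟩ := h1
      refine a.2.1 ?_
      ext v
      have h2 : ∀ w : V, (0 : V →+ ZMod p) (c⁻¹ • w) = a.1.2 w := fun w => congrArg (fun x : A04X H V p => x.1.2 w) hc
      exact (h2 v).symm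
    · induction a using Quotient.inductionOn with | _ a => ?_
      induction b using Quotient.inductionOn with | _ b => ?_
      have h1 := Quotient.exact' hab
      rw [MulAction.orbitRel_apply] at h1
      obtain ⟨c, hc⟩ := h1
      have h2 : c * b.1.1 * c⁻¹ = a.1.1 := congrArg (fun x : A04X H V p => x.1.1) hc
      have h3 : ∀ w : V, b.1.2 (c⁻¹ • w) = a.1.2 w := fun w => congrArg (fun x : A04X H V p => x.1.2 w) hc
      refine congrArg Sum.inr (Quotient.sound ?_)
      refine ⟨c⁻¹, ?_, fun v => ?_⟩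
      · rw [← h2]; group
      · rw [← h3, inv_inv, inv_smul_smul]
  · intro x
    induction x using Quotient.inductionOn' with | _ x => ?_
    by_cases h0 : x.1.2 = 0
    · refine ⟨Sum.inl (Quotient.mk'' x.1.1), ?_⟩
      show (Quotient.mk'' _ : MulAction.orbitRel.Quotient H (A04X H V p)) = _
      congr 1
      exact A04_ext rfl (fun v => by rw [h0])
    · exact ⟨Sum.inr (Quotient.mk'' ⟨x.1, h0, x.2⟩), rfl⟩

theorem A04_orb [Finite H] [Finite V] [Fact p.Prime] :
    Nat.card (MulAction.orbitRel.Quotient H (A04X H V p)) = kk H + Dn H V p := by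
  haveI : Finite (V →+ ZMod p) := DFunLike.finite _
  haveI : Finite (Pr H V p) := Subtype.finite
  rw [← Nat.card_eq_of_bijective _ (A04_bij (H := H) (V := V) (p := p)), Nat.card_sum]
  rfl

/-- the pairs of commuting elements and the fixed points -/
def A04e : (Σ g : H, MulAction.fixedBy (A04X H V p) g) ≃
    {x : H × H × (V →+ ZMod p) // x.1 * x.2.1 = x.2.1 * x.1 ∧
      (∀ v, x.2.2 (x.1 • v) = x.2.2 v) ∧ ∀ v, x.2.2 (x.2.1 • v) = x.2.2 v} where
  toFun y := ⟨(y.1, y.2.1.1.1, y.2.1.1.2), by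
    obtain ⟨g, ⟨x, hx⟩⟩ := y
    have h1 : g * x.1.1 * g⁻¹ = x.1.1 := congrArg (fun x : A04X H V p => x.1.1) hx
    have h2 : ∀ w : V, x.1.2 (g⁻¹ • w) = x.1.2 w := fun w => congrArg (fun x : A04X H V p => x.1.2 w) hx
    refine ⟨?_, fun v => ?_, x.2⟩
    · show g * x.1.1 = x.1.1 * g
      exact mul_inv_eq_iff_eq_mul.1 h1
    · show x.1.2 (g • v) = x.1.2 v
      rw [← h2, inv_smul_smul]⟩
  invFun z := ⟨z.1.1, ⟨⟨(z.1.2.1, z.1.2.2), z.2.2.2⟩, by
    refine A04_ext ?_ (fun v => ?_)
    · show z.1.1 * z.1.2.1 * z.1.1⁻¹ = z.1.2.1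
      exact mul_inv_eq_iff_eq_mul.2 z.2.1
    · show z.1.2.2 (z.1.1⁻¹ • v) = z.1.2.2 v
      rw [← z.2.2.1, smul_inv_smul]⟩⟩
  left_inv y := rfl
  right_inv z := rfl

/-- A04 -/
theorem burn_pairs {H V : Type*} [Group H] [AddCommGroup V] [DistribMulAction H V] [Finite H]
    [Finite V] (p : ℕ) [Fact p.Prime] (hp : ∀ v : V, p • v = 0) :
    (kk H + Dn H V p) * Nat.card H = Nat.card {x : H × H × (V →+ ZMod p) // x.1 * x.2.1 = x.2.1 * x.1 ∧
      (∀ v, x.2.2 (x.1 • v) = x.2.2 v) ∧ ∀ v, x.2.2 (x.2.1 • v) = x.2.2 v} := by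
  rw [← A04_orb (H := H) (V := V) (p := p), ← Nat.card_prod, ← Nat.card_congr A04e]
  exact (Nat.card_congr (MulAction.sigmaFixedByEquivOrbitsProdGroup H (A04X H V p))).symm

end MX
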