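import Pool.Agent.helper81.MX.A03
import Pool.Agent.helper81.MX.A04

/-!
# Row A28 of project MX
-/

set_option autoImplicit false

namespace MX

section A28

/-- A28 -/
theorem kk_SD {H V : Type*} [Group H] [AddCommGroup V] [DistribMulAction H V] [Finite H]
    [Finite V] (p : ℕ) [Fact p.Prime] (hp : ∀ v : V, p • v = 0) :
    kk (SD H V) = kk H + Dn H V p := by
  have h1 := comm_SD (H := H) (V := V) p hp
  have h2 := burn_pairs (H := H) (V := V) p hp
  have h3 : 0 < Nat.card H := Nat.card_pos
  exact Nat.eq_of_mul_eq_mul_right h3 (h1.trans h2.symm)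

end A28

end MX
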