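import Pool.Agent.helper81.MX.Defs2

/-!
Row U03: `PGL(2,p)` acts transitively on the pairs of different subgroups of order `p`.
-/

set_option autoImplicit false

namespace MX
open scoped MatrixGroups

theorem U03_cj_mul {G : Type*} [Group G] (a b : G) (H : Subgroup G) :
    cj (a * b) H = cj a (cj b H) := by
  ext x
  rw [mem_cj, mem_cj, mem_cj]
  have : (a * b)⁻¹ * x * (a * b) = b⁻¹ * (a⁻¹ * x * a) * b := by group
  rw [this]

theorem U03_cj_zpowers {G : Type*} [Group G] (a x : G) :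
    cj a (Subgroup.zpowers x) = Subgroup.zpowers (a * x * a⁻¹) := by
  unfold cj
  rw [MonoidHom.map_zpowers]
  rfl

theorem U03_uu_add {p : ℕ} (a b : ZMod p) : uu (a + b) = uu a * uu b := by
  apply Subtype.ext
  show !![1, a + b; 0, 1] = !![1, a; 0, 1] * !![1, b; 0, 1]
  ext i j
  fin_cases i <;> fin_cases j <;> simp [Matrix.mul_apply, Fin.sum_univ_two, add_comm]

theorem U03_uu_pow {p : ℕ} (a : ZMod p) (n : ℕ) : (uu a) ^ n = uu ((n : ZMod p) * a) := by
  induction n with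
  | zero =>
    rw [pow_zero, Nat.cast_zero, zero_mul]
    apply Subtype.ext
    show (1 : Matrix (Fin 2) (Fin 2) (ZMod p)) = !![1, 0; 0, 1]
    exact Matrix.one_fin_two
  | succ n ih =>
    rw [pow_succ, ih, ← U03_uu_add]
    congr 1
    push_cast
    ring

theorem U03_zp {p : ℕ} [Fact p.Prime] (s : ZMod p) (hs : s ≠ 0) :
    Subgroup.zpowers (sk (uu s)) = Subgroup.zpowers (sk (uu 1)) := by
  have key : ∀ a b : ZMod p, a ≠ 0 → sk (uu b) ∈ Subgroup.zpowers (sk (uu a)) := by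
    intro a b ha
    refine Subgroup.mem_zpowers_iff.2 ⟨((b * a⁻¹).val : ℤ), ?_⟩
    have e : (((b * a⁻¹).val : ℕ) : ZMod p) = b * a⁻¹ := ZMod.natCast_zmod_val _
    rw [zpow_natCast, ← map_pow, U03_uu_pow, e, mul_assoc, inv_mul_cancel₀ ha, mul_one]
  refine le_antisymm ?_ ?_
  · rw [Subgroup.zpowers_le]
    exact key 1 s one_ne_zero
  · rw [Subgroup.zpowers_le]
    exact key s 1 hs

/-- an element of order `p` is unipotent -/
theorem U03_nil {p : ℕ} [Fact p.Prime] (g : GL (Fin 2) (ZMod p)) (h : pk g ≠ 1)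
    (hp : pk g ^ p = 1) : ∃ c a b d : ZMod p, c ≠ 0 ∧ a * a + b * d = 0 ∧
      (a ≠ 0 ∨ b ≠ 0 ∨ d ≠ 0) ∧
      (g : Matrix (Fin 2) (Fin 2) (ZMod p)) = !![c + a, b; d, c - a] := by
  have hp1 : 1 < p := (Fact.out : p.Prime).one_lt
  rw [← map_pow] at hp
  have h1 : pk (1 : GL (Fin 2) (ZMod p)) = pk (g ^ p) := (map_one _).trans hp.symm
  obtain ⟨u, hu⟩ := Matrix.ProjGenLinGroup.mk_eq_mk_iff.1 h1
  rw [one_mul] at hu
  have hu' : (g : Matrix (Fin 2) (Fin 2) (ZMod p)) ^ p = (u : ZMod p) • 1 := by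
    have h2 := congrArg (fun t : GL (Fin 2) (ZMod p) => (t : Matrix (Fin 2) (Fin 2) (ZMod p))) hu
    simp only [Units.val_pow_eq_pow_val] at h2
    rw [← h2]
    ext i j
    fin_cases i <;> fin_cases j <;> simp
  set c : ZMod p := (u : ZMod p) with hc
  set N : Matrix (Fin 2) (Fin 2) (ZMod p) := (g : Matrix (Fin 2) (Fin 2) (ZMod p)) - c • 1 with hN
  have hNp : N ^ p = 0 := by
    have hcomm : Commute (g : Matrix (Fin 2) (Fin 2) (ZMod p)) (c • 1) := by
      rw [Commute, SemiconjBy, mul_smul_comm, smul_mul_assoc, mul_one, one_mul]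
    rw [hN, sub_pow_char_of_commute _ hcomm, hu', smul_pow, one_pow, ZMod.pow_card, sub_self]
  have hdet : N.det = 0 := by
    have h2 : N.det ^ p = 0 := by
      rw [← Matrix.det_pow, hNp, Matrix.det_zero]
    exact pow_eq_zero_iff (by omega) |>.1 h2
  rw [Matrix.det_fin_two] at hdet
  have hsq : N * N = (N 0 0 + N 1 1) • N := by
    ext i j
    fin_cases i <;> fin_cases j <;>
      simp [Matrix.mul_apply, Fin.sum_univ_two]
    · linear_combination -hdet
    · ring
    · ring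
    · linear_combination -hdet
  have hpow : ∀ n : ℕ, N ^ (n + 1) = (N 0 0 + N 1 1) ^ n • N := by
    intro n
    induction n with
    | zero => rw [pow_one, pow_zero, one_smul]
    | succ n ih =>
      rw [pow_succ, ih, smul_mul_assoc, hsq, smul_smul, ← pow_succ]
  have hne : N ≠ 0 := by
    intro h0
    apply h
    have h2 : pk (1 : GL (Fin 2) (ZMod p)) = pk g := by
      refine Matrix.ProjGenLinGroup.mk_eq_mk_iff.2 ⟨u, ?_⟩
      rw [one_mul]
      apply Units.ext
      have h3 : (g : Matrix (Fin 2) (Fin 2) (ZMod p)) = c • 1 := sub_eq_zero.1 h0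
      rw [h3]
      ext i j
      fin_cases i <;> fin_cases j <;> simp [hc]
    rw [← h2]
    exact map_one _
  have htr : N 0 0 + N 1 1 = 0 := by
    have h2 := hpow (p - 1)
    rw [Nat.sub_add_cancel hp1.le, hNp] at h2
    rcases smul_eq_zero.1 h2.symm with h3 | h3
    · exact pow_eq_zero_iff (by omega) |>.1 h3
    · exact absurd h3 hne
  have h11 : N 1 1 = - N 0 0 := by linear_combination htr
  refine ⟨c, N 0 0, N 0 1, N 1 0, u.ne_zero, ?_, ?_, ?_⟩
  · rw [h11] at hdet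
    linear_combination -hdet
  · by_contra hcon
    push Not at hcon
    apply hne
    ext i j
    fin_cases i <;> fin_cases j
    · exact hcon.1
    · exact hcon.2.1
    · exact hcon.2.2
    · show N 1 1 = 0
      rw [h11, hcon.1, neg_zero]
  · have h2 : (g : Matrix (Fin 2) (Fin 2) (ZMod p)) = c • 1 + N := by rw [hN]; abel
    ext i j
    fin_cases i <;> fin_cases j
    · show (g : Matrix (Fin 2) (Fin 2) (ZMod p)) 0 0 = c + N 0 0
      rw [h2]; simp
    · show (g : Matrix (Fin 2) (Fin 2) (ZMod p)) 0 1 = N 0 1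
      rw [h2]; simp
    · show (g : Matrix (Fin 2) (Fin 2) (ZMod p)) 1 0 = N 1 0
      rw [h2]; simp
    · show (g : Matrix (Fin 2) (Fin 2) (ZMod p)) 1 1 = c - N 0 0
      rw [h2, sub_eq_add_neg, ← h11]; simp

theorem U03_form {p : ℕ} [Fact p.Prime] (a b d : ZMod p) (h : a * a + b * d = 0)
    (h0 : a ≠ 0 ∨ b ≠ 0 ∨ d ≠ 0) : ∃ γ v w : ZMod p, γ ≠ 0 ∧ (v ≠ 0 ∨ w ≠ 0) ∧
      a = γ * v * w ∧ b = -(γ * v * v) ∧ d = γ * w * w := by
  by_cases hb : b = 0
  · have ha : a = 0 := by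
      rw [hb, zero_mul, add_zero] at h
      exact mul_self_eq_zero.1 h
    have hd : d ≠ 0 := by
      rcases h0 with h0 | h0 | h0
      · exact absurd ha h0
      · exact absurd hb h0
      · exact h0
    exact ⟨d, 0, 1, hd, Or.inr one_ne_zero, by rw [ha]; ring, by rw [hb]; ring, by ring⟩
  · refine ⟨-b⁻¹, b, -a, neg_ne_zero.2 (inv_ne_zero hb), Or.inl hb, ?_, ?_, ?_⟩
    · field_simp
    · field_simp
    · field_simp
      linear_combination h

/-- the conjugating matrices for a subgroup of order `p` -/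
theorem U03_line {p : ℕ} [Fact p.Prime] (U : Subgroup (PG p)) (hU : Nat.card U = p) :
    ∃ v w : ZMod p, (v ≠ 0 ∨ w ≠ 0) ∧ ∀ k : GL (Fin 2) (ZMod p),
      (k : Matrix (Fin 2) (Fin 2) (ZMod p)) 0 0 = v → (k : Matrix (Fin 2) (Fin 2) (ZMod p)) 1 0 = w →
      cj (pk k) (Subgroup.zpowers (sk (uu 1))) = U := by
  have hp1 : 1 < p := (Fact.out : p.Prime).one_lt
  have hfin : Finite U := Nat.finite_of_card_ne_zero (by rw [hU]; omega)
  have hnt : Nontrivial U := by
    rw [← Finite.one_lt_card_iff_nontrivial, hU]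
    exact hp1
  obtain ⟨x, hx⟩ := exists_ne (1 : U)
  have hord : orderOf (x : PG p) = p := by
    rw [Subgroup.orderOf_coe]
    have h1 : orderOf x ∣ p := (orderOf_dvd_natCard x).trans (dvd_of_eq hU)
    rcases (Nat.dvd_prime Fact.out).1 h1 with h2 | h2
    · exact absurd (orderOf_eq_one_iff.1 h2) hx
    · exact h2
  have hz : Subgroup.zpowers (x : PG p) = U := by
    refine Subgroup.eq_of_le_of_card_ge ?_ ?_
    · rw [Subgroup.zpowers_le]; exact x.2
    · rw [hU, Nat.card_zpowers, hord]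
  obtain ⟨g, hg⟩ := Matrix.ProjGenLinGroup.mk_surjective (x : PG p)
  have hg1 : pk g ≠ 1 := by
    rw [pk, hg]
    intro h
    exact hx (Subtype.ext h)
  have hgp : pk g ^ p = 1 := by
    rw [pk, hg]
    exact orderOf_dvd_iff_pow_eq_one.1 (dvd_of_eq hord)
  obtain ⟨c, a, b, d, hc, h1, h2, h3⟩ := U03_nil g hg1 hgp
  obtain ⟨γ, v, w, hγ, hvw, ha, hb, hd⟩ := U03_form a b d h1 h2
  refine ⟨v, w, hvw, fun k hk0 hk1 => ?_⟩
  set K := (k : Matrix (Fin 2) (Fin 2) (ZMod p)) with hK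
  have hdet : K.det ≠ 0 := by
    have := k.det.ne_zero
    rwa [Matrix.GeneralLinearGroup.val_det_apply] at this
  rw [Matrix.det_fin_two, hk0, hk1] at hdet
  set D := v * K 1 1 - K 0 1 * w with hD
  set s : ZMod p := -(γ * D) * c⁻¹ with hs
  have hs0 : s ≠ 0 := mul_ne_zero (neg_ne_zero.2 (mul_ne_zero hγ hdet)) (inv_ne_zero hc)
  have hcs : c * s = -(γ * D) := by
    rw [hs]; field_simp
  have key : pk (k * Matrix.SpecialLinearGroup.toGL (uu s)) = pk (g * k) := by
    refine Matrix.ProjGenLinGroup.mk_eq_mk_iff.2 ⟨Units.mk0 c hc, ?_⟩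
    apply Units.ext
    have e1 : ((Matrix.SpecialLinearGroup.toGL (uu s) : GL (Fin 2) (ZMod p)) :
      Matrix (Fin 2) (Fin 2) (ZMod p)) = !![1, s; 0, 1] := rfl
    rw [Units.val_mul, Units.val_mul, Units.val_mul, e1, h3, ← hK]
    have e2 : ((Matrix.GeneralLinearGroup.scalar (Fin 2) (Units.mk0 c hc) :
      GL (Fin 2) (ZMod p)) : Matrix (Fin 2) (Fin 2) (ZMod p)) = !![c, 0; 0, c] := by
      ext i j
      fin_cases i <;> fin_cases j <;> simp
    rw [e2]
    ext i j
    fin_cases i <;> fin_cases j <;>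
      simp [Matrix.mul_apply, Fin.sum_univ_two, hk0, hk1]
    · rw [ha, hb]; ring
    · rw [ha, hb]
      linear_combination v * hcs
    · rw [ha, hd]; ring
    · rw [ha, hd]
      linear_combination w * hcs
  have e3 : pk k * sk (uu s) * (pk k)⁻¹ = pk g := by
    have e4 : pk k * sk (uu s) = pk g * pk k := by
      have e5 : pk (g * k) = pk g * pk k := map_mul _ _ _
      rw [← e5, ← key]
      exact (map_mul _ _ _).symm
    rw [e4, mul_inv_cancel_right]
  rw [← U03_zp s hs0, U03_cj_zpowers, e3, pk, hg, hz]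

/-- a matrix with given columns -/
theorem U03_mat {p : ℕ} [Fact p.Prime] (v w v' w' : ZMod p) (h : v * w' - v' * w ≠ 0) :
    ∃ k : GL (Fin 2) (ZMod p), (k : Matrix (Fin 2) (Fin 2) (ZMod p)) = !![v, v'; w, w'] := by
  refine ⟨Matrix.GeneralLinearGroup.mkOfDetNeZero !![v, v'; w, w'] ?_, rfl⟩
  rw [Matrix.det_fin_two_of]
  exact h

/-- two different subgroups of order `p` in standard position -/
theorem U03_std {p : ℕ} [Fact p.Prime] (w : GL (Fin 2) (ZMod p))
    (hw : (w : Matrix (Fin 2) (Fin 2) (ZMod p)) = !![0, 1; 1, 0]) (U U' : Subgroup (PG p))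
    (hU : Nat.card U = p) (hU' : Nat.card U' = p) (hne : U ≠ U') :
    ∃ k : GL (Fin 2) (ZMod p), cj (pk k) (Subgroup.zpowers (sk (uu 1))) = U ∧
      cj (pk (k * w)) (Subgroup.zpowers (sk (uu 1))) = U' := by
  obtain ⟨v1, v2, hv, h1⟩ := U03_line U hU
  obtain ⟨w1, w2, hw', h2⟩ := U03_line U' hU'
  by_cases hd : v1 * w2 - w1 * v2 = 0
  · exfalso
    apply hne
    -- the vectors are proportional
    obtain ⟨t, ht0, ht1, ht2⟩ : ∃ t : ZMod p, t ≠ 0 ∧ w1 = t * v1 ∧ w2 = t * v2 := by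
      by_cases c1 : v1 = 0
      · have c2 : v2 ≠ 0 := hv.resolve_left (not_not.2 c1)
        rw [c1, zero_mul, zero_sub, neg_eq_zero] at hd
        have c3 : w1 = 0 := (mul_eq_zero.1 hd).resolve_right c2
        have c4 : w2 ≠ 0 := hw'.resolve_left (not_not.2 c3)
        exact ⟨w2 * v2⁻¹, mul_ne_zero c4 (inv_ne_zero c2), by rw [c1, c3, mul_zero],
          by field_simp⟩
      · have c3 : w1 ≠ 0 := by
          intro c3
          rw [c3, zero_mul, sub_zero] at hd
          have c4 := (mul_eq_zero.1 hd).resolve_left c1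
          rcases hw' with h | h
          · exact h c3
          · exact h c4
        refine ⟨w1 * v1⁻¹, mul_ne_zero c3 (inv_ne_zero c1), by field_simp, ?_⟩
        field_simp
        linear_combination hd
    obtain ⟨k, hk⟩ : ∃ k : GL (Fin 2) (ZMod p),
        (k : Matrix (Fin 2) (Fin 2) (ZMod p)) 0 0 = v1 ∧
        (k : Matrix (Fin 2) (Fin 2) (ZMod p)) 1 0 = v2 := by
      rcases hv with hv | hv
      · obtain ⟨k, hk⟩ := U03_mat v1 v2 0 1 (by simpa using hv)
        exact ⟨k, by rw [hk]; rfl, by rw [hk]; rfl⟩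
      · obtain ⟨k, hk⟩ := U03_mat v1 v2 1 0 (by simpa using hv)
        exact ⟨k, by rw [hk]; rfl, by rw [hk]; rfl⟩
    have e1 := h1 k hk.1 hk.2
    have e2 := h2 (k * Matrix.GeneralLinearGroup.scalar (Fin 2) (Units.mk0 t ht0)) (by
      rw [Units.val_mul]
      simp [Matrix.mul_apply, Fin.sum_univ_two, hk.1, ht1, mul_comm]) (by
      rw [Units.val_mul]
      simp [Matrix.mul_apply, Fin.sum_univ_two, hk.2, ht2, mul_comm])
    have e3 : pk (k * Matrix.GeneralLinearGroup.scalar (Fin 2) (Units.mk0 t ht0)) = pk k := by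
      rw [pk, map_mul, Matrix.ProjGenLinGroup.mk_scalar, mul_one]
    rw [e3] at e2
    rw [← e1, ← e2]
  · obtain ⟨k, hk⟩ := U03_mat v1 v2 w1 w2 hd
    refine ⟨k, h1 k (by rw [hk]; rfl) (by rw [hk]; rfl), h2 (k * w) ?_ ?_⟩
    · rw [Units.val_mul, hk, hw]
      simp [Matrix.mul_apply, Fin.sum_univ_two]
    · rw [Units.val_mul, hk, hw]
      simp [Matrix.mul_apply, Fin.sum_univ_two]

/-- U03 -/
theorem unip_conj_two {p : ℕ} [Fact p.Prime] (hp : 5 ≤ p) (U U' V V' : Subgroup (PG p))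
    (hU : Nat.card U = p) (hU' : Nat.card U' = p) (hne : U ≠ U')
    (hV : Nat.card V = p) (hV' : Nat.card V' = p) (hne' : V ≠ V') :
    ∃ k : PG p, cj k U = V ∧ cj k U' = V' := by
  obtain ⟨w, hw⟩ := U03_mat (p := p) 0 1 1 0 (by simp)
  obtain ⟨k, hk1, hk2⟩ := U03_std w hw U U' hU hU' hne
  obtain ⟨l, hl1, hl2⟩ := U03_std w hw V V' hV hV' hne'
  refine ⟨pk l * (pk k)⁻¹, ?_, ?_⟩
  · rw [← hk1, ← U03_cj_mul, inv_mul_cancel_right, hl1]
  · rw [← hk2, ← U03_cj_mul, ← hl2]
    have e : pk l * (pk k)⁻¹ * pk (k * w) = pk (l * w) := by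
      rw [pk, pk, pk, pk, map_mul, map_mul]
      group
    rw [e]

end MX
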