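import Pool.Agent.helper81.MX.Defs3
import Pool.Agent.helper81.MX.U03

/-!
# Row AU1 of project MX
-/

set_option autoImplicit false

namespace MX

open scoped MatrixGroups

section AU1

variable {p : ℕ}

theorem AU1_uu_mul (a b : ZMod p) : uu a * uu b = uu (a + b) := by
  apply Subtype.ext
  rw [Matrix.SpecialLinearGroup.coe_mul]
  simp only [uu]
  rw [Matrix.mul_fin_two]
  ext i j
  fin_cases i <;> fin_cases j <;> simp <;> ring

theorem AU1_vv_mul (a b : ZMod p) : vv a * vv b = vv (a + b) := by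
  apply Subtype.ext
  rw [Matrix.SpecialLinearGroup.coe_mul]
  simp only [vv]
  rw [Matrix.mul_fin_two]
  ext i j
  fin_cases i <;> fin_cases j <;> simp

theorem AU1_uu_zero : (uu (0 : ZMod p)) = 1 := by
  apply Subtype.ext
  ext i j
  fin_cases i <;> fin_cases j <;> simp [uu]

theorem AU1_vv_zero : (vv (0 : ZMod p)) = 1 := by
  apply Subtype.ext
  ext i j
  fin_cases i <;> fin_cases j <;> simp [vv]

theorem AU1_uu_pow (a : ZMod p) (k : ℕ) : uu a ^ k = uu ((k : ZMod p) * a) := by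
  induction k with
  | zero => rw [pow_zero, Nat.cast_zero, zero_mul, AU1_uu_zero]
  | succ k ih =>
    rw [pow_succ, ih, AU1_uu_mul]
    congr 1
    push_cast
    ring

theorem AU1_vv_pow (a : ZMod p) (k : ℕ) : vv a ^ k = vv ((k : ZMod p) * a) := by
  induction k with
  | zero => rw [pow_zero, Nat.cast_zero, zero_mul, AU1_vv_zero]
  | succ k ih =>
    rw [pow_succ, ih, AU1_vv_mul]
    congr 1
    push_cast
    ring

/-- equality of classes in `PGL` -/
theorem AU1_eq [Fact p.Prime] {g h : SL(2, ZMod p)} (e : sk g = sk h) :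
    ∃ u : ZMod p, u ≠ 0 ∧ ∀ i j, g.1 i j * u = h.1 i j := by
  change Matrix.ProjGenLinGroup.mk (Matrix.SpecialLinearGroup.toGL g) =
    Matrix.ProjGenLinGroup.mk (Matrix.SpecialLinearGroup.toGL h) at e
  rw [Matrix.ProjGenLinGroup.mk_eq_mk_iff] at e
  obtain ⟨u, hu⟩ := e
  refine ⟨u, u.ne_zero, fun i j => ?_⟩
  have h1 := congrArg (fun g : GL (Fin 2) (ZMod p) => (g : Matrix (Fin 2) (Fin 2) (ZMod p)) i j) hu
  have e4 : ((Matrix.GeneralLinearGroup.scalar (Fin 2) u : GL (Fin 2) (ZMod p)) :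
        Matrix (Fin 2) (Fin 2) (ZMod p)) = Matrix.scalar (Fin 2) (u : ZMod p) := rfl
  have e5 : ((Matrix.SpecialLinearGroup.toGL g : GL (Fin 2) (ZMod p)) :
        Matrix (Fin 2) (Fin 2) (ZMod p)) = g.1 := rfl
  have e6 : ((Matrix.SpecialLinearGroup.toGL h : GL (Fin 2) (ZMod p)) :
        Matrix (Fin 2) (Fin 2) (ZMod p)) = h.1 := rfl
  simp only [Units.val_mul, e4, e5, e6] at h1
  rw [Matrix.scalar_apply, Matrix.mul_diagonal] at h1
  exact h1

theorem AU1_vv_ne_uu [Fact p.Prime] (a : ZMod p) : sk (vv (1 : ZMod p)) ≠ sk (uu a) := by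
  intro h
  obtain ⟨u, hu0, hu⟩ := AU1_eq h
  have h1 := hu 1 0
  simp [uu, vv] at h1
  exact hu0 h1

theorem AU1_uu_ne_one [Fact p.Prime] (a : ZMod p) (ha : a ≠ 0) : sk (uu a) ≠ 1 := by
  intro h
  have h' : sk (uu a) = sk (1 : SL(2, ZMod p)) := h.trans (map_one Matrix.SpecialLinearGroup.toPGL).symm
  obtain ⟨u, hu0, hu⟩ := AU1_eq h'
  have h1 := hu 0 1
  simp [uu] at h1
  tauto

theorem AU1_vv_ne_one [Fact p.Prime] (a : ZMod p) (ha : a ≠ 0) : sk (vv a) ≠ 1 := by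
  intro h
  have h' : sk (vv a) = sk (1 : SL(2, ZMod p)) := h.trans (map_one Matrix.SpecialLinearGroup.toPGL).symm
  obtain ⟨u, hu0, hu⟩ := AU1_eq h'
  have h1 := hu 1 0
  simp [vv] at h1
  tauto

theorem AU1_ord_uu [Fact p.Prime] : orderOf (sk (uu (1 : ZMod p))) = p := by
  refine orderOf_eq_prime ?_ (AU1_uu_ne_one 1 one_ne_zero)
  rw [← map_pow, AU1_uu_pow, CharP.cast_eq_zero, zero_mul, AU1_uu_zero]
  exact map_one Matrix.SpecialLinearGroup.toPGL

theorem AU1_ord_vv [Fact p.Prime] : orderOf (sk (vv (1 : ZMod p))) = p := by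
  refine orderOf_eq_prime ?_ (AU1_vv_ne_one 1 one_ne_zero)
  rw [← map_pow, AU1_vv_pow, CharP.cast_eq_zero, zero_mul, AU1_vv_zero]
  exact map_one Matrix.SpecialLinearGroup.toPGL

theorem AU1_mem_uu [Fact p.Prime] (x : PG p) (hx : x ∈ Subgroup.zpowers (sk (uu (1 : ZMod p)))) :
    ∃ a : ZMod p, x = sk (uu a) := by
  have hfin : IsOfFinOrder (sk (uu (1 : ZMod p))) := by
    rw [← orderOf_pos_iff, AU1_ord_uu]
    exact (Fact.out : p.Prime).pos
  obtain ⟨k, hk⟩ := hfin.mem_powers_iff_mem_zpowers.mpr hx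
  refine ⟨(k : ZMod p) * 1, ?_⟩
  have hk' : sk (uu (1 : ZMod p)) ^ k = x := hk
  rw [← hk', ← map_pow, AU1_uu_pow]

theorem AU1_mem_vv [Fact p.Prime] (x : PG p) (hx : x ∈ Subgroup.zpowers (sk (vv (1 : ZMod p)))) :
    ∃ a : ZMod p, x = sk (vv a) := by
  have hfin : IsOfFinOrder (sk (vv (1 : ZMod p))) := by
    rw [← orderOf_pos_iff, AU1_ord_vv]
    exact (Fact.out : p.Prime).pos
  obtain ⟨k, hk⟩ := hfin.mem_powers_iff_mem_zpowers.mpr hx
  refine ⟨(k : ZMod p) * 1, ?_⟩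
  have hk' : sk (vv (1 : ZMod p)) ^ k = x := hk
  rw [← hk', ← map_pow, AU1_vv_pow]

/-- conjugation by a diagonal matrix -/
theorem AU1_diag [Fact p.Prime] (c : ZMod p) (hc : c ≠ 0) :
    ∃ d : PG p, d * sk (uu c) * d⁻¹ = sk (uu 1) ∧ ∀ b : ZMod p, d * sk (vv b) * d⁻¹ = sk (vv (b * c)) := by
  have hdet : (!![c⁻¹, 0; 0, 1] : Matrix (Fin 2) (Fin 2) (ZMod p)).det ≠ 0 := by
    rw [Matrix.det_fin_two_of]
    simpa using hc
  set d : GL (Fin 2) (ZMod p) := Matrix.GeneralLinearGroup.mkOfDetNeZero !![c⁻¹, 0; 0, 1] hdet with hd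
  have hdv : (d : Matrix (Fin 2) (Fin 2) (ZMod p)) = !![c⁻¹, 0; 0, 1] := rfl
  refine ⟨pk d, ?_, ?_⟩
  · rw [mul_inv_eq_iff_eq_mul]
    change Matrix.ProjGenLinGroup.mk d * Matrix.ProjGenLinGroup.mk (Matrix.SpecialLinearGroup.toGL (uu c)) =
      Matrix.ProjGenLinGroup.mk (Matrix.SpecialLinearGroup.toGL (uu 1)) * Matrix.ProjGenLinGroup.mk d
    rw [← map_mul, ← map_mul]
    congr 1
    apply Units.ext
    rw [Units.val_mul, Units.val_mul, hdv]
    have e1 : ((Matrix.SpecialLinearGroup.toGL (uu c) : GL (Fin 2) (ZMod p)) :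
        Matrix (Fin 2) (Fin 2) (ZMod p)) = !![1, c; 0, 1] := rfl
    have e2 : ((Matrix.SpecialLinearGroup.toGL (uu 1) : GL (Fin 2) (ZMod p)) :
        Matrix (Fin 2) (Fin 2) (ZMod p)) = !![1, 1; 0, 1] := rfl
    rw [e1, e2, Matrix.mul_fin_two, Matrix.mul_fin_two]
    ext i j
    fin_cases i <;> fin_cases j <;> simp [hc]
  · intro b
    rw [mul_inv_eq_iff_eq_mul]
    change Matrix.ProjGenLinGroup.mk d * Matrix.ProjGenLinGroup.mk (Matrix.SpecialLinearGroup.toGL (vv b)) =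
      Matrix.ProjGenLinGroup.mk (Matrix.SpecialLinearGroup.toGL (vv (b * c))) * Matrix.ProjGenLinGroup.mk d
    rw [← map_mul, ← map_mul]
    congr 1
    apply Units.ext
    rw [Units.val_mul, Units.val_mul, hdv]
    have e1 : ((Matrix.SpecialLinearGroup.toGL (vv b) : GL (Fin 2) (ZMod p)) :
        Matrix (Fin 2) (Fin 2) (ZMod p)) = !![1, 0; b, 1] := rfl
    have e2 : ((Matrix.SpecialLinearGroup.toGL (vv (b * c)) : GL (Fin 2) (ZMod p)) :
        Matrix (Fin 2) (Fin 2) (ZMod p)) = !![1, 0; b * c, 1] := rfl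
    rw [e1, e2, Matrix.mul_fin_two, Matrix.mul_fin_two]
    ext i j
    fin_cases i <;> fin_cases j <;> simp [hc]

end AU1

/-- AU1 -/
theorem aut_normal {p : ℕ} [Fact p.Prime] (hp : 5 ≤ p) (β : MulAut (PS p)) :
    ∃ (k : PG p) (b : ZMod p),
      k * ((β ⟨sk (uu 1), sk_mem _⟩ : PS p) : PG p) * k⁻¹ = sk (uu 1) ∧
      k * ((β ⟨sk (vv 1), sk_mem _⟩ : PS p) : PG p) * k⁻¹ = sk (vv b) := by
  set u1 : PS p := ⟨sk (uu 1), sk_mem _⟩ with hu1
  set v1 : PS p := ⟨sk (vv 1), sk_mem _⟩ with hv1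
  have ou : orderOf ((β u1 : PS p) : PG p) = p := by
    rw [Subgroup.orderOf_coe, MulEquiv.orderOf_eq, ← Subgroup.orderOf_coe]
    exact AU1_ord_uu
  have ov : orderOf ((β v1 : PS p) : PG p) = p := by
    rw [Subgroup.orderOf_coe, MulEquiv.orderOf_eq, ← Subgroup.orderOf_coe]
    exact AU1_ord_vv
  have hne : Subgroup.zpowers ((β u1 : PS p) : PG p) ≠ Subgroup.zpowers ((β v1 : PS p) : PG p) := by
    intro h
    have h1 : ((β v1 : PS p) : PG p) ∈ Subgroup.zpowers ((β u1 : PS p) : PG p) := by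
      rw [h]; exact Subgroup.mem_zpowers _
    obtain ⟨m, hm⟩ := Subgroup.mem_zpowers_iff.mp h1
    have h2 : β (u1 ^ m) = β v1 := by
      apply Subtype.ext
      rw [map_zpow, Subgroup.coe_zpow]
      exact hm
    have h3 : u1 ^ m = v1 := β.injective h2
    have h4 : (sk (uu (1 : ZMod p))) ^ m = sk (vv 1) := by
      have := congrArg (Subtype.val) h3
      rw [Subgroup.coe_zpow] at this
      exact this
    obtain ⟨a, ha⟩ := AU1_mem_uu (sk (vv (1 : ZMod p))) (Subgroup.mem_zpowers_iff.mpr ⟨m, h4⟩)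
    exact AU1_vv_ne_uu a ha
  have hne' : Subgroup.zpowers (sk (uu (1 : ZMod p))) ≠ Subgroup.zpowers (sk (vv (1 : ZMod p))) := by
    intro h
    obtain ⟨a, ha⟩ := AU1_mem_uu (sk (vv (1 : ZMod p))) (by rw [h]; exact Subgroup.mem_zpowers _)
    exact AU1_vv_ne_uu a ha
  obtain ⟨k0, hk1, hk2⟩ := unip_conj_two hp (Subgroup.zpowers ((β u1 : PS p) : PG p))
    (Subgroup.zpowers ((β v1 : PS p) : PG p)) (Subgroup.zpowers (sk (uu (1 : ZMod p))))
    (Subgroup.zpowers (sk (vv (1 : ZMod p)))) (by rw [Nat.card_zpowers, ou]) (by rw [Nat.card_zpowers, ov])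
    hne (by rw [Nat.card_zpowers, AU1_ord_uu]) (by rw [Nat.card_zpowers, AU1_ord_vv]) hne'
  have m1 : k0 * ((β u1 : PS p) : PG p) * k0⁻¹ ∈ Subgroup.zpowers (sk (uu (1 : ZMod p))) := by
    rw [← hk1, mem_cj]
    have : k0⁻¹ * (k0 * ((β u1 : PS p) : PG p) * k0⁻¹) * k0 = ((β u1 : PS p) : PG p) := by group
    rw [this]
    exact Subgroup.mem_zpowers _
  have m2 : k0 * ((β v1 : PS p) : PG p) * k0⁻¹ ∈ Subgroup.zpowers (sk (vv (1 : ZMod p))) := by
    rw [← hk2, mem_cj]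
    have : k0⁻¹ * (k0 * ((β v1 : PS p) : PG p) * k0⁻¹) * k0 = ((β v1 : PS p) : PG p) := by group
    rw [this]
    exact Subgroup.mem_zpowers _
  obtain ⟨c, hc⟩ := AU1_mem_uu _ m1
  obtain ⟨b, hb⟩ := AU1_mem_vv _ m2
  have hc0 : c ≠ 0 := by
    rintro rfl
    rw [AU1_uu_zero] at hc
    have hc := hc.trans (map_one Matrix.SpecialLinearGroup.toPGL)
    have h1 : ((β u1 : PS p) : PG p) = 1 := by
      have := congrArg (fun x => k0⁻¹ * x * k0) hc
      simpa [mul_assoc] using this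
    rw [h1, orderOf_one] at ou
    omega
  obtain ⟨d, hd1, hd2⟩ := AU1_diag c hc0
  refine ⟨d * k0, b * c, ?_, ?_⟩
  · rw [← hd1, ← hc]
    group
  · rw [← hd2, ← hb]
    group

end MX
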