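import Pool.Agent.helper81.MX.Defs2

set_option autoImplicit false

namespace MX
open scoped MatrixGroups

theorem ORD_one {p : ℕ} [Fact p.Prime] (x : SL(2, ZMod p)) :
    sk x = 1 ↔ x.1 0 1 = 0 ∧ x.1 1 0 = 0 ∧ x.1 0 0 = x.1 1 1 := by
  have h : sk x = 1 ↔ x ∈ Subgroup.center (SL(2, ZMod p)) := by
    rw [← Matrix.SpecialLinearGroup.toPGL_ker, MonoidHom.mem_ker]
  rw [h, Matrix.SpecialLinearGroup.mem_center_iff]
  constructor
  · rintro ⟨r, -, hr⟩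
    rw [← hr]
    simp
  · rintro ⟨h1, h2, h3⟩
    refine ⟨x.1 0 0, ?_, ?_⟩
    · have := x.2
      rw [Matrix.det_fin_two, h1, ← h3] at this
      rw [Fintype.card_fin, pow_two]
      simpa using this
    · ext i j
      fin_cases i <;> fin_cases j <;> simp [h1, h2, h3]

theorem ORD_pow {p : ℕ} [Fact p.Prime] (x : SL(2, ZMod p)) (n : ℕ) (u v : ZMod p)
    (h : x.1 ^ n = u • x.1 + v • (1 : Matrix (Fin 2) (Fin 2) (ZMod p))) :
    sk x ^ n = 1 ↔ u = 0 ∨ sk x = 1 := by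
  have e : sk x ^ n = sk (x ^ n) := (map_pow _ _ _).symm
  have e1 : (x ^ n).1 = x.1 ^ n := Matrix.SpecialLinearGroup.coe_pow x n
  rw [e, ORD_one, ORD_one, e1, h]
  simp only [Matrix.add_apply, Matrix.smul_apply, Matrix.one_apply, smul_eq_mul]
  simp only [Fin.isValue, one_ne_zero, zero_ne_one, if_true, if_false, mul_zero, add_zero,
    mul_one, add_left_inj, mul_eq_zero, mul_eq_mul_left_iff]
  tauto

theorem ORD_sq {p : ℕ} [Fact p.Prime] (x : SL(2, ZMod p)) :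
    x.1 ^ 2 = x.1.trace • x.1 - 1 := by
  have hd := x.2
  rw [Matrix.det_fin_two] at hd
  rw [pow_two]
  ext i j
  fin_cases i <;> fin_cases j <;>
    simp [Matrix.mul_apply, Fin.sum_univ_two, Matrix.trace_fin_two]
  · linear_combination -hd
  · ring
  · ring
  · linear_combination -hd

theorem ORD_p2 {p : ℕ} [Fact p.Prime] (x : SL(2, ZMod p)) :
    x.1 ^ 2 = x.1.trace • x.1 + (-1 : ZMod p) • (1 : Matrix (Fin 2) (Fin 2) (ZMod p)) := by
  rw [ORD_sq]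
  module

theorem ORD_p3 {p : ℕ} [Fact p.Prime] (x : SL(2, ZMod p)) :
    x.1 ^ 3 = (x.1.trace ^ 2 - 1) • x.1 +
      (-x.1.trace : ZMod p) • (1 : Matrix (Fin 2) (Fin 2) (ZMod p)) := by
  rw [pow_succ, ORD_p2, add_mul, smul_mul_assoc, smul_mul_assoc, one_mul, ← pow_two, ORD_p2]
  module

theorem ORD_p4 {p : ℕ} [Fact p.Prime] (x : SL(2, ZMod p)) :
    x.1 ^ 4 = (x.1.trace ^ 3 - 2 * x.1.trace) • x.1 +
      (-(x.1.trace ^ 2 - 1) : ZMod p) • (1 : Matrix (Fin 2) (Fin 2) (ZMod p)) := by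
  rw [pow_succ, ORD_p3, add_mul, smul_mul_assoc, smul_mul_assoc, one_mul, ← pow_two, ORD_p2]
  module

theorem ORD_p5 {p : ℕ} [Fact p.Prime] (x : SL(2, ZMod p)) :
    x.1 ^ 5 = (x.1.trace ^ 4 - 3 * x.1.trace ^ 2 + 1) • x.1 +
      (-(x.1.trace ^ 3 - 2 * x.1.trace) : ZMod p) • (1 : Matrix (Fin 2) (Fin 2) (ZMod p)) := by
  rw [pow_succ, ORD_p4, add_mul, smul_mul_assoc, smul_mul_assoc, one_mul, ← pow_two, ORD_p2]
  module

theorem ORD_t {p : ℕ} [Fact p.Prime] (x : SL(2, ZMod p)) (h : sk x = 1) :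
    x.1.trace ^ 2 = 4 := by
  rw [ORD_one] at h
  obtain ⟨h1, h2, h3⟩ := h
  have hd := x.2
  rw [Matrix.det_fin_two, h1, ← h3] at hd
  rw [Matrix.trace_fin_two, ← h3]
  linear_combination 4 * hd

theorem ORD_nat {p : ℕ} [Fact p.Prime] (n : ℕ) (h0 : 0 < n) (hn : n < p) : (n : ZMod p) ≠ 0 := by
  intro h
  rw [ZMod.natCast_eq_zero_iff] at h
  exact absurd (Nat.le_of_dvd h0 h) (not_le.2 hn)

/-- ORD: orders and traces -/
theorem order_trace {p : ℕ} [Fact p.Prime] (hp : 5 ≤ p) (x : SL(2, ZMod p)) :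
    (orderOf (sk x) = 2 ↔ (x : Matrix (Fin 2) (Fin 2) (ZMod p)).trace = 0) ∧
    (orderOf (sk x) = 3 ↔ (x : Matrix (Fin 2) (Fin 2) (ZMod p)).trace ^ 2 = 1) ∧
    (5 < p → (orderOf (sk x) = 5 ↔ ((x : Matrix (Fin 2) (Fin 2) (ZMod p)).trace ^ 2 =
      (x : Matrix (Fin 2) (Fin 2) (ZMod p)).trace + 1 ∨
      (x : Matrix (Fin 2) (Fin 2) (ZMod p)).trace ^ 2 =
      - (x : Matrix (Fin 2) (Fin 2) (ZMod p)).trace + 1))) := by
  have n2 : (2 : ZMod p) ≠ 0 := by exact_mod_cast ORD_nat (p := p) 2 (by norm_num) (by omega)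
  have n3 : (3 : ZMod p) ≠ 0 := by exact_mod_cast ORD_nat (p := p) 3 (by norm_num) (by omega)
  have key : ∀ (q : ℕ), q.Prime → ∀ u v : ZMod p,
      x.1 ^ q = u • x.1 + v • (1 : Matrix (Fin 2) (Fin 2) (ZMod p)) →
      (x.1.trace ^ 2 = 4 → u ≠ 0) → (orderOf (sk x) = q ↔ u = 0) := by
    intro q hq u v h hu
    haveI : Fact q.Prime := ⟨hq⟩
    rw [orderOf_eq_prime_iff, ORD_pow x q u v h]
    constructor
    · rintro ⟨h1 | h1, h2⟩
      · exact h1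
      · exact absurd h1 h2
    · intro h1
      exact ⟨Or.inl h1, fun h2 => hu (ORD_t x h2) h1⟩
  refine ⟨?_, ?_, fun hp5 => ?_⟩
  · refine key 2 Nat.prime_two _ _ (ORD_p2 x) fun h4 h0 => ?_
    rw [h0] at h4
    have : (2 : ZMod p) * 2 = 0 := by linear_combination -h4
    rcases mul_eq_zero.1 this with h | h <;> exact n2 h
  · rw [key 3 Nat.prime_three _ _ (ORD_p3 x) fun h4 h0 => n3 (by linear_combination h0 - h4)]
    exact sub_eq_zero
  · have n5 : (5 : ZMod p) ≠ 0 := by exact_mod_cast ORD_nat (p := p) 5 (by norm_num) hp5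
    rw [key 5 Nat.prime_five _ _ (ORD_p5 x) fun h4 h0 => n5 (by
      linear_combination h0 - (x.1.trace ^ 2 + 1) * h4)]
    have e : x.1.trace ^ 4 - 3 * x.1.trace ^ 2 + 1 =
        (x.1.trace ^ 2 - (x.1.trace + 1)) * (x.1.trace ^ 2 - (-x.1.trace + 1)) := by ring
    rw [e, mul_eq_zero, sub_eq_zero, sub_eq_zero]

end MX
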