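import Pool.Agent.helper81.MX.Defs3
import Pool.Agent.helper81.MX.ORD

/-!
# Row AU2 of project MX
-/

set_option autoImplicit false

namespace MX
open scoped MatrixGroups

theorem AU2_uu_pow {p : ℕ} (n : ℕ) : (uu (n : ZMod p) : SL(2, ZMod p)) = uu 1 ^ n := by
  induction n with
  | zero =>
    rw [pow_zero, Nat.cast_zero]
    apply Subtype.ext
    ext i j
    fin_cases i <;> fin_cases j <;> simp [uu]
  | succ n ih =>
    rw [pow_succ, ← ih]
    apply Subtype.ext
    rw [Matrix.SpecialLinearGroup.coe_mul]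
    simp only [uu]
    rw [Matrix.mul_fin_two]
    ext i j
    fin_cases i <;> fin_cases j <;> simp [add_comm]

theorem AU2_vv_pow {p : ℕ} (c : ZMod p) (n : ℕ) : (vv (n * c) : SL(2, ZMod p)) = vv c ^ n := by
  induction n with
  | zero =>
    rw [pow_zero, Nat.cast_zero, zero_mul]
    apply Subtype.ext
    ext i j
    fin_cases i <;> fin_cases j <;> simp [vv]
  | succ n ih =>
    rw [pow_succ, ← ih]
    apply Subtype.ext
    rw [Matrix.SpecialLinearGroup.coe_mul]
    simp only [vv]
    rw [Matrix.mul_fin_two]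
    ext i j
    fin_cases i <;> fin_cases j <;> simp <;> ring

theorem AU2_vv_neg {p : ℕ} (c : ZMod p) : (vv (-c) : SL(2, ZMod p)) = (vv c)⁻¹ := by
  rw [eq_inv_iff_mul_eq_one]
  apply Subtype.ext
  rw [Matrix.SpecialLinearGroup.coe_mul]
  simp only [vv]
  rw [Matrix.mul_fin_two]
  ext i j
  fin_cases i <;> fin_cases j <;> simp

/-- the key relation -/
theorem AU2_rel {p : ℕ} : (uu 1 * vv (-1) * uu 1 * uu 1 : SL(2, ZMod p)) =
    vv (-1) * (uu 1 * vv (-1) * uu 1) := by
  apply Subtype.ext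
  simp only [Matrix.SpecialLinearGroup.coe_mul]
  simp only [uu, vv]
  simp only [Matrix.mul_fin_two]
  ext i j
  fin_cases i <;> fin_cases j <;> simp

theorem AU2_b {p : ℕ} [Fact p.Prime] (b : ZMod p)
    (h : sk (uu 1 * vv (-b) * uu 1 * uu 1 : SL(2, ZMod p)) =
      sk (vv (-b) * (uu 1 * vv (-b) * uu 1))) : b = 1 := by
  set X : SL(2, ZMod p) := uu 1 * vv (-b) * uu 1 * uu 1 with hX
  set Y : SL(2, ZMod p) := vv (-b) * (uu 1 * vv (-b) * uu 1) with hY
  have h1 : sk (X⁻¹ * Y) = 1 := by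
    have e : sk (X⁻¹ * Y) = (sk X)⁻¹ * sk Y := by
      rw [show sk (X⁻¹ * Y) = sk X⁻¹ * sk Y from map_mul _ _ _]
      rw [show sk X⁻¹ = (sk X)⁻¹ from map_inv _ _]
    rw [e, h, inv_mul_cancel]
  rw [ORD_one] at h1
  obtain ⟨h01, h10, h2⟩ := h1
  have eX : (X : Matrix (Fin 2) (Fin 2) (ZMod p)) = !![1 - b, 3 - 2 * b; -b, 1 - 2 * b] := by
    rw [hX]
    simp only [Matrix.SpecialLinearGroup.coe_mul]
    simp only [uu, vv]
    simp only [Matrix.mul_fin_two]
    ext i j
    fin_cases i <;> fin_cases j <;> simp <;> ring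
  have eY : (Y : Matrix (Fin 2) (Fin 2) (ZMod p)) =
      !![1 - b, 2 - b; b ^ 2 - 2 * b, b ^ 2 - 3 * b + 1] := by
    rw [hY]
    simp only [Matrix.SpecialLinearGroup.coe_mul]
    simp only [uu, vv]
    simp only [Matrix.mul_fin_two]
    ext i j
    fin_cases i <;> fin_cases j <;> simp <;> ring
  have eXY : ((X⁻¹ * Y : SL(2, ZMod p)) : Matrix (Fin 2) (Fin 2) (ZMod p)) =
      !![1 - 2 * b, -(3 - 2 * b); b, 1 - b] * !![1 - b, 2 - b; b ^ 2 - 2 * b, b ^ 2 - 3 * b + 1] := by
    rw [Matrix.SpecialLinearGroup.coe_mul, Matrix.SpecialLinearGroup.coe_inv, eX, eY,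
      Matrix.adjugate_fin_two_of, neg_neg]
  have q10 := h10
  have q01 := h01
  rw [show (X⁻¹ * Y).1 = ((X⁻¹ * Y : SL(2, ZMod p)) : Matrix (Fin 2) (Fin 2) (ZMod p)) from rfl,
    eXY, Matrix.mul_fin_two] at q10 q01
  simp at q10 q01
  have f : b * (1 - b) ^ 2 = 0 := by linear_combination - q10
  rcases mul_eq_zero.1 f with f | f
  · rw [f] at q01
    exfalso
    have : (1 : ZMod p) = 0 := by linear_combination - q01
    exact one_ne_zero this
  · have := pow_eq_zero_iff (two_ne_zero) |>.1 f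
    linear_combination - this

/-- the map to `PS p` -/
def AU2_F (p : ℕ) : SL(2, ZMod p) →* PS p where
  toFun A := ⟨sk A, sk_mem A⟩
  map_one' := Subtype.ext (map_one _)
  map_mul' A B := Subtype.ext (map_mul _ A B)

/-- AU2 -/
theorem aut_rigid {p : ℕ} [Fact p.Prime] (hp : 5 ≤ p) (γ : MulAut (PS p)) (b : ZMod p)
    (h1 : ((γ ⟨sk (uu 1), sk_mem _⟩ : PS p) : PG p) = sk (uu 1))
    (h2 : ((γ ⟨sk (vv 1), sk_mem _⟩ : PS p) : PG p) = sk (vv b)) : γ = 1 := by
  have _ := hp
  have g1 : γ (AU2_F p (uu 1)) = AU2_F p (uu 1) := Subtype.ext h1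
  have g2 : γ (AU2_F p (vv 1)) = AU2_F p (vv b) := Subtype.ext h2
  have g3 : γ (AU2_F p (vv (-1))) = AU2_F p (vv (-b)) := by
    rw [AU2_vv_neg, AU2_vv_neg, map_inv, map_inv, map_inv, g2]
  have hb : b = 1 := by
    apply AU2_b
    have e' := congrArg (fun A => γ (AU2_F p A)) (AU2_rel (p := p))
    simp only [map_mul, g1, g3] at e'
    simp only [← map_mul] at e'
    exact congrArg Subtype.val e'
  subst hb
  have key : ∀ A : SL(2, ZMod p), γ (AU2_F p A) = AU2_F p A := by
    intro A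
    induction A using Matrix.SL2.transvection_induction with
    | hmul A B hA hB => rw [map_mul, map_mul, hA, hB]
    | htransvec i j hij c =>
      obtain ⟨n, rfl⟩ : ∃ n : ℕ, c = n := ⟨c.val, (ZMod.natCast_zmod_val c).symm⟩
      fin_cases i
      · obtain rfl : j = 1 := by fin_cases j <;> tauto
        have e : (Matrix.SpecialLinearGroup.transvection hij (n : ZMod p) : SL(2, ZMod p)) =
            uu 1 ^ n := by
          rw [← AU2_uu_pow]
          apply Subtype.ext
          ext i j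
          fin_cases i <;> fin_cases j <;> simp [uu, Matrix.SpecialLinearGroup.transvection_coe, Matrix.single]
        rw [e, map_pow, map_pow, g1]
      · obtain rfl : j = 0 := by fin_cases j <;> tauto
        have e : (Matrix.SpecialLinearGroup.transvection hij (n : ZMod p) : SL(2, ZMod p)) =
            vv 1 ^ n := by
          rw [← AU2_vv_pow, mul_one]
          apply Subtype.ext
          ext i j
          fin_cases i <;> fin_cases j <;> simp [vv, Matrix.SpecialLinearGroup.transvection_coe, Matrix.single]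
        rw [e, map_pow, map_pow, g2]
  apply MulEquiv.ext
  intro x
  obtain ⟨y, hy⟩ := x.2
  obtain ⟨A, rfl⟩ := QuotientGroup.mk_surjective y
  have : x = AU2_F p A := Subtype.ext hy.symm
  rw [this, key]
  rfl

end MX
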