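import Pool.Agent.helper81.MX.Defs3
import Pool.Agent.helper81.MX.AU1
import Pool.Agent.helper81.MX.AU2

set_option autoImplicit false

namespace MX
open scoped MatrixGroups

theorem AU3_normal (p : ℕ) : (PS p).Normal := by
  constructor
  intro x hx k
  obtain ⟨q, rfl⟩ := hx
  obtain ⟨g, rfl⟩ := QuotientGroup.mk_surjective q
  obtain ⟨h, rfl⟩ := QuotientGroup.mk_surjective k
  have hdet : ((h : Matrix (Fin 2) (Fin 2) (ZMod p)) * (g : Matrix (Fin 2) (Fin 2) (ZMod p)) *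
      ((h⁻¹ : GL (Fin 2) (ZMod p)) : Matrix (Fin 2) (Fin 2) (ZMod p))).det = 1 := by
    rw [Matrix.det_mul, Matrix.det_mul, g.det_coe, mul_one, ← Matrix.det_mul, ← Units.val_mul,
      mul_inv_cancel, Units.val_one, Matrix.det_one]
  have h1 := sk_mem (⟨_, hdet⟩ : SL(2, ZMod p))
  have h2 : sk (⟨_, hdet⟩ : SL(2, ZMod p)) = Matrix.ProjGenLinGroup.mk (h * (g : GL (Fin 2) (ZMod p)) * h⁻¹) := by
    show Matrix.ProjGenLinGroup.mk _ = _
    congr 1
    ext i j
    simp
  rw [h2] at h1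
  exact h1

/-- AU3 -/
theorem aut_PS {p : ℕ} [Fact p.Prime] (hp : 5 ≤ p) (β : MulAut (PS p)) :
    ∃ k : PG p, ∀ x : PS p, ((β x : PS p) : PG p) = k * x * k⁻¹ := by
  obtain ⟨k, b, h1, h2⟩ := aut_normal hp β
  have hN : (PS p).Normal := AU3_normal p
  have hγ : MulAut.conjNormal k * β = (1 : MulAut (PS p)) := by
    refine aut_rigid hp _ b ?_ ?_
    · rw [MulAut.mul_apply, MulAut.conjNormal_apply]
      exact h1
    · rw [MulAut.mul_apply, MulAut.conjNormal_apply]
      exact h2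
  refine ⟨k⁻¹, fun x => ?_⟩
  have h3 : (((MulAut.conjNormal k * β : MulAut (PS p)) x : PS p) : PG p) = (x : PG p) := by rw [hγ]; rfl
  rw [MulAut.mul_apply, MulAut.conjNormal_apply] at h3
  rw [← h3]
  group

end MX
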