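import Pool.Agent.helper81.MX.AU45
import Pool.Agent.helper81.MX.AU3

set_option autoImplicit false

namespace MX
open scoped MatrixGroups

/-- AU4 -/
theorem Std_embed {A : Type*} [Group A] (L : Subgroup A) (h : Std L) :
    ∃ p : ℕ, p.Prime ∧ 5 ≤ p ∧ ∃ e : A →* PG p, Function.Injective e ∧ L.map e = PS p :=
  Std_embed_of L h (fun p hp h5 => by
    haveI : Fact p.Prime := ⟨hp⟩
    exact aut_PS h5)

end MX
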