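import Pool.Agent.helper81.MX.Defs2

set_option autoImplicit false

namespace MX

open scoped MatrixGroups

section S02

variable {p : ℕ} [Fact p.Prime]

theorem S02_mem (g : GL (Fin 2) (ZMod p)) :
    pk g ∈ PS p ↔ ∃ r : (ZMod p)ˣ, r ^ 2 = Matrix.GeneralLinearGroup.det g := by
  constructor
  · rintro ⟨X, hX⟩
    induction X using QuotientGroup.induction_on with
    | H s =>
      rw [Matrix.ProjectiveSpecialLinearGroup.toPGL_mk, Matrix.ProjGenLinGroup.mk_eq_mk_iff] at hX
      obtain ⟨u, hu⟩ := hX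
      refine ⟨u, ?_⟩
      rw [← hu]
      simp
  · rintro ⟨r, hr⟩
    have h1 : (g : Matrix (Fin 2) (Fin 2) (ZMod p)).det = (r : ZMod p) ^ 2 := by
      rw [← Units.val_pow_eq_pow_val, hr]
      rfl
    have h2 : (((r⁻¹ : (ZMod p)ˣ) : ZMod p) • (g : Matrix (Fin 2) (Fin 2) (ZMod p))).det = 1 := by
      rw [Matrix.det_smul, h1, Fintype.card_fin, ← mul_pow]
      rw [← Units.val_mul, inv_mul_cancel, Units.val_one, one_pow]
    let s : SL(2, ZMod p) := ⟨_, h2⟩
    refine ⟨QuotientGroup.mk s, ?_⟩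
    change Matrix.ProjGenLinGroup.mk (Matrix.SpecialLinearGroup.toGL s) =
      Matrix.ProjGenLinGroup.mk g
    rw [Matrix.ProjGenLinGroup.mk_eq_mk_iff]
    refine ⟨r, Units.ext ?_⟩
    change ((r⁻¹ : (ZMod p)ˣ) : ZMod p) • (g : Matrix (Fin 2) (Fin 2) (ZMod p)) *
      Matrix.scalar (Fin 2) (r : ZMod p) = _
    have hr0 : ((r⁻¹ : (ZMod p)ˣ) : ZMod p) * (r : ZMod p) = 1 := by
      rw [← Units.val_mul, inv_mul_cancel, Units.val_one]
    ext i j
    rw [Matrix.scalar_apply, Matrix.mul_diagonal, Matrix.smul_apply, smul_eq_mul]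
    linear_combination (g : Matrix (Fin 2) (Fin 2) (ZMod p)) i j * hr0

theorem S02_comap : (PS p).comap (Matrix.ProjGenLinGroup.mk : GL (Fin 2) (ZMod p) →* PG p) =
    ((powMonoidHom 2 : (ZMod p)ˣ →* (ZMod p)ˣ).range).comap
      (Matrix.GeneralLinearGroup.det : GL (Fin 2) (ZMod p) →* (ZMod p)ˣ) := by
  ext g
  rw [Subgroup.mem_comap, Subgroup.mem_comap]
  exact S02_mem g

theorem S02_index (hp : 5 ≤ p) : (PS p).index = 2 := by
  rw [← Subgroup.index_comap_of_surjective (PS p)
    (f := (Matrix.ProjGenLinGroup.mk : GL (Fin 2) (ZMod p) →* PG p))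
    Matrix.ProjGenLinGroup.mk_surjective, S02_comap,
    Subgroup.index_comap_of_surjective _ Matrix.GeneralLinearGroup.det_surjective,
    IsCyclic.index_powMonoidHom_range, Nat.card_eq_fintype_card, ZMod.card_units]
  have h1 : p.Prime := Fact.out
  have h2 : p % 2 = 1 := by
    rcases h1.eq_two_or_odd with h | h
    · omega
    · exact h
  rw [Nat.gcd_comm]
  apply Nat.gcd_eq_left
  omega

theorem S02_centr (a : PG p) (ha : ∀ x ∈ PS p, a * x = x * a) : a = 1 := by
  obtain ⟨g, rfl⟩ := Matrix.ProjGenLinGroup.mk_surjective a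
  have hmem : ∀ s : SL(2, ZMod p), sk s ∈ PS p := fun s => ⟨QuotientGroup.mk s, rfl⟩
  have key : ∀ s : SL(2, ZMod p), ∃ u : (ZMod p)ˣ,
      (g : Matrix (Fin 2) (Fin 2) (ZMod p)) * (s : Matrix (Fin 2) (Fin 2) (ZMod p)) *
        Matrix.scalar (Fin 2) (u : ZMod p) =
      (s : Matrix (Fin 2) (Fin 2) (ZMod p)) * (g : Matrix (Fin 2) (Fin 2) (ZMod p)) := by
    intro s
    have h := ha (sk s) (hmem s)
    change Matrix.ProjGenLinGroup.mk g * Matrix.ProjGenLinGroup.mk (Matrix.SpecialLinearGroup.toGL s)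
      = Matrix.ProjGenLinGroup.mk (Matrix.SpecialLinearGroup.toGL s) * Matrix.ProjGenLinGroup.mk g at h
    rw [← map_mul, ← map_mul, Matrix.ProjGenLinGroup.mk_eq_mk_iff] at h
    obtain ⟨u, hu⟩ := h
    refine ⟨u, ?_⟩
    have := congrArg (fun z : GL (Fin 2) (ZMod p) => (z : Matrix (Fin 2) (Fin 2) (ZMod p))) hu
    exact this
  obtain ⟨u, hu⟩ := key (uu 1)
  obtain ⟨v, hv⟩ := key (vv 1)
  set m : Matrix (Fin 2) (Fin 2) (ZMod p) := (g : Matrix (Fin 2) (Fin 2) (ZMod p)) with hm
  have hdet : m.det ≠ 0 := by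
    have := (Matrix.GeneralLinearGroup.det g).ne_zero
    exact this
  rw [Matrix.det_fin_two] at hdet
  have e00 := congrFun (congrFun hu 0) 0
  have e01 := congrFun (congrFun hu 0) 1
  have e10 := congrFun (congrFun hu 1) 0
  have e11 := congrFun (congrFun hu 1) 1
  have f00 := congrFun (congrFun hv 0) 0
  have f01 := congrFun (congrFun hv 0) 1
  have f10 := congrFun (congrFun hv 1) 0
  have f11 := congrFun (congrFun hv 1) 1
  simp [uu, Matrix.mul_apply, Fin.sum_univ_two, Matrix.scalar_apply] at e00 e01 e10 e11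
  simp [vv, Matrix.mul_apply, Fin.sum_univ_two, Matrix.scalar_apply] at f00 f01 f10 f11
  have h10 : m 1 0 = 0 := by
    by_contra h
    have hu1 : (u : ZMod p) = 1 := by
      have h1 : m 1 0 * ((u : ZMod p) - 1) = 0 := by linear_combination e10
      rcases mul_eq_zero.1 h1 with h2 | h2
      · exact absurd h2 h
      · linear_combination h2
    rw [hu1, mul_one] at e00
    exact h (by linear_combination -e00)
  have h01 : m 0 1 = 0 := by
    by_contra h
    have hv1 : (v : ZMod p) = 1 := by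
      have h1 : m 0 1 * ((v : ZMod p) - 1) = 0 := by linear_combination f01
      rcases mul_eq_zero.1 h1 with h2 | h2
      · exact absurd h2 h
      · linear_combination h2
    rw [hv1, mul_one] at f11
    exact h (by linear_combination -f11)
  have h00 : m 0 0 ≠ 0 := by
    intro h
    apply hdet
    rw [h, h10]; ring
  have hu1 : (u : ZMod p) = 1 := by
    rw [h10, add_zero] at e00
    have : m 0 0 * ((u : ZMod p) - 1) = 0 := by linear_combination e00
    rcases mul_eq_zero.1 this with h | h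
    · exact absurd h h00
    · linear_combination h
  rw [hu1] at e01
  have h11 : m 1 1 = m 0 0 := by linear_combination -e01
  rw [Matrix.ProjGenLinGroup.mk_eq_one, Matrix.GeneralLinearGroup.center_eq_range_scalar]
  refine ⟨Units.mk0 (m 0 0) h00, Units.ext ?_⟩
  ext i j
  fin_cases i <;> fin_cases j <;> simp [h01, h10, h11, ← hm]

theorem S02_card (hp : 5 ≤ p) : Nat.card (PG p) = p * (p - 1) * (p + 1) := by
  have h1 := Subgroup.card_eq_card_quotient_mul_card_subgroup
    (Subgroup.center (GL (Fin 2) (ZMod p)))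
  have h2 : Nat.card (Subgroup.center (GL (Fin 2) (ZMod p))) = p - 1 := by
    rw [Matrix.GeneralLinearGroup.center_eq_range_scalar]
    have hinj : Function.Injective (Matrix.GeneralLinearGroup.scalar (Fin 2) (R := ZMod p)) := by
      intro a b hab
      have := congrArg (fun z : GL (Fin 2) (ZMod p) => (z : Matrix (Fin 2) (Fin 2) (ZMod p)) 0 0) hab
      apply Units.ext
      simpa using this
    rw [← Nat.card_congr (MonoidHom.ofInjective hinj).toEquiv, Nat.card_eq_fintype_card,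
      ZMod.card_units]
  rw [h2, Matrix.card_GL_field, Fin.prod_univ_two, ZMod.card] at h1
  have h3 : Nat.card (GL (Fin 2) (ZMod p) ⧸ Subgroup.center (GL (Fin 2) (ZMod p))) =
    Nat.card (PG p) := rfl
  rw [h3] at h1
  simp only [Fin.val_zero, Fin.val_one, pow_zero, pow_one] at h1
  obtain ⟨q, rfl⟩ : ∃ q, p = q + 1 := ⟨p - 1, by omega⟩
  have h4 : (q + 1) ^ 2 - 1 = q * (q + 2) := by
    have : (q + 1) ^ 2 = q * (q + 2) + 1 := by ring
    omega
  have h5 : (q + 1) ^ 2 - (q + 1) = q * (q + 1) := by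
    have : (q + 1) ^ 2 = q * (q + 1) + (q + 1) := by ring
    omega
  rw [h4, h5, Nat.add_sub_cancel] at h1
  rw [Nat.add_sub_cancel]
  have hq : 0 < q := by omega
  apply Nat.eq_of_mul_eq_mul_right hq
  rw [← h1]; ring

end S02

/-- S02 -/
theorem PS_basic {p : ℕ} [Fact p.Prime] (hp : 5 ≤ p) :
    (PS p).Normal ∧ (PS p).index = 2 ∧ IsSimpleGroup (PS p) ∧
    (∀ a : PG p, (∀ x ∈ PS p, a * x = x * a) → a = 1) ∧
    Nat.card (PG p) = p * (p - 1) * (p + 1) ∧ 2 * Nat.card (PS p) = p * (p - 1) * (p + 1) ∧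
    (∃ a ∈ PS p, ∃ b ∈ PS p, a * b ≠ b * a) ∧ Nonempty (PS p ≃* PSL(2, ZMod p)) := by
  have hi := S02_index hp
  have hiso : PSL(2, ZMod p) ≃* PS p := MonoidHom.ofInjective
    (Matrix.ProjectiveSpecialLinearGroup.toPGL_injective (n := Fin 2) (R := ZMod p))
  have hsimple : IsSimpleGroup (PS p) := by
    have : IsSimpleGroup PSL(2, ZMod p) := by
      apply Matrix.ProjectiveSpecialLinearGroup.rank_two_simple
      rw [Nat.card_eq_fintype_card, ZMod.card]
      omega
    exact hiso.symm.isSimpleGroup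
  refine ⟨Subgroup.normal_of_index_eq_two hi, hi, hsimple, S02_centr, S02_card hp, ?_, ?_, ⟨hiso.symm⟩⟩
  · rw [← S02_card hp, ← Subgroup.card_mul_index (PS p), hi, mul_comm]
  · by_contra hcon
    push Not at hcon
    obtain ⟨a, b, hab⟩ := hsimple.exists_pair_ne
    have h1 := S02_centr a.1 (fun x hx => hcon a.1 a.2 x hx)
    have h2 := S02_centr b.1 (fun x hx => hcon b.1 b.2 x hx)
    exact hab (Subtype.ext (h1.trans h2.symm))

end MX
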