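import Pool.Agent.helper81.MX.Defs2

/-!
Row mx:T03: the torus of a non-scalar matrix with nonzero discriminant is cyclic of order prime to `p`.
-/

set_option autoImplicit false

namespace MX

open scoped MatrixGroups

theorem T03_lin {F : Type} [Field F] (g x : Matrix (Fin 2) (Fin 2) F)
    (hg : g.trace ^ 2 - 4 * g.det ≠ 0) (h : x * g = g * x) :
    ∃ a b : F, x = a • (1 : Matrix (Fin 2) (Fin 2) F) + b • g := by
  have h00 := congrFun (congrFun h 0) 0
  have h01 := congrFun (congrFun h 0) 1
  have h10 := congrFun (congrFun h 1) 0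
  simp only [Matrix.mul_apply, Fin.sum_univ_two] at h00 h01 h10
  rw [Matrix.trace_fin_two, Matrix.det_fin_two] at hg
  have key : ∀ a b : F, x 0 0 = a + b * g 0 0 → x 0 1 = b * g 0 1 → x 1 0 = b * g 1 0 →
      x 1 1 = a + b * g 1 1 → x = a • (1 : Matrix (Fin 2) (Fin 2) F) + b • g := by
    intro a b k1 k2 k3 k4
    ext i j
    fin_cases i <;> fin_cases j <;> simp [k1, k2, k3, k4]
  by_cases hB : g 0 1 = 0
  · by_cases hC : g 1 0 = 0
    · have hAD : g 0 0 - g 1 1 ≠ 0 := by
        intro h0
        apply hg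
        rw [hB, hC, sub_eq_zero.1 h0]
        ring
      rw [hB] at h00 h01
      rw [hC] at h10
      have h1 : x 0 1 = 0 := by
        have : x 0 1 * (g 0 0 - g 1 1) = 0 := by linear_combination -h01
        exact (mul_eq_zero.1 this).resolve_right hAD
      have h2 : x 1 0 = 0 := by
        have : x 1 0 * (g 0 0 - g 1 1) = 0 := by linear_combination h10
        exact (mul_eq_zero.1 this).resolve_right hAD
      refine ⟨x 0 0 - (x 0 0 - x 1 1) / (g 0 0 - g 1 1) * g 0 0,
        (x 0 0 - x 1 1) / (g 0 0 - g 1 1), key _ _ (by ring) ?_ ?_ ?_⟩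
      · rw [h1, hB, mul_zero]
      · rw [h2, hC, mul_zero]
      · field_simp
        ring
    · refine ⟨x 0 0 - x 1 0 / g 1 0 * g 0 0, x 1 0 / g 1 0, key _ _ (by ring) ?_ ?_ ?_⟩
      · field_simp
        linear_combination h00
      · field_simp
      · field_simp
        linear_combination h10
  · refine ⟨x 0 0 - x 0 1 / g 0 1 * g 0 0, x 0 1 / g 0 1, key _ _ (by ring) ?_ ?_ ?_⟩
    · field_simp
    · field_simp
      linear_combination -h00
    · field_simp
      linear_combination -h01

/-- The eigenvalue functional. -/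
noncomputable def T03_l {p : ℕ} {K : Type} [Field K] [Algebra (ZMod p) K] (s m : K)
    (g x : Matrix (Fin 2) (Fin 2) (ZMod p)) : K :=
  (algebraMap (ZMod p) K (x * g).trace - m * algebraMap (ZMod p) K x.trace) / s

theorem T03_l_eq {p : ℕ} {K : Type} [Field K] [Algebra (ZMod p) K] {s m n : K}
    (g : Matrix (Fin 2) (Fin 2) (ZMod p)) (hs : s ≠ 0) (hs2 : n - m = s)
    (ht : m + n = algebraMap (ZMod p) K g.trace) (hd : m * n = algebraMap (ZMod p) K g.det)
    (a b : ZMod p) :
    T03_l s m g (a • (1 : Matrix (Fin 2) (Fin 2) (ZMod p)) + b • g) =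
      algebraMap (ZMod p) K a + algebraMap (ZMod p) K b * n := by
  have h1 : (a • (1 : Matrix (Fin 2) (Fin 2) (ZMod p)) + b • g).trace = 2 * a + b * g.trace := by
    rw [Matrix.trace_fin_two, Matrix.trace_fin_two]
    simp
    ring
  have h2 : ((a • (1 : Matrix (Fin 2) (Fin 2) (ZMod p)) + b • g) * g).trace =
      a * g.trace + b * (g.trace ^ 2 - 2 * g.det) := by
    rw [Matrix.trace_fin_two, Matrix.trace_fin_two, Matrix.det_fin_two]
    simp [Matrix.mul_apply, Fin.sum_univ_two]
    ring
  unfold T03_l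
  rw [h1, h2, div_eq_iff hs, ← hs2]
  simp only [map_add, map_mul, map_sub, map_pow, map_ofNat, ← ht, ← hd]
  ring

theorem T03_mul {p : ℕ} (g : Matrix (Fin 2) (Fin 2) (ZMod p)) (a b a' b' : ZMod p) :
    (a • (1 : Matrix (Fin 2) (Fin 2) (ZMod p)) + b • g) *
      (a' • (1 : Matrix (Fin 2) (Fin 2) (ZMod p)) + b' • g) =
    (a * a' - b * b' * g.det) • (1 : Matrix (Fin 2) (Fin 2) (ZMod p)) +
      (a * b' + a' * b + b * b' * g.trace) • g := by
  ext i j
  rw [Matrix.trace_fin_two, Matrix.det_fin_two]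
  fin_cases i <;> fin_cases j <;> simp [Matrix.mul_apply, Fin.sum_univ_two] <;> ring

theorem tor_cyc {p : ℕ} [Fact p.Prime] (hp : 5 ≤ p) (g : GL (Fin 2) (ZMod p)) (hg : dsc g ≠ 0) :
    IsCyclic (tor g) ∧ ¬ p ∣ Nat.card (tor g) := by
  let K := AlgebraicClosure (ZMod p)
  let A : ZMod p →+* K := algebraMap (ZMod p) K
  have hAinj : Function.Injective A := A.injective
  have hCP : CharP K p := charP_of_injective_algebraMap A.injective p
  have h2 : (2 : K) ≠ 0 := by
    have h : ((2 : ℕ) : K) ≠ 0 := by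
      rw [Ne, CharP.cast_eq_zero_iff K p]
      intro h3
      have := Nat.le_of_dvd (by norm_num) h3
      omega
    exact_mod_cast h
  let G : Matrix (Fin 2) (Fin 2) (ZMod p) := (g : Matrix (Fin 2) (Fin 2) (ZMod p))
  have hG : G.trace ^ 2 - 4 * G.det ≠ 0 := hg
  obtain ⟨s, hs⟩ := IsAlgClosed.exists_pow_nat_eq (A (G.trace ^ 2 - 4 * G.det)) (n := 2) (by norm_num)
  have hs0 : s ≠ 0 := by
    rintro rfl
    rw [zero_pow (by norm_num)] at hs
    exact hG (hAinj (by rw [← hs, map_zero]))
  have hs' : s ^ 2 = A G.trace ^ 2 - 4 * A G.det := by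
    rw [hs, map_sub, map_mul, map_pow, map_ofNat]
  obtain ⟨m, hm⟩ : ∃ m : K, m = (A G.trace + s) / 2 := ⟨_, rfl⟩
  obtain ⟨n, hn⟩ : ∃ n : K, n = (A G.trace - s) / 2 := ⟨_, rfl⟩
  have hm' : 2 * m = A G.trace + s := by rw [hm, mul_div_cancel₀ _ h2]
  have hn' : 2 * n = A G.trace - s := by rw [hn, mul_div_cancel₀ _ h2]
  have e1 : m - n = s := mul_left_cancel₀ h2 (by linear_combination hm' - hn')
  have e2 : n + m = A G.trace := mul_left_cancel₀ h2 (by linear_combination hm' + hn')
  have e3 : n * m = A G.det := by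
    have h4 : (4 : K) ≠ 0 := by
      have : (4 : K) = 2 * 2 := by norm_num
      rw [this]
      exact mul_ne_zero h2 h2
    have : 4 * (n * m) = 4 * A G.det := by
      linear_combination (2 * m) * hn' + (A G.trace - s) * hm' - hs'
    exact mul_left_cancel₀ h4 this
  have l1 : ∀ a b : ZMod p, T03_l s n G (a • (1 : Matrix (Fin 2) (Fin 2) (ZMod p)) + b • G) =
      A a + A b * m := T03_l_eq G hs0 e1 e2 e3
  have l2 : ∀ a b : ZMod p, T03_l (-s) m G (a • (1 : Matrix (Fin 2) (Fin 2) (ZMod p)) + b • G) =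
      A a + A b * n := T03_l_eq G (neg_ne_zero.2 hs0) (by rw [← e1]; ring)
        (by rw [← e2]; ring) (by rw [← e3]; ring)
  have hm2 : m ^ 2 = A G.trace * m - A G.det := by rw [← e2, ← e3]; ring
  have hn2 : n ^ 2 = A G.trace * n - A G.det := by rw [← e2, ← e3]; ring
  let Z : Subgroup (GL (Fin 2) (ZMod p)) := Subgroup.centralizer {g}
  have hZ : ∀ x : Z, ∃ a b : ZMod p, ((x : GL (Fin 2) (ZMod p)) : Matrix (Fin 2) (Fin 2) (ZMod p)) =
      a • (1 : Matrix (Fin 2) (Fin 2) (ZMod p)) + b • G := by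
    intro x
    apply T03_lin G _ hG
    have h := Subgroup.mem_centralizer_singleton_iff.1 x.2
    have h' := congrArg (fun y : GL (Fin 2) (ZMod p) => (y : Matrix (Fin 2) (Fin 2) (ZMod p))) h
    simpa using h'
  let φ₀ : Z →* K :=
    { toFun := fun x => T03_l s n G ((x : GL (Fin 2) (ZMod p)) : Matrix (Fin 2) (Fin 2) (ZMod p)) *
        (T03_l (-s) m G ((x : GL (Fin 2) (ZMod p)) : Matrix (Fin 2) (Fin 2) (ZMod p)))⁻¹
      map_one' := by
        have h : (((1 : Z) : GL (Fin 2) (ZMod p)) : Matrix (Fin 2) (Fin 2) (ZMod p)) =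
            (1 : ZMod p) • (1 : Matrix (Fin 2) (Fin 2) (ZMod p)) + (0 : ZMod p) • G := by simp
        rw [h, l1, l2]
        simp
      map_mul' := by
        intro x y
        obtain ⟨a, b, hx⟩ := hZ x
        obtain ⟨a', b', hy⟩ := hZ y
        have h : (((x * y : Z) : GL (Fin 2) (ZMod p)) : Matrix (Fin 2) (Fin 2) (ZMod p)) =
            (a * a' - b * b' * G.det) • (1 : Matrix (Fin 2) (Fin 2) (ZMod p)) +
              (a * b' + a' * b + b * b' * G.trace) • G := by
          rw [← T03_mul, ← hx, ← hy]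
          simp
        rw [h, hx, hy, l1, l2, l1, l2, l1, l2]
        have k1 : A (a * a' - b * b' * G.det) + A (a * b' + a' * b + b * b' * G.trace) * m =
            (A a + A b * m) * (A a' + A b' * m) := by
          simp only [map_add, map_sub, map_mul]
          linear_combination -(A b * A b') * hm2
        have k2 : A (a * a' - b * b' * G.det) + A (a * b' + a' * b + b * b' * G.trace) * n =
            (A a + A b * n) * (A a' + A b' * n) := by
          simp only [map_add, map_sub, map_mul]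
          linear_combination -(A b * A b') * hn2
        rw [k1, k2, mul_inv]
        ring }
  let φ : Z →* Kˣ := φ₀.toHomUnits
  let ψ : Z →* PG p := (Matrix.ProjGenLinGroup.mk).comp Z.subtype
  have hφ : ∀ x : Z, φ x = 1 ↔ φ₀ x = 1 := by
    intro x
    rw [← Units.val_inj]
    exact Iff.rfl
  have hker : φ.ker = ψ.ker := by
    ext x
    rw [MonoidHom.mem_ker, MonoidHom.mem_ker, hφ]
    have hψ : ψ x = 1 ↔ (x : GL (Fin 2) (ZMod p)) ∈ Subgroup.center (GL (Fin 2) (ZMod p)) :=
      Matrix.ProjGenLinGroup.mk_eq_one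
    rw [hψ]
    constructor
    · intro h
      obtain ⟨a, b, hx⟩ := hZ x
      have h1 : (A a + A b * m) * (A a + A b * n)⁻¹ = 1 := by
        rw [← l1, ← l2, ← hx]
        exact h
      have h2 : A a + A b * n ≠ 0 := by
        intro h0
        rw [h0, inv_zero, mul_zero] at h1
        exact zero_ne_one h1
      have h3 : A a + A b * m = A a + A b * n := by
        rw [mul_inv_eq_iff_eq_mul₀ h2, one_mul] at h1
        exact h1
      have h4 : A b * s = 0 := by
        rw [← e1]
        linear_combination h3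
      have h5 : b = 0 := hAinj (by rw [(mul_eq_zero.1 h4).resolve_right hs0, map_zero])
      rw [h5, zero_smul, add_zero] at hx
      rw [Subgroup.mem_center_iff]
      intro y
      ext1
      rw [Units.val_mul, Units.val_mul, hx]
      simp
    · intro h
      rw [Matrix.GeneralLinearGroup.center_eq_range_scalar] at h
      obtain ⟨u, hu⟩ := h
      have hx : ((x : GL (Fin 2) (ZMod p)) : Matrix (Fin 2) (Fin 2) (ZMod p)) =
          (u : ZMod p) • (1 : Matrix (Fin 2) (Fin 2) (ZMod p)) + (0 : ZMod p) • G := by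
        rw [← hu, zero_smul, add_zero]
        ext i j
        simp [Matrix.scalar_apply, Matrix.one_apply, Matrix.diagonal_apply]
      show T03_l s n G ((x : GL (Fin 2) (ZMod p)) : Matrix (Fin 2) (Fin 2) (ZMod p)) *
        (T03_l (-s) m G ((x : GL (Fin 2) (ZMod p)) : Matrix (Fin 2) (Fin 2) (ZMod p)))⁻¹ = 1
      rw [hx, l1, l2, map_zero, zero_mul, zero_mul, add_zero]
      apply mul_inv_cancel₀
      intro h0
      exact u.ne_zero (hAinj (by rw [h0, map_zero]))
  have hrange : ψ.range = tor g := by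
    unfold tor
    rw [MonoidHom.range_comp, Subgroup.range_subtype]
  let e : φ.range ≃* ψ.range := (QuotientGroup.quotientKerEquivRange φ).symm.trans
    ((QuotientGroup.quotientMulEquivOfEq hker).trans (QuotientGroup.quotientKerEquivRange ψ))
  have hfin : Finite (GL (Fin 2) (ZMod p)) := inferInstance
  have hfinR : Finite φ.range := Finite.of_surjective _ φ.rangeRestrict_surjective
  have hcyc : IsCyclic φ.range := inferInstance
  rw [← hrange]
  refine ⟨isCyclic_of_surjective e.toMonoidHom e.surjective, ?_⟩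
  rw [← Nat.card_congr e.toEquiv]
  intro hdvd
  obtain ⟨u, hu⟩ := exists_prime_orderOf_dvd_card' p hdvd
  have h1 : ((u : Kˣ) : K) ^ p = 1 := by
    have := pow_orderOf_eq_one u
    rw [hu] at this
    have h3 := congrArg (fun y : φ.range => ((y : Kˣ) : K)) this
    simpa using h3
  have h3 : ((u : Kˣ) : K) = 1 := by
    have h4 : (((u : Kˣ) : K) - 1) ^ p = 0 := by
      rw [sub_pow_char, h1, one_pow, sub_self]
    exact sub_eq_zero.1 (pow_eq_zero_iff (by omega : p ≠ 0) |>.1 h4)
  have h4 : u = 1 := Subtype.ext (Units.ext h3)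
  rw [h4, orderOf_one] at hu
  omega

end MX
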