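import Pool.Agent.helper81.MX.T01

set_option autoImplicit false

namespace MX
open scoped MatrixGroups

theorem T04_two {p : ℕ} [Fact p.Prime] (hp : 5 ≤ p) : (2 : ZMod p) ≠ 0 := by
  intro h9
  have h10 : ((2 : ℕ) : ZMod p) = 0 := by exact_mod_cast h9
  rw [ZMod.natCast_eq_zero_iff] at h10
  have := Nat.le_of_dvd (by norm_num) h10
  omega

theorem T04_one {p : ℕ} [Fact p.Prime] (g : GL (Fin 2) (ZMod p)) (h : pk g = 1) :
    g.1 0 1 = 0 ∧ g.1 1 0 = 0 ∧ g.1 0 0 = g.1 1 1 := by
  rw [← Matrix.ProjGenLinGroup.mk_one] at h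
  obtain ⟨u, hu⟩ := Matrix.ProjGenLinGroup.mk_eq_mk_iff.mp h.symm
  rw [one_mul] at hu
  rw [← hu]
  simp

/-- the nilpotent matrix with the entries `x, y, z, -x` -/
def T04_N {F : Type*} [Field F] (x y z : F) : Matrix (Fin 2) (Fin 2) F := !![x, y; z, -x]

theorem T04_sq {F : Type*} [Field F] (x y z : F) (h : x * x + y * z = 0) :
    T04_N x y z * T04_N x y z = 0 := by
  ext i j
  fin_cases i <;> fin_cases j <;> simp [T04_N, Matrix.mul_apply, Fin.sum_univ_two]
  · linear_combination h
  · ring
  · ring
  · linear_combination h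

/-- the unipotent matrices `1 + c N` -/
noncomputable def T04_U {F : Type*} [Field F] (x y z : F) (h : x * x + y * z = 0) :
    Multiplicative F →* Matrix (Fin 2) (Fin 2) F where
  toFun c := 1 + (Multiplicative.toAdd c) • T04_N x y z
  map_one' := by
    show 1 + (0 : F) • T04_N x y z = 1
    rw [zero_smul, add_zero]
  map_mul' c d := by
    show 1 + (Multiplicative.toAdd c + Multiplicative.toAdd d) • T04_N x y z =
      (1 + (Multiplicative.toAdd c) • T04_N x y z) * (1 + (Multiplicative.toAdd d) • T04_N x y z)
    rw [mul_add, add_mul, add_mul, mul_one, one_mul, smul_mul_smul_comm, T04_sq x y z h, smul_zero,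
      add_zero, add_smul, mul_one]
    abel

/-- T04 -/
theorem tor_unip {p : ℕ} [Fact p.Prime] (hp : 5 ≤ p) (g : GL (Fin 2) (ZMod p)) (hg : dsc g = 0)
    (hg1 : pk g ≠ 1) : Nat.card (tor g) = p ∧ orderOf (pk g) = p := by
  have h2 := T04_two hp
  obtain ⟨a, ha⟩ : ∃ a : ZMod p, 2 * a = g.1 0 0 + g.1 1 1 :=
    ⟨(g.1 0 0 + g.1 1 1) / 2, by field_simp⟩
  obtain ⟨x, hx⟩ : ∃ x : ZMod p, x = g.1 0 0 - a := ⟨_, rfl⟩
  obtain ⟨y, hy⟩ : ∃ y : ZMod p, y = g.1 0 1 := ⟨_, rfl⟩
  obtain ⟨z, hz⟩ : ∃ z : ZMod p, z = g.1 1 0 := ⟨_, rfl⟩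
  have hx' : -x = g.1 1 1 - a := by linear_combination -hx + ha
  have hxyz : x * x + y * z = 0 := by
    have h3 : dsc g = 4 * (x * x + y * z) := by
      rw [dsc, Matrix.trace_fin_two, Matrix.det_fin_two, hx, hy, hz]
      linear_combination (-(g.1 0 0 + g.1 1 1) - 2 * a + 4 * (g.1 0 0)) * ha
    rw [hg] at h3
    have h4 : (4 : ZMod p) ≠ 0 := by
      have : (4 : ZMod p) = 2 * 2 := by norm_num
      rw [this]
      exact mul_ne_zero h2 h2
    exact (mul_eq_zero.mp h3.symm).resolve_left h4
  have hyz : y ≠ 0 ∨ z ≠ 0 := by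
    by_contra h
    push Not at h
    have hx0 : x = 0 := by
      rw [h.1, zero_mul, add_zero] at hxyz
      exact mul_self_eq_zero.mp hxyz
    apply hg1
    apply T01_scalar
    · rw [← hy, h.1]
    · rw [← hz, h.2]
    · rw [hx0] at hx hx'
      linear_combination -hx + hx'
  let f : Multiplicative (ZMod p) →* GL (Fin 2) (ZMod p) := (T04_U x y z hxyz).toHomUnits
  have hf : ∀ c : ZMod p, (f (Multiplicative.ofAdd c)).1 = 1 + c • T04_N x y z := fun c => rfl
  let φ : Multiplicative (ZMod p) →* PG p := (Matrix.ProjGenLinGroup.mk).comp f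
  have hφ : ∀ c, φ c = pk (f c) := fun c => rfl
  have hinj : Function.Injective φ := by
    rw [injective_iff_map_eq_one]
    intro c hc
    have h3 := T04_one _ ((hφ c).symm.trans hc)
    have h4 : (f c).1 = 1 + (Multiplicative.toAdd c) • T04_N x y z := rfl
    rw [h4] at h3
    simp [T04_N] at h3
    have h5 : Multiplicative.toAdd c = 0 := by
      rcases hyz with h6 | h6
      · exact h3.1.resolve_right h6
      · exact h3.2.1.resolve_right h6
    exact h5
  have hrange : φ.range = tor g := by
    ext w
    induction w using Matrix.ProjGenLinGroup.induction_on with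
    | mk h =>
      show (∃ c, φ c = pk h) ↔ pk h ∈ tor g
      rw [T01_mem]
      constructor
      · rintro ⟨c, hc⟩
        rw [← T01_mem, ← hc, hφ, T01_mem]
        apply Units.ext
        rw [Units.val_mul, Units.val_mul]
        rw [T01_comm]
        have h4 : (f c).1 = 1 + (Multiplicative.toAdd c) • T04_N x y z := rfl
        rw [h4]
        simp [T04_N]
        refine ⟨?_, ?_, ?_⟩
        · rw [← hy, ← hz]
          ring
        · rw [← hy]
          linear_combination (Multiplicative.toAdd c * y) * (hx' - hx)
        · rw [← hz]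
          linear_combination (Multiplicative.toAdd c * z) * (hx' - hx)
      · intro hc
        have h4 := (T01_comm h.1 g.1).mp (by rw [← Units.val_mul, hc, Units.val_mul])
        obtain ⟨h5, h6, h7⟩ := h4
        rw [← hy, ← hz] at h5
        rw [← hy] at h6
        rw [← hz] at h7
        have h8 : g.1 0 0 - g.1 1 1 = 2 * x := by linear_combination hx' - hx
        rw [h8] at h6 h7
        obtain ⟨b, hb1, hb2, hb3⟩ : ∃ b : ZMod p, h.1 0 1 = b * y ∧ h.1 1 0 = b * z ∧
            h.1 0 0 - h.1 1 1 = 2 * (b * x) := by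
          rcases hyz with h9 | h9
          · refine ⟨h.1 0 1 / y, ?_, ?_, ?_⟩
            · field_simp
            · field_simp
              linear_combination -h5
            · field_simp
              linear_combination -h6
          · refine ⟨h.1 1 0 / z, ?_, ?_, ?_⟩
            · field_simp
              linear_combination h5
            · field_simp
            · field_simp
              linear_combination -h7
        obtain ⟨e, he⟩ : ∃ e : ZMod p, e = h.1 0 0 - b * x := ⟨_, rfl⟩
        have hdh : h.1.det ≠ 0 := ((Matrix.isUnit_iff_isUnit_det h.1).mp h.isUnit).ne_zero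
        have hde : h.1.det = e * e := by
          rw [Matrix.det_fin_two, hb1, hb2]
          have h11 : h.1 1 1 = e - b * x := by linear_combination -hb3 - he
          have h00 : h.1 0 0 = e + b * x := by linear_combination -he
          rw [h11, h00]
          linear_combination (-(b * b)) * hxyz
        have he0 : e ≠ 0 := by
          rintro rfl
          exact hdh (by rw [hde, mul_zero])
        refine ⟨Multiplicative.ofAdd (b / e), ?_⟩
        rw [hφ]
        apply Matrix.ProjGenLinGroup.mk_eq_mk_iff.mpr
        refine ⟨Units.mk0 e he0, ?_⟩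
        apply Units.ext
        rw [Units.val_mul, hf]
        have hs : (Matrix.GeneralLinearGroup.scalar (Fin 2) (Units.mk0 e he0)).1 =
            e • (1 : Matrix (Fin 2) (Fin 2) (ZMod p)) := by
          ext i j
          fin_cases i <;> fin_cases j <;> simp
        rw [hs, Matrix.mul_smul, mul_one]
        ext i j
        fin_cases i <;> fin_cases j <;> simp [T04_N]
        · field_simp
          linear_combination he
        · field_simp
          linear_combination -hb1
        · field_simp
          linear_combination -hb2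
        · field_simp
          linear_combination he + hb3
  have hcard : Nat.card (tor g) = p := by
    rw [← hrange]
    have h3 := Nat.card_congr (MonoidHom.ofInjective hinj).toEquiv
    rw [← h3]
    show Nat.card (ZMod p) = p
    rw [Nat.card_zmod]
  refine ⟨hcard, ?_⟩
  have hgm : pk g ∈ tor g := (T01_mem g g).mpr rfl
  have h3 : (⟨pk g, hgm⟩ : tor g) ^ Nat.card (tor g) = 1 := pow_card_eq_one'
  rw [hcard] at h3
  have h4 : pk g ^ p = 1 := congrArg Subtype.val h3
  exact orderOf_eq_prime h4 hg1

end MX
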