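import Pool.Agent.helper81.MX.T01

set_option autoImplicit false

namespace MX
open scoped MatrixGroups

/-- T08: centralizers of elements of order > 2 -/
theorem tor_centralizer {p : ℕ} [Fact p.Prime] (hp : 5 ≤ p) (g : GL (Fin 2) (ZMod p))
    (hg : pk g * pk g ≠ 1) (x : PG p) (hx : x * pk g = pk g * x) : x ∈ tor g := by
  induction x using Matrix.ProjGenLinGroup.induction_on with
  | mk k =>
    show pk k ∈ tor g
    rw [T01_mem]
    rw [← map_mul, ← map_mul] at hx
    obtain ⟨u, hu⟩ := Matrix.ProjGenLinGroup.mk_eq_mk_iff.mp hx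
    have hdg : g.1.det ≠ 0 := ((Matrix.isUnit_iff_isUnit_det g.1).mp g.isUnit).ne_zero
    have hdk : k.1.det ≠ 0 := ((Matrix.isUnit_iff_isUnit_det k.1).mp k.isUnit).ne_zero
    have hM : k.1 * g.1 * (Matrix.GeneralLinearGroup.scalar (Fin 2) u).1 = g.1 * k.1 := by
      rw [← Units.val_mul, ← Units.val_mul, hu, Units.val_mul]
    have hs : (Matrix.GeneralLinearGroup.scalar (Fin 2) u).1 =
        (u : ZMod p) • (1 : Matrix (Fin 2) (Fin 2) (ZMod p)) := by
      ext i j
      fin_cases i <;> fin_cases j <;> simp
    rw [hs, Matrix.mul_smul, mul_one] at hM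
    have hdet := congrArg Matrix.det hM
    rw [Matrix.det_smul, Matrix.det_mul, Matrix.det_mul, Fintype.card_fin] at hdet
    have hu2 : (u : ZMod p) ^ 2 = 1 := by
      have h1 : k.1.det * g.1.det ≠ 0 := mul_ne_zero hdk hdg
      apply mul_right_cancel₀ h1
      linear_combination hdet
    have h3 : ((u : ZMod p) - 1) * ((u : ZMod p) + 1) = 0 := by linear_combination hu2
    rcases mul_eq_zero.mp h3 with h4 | h4
    · have h5 : (u : ZMod p) = 1 := by linear_combination h4
      rw [h5, one_smul] at hM
      apply Units.ext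
      rw [Units.val_mul, Units.val_mul]
      exact hM
    · exfalso
      have h5 : (u : ZMod p) = -1 := by linear_combination h4
      rw [h5, neg_smul, one_smul] at hM
      -- trace of g is zero
      have h6 : g.1 = -(k.1 * g.1 * (k⁻¹).1) := by
        have h7 : k.1 * (k⁻¹).1 = 1 := by
          rw [← Units.val_mul, mul_inv_cancel, Units.val_one]
        calc g.1 = g.1 * (k.1 * (k⁻¹).1) := by rw [h7, mul_one]
          _ = g.1 * k.1 * (k⁻¹).1 := by rw [mul_assoc]
          _ = -(k.1 * g.1 * (k⁻¹).1) := by rw [← hM, neg_mul]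
      have h7 := congrArg Matrix.trace h6
      rw [Matrix.trace_neg, Matrix.trace_mul_comm, ← mul_assoc] at h7
      have h8 : (k⁻¹).1 * k.1 = 1 := by
        rw [← Units.val_mul, inv_mul_cancel, Units.val_one]
      rw [h8, one_mul] at h7
      have h2 : (2 : ZMod p) ≠ 0 := by
        intro h9
        have h10 : ((2 : ℕ) : ZMod p) = 0 := by exact_mod_cast h9
        rw [ZMod.natCast_eq_zero_iff] at h10
        have := Nat.le_of_dvd (by norm_num) h10
        omega
      have htr : g.1.trace = 0 := by
        have h9 : (2 : ZMod p) * g.1.trace = 0 := by linear_combination h7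
        exact (mul_eq_zero.mp h9).resolve_left h2
      rw [Matrix.trace_fin_two] at htr
      apply hg
      rw [← map_mul]
      apply T01_scalar
      · rw [Units.val_mul, Matrix.mul_apply, Fin.sum_univ_two]
        linear_combination (g.1 0 1) * htr
      · rw [Units.val_mul, Matrix.mul_apply, Fin.sum_univ_two]
        linear_combination (g.1 1 0) * htr
      · rw [Units.val_mul, Matrix.mul_apply, Matrix.mul_apply, Fin.sum_univ_two, Fin.sum_univ_two]
        linear_combination (g.1 0 0 - g.1 1 1) * htr

end MX
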