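import Pool.Agent.helper81.MX.Defs2

/-!
Row U02: subgroups of order `p` of `PGL(2,p)` are conjugate under `PSL(2,p)`.
-/

set_option autoImplicit false

namespace MX

open scoped MatrixGroups Pointwise

theorem U02_sq {p : ℕ} [Fact p.Prime] (x : PG p) : x * x ∈ PS p := by
  obtain ⟨g, rfl⟩ := Matrix.ProjGenLinGroup.mk_surjective x
  set c : (ZMod p)ˣ := Matrix.GeneralLinearGroup.det g with hc
  have hdet : ((c⁻¹ : (ZMod p)ˣ) : ZMod p) ^ 2 * ((c : ZMod p) * (c : ZMod p)) = 1 := by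
    have h1 : ((c⁻¹ : (ZMod p)ˣ) : ZMod p) * (c : ZMod p) = 1 := Units.inv_mul c
    linear_combination (((c⁻¹ : (ZMod p)ˣ) : ZMod p) * (c : ZMod p) + 1) * h1
  let s : SL(2, ZMod p) := ⟨((c⁻¹ : (ZMod p)ˣ) : ZMod p) • ((g : Matrix (Fin 2) (Fin 2) (ZMod p)) *
    (g : Matrix (Fin 2) (Fin 2) (ZMod p))), by
      rw [Matrix.det_smul, Fintype.card_fin, Matrix.det_mul]
      exact hdet⟩
  refine ⟨(QuotientGroup.mk s : PSL(2, ZMod p)), ?_⟩
  rw [Matrix.ProjectiveSpecialLinearGroup.toPGL_mk, ← map_mul, Matrix.ProjGenLinGroup.mk_eq_mk_iff]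
  refine ⟨c, ?_⟩
  apply Units.ext
  ext i j
  simp only [Units.val_mul, Matrix.GeneralLinearGroup.coe_scalar]
  have h1 : ((c⁻¹ : (ZMod p)ˣ) : ZMod p) * (c : ZMod p) = 1 := Units.inv_mul c
  have h2 : ((Matrix.SpecialLinearGroup.toGL s : GL (Fin 2) (ZMod p)) : Matrix (Fin 2) (Fin 2) (ZMod p)) =
      ((c⁻¹ : (ZMod p)ˣ) : ZMod p) • ((g : Matrix (Fin 2) (Fin 2) (ZMod p)) *
    (g : Matrix (Fin 2) (Fin 2) (ZMod p))) := rfl
  rw [h2]
  have h3 : ∀ A : Matrix (Fin 2) (Fin 2) (ZMod p), (((c⁻¹ : (ZMod p)ˣ) : ZMod p) • A) *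
      Matrix.scalar (Fin 2) (c : ZMod p) = A := by
    intro A
    ext i j
    rw [Matrix.scalar_apply, Matrix.mul_diagonal, Matrix.smul_apply, smul_eq_mul]
    linear_combination (A i j) * h1
  rw [h3]

theorem U02_finite (p : ℕ) [Fact p.Prime] : Finite (PG p) :=
  Finite.of_surjective _ Matrix.ProjGenLinGroup.mk_surjective

theorem U02_card {p : ℕ} [Fact p.Prime] : ¬ p ^ 2 ∣ Nat.card (PG p) := by
  intro h
  have hp : p.Prime := Fact.out
  have h1 : Nat.card (PG p) ∣ Nat.card (GL (Fin 2) (ZMod p)) :=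
    Subgroup.card_dvd_of_surjective _ Matrix.ProjGenLinGroup.mk_surjective
  have h2 := h.trans h1
  rw [Matrix.card_GL_field, Fin.prod_univ_two, ZMod.card] at h2
  simp only [Fin.val_zero, pow_zero, Fin.val_one, pow_one] at h2
  obtain ⟨q, rfl⟩ : ∃ q, p = q + 1 := ⟨p - 1, by have := hp.pos; omega⟩
  have h3 : ((q + 1) ^ 2 - 1) * ((q + 1) ^ 2 - (q + 1)) = (q + 1) * ((q * (q + 2)) * q) := by
    have e1 : (q + 1) ^ 2 - 1 = q * (q + 2) := by
      have : (q + 1) ^ 2 = q * (q + 2) + 1 := by ring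
      omega
    have e2 : (q + 1) ^ 2 - (q + 1) = q * (q + 1) := by
      have : (q + 1) ^ 2 = q * (q + 1) + (q + 1) := by ring
      omega
    rw [e1, e2]
    ring
  rw [h3, sq] at h2
  have h4 : (q + 1) ∣ (q * (q + 2)) * q := Nat.dvd_of_mul_dvd_mul_left hp.pos h2
  have h5 : ¬ (q + 1) ∣ q := by
    intro h6
    have hq : 0 < q := by have := hp.two_le; omega
    have := Nat.le_of_dvd hq h6
    omega
  rcases (Nat.Prime.dvd_mul hp).1 h4 with h6 | h6
  · rcases (Nat.Prime.dvd_mul hp).1 h6 with h7 | h7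
    · exact h5 h7
    · have h8 : (q + 1) ∣ 1 := by
        have : q + 2 = (q + 1) + 1 := by ring
        rw [this] at h7
        exact (Nat.dvd_add_right (dvd_refl _)).1 h7
      exact hp.one_lt.ne' (Nat.dvd_one.1 h8)
  · exact h5 h6

theorem U02_le {p : ℕ} [Fact p.Prime] (hp : 5 ≤ p) (U : Subgroup (PG p)) (hU : Nat.card U = p) : U ≤ PS p := by
  have hpp : p.Prime := Fact.out
  intro x hx
  have h1 : x ^ p = 1 := by
    have h2 : (⟨x, hx⟩ : U) ^ Nat.card U = 1 := pow_card_eq_one'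
    rw [hU] at h2
    exact congrArg Subtype.val h2
  obtain ⟨m, hm⟩ : ∃ m, p + 1 = 2 * m := by
    rcases hpp.eq_two_or_odd' with h | ⟨m, hm⟩
    · omega
    · exact ⟨m + 1, by omega⟩
  have h3 : x = (x * x) ^ m := by
    rw [← sq, ← pow_mul, ← hm, pow_succ, h1, one_mul]
  rw [h3]
  exact Subgroup.pow_mem _ (U02_sq x) m

/-- U02 -/
theorem unip_conj {p : ℕ} [Fact p.Prime] (hp : 5 ≤ p) (U U' : Subgroup (PG p))
    (hU : Nat.card U = p) (hU' : Nat.card U' = p) : ∃ s ∈ PS p, cj s U = U' := by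
  have hpp : p.Prime := Fact.out
  have hfin := U02_finite p
  have hle := U02_le hp U hU
  have hle' := U02_le hp U' hU'
  have hV : Nat.card (U.subgroupOf (PS p)) = p := by
    rw [Nat.card_congr (Subgroup.subgroupOfEquivOfLe hle).toEquiv, hU]
  have hV' : Nat.card (U'.subgroupOf (PS p)) = p := by
    rw [Nat.card_congr (Subgroup.subgroupOfEquivOfLe hle').toEquiv, hU']
  have hdvd : p ∣ Nat.card (PS p) := by
    have := Subgroup.card_subgroup_dvd_card (U.subgroupOf (PS p))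
    rwa [hV] at this
  have hfac : (Nat.card (PS p)).factorization p = 1 := by
    have h0 : Nat.card (PS p) ≠ 0 := Nat.card_pos.ne'
    have h1 : 1 ≤ (Nat.card (PS p)).factorization p :=
      (hpp.dvd_iff_one_le_factorization h0).1 hdvd
    have h2 : ¬ 2 ≤ (Nat.card (PS p)).factorization p := by
      intro h
      have h3 : p ^ 2 ∣ Nat.card (PS p) := (hpp.pow_dvd_iff_le_factorization h0).2 h
      exact U02_card (h3.trans (Subgroup.card_subgroup_dvd_card (PS p)))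
    omega
  let P : Sylow p (PS p) := Sylow.ofCard (U.subgroupOf (PS p)) (by rw [hfac, pow_one, hV])
  let P' : Sylow p (PS p) := Sylow.ofCard (U'.subgroupOf (PS p)) (by rw [hfac, pow_one, hV'])
  obtain ⟨g, hg⟩ := MulAction.exists_smul_eq (PS p) P P'
  refine ⟨g, g.2, ?_⟩
  have h1 : MulAut.conj g • (U.subgroupOf (PS p)) = U'.subgroupOf (PS p) := by
    have := congrArg (fun Q : Sylow p (PS p) => (Q : Subgroup (PS p))) hg
    exact this
  have hcard : Nat.card (cj (g : PG p) U) = p := by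
    rw [cj, Nat.card_congr (Subgroup.equivMapOfInjective U _ (MulAut.conj (g : PG p)).injective).toEquiv.symm, hU]
  refine Subgroup.eq_of_le_of_card_ge ?_ (by rw [hcard, hU'])
  intro x hx
  rw [mem_cj] at hx
  have hx2 : (g : PG p)⁻¹ * x * g ∈ PS p := hle hx
  have hx3 : x ∈ PS p := by
    have : x = (g : PG p) * ((g : PG p)⁻¹ * x * g) * (g : PG p)⁻¹ := by group
    rw [this]
    exact (PS p).mul_mem ((PS p).mul_mem g.2 hx2) ((PS p).inv_mem g.2)
  have h2 : (⟨x, hx3⟩ : PS p) ∈ MulAut.conj g • (U.subgroupOf (PS p)) := by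
    rw [Subgroup.mem_pointwise_smul_iff_inv_smul_mem, ← map_inv, MulAut.smul_def, MulAut.conj_apply,
      Subgroup.mem_subgroupOf, inv_inv]
    exact hx
  rw [h1, Subgroup.mem_subgroupOf] at h2
  exact h2

end MX
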