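import Pool.Agent.helper81.MX.Defs3
import Pool.Agent.helper81.MX.S02
import Pool.Agent.helper81.MX.T03
import Pool.Agent.helper81.MX.T04
import Pool.Agent.helper81.MX.T08
import Pool.Agent.helper81.MX.U02

/-!
# Row CC1 of project MX
-/

set_option autoImplicit false

namespace MX
open scoped MatrixGroups

/-- CC1 -/
theorem odd_cyclic {p : ℕ} [Fact p.Prime] (hp : 5 ≤ p) (r : ℕ) [Fact r.Prime] (hr : r ≠ 2)
    (R : Subgroup (PG p)) (hR : IsPGroup r R) : IsCyclic R := by
  have hpp : p.Prime := Fact.out
  have hrp : r.Prime := Fact.out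
  haveI := U02_finite p
  haveI : Finite R := inferInstance
  rcases subsingleton_or_nontrivial R with hs | hn
  · exact isCyclic_of_subsingleton
  by_cases hrp' : r = p
  · subst hrp'
    obtain ⟨n, hn'⟩ := IsPGroup.iff_card.1 hR
    have hd : Nat.card R ∣ Nat.card (PG r) := Subgroup.card_subgroup_dvd_card R
    have hn1 : n ≤ 1 := by
      by_contra h
      apply U02_card (p := r)
      rw [hn'] at hd
      exact (pow_dvd_pow r (by omega)).trans hd
    have hn0 : n ≠ 0 := by
      rintro rfl
      rw [pow_zero] at hn'
      have := Finite.one_lt_card_iff_nontrivial.2 hn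
      omega
    have : n = 1 := by omega
    rw [this, pow_one] at hn'
    exact isCyclic_of_prime_card hn'
  · haveI := hR.center_nontrivial
    obtain ⟨z, hz⟩ := exists_ne (1 : Subgroup.center R)
    obtain ⟨g, hg⟩ := Matrix.ProjGenLinGroup.mk_surjective ((z : R) : PG p)
    have hz1 : ((z : R) : PG p) ≠ 1 := by
      intro h
      apply hz
      apply Subtype.ext
      apply Subtype.ext
      exact h
    have hodd : ∀ k : ℕ, orderOf ((z : R) : PG p) ∣ k → k.Coprime r → False := by
      intro k hk hkr
      obtain ⟨m, hm⟩ := hR (z : R)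
      have h1 : ((z : R) : PG p) ^ (r ^ m) = 1 := by
        have := congrArg Subtype.val hm
        exact this
      have h2 := orderOf_dvd_of_pow_eq_one h1
      have h3 : orderOf ((z : R) : PG p) ∣ 1 := by
        have hc : (k).Coprime (r ^ m) := Nat.Coprime.pow_right m hkr
        rw [← hc]
        exact Nat.dvd_gcd hk h2
      rw [Nat.dvd_one, orderOf_eq_one_iff] at h3
      exact hz1 h3
    have hg1 : pk g ≠ 1 := by rw [show pk g = ((z : R) : PG p) from hg]; exact hz1
    have hg2 : pk g * pk g ≠ 1 := by
      rw [show pk g = ((z : R) : PG p) from hg]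
      intro h
      apply hodd 2 (orderOf_dvd_of_pow_eq_one (by rw [pow_two]; exact h))
      exact (Nat.coprime_primes Nat.prime_two hrp).2 (Ne.symm hr)
    have hd : dsc g ≠ 0 := by
      intro h
      have h3 := (tor_unip hp g h hg1).2
      rw [show pk g = ((z : R) : PG p) from hg] at h3
      apply hodd p (by rw [h3])
      exact (Nat.coprime_primes hpp hrp).2 (Ne.symm hrp')
    have hle : R ≤ tor g := by
      intro x hx
      apply tor_centralizer hp g hg2
      rw [show pk g = ((z : R) : PG p) from hg]
      have hc := Subgroup.mem_center_iff.1 z.2 ⟨x, hx⟩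
      exact congrArg Subtype.val hc
    haveI := (tor_cyc hp g hd).1
    exact isCyclic_of_injective (Subgroup.inclusion hle) (Subgroup.inclusion_injective hle)

end MX
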