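import Pool.Agent.helper81.MX.Defs2

/-!
# Row U01 of project MX
-/

set_option autoImplicit false

namespace MX

open scoped MatrixGroups

section U01

variable {p : ℕ}

/-- the transvections with a given direction -/
def U01_TR (a b s : ZMod p) : SL(2, ZMod p) :=
  ⟨!![1 - s * (a * b), s * a ^ 2; - s * b ^ 2, 1 + s * (a * b)], by
    rw [Matrix.det_fin_two_of]; ring⟩

theorem U01_TR_mul (a b s t : ZMod p) : U01_TR a b s * U01_TR a b t = U01_TR a b (s + t) := by
  apply Subtype.ext
  rw [Matrix.SpecialLinearGroup.coe_mul]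
  simp only [U01_TR]
  rw [Matrix.mul_fin_two]
  ext i j
  fin_cases i <;> fin_cases j <;> simp <;> ring

theorem U01_TR_zero (a b : ZMod p) : U01_TR a b 0 = 1 := by
  apply Subtype.ext
  ext i j
  fin_cases i <;> fin_cases j <;> simp [U01_TR]

theorem U01_TR_pow (a b s : ZMod p) (k : ℕ) : U01_TR a b s ^ k = U01_TR a b (k * s) := by
  induction k with
  | zero => rw [pow_zero, Nat.cast_zero, zero_mul, U01_TR_zero]
  | succ k ih => 
    rw [pow_succ, ih, U01_TR_mul]
    push_cast
    congr 1
    ring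

/-- elements of order `p` -/
theorem U01_form [Fact p.Prime] (x : PG p) (hx : x ≠ 1) (hxp : x ^ p = 1) :
    ∃ a b t : ZMod p, (a = 1 ∨ (a = 0 ∧ b = 1)) ∧ t ≠ 0 ∧ x = sk (U01_TR a b t) := by
  obtain ⟨g, rfl⟩ := Matrix.ProjGenLinGroup.mk_surjective x
  rw [← map_pow, Matrix.ProjGenLinGroup.mk_eq_one,
    Matrix.GeneralLinearGroup.center_eq_range_scalar] at hxp
  obtain ⟨u, hu⟩ := hxp
  have h1 : (g : Matrix (Fin 2) (Fin 2) (ZMod p)) ^ p = Matrix.scalar (Fin 2) (u : ZMod p) := by
    rw [← Units.val_pow_eq_pow_val, ← hu]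
    rfl
  set N : Matrix (Fin 2) (Fin 2) (ZMod p) :=
    (g : Matrix (Fin 2) (Fin 2) (ZMod p)) - Matrix.scalar (Fin 2) (u : ZMod p) with hN
  have hcomm : Commute (g : Matrix (Fin 2) (Fin 2) (ZMod p)) (Matrix.scalar (Fin 2) (u : ZMod p)) :=
    (Matrix.scalar_commute (u : ZMod p) (fun r => mul_comm _ _) _).symm
  have h2 : N ^ p = 0 := by
    rw [hN, sub_pow_char_of_commute _ hcomm, h1, ← map_pow, ZMod.pow_card, sub_self]
  have h3 : N.det = 0 := by
    have h4 : N.det ^ p = 0 := by
      rw [← Matrix.det_pow, h2, Matrix.det_zero]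
    exact pow_eq_zero_iff (Fact.out : p.Prime).ne_zero |>.1 h4
  have h4 : N.trace = 0 := by
    have h5 : IsNilpotent N := ⟨p, h2⟩
    have h6 := Matrix.isNilpotent_trace_of_isNilpotent h5
    exact h6.eq_zero
  have hu0 : (u : ZMod p) ≠ 0 := u.ne_zero
  have hg : (g : Matrix (Fin 2) (Fin 2) (ZMod p)) = N + Matrix.scalar (Fin 2) (u : ZMod p) := by
    rw [hN]; abel
  rw [Matrix.det_fin_two] at h3
  rw [Matrix.trace_fin_two] at h4
  have h11 : N 1 1 = - N 0 0 := by linear_combination h4
  have hdet : N 0 0 ^ 2 = - (N 0 1 * N 1 0) := by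
    rw [h11] at h3
    linear_combination - h3
  -- reduction to a statement on matrices
  have hred : ∀ a b t : ZMod p, (u : ZMod p) * (- (t * (a * b))) = N 0 0 →
      (u : ZMod p) * (t * a ^ 2) = N 0 1 → (u : ZMod p) * (- t * b ^ 2) = N 1 0 →
      Matrix.ProjGenLinGroup.mk g = sk (U01_TR a b t) := by
    intro a b t e1 e2 e3
    symm
    change Matrix.ProjGenLinGroup.mk (Matrix.SpecialLinearGroup.toGL (U01_TR a b t)) = _
    rw [Matrix.ProjGenLinGroup.mk_eq_mk_iff]
    refine ⟨u, ?_⟩
    apply Units.ext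
    rw [hg, Units.val_mul]
    have e4 : ((Matrix.GeneralLinearGroup.scalar (Fin 2) u : GL (Fin 2) (ZMod p)) :
      Matrix (Fin 2) (Fin 2) (ZMod p)) = Matrix.scalar (Fin 2) (u : ZMod p) := rfl
    rw [e4]
    ext i j
    rw [Matrix.scalar_apply, Matrix.mul_diagonal, Matrix.add_apply]
    fin_cases i <;> fin_cases j
    · simp [U01_TR, Matrix.diagonal]
      linear_combination e1
    · simp [U01_TR, Matrix.diagonal]
      linear_combination e2
    · simp [U01_TR, Matrix.diagonal]
      linear_combination e3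
    · simp [U01_TR, Matrix.diagonal]
      rw [h11]
      linear_combination - e1
  by_cases h12 : N 0 1 = 0
  · have h00 : N 0 0 = 0 := by
      rw [h12, zero_mul, neg_zero] at hdet
      exact pow_eq_zero_iff two_ne_zero |>.1 hdet
    have h10 : N 1 0 ≠ 0 := by
      intro h10
      apply hx
      rw [Matrix.ProjGenLinGroup.mk_eq_one, Matrix.GeneralLinearGroup.center_eq_range_scalar]
      refine ⟨u, ?_⟩
      apply Units.ext
      rw [hg]
      have e4 : ((Matrix.GeneralLinearGroup.scalar (Fin 2) u : GL (Fin 2) (ZMod p)) :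
        Matrix (Fin 2) (Fin 2) (ZMod p)) = Matrix.scalar (Fin 2) (u : ZMod p) := rfl
      rw [e4]
      have e5 : N = 0 := by
        ext i j
        fin_cases i <;> fin_cases j
        · exact h00
        · exact h12
        · exact h10
        · change N 1 1 = 0
          rw [h11, h00, neg_zero]
      rw [e5, zero_add]
    refine ⟨0, 1, - (N 1 0 / u), Or.inr ⟨rfl, rfl⟩, ?_, ?_⟩
    · exact neg_ne_zero.2 (div_ne_zero h10 hu0)
    · apply hred
      · rw [h00]; ring
      · rw [h12]; ring
      · field_simp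
  · refine ⟨1, - (N 0 0 / N 0 1), N 0 1 / u, Or.inl rfl, div_ne_zero h12 hu0, ?_⟩
    apply hred
    · field_simp
    · field_simp
    · have e : N 1 0 = - (N 0 0 ^ 2 / N 0 1) := by
        rw [hdet]
        field_simp
      rw [e]
      field_simp

/-- subgroups of order `p` -/
theorem U01_sub [Fact p.Prime] (U : Subgroup (PG p)) (hU : Nat.card U = p) :
    ∃ a b : ZMod p, (a = 1 ∨ (a = 0 ∧ b = 1)) ∧ ∀ y : PG p, y ∈ U ↔ ∃ s, y = sk (U01_TR a b s) := by
  have hpp : p.Prime := Fact.out
  have hfin : Finite U := Nat.finite_of_card_ne_zero (by rw [hU]; exact hpp.ne_zero)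
  have hnt : Nontrivial U := by
    rw [← Finite.one_lt_card_iff_nontrivial, hU]
    exact hpp.one_lt
  obtain ⟨x, hx⟩ := exists_ne (1 : U)
  have hx1 : (x : PG p) ≠ 1 := by
    intro h
    exact hx (Subtype.ext h)
  have hxp : (x : PG p) ^ p = 1 := by
    have h0 : x ^ Nat.card U = 1 := pow_card_eq_one'
    have h1 : x ^ p = 1 := by
      have e : x ^ p = x ^ Nat.card U := congrArg (fun n => x ^ n) hU.symm
      rw [e]
      exact h0
    have h2 := congrArg (Subtype.val) h1
    exact h2
  obtain ⟨a, b, t, hab, ht, hxt⟩ := U01_form (x : PG p) hx1 hxp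
  refine ⟨a, b, hab, ?_⟩
  intro y
  constructor
  · intro hy
    have h1 : (⟨y, hy⟩ : U) ∈ Subgroup.zpowers x := mem_zpowers_of_prime_card hU hx
    have h2 : (⟨y, hy⟩ : U) ∈ Submonoid.powers x := by
      rw [mem_powers_iff_mem_zpowers]
      exact h1
    obtain ⟨k, hk⟩ := h2
    have h3 : (x : PG p) ^ k = y := by
      have h4 := congrArg (Subtype.val) hk
      exact h4
    refine ⟨k * t, ?_⟩
    rw [← h3, hxt, ← map_pow, U01_TR_pow]
  · rintro ⟨s, rfl⟩
    have h1 : sk (U01_TR a b s) = (x : PG p) ^ ((s / t : ZMod p).val) := by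
      rw [hxt, ← map_pow, U01_TR_pow, ZMod.natCast_zmod_val, div_mul_cancel₀ _ ht]
    rw [h1]
    exact U.pow_mem x.2 _

/-- U01 -/
theorem two_unip {p : ℕ} [Fact p.Prime] (hp : 5 ≤ p) (U U' : Subgroup (PG p))
    (hU : Nat.card U = p) (hU' : Nat.card U' = p) (hne : U ≠ U') : PS p ≤ U ⊔ U' := by
  obtain ⟨a, b, hab, hUm⟩ := U01_sub U hU
  obtain ⟨a', b', hab', hUm'⟩ := U01_sub U' hU'
  have hD : a * b' - a' * b ≠ 0 := by
    intro h
    rcases hab with rfl | ⟨rfl, rfl⟩ <;> rcases hab' with rfl | ⟨rfl, rfl⟩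
    · apply hne
      have e : b' = b := by linear_combination h
      subst e
      ext y
      rw [hUm, hUm']
    · have : (1 : ZMod p) = 0 := by linear_combination h
      exact one_ne_zero this
    · have : (1 : ZMod p) = 0 := by linear_combination - h
      exact one_ne_zero this
    · apply hne
      ext y
      rw [hUm, hUm']
  have hdet : (!![a, a'; b, b'] : Matrix (Fin 2) (Fin 2) (ZMod p)).det ≠ 0 := by
    rw [Matrix.det_fin_two_of]; exact hD
  set P : GL (Fin 2) (ZMod p) := Matrix.GeneralLinearGroup.mkOfDetNeZero _ hdet with hP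
  have hPv : (P : Matrix (Fin 2) (Fin 2) (ZMod p)) = !![a, a'; b, b'] := rfl
  have key : ∀ A : SL(2, ZMod p), pk P * sk A * (pk P)⁻¹ ∈ U ⊔ U' := by
    intro A
    induction A using Matrix.SL2.transvection_induction with
    | hmul A B hA hB =>
      have e : pk P * sk (A * B) * (pk P)⁻¹ =
        (pk P * sk A * (pk P)⁻¹) * (pk P * sk B * (pk P)⁻¹) := by
        have e0 : sk (A * B) = sk A * sk B := map_mul _ _ _
        rw [e0]; group
      rw [e]
      exact mul_mem hA hB
    | htransvec i j hij c =>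
      fin_cases i
      · obtain rfl : j = 1 := by fin_cases j <;> tauto
        apply Subgroup.mem_sup_left
        rw [hUm]
        obtain ⟨s, rfl⟩ : ∃ s, c = s * (a * b' - a' * b) :=
          ⟨c / (a * b' - a' * b), (div_mul_cancel₀ c hD).symm⟩
        refine ⟨s, ?_⟩
        rw [mul_inv_eq_iff_eq_mul]
        change Matrix.ProjGenLinGroup.mk _ * Matrix.ProjGenLinGroup.mk _ =
          Matrix.ProjGenLinGroup.mk _ * Matrix.ProjGenLinGroup.mk _
        rw [← map_mul, ← map_mul]
        congr 1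
        apply Units.ext
        rw [Units.val_mul, Units.val_mul, hPv]
        ext i j
        fin_cases i <;> fin_cases j <;>
          simp [U01_TR, Matrix.mul_apply, Fin.sum_univ_two,
            Matrix.SpecialLinearGroup.transvection_coe, Matrix.single] <;> ring
      · obtain rfl : j = 0 := by fin_cases j <;> tauto
        apply Subgroup.mem_sup_right
        rw [hUm']
        obtain ⟨s, rfl⟩ : ∃ s, c = s * (a * b' - a' * b) :=
          ⟨c / (a * b' - a' * b), (div_mul_cancel₀ c hD).symm⟩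
        refine ⟨- s, ?_⟩
        rw [mul_inv_eq_iff_eq_mul]
        change Matrix.ProjGenLinGroup.mk _ * Matrix.ProjGenLinGroup.mk _ =
          Matrix.ProjGenLinGroup.mk _ * Matrix.ProjGenLinGroup.mk _
        rw [← map_mul, ← map_mul]
        congr 1
        apply Units.ext
        rw [Units.val_mul, Units.val_mul, hPv]
        ext i j
        fin_cases i <;> fin_cases j <;>
          simp [U01_TR, Matrix.mul_apply, Fin.sum_univ_two,
            Matrix.SpecialLinearGroup.transvection_coe, Matrix.single] <;> ring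
  rintro x ⟨y, rfl⟩
  obtain ⟨B, rfl⟩ := QuotientGroup.mk_surjective y
  have hdetA : ((P⁻¹ : GL (Fin 2) (ZMod p)) * (Matrix.SpecialLinearGroup.toGL B) * P :
      GL (Fin 2) (ZMod p)).det = 1 := by
    rw [map_mul, map_mul, map_inv]
    have : (Matrix.SpecialLinearGroup.toGL B).det = 1 := by
      apply Units.ext
      simp
    rw [this, mul_one, inv_mul_cancel]
  set A : SL(2, ZMod p) := ⟨(((P⁻¹ : GL (Fin 2) (ZMod p)) * (Matrix.SpecialLinearGroup.toGL B) * P :
      GL (Fin 2) (ZMod p)) : Matrix (Fin 2) (Fin 2) (ZMod p)), by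
        exact congrArg Units.val hdetA⟩ with hA
  have hAG : Matrix.SpecialLinearGroup.toGL A =
      (P⁻¹ : GL (Fin 2) (ZMod p)) * (Matrix.SpecialLinearGroup.toGL B) * P := by
    apply Units.ext
    rfl
  have h1 := key A
  have h2 : pk P * sk A * (pk P)⁻¹ = Matrix.ProjectiveSpecialLinearGroup.toPGL (B : PSL(2, ZMod p)) := by
    rw [Matrix.ProjectiveSpecialLinearGroup.toPGL_mk]
    change pk P * Matrix.ProjGenLinGroup.mk (Matrix.SpecialLinearGroup.toGL A) * (pk P)⁻¹ = _
    rw [hAG, map_mul, map_mul, map_inv]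
    group
  rw [← h2]
  exact h1

end U01

end MX
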