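import Pool.Agent.helper81.MX.Defs3
import Pool.Agent.helper81.MX.S02
import Pool.Agent.helper81.MX.U01

set_option autoImplicit false

namespace MX

open scoped MatrixGroups

section CC2a

variable {A : Type*} [Group A]

/-- two subgroups of `X` of full `r`-order which are conjugate in `A` are conjugate in `X` -/
theorem CC2_sylow [Finite A] (r : ℕ) [Fact r.Prime] (Q X : Subgroup A) (g : A) (hQ : IsPGroup r Q)
    (hi : ¬ r ∣ Q.index) (h1 : Q ≤ X) (h2 : ∀ q ∈ Q, g * q * g⁻¹ ∈ X) :
    ∃ x ∈ X, ∀ q ∈ Q, (x * g) * q * (x * g)⁻¹ ∈ Q := by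
  set Q' : Subgroup A := cj g Q with hQ'
  have hQ'X : Q' ≤ X := by
    intro y hy
    rw [hQ', mem_cj] at hy
    have := h2 _ hy
    have e : g * (g⁻¹ * y * g) * g⁻¹ = y := by group
    rwa [e] at this
  have hQ'p : IsPGroup r Q' := hQ.map _
  have hi' : Q'.index = Q.index := by
    rw [hQ']
    exact Subgroup.index_map_of_bijective (MulAut.conj g).bijective Q
  have key : ∀ R : Subgroup A, IsPGroup r R → R ≤ X → ¬ r ∣ R.index →
      IsPGroup r (R.subgroupOf X) ∧ ¬ r ∣ (R.subgroupOf X).index := by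
    intro R hR hRX hRi
    refine ⟨?_, ?_⟩
    · exact hR.of_equiv (Subgroup.subgroupOfEquivOfLe hRX).symm
    · intro hd
      apply hRi
      have e : R.relIndex X * X.index = R.index := Subgroup.relIndex_mul_index hRX
      rw [← e]
      exact dvd_mul_of_dvd_left hd _
  obtain ⟨k1, k2⟩ := key Q hQ h1 hi
  obtain ⟨k3, k4⟩ := key Q' hQ'p hQ'X (by rw [hi']; exact hi)
  obtain ⟨x, hx⟩ := MulAction.exists_smul_eq X (k3.toSylow k4) (k1.toSylow k2)
  refine ⟨x, x.2, ?_⟩
  intro q hq
  have h3 : (⟨g * q * g⁻¹, h2 q hq⟩ : X) ∈ Q'.subgroupOf X := by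
    rw [Subgroup.mem_subgroupOf, hQ', mem_cj]
    have e : g⁻¹ * (g * q * g⁻¹) * g = q := by group
    rw [e]
    exact hq
  have h4 : x * (⟨g * q * g⁻¹, h2 q hq⟩ : X) * x⁻¹ ∈ (x • (k3.toSylow k4) : Sylow r X) := by
    rw [Sylow.smul_def]
    exact Subgroup.smul_mem_pointwise_smul (⟨g * q * g⁻¹, h2 q hq⟩ : X) (MulAut.conj x) _ h3
  rw [hx] at h4
  have h5 : x * (⟨g * q * g⁻¹, h2 q hq⟩ : X) * x⁻¹ ∈ Q.subgroupOf X := h4
  rw [Subgroup.mem_subgroupOf] at h5
  have e : (x * g) * q * (x * g)⁻¹ = ((x * (⟨g * q * g⁻¹, h2 q hq⟩ : X) * x⁻¹ : X) : A) := by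
    simp only [Subgroup.coe_mul, Subgroup.coe_inv]
    group
  rw [e]
  exact h5

theorem CC2_dih (t a : A) (ha : a * a = 1) (hta : a * t * a⁻¹ = t⁻¹) (d : A)
    (hd : d ∈ Subgroup.closure ({t, a} : Set A)) :
    d ∈ Subgroup.zpowers t ∨ d * a ∈ Subgroup.zpowers t := by
  have hai : a⁻¹ = a := inv_eq_of_mul_eq_one_left ha
  have hn : ∀ z ∈ Subgroup.zpowers t, a * z * a ∈ Subgroup.zpowers t := by
    rintro _ ⟨n, rfl⟩
    refine ⟨-n, ?_⟩
    have h1 : a * t ^ n * a⁻¹ = (a * t * a⁻¹) ^ n := by rw [conj_zpow]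
    change t ^ (-n) = a * t ^ n * a
    rw [hta, hai] at h1
    rw [h1]
    simp
  induction hd using Subgroup.closure_induction with
  | mem x hx =>
    rcases hx with rfl | rfl
    · exact Or.inl (Subgroup.mem_zpowers _)
    · right; rw [ha]; exact Subgroup.one_mem _
  | one => left; exact Subgroup.one_mem _
  | mul x y _ _ h1 h2 =>
    rcases h1 with h1 | h1
    · rcases h2 with h2 | h2
      · exact Or.inl (Subgroup.mul_mem _ h1 h2)
      · right; rw [mul_assoc]; exact Subgroup.mul_mem _ h1 h2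
    · rcases h2 with h2 | h2
      · right
        have h3 := Subgroup.mul_mem _ h1 (hn _ h2)
        have e : x * a * (a * y * a) = x * y * a := by
          rw [show x * a * (a * y * a) = x * (a * a) * y * a by group, ha]; group
        rwa [e] at h3
      · left
        have h3 := Subgroup.mul_mem _ h1 (hn _ h2)
        have e : x * a * (a * (y * a) * a) = x * y := by
          rw [show x * a * (a * (y * a) * a) = x * (a * a) * y * (a * a) by group, ha]; group
        rwa [e] at h3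
  | inv x _ h1 =>
    rcases h1 with h1 | h1
    · exact Or.inl (Subgroup.inv_mem _ h1)
    · right
      have h3 := hn _ (Subgroup.inv_mem _ h1)
      have e : a * (x * a)⁻¹ * a = x⁻¹ * a := by
        rw [mul_inv_rev, hai, show a * (a * x⁻¹) * a = (a * a) * x⁻¹ * a by group, ha]; group
      rwa [e] at h3

theorem CC2_sq (t a : A) (ha : a * a = 1) (hta : a * t * a⁻¹ = t⁻¹) (d : A)
    (hd : d ∈ Subgroup.closure ({t, a} : Set A)) (h2 : d * d ≠ 1) : d ∈ Subgroup.zpowers t := by
  rcases CC2_dih t a ha hta d hd with h | h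
  · exact h
  · exfalso
    apply h2
    have hai : a⁻¹ = a := inv_eq_of_mul_eq_one_left ha
    obtain ⟨n, hn⟩ := h
    have hn' : t ^ n = d * a := hn
    have h1 : a * t ^ n * a⁻¹ = (a * t * a⁻¹) ^ n := by rw [conj_zpow]
    rw [hta, hn', hai, inv_zpow, hn'] at h1
    have e1 : a * (d * a) * a = a * d := by
      rw [show a * (d * a) * a = a * d * (a * a) by group, ha, mul_one]
    rw [e1, mul_inv_rev, hai] at h1
    have h3 : d = d⁻¹ := mul_left_cancel h1
    rw [← mul_inv_cancel d]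
    exact congrArg (fun z => d * z) h3

/-- the core: conjugation control -/
theorem CC2_core [Finite A] (p : ℕ) (hp : p.Prime) (hp5 : 5 ≤ p) (t a : A) (ha : a * a = 1)
    (ha1 : a ∉ Subgroup.zpowers t) (hta : a * t * a⁻¹ = t⁻¹)
    (hcard : Nat.card A = orderOf t * (p * (p + 1)))
    (ho : orderOf t = p - 1 ∨ 2 * orderOf t = p - 1) (h3 : 3 ≤ orderOf t)
    (hN : ∀ y s : A, s ∈ Subgroup.zpowers t → s ≠ 1 → y * s * y⁻¹ ∈ Subgroup.zpowers t →
      y ∈ Subgroup.closure ({t, a} : Set A)) :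
    ∀ (X : Subgroup A) (g : A), t ∈ X → a ∈ X → g * t * g⁻¹ ∈ X → g * a * g⁻¹ ∈ X →
      ∃ x ∈ X, x * g ∈ Subgroup.closure ({t, a} : Set A) := by
  intro X g htX haX hgt hga
  have hDX : Subgroup.closure ({t, a} : Set A) ≤ X := by
    rw [Subgroup.closure_le]
    rintro x (rfl | rfl)
    · exact htX
    · exact haX
  have hgD : ∀ q ∈ Subgroup.closure ({t, a} : Set A), g * q * g⁻¹ ∈ X := by
    have hle : Subgroup.closure ({t, a} : Set A) ≤ X.comap (MulAut.conj g).toMonoidHom := by
      rw [Subgroup.closure_le]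
      rintro x (rfl | rfl)
      · exact hgt
      · exact hga
    intro q hq
    exact hle hq
  have htD : t ∈ Subgroup.closure ({t, a} : Set A) := Subgroup.subset_closure (by simp)
  have haD : a ∈ Subgroup.closure ({t, a} : Set A) := Subgroup.subset_closure (by simp)
  have hzD : Subgroup.zpowers t ≤ Subgroup.closure ({t, a} : Set A) := by
    rw [Subgroup.zpowers_le]; exact htD
  have hot : 0 < orderOf t := orderOf_pos t
  by_cases hodd : ∃ r : ℕ, r.Prime ∧ r ≠ 2 ∧ r ∣ orderOf t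
  · obtain ⟨r, hr, hr2, hrt⟩ := hodd
    have : Fact r.Prime := ⟨hr⟩
    -- the Sylow subgroup of the cyclic group
    obtain ⟨S⟩ : Nonempty (Sylow r (Subgroup.zpowers t)) := inferInstance
    set Q : Subgroup A := (S : Subgroup (Subgroup.zpowers t)).map (Subgroup.zpowers t).subtype with hQ
    have hQt : Q ≤ Subgroup.zpowers t := by
      rintro _ ⟨y, _, rfl⟩; exact y.2
    have hQp : IsPGroup r Q := S.2.map _
    have hrp : ¬ r ∣ p * (p + 1) := by
      have hrp1 : r ∣ p - 1 := by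
        rcases ho with h | h
        · rw [← h]; exact hrt
        · rw [← h]; exact dvd_mul_of_dvd_right hrt 2
      intro hd
      rcases (Nat.Prime.dvd_mul hr).1 hd with h | h
      · have : r = p := (Nat.prime_dvd_prime_iff_eq hr hp).1 h
        subst this
        have := Nat.le_of_dvd (by omega) hrp1
        omega
      · have h4 : r ∣ (p + 1) - (p - 1) := Nat.dvd_sub h hrp1
        have h5 : (p + 1) - (p - 1) = 2 := by omega
        rw [h5] at h4
        exact hr2 ((Nat.prime_dvd_prime_iff_eq hr Nat.prime_two).1 h4)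
    have hQi : ¬ r ∣ Q.index := by
      have h1 : Q.relIndex (Subgroup.zpowers t) * (Subgroup.zpowers t).index = Q.index :=
        Subgroup.relIndex_mul_index hQt
      have h2 : (Subgroup.zpowers t).index = p * (p + 1) := by
        have h5 := Subgroup.card_mul_index (Subgroup.zpowers t)
        rw [Nat.card_zpowers, hcard] at h5
        exact Nat.eq_of_mul_eq_mul_left hot h5
      have h4 : ¬ r ∣ Q.relIndex (Subgroup.zpowers t) := by
        have h5 : Q.relIndex (Subgroup.zpowers t) = (S : Subgroup (Subgroup.zpowers t)).index := by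
          rw [Subgroup.relIndex, Subgroup.subgroupOf, hQ,
            Subgroup.comap_map_eq_self_of_injective (Subgroup.subtype_injective _)]
        rw [h5]
        exact S.not_dvd_index
      rw [← h1, h2]
      intro hd
      rcases (Nat.Prime.dvd_mul hr).1 hd with h | h
      · exact h4 h
      · exact hrp h
    obtain ⟨x, hx, hxq⟩ := CC2_sylow r Q X g hQp hQi (le_trans hQt (le_trans hzD hDX))
      (fun q hq => hgD q (hzD (hQt hq)))
    refine ⟨x, hx, ?_⟩
    have hQne : Q ≠ ⊥ := by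
      intro hb
      rw [hb, Subgroup.index_bot, hcard] at hQi
      exact hQi (dvd_mul_of_dvd_left hrt _)
    obtain ⟨s, hs1⟩ := Subgroup.ne_bot_iff_exists_ne_one.1 hQne
    exact hN (x * g) s (hQt s.2) (fun h => hs1 (Subtype.ext h)) (hQt (hxq s s.2))
  · -- the order of `t` is a power of two
    have h2k : ∃ k : ℕ, orderOf t = 2 ^ k := by
      have hpp : ∀ r : ℕ, r.Prime → r ∣ orderOf t → r = 2 := by
        intro r hr hrt
        by_contra h
        exact hodd ⟨r, hr, h, hrt⟩
      exact ⟨_, Nat.eq_prime_pow_of_unique_prime_dvd hot.ne' (fun {d} hd hdt => hpp d hd hdt)⟩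
    obtain ⟨k, hk⟩ := h2k
    have hk2 : 2 ≤ k := by
      by_contra h
      have h5 : k = 0 ∨ k = 1 := by omega
      rcases h5 with rfl | rfl
      · rw [hk] at h3; norm_num at h3
      · rw [hk] at h3; norm_num at h3
    have h4t : 4 ∣ orderOf t := by
      rw [hk]
      exact pow_dvd_pow 2 hk2
    have h4p : 4 ∣ p - 1 := by
      rcases ho with h | h
      · rw [← h]; exact h4t
      · rw [← h]; exact dvd_mul_of_dvd_right h4t 2
    set D : Subgroup A := Subgroup.closure ({t, a} : Set A) with hD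
    have hrel : (Subgroup.zpowers t).relIndex D = 2 := by
      rw [Subgroup.relIndex_eq_two_iff]
      refine ⟨a, haD, ?_⟩
      intro d hd
      rcases CC2_dih t a ha hta d hd with h | h
      · right
        refine ⟨h, ?_⟩
        intro h5
        apply ha1
        have := Subgroup.mul_mem _ (Subgroup.inv_mem _ h) h5
        simpa using this
      · left
        refine ⟨h, ?_⟩
        intro h5
        apply ha1
        have := Subgroup.mul_mem _ (Subgroup.inv_mem _ h5) h
        simpa using this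
    have hcD : Nat.card D = 2 ^ (k + 1) := by
      have h5 := Subgroup.relIndex_mul_relIndex ⊥ (Subgroup.zpowers t) D bot_le hzD
      rw [Subgroup.relIndex_bot_left, Subgroup.relIndex_bot_left, Nat.card_zpowers, hrel, hk] at h5
      rw [← h5, pow_succ]
    have hDi : ¬ 2 ∣ D.index := by
      have h5 := Subgroup.card_mul_index D
      rw [hcD, hcard, hk, pow_succ, mul_assoc] at h5
      have h6 : 2 * D.index = p * (p + 1) :=
        Nat.eq_of_mul_eq_mul_left (by positivity) h5
      rintro ⟨c, hc⟩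
      obtain ⟨q, hq⟩ := h4p
      have hp1 : p = 4 * q + 1 := by omega
      rw [hc, hp1] at h6
      have h7 : (4 * q + 1) * (4 * q + 1 + 1) = 4 * (4 * q * q + 3 * q) + 2 := by ring
      rw [h7] at h6
      omega
    obtain ⟨x, hx, hxq⟩ := CC2_sylow 2 D X g (IsPGroup.of_card hcD) hDi hDX hgD
    refine ⟨x, hx, ?_⟩
    have ht1 : t ≠ 1 := by
      rintro rfl
      rw [orderOf_one] at h3
      omega
    refine hN (x * g) t (Subgroup.mem_zpowers t) ht1 ?_
    refine CC2_sq t a ha hta _ (hxq t htD) ?_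
    intro h5
    have h6 : (x * g) * (t * t) * (x * g)⁻¹ = 1 := by
      rw [← h5]; group
    have h7 : t * t = 1 := by
      rw [conj_eq_one_iff] at h6
      exact h6
    have h8 : orderOf t ∣ 2 := orderOf_dvd_of_pow_eq_one (by rw [pow_two]; exact h7)
    have := Nat.le_of_dvd (by norm_num) h8
    omega

end CC2a

section CC2b

variable {p : ℕ}

/-- the diagonal matrix -/
def CC2_dg (u : (ZMod p)ˣ) : GL (Fin 2) (ZMod p) :=
  ⟨!![(u : ZMod p), 0; 0, 1], !![((u⁻¹ : (ZMod p)ˣ) : ZMod p), 0; 0, 1],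
    by rw [Matrix.mul_fin_two, ← Units.val_mul, mul_inv_cancel]; simp [Matrix.one_fin_two],
    by rw [Matrix.mul_fin_two, ← Units.val_mul, inv_mul_cancel]; simp [Matrix.one_fin_two]⟩

theorem CC2_dg_val (u : (ZMod p)ˣ) :
    (CC2_dg u : Matrix (Fin 2) (Fin 2) (ZMod p)) = !![(u : ZMod p), 0; 0, 1] := rfl

/-- the homomorphism to the torus -/
def CC2_del : (ZMod p)ˣ →* PG p where
  toFun u := pk (CC2_dg u)
  map_one' := by
    have e : (CC2_dg (1 : (ZMod p)ˣ)) = 1 := by
      apply Units.ext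
      rw [CC2_dg_val, Units.val_one, Units.val_one, Matrix.one_fin_two]
    rw [e]
    exact map_one _
  map_mul' := by
    intro u v
    have e : CC2_dg (u * v) = CC2_dg u * CC2_dg v := by
      apply Units.ext
      rw [Units.val_mul, CC2_dg_val, CC2_dg_val, CC2_dg_val, Matrix.mul_fin_two]
      simp
    rw [e]
    exact map_mul _ _ _

theorem CC2_del_apply (u : (ZMod p)ˣ) : CC2_del u = pk (CC2_dg u) := rfl

theorem CC2_pk_eq (g h : GL (Fin 2) (ZMod p)) (c : (ZMod p)ˣ)
    (hc : ∀ i j, (g : Matrix (Fin 2) (Fin 2) (ZMod p)) i j * (c : ZMod p) =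
      (h : Matrix (Fin 2) (Fin 2) (ZMod p)) i j) : pk g = pk h := by
  rw [Matrix.ProjGenLinGroup.mk_eq_mk_iff]
  refine ⟨c, Units.ext ?_⟩
  rw [Units.val_mul]
  have e4 : ((Matrix.GeneralLinearGroup.scalar (Fin 2) c : GL (Fin 2) (ZMod p)) :
      Matrix (Fin 2) (Fin 2) (ZMod p)) = Matrix.scalar (Fin 2) (c : ZMod p) := rfl
  rw [e4]
  ext i j
  rw [Matrix.scalar_apply, Matrix.mul_diagonal]
  exact hc i j

theorem CC2_eq_pk (g h : GL (Fin 2) (ZMod p)) (hgh : pk g = pk h) : ∃ c : (ZMod p)ˣ,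
    ∀ i j, (g : Matrix (Fin 2) (Fin 2) (ZMod p)) i j * (c : ZMod p) =
      (h : Matrix (Fin 2) (Fin 2) (ZMod p)) i j := by
  rw [Matrix.ProjGenLinGroup.mk_eq_mk_iff] at hgh
  obtain ⟨c, hc⟩ := hgh
  refine ⟨c, ?_⟩
  intro i j
  rw [← hc, Units.val_mul]
  have e4 : ((Matrix.GeneralLinearGroup.scalar (Fin 2) c : GL (Fin 2) (ZMod p)) :
      Matrix (Fin 2) (Fin 2) (ZMod p)) = Matrix.scalar (Fin 2) (c : ZMod p) := rfl
  rw [e4, Matrix.scalar_apply, Matrix.mul_diagonal]

theorem CC2_del_inj : Function.Injective (CC2_del : (ZMod p)ˣ →* PG p) := by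
  intro u v huv
  obtain ⟨c, hc⟩ := CC2_eq_pk _ _ huv
  have h1 := hc 0 0
  have h2 := hc 1 1
  simp [CC2_dg_val] at h1 h2
  apply Units.ext
  rw [← h1, h2, Units.val_one, mul_one]

/-- the element of order two -/
def CC2_J : SL(2, ZMod p) := ⟨!![0, 1; -1, 0], by simp [Matrix.det_fin_two]⟩

theorem CC2_sk (s : SL(2, ZMod p)) : sk s = pk (Matrix.SpecialLinearGroup.toGL s) := rfl

theorem CC2_mono [Fact p.Prime] (y : PG p) (u v : (ZMod p)ˣ) (hu : u ≠ 1)
    (h : y * CC2_del u * y⁻¹ = CC2_del v) :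
    (∃ w : (ZMod p)ˣ, y = CC2_del w) ∨ (∃ w : (ZMod p)ˣ, y * sk CC2_J = CC2_del w) := by
  obtain ⟨k, rfl⟩ := Matrix.ProjGenLinGroup.mk_surjective y
  have h1 : pk (k * CC2_dg u) = pk (CC2_dg v * k) := by
    have h2 : pk k * pk (CC2_dg u) = pk (CC2_dg v) * pk k := by
      rw [mul_inv_eq_iff_eq_mul] at h
      exact h
    change Matrix.ProjGenLinGroup.mk _ = Matrix.ProjGenLinGroup.mk _
    rw [map_mul, map_mul]
    exact h2
  obtain ⟨c, hc⟩ := CC2_eq_pk _ _ h1
  have hu' : (u : ZMod p) ≠ 1 := fun h => hu (Units.ext (by rw [h, Units.val_one]))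
  have hdet : (k : Matrix (Fin 2) (Fin 2) (ZMod p)).det ≠ 0 :=
    (Matrix.GeneralLinearGroup.det k).ne_zero
  set m : Matrix (Fin 2) (Fin 2) (ZMod p) := (k : Matrix (Fin 2) (Fin 2) (ZMod p)) with hm
  rw [Matrix.det_fin_two] at hdet
  have e00 := hc 0 0
  have e01 := hc 0 1
  have e10 := hc 1 0
  have e11 := hc 1 1
  simp only [Units.val_mul, CC2_dg_val, Matrix.mul_apply, Fin.sum_univ_two, ← hm] at e00 e01 e10 e11
  simp at e00 e01 e10 e11
  have hc0 : (c : ZMod p) ≠ 0 := c.ne_zero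
  by_cases h00 : m 0 0 = 0
  · right
    have h01 : m 0 1 ≠ 0 := by
      intro h; apply hdet; rw [h00, h]; ring
    have h10 : m 1 0 ≠ 0 := by
      intro h; apply hdet; rw [h00, h]; ring
    have huc : (u : ZMod p) * c = 1 := by
      have h3 : m 1 0 * ((u : ZMod p) * c - 1) = 0 := by linear_combination e10
      rcases mul_eq_zero.1 h3 with h4 | h4
      · exact absurd h4 h10
      · linear_combination h4
    have h11 : m 1 1 = 0 := by
      have h3 : m 1 1 * ((c : ZMod p) - 1) = 0 := by linear_combination e11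
      rcases mul_eq_zero.1 h3 with h4 | h4
      · exact h4
      · exfalso
        apply hu'
        have h5 : (c : ZMod p) = 1 := by linear_combination h4
        rw [h5, mul_one] at huc
        exact huc
    refine ⟨Units.mk0 (- m 0 1 / m 1 0) (div_ne_zero (neg_ne_zero.2 h01) h10), ?_⟩
    have h5 : pk k * sk CC2_J = pk (k * Matrix.SpecialLinearGroup.toGL CC2_J) := by
      change Matrix.ProjGenLinGroup.mk k *
        Matrix.ProjGenLinGroup.mk (Matrix.SpecialLinearGroup.toGL CC2_J) =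
        Matrix.ProjGenLinGroup.mk _
      rw [map_mul]
    change pk k * sk CC2_J = _
    rw [h5, CC2_del_apply]
    apply CC2_pk_eq _ _ (Units.mk0 (m 1 0)⁻¹ (inv_ne_zero h10))
    intro i j
    rw [Units.val_mul, ← hm, CC2_dg_val]
    have hJv : ((Matrix.SpecialLinearGroup.toGL CC2_J : GL (Fin 2) (ZMod p)) :
      Matrix (Fin 2) (Fin 2) (ZMod p)) = !![0, 1; -1, 0] := rfl
    rw [hJv, Units.val_mk0, Units.val_mk0]
    fin_cases i <;> fin_cases j
    · simp [Matrix.mul_apply, Fin.sum_univ_two]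
      field_simp
    · simp [Matrix.mul_apply, Fin.sum_univ_two, h00]
    · simp [Matrix.mul_apply, Fin.sum_univ_two, h11]
    · simp [Matrix.mul_apply, Fin.sum_univ_two]
      exact mul_inv_cancel₀ h10
  · left
    have huc : (u : ZMod p) * c = v := by
      have h3 : m 0 0 * ((u : ZMod p) * c - v) = 0 := by linear_combination e00
      rcases mul_eq_zero.1 h3 with h4 | h4
      · exact absurd h4 h00
      · linear_combination h4
    have h01 : m 0 1 = 0 := by
      have h3 : m 0 1 * ((c : ZMod p) * ((u : ZMod p) - 1)) = 0 := by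
        rw [← huc] at e01
        linear_combination - e01
      rcases mul_eq_zero.1 h3 with h4 | h4
      · exact h4
      · exfalso
        rcases mul_eq_zero.1 h4 with h5 | h5
        · exact hc0 h5
        · exact hu' (by linear_combination h5)
    have h11 : m 1 1 ≠ 0 := by
      intro h; apply hdet; rw [h01, h]; ring
    have hc1 : (c : ZMod p) = 1 := by
      have h3 : m 1 1 * ((c : ZMod p) - 1) = 0 := by linear_combination e11
      rcases mul_eq_zero.1 h3 with h4 | h4
      · exact absurd h4 h11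
      · linear_combination h4
    have h10 : m 1 0 = 0 := by
      rw [hc1, mul_one] at e10
      have h3 : m 1 0 * ((u : ZMod p) - 1) = 0 := by linear_combination e10
      rcases mul_eq_zero.1 h3 with h4 | h4
      · exact h4
      · exact absurd (by linear_combination h4) hu'
    refine ⟨Units.mk0 (m 0 0 / m 1 1) (div_ne_zero h00 h11), ?_⟩
    change pk k = _
    rw [CC2_del_apply]
    apply CC2_pk_eq _ _ (Units.mk0 (m 1 1)⁻¹ (inv_ne_zero h11))
    intro i j
    rw [← hm, CC2_dg_val, Units.val_mk0, Units.val_mk0]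
    fin_cases i <;> fin_cases j
    · simp
      field_simp
    · simp [h01]
    · simp [h10]
    · simp
      exact mul_inv_cancel₀ h11

theorem CC2_J_sq : (sk (CC2_J : SL(2, ZMod p))) * sk CC2_J = 1 := by
  have h5 : sk (CC2_J : SL(2, ZMod p)) * sk CC2_J = pk (Matrix.SpecialLinearGroup.toGL (CC2_J * CC2_J)) := by
    change Matrix.SpecialLinearGroup.toPGL _ * Matrix.SpecialLinearGroup.toPGL _ =
      Matrix.SpecialLinearGroup.toPGL (CC2_J * CC2_J)
    rw [map_mul]
  rw [h5]
  have h6 : pk (1 : GL (Fin 2) (ZMod p)) = 1 := map_one _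
  rw [← h6]
  apply CC2_pk_eq _ _ (-1)
  intro i j
  have hJv : ((Matrix.SpecialLinearGroup.toGL (CC2_J * CC2_J) : GL (Fin 2) (ZMod p)) :
      Matrix (Fin 2) (Fin 2) (ZMod p)) = !![0, 1; -1, 0] * !![0, 1; -1, 0] := rfl
  rw [hJv, Units.val_one]
  fin_cases i <;> fin_cases j <;> simp [Matrix.mul_apply, Fin.sum_univ_two]

theorem CC2_J_ne [Fact p.Prime] (u : (ZMod p)ˣ) : sk (CC2_J : SL(2, ZMod p)) ≠ CC2_del u := by
  intro h
  obtain ⟨c, hc⟩ := CC2_eq_pk _ _ h
  have h1 := hc 0 1
  have h2 := hc 1 1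
  have hJv : ((Matrix.SpecialLinearGroup.toGL CC2_J : GL (Fin 2) (ZMod p)) :
      Matrix (Fin 2) (Fin 2) (ZMod p)) = !![0, 1; -1, 0] := rfl
  rw [hJv, CC2_dg_val] at h1 h2
  simp at h1 h2

theorem CC2_J_conj (u : (ZMod p)ˣ) :
    sk (CC2_J : SL(2, ZMod p)) * CC2_del u * (sk CC2_J)⁻¹ = (CC2_del u)⁻¹ := by
  rw [mul_inv_eq_iff_eq_mul, ← map_inv CC2_del, CC2_del_apply, CC2_del_apply]
  have h5 : sk (CC2_J : SL(2, ZMod p)) * pk (CC2_dg u) =
      pk (Matrix.SpecialLinearGroup.toGL CC2_J * CC2_dg u) := by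
    change Matrix.ProjGenLinGroup.mk _ * Matrix.ProjGenLinGroup.mk _ = Matrix.ProjGenLinGroup.mk _
    rw [map_mul]
  have h6 : pk (CC2_dg u⁻¹) * sk (CC2_J : SL(2, ZMod p)) =
      pk (CC2_dg u⁻¹ * Matrix.SpecialLinearGroup.toGL CC2_J) := by
    change Matrix.ProjGenLinGroup.mk _ * Matrix.ProjGenLinGroup.mk _ = Matrix.ProjGenLinGroup.mk _
    rw [map_mul]
  rw [h5, h6]
  apply CC2_pk_eq _ _ u⁻¹
  intro i j
  have hJv : ((Matrix.SpecialLinearGroup.toGL CC2_J : GL (Fin 2) (ZMod p)) :
      Matrix (Fin 2) (Fin 2) (ZMod p)) = !![0, 1; -1, 0] := rfl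
  rw [Units.val_mul, Units.val_mul, hJv, CC2_dg_val, CC2_dg_val]
  fin_cases i <;> fin_cases j <;> simp [Matrix.mul_apply, Fin.sum_univ_two]

theorem CC2_uu_mul (a b : ZMod p) : uu a * uu b = uu (a + b) := by
  apply Subtype.ext
  rw [Matrix.SpecialLinearGroup.coe_mul]
  simp only [uu]
  rw [Matrix.mul_fin_two]
  ext i j
  fin_cases i <;> fin_cases j <;> simp [add_comm]

theorem CC2_uu_conj (u : (ZMod p)ˣ) (b : ZMod p) :
    CC2_del u * sk (uu b) * (CC2_del u)⁻¹ = sk (uu ((u : ZMod p) * b)) := by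
  rw [mul_inv_eq_iff_eq_mul, CC2_del_apply]
  have h5 : pk (CC2_dg u) * sk (uu b) = pk (CC2_dg u * Matrix.SpecialLinearGroup.toGL (uu b)) := by
    change Matrix.ProjGenLinGroup.mk _ * Matrix.ProjGenLinGroup.mk _ = Matrix.ProjGenLinGroup.mk _
    rw [map_mul]
  have h6 : sk (uu ((u : ZMod p) * b)) * pk (CC2_dg u) =
      pk (Matrix.SpecialLinearGroup.toGL (uu ((u : ZMod p) * b)) * CC2_dg u) := by
    change Matrix.ProjGenLinGroup.mk _ * Matrix.ProjGenLinGroup.mk _ = Matrix.ProjGenLinGroup.mk _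
    rw [map_mul]
  rw [h5, h6]
  apply CC2_pk_eq _ _ 1
  intro i j
  have h7 : ((Matrix.SpecialLinearGroup.toGL (uu b) : GL (Fin 2) (ZMod p)) :
      Matrix (Fin 2) (Fin 2) (ZMod p)) = !![1, b; 0, 1] := rfl
  have h8 : ((Matrix.SpecialLinearGroup.toGL (uu ((u : ZMod p) * b)) : GL (Fin 2) (ZMod p)) :
      Matrix (Fin 2) (Fin 2) (ZMod p)) = !![1, u * b; 0, 1] := rfl
  rw [Units.val_mul, Units.val_mul, h7, h8, CC2_dg_val]
  fin_cases i <;> fin_cases j <;> simp [Matrix.mul_apply, Fin.sum_univ_two]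

theorem CC2_comap_PS [Fact p.Prime] : (PS p).comap (CC2_del : (ZMod p)ˣ →* PG p) =
    (powMonoidHom 2 : (ZMod p)ˣ →* (ZMod p)ˣ).range := by
  ext u
  rw [Subgroup.mem_comap, CC2_del_apply, S02_mem]
  have hdet : Matrix.GeneralLinearGroup.det (CC2_dg u) = u := by
    apply Units.ext
    change (CC2_dg u : Matrix (Fin 2) (Fin 2) (ZMod p)).det = u
    rw [CC2_dg_val, Matrix.det_fin_two_of]; ring
  rw [hdet]
  rfl

theorem CC2_index [Fact p.Prime] (hp : 5 ≤ p) :
    ((PS p).comap (CC2_del : (ZMod p)ˣ →* PG p)).index = 2 := by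
  rw [CC2_comap_PS, IsCyclic.index_powMonoidHom_range, Nat.card_eq_fintype_card, ZMod.card_units]
  have h1 : p.Prime := Fact.out
  have h2 : p % 2 = 1 := by
    rcases h1.eq_two_or_odd with h | h
    · omega
    · exact h
  rw [Nat.gcd_comm]
  apply Nat.gcd_eq_left
  omega

/-- the unipotent subgroup -/
def CC2_u : Multiplicative (ZMod p) →* PG p where
  toFun b := sk (uu b.toAdd)
  map_one' := by
    have e : uu (0 : ZMod p) = 1 := by
      apply Subtype.ext
      simp [uu, Matrix.one_fin_two]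
    change sk (uu (0 : ZMod p)) = 1
    rw [e]
    exact map_one _
  map_mul' := by
    intro b c
    change sk (uu (b.toAdd + c.toAdd)) = sk (uu b.toAdd) * sk (uu c.toAdd)
    rw [← CC2_uu_mul]
    exact map_mul _ _ _

theorem CC2_u_apply (b : ZMod p) : CC2_u (Multiplicative.ofAdd b) = sk (uu b) := rfl

theorem CC2_u_inj : Function.Injective (CC2_u : Multiplicative (ZMod p) →* PG p) := by
  intro b c hbc
  obtain ⟨w, hw⟩ := CC2_eq_pk _ _ hbc
  have h7 : ∀ d : ZMod p, ((Matrix.SpecialLinearGroup.toGL (uu d) : GL (Fin 2) (ZMod p)) :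
      Matrix (Fin 2) (Fin 2) (ZMod p)) = !![1, d; 0, 1] := fun d => rfl
  have h1 := hw 0 0
  have h2 := hw 0 1
  rw [h7, h7] at h1 h2
  simp at h1 h2
  rw [h1, Units.val_one, mul_one] at h2
  exact h2

theorem CC2_u_ne [Fact p.Prime] : (CC2_u : Multiplicative (ZMod p) →* PG p).range ≠
    cj (sk CC2_J) (CC2_u : Multiplicative (ZMod p) →* PG p).range := by
  intro h
  have h1 : sk (uu (1 : ZMod p)) ∈ cj (sk CC2_J) (CC2_u : Multiplicative (ZMod p) →* PG p).range := by
    rw [← h]
    exact ⟨Multiplicative.ofAdd 1, rfl⟩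
  rw [mem_cj] at h1
  obtain ⟨b, hb⟩ := h1
  have h2 : sk (uu (1 : ZMod p) * CC2_J) = sk (CC2_J * uu b.toAdd) := by
    have h3 : sk (uu b.toAdd) = (sk CC2_J)⁻¹ * sk (uu (1 : ZMod p)) * sk CC2_J := hb
    change Matrix.SpecialLinearGroup.toPGL _ = Matrix.SpecialLinearGroup.toPGL _
    rw [map_mul, map_mul]
    change sk (uu (1 : ZMod p)) * sk CC2_J = sk CC2_J * sk (uu b.toAdd)
    rw [h3]
    group
  obtain ⟨w, hw⟩ := CC2_eq_pk _ _ h2
  have h3 := hw 0 0
  have h7 : ((Matrix.SpecialLinearGroup.toGL (uu (1 : ZMod p) * CC2_J) : GL (Fin 2) (ZMod p)) :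
      Matrix (Fin 2) (Fin 2) (ZMod p)) = !![1, 1; 0, 1] * !![0, 1; -1, 0] := rfl
  have h8 : ((Matrix.SpecialLinearGroup.toGL (CC2_J * uu b.toAdd) : GL (Fin 2) (ZMod p)) :
      Matrix (Fin 2) (Fin 2) (ZMod p)) = !![0, 1; -1, 0] * !![1, b.toAdd; 0, 1] := rfl
  rw [h7, h8] at h3
  simp [Matrix.mul_apply, Fin.sum_univ_two] at h3

end CC2b

/-- CC2 -/
theorem even_PS {p : ℕ} [Fact p.Prime] (hp : 5 ≤ p) (A : Subgroup (PG p)) (hA : PS p ≤ A)
    (h5 : p ≠ 5 ∨ A ≠ PS p) : Even2 A := by
  have hpp : p.Prime := Fact.out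
  obtain ⟨hPSn, hPSi, _, _, hcard, hcardPS, _, _⟩ := PS_basic hp
  have hfin : Finite (PG p) := Nat.finite_of_card_ne_zero (by
    rw [hcard]
    have h1 : 0 < p - 1 := by omega
    positivity)
  have hAcase : A = PS p ∨ A = ⊤ := by
    have h1 : (PS p).relIndex A * A.index = 2 := by
      rw [Subgroup.relIndex_mul_index hA, hPSi]
    have h2 : A.index ∣ 2 := ⟨_, by rw [mul_comm]; exact h1.symm⟩
    rcases (Nat.dvd_prime Nat.prime_two).1 h2 with h3 | h3
    · right; exact Subgroup.index_eq_one.1 h3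
    · left
      rw [h3] at h1
      have h4 : (PS p).relIndex A = 1 := by omega
      exact le_antisymm (Subgroup.relIndex_eq_one.1 h4) hA
  set M : Subgroup (ZMod p)ˣ := A.comap CC2_del with hM
  obtain ⟨m0, hm0⟩ := IsCyclic.exists_generator (α := M)
  have hμA : CC2_del (m0 : (ZMod p)ˣ) ∈ A := m0.2
  have haA : sk CC2_J ∈ A := hA (sk_mem _)
  set t : A := ⟨CC2_del (m0 : (ZMod p)ˣ), hμA⟩ with ht
  set a : A := ⟨sk CC2_J, haA⟩ with ha
  have hzt : ∀ s : A, s ∈ Subgroup.zpowers t ↔ ∃ w : (ZMod p)ˣ, (s : PG p) = CC2_del w := by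
    intro s
    constructor
    · rintro ⟨n, rfl⟩
      refine ⟨(m0 : (ZMod p)ˣ) ^ n, ?_⟩
      change ((t ^ n : A) : PG p) = _
      rw [Subgroup.coe_zpow, ht, map_zpow]
    · rintro ⟨w, hw⟩
      have hwM : w ∈ M := by
        rw [hM, Subgroup.mem_comap, ← hw]; exact s.2
      obtain ⟨n, hn⟩ := hm0 ⟨w, hwM⟩
      refine ⟨n, Subtype.ext ?_⟩
      change ((t ^ n : A) : PG p) = _
      rw [Subgroup.coe_zpow, ht, hw]
      change (CC2_del (m0 : (ZMod p)ˣ)) ^ n = _
      rw [← map_zpow]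
      have h1 : (m0 : (ZMod p)ˣ) ^ n = w := congrArg Subtype.val hn
      rw [h1]
  have hot : orderOf t = Nat.card M := by
    have h1 : orderOf t = orderOf (t : PG p) := (Subgroup.orderOf_coe t).symm
    have h2 : orderOf (CC2_del (m0 : (ZMod p)ˣ)) = orderOf (m0 : (ZMod p)ˣ) :=
      orderOf_injective CC2_del CC2_del_inj _
    rw [h1]
    change orderOf (CC2_del (m0 : (ZMod p)ˣ)) = _
    rw [h2, Subgroup.orderOf_coe]
    exact orderOf_eq_card_of_forall_mem_zpowers hm0
  have hMi := Subgroup.card_mul_index M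
  rw [Nat.card_eq_fintype_card (α := (ZMod p)ˣ), ZMod.card_units, ← hot] at hMi
  have hind : (A = PS p ∧ 2 * orderOf t = p - 1) ∨ (A = ⊤ ∧ orderOf t = p - 1) := by
    rcases hAcase with h | h
    · left
      refine ⟨h, ?_⟩
      have h1 : M.index = 2 := by rw [hM, h]; exact CC2_index hp
      rw [h1] at hMi
      omega
    · right
      refine ⟨h, ?_⟩
      have h1 : M.index = 1 := by rw [hM, h, Subgroup.comap_top, Subgroup.index_top]
      rw [h1, mul_one] at hMi
      exact hMi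
  have haa : a * a = 1 := Subtype.ext CC2_J_sq
  have ha1 : a ∉ Subgroup.zpowers t := by
    rw [hzt]
    rintro ⟨w, hw⟩
    exact CC2_J_ne w hw
  have hta : a * t * a⁻¹ = t⁻¹ := Subtype.ext (CC2_J_conj _)
  have hUrange : (CC2_u : Multiplicative (ZMod p) →* PG p).range ≤ A := by
    rintro _ ⟨b, rfl⟩
    exact hA (sk_mem _)
  have hUcard : Nat.card (CC2_u : Multiplicative (ZMod p) →* PG p).range = p := by
    rw [← Nat.card_congr (MonoidHom.ofInjective CC2_u_inj).toEquiv]
    have : Nat.card (Multiplicative (ZMod p)) = Nat.card (ZMod p) := rfl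
    rw [this, Nat.card_zmod]
  refine ⟨(CC2_u : Multiplicative (ZMod p) →* PG p).range.subgroupOf A, t, a, ?_, ?_, haa, ?_, hta, ?_, ?_⟩
  · rw [Nat.card_congr (Subgroup.subgroupOfEquivOfLe hUrange).toEquiv, hUcard]
    exact hpp.odd_of_ne_two (by omega)
  · intro u hu
    rw [Subgroup.mem_subgroupOf] at hu ⊢
    obtain ⟨b, hb⟩ := hu
    refine ⟨Multiplicative.ofAdd (((m0 : (ZMod p)ˣ) : ZMod p) * b.toAdd), ?_⟩
    rw [CC2_u_apply, ← CC2_uu_conj]
    change _ = CC2_del (m0 : (ZMod p)ˣ) * (u : PG p) * (CC2_del (m0 : (ZMod p)ˣ))⁻¹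
    rw [← hb]
    rfl
  · intro h
    apply ha1
    rw [h]
    exact Subgroup.one_mem _
  · set C : Subgroup A := Subgroup.closure
      (((CC2_u : Multiplicative (ZMod p) →* PG p).range.subgroupOf A : Set A) ∪ {t, a}) with hC
    have hPSC : PS p ≤ C.map A.subtype := by
      refine le_trans (two_unip hp _ (cj (sk CC2_J) (CC2_u : Multiplicative (ZMod p) →* PG p).range)
        hUcard ?_ CC2_u_ne) ?_
      · rw [cj, Nat.card_congr ((CC2_u : Multiplicative (ZMod p) →* PG p).range.equivMapOfInjective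
          (MulAut.conj (sk CC2_J)).toMonoidHom (MulAut.conj (sk CC2_J)).injective).symm.toEquiv]
        exact hUcard
      · have hUC : (CC2_u : Multiplicative (ZMod p) →* PG p).range ≤ C.map A.subtype := by
          intro y hy
          exact ⟨⟨y, hUrange hy⟩, Subgroup.subset_closure (Or.inl hy), rfl⟩
        have haC : sk CC2_J ∈ C.map A.subtype :=
          ⟨a, Subgroup.subset_closure (Or.inr (by simp)), rfl⟩
        apply sup_le hUC
        intro y hy
        rw [mem_cj] at hy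
        have h1 := hUC hy
        have h2 := Subgroup.mul_mem _ (Subgroup.mul_mem _ haC h1) (Subgroup.inv_mem _ haC)
        have e : sk CC2_J * ((sk CC2_J)⁻¹ * y * sk CC2_J) * (sk CC2_J)⁻¹ = y := by group
        rwa [e] at h2
    have hAC : A ≤ C.map A.subtype := by
      rcases hind with ⟨h, _⟩ | ⟨h, ho⟩
      · intro y hy
        rw [h] at hy
        exact hPSC hy
      · intro y hy
        have htC : (t : PG p) ∈ C.map A.subtype :=
          ⟨t, Subgroup.subset_closure (Or.inr (by simp)), rfl⟩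
        have htP : (t : PG p) ∉ PS p := by
          intro h1
          have h2 : (⊤ : Subgroup (ZMod p)ˣ) ≤ (PS p).comap CC2_del := by
            intro w _
            have hwM : w ∈ M := by rw [hM, h]; exact Subgroup.mem_top _
            obtain ⟨n, hn⟩ := hm0 ⟨w, hwM⟩
            have h3 : (m0 : (ZMod p)ˣ) ^ n = w := congrArg Subtype.val hn
            rw [← h3, Subgroup.mem_comap, map_zpow]
            exact Subgroup.zpow_mem _ h1 n
          have h3 := CC2_index hp
          rw [top_le_iff.1 h2, Subgroup.index_top] at h3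
          omega
        by_cases hyP : y ∈ PS p
        · exact hPSC hyP
        · have h1 : y * (t : PG p) ∈ PS p := by
            rw [Subgroup.mul_mem_iff_of_index_two hPSi]
            tauto
          have h2 := Subgroup.mul_mem _ (hPSC h1) (Subgroup.inv_mem _ htC)
          rwa [mul_inv_cancel_right] at h2
    rw [eq_top_iff]
    intro x _
    obtain ⟨y, hy, hyx⟩ := hAC x.2
    have : y = x := Subtype.ext hyx
    rwa [← this]
  · refine CC2_core p hpp hp t a haa ha1 hta ?_ ?_ ?_ ?_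
    · rcases hind with ⟨h, ho⟩ | ⟨h, ho⟩
      · have h1 : 2 * Nat.card A = p * (p - 1) * (p + 1) := by rw [h]; exact hcardPS
        rw [← ho] at h1
        have h2 : 2 * Nat.card A = 2 * (orderOf t * (p * (p + 1))) := by rw [h1]; ring
        omega
      · have h1 : Nat.card A = p * (p - 1) * (p + 1) := by
          rw [h, Subgroup.card_top]; exact hcard
        rw [h1, ← ho]; ring
    · rcases hind with ⟨h, ho⟩ | ⟨h, ho⟩
      · exact Or.inr ho
      · exact Or.inl ho
    · rcases hind with ⟨h, ho⟩ | ⟨h, ho⟩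
      · have hp5 : p ≠ 5 := by
          rcases h5 with h5 | h5
          · exact h5
          · exact absurd h h5
        have hp6 : p ≠ 6 := by
          rintro rfl
          exact absurd hpp (by norm_num)
        omega
      · omega
    · intro y s hs hs1 hys
      rw [hzt] at hs hys
      obtain ⟨u, hu⟩ := hs
      obtain ⟨v, hv⟩ := hys
      have hu1 : u ≠ 1 := by
        rintro rfl
        apply hs1
        apply Subtype.ext
        rw [hu, map_one]
        rfl
      have h1 : (y : PG p) * CC2_del u * (y : PG p)⁻¹ = CC2_del v := by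
        rw [← hu, ← hv]; rfl
      have hz : Subgroup.zpowers t ≤ Subgroup.closure ({t, a} : Set A) := by
        rw [Subgroup.zpowers_le]
        exact Subgroup.subset_closure (by simp)
      rcases CC2_mono (y : PG p) u v hu1 h1 with ⟨w, hw⟩ | ⟨w, hw⟩
      · exact hz ((hzt y).2 ⟨w, hw⟩)
      · have h2 : y * a ∈ Subgroup.zpowers t := (hzt _).2 ⟨w, hw⟩
        have h3 : a ∈ Subgroup.closure ({t, a} : Set A) := Subgroup.subset_closure (by simp)
        have h4 := Subgroup.mul_mem _ (hz h2) (Subgroup.inv_mem _ h3)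
        rwa [mul_inv_cancel_right] at h4

end MX
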