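import Pool.Agent.helper81.MX.Defs2

/-!
# Row E01 of project MX
-/

set_option autoImplicit false

namespace MX

open scoped MatrixGroups

section E01

variable {p : ℕ} [Fact p.Prime]

theorem E01_CH {R : Type*} [CommRing R] (M : Matrix (Fin 2) (Fin 2) R) (h : M.det = 1) :
    M * M = M.trace • M - 1 := by
  rw [Matrix.det_fin_two] at h
  ext i j
  fin_cases i <;> fin_cases j <;>
    simp [Matrix.mul_apply, Fin.sum_univ_two, Matrix.trace_fin_two] <;>
    first
      | linear_combination -h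
      | ring

/-- scalar elements -/
theorem E01_scalar (g : SL(2, ZMod p)) (r : ZMod p)
    (h : (g : Matrix (Fin 2) (Fin 2) (ZMod p)) = r • (1 : Matrix (Fin 2) (Fin 2) (ZMod p))) :
    sk g = 1 := by
  have h1 : g ∈ (Matrix.SpecialLinearGroup.toPGL (n := Fin 2) (R := ZMod p)).ker := by
    rw [Matrix.SpecialLinearGroup.toPGL_ker, Matrix.SpecialLinearGroup.mem_center_iff]
    refine ⟨r, ?_, ?_⟩
    · have h2 := g.det_coe
      rw [h, Matrix.det_smul, Matrix.det_one, mul_one] at h2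
      exact h2
    · rw [h]
      ext i j
      simp [Matrix.scalar_apply, Matrix.diagonal_apply, Matrix.one_apply]
  exact h1

theorem E01_of_one (g : SL(2, ZMod p)) (h : sk g = 1) : ∃ r : ZMod p, r ^ 2 = 1 ∧
    (g : Matrix (Fin 2) (Fin 2) (ZMod p)) = r • (1 : Matrix (Fin 2) (Fin 2) (ZMod p)) := by
  have h1 : g ∈ (Matrix.SpecialLinearGroup.toPGL (n := Fin 2) (R := ZMod p)).ker := h
  rw [Matrix.SpecialLinearGroup.toPGL_ker, Matrix.SpecialLinearGroup.mem_center_iff] at h1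
  obtain ⟨r, hr, hr2⟩ := h1
  refine ⟨r, ?_, ?_⟩
  · rw [Fintype.card_fin] at hr
    exact hr
  · rw [← hr2]
    ext i j
    simp [Matrix.scalar_apply, Matrix.diagonal_apply, Matrix.one_apply]

/-- the trace of an element with trivial class -/
theorem E01_trace (g : SL(2, ZMod p)) (h : sk g = 1) :
    (g : Matrix (Fin 2) (Fin 2) (ZMod p)).trace ^ 2 = 4 := by
  obtain ⟨r, hr, hg⟩ := E01_of_one g h
  rw [hg, Matrix.trace_smul, Matrix.trace_one, Fintype.card_fin]
  rw [smul_eq_mul]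
  push_cast
  linear_combination 4 * hr

/-- a nontrivial class: a multiple which is scalar is zero -/
theorem E01_zero (g : SL(2, ZMod p)) (h : sk g ≠ 1) (u v : ZMod p)
    (huv : u • (g : Matrix (Fin 2) (Fin 2) (ZMod p)) =
      v • (1 : Matrix (Fin 2) (Fin 2) (ZMod p))) : u = 0 := by
  by_contra hu
  apply h
  apply E01_scalar g (u⁻¹ * v)
  rw [mul_smul, ← huv, smul_smul, inv_mul_cancel₀ hu, one_smul]

theorem E01_pow2 (g : SL(2, ZMod p)) (t : ZMod p)
    (ht : (g : Matrix (Fin 2) (Fin 2) (ZMod p)).trace = t) :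
    ((g ^ 2 : SL(2, ZMod p)) : Matrix (Fin 2) (Fin 2) (ZMod p)) =
      t • (g : Matrix (Fin 2) (Fin 2) (ZMod p)) - 1 := by
  rw [pow_two, Matrix.SpecialLinearGroup.coe_mul, E01_CH _ g.det_coe, ht]

theorem E01_pow3 (g : SL(2, ZMod p)) (t : ZMod p)
    (ht : (g : Matrix (Fin 2) (Fin 2) (ZMod p)).trace = t) :
    ((g ^ 3 : SL(2, ZMod p)) : Matrix (Fin 2) (Fin 2) (ZMod p)) =
      (t ^ 2 - 1) • (g : Matrix (Fin 2) (Fin 2) (ZMod p)) -
        t • (1 : Matrix (Fin 2) (Fin 2) (ZMod p)) := by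
  rw [pow_succ, Matrix.SpecialLinearGroup.coe_mul, E01_pow2 g t ht, sub_mul, smul_mul_assoc,
    E01_CH _ g.det_coe, ht, one_mul, smul_sub, smul_smul]
  rw [sub_smul, one_smul, ← pow_two]
  abel

theorem E01_pow5 (g : SL(2, ZMod p)) (t : ZMod p)
    (ht : (g : Matrix (Fin 2) (Fin 2) (ZMod p)).trace = t) :
    ((g ^ 5 : SL(2, ZMod p)) : Matrix (Fin 2) (Fin 2) (ZMod p)) =
      ((t ^ 2 - t - 1) * (t ^ 2 + t - 1)) • (g : Matrix (Fin 2) (Fin 2) (ZMod p)) -
        (t ^ 3 - 2 * t) • (1 : Matrix (Fin 2) (Fin 2) (ZMod p)) := by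
  have h5 : g ^ 5 = g ^ 3 * g ^ 2 := by rw [← pow_add]
  have hCH := E01_CH _ g.det_coe
  rw [ht] at hCH
  rw [h5, Matrix.SpecialLinearGroup.coe_mul, E01_pow3 g t ht, E01_pow2 g t ht]
  have h1 : ((t ^ 2 - 1) • (g : Matrix (Fin 2) (Fin 2) (ZMod p)) -
        t • (1 : Matrix (Fin 2) (Fin 2) (ZMod p))) *
      (t • (g : Matrix (Fin 2) (Fin 2) (ZMod p)) - 1) =
      ((t ^ 2 - 1) * t) • ((g : Matrix (Fin 2) (Fin 2) (ZMod p)) * g) -
      (t ^ 2 - 1) • (g : Matrix (Fin 2) (Fin 2) (ZMod p)) -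
      (t * t) • (g : Matrix (Fin 2) (Fin 2) (ZMod p)) +
      t • (1 : Matrix (Fin 2) (Fin 2) (ZMod p)) := by
    rw [sub_mul, mul_sub, mul_sub]
    simp only [smul_mul_assoc, mul_smul_comm, one_mul, mul_one]
    module
  rw [h1, hCH]
  module

/-- orders and traces -/
theorem E01_ord2 (g : SL(2, ZMod p)) (h : orderOf (sk g) = 2) :
    (g : Matrix (Fin 2) (Fin 2) (ZMod p)).trace = 0 := by
  have h1 : sk g ≠ 1 := by
    intro h1
    rw [h1, orderOf_one] at h
    omega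
  have h2 : sk (g ^ 2) = 1 := by
    have h3 : sk (g ^ 2) = sk g ^ 2 := map_pow _ g 2
    have h4 := pow_orderOf_eq_one (sk g)
    rw [h] at h4
    rw [h3, h4]
  obtain ⟨r, _, hr⟩ := E01_of_one _ h2
  rw [E01_pow2 g _ rfl] at hr
  refine E01_zero g h1 _ (r + 1) ?_
  rw [add_smul, one_smul, ← hr, sub_add_cancel]

theorem E01_ord3 (g : SL(2, ZMod p)) (h : orderOf (sk g) = 3) :
    (g : Matrix (Fin 2) (Fin 2) (ZMod p)).trace ^ 2 = 1 := by
  have h1 : sk g ≠ 1 := by
    intro h1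
    rw [h1, orderOf_one] at h
    omega
  have h2 : sk (g ^ 3) = 1 := by
    have h3 : sk (g ^ 3) = sk g ^ 3 := map_pow _ g 3
    have h4 := pow_orderOf_eq_one (sk g)
    rw [h] at h4
    rw [h3, h4]
  obtain ⟨r, _, hr⟩ := E01_of_one _ h2
  rw [E01_pow3 g _ rfl] at hr
  rw [← sub_eq_zero]
  refine E01_zero g h1 _ (r + (g : Matrix (Fin 2) (Fin 2) (ZMod p)).trace) ?_
  rw [add_smul, ← hr, sub_add_cancel]

theorem E01_ord5 (g : SL(2, ZMod p)) (h : orderOf (sk g) = 5) :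
    ((g : Matrix (Fin 2) (Fin 2) (ZMod p)).trace ^ 2 -
      (g : Matrix (Fin 2) (Fin 2) (ZMod p)).trace - 1) *
    ((g : Matrix (Fin 2) (Fin 2) (ZMod p)).trace ^ 2 +
      (g : Matrix (Fin 2) (Fin 2) (ZMod p)).trace - 1) = 0 := by
  have h1 : sk g ≠ 1 := by
    intro h1
    rw [h1, orderOf_one] at h
    omega
  have h2 : sk (g ^ 5) = 1 := by
    have h3 : sk (g ^ 5) = sk g ^ 5 := map_pow _ g 5
    have h4 := pow_orderOf_eq_one (sk g)
    rw [h] at h4
    rw [h3, h4]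
  obtain ⟨r, _, hr⟩ := E01_of_one _ h2
  rw [E01_pow5 g _ rfl] at hr
  refine E01_zero g h1 _ (r + ((g : Matrix (Fin 2) (Fin 2) (ZMod p)).trace ^ 3 -
    2 * (g : Matrix (Fin 2) (Fin 2) (ZMod p)).trace)) ?_
  rw [add_smul, ← hr, sub_add_cancel]

theorem E01_nat (hp : 5 < p) (n : ℕ) (hn : 0 < n) (hn' : n ≤ 5) : (n : ZMod p) ≠ 0 := by
  rw [Ne, ZMod.natCast_eq_zero_iff]
  intro h
  have := Nat.le_of_dvd hn h
  omega

theorem E01_ord2' (hp : 5 < p) (g : SL(2, ZMod p))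
    (h : (g : Matrix (Fin 2) (Fin 2) (ZMod p)).trace = 0) : orderOf (sk g) = 2 := by
  have : Fact (Nat.Prime 2) := ⟨Nat.prime_two⟩
  refine orderOf_eq_prime ?_ ?_
  · have h3 : sk (g ^ 2) = sk g ^ 2 := map_pow _ g 2
    rw [← h3]
    apply E01_scalar _ (-1)
    rw [E01_pow2 g 0 h, zero_smul, zero_sub, neg_smul, one_smul]
  · intro h1
    have h2 := E01_trace g h1
    rw [h] at h2
    apply E01_nat hp 4 (by norm_num) (by norm_num)
    push_cast
    rw [← h2]
    ring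

theorem E01_ord3' (hp : 5 < p) (g : SL(2, ZMod p))
    (h : (g : Matrix (Fin 2) (Fin 2) (ZMod p)).trace = 1) : orderOf (sk g) = 3 := by
  have : Fact (Nat.Prime 3) := ⟨Nat.prime_three⟩
  refine orderOf_eq_prime ?_ ?_
  · have h3 : sk (g ^ 3) = sk g ^ 3 := map_pow _ g 3
    rw [← h3]
    apply E01_scalar _ (-1)
    rw [E01_pow3 g 1 h]
    norm_num
  · intro h1
    have h2 := E01_trace g h1
    rw [h] at h2
    apply E01_nat hp 3 (by norm_num) (by norm_num)
    push_cast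
    linear_combination -h2

theorem E01_ord5' (hp : 5 < p) (g : SL(2, ZMod p)) (c : ZMod p) (hc : c ^ 2 = c + 1)
    (h : (g : Matrix (Fin 2) (Fin 2) (ZMod p)).trace = c) : orderOf (sk g) = 5 := by
  have : Fact (Nat.Prime 5) := ⟨Nat.prime_five⟩
  refine orderOf_eq_prime ?_ ?_
  · have h3 : sk (g ^ 5) = sk g ^ 5 := map_pow _ g 5
    rw [← h3]
    apply E01_scalar _ (-(c ^ 3 - 2 * c))
    rw [E01_pow5 g c h]
    have h4 : c ^ 2 - c - 1 = 0 := by linear_combination hc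
    rw [h4, zero_mul, zero_smul, zero_sub, neg_smul]
  · intro h1
    have h2 := E01_trace g h1
    rw [h, hc] at h2
    have h4 : c = 3 := by linear_combination h2
    rw [h4] at hc
    apply E01_nat hp 5 (by norm_num) (by norm_num)
    push_cast
    linear_combination hc

theorem E01_neg (g : SL(2, ZMod p)) : sk (-g) = sk g := by
  have h1 : -g = (-1) * g := by
    ext i j
    simp
  rw [h1]
  have h2 : sk ((-1 : SL(2, ZMod p)) * g) = sk (-1 : SL(2, ZMod p)) * sk g := map_mul _ _ _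
  rw [h2, E01_scalar (-1) (-1) (by ext i j; simp), one_mul]

omit [Fact p.Prime] in
theorem E01_lift {X : Subgroup (PG p)} (hX : X ≤ PS p) {a : PG p} (ha : a ∈ X) :
    ∃ x : SL(2, ZMod p), sk x = a := by
  obtain ⟨b, hb⟩ := hX ha
  obtain ⟨x, rfl⟩ := QuotientGroup.mk_surjective b
  exact ⟨x, hb⟩

/-- the second pair -/
theorem E01_second (x y : SL(2, ZMod p)) (t : ZMod p)
    (hx : (x : Matrix (Fin 2) (Fin 2) (ZMod p)).trace = 0)
    (hy : (y : Matrix (Fin 2) (Fin 2) (ZMod p)).trace = 1)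
    (hxy : ((x * y : SL(2, ZMod p)) : Matrix (Fin 2) (Fin 2) (ZMod p)).trace = t)
    (ht : t ^ 2 = t + 1) :
    ((y * x * y * (y * x * y) * x : SL(2, ZMod p)) :
      Matrix (Fin 2) (Fin 2) (ZMod p)).trace = 1 ∧
    ((x * (y * x * y * (y * x * y) * x) : SL(2, ZMod p)) :
      Matrix (Fin 2) (Fin 2) (ZMod p)).trace = 1 - t := by
  obtain ⟨X, hX⟩ : ∃ X : Matrix (Fin 2) (Fin 2) (ZMod p), X = x := ⟨_, rfl⟩
  obtain ⟨Y, hY⟩ : ∃ Y : Matrix (Fin 2) (Fin 2) (ZMod p), Y = y := ⟨_, rfl⟩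
  have dX : X.det = 1 := by rw [hX]; exact x.det_coe
  have dY : Y.det = 1 := by rw [hY]; exact y.det_coe
  have X2 : X * X = -1 := by
    rw [E01_CH X dX, hX, hx, zero_smul, zero_sub]
  have Y2 : Y * Y = Y - 1 := by
    rw [E01_CH Y dY, hY, hy, one_smul]
  have tXY : (X * Y).trace = t := by
    rw [← hxy, Matrix.SpecialLinearGroup.coe_mul, hX, hY]
  have tYX : (Y * X).trace = t := by
    rw [Matrix.trace_mul_comm, tXY]
  have dYX : (Y * X).det = 1 := by rw [Matrix.det_mul, dX, dY, one_mul]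
  have hYXY : Y * X * Y = X + t • Y := by
    have h1 := E01_CH (Y * X) dYX
    rw [tYX] at h1
    have h2 : (Y * X) * (Y * X) * X = (t • (Y * X) - 1) * X := by rw [h1]
    rw [sub_mul, one_mul, smul_mul_assoc, mul_assoc Y X X, X2, mul_assoc (Y * X) (Y * X) X,
      mul_assoc Y X X, X2] at h2
    rw [mul_neg, mul_neg, mul_one, smul_neg] at h2
    have h3 : Y * X * Y = -(-(t • Y) - X) := by
      rw [← h2, neg_neg]
    rw [h3]
    abel
  have tX : X.trace = 0 := by rw [hX]; exact hx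
  have tY : Y.trace = 1 := by rw [hY]; exact hy
  have t1 : (1 : Matrix (Fin 2) (Fin 2) (ZMod p)).trace = 2 := by
    rw [Matrix.trace_one, Fintype.card_fin]
    norm_num
  have tXX : (X * X).trace = -2 := by rw [X2, Matrix.trace_neg, t1]
  have tYY : (Y * Y).trace = -1 := by
    rw [Y2, Matrix.trace_sub, t1, tY]
    norm_num
  constructor
  · rw [Matrix.SpecialLinearGroup.coe_mul, Matrix.SpecialLinearGroup.coe_mul,
      Matrix.SpecialLinearGroup.coe_mul, Matrix.SpecialLinearGroup.coe_mul, ← hX, ← hY, hYXY]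
    have h1 : (X + t • Y) * (X + t • Y) * X =
        (X * X) * X + t • (X * Y * X) + t • (Y * (X * X)) + (t * t) • ((Y * Y) * X) := by
      rw [add_mul, mul_add, mul_add, smul_mul_assoc, smul_mul_assoc, mul_smul_comm, mul_smul_comm,
        smul_smul]
      rw [add_mul, add_mul, add_mul, smul_mul_assoc, smul_mul_assoc, smul_mul_assoc,
        mul_assoc Y X X]
      abel
    have h2 : (X * Y * X).trace = -1 := by
      rw [Matrix.trace_mul_comm, ← mul_assoc, X2, neg_mul, one_mul, Matrix.trace_neg, tY]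
    rw [h1, Matrix.trace_add, Matrix.trace_add, Matrix.trace_add, Matrix.trace_smul,
      Matrix.trace_smul, Matrix.trace_smul, h2, X2, Y2, neg_mul, one_mul, mul_neg, mul_one,
      Matrix.trace_neg, Matrix.trace_neg, sub_mul, one_mul, Matrix.trace_sub, tX, tY, tYX]
    simp only [smul_eq_mul]
    linear_combination (t + 1) * ht
  · have h0 : (x * (y * x * y * (y * x * y) * x) : SL(2, ZMod p)) =
        (x * (y * x * y * (y * x * y))) * x := by
      rw [mul_assoc x]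
    rw [h0, Matrix.SpecialLinearGroup.coe_mul, Matrix.trace_mul_comm,
      Matrix.SpecialLinearGroup.coe_mul, Matrix.SpecialLinearGroup.coe_mul,
      Matrix.SpecialLinearGroup.coe_mul, Matrix.SpecialLinearGroup.coe_mul, ← hX, ← hY, hYXY,
      ← mul_assoc, X2, neg_mul, one_mul, Matrix.trace_neg]
    have h1 : (X + t • Y) * (X + t • Y) =
        (X * X) + t • (X * Y) + t • (Y * X) + (t * t) • (Y * Y) := by
      rw [add_mul, mul_add, mul_add, smul_mul_assoc, smul_mul_assoc, mul_smul_comm, mul_smul_comm,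
        smul_smul]
      abel
    rw [h1, Matrix.trace_add, Matrix.trace_add, Matrix.trace_add, Matrix.trace_smul,
      Matrix.trace_smul, Matrix.trace_smul, tXX, tYY, tXY, tYX]
    simp only [smul_eq_mul]
    linear_combination -ht

end E01

theorem ico_root {p : ℕ} [Fact p.Prime] (hp : 5 < p) (X : Subgroup (PG p)) (hX : X ≤ PS p)
    (hI : Ico X) (c : ZMod p) (hc : c ^ 2 = c + 1) :
    ∃ x y : SL(2, ZMod p), sk x ∈ X ∧ sk y ∈ X ∧
      (x : Matrix (Fin 2) (Fin 2) (ZMod p)).trace = 0 ∧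
      (y : Matrix (Fin 2) (Fin 2) (ZMod p)).trace = 1 ∧
      ((x * y : SL(2, ZMod p)) : Matrix (Fin 2) (Fin 2) (ZMod p)).trace = c ∧
      X = Subgroup.closure ({sk x, sk y} : Set (PG p)) := by
  obtain ⟨_, ⟨a, b, ha, hb, hab⟩, hgen, _⟩ := hI
  -- reduction to the existence of a pair with the right traces
  suffices h : ∃ x y : SL(2, ZMod p), sk x ∈ X ∧ sk y ∈ X ∧
      (x : Matrix (Fin 2) (Fin 2) (ZMod p)).trace = 0 ∧
      (y : Matrix (Fin 2) (Fin 2) (ZMod p)).trace = 1 ∧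
      ((x * y : SL(2, ZMod p)) : Matrix (Fin 2) (Fin 2) (ZMod p)).trace = c by
    obtain ⟨x, y, hx, hy, tx, ty, txy⟩ := h
    refine ⟨x, y, hx, hy, tx, ty, txy, ?_⟩
    have h1 := hgen ⟨sk x, hx⟩ ⟨sk y, hy⟩ (by rw [Subgroup.orderOf_mk]; exact E01_ord2' hp x tx)
      (by rw [Subgroup.orderOf_mk]; exact E01_ord3' hp y ty) (by
        have h2 : (⟨sk x, hx⟩ * ⟨sk y, hy⟩ : X) = ⟨sk (x * y), by
          have h3 : sk (x * y) = sk x * sk y := map_mul _ _ _
          rw [h3]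
          exact X.mul_mem hx hy⟩ := by
          apply Subtype.ext
          exact (map_mul _ _ _).symm
        rw [h2, Subgroup.orderOf_mk]
        exact E01_ord5' hp (x * y) c hc txy)
    have h2 : (Subgroup.closure ({⟨sk x, hx⟩, ⟨sk y, hy⟩} : Set X)).map X.subtype = X := by
      rw [h1, ← MonoidHom.range_eq_map, Subgroup.range_subtype]
    rw [MonoidHom.map_closure, Set.image_pair] at h2
    exact h2.symm
  obtain ⟨x, hx⟩ := E01_lift hX a.2
  obtain ⟨y, hy⟩ := E01_lift hX b.2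
  have ox : orderOf (sk x) = 2 := by rw [hx, Subgroup.orderOf_coe, ha]
  have oy : orderOf (sk y) = 3 := by rw [hy, Subgroup.orderOf_coe, hb]
  have oxy : orderOf (sk (x * y)) = 5 := by
    have h3 : sk (x * y) = sk x * sk y := map_mul _ _ _
    rw [h3, hx, hy, ← Subgroup.coe_mul, Subgroup.orderOf_coe, hab]
  have mx : sk x ∈ X := by rw [hx]; exact a.2
  have my : sk y ∈ X := by rw [hy]; exact b.2
  -- the sign of y
  obtain ⟨y1, my1, ty1, oxy1⟩ : ∃ y1 : SL(2, ZMod p), sk y1 ∈ X ∧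
      (y1 : Matrix (Fin 2) (Fin 2) (ZMod p)).trace = 1 ∧ orderOf (sk (x * y1)) = 5 := by
    have h1 := E01_ord3 y oy
    have h1' : ((y : Matrix (Fin 2) (Fin 2) (ZMod p)).trace - 1) *
        ((y : Matrix (Fin 2) (Fin 2) (ZMod p)).trace + 1) = 0 := by linear_combination h1
    rcases mul_eq_zero.1 h1' with h2 | h2
    · exact ⟨y, my, sub_eq_zero.1 h2, oxy⟩
    · rw [add_eq_zero_iff_eq_neg] at h2
      refine ⟨-y, by rw [E01_neg]; exact my, ?_, ?_⟩
      · rw [Matrix.SpecialLinearGroup.coe_neg, Matrix.trace_neg, h2, neg_neg]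
      · rw [mul_neg, E01_neg]
        exact oxy
  -- the sign of x
  obtain ⟨x1, mx1, tx1, t, txy1, ht⟩ : ∃ x1 : SL(2, ZMod p), sk x1 ∈ X ∧
      (x1 : Matrix (Fin 2) (Fin 2) (ZMod p)).trace = 0 ∧ ∃ t : ZMod p,
      ((x1 * y1 : SL(2, ZMod p)) : Matrix (Fin 2) (Fin 2) (ZMod p)).trace = t ∧
      t ^ 2 = t + 1 := by
    have h1 := E01_ord5 (x * y1) oxy1
    rcases mul_eq_zero.1 h1 with h2 | h2
    · exact ⟨x, mx, E01_ord2 x ox, _, rfl, by linear_combination h2⟩
    · refine ⟨-x, by rw [E01_neg]; exact mx, ?_, _, rfl, ?_⟩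
      · rw [Matrix.SpecialLinearGroup.coe_neg, Matrix.trace_neg, E01_ord2 x ox, neg_zero]
      · rw [neg_mul, Matrix.SpecialLinearGroup.coe_neg, Matrix.trace_neg]
        linear_combination h2
  have htc : (t - c) * (t + c - 1) = 0 := by linear_combination ht - hc
  rcases mul_eq_zero.1 htc with h1 | h1
  · refine ⟨x1, y1, mx1, my1, tx1, ty1, ?_⟩
    rw [txy1]
    linear_combination h1
  · obtain ⟨h2, h3⟩ := E01_second x1 y1 t tx1 ty1 txy1 ht
    refine ⟨x1, y1 * x1 * y1 * (y1 * x1 * y1) * x1, mx1, ?_, tx1, h2, ?_⟩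
    · have h4 : sk (y1 * x1 * y1 * (y1 * x1 * y1) * x1) =
          sk y1 * sk x1 * sk y1 * (sk y1 * sk x1 * sk y1) * sk x1 := by
        simp only [map_mul]
      rw [h4]
      exact X.mul_mem (X.mul_mem (X.mul_mem (X.mul_mem my1 mx1) my1)
        (X.mul_mem (X.mul_mem my1 mx1) my1)) mx1
    · rw [h3]
      linear_combination -h1

end MX
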