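import Pool.Agent.helper81.MX.Defs3
import Pool.Agent.helper81.MX.E01

/-!
# Row CC3 of project MX (helper18)
-/

set_option autoImplicit false

namespace MX

open scoped MatrixGroups

section CC3

/-- the element of order two -/
def CC3_A : SL(2, ZMod 5) := ⟨!![0, 1; -1, 0], by decide⟩

/-- the second element of order two -/
def CC3_B : SL(2, ZMod 5) := ⟨!![2, 0; 0, 3], by decide⟩

/-- the element of order three -/
def CC3_Y : SL(2, ZMod 5) := ⟨!![4, 2; 1, 2], by decide⟩

theorem CC3_AA : CC3_A * CC3_A = -1 := Subtype.ext (by decide)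
theorem CC3_BB : CC3_B * CC3_B = -1 := Subtype.ext (by decide)
theorem CC3_AB : CC3_A * CC3_B = -(CC3_B * CC3_A) := Subtype.ext (by decide)
theorem CC3_YA : CC3_Y * CC3_A = CC3_B * CC3_Y := Subtype.ext (by decide)
theorem CC3_YB : CC3_Y * CC3_B = (CC3_A * CC3_B) * CC3_Y := Subtype.ext (by decide)

theorem CC3_fin1 : ∀ x y : ZMod 5, x * x - y * (-y) = 1 →
    ((x = 1 ∧ y = 0) ∨ (x = -1 ∧ y = 0) ∨ (x = 0 ∧ y = 1) ∨ (x = 0 ∧ y = -1)) := by decide

theorem CC3_fin2 : ∀ x y : ZMod 5, x * (-x) - y * y = 1 →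
    ((x = 2 ∧ y = 0) ∨ (x = -2 ∧ y = 0) ∨ (x = 0 ∧ y = 3) ∨ (x = 0 ∧ y = -3)) := by decide

theorem CC3_m1 : (!![1, 0; -0, 1] : Matrix (Fin 2) (Fin 2) (ZMod 5)) =
    ((1 : SL(2, ZMod 5)) : Matrix (Fin 2) (Fin 2) (ZMod 5)) := by decide
theorem CC3_m2 : (!![-1, 0; -0, -1] : Matrix (Fin 2) (Fin 2) (ZMod 5)) =
    ((-1 : SL(2, ZMod 5)) : Matrix (Fin 2) (Fin 2) (ZMod 5)) := by decide
theorem CC3_m3 : (!![0, 1; -1, 0] : Matrix (Fin 2) (Fin 2) (ZMod 5)) =
    ((CC3_A : SL(2, ZMod 5)) : Matrix (Fin 2) (Fin 2) (ZMod 5)) := by decide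
theorem CC3_m4 : (!![0, -1; - -1, 0] : Matrix (Fin 2) (Fin 2) (ZMod 5)) =
    ((-CC3_A : SL(2, ZMod 5)) : Matrix (Fin 2) (Fin 2) (ZMod 5)) := by decide
theorem CC3_m5 : (!![2, 0; 0, -2] : Matrix (Fin 2) (Fin 2) (ZMod 5)) =
    ((CC3_B : SL(2, ZMod 5)) : Matrix (Fin 2) (Fin 2) (ZMod 5)) := by decide
theorem CC3_m6 : (!![-2, 0; 0, - -2] : Matrix (Fin 2) (Fin 2) (ZMod 5)) =
    ((-CC3_B : SL(2, ZMod 5)) : Matrix (Fin 2) (Fin 2) (ZMod 5)) := by decide
theorem CC3_m7 : (!![0, 3; 3, -0] : Matrix (Fin 2) (Fin 2) (ZMod 5)) =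
    ((CC3_A * CC3_B : SL(2, ZMod 5)) : Matrix (Fin 2) (Fin 2) (ZMod 5)) := by decide
theorem CC3_m8 : (!![0, -3; -3, -0] : Matrix (Fin 2) (Fin 2) (ZMod 5)) =
    ((-(CC3_A * CC3_B) : SL(2, ZMod 5)) : Matrix (Fin 2) (Fin 2) (ZMod 5)) := by decide
theorem CC3_tr : (CC3_A : Matrix (Fin 2) (Fin 2) (ZMod 5)).trace ^ 2 ≠ 4 := by decide

variable [Fact (Nat.Prime 5)]

theorem CC3_cent (X : SL(2, ZMod 5)) (h : sk (X * CC3_A) = sk (CC3_A * X)) :
    sk X = 1 ∨ sk X = sk CC3_A ∨ sk X = sk CC3_B ∨ sk X = sk (CC3_A * CC3_B) := by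
  have h1 : sk ((CC3_A * X)⁻¹ * (X * CC3_A)) = 1 := by
    have h2 : sk ((CC3_A * X)⁻¹ * (X * CC3_A)) = (sk (CC3_A * X))⁻¹ * sk (X * CC3_A) := by
      show Matrix.SpecialLinearGroup.toPGL _ = _
      rw [map_mul, map_inv]
    rw [h2, h, inv_mul_cancel]
  obtain ⟨r, hr, hg⟩ := E01_of_one _ h1
  have h3 : ((X * CC3_A : SL(2, ZMod 5)) : Matrix (Fin 2) (Fin 2) (ZMod 5)) =
      r • ((CC3_A * X : SL(2, ZMod 5)) : Matrix (Fin 2) (Fin 2) (ZMod 5)) := by
    have h4 : X * CC3_A = (CC3_A * X) * ((CC3_A * X)⁻¹ * (X * CC3_A)) := by group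
    rw [h4, Matrix.SpecialLinearGroup.coe_mul, hg, Matrix.mul_smul, mul_one]
  have hdet := X.det_coe
  rw [Matrix.det_fin_two] at hdet
  set x : ZMod 5 := (X : Matrix (Fin 2) (Fin 2) (ZMod 5)) 0 0 with hx
  set y : ZMod 5 := (X : Matrix (Fin 2) (Fin 2) (ZMod 5)) 0 1 with hy
  set z : ZMod 5 := (X : Matrix (Fin 2) (Fin 2) (ZMod 5)) 1 0 with hz
  set w : ZMod 5 := (X : Matrix (Fin 2) (Fin 2) (ZMod 5)) 1 1 with hw
  have hX : (X : Matrix (Fin 2) (Fin 2) (ZMod 5)) = !![x, y; z, w] := by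
    ext i j
    fin_cases i <;> fin_cases j <;> rfl
  have e00 := congrFun (congrFun h3 0) 0
  have e01 := congrFun (congrFun h3 0) 1
  rw [Matrix.SpecialLinearGroup.coe_mul, Matrix.SpecialLinearGroup.coe_mul, hX] at e00 e01
  simp [CC3_A, Matrix.mul_apply, Fin.sum_univ_two] at e00 e01
  -- e00 : -y = r * z, e01 : x = r * w
  have hr' : r = 1 ∨ r = -1 := by
    have h5 : (r - 1) * (r + 1) = 0 := by linear_combination hr
    rcases mul_eq_zero.1 h5 with h6 | h6
    · exact Or.inl (sub_eq_zero.1 h6)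
    · exact Or.inr (eq_neg_of_add_eq_zero_left h6)
  have hsk : ∀ Z : SL(2, ZMod 5), (X : Matrix (Fin 2) (Fin 2) (ZMod 5)) = Z → sk X = sk Z := by
    intro Z hZ
    rw [Subtype.ext hZ]
  have hskn : ∀ Z : SL(2, ZMod 5), (X : Matrix (Fin 2) (Fin 2) (ZMod 5)) =
      ((-Z : SL(2, ZMod 5)) : Matrix (Fin 2) (Fin 2) (ZMod 5)) → sk X = sk Z := by
    intro Z hZ
    rw [Subtype.ext hZ, E01_neg]
  have hone : sk (1 : SL(2, ZMod 5)) = 1 := map_one _
  rcases hr' with rfl | rfl
  · have hz' : z = -y := by linear_combination -e00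
    have hw' : w = x := by linear_combination -e01
    rw [hz', hw'] at hdet hX
    rcases CC3_fin1 x y hdet with ⟨h6, h7⟩ | ⟨h6, h7⟩ | ⟨h6, h7⟩ | ⟨h6, h7⟩
    · left
      rw [← hone]
      apply hsk
      rw [hX, h6, h7]
      exact CC3_m1
    · left
      rw [← hone]
      apply hskn
      rw [hX, h6, h7]
      exact CC3_m2
    · right; left
      apply hsk
      rw [hX, h6, h7]
      exact CC3_m3
    · right; left
      apply hskn
      rw [hX, h6, h7]
      exact CC3_m4
  · have hz' : z = y := by linear_combination e00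
    have hw' : w = -x := by linear_combination e01
    rw [hz', hw'] at hdet hX
    rcases CC3_fin2 x y hdet with ⟨h6, h7⟩ | ⟨h6, h7⟩ | ⟨h6, h7⟩ | ⟨h6, h7⟩
    · right; right; left
      apply hsk
      rw [hX, h6, h7]
      exact CC3_m5
    · right; right; left
      apply hskn
      rw [hX, h6, h7]
      exact CC3_m6
    · right; right; right
      apply hsk
      rw [hX, h6, h7]
      exact CC3_m7
    · right; right; right
      apply hskn
      rw [hX, h6, h7]
      exact CC3_m8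

omit [Fact (Nat.Prime 5)] in
theorem CC3_SLcard : Nat.card SL(2, ZMod 5) = 120 := by
  have e : SL(2, ZMod 5) ≃
      {v : ZMod 5 × ZMod 5 × ZMod 5 × ZMod 5 // v.1 * v.2.2.2 - v.2.1 * v.2.2.1 = 1} :=
    { toFun := fun X => ⟨((X : Matrix (Fin 2) (Fin 2) (ZMod 5)) 0 0,
        (X : Matrix (Fin 2) (Fin 2) (ZMod 5)) 0 1, (X : Matrix (Fin 2) (Fin 2) (ZMod 5)) 1 0,
        (X : Matrix (Fin 2) (Fin 2) (ZMod 5)) 1 1), by
          have h := X.det_coe
          rw [Matrix.det_fin_two] at h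
          exact h⟩
      invFun := fun v => ⟨!![v.1.1, v.1.2.1; v.1.2.2.1, v.1.2.2.2], by
        rw [Matrix.det_fin_two]
        exact v.2⟩
      left_inv := fun X => by
        apply Subtype.ext
        ext i j
        fin_cases i <;> fin_cases j <;> rfl
      right_inv := fun v => by
        apply Subtype.ext
        rfl }
  rw [Nat.card_congr e, Nat.card_eq_fintype_card]
  decide +kernel

theorem CC3_card : Nat.card (PS 5) = 60 := by
  set f : SL(2, ZMod 5) →* PG 5 := Matrix.SpecialLinearGroup.toPGL with hf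
  have hrange : f.range = PS 5 := by
    ext x
    constructor
    · rintro ⟨g, rfl⟩
      exact sk_mem g
    · intro hx
      obtain ⟨g, hg⟩ := E01_lift le_rfl hx
      exact ⟨g, hg⟩
  have hker : Nat.card f.ker = 2 := by
    have h1 : (f.ker : Set SL(2, ZMod 5)) = {1, -1} := by
      ext g
      constructor
      · intro hg
        obtain ⟨r, hr, hg'⟩ := E01_of_one g hg
        have hr' : r = 1 ∨ r = -1 := by
          have h5 : (r - 1) * (r + 1) = 0 := by linear_combination hr
          rcases mul_eq_zero.1 h5 with h6 | h6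
          · exact Or.inl (sub_eq_zero.1 h6)
          · exact Or.inr (eq_neg_of_add_eq_zero_left h6)
        rcases hr' with rfl | rfl
        · left
          apply Subtype.ext
          rw [hg', one_smul]
          rfl
        · right
          apply Subtype.ext
          rw [hg']
          simp
      · rintro (rfl | rfl)
        · exact f.ker.one_mem
        · show f (-1) = 1
          exact E01_scalar (-1) (-1) (by simp)
    have h2 : Nat.card f.ker = (f.ker : Set SL(2, ZMod 5)).ncard := rfl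
    rw [h2, h1, Set.ncard_pair]
    intro h
    have h3 := congrArg (fun g : SL(2, ZMod 5) => (g : Matrix (Fin 2) (Fin 2) (ZMod 5)) 0 0) h
    simp at h3
    exact absurd h3 (by decide)
  have h3 : Nat.card f.ker * f.ker.index = Nat.card SL(2, ZMod 5) := Subgroup.card_mul_index _
  rw [Subgroup.index_ker, hker, CC3_SLcard, hrange] at h3
  omega

end CC3

/-- CC3 -/
theorem alt5_PS (p : ℕ) [Fact p.Prime] (hp : p = 5) : Alt5 (PS p) := by
  subst hp
  set a : PS 5 := ⟨sk CC3_A, sk_mem _⟩ with ha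
  set b : PS 5 := ⟨sk CC3_B, sk_mem _⟩ with hb
  set y : PS 5 := ⟨sk CC3_Y, sk_mem _⟩ with hy
  have hm : ∀ g h : SL(2, ZMod 5), sk g * sk h = sk (g * h) := fun g h => (map_mul _ g h).symm
  have hneg1 : sk (-1 : SL(2, ZMod 5)) = 1 := by
    rw [E01_neg]
    exact map_one _
  have haa : a * a = 1 := Subtype.ext (by
    show sk CC3_A * sk CC3_A = 1
    rw [hm, CC3_AA, hneg1])
  have hbb : b * b = 1 := Subtype.ext (by
    show sk CC3_B * sk CC3_B = 1
    rw [hm, CC3_BB, hneg1])
  have hab : a * b = b * a := Subtype.ext (by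
    show sk CC3_A * sk CC3_B = sk CC3_B * sk CC3_A
    rw [hm, hm, CC3_AB, E01_neg])
  have hya : y * a = b * y := Subtype.ext (by
    show sk CC3_Y * sk CC3_A = sk CC3_B * sk CC3_Y
    rw [hm, hm, CC3_YA])
  have hyb : y * b = (a * b) * y := Subtype.ext (by
    show sk CC3_Y * sk CC3_B = (sk CC3_A * sk CC3_B) * sk CC3_Y
    rw [hm, hm, hm, CC3_YB])
  have ha1 : a ≠ 1 := by
    intro h
    have h1 : sk CC3_A = 1 := congrArg Subtype.val h
    exact CC3_tr (E01_trace _ h1)
  have hb1 : b ≠ 1 := by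
    intro h
    rw [h, one_mul] at hya
    exact ha1 (mul_left_cancel (hya.trans (mul_one y).symm))
  have hab1 : a ≠ b := by
    intro h
    have h1 : y * b = y := by
      rw [hyb, ← h, haa, one_mul]
    exact hb1 (mul_left_cancel (h1.trans (mul_one y).symm))
  have hcent : ∀ x : PS 5, x * a = a * x → x = 1 ∨ x = a ∨ x = b ∨ x = a * b := by
    intro x hx
    obtain ⟨X, hX⟩ := E01_lift le_rfl x.2
    have h1 : sk (X * CC3_A) = sk (CC3_A * X) := by
      rw [← hm, ← hm, hX]
      exact congrArg Subtype.val hx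
    rcases CC3_cent X h1 with h2 | h2 | h2 | h2
    · exact Or.inl (Subtype.ext (hX.symm.trans h2))
    · exact Or.inr (Or.inl (Subtype.ext (hX.symm.trans h2)))
    · exact Or.inr (Or.inr (Or.inl (Subtype.ext (hX.symm.trans h2))))
    · exact Or.inr (Or.inr (Or.inr (Subtype.ext (hX.symm.trans (h2.trans (hm _ _).symm)))))
  refine ⟨a, b, y, haa, hbb, hab, ha1, hb1, hab1, by rw [hya, mul_inv_cancel_right],
    by rw [hyb, mul_inv_cancel_right], hcent, ?_⟩
  -- the index
  have hset : ((Subgroup.closure ({a, b} : Set (PS 5))) : Set (PS 5)) = {1, a, b, a * b} := by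
    ext x
    constructor
    · intro hx
      have h1 : Subgroup.closure ({a, b} : Set (PS 5)) ≤ Subgroup.centralizer {a} := by
        rw [Subgroup.closure_le]
        rintro z (rfl | rfl)
        · exact Subgroup.mem_centralizer_singleton_iff.2 rfl
        · exact Subgroup.mem_centralizer_singleton_iff.2 hab.symm
      have h2 := Subgroup.mem_centralizer_singleton_iff.1 (h1 hx)
      exact hcent x h2
    · have ma : a ∈ Subgroup.closure ({a, b} : Set (PS 5)) := Subgroup.subset_closure (by simp)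
      have mb : b ∈ Subgroup.closure ({a, b} : Set (PS 5)) := Subgroup.subset_closure (by simp)
      rintro (rfl | rfl | rfl | rfl)
      · exact Subgroup.one_mem _
      · exact ma
      · exact mb
      · exact Subgroup.mul_mem _ ma mb
  have hcard : Nat.card (Subgroup.closure ({a, b} : Set (PS 5))) = 4 := by
    have h1 : Nat.card (Subgroup.closure ({a, b} : Set (PS 5))) =
        ((Subgroup.closure ({a, b} : Set (PS 5))) : Set (PS 5)).ncard := rfl
    have n1 : a * b ≠ 1 := by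
      intro h
      apply hab1
      have h2 : a * b = b * b := by rw [h, hbb]
      exact mul_right_cancel h2
    have n2 : a * b ≠ a := by
      intro h
      exact hb1 (mul_left_cancel (h.trans (mul_one a).symm))
    have n3 : a * b ≠ b := by
      intro h
      exact ha1 (mul_right_cancel (h.trans (one_mul b).symm))
    rw [h1, hset, Set.ncard_insert_of_notMem, Set.ncard_insert_of_notMem,
      Set.ncard_pair n3.symm]
    · rintro (h | h)
      · exact hab1 h
      · exact n2 h.symm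
    · rintro (h | h | h)
      · exact ha1 h.symm
      · exact hb1 h.symm
      · exact n1 h.symm
  have h2 := Subgroup.card_mul_index (Subgroup.closure ({a, b} : Set (PS 5)))
  rw [hcard, CC3_card] at h2
  omega

end MX
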