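import Pool.Agent.helper81.MX.D01
import Pool.Agent.helper81.MX.D02
import Pool.Agent.helper81.MX.A07
import Pool.Agent.helper81.MX.A08

/-!
# Row mx:D03 (MP_8aef6e_al), by helper29
-/

set_option autoImplicit false

namespace MX

/-- evaluation at `x` modulo `[W,x]` -/
def D03_e {A W : Type*} [Group A] [AddCommGroup W] [DistribMulAction A W] (x : A) :
    (Der A W) →+ W ⧸ cmm A W x where
  toFun α := QuotientAddGroup.mk ((α : A → W) x)
  map_zero' := by simp
  map_add' := by intro a b; simp

/-- D03 -/
theorem star_cyclic {A W : Type*} [Group A] [AddCommGroup W] [DistribMulAction A W] [Finite A]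
    [Finite W] (p : ℕ) [Fact p.Prime] (hp : ∀ w : W, p • w = 0)
    (hkk : kk (SD A W) = kk A + Dn A W p) (hnt : Nontrivial W)
    (x : A) (hx : ¬ p ∣ (Subgroup.zpowers x).index) : h1 A W ≤ Dn A W p := by
  classical
  by_cases hx1 : x = 1
  · have hall : AllInner A W := by
      intro α hα
      refine inner_of_index p hp (Subgroup.zpowers x) hx α hα ⟨0, fun y hy => ?_⟩
      rw [hx1, Subgroup.zpowers_one_eq_bot, Subgroup.mem_bot] at hy
      have h0 : α (1 * 1) = α 1 + (1 : A) • α 1 := hα 1 1
      rw [mul_one, one_smul] at h0
      rw [hy, smul_zero, sub_zero]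
      exact left_eq_add.mp h0
    rw [h1_of_allInner hall]
    exact Dn_pos p hp
  · have hfin : Finite (Der A W) := Finite.of_injective (fun a : Der A W => (a : A → W)) Subtype.val_injective
    have hker : (D03_e (W := W) x).ker ≤ (Inn A W).addSubgroupOf (Der A W) := by
      rintro ⟨α, hα⟩ hk
      rw [AddMonoidHom.mem_ker] at hk
      have hk2 : (QuotientAddGroup.mk (α x) : W ⧸ cmm A W x) = 0 := hk
      rw [QuotientAddGroup.eq_zero_iff] at hk2
      obtain ⟨u, hu⟩ := hk2
      -- α y = y • u - u on the powers of x
      have hd : ∀ g h : A, α (g * h) = α g + g • α h := hα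
      set β : A → W := fun g => α g - (g • u - u) with hβ
      have hβd : ∀ g h : A, β (g * h) = β g + g • β h := by
        intro g h
        simp only [hβ]
        rw [hd, smul_sub, smul_sub, mul_smul]
        abel
      have hβx : β x = 0 := by simp only [hβ]; rw [hu, sub_self]
      have hβ1 : β 1 = 0 := by
        have := hβd 1 1
        rw [mul_one, one_smul] at this
        exact left_eq_add.mp this
      have hpow : ∀ y ∈ Subgroup.zpowers x, β y = 0 := by
        intro y hy
        rw [Subgroup.zpowers_eq_closure] at hy
        induction hy using Subgroup.closure_induction with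
        | mem z hz => rw [Set.mem_singleton_iff.mp hz, hβx]
        | one => exact hβ1
        | mul a b _ _ ha hb => rw [hβd, ha, hb, smul_zero, add_zero]
        | inv a _ ha =>
          have h2 := hβd a a⁻¹
          rw [mul_inv_cancel, hβ1, ha, zero_add] at h2
          have h3 := congrArg (fun w => a⁻¹ • w) h2
          simp only [smul_zero, inv_smul_smul] at h3
          exact h3.symm
      obtain ⟨v, hv⟩ := inner_of_index p hp (Subgroup.zpowers x) hx α hα
        ⟨u, fun y hy => by
          have := hpow y hy
          simp only [hβ] at this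
          exact sub_eq_zero.mp this⟩
      rw [AddSubgroup.mem_addSubgroupOf]
      refine ⟨v, ?_⟩
      funext h
      exact (hv h).symm
    have hle : h1 A W ≤ Nat.card (D03_e (W := W) x).range := by
      rw [← AddSubgroup.index_ker]
      rw [h1, AddSubgroup.relIndex]
      exact AddSubgroup.index_antitone hker
    refine hle.trans ?_
    obtain ⟨w0, hw0⟩ := exists_ne (0 : W)
    set E : Set (W ⧸ cmm A W x) := ((D03_e (W := W) x).range : Set (W ⧸ cmm A W x)) with hE
    set s : Set W := (Quotient.out : W ⧸ cmm A W x → W) '' (E \ {(0 : W ⧸ cmm A W x)}) with hs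
    have hsc : s.ncard = E.ncard - 1 := by
      rw [hs]
      have e1 : ((Quotient.out : W ⧸ cmm A W x → W) '' (E \ {(0 : W ⧸ cmm A W x)})).ncard =
          (E \ {(0 : W ⧸ cmm A W x)}).ncard :=
        Set.ncard_image_of_injective _ Quotient.out_injective
      rw [e1, Set.ncard_sdiff_singleton_of_mem]
      exact (D03_e (W := W) x).range.zero_mem
    have hout : ∀ c : W ⧸ cmm A W x, (QuotientAddGroup.mk (Quotient.out c) : W ⧸ cmm A W x) = c :=
      fun c => Quotient.out_eq c
    have h2 := Dn_lower p hkk x hx1 s {w0} (by
      rintro w ⟨c, ⟨hc1, hc2⟩, rfl⟩ hw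
      apply hc2
      rw [Set.mem_singleton_iff, ← hout c, QuotientAddGroup.eq_zero_iff]
      exact hw) (by
      rintro w ⟨c, ⟨⟨⟨α, hα⟩, hc1⟩, hc2⟩, rfl⟩ w' ⟨c', ⟨hc1', hc2'⟩, rfl⟩ g hg hgw
      congr 1
      rw [← hout c, ← hout c']
      have h3 : g • Quotient.out c - Quotient.out c ∈ cmm A W x := by
        have h4 : (QuotientAddGroup.mk (α x) : W ⧸ cmm A W x) = QuotientAddGroup.mk (Quotient.out c) := by
          rw [hout c]
          exact hc1
        rw [QuotientAddGroup.eq] at h4
        have h5 : g • α x - α x ∈ cmm A W x := by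
          refine ⟨α g, ?_⟩
          have e1 : α (g * x) = α g + g • α x := hα g x
          have e2 : α (x * g) = α x + x • α g := hα x g
          rw [hg, e2] at e1
          rw [sub_eq_sub_iff_add_eq_add, add_comm (g • α x), ← e1, add_comm]
        have h6 : g • (-α x + Quotient.out c) ∈ cmm A W x := by
          obtain ⟨u, hu⟩ := h4
          refine ⟨g • u, ?_⟩
          rw [hu, smul_sub, ← mul_smul, ← mul_smul, hg]
        have h7 := AddSubgroup.sub_mem _ (AddSubgroup.add_mem _ h6 h5) h4
        have h8 : g • (-α x + Quotient.out c) + (g • α x - α x) - (-α x + Quotient.out c) =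
            g • Quotient.out c - Quotient.out c := by
          rw [smul_add, smul_neg]
          abel
        rw [h8] at h7
        exact h7
      rw [QuotientAddGroup.eq]
      have h9 := AddSubgroup.add_mem _ hgw h3
      have h10 : Quotient.out c' - g • Quotient.out c + (g • Quotient.out c - Quotient.out c) =
          -Quotient.out c + Quotient.out c' := by abel
      rw [h10] at h9
      exact h9) (by
      intro h
      exact hw0 (Set.mem_singleton_iff.mp h).symm) (by
      intro w hw w' hw' a ha
      rw [Set.mem_singleton_iff.mp hw, Set.mem_singleton_iff.mp hw'])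
    rw [hsc, Set.ncard_singleton] at h2
    have h11 : Nat.card (D03_e (W := W) x).range = E.ncard := rfl
    rw [h11]
    have h12 : 0 < E.ncard := by
      rw [Set.ncard_pos]
      exact ⟨0, (D03_e (W := W) x).range.zero_mem⟩
    omega

end MX
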