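import Pool.Agent.helper81.MX.D01
import Pool.Agent.helper81.MX.D04
import Pool.Agent.helper81.MX.Defs2

/-!
# Row D05 of project MX
-/

set_option autoImplicit false

namespace MX

section D05

/-- D05 -/
theorem star_even {A W : Type*} [Group A] [AddCommGroup W] [DistribMulAction A W] [Finite A]
    [Finite W] (hirr : Irr A W) (hf : Fth A W) (hp : ∀ w : W, 2 • w = 0)
    (hkk : kk (SD A W) = kk A + Dn A W 2)
    (hE : Even2 A) : h1 A W ≤ Dn A W 2 := by
  obtain ⟨U, t, a, hU, ht, haa, ha1, hat, hgen, hX⟩ := hE
  have hfix : ∀ w : W, (∀ g : A, g • w = w) → w = 0 := by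
    let F : AddSubgroup W :=
      { carrier := {w | ∀ g : A, g • w = w}
        add_mem' := by
          intro x y hx hy g
          rw [smul_add, hx g, hy g]
        zero_mem' := by
          intro g
          exact smul_zero g
        neg_mem' := by
          intro x hx g
          rw [smul_neg, hx g] }
    have hF : ∀ (h : A), ∀ v ∈ F, h • v ∈ F := by
      intro h v hv
      rw [hv h]
      exact hv
    rcases hirr.2 F hF with h1 | h1
    · intro w hw
      have h2 : w ∈ F := hw
      rw [h1] at h2
      exact h2
    · exfalso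
      apply ha1
      apply hf
      intro v
      have h2 : v ∈ F := by
        rw [h1]; exact AddSubgroup.mem_top v
      exact h2 a
  have hneg : ∀ w : W, -w = w := by
    intro w
    have h1 := hp w
    rw [two_nsmul] at h1
    exact neg_eq_of_add_eq_zero_left h1
  have hw0 : ∃ w0 : W, w0 ∉ cmm A W a := by
    by_contra hcon
    push Not at hcon
    apply ha1
    apply hf
    intro v
    obtain ⟨u, rfl⟩ := hcon v
    rw [smul_sub, ← mul_smul, haa, one_smul]
    have h1 : u - a • u = -(a • u - u) := by abel
    rw [h1, hneg]
  obtain ⟨w0, hw0⟩ := hw0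
  have h1 := h1_le_fix hp hfix U t a hU ht haa hat hgen
  set T : Set W := {w | t • w = w ∧ a • w = w ∧ w ≠ 0} with hT
  have h2 := Dn_lower 2 hkk a ha1 {w0} T
    (by
      intro w hw
      rw [Set.mem_singleton_iff] at hw
      rw [hw]
      exact hw0)
    (by
      intro w hw w' hw' _ _ _
      rw [Set.mem_singleton_iff] at hw hw'
      rw [hw, hw'])
    (by
      intro h
      exact h.2.2 rfl)
    (by
      intro w hw w' hw' g hg
      obtain ⟨x, hx, hxg⟩ := hX (MulAction.stabilizer A w') g hw'.1 hw'.2.1
        (by
          rw [MulAction.mem_stabilizer_iff, hg, ← mul_smul, inv_mul_cancel_right, mul_smul, hw.1])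
        (by
          rw [MulAction.mem_stabilizer_iff, hg, ← mul_smul, inv_mul_cancel_right, mul_smul, hw.2.1])
      have h3 : Subgroup.closure ({t, a} : Set A) ≤ MulAction.stabilizer A w := by
        rw [Subgroup.closure_le]
        rintro y (rfl | rfl)
        · exact hw.1
        · exact hw.2.1
      have h4 : (x * g) • w = w := h3 hxg
      rw [mul_smul, ← hg] at h4
      have h5 : x • w' = w' := hx
      rw [h5] at h4
      exact h4.symm)
  have h3 : Nat.card {w : W // t • w = w ∧ a • w = w} = T.ncard + 1 := by
    have h4 : {w : W | t • w = w ∧ a • w = w} = insert 0 T := by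
      ext w
      constructor
      · rintro ⟨h5, h6⟩
        by_cases h7 : w = 0
        · left; exact h7
        · right; exact ⟨h5, h6, h7⟩
      · rintro (rfl | h5)
        · exact ⟨smul_zero t, smul_zero a⟩
        · exact ⟨h5.1, h5.2.1⟩
    have h5 : Nat.card {w : W // t • w = w ∧ a • w = w} =
        ({w : W | t • w = w ∧ a • w = w}).ncard := rfl
    rw [h5, h4, Set.ncard_insert_of_notMem (fun h => h.2.2 rfl) (Set.toFinite T)]
  rw [h3] at h1
  rw [Set.ncard_singleton] at h2
  omega

end D05

end MX
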