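import Pool.Agent.helper81.MX.Defs4

/-!
A lower bound for the number of classes of pairs.
-/

set_option autoImplicit false

namespace MX

theorem isConj_SD_iff {A W : Type*} [Group A] [AddCommGroup W] [DistribMulAction A W]
    (w w' : W) (y y' : A) :
    IsConj (⟨Multiplicative.ofAdd w, y⟩ : SD A W) ⟨Multiplicative.ofAdd w', y'⟩ ↔
      ∃ (u : W) (c : A), c * y = y' * c ∧ u + c • w = w' + y' • u := by
  rw [isConj_iff]
  constructor
  · rintro ⟨⟨u, c⟩, h⟩
    rw [mul_inv_eq_iff_eq_mul] at h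
    have h1 := congrArg SemidirectProduct.left h
    have h2 := congrArg SemidirectProduct.right h
    exact ⟨Multiplicative.toAdd u, c, h2, congrArg Multiplicative.toAdd h1⟩
  · rintro ⟨u, c, h1, h2⟩
    refine ⟨⟨Multiplicative.ofAdd u, c⟩, ?_⟩
    rw [mul_inv_eq_iff_eq_mul]
    apply SemidirectProduct.ext
    · exact congrArg Multiplicative.ofAdd h2
    · exact h1

/-- D01 -/
theorem Dn_lower {A W : Type*} [Group A] [AddCommGroup W] [DistribMulAction A W] [Finite A] [Finite W]
    (p : ℕ) (hkk : kk (SD A W) = kk A + Dn A W p) (x : A) (hx : x ≠ 1) (s t : Set W)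
    (hs1 : ∀ w ∈ s, w ∉ cmm A W x)
    (hs2 : ∀ w ∈ s, ∀ w' ∈ s, ∀ c : A, c * x = x * c → w' - c • w ∈ cmm A W x → w = w')
    (ht1 : (0 : W) ∉ t) (ht2 : ∀ w ∈ t, ∀ w' ∈ t, ∀ a : A, w' = a • w → w = w') :
    s.ncard + t.ncard ≤ Dn A W p := by
  classical
  have hfin : Finite (SD A W) :=
    Finite.of_injective (fun z : SD A W => (Multiplicative.toAdd z.left, z.right)) (by
      intro a b hab
      apply SemidirectProduct.ext
      · exact congrArg Prod.fst hab
      · exact congrArg Prod.snd hab)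
  have hfc : Finite (ConjClasses (SD A W)) := inferInstance
  let f : ConjClasses A ⊕ (s ⊕ t) → ConjClasses (SD A W) := fun z =>
    match z with
    | Sum.inl c => ConjClasses.mk ⟨Multiplicative.ofAdd 0, c.out⟩
    | Sum.inr (Sum.inl w) => ConjClasses.mk ⟨Multiplicative.ofAdd w.1, x⟩
    | Sum.inr (Sum.inr w) => ConjClasses.mk ⟨Multiplicative.ofAdd w.1, 1⟩
  have h12 : ∀ (h : A) (w : W), w ∈ s →
      ¬ IsConj (⟨Multiplicative.ofAdd 0, h⟩ : SD A W) ⟨Multiplicative.ofAdd w, x⟩ := by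
    intro h w hw hc
    rw [isConj_SD_iff] at hc
    obtain ⟨u, c, _, h2⟩ := hc
    apply hs1 w hw
    refine ⟨-u, ?_⟩
    rw [smul_zero, add_zero] at h2
    rw [smul_neg]
    have : w = u - x • u := by rw [eq_sub_iff_add_eq]; exact h2.symm
    rw [this]; abel
  have h13 : ∀ (h : A) (w : W), w ∈ t →
      ¬ IsConj (⟨Multiplicative.ofAdd 0, h⟩ : SD A W) ⟨Multiplicative.ofAdd w, 1⟩ := by
    intro h w hw hc
    rw [isConj_SD_iff] at hc
    obtain ⟨u, c, _, h2⟩ := hc
    rw [smul_zero, add_zero, one_smul] at h2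
    have : w = 0 := by
      have := h2.symm
      rwa [add_eq_right] at this
    exact ht1 (this ▸ hw)
  have h23 : ∀ (w w' : W), w ∈ s → w' ∈ t →
      ¬ IsConj (⟨Multiplicative.ofAdd w, x⟩ : SD A W) ⟨Multiplicative.ofAdd w', 1⟩ := by
    intro w w' _ _ hc
    rw [isConj_SD_iff] at hc
    obtain ⟨u, c, h1, _⟩ := hc
    rw [one_mul, mul_eq_left] at h1
    exact hx h1
  have hinj : Function.Injective f := by
    rintro (a | a | a) (b | b | b) hab
    · have hab' : IsConj (⟨Multiplicative.ofAdd 0, a.out⟩ : SD A W)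
          ⟨Multiplicative.ofAdd 0, b.out⟩ := ConjClasses.mk_eq_mk_iff_isConj.1 hab
      rw [isConj_SD_iff] at hab'
      obtain ⟨u, c, h1, _⟩ := hab'
      have : IsConj a.out b.out := by
        rw [isConj_iff]
        exact ⟨c, by rw [mul_inv_eq_iff_eq_mul]; exact h1⟩
      have h3 := ConjClasses.mk_eq_mk_iff_isConj.2 this
      have ea : ConjClasses.mk a.out = a := Quotient.out_eq a
      have eb : ConjClasses.mk b.out = b := Quotient.out_eq b
      rw [ea, eb] at h3
      rw [h3]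
    · exact absurd (ConjClasses.mk_eq_mk_iff_isConj.1 hab) (h12 _ _ b.2)
    · exact absurd (ConjClasses.mk_eq_mk_iff_isConj.1 hab) (h13 _ _ b.2)
    · exact absurd (ConjClasses.mk_eq_mk_iff_isConj.1 hab.symm) (h12 _ _ a.2)
    · have hab' := ConjClasses.mk_eq_mk_iff_isConj.1 hab
      rw [isConj_SD_iff] at hab'
      obtain ⟨u, c, h1, h2⟩ := hab'
      have : a.1 = b.1 := by
        refine hs2 a.1 a.2 b.1 b.2 c h1 ⟨-u, ?_⟩
        rw [smul_neg]
        have h3 : b.1 = u + c • a.1 - x • u := by rw [eq_sub_iff_add_eq]; exact h2.symm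
        rw [h3]; abel
      rw [Subtype.ext this]
    · exact absurd (ConjClasses.mk_eq_mk_iff_isConj.1 hab) (h23 _ _ a.2 b.2)
    · exact absurd (ConjClasses.mk_eq_mk_iff_isConj.1 hab.symm) (h13 _ _ a.2)
    · exact absurd (ConjClasses.mk_eq_mk_iff_isConj.1 hab.symm) (h23 _ _ b.2 a.2)
    · have hab' := ConjClasses.mk_eq_mk_iff_isConj.1 hab
      rw [isConj_SD_iff] at hab'
      obtain ⟨u, c, h1, h2⟩ := hab'
      have : a.1 = b.1 := by
        refine ht2 a.1 a.2 b.1 b.2 c ?_
        rw [one_smul, add_comm b.1 u] at h2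
        exact (add_left_cancel h2).symm
      rw [Subtype.ext this]
  have hcard := Nat.card_le_card_of_injective f hinj
  rw [Nat.card_sum, Nat.card_sum] at hcard
  have e1 : Nat.card s = s.ncard := rfl
  have e2 : Nat.card t = t.ncard := rfl
  have e3 : Nat.card (ConjClasses (SD A W)) = kk (SD A W) := rfl
  have e4 : Nat.card (ConjClasses A) = kk A := rfl
  rw [e1, e2, e3, e4, hkk] at hcard
  omega

end MX
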