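import Pool.Agent.helper81.MX.Defs2

/-!
More definitions for the groups `PSL(2,p)`, `PGL(2,p)`.
-/

set_option autoImplicit false

namespace MX

open scoped MatrixGroups

theorem sk_mem {p : ℕ} (g : SL(2, ZMod p)) : sk g ∈ PS p :=
  ⟨(QuotientGroup.mk g : Matrix.ProjectiveSpecialLinearGroup (Fin 2) (ZMod p)), rfl⟩

/-- The family of members of the partition of the subgroup `X`. -/
def torP {p : ℕ} (X : Subgroup (PG p)) : Set (Subgroup X) :=
  {C | C ≠ ⊥ ∧ ∃ g : GL (Fin 2) (ZMod p), dsc g ≠ 0 ∧ C = (tor g).subgroupOf X}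

/-- Numerical situation with three classes of members of orders `2, 3, m`. -/
def Tri (X : Type*) [Group X] (P : Set (Subgroup X)) (n m : ℕ) : Prop :=
  Nat.card X = n ∧
  (∀ D ∈ P, (Nat.card D = 2 ∨ Nat.card D = 3 ∨ Nat.card D = m) ∧
    Nat.card (Subgroup.normalizer (D : Set X)) = 2 * Nat.card D) ∧
  (∀ D ∈ P, ∀ E ∈ P, Nat.card D = Nat.card E → SC D E) ∧
  (∃ D ∈ P, Nat.card D = 2) ∧ (∃ D ∈ P, Nat.card D = 3) ∧ (∃ D ∈ P, Nat.card D = m)

/-- The four types of maximal subgroups of `A`, `PSL ≤ A ≤ PGL`. -/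
def TyU {p : ℕ} (A : Subgroup (PG p)) (X : Subgroup A) : Prop :=
  ∃ U : Subgroup (PG p), Nat.card U = p ∧
    X.map A.subtype = A ⊓ Subgroup.normalizer (U : Set (PG p))

def TyD {p : ℕ} (A : Subgroup (PG p)) (sq : Prop) (X : Subgroup A) : Prop :=
  ∃ g : GL (Fin 2) (ZMod p), dsc g ≠ 0 ∧ (IsSquare (dsc g) ↔ sq) ∧
    X.map A.subtype = A ⊓ Subgroup.normalizer (tor g : Set (PG p))

def TyK {p : ℕ} (A : Subgroup (PG p)) (X : Subgroup A) : Prop :=
  ∃ V : Subgroup (PG p), V ≤ PS p ∧ Nat.card V = 4 ∧ (∀ v ∈ V, v * v = 1) ∧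
    X.map A.subtype = A ⊓ Subgroup.normalizer (V : Set (PG p))

def TyI {p : ℕ} (A : Subgroup (PG p)) (X : Subgroup A) : Prop :=
  A = PS p ∧ X ≠ ⊤ ∧ Ico X

end MX
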