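import Pool.Agent.helper81.MX.Defs4
import Pool.Agent.helper81.MX.Defs3
import Pool.Agent.helper81.MX.AU4
import Pool.Agent.helper81.MX.A28
import Pool.Agent.helper81.MX.CC1
import Pool.Agent.helper81.MX.CC2
import Pool.Agent.helper81.MX.CC3
import Pool.Agent.helper81.MX.D03
import Pool.Agent.helper81.MX.D05
import Pool.Agent.helper81.MX.D07

set_option autoImplicit false

namespace MX
open scoped MatrixGroups

theorem D08_closure {A B : Type*} [Group A] [Group B] (e : A ≃* B) (s : Set B) (x : A) :
    x ∈ Subgroup.closure (e.symm '' s) ↔ e x ∈ Subgroup.closure s := by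
  have h1 : Subgroup.closure (e.symm '' s) = (Subgroup.closure s).map e.symm.toMonoidHom :=
    (MonoidHom.map_closure e.symm.toMonoidHom s).symm
  rw [h1, Subgroup.mem_map]
  constructor
  · rintro ⟨y, hy, rfl⟩
    show e (e.symm y) ∈ _
    rwa [MulEquiv.apply_symm_apply]
  · intro h
    exact ⟨e x, h, e.symm_apply_apply x⟩

theorem D08_even {A B : Type*} [Group A] [Group B] (e : A ≃* B) (h : Even2 B) : Even2 A := by
  obtain ⟨U, t, a, h1, h2, h3, h4, h5, h6, h7⟩ := h
  refine ⟨U.comap e.toMonoidHom, e.symm t, e.symm a, ?_, ?_, ?_, ?_, ?_, ?_, ?_⟩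
  · have h8 : Nat.card (U.comap e.toMonoidHom) = Nat.card U :=
      Nat.card_congr (e.toEquiv.subtypeEquiv (fun x => Iff.rfl))
    rw [h8]
    exact h1
  · intro u hu
    show e (e.symm t * u * (e.symm t)⁻¹) ∈ U
    rw [map_mul, map_mul, map_inv, MulEquiv.apply_symm_apply]
    exact h2 _ hu
  · rw [← map_mul, h3, map_one]
  · intro h
    apply h4
    have := congrArg e h
    rwa [MulEquiv.apply_symm_apply, map_one] at this
  · rw [← map_inv, ← map_inv, ← map_mul, ← map_mul, h5]
  · have h8 : ((U.comap e.toMonoidHom : Subgroup A) : Set A) ∪ {e.symm t, e.symm a} =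
        e.symm '' ((U : Set B) ∪ {t, a}) := by
      rw [Set.image_union, Set.image_pair]
      congr 1
      ext x
      constructor
      · intro hx
        exact ⟨e x, hx, e.symm_apply_apply x⟩
      · rintro ⟨y, hy, rfl⟩
        show e (e.symm y) ∈ U
        rwa [MulEquiv.apply_symm_apply]
    rw [h8, eq_top_iff]
    intro x _
    rw [D08_closure, h6]
    trivial
  · intro X g hX1 hX2 hX3 hX4
    have key : ∀ y : A, y ∈ X → e y ∈ X.map e.toMonoidHom := fun y hy => ⟨y, hy, rfl⟩
    obtain ⟨x, ⟨x', hx', rfl⟩, hx2⟩ := h7 (X.map e.toMonoidHom) (e g) (by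
        have := key _ hX1
        rwa [MulEquiv.apply_symm_apply] at this) (by
        have := key _ hX2
        rwa [MulEquiv.apply_symm_apply] at this) (by
        have := key _ hX3
        rwa [map_mul, map_mul, map_inv, MulEquiv.apply_symm_apply] at this) (by
        have := key _ hX4
        rwa [map_mul, map_mul, map_inv, MulEquiv.apply_symm_apply] at this)
    refine ⟨x', hx', ?_⟩
    rw [← Set.image_pair, D08_closure, map_mul]
    exact hx2

theorem D08_alt {A B : Type*} [Group A] [Group B] (e : A ≃* B) (h : Alt5 B) : Alt5 A := by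
  obtain ⟨a, b, y, h1, h2, h3, h4, h5, h6, h7, h8, h9, h10⟩ := h
  refine ⟨e.symm a, e.symm b, e.symm y, ?_, ?_, ?_, ?_, ?_, ?_, ?_, ?_, ?_, ?_⟩
  · rw [← map_mul, h1, map_one]
  · rw [← map_mul, h2, map_one]
  · rw [← map_mul, h3, map_mul]
  · intro h
    apply h4
    have := congrArg e h
    rwa [MulEquiv.apply_symm_apply, map_one] at this
  · intro h
    apply h5
    have := congrArg e h
    rwa [MulEquiv.apply_symm_apply, map_one] at this
  · intro h
    exact h6 (e.symm.injective h)
  · rw [← map_inv, ← map_mul, ← map_mul, h7]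
  · rw [← map_inv, ← map_mul, ← map_mul, h8, map_mul]
  · intro x hx
    have h11 := congrArg e hx
    rw [map_mul, map_mul, MulEquiv.apply_symm_apply] at h11
    rcases h9 _ h11 with h | h | h | h
    · left
      rw [← e.symm_apply_apply x, h, map_one]
    · right; left
      rw [← e.symm_apply_apply x, h]
    · right; right; left
      rw [← e.symm_apply_apply x, h]
    · right; right; right
      rw [← e.symm_apply_apply x, h, map_mul]
  · have h11 : Subgroup.closure ({e.symm a, e.symm b} : Set A) =
        (Subgroup.closure ({a, b} : Set B)).comap e.toMonoidHom := by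
      ext x
      rw [← Set.image_pair, D08_closure]
      rfl
    rw [h11, Subgroup.index_comap_of_surjective _ e.surjective]
    exact h10

/-- D08 -/
theorem star_std (A W : Type) [Group A] [Finite A] [AddCommGroup W] [Finite W] [DistribMulAction A W]
    (L : Subgroup A) (hL : Std L) (hirr : Irr A W) (hf : Fth A W) (p : ℕ) [Fact p.Prime]
    (hp : ∀ w : W, p • w = 0) : h1 A W ≤ Dn A W p := by
  obtain ⟨q, hq, hq5, e, he, heL⟩ := Std_embed L hL
  haveI : Fact q.Prime := ⟨hq⟩
  by_cases h2 : p = 2
  · subst h2
    have hle : PS q ≤ e.range := by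
      rw [← heL]
      exact Subgroup.map_le_range e L
    by_cases h5 : q ≠ 5 ∨ e.range ≠ PS q
    · exact star_even hirr hf hp (kk_SD 2 hp)
        (D08_even (MonoidHom.ofInjective he) (even_PS hq5 e.range hle h5))
    · have h6 : q = 5 := by
        by_contra h
        exact h5 (Or.inl h)
      have h7 : e.range = PS q := by
        by_contra h
        exact h5 (Or.inr h)
      exact star_alt5 hirr hf hp (kk_SD 2 hp)
        (D08_alt ((MonoidHom.ofInjective he).trans (MulEquiv.subgroupCongr h7)) (alt5_PS q h6))
  · obtain ⟨P⟩ := (inferInstance : Nonempty (Sylow p A))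
    have h3 : IsPGroup p ((P : Subgroup A).map e) := P.2.map e
    have h4 : IsCyclic ((P : Subgroup A).map e) := odd_cyclic hq5 p h2 _ h3
    have h5 : IsCyclic (P : Subgroup A) :=
      isCyclic_of_injective ((P : Subgroup A).equivMapOfInjective e he).toMonoidHom
        ((P : Subgroup A).equivMapOfInjective e he).injective
    obtain ⟨x, hx⟩ := h5.exists_generator
    have h6 : Subgroup.zpowers (x : A) = (P : Subgroup A) := by
      apply le_antisymm
      · rw [Subgroup.zpowers_le]
        exact x.2
      · intro y hy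
        obtain ⟨k, hk⟩ := Subgroup.mem_zpowers_iff.1 (hx ⟨y, hy⟩)
        refine Subgroup.mem_zpowers_iff.2 ⟨k, ?_⟩
        have := congrArg Subtype.val hk
        simpa using this
    refine star_cyclic p hp (kk_SD p hp) hirr.1 (x : A) ?_
    rw [h6]
    exact P.not_dvd_index

end MX
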