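import Pool.Agent.helper81.MX.Defs

/-!
Row R04: classes of maximal subgroups and quotients.
-/

set_option autoImplicit false

namespace MX

open scoped MatrixGroups

/-- R04 -/
theorem mcl_step {G : Type*} [Group G] [Finite G] (N₀ N : Subgroup G) [N₀.Normal] [N.Normal]
    (h : N₀ ≤ N) :
    (mcl G (fun H => ¬ N ≤ H)).ncard ≤ (mcl G (fun H => ¬ N₀ ≤ H)).ncard +
      (mcl (G ⧸ N₀) (fun H => ¬ N.map (QuotientGroup.mk' N₀) ≤ H)).ncard := by
  have hs : Function.Surjective (QuotientGroup.mk' N₀) := QuotientGroup.mk'_surjective N₀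
  have hsub : mcl G (fun H => ¬ N ≤ H) ⊆ mcl G (fun H => ¬ N₀ ≤ H) ∪
      (fun T : Set (Subgroup (G ⧸ N₀)) => (Subgroup.comap (QuotientGroup.mk' N₀)) '' T) ''
        mcl (G ⧸ N₀) (fun H => ¬ N.map (QuotientGroup.mk' N₀) ≤ H) := by
    rintro S ⟨H, hH, hN, rfl⟩
    by_cases h0 : N₀ ≤ H
    · right
      have hcm : (H.map (QuotientGroup.mk' N₀)).comap (QuotientGroup.mk' N₀) = H := by
        rw [Subgroup.comap_map_eq, QuotientGroup.ker_mk']
        exact sup_eq_left.2 h0
      refine ⟨Set.range (fun g : G ⧸ N₀ => cj g (H.map (QuotientGroup.mk' N₀))),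
        ⟨H.map (QuotientGroup.mk' N₀), ⟨?_, ?_⟩, ?_, rfl⟩, ?_⟩
      · intro htop
        rw [htop, Subgroup.comap_top] at hcm
        exact hH.1 hcm.symm
      · intro K hK
        have h1 : H < K.comap (QuotientGroup.mk' N₀) := by
          rw [← hcm]
          exact (Subgroup.comap_lt_comap_of_surjective hs).2 hK
        have h2 := hH.2 _ h1
        rw [← Subgroup.map_comap_eq_self_of_surjective hs K, h2]
        exact Subgroup.map_top_of_surjective _ hs
      · intro hle
        apply hN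
        have h1 := Subgroup.comap_mono (f := QuotientGroup.mk' N₀) hle
        rw [hcm] at h1
        exact (Subgroup.le_comap_map _ _).trans h1
      · have e : ∀ g : G, (cj (g : G ⧸ N₀) (H.map (QuotientGroup.mk' N₀))).comap
            (QuotientGroup.mk' N₀) = cj g H := by
          intro g
          ext x
          rw [Subgroup.mem_comap, mem_cj, mem_cj]
          have e1 : ((g : G ⧸ N₀))⁻¹ * (QuotientGroup.mk' N₀) x * (g : G ⧸ N₀) =
              (QuotientGroup.mk' N₀) (g⁻¹ * x * g) := rfl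
          rw [e1, ← Subgroup.mem_comap, hcm]
        apply Set.eq_of_subset_of_subset
        · rintro _ ⟨_, ⟨q, rfl⟩, rfl⟩
          obtain ⟨g, rfl⟩ := QuotientGroup.mk_surjective q
          exact ⟨g, (e g).symm⟩
        · rintro _ ⟨g, rfl⟩
          exact ⟨_, ⟨(g : G ⧸ N₀), rfl⟩, e g⟩
    · left
      exact ⟨H, hH, h0, rfl⟩
  calc (mcl G (fun H => ¬ N ≤ H)).ncard ≤ _ := Set.ncard_le_ncard hsub (Set.toFinite _)
    _ ≤ _ := Set.ncard_union_le _ _
    _ ≤ _ := Nat.add_le_add_left (Set.ncard_image_le (Set.toFinite _)) _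

end MX
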