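import Pool.Agent.helper81.MX.Defs4

/-!
# Row A06 of project MX
-/

set_option autoImplicit false

namespace MX

section A06

/-- additive maps to `ZMod p` as linear forms -/
def A06_e (W : Type*) [AddCommGroup W] (p : ℕ) [Fact p.Prime] [Module (ZMod p) W] :
    (W →+ ZMod p) ≃ Module.Dual (ZMod p) W where
  toFun f := f.toZModLinearMap p
  invFun g := g.toAddMonoidHom
  left_inv f := by
    ext w
    rfl
  right_inv g := by
    ext w
    rfl

/-- linear forms as additive maps -/
def A06_h (W : Type*) [AddCommGroup W] (p : ℕ) [Fact p.Prime] [Module (ZMod p) W] :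
    Module.Dual (ZMod p) W →+ (W →+ ZMod p) where
  toFun g := g.toAddMonoidHom
  map_zero' := by
    ext w
    simp
  map_add' := by
    intro a b
    ext w
    simp

theorem A06_dual0 {W : Type*} [AddCommGroup W] [Finite W] (p : ℕ) [Fact p.Prime]
    [Module (ZMod p) W] : Nat.card (W →+ ZMod p) = Nat.card W := by
  have h1 : Nat.card (W →+ ZMod p) = Nat.card (Module.Dual (ZMod p) W) :=
    Nat.card_congr (A06_e W p)
  have hfin : Module.Finite (ZMod p) W := Module.Finite.of_finite
  have hfin2 : Finite (Module.Dual (ZMod p) W) := by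
    refine Finite.of_injective (fun (f : Module.Dual (ZMod p) W) (w : W) => f w) ?_
    intro a b h
    ext w
    exact congrFun h w
  have : Fintype W := Fintype.ofFinite W
  have : Fintype (Module.Dual (ZMod p) W) := Fintype.ofFinite _
  rw [h1, Nat.card_eq_fintype_card, Nat.card_eq_fintype_card,
    Module.card_eq_pow_finrank (K := ZMod p) (V := W),
    Module.card_eq_pow_finrank (K := ZMod p) (V := Module.Dual (ZMod p) W),
    Subspace.dual_finrank_eq]

/-- the dual of an elementary abelian group has the same order -/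
theorem A06_dual {W : Type*} [AddCommGroup W] [Finite W] (p : ℕ) [Fact p.Prime]
    (hp : ∀ w : W, p • w = 0) : Nat.card (W →+ ZMod p) = Nat.card W := by
  let _ : Module (ZMod p) W := AddCommGroup.zmodModule hp
  exact A06_dual0 p

theorem A06_sec0 {A B : Type*} [AddCommGroup A] [AddCommGroup B] (p : ℕ) [Fact p.Prime]
    [Module (ZMod p) A] [Module (ZMod p) B] (f : A →+ B)
    (hf : Function.Surjective f) : ∃ s : B →+ A, ∀ b, f (s b) = b := by
  let g : A →ₗ[ZMod p] B := f.toZModLinearMap p
  have hg : LinearMap.range g = ⊤ := LinearMap.range_eq_top.2 hf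
  obtain ⟨s, hs⟩ := LinearMap.exists_rightInverse_of_surjective g hg
  refine ⟨s.toAddMonoidHom, ?_⟩
  intro b
  have h1 := congrArg (fun g : B →ₗ[ZMod p] B => g b) hs
  exact h1

/-- additive sections -/
theorem A06_sec {A B : Type*} [AddCommGroup A] [AddCommGroup B] (p : ℕ) [Fact p.Prime]
    (hA : ∀ a : A, p • a = 0) (hB : ∀ b : B, p • b = 0) (f : A →+ B)
    (hf : Function.Surjective f) : ∃ s : B →+ A, ∀ b, f (s b) = b := by
  let _ : Module (ZMod p) A := AddCommGroup.zmodModule hA
  let _ : Module (ZMod p) B := AddCommGroup.zmodModule hB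
  exact A06_sec0 p f hf

theorem A06_ann0 {W : Type*} [AddCommGroup W] [Finite W] (p : ℕ) [Fact p.Prime]
    [Module (ZMod p) W] (S : AddSubgroup (W →+ ZMod p))
    (hS : ∀ w : W, (∀ s ∈ S, s w = 0) → w = 0) : S = ⊤ := by
  have hfin : Module.Finite (ZMod p) W := Module.Finite.of_finite
  let U : Submodule (ZMod p) (Module.Dual (ZMod p) W) :=
    AddSubgroup.toZModSubmodule p (S.comap (A06_h W p))
  have h1 : U.dualCoannihilator = ⊥ := by
    rw [eq_bot_iff]
    intro w hw
    rw [Submodule.mem_bot]
    apply hS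
    intro s hs
    exact (Submodule.mem_dualCoannihilator w).1 hw (A06_e W p s) hs
  have h2 : U = ⊤ := by
    have h3 : U.dualCoannihilator.dualAnnihilator = U :=
      Subspace.dualCoannihilator_dualAnnihilator_eq
    rw [← h3, h1, Submodule.dualAnnihilator_bot]
  rw [eq_top_iff]
  intro s _
  have h3 : A06_e W p s ∈ U := by
    rw [h2]
    exact Submodule.mem_top
  exact h3

/-- a subgroup of the dual with trivial annihilator is everything -/
theorem A06_ann {W : Type*} [AddCommGroup W] [Finite W] (p : ℕ) [Fact p.Prime]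
    (hp : ∀ w : W, p • w = 0) (S : AddSubgroup (W →+ ZMod p))
    (hS : ∀ w : W, (∀ s ∈ S, s w = 0) → w = 0) : S = ⊤ := by
  let _ : Module (ZMod p) W := AddCommGroup.zmodModule hp
  exact A06_ann0 p S hS

variable {H Hq V : Type*} [Group H] [Group Hq] [AddCommGroup V] [DistribMulAction H V]
    [DistribMulAction Hq V]

theorem A06_one {α : H → V} (hα : α ∈ Der H V) : α 1 = 0 := by
  have h1 : α (1 * 1) = α 1 + (1 : H) • α 1 := hα 1 1
  rw [mul_one, one_smul] at h1
  exact left_eq_add.1 h1

theorem A06_inv {α : H → V} (hα : α ∈ Der H V) (g : H) : g • α g⁻¹ = -α g := by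
  have h1 : α (g * g⁻¹) = α g + g • α g⁻¹ := hα g g⁻¹
  rw [mul_inv_cancel, A06_one hα] at h1
  exact (neg_eq_of_add_eq_zero_right h1.symm).symm

/-- `α (g h g⁻¹) = α g + g • α h - g h g⁻¹ • α g` -/
theorem A06_conj {α : H → V} (hα : α ∈ Der H V) (g h : H) :
    α (g * h * g⁻¹) = α g + g • α h - (g * h * g⁻¹) • α g := by
  have h1 : α (g * h * g⁻¹) = α (g * h) + (g * h) • α g⁻¹ := hα (g * h) g⁻¹
  have h2 : α (g * h) = α g + g • α h := hα g h
  have h3 : (g * h) • α g⁻¹ = -((g * h * g⁻¹) • α g) := by
    rw [← smul_neg, ← A06_inv hα g, smul_smul]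
    congr 1
    group
  rw [h1, h2, h3]
  abel

end A06

theorem Phi_le_Dn {H Hq V : Type*} [Group H] [Group Hq] [AddCommGroup V] [DistribMulAction H V]
    [DistribMulAction Hq V] [Finite H] [Finite V] (q : H →* Hq) (hq : Function.Surjective q)
    (hact : ∀ (h : H) (v : V), h • v = q h • v) (hirr : Irr Hq V) (p : ℕ) [Fact p.Prime]
    (hp : ∀ v : V, p • v = 0) :
    Nat.card (PhiS V q) * Dn Hq V p ≤ Dn H V p := by
  classical
  have hfinH : Finite (H → V) := inferInstance
  have hpD : ∀ a : Der H V, p • a = 0 := by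
    intro a
    apply Subtype.ext
    funext h
    exact hp _
  have hpP : ∀ a : PhiS V q, p • a = 0 := by
    intro a
    apply Subtype.ext
    funext h
    exact hp _
  -- the restriction map
  let res : Der H V →+ PhiS V q :=
    { toFun := fun α => ⟨fun c => (α : H → V) c, ⟨α, α.2, fun _ => rfl⟩⟩
      map_zero' := rfl
      map_add' := fun _ _ => rfl }
  have hres : Function.Surjective res := by
    rintro ⟨f, α, hα, hf⟩
    refine ⟨⟨α, hα⟩, ?_⟩
    apply Subtype.ext
    funext c
    exact (hf c).symm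
  obtain ⟨s, hs⟩ := A06_sec p hpD hpP res hres
  have hsc : ∀ (φ : PhiS V q) (c : q.ker), ((s φ : Der H V) : H → V) c = (φ : q.ker → V) c := by
    intro φ c
    have h1 := hs φ
    exact congrFun (congrArg Subtype.val h1) c
  -- kernel elements act trivially
  have hker : ∀ (c : H), c ∈ q.ker → ∀ v : V, c • v = v := by
    intro c hc v
    rw [hact, MonoidHom.mem_ker.1 hc, one_smul]
  -- the form attached to a pair
  let Ψ : H → (V →+ ZMod p) → (PhiS V q →+ ZMod p) := fun h l =>
    { toFun := fun φ => l (((s φ : Der H V) : H → V) h)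
      map_zero' := by
        have h1 : ((s 0 : Der H V) : H → V) h = 0 := by
          rw [map_zero]
          rfl
        rw [h1, map_zero]
      map_add' := by
        intro φ ψ
        have h1 : ((s (φ + ψ) : Der H V) : H → V) h =
            ((s φ : Der H V) : H → V) h + ((s ψ : Der H V) : H → V) h := by
          rw [map_add]
          rfl
        rw [h1, map_add] }
  have hΨ : ∀ h l φ, Ψ h l φ = l (((s φ : Der H V) : H → V) h) := fun _ _ _ => rfl
  -- the image pair
  let im : Pr H V p → Pr Hq V p := fun x => ⟨(q x.1.1, x.1.2), x.2.1, fun v => by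
    have h1 := x.2.2 v
    rw [hact] at h1
    exact h1⟩
  let F0 : Pr H V p → Quotient (PrSetoid Hq V p) × (PhiS V q →+ ZMod p) := fun x =>
    (Quotient.mk (PrSetoid Hq V p) (im x), Ψ x.1.1 x.1.2)
  have hF0 : ∀ x y : Pr H V p, (PrSetoid H V p).r x y → F0 x = F0 y := by
    rintro x y ⟨g, h1, h2⟩
    apply Prod.ext
    · apply Quotient.sound
      refine ⟨q g, ?_, ?_⟩
      · show q y.1.1 = q g * q x.1.1 * (q g)⁻¹
        rw [h1, map_mul, map_mul, map_inv]
      · intro v
        show y.1.2 v = x.1.2 ((q g)⁻¹ • v)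
        rw [h2 v, hact, map_inv]
    · show Ψ x.1.1 x.1.2 = Ψ y.1.1 y.1.2
      ext φ
      rw [hΨ, hΨ, h2, h1, A06_conj (s φ).2 g x.1.1, smul_sub, smul_add, smul_smul, smul_smul,
        inv_mul_cancel, one_smul, map_sub, map_add]
      have h3 : g⁻¹ * (g * x.1.1 * g⁻¹) = x.1.1 * g⁻¹ := by group
      rw [h3, mul_smul, x.2.2]
      ring
  let F : Quotient (PrSetoid H V p) → Quotient (PrSetoid Hq V p) × (PhiS V q →+ ZMod p) :=
    Quotient.lift F0 hF0
  have hdual : Nat.card (PhiS V q →+ ZMod p) = Nat.card (PhiS V q) := A06_dual p hpP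
  -- the surjectivity
  have hsurj : Function.Surjective F := by
    rintro ⟨z, ψ⟩
    obtain ⟨⟨⟨k, l⟩, hl, hk⟩, rfl⟩ := Quotient.exists_rep z
    obtain ⟨h, rfl⟩ := hq k
    have hl' : l ≠ 0 := hl
    have hk' : ∀ v : V, l (h • v) = l v := by
      intro v
      rw [hact]
      exact hk v
    -- evaluation on the kernel
    have hphic : ∀ (φ : PhiS V q) (c d : q.ker),
        (φ : q.ker → V) (c * d) = (φ : q.ker → V) c + (φ : q.ker → V) d := by
      intro φ c d
      rw [← hsc φ (c * d), ← hsc φ c, ← hsc φ d]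
      have h1 : ((s φ : Der H V) : H → V) ((c : H) * (d : H)) = ((s φ : Der H V) : H → V) c +
        (c : H) • ((s φ : Der H V) : H → V) d := (s φ).2 c d
      rw [hker c c.2] at h1
      exact h1
    have hphi1 : ∀ (φ : PhiS V q), (φ : q.ker → V) 1 = 0 := by
      intro φ
      have h1 := hphic φ 1 1
      rw [mul_one] at h1
      exact left_eq_add.1 h1
    have hphii : ∀ (φ : PhiS V q) (c : q.ker), (φ : q.ker → V) c⁻¹ = -(φ : q.ker → V) c := by
      intro φ c
      have h1 := hphic φ c⁻¹ c
      rw [inv_mul_cancel, hphi1] at h1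
      exact (neg_eq_of_add_eq_zero_left h1.symm).symm
    let E : q.ker → (PhiS V q →+ ZMod p) := fun c =>
      { toFun := fun φ => l ((φ : q.ker → V) c)
        map_zero' := by
          have h1 : ((0 : PhiS V q) : q.ker → V) c = 0 := rfl
          rw [h1, map_zero]
        map_add' := by
          intro φ φ'
          have h1 : ((φ + φ' : PhiS V q) : q.ker → V) c =
            (φ : q.ker → V) c + (φ' : q.ker → V) c := rfl
          rw [h1, map_add] }
    have hE : ∀ c φ, E c φ = l ((φ : q.ker → V) c) := fun _ _ => rfl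
    let S : AddSubgroup (PhiS V q →+ ZMod p) :=
      { carrier := Set.range E
        zero_mem' := ⟨1, by
          ext φ
          rw [hE, hphi1, map_zero]
          rfl⟩
        add_mem' := by
          rintro _ _ ⟨c, rfl⟩ ⟨d, rfl⟩
          refine ⟨c * d, ?_⟩
          ext φ
          rw [AddMonoidHom.add_apply, hE, hE, hE, hphic, map_add]
        neg_mem' := by
          rintro _ ⟨c, rfl⟩
          refine ⟨c⁻¹, ?_⟩
          ext φ
          rw [AddMonoidHom.neg_apply, hE, hE, hphii, map_neg] }
    have hStop : S = ⊤ := by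
      apply A06_ann p hpP
      intro φ hφ
      have h0 : ∀ c : q.ker, l ((φ : q.ker → V) c) = 0 := fun c => hφ (E c) ⟨c, rfl⟩
      -- the image of the kernel is a submodule
      let U : AddSubgroup V :=
        { carrier := Set.range fun c : q.ker => (φ : q.ker → V) c
          zero_mem' := ⟨1, hphi1 φ⟩
          add_mem' := by
            rintro _ _ ⟨c, rfl⟩ ⟨d, rfl⟩
            exact ⟨c * d, hphic φ c d⟩
          neg_mem' := by
            rintro _ ⟨c, rfl⟩
            exact ⟨c⁻¹, hphii φ c⟩ }
      have hU : ∀ k : Hq, ∀ v ∈ U, k • v ∈ U := by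
        rintro k _ ⟨c, rfl⟩
        obtain ⟨g, rfl⟩ := hq k
        have hgc : g * (c : H) * g⁻¹ ∈ q.ker := (MonoidHom.normal_ker q).conj_mem _ c.2 g
        refine ⟨⟨g * (c : H) * g⁻¹, hgc⟩, ?_⟩
        show (φ : q.ker → V) ⟨g * (c : H) * g⁻¹, hgc⟩ = q g • (φ : q.ker → V) c
        rw [← hsc φ, ← hsc φ, ← hact, A06_conj (s φ).2 g (c : H), hker _ hgc]
        abel
      rcases hirr.2 U hU with h1 | h1
      · apply Subtype.ext
        funext c
        have h2 : (φ : q.ker → V) c ∈ U := ⟨c, rfl⟩
        rw [h1, AddSubgroup.mem_bot] at h2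
        exact h2
      · exfalso
        apply hl'
        ext v
        have h2 : v ∈ U := by
          rw [h1]
          exact AddSubgroup.mem_top v
        obtain ⟨c, rfl⟩ := h2
        exact h0 c
    have hmem : ψ - Ψ h l ∈ S := by
      rw [hStop]
      exact AddSubgroup.mem_top _
    obtain ⟨c, hc⟩ := hmem
    have hcl : ∀ v : V, l (((c : H) * h) • v) = l v := by
      intro v
      rw [mul_smul, hker _ c.2, hk']
    refine ⟨Quotient.mk (PrSetoid H V p) ⟨((c : H) * h, l), hl', hcl⟩, ?_⟩
    show F0 ⟨((c : H) * h, l), hl', hcl⟩ = _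
    apply Prod.ext
    · show Quotient.mk (PrSetoid Hq V p) _ = Quotient.mk (PrSetoid Hq V p) _
      congr 1
      apply Subtype.ext
      apply Prod.ext
      · show q ((c : H) * h) = q h
        rw [map_mul, MonoidHom.mem_ker.1 c.2, one_mul]
      · rfl
    · show Ψ ((c : H) * h) l = ψ
      have h1 : ψ = E c + Ψ h l := by
        rw [hc]
        abel
      rw [h1]
      ext φ
      rw [AddMonoidHom.add_apply, hE, hΨ, hΨ, ← hsc φ c]
      have h2 : ((s φ : Der H V) : H → V) ((c : H) * h) = ((s φ : Der H V) : H → V) c +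
        (c : H) • ((s φ : Der H V) : H → V) h := (s φ).2 c h
      rw [h2, hker c c.2, map_add]
  have hfin1 : Finite (V →+ ZMod p) := DFunLike.finite _
  have hfin2 : Finite (Pr H V p) := by
    unfold Pr
    infer_instance
  have hfin3 : Finite (Quotient (PrSetoid H V p)) := Quotient.finite _
  have hle := Nat.card_le_card_of_surjective F hsurj
  rw [Nat.card_prod, hdual, mul_comm] at hle
  exact hle

end MX
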