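import Pool.Agent.helper81.MX.Defs

set_option autoImplicit false

namespace MX
open scoped MatrixGroups

theorem M07_pa {G : Type*} [Group G] (L : Subgroup G) (g : G)
    (h : g ∈ Subgroup.normalizer (L : Set G)) :
    pa L g = L.normalizerMonoidHom.rangeRestrict ⟨g, h⟩ := by
  unfold pa
  rw [dif_pos h]

theorem M07_apply {G : Type*} [Group G] (L : Subgroup G) (g : G)
    (h : g ∈ Subgroup.normalizer (L : Set G)) (x : L) :
    ((L.normalizerMonoidHom ⟨g, h⟩) x : G) = g * x * g⁻¹ := rfl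

theorem M07_L {G : Type*} [Group G] (L : Subgroup G) (l : G) (hl : l ∈ L) :
    ((pa L l : AA L) : MulAut L) = MulAut.conj ⟨l, hl⟩ := by
  have hN : l ∈ Subgroup.normalizer (L : Set G) := Subgroup.le_normalizer hl
  rw [M07_pa L l hN]
  ext x
  rfl

theorem M07_mul {G : Type*} [Group G] (L : Subgroup G) (g : G) (hg : g ∈ Subgroup.normalizer (L : Set G))
    (h : G) (hh : h ∈ Subgroup.normalizer (L : Set G)) : pa L (g * h) = pa L g * pa L h := by
  rw [M07_pa L _ (Subgroup.mul_mem _ hg hh), M07_pa L _ hg, M07_pa L _ hh]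
  exact map_mul L.normalizerMonoidHom.rangeRestrict ⟨g, hg⟩ ⟨h, hh⟩

theorem M07_one {G : Type*} [Group G] (L : Subgroup G) : pa L 1 = 1 := by
  rw [M07_pa L 1 (Subgroup.one_mem _)]
  exact map_one _

theorem M07_inv {G : Type*} [Group G] (L : Subgroup G) (g : G)
    (hg : g ∈ Subgroup.normalizer (L : Set G)) : pa L g⁻¹ = (pa L g)⁻¹ := by
  rw [M07_pa L _ (Subgroup.inv_mem _ hg), M07_pa L _ hg]
  exact map_inv L.normalizerMonoidHom.rangeRestrict ⟨g, hg⟩

theorem M07_cent {G : Type*} [Group G] (L : Subgroup G) (g : G)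
    (hg : g ∈ Subgroup.normalizer (L : Set G)) :
    pa L g = 1 ↔ g ∈ Subgroup.centralizer (L : Set G) := by
  rw [M07_pa L _ hg]
  have h1 : L.normalizerMonoidHom.rangeRestrict ⟨g, hg⟩ = 1 ↔
      (⟨g, hg⟩ : Subgroup.normalizer (L : Set G)) ∈ L.normalizerMonoidHom.ker := by
    rw [MonoidHom.mem_ker]
    constructor
    · intro h
      exact congrArg Subtype.val h
    · intro h
      exact Subtype.ext h
  refine Iff.trans h1 ?_
  rw [Subgroup.normalizerMonoidHom_ker, Subgroup.mem_subgroupOf]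

/-- M07: the interface of `pa` -/
theorem pa_basic {G : Type*} [Group G] (L : Subgroup G) :
    (∀ g ∈ Subgroup.normalizer (L : Set G), ∀ h ∈ Subgroup.normalizer (L : Set G),
      pa L (g * h) = pa L g * pa L h) ∧
    pa L 1 = 1 ∧
    (∀ g ∈ Subgroup.normalizer (L : Set G), pa L g⁻¹ = (pa L g)⁻¹) ∧
    (∀ g ∈ Subgroup.normalizer (L : Set G),
      (pa L g = 1 ↔ g ∈ Subgroup.centralizer (L : Set G))) ∧
    (∀ a : AA L, ∃ g ∈ Subgroup.normalizer (L : Set G), pa L g = a) ∧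
    (∀ (l : G) (hl : l ∈ L), pa L l ∈ LA L ∧ ((pa L l : AA L) : MulAut L) = MulAut.conj ⟨l, hl⟩) ∧
    (∀ a ∈ LA L, ∃ l ∈ L, pa L l = a) ∧
    (∀ g ∈ Subgroup.normalizer (L : Set G), ∀ x : L,
      (((pa L g : AA L) : MulAut L) x : G) = g * x * g⁻¹) ∧
    (∀ g ∈ Subgroup.normalizer (L : Set G),
      (pa L g ∈ LA L ↔ g ∈ L ⊔ Subgroup.centralizer (L : Set G))) ∧
    (∀ (M : Subgroup G) (a : AA L),
      (a ∈ imA L M ↔ ∃ m ∈ M, m ∈ Subgroup.normalizer (L : Set G) ∧ pa L m = a)) := by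
  have hCN : Subgroup.centralizer (L : Set G) ≤ Subgroup.normalizer (L : Set G) :=
    Subgroup.centralizer_le_normalizer (L : Set G)
  have hLN : L ≤ Subgroup.normalizer (L : Set G) := Subgroup.le_normalizer
  have hsurjL : ∀ a ∈ LA L, ∃ l ∈ L, pa L l = a := by
    intro a ha
    rw [LA, Subgroup.mem_subgroupOf] at ha
    obtain ⟨⟨l, hl⟩, hla⟩ := ha
    refine ⟨l, hl, Subtype.ext ?_⟩
    rw [M07_L L l hl]
    exact hla
  have hmemL : ∀ (l : G) (_ : l ∈ L), pa L l ∈ LA L := by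
    intro l hl
    rw [LA, Subgroup.mem_subgroupOf, M07_L L l hl]
    exact ⟨⟨l, hl⟩, rfl⟩
  refine ⟨M07_mul L, M07_one L, M07_inv L, M07_cent L, ?_, fun l hl => ⟨hmemL l hl, M07_L L l hl⟩,
    hsurjL, ?_, ?_, ?_⟩
  · intro a
    obtain ⟨a, ⟨⟨g, hg⟩, hga⟩⟩ := a
    refine ⟨g, hg, ?_⟩
    rw [M07_pa L g hg]
    exact Subtype.ext hga
  · intro g hg x
    rw [M07_pa L g hg]
    rfl
  · intro g hg
    constructor
    · intro h
      obtain ⟨l, hl, hlg⟩ := hsurjL _ h
      have hlN := hLN hl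
      have h1 : pa L (l⁻¹ * g) = 1 := by
        rw [M07_mul L _ (Subgroup.inv_mem _ hlN) _ hg, M07_inv L l hlN, hlg, inv_mul_cancel]
      rw [M07_cent L _ (Subgroup.mul_mem _ (Subgroup.inv_mem _ hlN) hg)] at h1
      have e : g = l * (l⁻¹ * g) := by group
      rw [e]
      exact Subgroup.mul_mem_sup hl h1
    · intro h
      set W : Subgroup G := ((LA L).comap L.normalizerMonoidHom.rangeRestrict).map
        (Subgroup.normalizer (L : Set G)).subtype with hW
      have hWm : ∀ x (hx : x ∈ Subgroup.normalizer (L : Set G)), x ∈ W ↔ pa L x ∈ LA L := by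
        intro x hx
        rw [hW, Subgroup.mem_map]
        constructor
        · rintro ⟨⟨y, hy⟩, h1, h2⟩
          have e : y = x := h2
          subst e
          rw [M07_pa L y hx]
          exact h1
        · intro h1
          rw [M07_pa L x hx] at h1
          exact ⟨⟨x, hx⟩, h1, rfl⟩
      have h1 : L ≤ W := fun l hl => (hWm l (hLN hl)).2 (hmemL l hl)
      have h2 : Subgroup.centralizer (L : Set G) ≤ W := by
        intro z hz
        rw [hWm z (hCN hz), (M07_cent L z (hCN hz)).2 hz]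
        exact Subgroup.one_mem _
      exact (hWm g hg).1 (sup_le h1 h2 h)
  · intro M a
    rw [imA, Subgroup.mem_map]
    constructor
    · rintro ⟨⟨y, hy⟩, h1, h2⟩
      rw [Subgroup.mem_subgroupOf] at h1
      refine ⟨y, h1, hy, ?_⟩
      rw [M07_pa L y hy]
      exact h2
    · rintro ⟨m, hm, hmN, h1⟩
      rw [M07_pa L m hmN] at h1
      exact ⟨⟨m, hmN⟩, by rw [Subgroup.mem_subgroupOf]; exact hm, h1⟩

end MX
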