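import Pool.Agent.helper81.MX.Defs5
import Pool.Agent.helper81.MX.M07

set_option autoImplicit false

namespace MX
open scoped MatrixGroups

theorem C01_Df {A : Type*} [Group A] (K : Subgroup A) (hK : K.Normal) (a x : A)
    (hx : x ∈ Df K) : a⁻¹ * x * a ∈ Df K := by
  rcases hx with h | ⟨h1, h2⟩
  · left
    rw [h]; group
  · right
    constructor
    · intro h
      apply h1
      have h3 := hK.conj_mem _ h a
      have e : a * (a⁻¹ * x * a) * a⁻¹ = x := by group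
      rwa [e] at h3
    · have e : a⁻¹ * x * a * (a⁻¹ * x * a) = a⁻¹ * (x * x) * a := by group
      rw [e, h2]; group

theorem C01_normal {G : Type*} [Group G] (L : Subgroup G) : (LA L).Normal := by
  have h : (MulAut.conj : L →* MulAut L).range.Normal := by
    constructor
    rintro _ ⟨l, rfl⟩ s
    refine ⟨s l, ?_⟩
    ext x
    simp [MulAut.conj_apply]
  unfold LA
  exact Subgroup.normal_subgroupOf

theorem C01_pa {G : Type*} [Group G] (L : Subgroup G) (g t : G) (hg : g ∈ TT L) (ht : t ∈ TT L) :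
    pa L (t⁻¹ * g * t) = (pa L t)⁻¹ * pa L g * pa L t := by
  rw [M07_mul L _ (Subgroup.mul_mem _ (Subgroup.inv_mem _ ht) hg) _ ht,
    M07_mul L _ (Subgroup.inv_mem _ ht) _ hg, M07_inv L t ht]

theorem C01_mem {G : Type*} [Group G] (L : Subgroup G) (g r : G) :
    ((r : G ⧸ TT L) ∈ Mk L g ↔ r⁻¹ * g * r ∈ TT L ∧ pa L (r⁻¹ * g * r) ∉ Df (LA L)) := by
  constructor
  · rintro ⟨r', hr', h1, h2⟩
    have ht : r'⁻¹ * r ∈ TT L := QuotientGroup.eq.1 hr'
    have e : r⁻¹ * g * r = (r'⁻¹ * r)⁻¹ * (r'⁻¹ * g * r') * (r'⁻¹ * r) := by group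
    have hmem : r⁻¹ * g * r ∈ TT L := by
      rw [e]
      exact Subgroup.mul_mem _ (Subgroup.mul_mem _ (Subgroup.inv_mem _ ht) h1) ht
    refine ⟨hmem, ?_⟩
    intro h
    apply h2
    rw [e, C01_pa L _ _ h1 ht] at h
    have h3 := C01_Df (LA L) (C01_normal L) (pa L (r'⁻¹ * r))⁻¹ _ h
    have e2 : (pa L (r'⁻¹ * r))⁻¹⁻¹ * ((pa L (r'⁻¹ * r))⁻¹ * pa L (r'⁻¹ * g * r') * pa L (r'⁻¹ * r)) *
        (pa L (r'⁻¹ * r))⁻¹ = pa L (r'⁻¹ * g * r') := by group
    rwa [e2] at h3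
  · rintro ⟨h1, h2⟩
    exact ⟨r, rfl, h1, h2⟩

/-- C01 -/
theorem Mk_conj {G : Type*} [Group G] [Finite G] (L : Subgroup G) (g h : G) :
    Mk L (h * g * h⁻¹) = (fun i : G ⧸ TT L => h • i) '' Mk L g ∧
    (Mk L (h * g * h⁻¹)).ncard = (Mk L g).ncard ∧
    (∀ r : G, ((r : G ⧸ TT L) ∈ Mk L g ↔
      r⁻¹ * g * r ∈ TT L ∧ pa L (r⁻¹ * g * r) ∉ Df (LA L))) := by
  have key : Mk L (h * g * h⁻¹) = (fun i : G ⧸ TT L => h • i) '' Mk L g := by
    ext i
    induction i using QuotientGroup.induction_on with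
    | H r =>
      rw [C01_mem]
      constructor
      · intro hr
        refine ⟨((h⁻¹ * r : G) : G ⧸ TT L), ?_, ?_⟩
        · rw [C01_mem]
          have e : (h⁻¹ * r)⁻¹ * g * (h⁻¹ * r) = r⁻¹ * (h * g * h⁻¹) * r := by group
          rw [e]; exact hr
        · show ((h * (h⁻¹ * r) : G) : G ⧸ TT L) = (r : G ⧸ TT L)
          rw [mul_inv_cancel_left]
      · rintro ⟨j, hj, hji⟩
        induction j using QuotientGroup.induction_on with
        | H s =>
          have h1 : ((h * s : G) : G ⧸ TT L) = (r : G ⧸ TT L) := hji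
          have h2 : ((h⁻¹ * r : G) : G ⧸ TT L) = (s : G ⧸ TT L) := by
            rw [QuotientGroup.eq] at h1 ⊢
            have e : (h⁻¹ * r)⁻¹ * s = ((h * s)⁻¹ * r)⁻¹ := by group
            rw [e]
            exact Subgroup.inv_mem _ h1
          rw [← h2, C01_mem] at hj
          have e : (h⁻¹ * r)⁻¹ * g * (h⁻¹ * r) = r⁻¹ * (h * g * h⁻¹) * r := by group
          rw [e] at hj; exact hj
  refine ⟨key, ?_, C01_mem L g⟩
  rw [key]
  exact Set.ncard_image_of_injective _ (MulAction.injective h)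

end MX
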