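import Pool.Agent.helper81.MX.Defs

set_option autoImplicit false

/-!
# Row mx:M03 (MP_8aef6e_al), by helper29
-/

namespace MX
open scoped MatrixGroups

theorem M03_cent {G : Type*} [Group G] {L N : Subgroup G} (hM : Mfac L N) (g : G)
    (hg : g ∉ Subgroup.normalizer (L : Set G)) (x : G) (hx : x ∈ L) :
    g * x * g⁻¹ ∈ Subgroup.centralizer (L : Set G) := by
  have hmem : g * x * g⁻¹ ∈ cj g L := by
    rw [mem_cj]
    have e : g⁻¹ * (g * x * g⁻¹) * g = x := by group
    rw [e]
    exact hx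
  rcases hM.comm g with h | h
  · exfalso
    apply hg
    rw [Subgroup.mem_normalizer_iff]
    intro y
    constructor
    · intro hy
      have h2 : g * y * g⁻¹ ∈ cj g L := by
        rw [mem_cj]
        have e : g⁻¹ * (g * y * g⁻¹) * g = y := by group
        rw [e]
        exact hy
      rw [h] at h2
      exact h2
    · intro hy
      have h2 : g * y * g⁻¹ ∈ cj g L := by
        rw [h]
        exact hy
      rw [mem_cj] at h2
      have e : g⁻¹ * (g * y * g⁻¹) * g = y := by group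
      rw [e] at h2
      exact h2
  · rw [Subgroup.mem_centralizer_iff]
    intro y hy
    exact h y hy _ hmem

theorem M03_aux {G : Type*} [Group G] {L N : Subgroup G} (hM : Mfac L N)
    {ι : Type*} [DecidableEq ι] (r : ι → G)
    (hr : ∀ i j, i ≠ j → (r i)⁻¹ * r j ∉ Subgroup.normalizer (L : Set G))
    (x : ι → G) (hx : ∀ i, x i ∈ L) (s : Finset ι) :
    ∃ n ∈ N, (∀ i ∈ s, (x i)⁻¹ * ((r i)⁻¹ * n * r i) ∈ Subgroup.centralizer (L : Set G)) ∧
      ∀ g : G, (∀ i ∈ s, g⁻¹ * r i ∉ Subgroup.normalizer (L : Set G)) →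
        g⁻¹ * n * g ∈ Subgroup.centralizer (L : Set G) := by
  induction s using Finset.induction_on with
  | empty =>
    refine ⟨1, N.one_mem, fun i hi => absurd hi (Finset.notMem_empty i), fun g _ => ?_⟩
    rw [mul_one, inv_mul_cancel]
    exact one_mem _
  | insert a s ha ih =>
    obtain ⟨n, hn, h1, h2⟩ := ih
    have hN : r a * x a * (r a)⁻¹ ∈ N := by
      rw [hM.sup]
      refine Subgroup.mem_iSup_of_mem (r a) ?_
      rw [mem_cj]
      have e : (r a)⁻¹ * (r a * x a * (r a)⁻¹) * r a = x a := by group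
      rw [e]
      exact hx a
    refine ⟨r a * x a * (r a)⁻¹ * n, mul_mem hN hn, ?_, ?_⟩
    · intro i hi
      rw [Finset.mem_insert] at hi
      rcases hi with rfl | hi
      · have e : (x i)⁻¹ * ((r i)⁻¹ * (r i * x i * (r i)⁻¹ * n) * r i) = (r i)⁻¹ * n * r i := by group
        rw [e]
        refine h2 (r i) ?_
        intro j hj
        refine hr i j ?_
        rintro rfl
        exact ha hj
      · have hia : i ≠ a := by
          rintro rfl
          exact ha hi
        have k1 := M03_cent hM _ (hr i a hia) (x a) (hx a)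
        have k2 := h1 i hi
        have k3 : (x i)⁻¹ * ((r i)⁻¹ * (r a * x a * (r a)⁻¹ * n) * r i) =
            ((x i)⁻¹ * ((r i)⁻¹ * r a * x a * ((r i)⁻¹ * r a)⁻¹) * x i) * ((x i)⁻¹ * ((r i)⁻¹ * n * r i)) := by
          group
        have k4 : (x i)⁻¹ * ((r i)⁻¹ * r a * x a * ((r i)⁻¹ * r a)⁻¹) * x i =
            (r i)⁻¹ * r a * x a * ((r i)⁻¹ * r a)⁻¹ := by
          have k5 := (Subgroup.mem_centralizer_iff.mp k1) (x i) (hx i)
          rw [mul_assoc, ← k5, inv_mul_cancel_left]
        rw [k3, k4]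
        exact mul_mem k1 k2
    · intro g hg
      have k1 := M03_cent hM _ (hg a (Finset.mem_insert_self a s)) (x a) (hx a)
      have k2 := h2 g fun i hi => hg i (Finset.mem_insert_of_mem hi)
      have k3 : g⁻¹ * (r a * x a * (r a)⁻¹ * n) * g =
          (g⁻¹ * r a * x a * (g⁻¹ * r a)⁻¹) * (g⁻¹ * n * g) := by group
      rw [k3]
      exact mul_mem k1 k2

/-- M03 -/
theorem comp_exists {G : Type*} [Group G] {L N : Subgroup G} (hM : Mfac L N)
    {ι : Type*} [Finite ι] (r : ι → G)
    (hr : ∀ i j, i ≠ j → (r i)⁻¹ * r j ∉ Subgroup.normalizer (L : Set G))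
    (x : ι → G) (hx : ∀ i, x i ∈ L) :
    ∃ n ∈ N, (∀ i, (x i)⁻¹ * ((r i)⁻¹ * n * r i) ∈ Subgroup.centralizer (L : Set G)) ∧
      ∀ g : G, (∀ i, g⁻¹ * r i ∉ Subgroup.normalizer (L : Set G)) →
        g⁻¹ * n * g ∈ Subgroup.centralizer (L : Set G) := by
  classical
  have : Fintype ι := Fintype.ofFinite ι
  obtain ⟨n, hn, h1, h2⟩ := M03_aux hM r hr x hx Finset.univ
  exact ⟨n, hn, fun i => h1 i (Finset.mem_univ i), fun g hg => h2 g fun i _ => hg i⟩

end MX
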