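import Pool.Agent.helper81.MX.Defs5
import Pool.Agent.helper81.MX.M02
import Pool.Agent.helper81.MX.M03
import Pool.Agent.helper81.MX.M07

/-!
Row C02: adjusting an element by an element of `N` so that it has no marks.
-/

set_option autoImplicit false

namespace MX

theorem C02_conj {G : Type*} [Group G] {L : Subgroup G} (t : G) (ht : t ∈ TT L) (a : AA L)
    (ha : a ∈ LA L) : pa L t * a * (pa L t)⁻¹ ∈ LA L := by
  obtain ⟨p1, p2, p3, p4, p5, p6, p7, p8, p9, p10⟩ := pa_basic L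
  obtain ⟨l, hl, rfl⟩ := p7 a ha
  have hlT : l ∈ TT L := Subgroup.le_normalizer hl
  have h1 : t * l * t⁻¹ ∈ L := ((Subgroup.mem_normalizer_iff.1 ht) l).1 hl
  have h2 : pa L (t * l * t⁻¹) = pa L t * pa L l * (pa L t)⁻¹ := by
    rw [p1 _ (mul_mem ht hlT) _ (inv_mem ht), p1 _ ht _ hlT, p3 _ ht]
  rw [← h2]
  exact (p6 _ h1).1

theorem C02_Df {G : Type*} [Group G] {L : Subgroup G} (t : G) (ht : t ∈ TT L) (a : AA L)
    (ha : a ∈ Df (LA L)) : pa L t * a * (pa L t)⁻¹ ∈ Df (LA L) := by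
  rcases ha with rfl | ⟨h1, h2⟩
  · left
    rw [mul_one, mul_inv_cancel]
  · right
    refine ⟨fun h3 => h1 ?_, ?_⟩
    · have h4 := C02_conj t⁻¹ (inv_mem ht) _ h3
      obtain ⟨p1, p2, p3, p4, p5, p6, p7, p8, p9, p10⟩ := pa_basic L
      rw [p3 t ht] at h4
      have e : (pa L t)⁻¹ * (pa L t * a * (pa L t)⁻¹) * (pa L t)⁻¹⁻¹ = a := by group
      rwa [e] at h4
    · have e : pa L t * a * (pa L t)⁻¹ * (pa L t * a * (pa L t)⁻¹) =
          pa L t * (a * a) * (pa L t)⁻¹ := by group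
      rw [e, h2, mul_one, mul_inv_cancel]

/-- a marked coset is marked for every representative -/
theorem C02_mark {G : Type*} [Group G] {L : Subgroup G} (g : G) (i : G ⧸ TT L) (s : G)
    (hs : (s : G ⧸ TT L) = i) (hi : i ∈ Mk L g) :
    s⁻¹ * g * s ∈ TT L ∧ pa L (s⁻¹ * g * s) ∉ Df (LA L) := by
  obtain ⟨r, hr, h1, h2⟩ := hi
  obtain ⟨p1, p2, p3, p4, p5, p6, p7, p8, p9, p10⟩ := pa_basic L
  have ht : r⁻¹ * s ∈ TT L := by
    rw [← QuotientGroup.eq]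
    exact hr.trans hs.symm
  have e : s⁻¹ * g * s = (r⁻¹ * s)⁻¹ * (r⁻¹ * g * r) * (r⁻¹ * s) := by group
  refine ⟨?_, fun h3 => h2 ?_⟩
  · rw [e]
    exact mul_mem (mul_mem (inv_mem ht) h1) ht
  · rw [e, p1 _ (mul_mem (inv_mem ht) h1) _ ht, p1 _ (inv_mem ht) _ h1, p3 _ ht] at h3
    have h4 := C02_Df _ ht _ h3
    have e2 : pa L (r⁻¹ * s) * ((pa L (r⁻¹ * s))⁻¹ * pa L (r⁻¹ * g * r) * pa L (r⁻¹ * s)) *
        (pa L (r⁻¹ * s))⁻¹ = pa L (r⁻¹ * g * r) := by group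
    rwa [e2] at h4

/-- prescribed components -/
theorem C02_comp {G : Type*} [Group G] [Finite G] {L N : Subgroup G} (hMf : Mfac L N)
    (x : G ⧸ TT L → G) (hx : ∀ i, x i ∈ L) :
    ∃ (r : G ⧸ TT L → G) (n : G), n ∈ N ∧ (∀ i, (r i : G ⧸ TT L) = i) ∧
      r ((1 : G) : G ⧸ TT L) = 1 ∧ ∀ i, (x i)⁻¹ * ((r i)⁻¹ * n * r i) ∈ CC L := by
  classical
  let r : G ⧸ TT L → G := fun i => if i = ((1 : G) : G ⧸ TT L) then 1 else Quotient.out i
  have hr : ∀ i, (r i : G ⧸ TT L) = i := by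
    intro i
    by_cases hi : i = ((1 : G) : G ⧸ TT L)
    · simp only [r, if_pos hi]
      exact hi.symm
    · simp only [r, if_neg hi]
      exact Quotient.out_eq' i
  have hr2 : ∀ i j, i ≠ j → (r i)⁻¹ * r j ∉ Subgroup.normalizer (L : Set G) := by
    intro i j hij h
    apply hij
    rw [← hr i, ← hr j]
    exact QuotientGroup.eq.2 h
  obtain ⟨n, hn, h1, _⟩ := comp_exists hMf r hr2 x hx
  exact ⟨r, n, hn, hr, by simp [r], h1⟩

theorem C02_pa {G : Type*} [Group G] {L : Subgroup G} (r n g x : G)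
    (hx : x ∈ L) (h : x⁻¹ * (r⁻¹ * n * r) ∈ CC L) (hm : r⁻¹ * (g * n) * r ∈ TT L) :
    r⁻¹ * g * r ∈ TT L ∧ pa L (r⁻¹ * (g * n) * r) = pa L (r⁻¹ * g * r) * pa L x := by
  obtain ⟨p1, p2, p3, p4, p5, p6, p7, p8, p9, p10⟩ := pa_basic L
  have hxT : x ∈ TT L := Subgroup.le_normalizer hx
  have hcT : x⁻¹ * (r⁻¹ * n * r) ∈ TT L := Subgroup.centralizer_le_normalizer _ h
  have hnT : r⁻¹ * n * r ∈ TT L := by
    have := mul_mem hxT hcT
    rwa [mul_inv_cancel_left] at this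
  have hg : r⁻¹ * g * r ∈ TT L := by
    have := mul_mem hm (inv_mem hnT)
    have e : r⁻¹ * (g * n) * r * (r⁻¹ * n * r)⁻¹ = r⁻¹ * g * r := by group
    rwa [e] at this
  refine ⟨hg, ?_⟩
  have e : r⁻¹ * (g * n) * r = r⁻¹ * g * r * (x * (x⁻¹ * (r⁻¹ * n * r))) := by group
  rw [e, p1 _ hg _ (mul_mem hxT hcT), p1 _ hxT _ hcT, (p4 _ hcT).2 h, mul_one]

/-- C02 -/
theorem adjust {G : Type*} [Group G] [Finite G] {L N : Subgroup G} (hMf : Mfac L N)
    (hd : ∀ a : AA L, ∃ l ∈ LA L, a * l ∈ Df (LA L)) (g : G) :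
    (∃ n ∈ N, Mk L (g * n) = ∅) ∧
    (g ∈ TT L → ∀ a : AA L, (pa L g)⁻¹ * a ∈ LA L → ∃ n ∈ N, pa L (g * n) = a ∧
      ∀ i ∈ Mk L (g * n), i = ((1 : G) : G ⧸ TT L)) := by
  classical
  obtain ⟨p1, p2, p3, p4, p5, p6, p7, p8, p9, p10⟩ := pa_basic L
  -- the default component
  have hdef : ∀ s : G, ∃ x ∈ L, pa L (s⁻¹ * g * s) * pa L x ∈ Df (LA L) := by
    intro s
    obtain ⟨l, hl, h1⟩ := hd (pa L (s⁻¹ * g * s))
    obtain ⟨x, hx, rfl⟩ := p7 l hl
    exact ⟨x, hx, h1⟩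
  choose X hX1 hX2 using hdef
  -- representatives
  let r : G ⧸ TT L → G := fun i => if i = ((1 : G) : G ⧸ TT L) then 1 else Quotient.out i
  have hr : ∀ i, (r i : G ⧸ TT L) = i := by
    intro i
    by_cases hi : i = ((1 : G) : G ⧸ TT L)
    · simp only [r, if_pos hi]
      exact hi.symm
    · simp only [r, if_neg hi]
      exact Quotient.out_eq' i
  have hr1 : r ((1 : G) : G ⧸ TT L) = 1 := by simp [r]
  have hr2 : ∀ i j, i ≠ j → (r i)⁻¹ * r j ∉ Subgroup.normalizer (L : Set G) := by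
    intro i j hij h
    apply hij
    rw [← hr i, ← hr j]
    exact QuotientGroup.eq.2 h
  constructor
  · obtain ⟨n, hn, h1, _⟩ := comp_exists hMf r hr2 (fun i => X (r i)) (fun i => hX1 _)
    refine ⟨n, hn, ?_⟩
    rw [Set.eq_empty_iff_forall_notMem]
    intro i hi
    obtain ⟨h2, h3⟩ := C02_mark (g * n) i (r i) (hr i) hi
    obtain ⟨_, h4⟩ := C02_pa (r i) n g (X (r i)) (hX1 _) (h1 i) h2
    rw [h4] at h3
    exact h3 (hX2 (r i))
  · intro hg a ha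
    obtain ⟨x, hx, hxa⟩ := p7 _ ha
    obtain ⟨n, hn, h1, _⟩ := comp_exists hMf r hr2
      (fun i => if i = ((1 : G) : G ⧸ TT L) then x else X (r i))
      (fun i => by
        by_cases hi : i = ((1 : G) : G ⧸ TT L)
        · simp only [if_pos hi]; exact hx
        · simp only [if_neg hi]; exact hX1 _)
    refine ⟨n, hn, ?_, ?_⟩
    · have h2 := h1 ((1 : G) : G ⧸ TT L)
      rw [if_pos rfl, hr1] at h2
      have hnN : n ∈ TT L := (Mfac_basic hMf).2.1 hn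
      have hm : (1 : G)⁻¹ * (g * n) * 1 ∈ TT L := by
        rw [inv_one, one_mul, mul_one]
        exact mul_mem hg hnN
      obtain ⟨_, h4⟩ := C02_pa 1 n g x hx h2 hm
      rw [inv_one, one_mul, mul_one, one_mul, mul_one, hxa] at h4
      rw [h4, mul_inv_cancel_left]
    · intro i hi
      by_contra hne
      obtain ⟨h2, h3⟩ := C02_mark (g * n) i (r i) (hr i) hi
      have h5 := h1 i
      rw [if_neg hne] at h5
      obtain ⟨_, h4⟩ := C02_pa (r i) n g (X (r i)) (hX1 _) h5 h2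
      rw [h4] at h3
      exact h3 (hX2 (r i))

end MX
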