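import Pool.Agent.helper81.MX.Defs5
import Pool.Agent.helper81.MX.M02
import Pool.Agent.helper81.MX.M03
import Pool.Agent.helper81.MX.M07

/-! Row C06: classes with two marks. -/

set_option autoImplicit false

namespace MX
open scoped MatrixGroups

theorem C06_conj {G : Type*} [Group G] (L : Subgroup G) (n : G) (hn : n ∈ TT L) (c : G)
    (hc : c ∈ CC L) : n⁻¹ * c * n ∈ CC L := by
  rw [Subgroup.mem_centralizer_iff]
  intro x hx
  have hx' : n * x * n⁻¹ ∈ L := (Subgroup.mem_normalizer_iff.1 hn x).1 hx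
  have h := Subgroup.mem_centralizer_iff.1 hc _ hx'
  have e1 : x * (n⁻¹ * c * n) = n⁻¹ * ((n * x * n⁻¹) * c) * n := by group
  have e2 : n⁻¹ * c * n * x = n⁻¹ * (c * (n * x * n⁻¹)) * n := by group
  rw [e1, e2, h]

theorem C06_uniq {G : Type*} [Group G] {L : Subgroup G} (hd : L ⊓ CC L = ⊥) (y x x' : G)
    (hx : x ∈ L) (hx' : x' ∈ L) (h : x⁻¹ * y ∈ CC L) (h' : x'⁻¹ * y ∈ CC L) : x = x' := by
  have h1 : x'⁻¹ * x ∈ L ⊓ CC L := by
    refine ⟨L.mul_mem (L.inv_mem hx') hx, ?_⟩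
    have e : x'⁻¹ * x = (x'⁻¹ * y) * (x⁻¹ * y)⁻¹ := by group
    rw [e]
    exact (CC L).mul_mem h' ((CC L).inv_mem h)
  rw [hd, Subgroup.mem_bot] at h1
  exact (inv_mul_eq_one.1 h1).symm

theorem C06_mark {G : Type*} [Group G] {L N : Subgroup G} (hMf : Mfac L N) (y : G) (hy : y ∈ N) :
    pa L y ∉ Df (LA L) ↔ y ∉ CC L := by
  obtain ⟨b1, b2, b3, b4, b5⟩ := Mfac_basic hMf
  obtain ⟨p1, p2, p3, p4, p5, p6, p7, p8⟩ := pa_basic L
  have hyT := b2 hy
  obtain ⟨l, hl, hlc⟩ := b4 y hy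
  have hlT : l ∈ Subgroup.normalizer (L : Set G) := Subgroup.le_normalizer hl
  have hLA : pa L y ∈ LA L := by
    have e : y = l * (l⁻¹ * y) := by group
    have hcT : l⁻¹ * y ∈ Subgroup.normalizer (L : Set G) :=
      Subgroup.mul_mem _ (Subgroup.inv_mem _ hlT) hyT
    rw [e, p1 l hlT _ hcT, (p4 _ hcT).2 hlc, mul_one]
    exact (p6 l hl).1
  have h1 : pa L y ∈ Df (LA L) ↔ pa L y = 1 := by
    constructor
    · rintro (h | h)
      · exact h
      · exact absurd hLA h.1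
    · intro h
      exact Or.inl h
  rw [h1, p4 y hyT]

/-- The element used for the overgroup `S`. -/
def C06_P {G : Type*} [Group G] (L N S : Subgroup G) (k : ℕ) (n : G) : Prop :=
  n ∈ N ∧ ∃ s ∈ S, s ∉ TT L ∧ ∃ x ∈ L, orderOf x = k ∧ x⁻¹ * n ∈ CC L ∧
    x⁻¹ * (s⁻¹ * n * s) ∈ CC L ∧ ∀ g : G, g⁻¹ ∉ TT L → g⁻¹ * s ∉ TT L → g⁻¹ * n * g ∈ CC L

theorem C06_ex {G : Type*} [Group G] {L N : Subgroup G} (hMf : Mfac L N) (S : Subgroup G)
    (hS : S ∈ BB L) (k : ℕ) (hk : ∃ x ∈ L, orderOf x = k) : ∃ n, C06_P L N S k n := by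
  obtain ⟨x, hx, hxk⟩ := hk
  obtain ⟨s, hs, hsT⟩ := SetLike.exists_of_lt (CovBy.lt hS)
  have hr : ∀ i j : Fin 2, i ≠ j → ((![1, s] : Fin 2 → G) i)⁻¹ * (![1, s] : Fin 2 → G) j ∉
      Subgroup.normalizer (L : Set G) := by
    intro i j hij
    fin_cases i <;> fin_cases j
    · exact absurd rfl hij
    · simpa using hsT
    · intro h
      apply hsT
      have := Subgroup.inv_mem _ h
      simpa using this
    · exact absurd rfl hij
  obtain ⟨n, hn, h1, h2⟩ := comp_exists hMf (![1, s] : Fin 2 → G) hr (fun _ => x) (fun _ => hx)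
  refine ⟨n, hn, s, hs, hsT, x, hx, hxk, ?_, ?_, ?_⟩
  · have := h1 0
    simpa using this
  · have := h1 1
    simpa using this
  · intro g hg hgs
    apply h2 g
    intro i
    fin_cases i
    · simpa using hg
    · simpa using hgs

theorem C06_set {G : Type*} [Group G] {L N : Subgroup G} [N.Normal] (hMf : Mfac L N)
    (n s x : G) (k : ℕ) (hk : 2 ≤ k) (hn : n ∈ N) (hsT : s ∉ TT L) (hx : x ∈ L)
    (hxk : orderOf x = k) (h1 : x⁻¹ * n ∈ CC L) (h2 : x⁻¹ * (s⁻¹ * n * s) ∈ CC L)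
    (h3 : ∀ g : G, g⁻¹ ∉ TT L → g⁻¹ * s ∉ TT L → g⁻¹ * n * g ∈ CC L) :
    Mk L n = {((1 : G) : G ⧸ TT L), (s : G ⧸ TT L)} := by
  obtain ⟨b1, b2, b3, b4, b5⟩ := Mfac_basic hMf
  have hNn : N.Normal := inferInstance
  have hx1 : x ∉ CC L := by
    intro h
    have : x ∈ L ⊓ CC L := ⟨hx, h⟩
    rw [b3, Subgroup.mem_bot] at this
    rw [this, orderOf_one] at hxk
    omega
  have hcj : ∀ r : G, r⁻¹ * n * r ∈ N := by
    intro r
    have := hNn.conj_mem n hn r⁻¹
    simpa using this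
  have hout : ∀ y : G, x⁻¹ * y ∈ CC L → y ∉ CC L := by
    intro y hy hyc
    apply hx1
    have e : x = y * (x⁻¹ * y)⁻¹ := by group
    rw [e]
    exact (CC L).mul_mem hyc ((CC L).inv_mem hy)
  ext i
  constructor
  · rintro ⟨r, rfl, hr1, hr2⟩
    rw [C06_mark hMf _ (hcj r)] at hr2
    by_contra hcon
    apply hr2
    rw [Set.mem_insert_iff, Set.mem_singleton_iff, not_or] at hcon
    apply h3
    · intro h
      apply hcon.1
      rw [QuotientGroup.eq]
      simpa using h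
    · intro h
      apply hcon.2
      rw [QuotientGroup.eq]
      exact h
  · intro hi
    rw [Set.mem_insert_iff, Set.mem_singleton_iff] at hi
    rcases hi with rfl | rfl
    · refine ⟨1, rfl, b2 (hcj 1), ?_⟩
      rw [C06_mark hMf _ (hcj 1)]
      apply hout
      simpa using h1
    · refine ⟨s, rfl, b2 (hcj s), ?_⟩
      rw [C06_mark hMf _ (hcj s)]
      exact hout _ h2

theorem C06_card {G : Type*} [Group G] {L N S : Subgroup G} [N.Normal] (hMf : Mfac L N)
    (n : G) (k : ℕ) (hk : 2 ≤ k) (h : C06_P L N S k n) : (Mk L n).ncard = 2 := by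
  obtain ⟨hn, s, hs, hsT, x, hx, hxk, h1, h2, h3⟩ := h
  rw [C06_set hMf n s x k hk hn hsT hx hxk h1 h2 h3, Set.ncard_pair]
  intro h
  rw [QuotientGroup.eq] at h
  apply hsT
  simpa using h

theorem C06_inj {G : Type*} [Group G] {L N : Subgroup G} [N.Normal] (hMf : Mfac L N)
    {S S' : Subgroup G} (hS : S ∈ BB L) (hS' : S' ∈ BB L)
    (n n' h : G) (k k' : ℕ) (hk : 2 ≤ k) (hk' : 2 ≤ k') (hP : C06_P L N S k n)
    (hP' : C06_P L N S' k' n') (hc : n' = h * n * h⁻¹) : k = k' ∧ S = S' := by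
  obtain ⟨hn, s, hs, hsT, x, hx, hxk, h1, h2, h3⟩ := hP
  obtain ⟨hn', s', hs', hsT', x', hx', hxk', h1', h2', h3'⟩ := hP'
  obtain ⟨b1, b2, b3, b4, b5⟩ := Mfac_basic hMf
  have hx1 : x ∉ CC L := by
    intro h
    have : x ∈ L ⊓ CC L := ⟨hx, h⟩
    rw [b3, Subgroup.mem_bot] at this
    rw [this, orderOf_one] at hxk
    omega
  have hout : ∀ y : G, x⁻¹ * y ∈ CC L → y ∉ CC L := by
    intro y hy hyc
    apply hx1
    have e : x = y * (x⁻¹ * y)⁻¹ := by group
    rw [e]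
    exact (CC L).mul_mem hyc ((CC L).inv_mem hy)
  have hTS : TT L ≤ S := (CovBy.lt hS).le
  have hTS' : TT L ≤ S' := (CovBy.lt hS').le
  have key : ∀ (r' t : G), t ∈ TT L → h = r' * t → x'⁻¹ * (r'⁻¹ * n' * r') ∈ CC L → k = k' := by
    intro r' t ht hr' hcc
    have e1 : n = t⁻¹ * (r'⁻¹ * n' * r') * t := by
      rw [hc, hr']; group
    have hxt : t⁻¹ * x' * t ∈ L := by
      have := (Subgroup.mem_normalizer_iff.1 (Subgroup.inv_mem _ ht) x').1 hx'
      simpa using this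
    have e2 : (t⁻¹ * x' * t)⁻¹ * n ∈ CC L := by
      have e3 : (t⁻¹ * x' * t)⁻¹ * n = t⁻¹ * (x'⁻¹ * (r'⁻¹ * n' * r')) * t := by
        rw [e1]; group
      rw [e3]
      exact C06_conj L t ht _ hcc
    have e4 := C06_uniq b3 n x (t⁻¹ * x' * t) hx hxt h1 e2
    rw [← hxk, ← hxk', e4]
    have e5 : t⁻¹ * x' * t = (MulAut.conj t⁻¹) x' := by simp [MulAut.conj_apply]
    rw [e5]
    exact (MulAut.conj t⁻¹).orderOf_eq x'
  -- `h T` is marked by `n'`
  have m1 : h ∈ TT L ∨ h⁻¹ * s' ∈ TT L := by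
    by_contra hcon
    rw [not_or] at hcon
    have h4 := h3' h (fun hh => hcon.1 (by simpa using Subgroup.inv_mem _ hh)) hcon.2
    have e : h⁻¹ * n' * h = n := by rw [hc]; group
    rw [e] at h4
    exact hout _ h1 h4
  have m2 : h * s ∈ TT L ∨ (h * s)⁻¹ * s' ∈ TT L := by
    by_contra hcon
    rw [not_or] at hcon
    have h4 := h3' (h * s) (fun hh => hcon.1 (by simpa using Subgroup.inv_mem _ hh)) hcon.2
    have e : (h * s)⁻¹ * n' * (h * s) = s⁻¹ * n * s := by rw [hc]; group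
    rw [e] at h4
    exact hout _ h2 h4
  have hkk : k = k' := by
    rcases m1 with m1 | m1
    · refine key 1 h m1 (by simp) ?_
      simpa using h1'
    · refine key s' (s'⁻¹ * h) ?_ (by group) h2'
      have := Subgroup.inv_mem _ m1
      simpa using this
  have hs'S : s' ∈ S := by
    rcases m1 with m1 | m1
    · rcases m2 with m2 | m2
      · exfalso
        apply hsT
        have := Subgroup.mul_mem _ (Subgroup.inv_mem _ m1) m2
        simpa using this
      · have e : s' = h * s * ((h * s)⁻¹ * s') := by group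
        rw [e]
        exact S.mul_mem (S.mul_mem (hTS m1) hs) (hTS m2)
    · rcases m2 with m2 | m2
      · have hh : h ∈ S := by
          have e : h = (h * s) * s⁻¹ := by group
          rw [e]
          exact S.mul_mem (hTS m2) (S.inv_mem hs)
        have e : s' = h * (h⁻¹ * s') := by group
        rw [e]
        exact S.mul_mem hh (hTS m1)
      · exfalso
        apply hsT
        have := Subgroup.mul_mem _ m1 (Subgroup.inv_mem _ m2)
        have e : h⁻¹ * s' * ((h * s)⁻¹ * s')⁻¹ = s := by group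
        rw [e] at this
        exact this
  refine ⟨hkk, ?_⟩
  have hlt : TT L < S ⊓ S' := by
    refine lt_of_le_of_ne (le_inf hTS hTS') ?_
    intro he
    apply hsT'
    rw [he]
    exact ⟨hs'S, hs'⟩
  have c1 : S ⊓ S' = S := by
    by_contra hne
    exact (show TT L ⋖ S from hS).2 hlt (lt_of_le_of_ne inf_le_left hne)
  have c2 : S ⊓ S' = S' := by
    by_contra hne
    exact (show TT L ⋖ S' from hS').2 hlt (lt_of_le_of_ne inf_le_right hne)
  rw [← c1, c2]

/-- C06 -/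
theorem Z2_count {G : Type*} [Group G] [Finite G] {L N : Subgroup G} [N.Normal] (hMf : Mfac L N)
    (h2 : ∃ x ∈ L, orderOf x = 2) (h3 : ∃ x ∈ L, orderOf x = 3) :
    2 * (BB L).ncard ≤ (Zm L 2).ncard := by
  classical
  have hex : ∀ q : Subgroup G × ℕ, q ∈ (BB L) ×ˢ ({2, 3} : Set ℕ) → ∃ n, C06_P L N q.1 q.2 n := by
    rintro ⟨S, k⟩ ⟨hS, hk⟩
    apply C06_ex hMf S hS
    rcases hk with hk | hk
    · change k = 2 at hk
      subst hk
      exact h2
    · change k = 3 at hk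
      subst hk
      exact h3
  have h2k : ∀ k : ℕ, k ∈ ({2, 3} : Set ℕ) → 2 ≤ k := by
    intro k hk
    rcases hk with hk | hk
    · exact hk.ge
    · change k = 3 at hk
      omega
  have hfin : (Zm L 2).Finite := Set.toFinite _
  have hcard : ((BB L) ×ˢ ({2, 3} : Set ℕ)).ncard = 2 * (BB L).ncard := by
    rw [Set.ncard_prod, Set.ncard_pair (by norm_num), mul_comm]
  rw [← hcard]
  refine Set.ncard_le_ncard_of_injOn
    (fun q => if h : ∃ n, C06_P L N q.1 q.2 n then ConjClasses.mk h.choose else ConjClasses.mk 1)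
    ?_ ?_ hfin
  · intro q hq
    have h := hex q hq
    simp only [dif_pos h]
    exact ⟨_, rfl, C06_card hMf _ q.2 (h2k _ hq.2) h.choose_spec⟩
  · intro q hq q' hq' heq
    have h := hex q hq
    have h' := hex q' hq'
    simp only [dif_pos h, dif_pos h'] at heq
    rw [ConjClasses.mk_eq_mk_iff_isConj, isConj_iff] at heq
    obtain ⟨c, hc⟩ := heq
    have hh := C06_inj hMf hq.1 hq'.1 _ _ c q.2 q'.2 (h2k _ hq.2) (h2k _ hq'.2) h.choose_spec
      h'.choose_spec hc.symm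
    exact Prod.ext hh.2 hh.1

end MX
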