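import Pool.Agent.helper81.MX.Defs5
import Pool.Agent.helper81.MX.M02
import Pool.Agent.helper81.MX.M07

/-!
Row B08: the kernel attached to a complement.
-/

set_option autoImplicit false

namespace MX

theorem B08_mem {G : Type*} [Group G] (N B : Subgroup G) [N.Normal] (x : G) :
    x ∈ N ⊔ B ↔ ∃ n ∈ N, ∃ b ∈ B, n * b = x := by
  rw [← SetLike.mem_coe, Subgroup.normal_mul, Set.mem_mul]
  rfl

/-- the order of a product with a normal subgroup with trivial intersection -/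
theorem B08_card {G : Type*} [Group G] [Finite G] (N B : Subgroup G) [N.Normal] (h : B ⊓ N = ⊥) :
    Nat.card (N ⊔ B : Subgroup G) = Nat.card N * Nat.card B := by
  rw [← Nat.card_prod]
  symm
  refine Nat.card_congr (Equiv.ofBijective
    (fun x : N × B => (⟨(x.1 : G) * (x.2 : G), (B08_mem N B _).2 ⟨x.1, x.1.2, x.2, x.2.2, rfl⟩⟩ :
      (N ⊔ B : Subgroup G))) ⟨?_, ?_⟩)
  · rintro ⟨⟨n, hn⟩, ⟨b, hb⟩⟩ ⟨⟨n', hn'⟩, ⟨b', hb'⟩⟩ hab
    have h1 : n * b = n' * b' := congrArg Subtype.val hab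
    have h2 : b * b'⁻¹ = n⁻¹ * n' := by
      have : n⁻¹ * (n * b) * b'⁻¹ = n⁻¹ * (n' * b') * b'⁻¹ := by rw [h1]
      calc b * b'⁻¹ = n⁻¹ * (n * b) * b'⁻¹ := by group
        _ = n⁻¹ * (n' * b') * b'⁻¹ := this
        _ = n⁻¹ * n' := by group
    have h3 : b * b'⁻¹ ∈ B ⊓ N :=
      ⟨B.mul_mem hb (B.inv_mem hb'), h2 ▸ N.mul_mem (N.inv_mem hn) hn'⟩
    rw [h, Subgroup.mem_bot] at h3
    have h4 : b = b' := mul_inv_eq_one.1 h3
    subst h4
    have h5 : n = n' := mul_right_cancel h1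
    subst h5
    rfl
  · rintro ⟨x, hx⟩
    obtain ⟨n, hn, b, hb, rfl⟩ := (B08_mem N B x).1 hx
    exact ⟨⟨⟨n, hn⟩, ⟨b, hb⟩⟩, rfl⟩

/-- `pa` on a subgroup of the normalizer which maps onto everything -/
theorem B08_pa {G : Type*} [Group G] [Finite G] (L B : Subgroup G) (hB : B ≤ TT L)
    (hs : ∀ a : AA L, ∃ b ∈ B, pa L b = a) :
    Nat.card B = Nat.card (B ⊓ CC L : Subgroup G) * Nat.card (AA L) := by
  obtain ⟨hmul, hone, hinv, hcent, -⟩ := pa_basic L
  set f : B →* AA L :=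
    { toFun := fun b => pa L b
      map_one' := hone
      map_mul' := fun a b => hmul a (hB a.2) b (hB b.2) } with hf
  have hsurj : Function.Surjective f := by
    intro a
    obtain ⟨b, hb, hba⟩ := hs a
    exact ⟨⟨b, hb⟩, hba⟩
  have h1 : Nat.card (B ⧸ f.ker) = Nat.card (AA L) :=
    Nat.card_congr (QuotientGroup.quotientKerEquivOfSurjective f hsurj).toEquiv
  have h2 : Nat.card f.ker = Nat.card (B ⊓ CC L : Subgroup G) := by
    refine Nat.card_congr ⟨fun x => ⟨x.1.1, x.1.2, (hcent _ (hB x.1.2)).1 x.2⟩,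
      fun x => ⟨⟨x.1, x.2.1⟩, (hcent _ (hB x.2.1)).2 x.2.2⟩, fun x => rfl, fun x => rfl⟩
  rw [Subgroup.card_eq_card_quotient_mul_card_subgroup f.ker, h1, h2, mul_comm]

/-- B08 -/
theorem key_mem {G : Type*} [Group G] [Finite G] {L N : Subgroup G} (hMf : Mfac L N)
    (hN : MinN N) (M : Subgroup G) (h1 : M ⊓ N = ⊥) (h2 : M ⊔ N = ⊤) (ht : imA L M = ⊤) :
    N ⊔ (M ⊓ CC L) ∈ QQ L N := by
  obtain ⟨hNn, -, -⟩ := hN
  obtain ⟨hLN, hNT, hLC, hcomp, -⟩ := Mfac_basic hMf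
  obtain ⟨hmul, hone, hinv, hcent, hsurj, hL1, hL2, -, hLA, him⟩ := pa_basic L
  have hCT : CC L ≤ TT L := Subgroup.centralizer_le_normalizer (L : Set G)
  have hLT : L ≤ TT L := Subgroup.le_normalizer
  have hLCT : L ⊔ CC L ≤ TT L := sup_le hLT hCT
  have hNLC : N ≤ L ⊔ CC L := by
    intro n hn
    obtain ⟨l, hl, hc⟩ := hcomp n hn
    have e : l * (l⁻¹ * n) = n := by group
    rw [← e]
    exact Subgroup.mul_mem _ (Subgroup.mem_sup_left hl) (Subgroup.mem_sup_right hc)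
  -- decomposition of elements
  have hdec : ∀ x : G, ∃ n ∈ N, ∃ m ∈ M, n * m = x := by
    intro x
    have hx : x ∈ N ⊔ M := by rw [sup_comm, h2]; exact Subgroup.mem_top x
    exact (B08_mem N M x).1 hx
  have hpaM : ∀ a : AA L, ∃ m ∈ M, m ∈ TT L ∧ pa L m = a := by
    intro a
    exact (him M a).1 (by rw [ht]; exact Subgroup.mem_top a)
  have hconjC : ∀ t ∈ TT L, ∀ c ∈ CC L, t * c * t⁻¹ ∈ CC L := by
    intro t ht' c hc
    have htc : t * c * t⁻¹ ∈ TT L := Subgroup.mul_mem _ (Subgroup.mul_mem _ ht' (hCT hc)) (Subgroup.inv_mem _ ht')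
    rw [← hcent _ htc, hmul _ (Subgroup.mul_mem _ ht' (hCT hc)) _ (Subgroup.inv_mem _ ht'),
      hmul _ ht' _ (hCT hc), hinv _ ht', (hcent _ (hCT hc)).2 hc, mul_one, mul_inv_cancel]
  have hQM : ∀ m ∈ M, m ∈ N ⊔ (M ⊓ CC L) → m ∈ CC L := by
    intro m hm hmQ
    obtain ⟨n, hn, c, hc, rfl⟩ := (B08_mem N _ m).1 hmQ
    have h3 : n ∈ M ⊓ N := by
      refine ⟨?_, hn⟩
      have := M.mul_mem hm (M.inv_mem hc.1)
      rwa [mul_inv_cancel_right] at this
    rw [h1, Subgroup.mem_bot] at h3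
    rw [h3, one_mul]
    exact hc.2
  refine ⟨le_sup_left, sup_le hNLC (inf_le_right.trans le_sup_right), ?_, ?_, ?_, ?_⟩
  · -- normality
    intro t htt q hq
    obtain ⟨n, hn, c, hc, rfl⟩ := (B08_mem N _ q).1 hq
    obtain ⟨n', hn', m, hm, rfl⟩ := hdec t
    have hmT : m ∈ TT L := by
      have := Subgroup.mul_mem _ (Subgroup.inv_mem _ (hNT hn')) htt
      rwa [inv_mul_cancel_left] at this
    have e : n' * m * (n * c) * (n' * m)⁻¹ = n' * (m * n * m⁻¹) * (m * c * m⁻¹) * n'⁻¹ := by group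
    rw [e]
    refine Subgroup.mul_mem _ (Subgroup.mul_mem _ (Subgroup.mul_mem _ ?_ ?_) ?_) ?_
    · exact Subgroup.mem_sup_left hn'
    · exact Subgroup.mem_sup_left (hNn.conj_mem n hn m)
    · exact Subgroup.mem_sup_right ⟨M.mul_mem (M.mul_mem hm hc.1) (M.inv_mem hm), hconjC m hmT c hc.2⟩
    · exact Subgroup.mem_sup_left (N.inv_mem hn')
  · -- order
    have c1 : Nat.card (N ⊔ (M ⊓ CC L) : Subgroup G) = Nat.card N * Nat.card (M ⊓ CC L : Subgroup G) := by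
      apply B08_card
      rw [eq_bot_iff, ← h1]
      exact inf_le_inf_right N inf_le_left
    have c2 : Nat.card (N ⊔ (M ⊓ TT L) : Subgroup G) = Nat.card N * Nat.card (M ⊓ TT L : Subgroup G) := by
      apply B08_card
      rw [eq_bot_iff, ← h1]
      exact inf_le_inf_right N inf_le_left
    have c3 : N ⊔ (M ⊓ TT L) = TT L := by
      refine le_antisymm (sup_le hNT inf_le_right) ?_
      intro t htt
      obtain ⟨n, hn, m, hm, rfl⟩ := hdec t
      have hmT : m ∈ TT L := by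
        have := Subgroup.mul_mem _ (Subgroup.inv_mem _ (hNT hn)) htt
        rwa [inv_mul_cancel_left] at this
      exact Subgroup.mul_mem _ (Subgroup.mem_sup_left hn) (Subgroup.mem_sup_right ⟨hm, hmT⟩)
    rw [c3] at c2
    have c4 := B08_pa L (TT L) le_rfl hsurj
    have c5 := B08_pa L (M ⊓ TT L) inf_le_right (fun a => by
      obtain ⟨m, hm, hmT, hma⟩ := hpaM a
      exact ⟨m, ⟨hm, hmT⟩, hma⟩)
    have e1 : (TT L ⊓ CC L : Subgroup G) = CC L := inf_eq_right.2 hCT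
    have e2 : (M ⊓ TT L ⊓ CC L : Subgroup G) = M ⊓ CC L := by
      rw [inf_assoc, e1]
    rw [e1] at c4
    rw [e2] at c5
    rw [c4, c5] at c2
    have hpos : 0 < Nat.card (AA L) := Nat.card_pos
    rw [c1]
    apply Nat.eq_of_mul_eq_mul_right hpos
    show Nat.card N * Nat.card (M ⊓ CC L : Subgroup G) * Nat.card (AA L) = _ * Nat.card (AA L)
    rw [mul_assoc]
    exact c2.symm
  · -- minimality
    intro K hQK hKL hKn
    have hsim := hMf.simple
    -- the trace of `K` on `L`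
    let K' : Subgroup L :=
      { carrier := {l | ∃ m ∈ K ⊓ M, m ∈ TT L ∧ pa L m = pa L (l : G)}
        one_mem' := ⟨1, Subgroup.one_mem _, Subgroup.one_mem _, rfl⟩
        mul_mem' := by
          rintro a b ⟨m, hm, hmT, hma⟩ ⟨m', hm', hmT', hmb⟩
          refine ⟨m * m', Subgroup.mul_mem _ hm hm', Subgroup.mul_mem _ hmT hmT', ?_⟩
          rw [hmul m hmT m' hmT', hma, hmb, ← hmul _ (hLT a.2) _ (hLT b.2)]
          rfl
        inv_mem' := by
          rintro a ⟨m, hm, hmT, hma⟩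
          refine ⟨m⁻¹, Subgroup.inv_mem _ hm, Subgroup.inv_mem _ hmT, ?_⟩
          rw [hinv m hmT, hma, ← hinv _ (hLT a.2)]
          rfl }
    have hK'n : K'.Normal := by
      refine ⟨?_⟩
      rintro l ⟨m, hm, hmT, hml⟩ x
      obtain ⟨m', hm', hmT', hmx⟩ := hpaM (pa L (x : G))
      have hm'L : m' ∈ L ⊔ CC L := (hLA m' hmT').1 (by rw [hmx]; exact (hL1 x x.2).1)
      refine ⟨m' * m * m'⁻¹, ⟨hKn m' hm'L m hm.1,
        M.mul_mem (M.mul_mem hm' hm.2) (M.inv_mem hm')⟩,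
        Subgroup.mul_mem _ (Subgroup.mul_mem _ hmT' hmT) (Subgroup.inv_mem _ hmT'), ?_⟩
      rw [hmul _ (Subgroup.mul_mem _ hmT' hmT) _ (Subgroup.inv_mem _ hmT'), hmul _ hmT' _ hmT,
        hinv _ hmT', hmx, hml, ← hinv _ (hLT x.2), ← hmul _ (hLT x.2) _ (hLT l.2),
        ← hmul _ (Subgroup.mul_mem _ (hLT x.2) (hLT l.2)) _ (Subgroup.inv_mem _ (hLT x.2))]
      rfl
    rcases hsim.eq_bot_or_eq_top_of_normal K' hK'n with hb | hb
    · left
      refine le_antisymm ?_ hQK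
      intro k hk
      obtain ⟨n, hn, m, hm, rfl⟩ := hdec k
      have hmK : m ∈ K := by
        have := K.mul_mem (K.inv_mem (hQK (Subgroup.mem_sup_left hn))) hk
        rwa [inv_mul_cancel_left] at this
      have hmT : m ∈ TT L := hLCT (hKL hmK)
      obtain ⟨l, hl, hlm⟩ := hL2 (pa L m) ((hLA m hmT).2 (hKL hmK))
      have h3 : (⟨l, hl⟩ : L) ∈ K' := ⟨m, ⟨hmK, hm⟩, hmT, hlm.symm⟩
      rw [hb, Subgroup.mem_bot] at h3
      have h4 : l = 1 := congrArg Subtype.val h3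
      rw [h4, hone] at hlm
      have h5 : m ∈ CC L := (hcent m hmT).1 hlm.symm
      exact Subgroup.mul_mem _ (Subgroup.mem_sup_left hn) (Subgroup.mem_sup_right ⟨hm, h5⟩)
    · right
      refine le_antisymm hKL ?_
      intro y hy
      obtain ⟨n, hn, m, hm, rfl⟩ := hdec y
      have hmL : m ∈ L ⊔ CC L := by
        have := Subgroup.mul_mem _ (Subgroup.inv_mem _ (hNLC hn)) hy
        rwa [inv_mul_cancel_left] at this
      have hmT : m ∈ TT L := hLCT hmL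
      obtain ⟨l, hl, hlm⟩ := hL2 (pa L m) ((hLA m hmT).2 hmL)
      have h3 : (⟨l, hl⟩ : L) ∈ K' := by rw [hb]; exact Subgroup.mem_top _
      obtain ⟨k, hk, hkT, hkl⟩ := h3
      have h4 : pa L (m * k⁻¹) = 1 := by
        rw [hmul _ hmT _ (Subgroup.inv_mem _ hkT), hinv _ hkT, hkl]
        simp only
        rw [hlm, mul_inv_cancel]
      have h5 : m * k⁻¹ ∈ CC L := (hcent _ (Subgroup.mul_mem _ hmT (Subgroup.inv_mem _ hkT))).1 h4
      have h6 : m * k⁻¹ ∈ K := hQK (Subgroup.mem_sup_right ⟨M.mul_mem hm (M.inv_mem hk.2), h5⟩)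
      have h7 : m ∈ K := by
        have := K.mul_mem h6 hk.1
        rwa [inv_mul_cancel_right] at this
      exact K.mul_mem (hQK (Subgroup.mem_sup_left hn)) h7
  · -- a commutator outside
    obtain ⟨x, hx, y, hy, hxy⟩ := hMf.nc
    obtain ⟨a, ha, haT, hax⟩ := hpaM (pa L x)
    obtain ⟨b, hb, hbT, hby⟩ := hpaM (pa L y)
    refine ⟨a, (hLA a haT).1 (by rw [hax]; exact (hL1 x hx).1), b,
      (hLA b hbT).1 (by rw [hby]; exact (hL1 y hy).1), fun hc => hxy ?_⟩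
    have h3 : a * b * a⁻¹ * b⁻¹ ∈ CC L :=
      hQM _ (M.mul_mem (M.mul_mem (M.mul_mem ha hb) (M.inv_mem ha)) (M.inv_mem hb)) hc
    have hxT := hLT hx
    have hyT := hLT hy
    have hpc : ∀ u v : G, u ∈ TT L → v ∈ TT L →
        pa L (u * v * u⁻¹ * v⁻¹) = pa L u * pa L v * (pa L u)⁻¹ * (pa L v)⁻¹ := by
      intro u v hu hv
      rw [hmul _ (Subgroup.mul_mem _ (Subgroup.mul_mem _ hu hv) (Subgroup.inv_mem _ hu)) _
        (Subgroup.inv_mem _ hv), hmul _ (Subgroup.mul_mem _ hu hv) _ (Subgroup.inv_mem _ hu),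
        hmul _ hu _ hv, hinv _ hu, hinv _ hv]
    have hcT : ∀ u v : G, u ∈ TT L → v ∈ TT L → u * v * u⁻¹ * v⁻¹ ∈ TT L := fun u v hu hv =>
      Subgroup.mul_mem _ (Subgroup.mul_mem _ (Subgroup.mul_mem _ hu hv) (Subgroup.inv_mem _ hu))
        (Subgroup.inv_mem _ hv)
    have h4 := (hcent _ (hcT a b haT hbT)).2 h3
    rw [hpc a b haT hbT, hax, hby, ← hpc x y hxT hyT] at h4
    have h5 : x * y * x⁻¹ * y⁻¹ ∈ L ⊓ CC L :=
      ⟨L.mul_mem (L.mul_mem (L.mul_mem hx hy) (L.inv_mem hx)) (L.inv_mem hy),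
        (hcent _ (hcT x y hxT hyT)).1 h4⟩
    rw [show L ⊓ CC L = ⊥ from hLC, Subgroup.mem_bot] at h5
    calc x * y = (x * y * x⁻¹ * y⁻¹) * (y * x) := by group
      _ = y * x := by rw [h5, one_mul]

end MX
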