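import Pool.Agent.helper81.MX.Defs

/-!
# Row M06 of project MX
-/

set_option autoImplicit false

namespace MX

open scoped MatrixGroups

section M06

variable {G : Type*} [Group G]

theorem M06_conj_mem (L : Subgroup G) (l : L) : MulAut.conj l ∈ AA L := by
  refine ⟨⟨(l : G), Subgroup.le_normalizer l.2⟩, ?_⟩
  ext x
  rfl

theorem M06_range_le (L : Subgroup G) : (MulAut.conj : L →* MulAut L).range ≤ AA L := by
  rintro _ ⟨l, rfl⟩
  exact M06_conj_mem L l

theorem M06_conj_conj {H : Type*} [Group H] (s : MulAut H) (l : H) :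
    s * MulAut.conj l * s⁻¹ = MulAut.conj (s l) := by
  ext x
  rw [MulAut.mul_apply, MulAut.mul_apply, MulAut.conj_apply, MulAut.conj_apply, map_mul, map_mul,
    map_inv, MulAut.apply_inv_self]

theorem M06_normal {H : Type*} [Group H] : (MulAut.conj : H →* MulAut H).range.Normal := by
  refine ⟨?_⟩
  rintro _ ⟨l, rfl⟩ s
  exact ⟨s l, (M06_conj_conj s l).symm⟩

theorem M06_inj {H : Type*} [Group H] (hs : IsSimpleGroup H) (hnc : ∃ a b : H, a * b ≠ b * a) :
    Function.Injective (MulAut.conj : H →* MulAut H) := by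
  rw [injective_iff_map_eq_one]
  intro l hl
  have h1 : ∀ x : H, l * x = x * l := by
    intro x
    have h2 : MulAut.conj l x = x := by
      rw [hl]
      rfl
    rw [MulAut.conj_apply] at h2
    calc l * x = l * x * l⁻¹ * l := by group
      _ = x * l := by rw [h2]
  have h3 : Subgroup.center H = ⊥ := by
    rcases hs.eq_bot_or_eq_top_of_normal (Subgroup.center H) inferInstance with h | h
    · exact h
    · exfalso
      obtain ⟨a, b, hab⟩ := hnc
      have h4 : a ∈ Subgroup.center H := by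
        rw [h]
        exact Subgroup.mem_top a
      exact hab ((Subgroup.mem_center_iff.1 h4 b).symm)
  have h5 : l ∈ Subgroup.center H := Subgroup.mem_center_iff.2 fun x => (h1 x).symm
  rw [h3, Subgroup.mem_bot] at h5
  exact h5

end M06

theorem Std_AA {G : Type*} [Group G] (L : Subgroup G) (hs : IsSimpleGroup L)
    (hnc : ∃ a ∈ L, ∃ b ∈ L, a * b ≠ b * a)
    (hL : ∃ p : ℕ, p.Prime ∧ 5 ≤ p ∧ Nonempty (L ≃* PSL(2, ZMod p))) : Std (LA L) := by
  have hnc' : ∃ a b : L, a * b ≠ b * a := by
    obtain ⟨a, ha, b, hb, hab⟩ := hnc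
    exact ⟨⟨a, ha⟩, ⟨b, hb⟩, fun h => hab (congrArg Subtype.val h)⟩
  have hinj := M06_inj hs hnc'
  refine ⟨?_, ?_, ?_⟩
  · have h1 : (MulAut.conj : L →* MulAut L).range.Normal := M06_normal
    unfold LA
    exact Subgroup.Normal.subgroupOf h1 (AA L)
  · intro a ha
    apply Subtype.ext
    have h1 : ∀ l : L, (a : MulAut L) l = l := by
      intro l
      apply hinj
      have h2 := ha ⟨MulAut.conj l, M06_conj_mem L l⟩ ⟨l, rfl⟩
      have h3 : (a : MulAut L) * MulAut.conj l = MulAut.conj l * (a : MulAut L) :=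
        congrArg Subtype.val h2
      rw [← M06_conj_conj, h3, mul_inv_cancel_right]
    ext l
    rw [h1 l]
    rfl
  · obtain ⟨p, hp, hp5, ⟨e⟩⟩ := hL
    refine ⟨p, hp, hp5, ⟨?_⟩⟩
    have e1 : L ≃* (MulAut.conj : L →* MulAut L).range := MonoidHom.ofInjective hinj
    have e2 : LA L ≃* (MulAut.conj : L →* MulAut L).range :=
      Subgroup.subgroupOfEquivOfLe (M06_range_le L)
    exact (e2.trans e1.symm).trans e

end MX
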