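import Pool.Agent.helper81.MX.B07
import Pool.Agent.helper81.MX.M06

/-!
# Row B09 of project MX
-/

set_option autoImplicit false

namespace MX

open scoped MatrixGroups

section abstractpart

variable {T A : Type*} [Group T] [Group A]

theorem B09_ext (S : Subgroup A) (hS : S.Normal)
    (hc : ∀ a : A, (∀ x ∈ S, a * x = x * a) → a = 1) (ρ₀ ρ ρ' : T →* A)
    (hρ : Function.Surjective ρ) (h0 : ∀ g, ρ g ∈ S → ρ₀ g ∈ S) (x : A)
    (h : ∀ g, ρ₀ g ∈ S → ρ' g = x * ρ g * x⁻¹) (g : T) : ρ' g = x * ρ g * x⁻¹ := by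
  have h1 : (ρ g)⁻¹ * x⁻¹ * ρ' g * x = 1 := by
    apply hc
    intro z hz
    obtain ⟨k, rfl⟩ := hρ z
    have h2 := h k (h0 k hz)
    have h3 := h (g * k * g⁻¹) (by
      rw [map_mul, map_mul, map_inv]
      exact hS.conj_mem _ (h0 k hz) _)
    rw [map_mul, map_mul, map_inv, h2, map_mul, map_mul, map_inv] at h3
    have h4 : (ρ g)⁻¹ * x⁻¹ * ρ' g * x * ρ k * ((ρ g)⁻¹ * x⁻¹ * ρ' g * x)⁻¹ = ρ k := by
      calc (ρ g)⁻¹ * x⁻¹ * ρ' g * x * ρ k * ((ρ g)⁻¹ * x⁻¹ * ρ' g * x)⁻¹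
          = (ρ g)⁻¹ * x⁻¹ * (ρ' g * (x * ρ k * x⁻¹) * (ρ' g)⁻¹) * x * ρ g := by group
        _ = (ρ g)⁻¹ * x⁻¹ * (x * (ρ g * ρ k * (ρ g)⁻¹) * x⁻¹) * x * ρ g := by rw [h3]
        _ = ρ k := by group
    exact mul_inv_eq_iff_eq_mul.1 h4
  calc ρ' g = x * ρ g * ((ρ g)⁻¹ * x⁻¹ * ρ' g * x) * x⁻¹ := by group
    _ = x * ρ g * x⁻¹ := by rw [h1, mul_one]

theorem B09_b (S : Subgroup A) (ρ₀ ρ : T →* A) (h0 : Function.Surjective ρ₀)
    (h1 : Function.Surjective ρ) (hk : ∀ g, ρ₀ g = 1 ↔ ρ g = 1)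
    (hc : ∀ g, (ρ₀ g)⁻¹ * ρ g ∈ S) :
    ∃ b : MulAut S, ∀ g (h : ρ₀ g ∈ S), ((b ⟨ρ₀ g, h⟩ : S) : A) = ρ g := by
  have hker : ρ₀.ker ≤ ρ.ker := by
    intro g hg
    rw [MonoidHom.mem_ker] at hg ⊢
    exact (hk g).1 hg
  obtain ⟨β, hβ⟩ : ∃ β : A →* A, ∀ g, β (ρ₀ g) = ρ g :=
    ⟨ρ₀.liftOfSurjective h0 ⟨ρ, hker⟩, fun g =>
      ρ₀.liftOfRightInverse_comp_apply _ _ ⟨ρ, hker⟩ g⟩
  have hmem : ∀ a ∈ S, β a ∈ S := by
    intro a ha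
    obtain ⟨g, rfl⟩ := h0 a
    rw [hβ]
    have h2 := S.mul_mem ha (hc g)
    rwa [mul_inv_cancel_left] at h2
  let b0 : S →* S := (β.comp S.subtype).codRestrict S (fun a => hmem a a.2)
  have hb0 : ∀ a : S, ((b0 a : S) : A) = β a := fun _ => rfl
  have hinj : Function.Injective b0 := by
    rw [injective_iff_map_eq_one]
    intro a ha
    apply Subtype.ext
    obtain ⟨g, hg⟩ := h0 (a : A)
    have h2 : β a = 1 := by
      rw [← hb0, ha]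
      rfl
    rw [← hg, hβ] at h2
    rw [← hg]
    exact (hk g).2 h2
  have hsurj : Function.Surjective b0 := by
    intro y
    obtain ⟨g, hg⟩ := h1 (y : A)
    have h2 : ρ₀ g ∈ S := by
      have h3 := S.mul_mem y.2 (S.inv_mem (hc g))
      rw [← hg] at h3
      have e : ρ g * ((ρ₀ g)⁻¹ * ρ g)⁻¹ = ρ₀ g := by group
      rwa [e] at h3
    refine ⟨⟨ρ₀ g, h2⟩, ?_⟩
    apply Subtype.ext
    rw [hb0, hβ, hg]
  refine ⟨MulEquiv.ofBijective b0 ⟨hinj, hsurj⟩, ?_⟩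
  intro g h
  show ((b0 ⟨ρ₀ g, h⟩ : S) : A) = ρ g
  rw [hb0, hβ]

end abstractpart

section B09

variable {G : Type*} [Group G]

/-- the homomorphism attached to a complement -/
theorem B09_rho {L N : Subgroup G} (hMf : Mfac L N) (hNn : N.Normal) (M : Subgroup G)
    (h1 : M ⊓ N = ⊥) (h2 : M ⊔ N = ⊤) (ht : imA L M = ⊤) :
    ∃ ρ : TT L →* AA L, (∀ g : TT L, ∀ m ∈ M, m⁻¹ * g ∈ N → ρ g = pa L m) ∧
      Function.Surjective ρ ∧ (∀ g : TT L, ρ g = 1 ↔ (g : G) ∈ N ⊔ (M ⊓ CC L)) ∧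
      ∀ g : TT L, (ρ g)⁻¹ * pa L g ∈ LA L := by
  obtain ⟨hLN, hNT, _, hcomp, _⟩ := Mfac_basic hMf
  have hNT' : N ≤ TT L := hNT
  have hCT : CC L ≤ TT L := Subgroup.centralizer_le_normalizer (L : Set G)
  obtain ⟨pmul, pa1, pinv, pone, _, _, _, _, pLA, pim⟩ := pa_basic L
  have hex := fun g : G => B07_match hNn h2 g
  choose f hfM hf using hex
  have huniq : ∀ m ∈ M, ∀ m' ∈ M, m⁻¹ * m' ∈ N → m = m' := by
    intro m hm m' hm' h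
    have h3 : m⁻¹ * m' ∈ M ⊓ N := ⟨M.mul_mem (M.inv_mem hm) hm', h⟩
    rw [h1, Subgroup.mem_bot] at h3
    exact inv_mul_eq_one.1 h3
  have huniq' : ∀ g : G, ∀ m ∈ M, m⁻¹ * g ∈ N → f g = m := by
    intro g m hm h
    apply huniq _ (hfM g) _ hm
    have e : (f g)⁻¹ * m = ((f g)⁻¹ * g) * (m⁻¹ * g)⁻¹ := by group
    rw [e]
    exact N.mul_mem (hf g) (N.inv_mem h)
  have hfT : ∀ g ∈ TT L, f g ∈ TT L := by
    intro g hg
    have e : f g = g * ((f g)⁻¹ * g)⁻¹ := by group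
    rw [e]
    exact (TT L).mul_mem hg ((TT L).inv_mem (hNT' (hf g)))
  have hfmul : ∀ g h : G, f (g * h) = f g * f h := by
    intro g h
    apply huniq' _ _ (M.mul_mem (hfM g) (hfM h))
    have e : (f g * f h)⁻¹ * (g * h) =
      ((f h)⁻¹ * ((f g)⁻¹ * g) * (f h)⁻¹⁻¹) * ((f h)⁻¹ * h) := by group
    rw [e]
    exact N.mul_mem (hNn.conj_mem _ (hf g) _) (hf h)
  let ρ : TT L →* AA L := MonoidHom.mk' (fun g => pa L (f g)) (by
    intro a b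
    rw [Subgroup.coe_mul, hfmul, pmul _ (hfT _ a.2) _ (hfT _ b.2)])
  have hρ : ∀ g : TT L, ρ g = pa L (f g) := fun _ => rfl
  have hP : ∀ g : TT L, ∀ m ∈ M, m⁻¹ * g ∈ N → ρ g = pa L m := by
    intro g m hm h
    rw [hρ, huniq' _ m hm h]
  refine ⟨ρ, hP, ?_, ?_, ?_⟩
  · intro a
    have ha : a ∈ imA L M := by
      rw [ht]
      exact Subgroup.mem_top a
    obtain ⟨m, hm, hmT, hma⟩ := (pim M a).1 ha
    refine ⟨⟨m, hmT⟩, ?_⟩
    rw [hP ⟨m, hmT⟩ m hm (by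
      show m⁻¹ * m ∈ N
      rw [inv_mul_cancel]
      exact N.one_mem), hma]
  · intro g
    rw [hρ, pone _ (hfT _ g.2)]
    constructor
    · intro h
      have e : (g : G) = (f g * ((f g)⁻¹ * g) * (f g)⁻¹) * f g := by group
      rw [e]
      exact Subgroup.mul_mem _ (Subgroup.mem_sup_left (hNn.conj_mem _ (hf g) _))
        (Subgroup.mem_sup_right ⟨hfM g, h⟩)
    · intro h
      rw [sup_comm, Subgroup.mem_sup_of_normal_right] at h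
      obtain ⟨c, hc, n, hn, h3⟩ := h
      have h4 : f g = c := by
        apply huniq' _ _ hc.1
        rw [← h3, inv_mul_cancel_left]
        exact hn
      rw [h4]
      exact hc.2
  · intro g
    rw [hρ, ← pinv _ (hfT _ g.2), ← pmul _ ((TT L).inv_mem (hfT _ g.2)) _ g.2,
      pLA _ ((TT L).mul_mem ((TT L).inv_mem (hfT _ g.2)) g.2)]
    obtain ⟨l, hl, hlc⟩ := hcomp _ (hf g)
    have e : (f g)⁻¹ * (g : G) = l * (l⁻¹ * ((f g)⁻¹ * g)) := by group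
    rw [e]
    exact Subgroup.mul_mem _ (Subgroup.mem_sup_left hl) (Subgroup.mem_sup_right hlc)

theorem B09_SC [Finite G] {L N : Subgroup G} (hMf : Mfac L N) (hN : MinN N)
    (M M' : Subgroup G) (h1 : M ⊓ N = ⊥) (h2 : M ⊔ N = ⊤) (h1' : M' ⊓ N = ⊥)
    (h2' : M' ⊔ N = ⊤) (ρ ρ' : TT L →* AA L)
    (hP : ∀ g : TT L, ∀ m ∈ M, m⁻¹ * g ∈ N → ρ g = pa L m)
    (hP' : ∀ g : TT L, ∀ m ∈ M', m⁻¹ * g ∈ N → ρ' g = pa L m) (x : AA L) (hx : x ∈ LA L)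
    (h : ∀ g, ρ' g = x * ρ g * x⁻¹) : SC M M' := by
  obtain ⟨_, _, _, _, _, _, psur, _⟩ := pa_basic L
  obtain ⟨l, hl, rfl⟩ := psur x hx
  apply compl_conj hMf hN M M' h1 h2 h1' h2' l hl
  intro m hm m' hm' hmT hmm
  have h3 := h ⟨m, hmT⟩
  rw [hP ⟨m, hmT⟩ m hm (by
      show m⁻¹ * m ∈ N
      rw [inv_mul_cancel]
      exact N.one_mem), hP' ⟨m, hmT⟩ m' hm' (by
      show m'⁻¹ * m ∈ N
      have h4 := N.inv_mem hmm
      rwa [mul_inv_rev, inv_inv] at h4)] at h3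
  exact h3

end B09

theorem case2a_three {G : Type*} [Group G] [Finite G] {L N : Subgroup G} (hMf : Mfac L N)
    (hN : MinN N)
    (hout : ∀ b₁ b₂ b₃ : MulAut (LA L), (∃ x : LA L, b₂ = MulAut.conj x * b₁) ∨
      (∃ x : LA L, b₃ = MulAut.conj x * b₁) ∨ (∃ x : LA L, b₃ = MulAut.conj x * b₂))
    (M : Fin 3 → Subgroup G) (h1 : ∀ i, M i ⊓ N = ⊥) (h2 : ∀ i, M i ⊔ N = ⊤)
    (ht : ∀ i, imA L (M i) = ⊤) (hk : ∀ i j, N ⊔ (M i ⊓ CC L) = N ⊔ (M j ⊓ CC L)) :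
    SC (M 0) (M 1) ∨ SC (M 0) (M 2) ∨ SC (M 1) (M 2) := by
  have hNn : N.Normal := hN.1
  have hinj := M06_inj (H := L) hMf.simple (by
    obtain ⟨a, ha, b, hb, hab⟩ := hMf.nc
    exact ⟨⟨a, ha⟩, ⟨b, hb⟩, fun h => hab (congrArg Subtype.val h)⟩)
  have hLAn : (LA L).Normal := by
    have h3 : (MulAut.conj : L →* MulAut L).range.Normal := M06_normal
    unfold LA
    exact Subgroup.Normal.subgroupOf h3 (AA L)
  have hcent : ∀ a : AA L, (∀ x ∈ LA L, a * x = x * a) → a = 1 := by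
    intro a ha
    apply Subtype.ext
    have h3 : ∀ l : L, (a : MulAut L) l = l := by
      intro l
      apply hinj
      have h4 := ha ⟨MulAut.conj l, M06_conj_mem L l⟩ ⟨l, rfl⟩
      have h5 : (a : MulAut L) * MulAut.conj l = MulAut.conj l * (a : MulAut L) :=
        congrArg Subtype.val h4
      rw [← M06_conj_conj, h5, mul_inv_cancel_right]
    ext l
    rw [h3 l]
    rfl
  have hex := fun i => B09_rho hMf hNn (M i) (h1 i) (h2 i) (ht i)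
  choose ρ hP hsurj hker hcong using hex
  have hkk : ∀ i j g, ρ i g = 1 ↔ ρ j g = 1 := by
    intro i j g
    rw [hker i g, hker j g, hk i j]
  have hcc : ∀ i j g, (ρ i g)⁻¹ * ρ j g ∈ LA L := by
    intro i j g
    have e : (ρ i g)⁻¹ * ρ j g = ((ρ i g)⁻¹ * pa L g) * ((ρ j g)⁻¹ * pa L g)⁻¹ := by group
    rw [e]
    exact (LA L).mul_mem (hcong i g) ((LA L).inv_mem (hcong j g))
  have hmem : ∀ i j g, ρ i g ∈ LA L → ρ j g ∈ LA L := by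
    intro i j g h
    have h3 := (LA L).mul_mem h (hcc i j g)
    rwa [mul_inv_cancel_left] at h3
  obtain ⟨b₁, hb₁⟩ := B09_b (LA L) (ρ 0) (ρ 1) (hsurj 0) (hsurj 1) (hkk 0 1) (hcc 0 1)
  obtain ⟨b₂, hb₂⟩ := B09_b (LA L) (ρ 0) (ρ 2) (hsurj 0) (hsurj 2) (hkk 0 2) (hcc 0 2)
  rcases hout 1 b₁ b₂ with ⟨x, hx⟩ | ⟨x, hx⟩ | ⟨x, hx⟩
  · left
    refine B09_SC hMf hN (M 0) (M 1) (h1 0) (h2 0) (h1 1) (h2 1) (ρ 0) (ρ 1) (hP 0) (hP 1) x x.2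
      (B09_ext (LA L) hLAn hcent (ρ 0) (ρ 0) (ρ 1) (hsurj 0) (fun _ h => h) x ?_)
    intro g hg
    rw [← hb₁ g hg, hx]
    rfl
  · right
    left
    refine B09_SC hMf hN (M 0) (M 2) (h1 0) (h2 0) (h1 2) (h2 2) (ρ 0) (ρ 2) (hP 0) (hP 2) x x.2
      (B09_ext (LA L) hLAn hcent (ρ 0) (ρ 0) (ρ 2) (hsurj 0) (fun _ h => h) x ?_)
    intro g hg
    rw [← hb₂ g hg, hx]
    rfl
  · right
    right
    refine B09_SC hMf hN (M 1) (M 2) (h1 1) (h2 1) (h1 2) (h2 2) (ρ 1) (ρ 2) (hP 1) (hP 2) x x.2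
      (B09_ext (LA L) hLAn hcent (ρ 0) (ρ 1) (ρ 2) (hsurj 1) (hmem 1 0) x ?_)
    intro g hg
    rw [← hb₂ g hg, hx, ← hb₁ g hg]
    rfl

end MX
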