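import Pool.Agent.helper81.MX.Defs

set_option autoImplicit false

namespace MX

/-- M04 -/
theorem comp_unique {G : Type*} [Group G] [Finite G] {L N : Subgroup G} (hN : MinN N) (hM : Mfac L N)
    (n : G) (hn : n ∈ N) (h : ∀ g : G, g⁻¹ * n * g ∈ Subgroup.centralizer (L : Set G)) : n = 1 := by
  obtain ⟨hNn, -, hmin⟩ := hN
  have hcomm : ∀ y ∈ N, y * n = n * y := by
    have hle : N ≤ Subgroup.centralizer ({n} : Set G) := by
      rw [hM.sup]
      refine iSup_le fun g => ?_
      intro x hx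
      rw [mem_cj] at hx
      rw [Subgroup.mem_centralizer_singleton_iff]
      have h1 := (Subgroup.mem_centralizer_iff.1 (h g)) _ hx
      have h2 : g⁻¹ * (x * n) * g = g⁻¹ * (n * x) * g := by
        calc g⁻¹ * (x * n) * g = (g⁻¹ * x * g) * (g⁻¹ * n * g) := by group
          _ = (g⁻¹ * n * g) * (g⁻¹ * x * g) := h1
          _ = g⁻¹ * (n * x) * g := by group
      exact mul_left_cancel (mul_right_cancel h2)
    intro y hy
    exact Subgroup.mem_centralizer_singleton_iff.1 (hle hy)
  let K : Subgroup G := N ⊓ Subgroup.centralizer (N : Set G)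
  have hK : K.Normal := by
    refine ⟨fun k hk g => ?_⟩
    obtain ⟨hk1, hk2⟩ := hk
    refine ⟨hNn.conj_mem k hk1 g, ?_⟩
    refine Subgroup.mem_centralizer_iff.2 fun y hy => ?_
    have hy' : g⁻¹ * y * g ∈ N := by
      have := hNn.conj_mem y hy g⁻¹
      rwa [inv_inv] at this
    have h1 := Subgroup.mem_centralizer_iff.1 hk2 _ hy'
    calc y * (g * k * g⁻¹) = g * ((g⁻¹ * y * g) * k) * g⁻¹ := by group
      _ = g * (k * (g⁻¹ * y * g)) * g⁻¹ := by rw [h1]
      _ = g * k * g⁻¹ * y := by group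
  rcases hmin K hK inf_le_left with hK1 | hK1
  · have hnK : n ∈ K := ⟨hn, Subgroup.mem_centralizer_iff.2 fun y hy => hcomm y hy⟩
    rw [hK1] at hnK
    exact Subgroup.mem_bot.1 hnK
  · exfalso
    obtain ⟨a, ha, b, hb, hab⟩ := hM.nc
    have hL : L ≤ N := by
      rw [hM.sup]
      have h1 : L = cj 1 L := by
        ext x
        rw [mem_cj, inv_one, one_mul, mul_one]
      calc L = cj 1 L := h1
        _ ≤ ⨆ g : G, cj g L := le_iSup (fun g : G => cj g L) 1
    have haK : a ∈ K := by rw [hK1]; exact hL ha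
    exact hab ((Subgroup.mem_centralizer_iff.1 haK.2 b (hL hb)).symm)

end MX
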