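import Pool.Agent.helper81.MX.Defs5
import Pool.Agent.helper81.MX.M02
import Pool.Agent.helper81.MX.M04

/-! Row B06: complements. -/

set_option autoImplicit false

namespace MX
open scoped MatrixGroups

theorem B06_conj {G : Type*} [Group G] (L : Subgroup G) (n : G) (hn : n ∈ TT L) (c : G)
    (hc : c ∈ CC L) : n⁻¹ * c * n ∈ CC L := by
  rw [Subgroup.mem_centralizer_iff]
  intro x hx
  have hx' : n * x * n⁻¹ ∈ L := (Subgroup.mem_normalizer_iff.1 hn x).1 hx
  have h := Subgroup.mem_centralizer_iff.1 hc _ hx'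
  have e1 : x * (n⁻¹ * c * n) = n⁻¹ * ((n * x * n⁻¹) * c) * n := by group
  have e2 : n⁻¹ * c * n * x = n⁻¹ * (c * (n * x * n⁻¹)) * n := by group
  rw [e1, e2, h]

/-- B06 -/
theorem case2a_compl {G : Type*} [Group G] [Finite G] {L N : Subgroup G} (hMf : Mfac L N)
    (hN : MinN N) (M : Subgroup G) (hM : IsCoatom M) (hNM : ¬ N ≤ M) (h : M ⊓ N ≤ CC L) :
    M ⊓ N = ⊥ ∧ M ⊔ N = ⊤ := by
  have htop : M ⊔ N = ⊤ := by
    apply hM.2
    refine lt_of_le_of_ne le_sup_left ?_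
    intro he
    exact hNM (he ▸ le_sup_right)
  refine ⟨?_, htop⟩
  rw [Subgroup.eq_bot_iff_forall]
  intro y hy
  have hNn : N.Normal := hN.1
  apply comp_unique hN hMf y hy.2
  intro g
  have hg : g ∈ M ⊔ N := by rw [htop]; exact Subgroup.mem_top g
  obtain ⟨m, hm, n, hn, rfl⟩ := Subgroup.mem_sup_of_normal_right.1 hg
  have h1 : m⁻¹ * y * m ∈ M ⊓ N := by
    refine ⟨M.mul_mem (M.mul_mem (M.inv_mem hm) hy.1) hm, ?_⟩
    have := hNn.conj_mem y hy.2 m⁻¹
    simpa using this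
  have h2 := B06_conj L n ((Mfac_basic hMf).2.1 hn) _ (h h1)
  have e : (m * n)⁻¹ * y * (m * n) = n⁻¹ * (m⁻¹ * y * m) * n := by group
  rw [e]
  exact h2

end MX
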