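import Pool.Agent.helper81.MX.Defs5
import Pool.Agent.helper81.MX.M02

/-!
Row B13: the key of a maximal subgroup of diagonal type.
-/

set_option autoImplicit false

namespace MX

theorem B13_cc {G : Type*} [Group G] (L : Subgroup G) (t z : G) (ht : t ∈ TT L) :
    t⁻¹ * z * t ∈ CC L ↔ z ∈ CC L := by
  have hn := Subgroup.mem_normalizer_iff.1 ht
  have hn' := Subgroup.mem_normalizer_iff.1 ((TT L).inv_mem ht)
  constructor
  · intro h
    rw [Subgroup.mem_centralizer_iff] at h ⊢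
    intro x hx
    have h1 := h (t⁻¹ * x * t) (by
      have := (hn' x).1 hx
      rwa [inv_inv] at this)
    have h2 : x * z = t * ((t⁻¹ * x * t) * (t⁻¹ * z * t)) * t⁻¹ := by group
    rw [h2, h1]
    group
  · intro h
    rw [Subgroup.mem_centralizer_iff] at h ⊢
    intro x hx
    have h1 := h (t * x * t⁻¹) ((hn x).1 hx)
    have h2 : x * (t⁻¹ * z * t) = t⁻¹ * ((t * x * t⁻¹) * z) * t := by group
    rw [h2, h1]
    group

/-- B13 -/
theorem keyS_iff {G : Type*} [Group G] [Finite G] {L N M : Subgroup G} [N.Normal] (hMf : Mfac L N)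
    (hD : DT L N M) : TT L ≤ keyS L N M ∧
    ∀ g : G, g ∈ keyS L N M ↔ M ⊓ N ⊓ cj g (CC L) = M ⊓ N ⊓ CC L := by
  have hNn : N.Normal := inferInstance
  have hNT : N ≤ TT L := (Mfac_basic hMf).2.1
  -- `G = M N`
  have htop : M ⊔ N = ⊤ := by
    have h1 : M < M ⊔ N := by
      refine lt_of_le_of_ne le_sup_left ?_
      intro h
      apply hD.notle
      rw [h]
      exact le_sup_right
    exact hD.max.2 _ h1
  have hdec : ∀ g : G, ∃ m ∈ M, ∃ n ∈ N, g = m * n := by
    intro g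
    have h1 : g ∈ M ⊔ N := by rw [htop]; exact Subgroup.mem_top g
    rw [Subgroup.mem_sup_of_normal_right] at h1
    obtain ⟨m, hm, n, hn, h2⟩ := h1
    exact ⟨m, hm, n, hn, h2.symm⟩
  have hM : ∀ m ∈ M, ∀ x : G, m⁻¹ * x * m ∈ M ↔ x ∈ M := by
    intro m hm x
    constructor
    · intro h
      have h1 : x = m * (m⁻¹ * x * m) * m⁻¹ := by group
      rw [h1]
      exact M.mul_mem (M.mul_mem hm h) (M.inv_mem hm)
    · intro h
      exact M.mul_mem (M.mul_mem (M.inv_mem hm) h) hm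
  have hN : ∀ m x : G, m⁻¹ * x * m ∈ N ↔ x ∈ N := by
    intro m x
    constructor
    · intro h
      have h1 : x = m * (m⁻¹ * x * m) * m⁻¹ := by group
      rw [h1]
      exact hNn.conj_mem _ h m
    · intro h
      have := hNn.conj_mem _ h m⁻¹
      rwa [inv_inv] at this
  have key : ∀ m ∈ M, ∀ n ∈ N, ∀ x : G, x ∈ M ⊓ N ⊓ cj (m * n) (CC L) ↔
      m⁻¹ * x * m ∈ M ⊓ N ⊓ CC L := by
    intro m hm n hn x
    rw [Subgroup.mem_inf, Subgroup.mem_inf, Subgroup.mem_inf, Subgroup.mem_inf, mem_cj, hM m hm,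
      hN m]
    have h1 : (m * n)⁻¹ * x * (m * n) = n⁻¹ * (m⁻¹ * x * m) * n := by group
    rw [h1, B13_cc L n _ (hNT hn)]
  have key2 : ∀ m ∈ M, ∀ n ∈ N, (M ⊓ N ⊓ cj (m * n) (CC L) = M ⊓ N ⊓ CC L ↔
      m ∈ Subgroup.normalizer ((M ⊓ N ⊓ CC L : Subgroup G) : Set G)) := by
    intro m hm n hn
    rw [Subgroup.mem_normalizer_iff]
    constructor
    · intro h x
      have h1 := key m hm n hn (m * x * m⁻¹)
      have h2 : m⁻¹ * (m * x * m⁻¹) * m = x := by group
      rw [h, h2] at h1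
      exact h1.symm
    · intro h
      ext x
      rw [key m hm n hn x]
      have h1 := h (m⁻¹ * x * m)
      have h2 : m * (m⁻¹ * x * m) * m⁻¹ = x := by group
      rw [h2] at h1
      exact h1
  refine ⟨?_, fun g => ?_⟩
  · intro t ht
    obtain ⟨m, hm, n, hn, rfl⟩ := hdec t
    have hmT : m ∈ TT L := by
      have h1 := (TT L).mul_mem ht ((TT L).inv_mem (hNT hn))
      rwa [mul_inv_cancel_right] at h1
    have h2 : m ∈ Subgroup.normalizer ((M ⊓ N ⊓ CC L : Subgroup G) : Set G) := by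
      rw [← key2 m hm n hn]
      ext x
      rw [key m hm n hn x, Subgroup.mem_inf, Subgroup.mem_inf, Subgroup.mem_inf, Subgroup.mem_inf,
        hM m hm, hN m, B13_cc L m x hmT]
    exact (keyS L N M).mul_mem (Subgroup.mem_sup_right ⟨hm, h2⟩) (Subgroup.mem_sup_left hn)
  · constructor
    · intro hg
      unfold keyS at hg
      rw [Subgroup.mem_sup_of_normal_left] at hg
      obtain ⟨n, hn, m, ⟨hm, hm2⟩, rfl⟩ := hg
      have h1 : n * m = m * (m⁻¹ * n * m) := by group
      rw [h1]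
      exact (key2 m hm _ ((hN m n).2 hn)).2 hm2
    · intro h
      obtain ⟨m, hm, n, hn, rfl⟩ := hdec g
      exact (keyS L N M).mul_mem (Subgroup.mem_sup_right ⟨hm, (key2 m hm n hn).1 h⟩)
        (Subgroup.mem_sup_left hn)

end MX
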