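import Pool.Agent.helper81.MX.B12
import Pool.Agent.helper81.MX.B13
import Pool.Agent.helper81.MX.M04

set_option autoImplicit false

namespace MX
open scoped MatrixGroups

/-- B14 -/
theorem keyS_ne {G : Type*} [Group G] [Finite G] {L N M : Subgroup G} [N.Normal] (hMf : Mfac L N)
    (hN : MinN N) (hD : DT L N M) : keyS L N M ≠ TT L := by
  intro hS
  obtain ⟨hLN, hNT, hLC, hcomp, -⟩ := Mfac_basic hMf
  have hNn : N.Normal := inferInstance
  obtain ⟨-, hKS⟩ := keyS_iff hMf hD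
  rw [hS] at hKS
  have hMN : M ⊔ N = ⊤ := by
    rcases hD.max.le_iff.1 (le_sup_left : M ≤ M ⊔ N) with h | h
    · exact h
    · exact absurd (h ▸ le_sup_right) hD.notle
  -- representatives in `M`
  have hrep : ∀ i : G ⧸ TT L, ∃ m ∈ M, (m : G ⧸ TT L) = i := by
    intro i
    obtain ⟨g, rfl⟩ := QuotientGroup.mk_surjective i
    have hg : g ∈ M ⊔ N := by
      rw [hMN]
      exact Subgroup.mem_top _
    rw [← SetLike.mem_coe, Subgroup.mul_normal] at hg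
    obtain ⟨m, hm, n, hn, rfl⟩ := hg
    refine ⟨m, hm, ?_⟩
    rw [QuotientGroup.eq]
    show m⁻¹ * (m * n) ∈ TT L
    rw [inv_mul_cancel_left]
    exact hNT hn
  choose r hrM hr using hrep
  -- conjugating by an element of `M`
  have hcj : ∀ m ∈ M, ∀ g : G, M ⊓ N ⊓ cj m (CC L) = M ⊓ N ⊓ cj g (CC L) →
      M ⊓ N ⊓ cj (m⁻¹ * g) (CC L) = M ⊓ N ⊓ CC L := by
    intro m hm g h
    ext z
    have hz : ∀ (y : G), y ∈ M ⊓ N ↔ m * y * m⁻¹ ∈ M ⊓ N := by
      intro y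
      constructor
      · intro hy
        exact ⟨M.mul_mem (M.mul_mem hm hy.1) (M.inv_mem hm), hNn.conj_mem y hy.2 m⟩
      · intro hy
        have h1 : m⁻¹ * (m * y * m⁻¹) * m⁻¹⁻¹ ∈ M :=
          M.mul_mem (M.mul_mem (M.inv_mem hm) hy.1) (M.inv_mem (M.inv_mem hm))
        have h2 := hNn.conj_mem _ hy.2 m⁻¹
        have e : m⁻¹ * (m * y * m⁻¹) * m⁻¹⁻¹ = y := by group
        rw [e] at h1 h2
        exact ⟨h1, h2⟩
    have hA : z ∈ M ⊓ N ⊓ cj (m⁻¹ * g) (CC L) ↔ m * z * m⁻¹ ∈ M ⊓ N ⊓ cj g (CC L) := by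
      have e : (m⁻¹ * g)⁻¹ * z * (m⁻¹ * g) = g⁻¹ * (m * z * m⁻¹) * g := by group
      constructor
      · intro hz1
        refine ⟨(hz z).1 hz1.1, (mem_cj _ _ _).2 ?_⟩
        have h1 := (mem_cj _ _ _).1 hz1.2
        rw [e] at h1
        exact h1
      · intro hz1
        refine ⟨(hz z).2 hz1.1, (mem_cj _ _ _).2 ?_⟩
        have h1 := (mem_cj _ _ _).1 hz1.2
        rw [e]
        exact h1
    have hB : z ∈ M ⊓ N ⊓ CC L ↔ m * z * m⁻¹ ∈ M ⊓ N ⊓ cj m (CC L) := by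
      have e : m⁻¹ * (m * z * m⁻¹) * m = z := by group
      constructor
      · intro hz1
        refine ⟨(hz z).1 hz1.1, (mem_cj _ _ _).2 ?_⟩
        rw [e]
        exact hz1.2
      · intro hz1
        refine ⟨(hz z).2 hz1.1, ?_⟩
        have h1 := (mem_cj _ _ _).1 hz1.2
        rw [e] at h1
        exact h1
    rw [hA, hB, h]
  have hg : ∀ i j, i ≠ j → M ⊓ N ⊓ cj (r i) (CC L) ≠ M ⊓ N ⊓ cj (r j) (CC L) := by
    intro i j hij h
    have h1 := (hKS _).2 (hcj (r i) (hrM i) (r j) h)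
    apply hij
    rw [← hr i, ← hr j, QuotientGroup.eq]
    exact h1
  apply hD.notle
  intro n hn
  have hx : ∀ i : G ⧸ TT L, ∃ l ∈ L, l⁻¹ * ((r i)⁻¹ * n * r i) ∈ CC L := by
    intro i
    apply hcomp
    have := hNn.conj_mem n hn (r i)⁻¹
    simpa using this
  choose x hxL hxC using hx
  obtain ⟨y, hy, hyx⟩ := Y_indep hMf hD r hg x hxL
  have h1 : y⁻¹ * n = 1 := by
    refine comp_unique hN hMf _ (N.mul_mem (N.inv_mem hy.2) hn) ?_
    intro g
    have hgi := hr (g : G ⧸ TT L)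
    rw [QuotientGroup.eq] at hgi
    set i : G ⧸ TT L := (g : G ⧸ TT L) with hi
    have h2 : (r i)⁻¹ * (y⁻¹ * n) * r i ∈ CC L := by
      have h3 := (CC L).mul_mem ((CC L).inv_mem (hyx i)) (hxC i)
      have e : ((x i)⁻¹ * ((r i)⁻¹ * y * r i))⁻¹ * ((x i)⁻¹ * ((r i)⁻¹ * n * r i)) =
          (r i)⁻¹ * (y⁻¹ * n) * r i := by group
      rw [e] at h3
      exact h3
    have h3 := B11_cc hgi h2
    have e : ((r i)⁻¹ * g)⁻¹ * ((r i)⁻¹ * (y⁻¹ * n) * r i) * ((r i)⁻¹ * g) =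
        g⁻¹ * (y⁻¹ * n) * g := by group
    rw [e] at h3
    exact h3
  have h2 : n = y := (inv_mul_eq_one.1 h1).symm
  rw [h2]
  exact hy.1

end MX
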