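import Pool.Agent.helper81.MX.Defs5
import Pool.Agent.helper81.MX.M02
import Pool.Agent.helper81.MX.M03
import Pool.Agent.helper81.MX.B13
import Pool.Agent.helper81.MX.B14

/-!
The key of a maximal subgroup of diagonal type is a minimal overgroup of the normalizer.
-/

set_option autoImplicit false

namespace MX

/-- `N` normalises the centralizers of the conjugates of `L`. -/
theorem B15_norm {G : Type*} [Group G] {L : Subgroup G} (t c : G) (ht : t ∈ TT L) (hc : c ∈ CC L) :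
    t * c * t⁻¹ ∈ CC L := by
  rw [Subgroup.mem_centralizer_iff] at hc ⊢
  intro x hx
  have h1 : t⁻¹ * x * t ∈ L := by
    have := (Subgroup.mem_normalizer_iff.1 ((TT L).inv_mem ht) x).1 hx
    simpa using this
  have h2 := hc _ h1
  have e1 : x * (t * c * t⁻¹) = t * ((t⁻¹ * x * t) * c) * t⁻¹ := by group
  have e2 : t * c * t⁻¹ * x = t * (c * (t⁻¹ * x * t)) * t⁻¹ := by group
  rw [e1, e2, h2]

theorem B15_norm' {G : Type*} [Group G] {L : Subgroup G} (t c : G) (ht : t ∈ TT L)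
    (hc : c ∈ CC L) : t⁻¹ * c * t ∈ CC L := by
  have := B15_norm t⁻¹ c ((TT L).inv_mem ht) hc
  simpa using this

/-- the overgroup of `M ⊓ N` for a smaller block -/
def B15_Y {G : Type*} [Group G] (L N M S' : Subgroup G) [N.Normal] (hNT : N ≤ TT L) : Subgroup G where
  carrier := {n | n ∈ N ∧ ∀ g : G, ∃ y ∈ M ⊓ N, ∀ s ∈ S', (g * s)⁻¹ * (y⁻¹ * n) * (g * s) ∈ CC L}
  mul_mem' := by
    rintro a b ⟨ha, ha'⟩ ⟨hb, hb'⟩
    refine ⟨N.mul_mem ha hb, fun g => ?_⟩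
    obtain ⟨y, hy, hy'⟩ := ha' g
    obtain ⟨z, hz, hz'⟩ := hb' g
    refine ⟨y * z, (M ⊓ N).mul_mem hy hz, fun s hs => ?_⟩
    have h1 := hy' s hs
    have h2 := hz' s hs
    have h3 : (g * s)⁻¹ * b * (g * s) ∈ TT L := by
      apply hNT
      have := (inferInstance : N.Normal).conj_mem b hb (g * s)⁻¹
      simpa using this
    have h4 := B15_norm' _ _ h3 h1
    have e : (g * s)⁻¹ * ((y * z)⁻¹ * (a * b)) * (g * s) =
        ((g * s)⁻¹ * (z⁻¹ * b) * (g * s)) * (((g * s)⁻¹ * b * (g * s))⁻¹ *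
          ((g * s)⁻¹ * (y⁻¹ * a) * (g * s)) * ((g * s)⁻¹ * b * (g * s))) := by group
    rw [e]
    exact (CC L).mul_mem h2 h4
  one_mem' := ⟨N.one_mem, fun g => ⟨1, (M ⊓ N).one_mem, fun s _ => by simp⟩⟩
  inv_mem' := by
    rintro a ⟨ha, ha'⟩
    refine ⟨N.inv_mem ha, fun g => ?_⟩
    obtain ⟨y, hy, hy'⟩ := ha' g
    refine ⟨y⁻¹, (M ⊓ N).inv_mem hy, fun s hs => ?_⟩
    have h1 := (CC L).inv_mem (hy' s hs)
    have h3 : (g * s)⁻¹ * a * (g * s) ∈ TT L := by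
      apply hNT
      have := (inferInstance : N.Normal).conj_mem a ha (g * s)⁻¹
      simpa using this
    have h4 := B15_norm _ _ h3 h1
    have e : (g * s)⁻¹ * (y⁻¹⁻¹ * a⁻¹) * (g * s) =
        ((g * s)⁻¹ * a * (g * s)) * ((g * s)⁻¹ * (y⁻¹ * a) * (g * s))⁻¹ *
          ((g * s)⁻¹ * a * (g * s))⁻¹ := by group
    rw [e]
    exact h4

/-- B15 -/
theorem keyS_cov {G : Type*} [Group G] [Finite G] {L N M : Subgroup G} [N.Normal] (hMf : Mfac L N)
    (hN : MinN N) (hD : DT L N M) : keyS L N M ∈ BB L := by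
  classical
  obtain ⟨hT, hiff⟩ := keyS_iff hMf hD
  have hne := keyS_ne hMf hN hD
  obtain ⟨hLN, hNT, hLC, hdec, hout⟩ := Mfac_basic hMf
  refine ⟨lt_of_le_of_ne hT hne.symm, ?_⟩
  intro S' h1 h2
  -- an element with a nontrivial component
  obtain ⟨y0, hy0, hy0C⟩ := SetLike.not_le_iff_exists.1 hD.ndiag
  have hY0 : ∀ s ∈ keyS L N M, s⁻¹ * y0 * s ∉ CC L := by
    intro s hs hc
    have h3 : y0 ∈ M ⊓ N ⊓ cj s (CC L) := Subgroup.mem_inf.2 ⟨hy0, (mem_cj _ _ _).2 hc⟩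
    rw [(hiff s).1 hs] at h3
    exact hy0C (Subgroup.mem_inf.1 h3).2
  -- the overgroup
  set Y' := B15_Y L N M S' hNT with hY'
  have hmemY : ∀ n, n ∈ Y' ↔ (n ∈ N ∧ ∀ g : G, ∃ y ∈ M ⊓ N, ∀ s ∈ S',
      (g * s)⁻¹ * (y⁻¹ * n) * (g * s) ∈ CC L) := fun n => Iff.rfl
  have hYle : M ⊓ N ≤ Y' := by
    intro n hn
    rw [hmemY]
    refine ⟨(Subgroup.mem_inf.1 hn).2, fun g => ⟨n, hn, fun s _ => ?_⟩⟩
    simp
  have hYconj : ∀ m ∈ M, ∀ n ∈ Y', m * n * m⁻¹ ∈ Y' := by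
    intro m hm n hn
    rw [hmemY] at hn ⊢
    refine ⟨(inferInstance : N.Normal).conj_mem n hn.1 m, fun g => ?_⟩
    obtain ⟨y, hy, hy'⟩ := hn.2 (m⁻¹ * g)
    refine ⟨m * y * m⁻¹, ?_, fun s hs => ?_⟩
    · rw [Subgroup.mem_inf] at hy ⊢
      exact ⟨M.mul_mem (M.mul_mem hm hy.1) (M.inv_mem hm),
        (inferInstance : N.Normal).conj_mem y hy.2 m⟩
    · have h3 := hy' s hs
      have e : (g * s)⁻¹ * ((m * y * m⁻¹)⁻¹ * (m * n * m⁻¹)) * (g * s) =
          (m⁻¹ * g * s)⁻¹ * (y⁻¹ * n) * (m⁻¹ * g * s) := by group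
      rw [e]
      exact h3
  -- it is not contained in `M`
  have hYM : ¬ Y' ≤ M := by
    obtain ⟨x, hxS, hxS'⟩ := SetLike.exists_of_lt h2
    let ι : Type _ := {i : G ⧸ TT L // ∃ s ∈ S', ((x * s : G) : G ⧸ TT L) = i}
    let r : ι → G := fun i => i.1.out
    have hr : ∀ i : ι, ((r i : G) : G ⧸ TT L) = i.1 := fun i => Quotient.out_eq' _
    have hr' : ∀ i j, i ≠ j → (r i)⁻¹ * r j ∉ Subgroup.normalizer (L : Set G) := by
      intro i j hij hc
      apply hij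
      apply Subtype.ext
      rw [← hr i, ← hr j]
      exact QuotientGroup.eq.2 hc
    have hl : ∀ i : ι, ∃ l ∈ L, l⁻¹ * ((r i)⁻¹ * y0 * r i) ∈ CC L := by
      intro i
      apply hdec
      have := (inferInstance : N.Normal).conj_mem y0 (Subgroup.mem_inf.1 hy0).2 (r i)⁻¹
      simpa using this
    choose l hlL hlC using hl
    obtain ⟨n, hnN, hn1, hn2⟩ := comp_exists hMf r hr' l hlL
    have hcase1 : ∀ s ∈ S', (x * s)⁻¹ * (y0⁻¹ * n) * (x * s) ∈ CC L := by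
      intro s hs
      let i : ι := ⟨((x * s : G) : G ⧸ TT L), s, hs, rfl⟩
      have h3 : (x * s)⁻¹ * r i ∈ TT L := QuotientGroup.eq.1 (hr i).symm
      have h4 : (r i)⁻¹ * (y0⁻¹ * n) * r i ∈ CC L := by
        have h5 := (CC L).mul_mem ((CC L).inv_mem (hlC i)) (hn1 i)
        have e : (r i)⁻¹ * (y0⁻¹ * n) * r i =
            ((l i)⁻¹ * ((r i)⁻¹ * y0 * r i))⁻¹ * ((l i)⁻¹ * ((r i)⁻¹ * n * r i)) := by group
        rw [e]
        exact h5
      have h6 := B15_norm _ _ h3 h4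
      have e : (x * s)⁻¹ * (y0⁻¹ * n) * (x * s) =
          ((x * s)⁻¹ * r i) * ((r i)⁻¹ * (y0⁻¹ * n) * r i) * ((x * s)⁻¹ * r i)⁻¹ := by group
      rw [e]
      exact h6
    have hcase2 : ∀ g : G, x⁻¹ * g ∉ S' → g⁻¹ * n * g ∈ CC L := by
      intro g hg
      apply hn2
      intro i hc
      obtain ⟨s, hs, hsi⟩ := i.2
      have h3 : (x * s)⁻¹ * r i ∈ TT L := QuotientGroup.eq.1 (hsi.trans (hr i).symm)
      apply hg
      have h4 : x⁻¹ * g = s * (((x * s)⁻¹ * r i) * (g⁻¹ * r i)⁻¹) := by group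
      rw [h4]
      exact S'.mul_mem hs (h1.le ((TT L).mul_mem h3 ((TT L).inv_mem hc)))
    have hnY : n ∈ Y' := by
      rw [hmemY]
      refine ⟨hnN, fun g => ?_⟩
      by_cases hg : x⁻¹ * g ∈ S'
      · refine ⟨y0, hy0, fun s hs => ?_⟩
        have h3 := hcase1 (x⁻¹ * g * s) (S'.mul_mem hg hs)
        have e : x * (x⁻¹ * g * s) = g * s := by group
        rw [e] at h3
        exact h3
      · refine ⟨1, (M ⊓ N).one_mem, fun s hs => ?_⟩
        have h3 := hcase2 (g * s) (fun hc => hg (by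
          have := S'.mul_mem hc (S'.inv_mem hs)
          have e : x⁻¹ * (g * s) * s⁻¹ = x⁻¹ * g := by group
          rwa [e] at this))
        simpa using h3
    intro hle
    have hnM := hle hnY
    have h3 : n ∈ CC L := by
      have := hcase2 1 (fun hc => hxS' (by
        have h4 := S'.inv_mem hc
        simpa using h4))
      simpa using this
    have h4 : n ∈ M ⊓ N ⊓ CC L :=
      Subgroup.mem_inf.2 ⟨Subgroup.mem_inf.2 ⟨hnM, hnN⟩, h3⟩
    rw [← (hiff x).1 hxS] at h4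
    have h5 := (mem_cj _ _ _).1 (Subgroup.mem_inf.1 h4).2
    have h6 := hcase1 1 S'.one_mem
    rw [mul_one] at h6
    apply hY0 x hxS
    have e : x⁻¹ * y0 * x = (x⁻¹ * n * x) * (x⁻¹ * (y0⁻¹ * n) * x)⁻¹ := by group
    rw [e]
    exact (CC L).mul_mem h5 ((CC L).inv_mem h6)
  -- it is not `N`
  have hYN : ¬ N ≤ Y' := by
    intro hle
    obtain ⟨s0, hs0, hs0T⟩ := SetLike.exists_of_lt h1
    obtain ⟨l, hl, hlC⟩ := hdec y0 (Subgroup.mem_inf.1 hy0).2
    have hl1 : l ∉ CC L := by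
      intro hc
      apply hy0C
      have := (CC L).mul_mem hc hlC
      simpa using this
    have hnN : s0 * l * s0⁻¹ ∈ N := (inferInstance : N.Normal).conj_mem l (hLN hl) s0
    have hnC : s0 * l * s0⁻¹ ∈ CC L := hout s0 hs0T l hl
    obtain ⟨y, hy, hy'⟩ := ((hmemY _).1 (hle hnN)).2 1
    have h3 := hy' 1 S'.one_mem
    have h4 : y ∈ CC L := by
      have h5 := (CC L).mul_mem hnC ((CC L).inv_mem h3)
      have e : s0 * l * s0⁻¹ * ((1 * 1 : G)⁻¹ * (y⁻¹ * (s0 * l * s0⁻¹)) * (1 * 1))⁻¹ = y := by group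
      rwa [e] at h5
    have h5 : y ∈ M ⊓ N ⊓ CC L := Subgroup.mem_inf.2 ⟨hy, h4⟩
    rw [← (hiff s0).1 (h2.le hs0)] at h5
    have h6 := (mem_cj _ _ _).1 (Subgroup.mem_inf.1 h5).2
    have h7 := hy' s0 hs0
    apply hl1
    have e : l = (s0⁻¹ * y * s0) * ((1 * s0)⁻¹ * (y⁻¹ * (s0 * l * s0⁻¹)) * (1 * s0)) := by group
    rw [e]
    exact (CC L).mul_mem h6 h7
  -- contradiction with the maximality of `M`
  have htop : M ⊔ Y' = ⊤ := by
    apply hD.max.2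
    refine lt_of_le_of_ne le_sup_left ?_
    intro hc
    exact hYM (hc ▸ le_sup_right)
  apply hYN
  intro n hn
  have h3 : n ∈ M ⊔ Y' := by rw [htop]; trivial
  have h4 : ∀ g ∈ M ⊔ Y', ∃ m ∈ M, ∃ y ∈ Y', g = m * y := by
    intro g hg
    have h5 : M ⊔ Y' = Subgroup.closure ((M : Set G) ∪ Y') := by
      rw [Subgroup.closure_union, Subgroup.closure_eq, Subgroup.closure_eq]
    rw [h5] at hg
    induction hg using Subgroup.closure_induction with
    | mem z hz =>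
      rcases hz with hz | hz
      · exact ⟨z, hz, 1, Y'.one_mem, by group⟩
      · exact ⟨1, M.one_mem, z, hz, by group⟩
    | one => exact ⟨1, M.one_mem, 1, Y'.one_mem, by group⟩
    | mul a b _ _ ha hb =>
      obtain ⟨m, hm, y, hy, rfl⟩ := ha
      obtain ⟨m', hm', y', hy', rfl⟩ := hb
      refine ⟨m * m', M.mul_mem hm hm', (m'⁻¹ * y * m'⁻¹⁻¹) * y',
        Y'.mul_mem (hYconj _ (M.inv_mem hm') _ hy) hy', by group⟩
    | inv a _ ha =>
      obtain ⟨m, hm, y, hy, rfl⟩ := ha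
      exact ⟨m⁻¹, M.inv_mem hm, m * y⁻¹ * m⁻¹, hYconj _ hm _ (Y'.inv_mem hy), by group⟩
  obtain ⟨m, hm, y, hy, rfl⟩ := h4 n h3
  have h5 : m ∈ N := by
    have := N.mul_mem hn (N.inv_mem ((hmemY y).1 hy).1)
    simpa using this
  exact Y'.mul_mem (hYle (Subgroup.mem_inf.2 ⟨hm, h5⟩)) hy

end MX
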