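import Pool.Agent.helper81.MX.Defs5

set_option autoImplicit false

namespace MX

theorem B01_star {G : Type*} [Group G] (S P M : Subgroup G)
    (hN : ∀ g : G, ∃ m ∈ M, m⁻¹ * g ∈ S) (hMS : M ⊓ S ≤ P) (hPS : P ≤ S) (hne : P ≠ S)
    (hM : IsCoatom M) (g : G)
    (h : ∀ m ∈ M, ∀ m' ∈ M, m⁻¹ * g * m' ∈ S → m⁻¹ * g * m' ∈ P) : g ∈ M := by
  let Mst : Subgroup G :=
    { carrier := {g | ∀ m ∈ M, ∀ m' ∈ M, m⁻¹ * g * m' ∈ S → m⁻¹ * g * m' ∈ P}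
      one_mem' := by
        intro m hm m' hm' hs
        rw [mul_one] at hs ⊢
        exact hMS ⟨M.mul_mem (M.inv_mem hm) hm', hs⟩
      mul_mem' := by
        intro a b ha hb m hm m' hm' hs
        obtain ⟨k, hk, hkS⟩ := hN (b * m')
        have h1 : k⁻¹ * b * m' ∈ S := by rw [mul_assoc]; exact hkS
        have h2 := hb k hk m' hm' h1
        have h3 : m⁻¹ * a * k = m⁻¹ * (a * b) * m' * (k⁻¹ * b * m')⁻¹ := by group
        have h4 : m⁻¹ * a * k ∈ S := by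
          rw [h3]
          exact S.mul_mem hs (S.inv_mem h1)
        have h5 := ha m hm k hk h4
        have h6 : m⁻¹ * (a * b) * m' = m⁻¹ * a * k * (k⁻¹ * b * m') := by group
        rw [h6]
        exact P.mul_mem h5 h2
      inv_mem' := by
        intro a ha m hm m' hm' hs
        have h1 : m⁻¹ * a⁻¹ * m' = (m'⁻¹ * a * m)⁻¹ := by group
        rw [h1] at hs ⊢
        have h2 := S.inv_mem hs
        rw [inv_inv] at h2
        exact P.inv_mem (ha m' hm' m hm h2) }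
  have h1 : M ≤ Mst := by
    intro x hx m hm m' hm' hs
    exact hMS ⟨M.mul_mem (M.mul_mem (M.inv_mem hm) hx) hm', hs⟩
  have h2 : Mst ≠ ⊤ := by
    intro h2
    apply hne
    apply le_antisymm hPS
    intro s hs
    have h3 : s ∈ Mst := by rw [h2]; trivial
    have h4 := h3 1 M.one_mem 1 M.one_mem
    rw [inv_one, one_mul, mul_one] at h4
    exact h4 hs
  have h3 : Mst = M := by
    by_contra h3
    exact h2 (hM.2 Mst (lt_of_le_of_ne h1 (Ne.symm h3)))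
  rw [← h3]
  exact h

theorem B01_iff {G : Type*} [Group G] (S P M : Subgroup G)
    (hMS : M ⊓ S ≤ P) (hPS : P ≤ S) (hne : P ≠ S)
    (hM : IsCoatom M) (r : G ⧸ S → G) (hr : ∀ i, (r i : G ⧸ S) = i) (hrM : ∀ i, r i ∈ M) (g : G) :
    g ∈ M ↔ ∀ i j, (r i)⁻¹ * g * r j ∈ S → (r i)⁻¹ * g * r j ∈ P := by
  constructor
  · intro hg i j hs
    exact hMS ⟨M.mul_mem (M.mul_mem (M.inv_mem (hrM i)) hg) (hrM j), hs⟩
  · intro h
    refine B01_star S P M ?_ hMS hPS hne hM g ?_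
    · intro x
      refine ⟨r (x : G ⧸ S), hrM _, ?_⟩
      exact QuotientGroup.eq.1 (hr (x : G ⧸ S))
    · intro m hm m' hm' hs
      have h1 : (r (m : G ⧸ S))⁻¹ * m ∈ S := QuotientGroup.eq.1 (hr (m : G ⧸ S))
      have h2 : (r (m' : G ⧸ S))⁻¹ * m' ∈ S := QuotientGroup.eq.1 (hr (m' : G ⧸ S))
      have h1' : (r (m : G ⧸ S))⁻¹ * m ∈ P :=
        hMS ⟨M.mul_mem (M.inv_mem (hrM _)) hm, h1⟩
      have h2' : (r (m' : G ⧸ S))⁻¹ * m' ∈ P :=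
        hMS ⟨M.mul_mem (M.inv_mem (hrM _)) hm', h2⟩
      have h3 : (r (m : G ⧸ S))⁻¹ * g * r (m' : G ⧸ S) =
          ((r (m : G ⧸ S))⁻¹ * m) * (m⁻¹ * g * m') * ((r (m' : G ⧸ S))⁻¹ * m')⁻¹ := by group
      have h4 : (r (m : G ⧸ S))⁻¹ * g * r (m' : G ⧸ S) ∈ S := by
        rw [h3]
        exact S.mul_mem (S.mul_mem h1 hs) (S.inv_mem h2)
      have h5 := h _ _ h4
      have h6 : m⁻¹ * g * m' = ((r (m : G ⧸ S))⁻¹ * m)⁻¹ *
          ((r (m : G ⧸ S))⁻¹ * g * r (m' : G ⧸ S)) * ((r (m' : G ⧸ S))⁻¹ * m') := by group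
      rw [h6]
      exact P.mul_mem (P.mul_mem (P.inv_mem h1') h5) h2'

theorem B01_dec {G : Type*} [Group G] (N M : Subgroup G) [N.Normal] (hM : IsCoatom M)
    (hN : ¬ N ≤ M) (g : G) : ∃ m ∈ M, ∃ n ∈ N, m * n = g := by
  have h1 : M ⊔ N = ⊤ := by
    apply hM.2
    refine lt_of_le_of_ne le_sup_left ?_
    intro h
    apply hN
    rw [h]
    exact le_sup_right
  have h2 : g ∈ M ⊔ N := by rw [h1]; trivial
  exact Subgroup.mem_sup_of_normal_right.1 h2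

/-- B01: general principle -/
theorem GP {G : Type*} [Group G] [Finite G] (N S D : Subgroup G) [N.Normal] (hNS : N ≤ S)
    (hDS : D ≤ S) (hDn : ∀ s ∈ S, ∀ d ∈ D, s * d * s⁻¹ ∈ D)
    (ce : ∀ (r ν : G ⧸ S → G), (∀ i, (r i : G ⧸ S) = i) → (∀ i, ν i ∈ N) →
      ∃ n ∈ N, ∀ i, (ν i)⁻¹ * ((r i)⁻¹ * n * r i) ∈ D)
    (M M' : Subgroup G) (hM : IsCoatom M) (hM' : IsCoatom M') (hN : ¬ N ≤ M) (hN' : ¬ N ≤ M')
    (heq : (M ⊓ S) ⊔ D = (M' ⊓ S) ⊔ D) (hne : (M ⊓ S) ⊔ D ≠ S) : SC M M' := by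
  have hPS : (M ⊓ S) ⊔ D ≤ S := sup_le inf_le_right hDS
  have hDP : D ≤ (M ⊓ S) ⊔ D := le_sup_right
  have h1 : ∀ i : G ⧸ S, ∃ m ∈ M, (m : G ⧸ S) = i := by
    intro i
    obtain ⟨g, rfl⟩ := QuotientGroup.mk_surjective i
    obtain ⟨m, hm, n, hn, rfl⟩ := B01_dec N M hM hN g
    refine ⟨m, hm, ?_⟩
    rw [QuotientGroup.eq]
    have : m⁻¹ * (m * n) = n := by group
    rw [this]
    exact hNS hn
  choose r hrM hr using h1
  have h2 : ∀ i : G ⧸ S, ∃ ν ∈ N, r i * ν ∈ M' := by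
    intro i
    obtain ⟨m, hm, n, hn, h3⟩ := B01_dec N M' hM' hN' (r i)
    refine ⟨n⁻¹, N.inv_mem hn, ?_⟩
    rw [← h3]
    have : m * n * n⁻¹ = m := by group
    rw [this]
    exact hm
  choose ν hν hνM using h2
  obtain ⟨n, hn, hnD⟩ := ce r ν hr hν
  have hr' : ∀ i, ((r i * ν i : G) : G ⧸ S) = i := by
    intro i
    rw [← hr i, QuotientGroup.eq]
    have h3 : (r (r i : G ⧸ S) * ν (r i : G ⧸ S))⁻¹ * r (r i : G ⧸ S) =
      (ν (r i : G ⧸ S))⁻¹ := by group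
    rw [hr i] at h3 ⊢
    rw [h3]
    exact S.inv_mem (hNS (hν i))
  refine ⟨n, ?_⟩
  ext x
  rw [mem_cj, B01_iff S ((M ⊓ S) ⊔ D) M le_sup_left hPS hne hM r hr hrM,
    B01_iff S ((M ⊓ S) ⊔ D) M' (by rw [heq]; exact le_sup_left) hPS hne hM' (fun i => r i * ν i)
      hr' hνM]
  have key : ∀ i j, (r i * ν i)⁻¹ * x * (r j * ν j) =
      ((ν i)⁻¹ * ((r i)⁻¹ * n * r i)) * ((r i)⁻¹ * (n⁻¹ * x * n) * r j) *
        ((ν j)⁻¹ * ((r j)⁻¹ * n * r j))⁻¹ := by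
    intro i j
    group
  have key2 : ∀ (K : Subgroup G), D ≤ K → ∀ i j, ((r i)⁻¹ * (n⁻¹ * x * n) * r j ∈ K ↔
      (r i * ν i)⁻¹ * x * (r j * ν j) ∈ K) := by
    intro K hK i j
    rw [key i j, Subgroup.mul_mem_cancel_right K (K.inv_mem (hK (hnD j))),
      Subgroup.mul_mem_cancel_left K (hK (hnD i))]
  constructor
  · intro h i j hs
    exact (key2 _ hDP i j).1 (h i j ((key2 _ hDS i j).2 hs))
  · intro h i j hs
    exact (key2 _ hDP i j).2 (h i j ((key2 _ hDS i j).1 hs))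

end MX
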