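import Pool.Agent.helper81.MX.Defs5
import Pool.Agent.helper81.MX.M02
import Pool.Agent.helper81.MX.M03

set_option autoImplicit false

namespace MX
open scoped MatrixGroups

theorem B02_normal {G : Type*} [Group G] {L N : Subgroup G} (hMf : Mfac L N) (x : G) (hx : x ∈ N)
    (g : G) : g * x * g⁻¹ ∈ N := by
  have h1 : cj g N ≤ N := by
    conv_lhs => rw [hMf.sup]
    unfold cj
    rw [Subgroup.map_iSup]
    refine iSup_le fun h => ?_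
    rintro _ ⟨_, ⟨y, hy, rfl⟩, rfl⟩
    have h2 : cj (g * h) L ≤ N := by
      rw [hMf.sup]
      exact le_iSup (fun g : G => cj g L) (g * h)
    apply h2
    refine ⟨y, hy, ?_⟩
    show g * h * y * (g * h)⁻¹ = g * (h * y * h⁻¹) * g⁻¹
    group
  exact h1 ⟨x, hx, rfl⟩

theorem B02_cent {G : Type*} [Group G] {L : Subgroup G} (t c : G) (ht : t ∈ TT L) (hc : c ∈ CC L) :
    t⁻¹ * c * t ∈ CC L := by
  rw [Subgroup.mem_centralizer_iff] at hc ⊢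
  intro x hx
  have h1 : t * x * t⁻¹ ∈ L := (Subgroup.mem_normalizer_iff.1 ht x).1 hx
  have h2 := hc _ h1
  calc x * (t⁻¹ * c * t) = t⁻¹ * (t * x * t⁻¹ * c) * t := by group
    _ = t⁻¹ * (c * (t * x * t⁻¹)) * t := by rw [h2]
    _ = t⁻¹ * c * t * x := by group

/-- B02 -/
theorem ce_S {G : Type*} [Group G] [Finite G] {L N : Subgroup G} (hMf : Mfac L N) (S : Subgroup G)
    (hS : TT L ≤ S) (r ν : G ⧸ S → G) (hr : ∀ i, (r i : G ⧸ S) = i) (hν : ∀ i, ν i ∈ N) :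
    ∃ n ∈ N, ∀ i, (ν i)⁻¹ * ((r i)⁻¹ * n * r i) ∈ DS L S := by
  obtain ⟨-, -, -, hcomp, -⟩ := Mfac_basic hMf
  have h1 : ∀ q : G ⧸ TT L, ∃ x ∈ L, x⁻¹ * (((r (q.out : G ⧸ S))⁻¹ * q.out)⁻¹ *
      ν (q.out : G ⧸ S) * ((r (q.out : G ⧸ S))⁻¹ * q.out)) ∈ CC L := by
    intro q
    apply hcomp
    have h2 := B02_normal hMf _ (hν (q.out : G ⧸ S)) ((r (q.out : G ⧸ S))⁻¹ * q.out)⁻¹
    rw [inv_inv] at h2
    exact h2
  choose x hxL hx using h1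
  obtain ⟨n, hn, hn1, -⟩ := comp_exists hMf (fun q : G ⧸ TT L => q.out) (by
    intro q q' hqq' h
    apply hqq'
    rw [← Quotient.out_eq' q, ← Quotient.out_eq' q']
    exact QuotientGroup.eq.2 h) x hxL
  refine ⟨n, hn, ?_⟩
  intro i s hs
  have ht : ((r i * s : G) : G ⧸ TT L).out⁻¹ * (r i * s) ∈ TT L := by
    rw [← QuotientGroup.eq]
    exact Quotient.out_eq' _
  set q : G ⧸ TT L := ((r i * s : G) : G ⧸ TT L) with hq
  have hi : (q.out : G ⧸ S) = i := by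
    rw [← hr i, QuotientGroup.eq]
    have h2 : q.out⁻¹ * r i = q.out⁻¹ * (r i * s) * s⁻¹ := by group
    rw [h2]
    exact S.mul_mem (hS ht) (S.inv_mem hs)
  have h3 := hx q
  rw [hi] at h3
  have h4 := hn1 q
  have h5 : ((r i)⁻¹ * q.out)⁻¹ * ((ν i)⁻¹ * ((r i)⁻¹ * n * r i)) * ((r i)⁻¹ * q.out) ∈ CC L := by
    have h6 : ((r i)⁻¹ * q.out)⁻¹ * ((ν i)⁻¹ * ((r i)⁻¹ * n * r i)) * ((r i)⁻¹ * q.out) =
        ((x q)⁻¹ * (((r i)⁻¹ * q.out)⁻¹ * ν i * ((r i)⁻¹ * q.out)))⁻¹ *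
        ((x q)⁻¹ * (q.out⁻¹ * n * q.out)) := by group
    rw [h6]
    exact (CC L).mul_mem ((CC L).inv_mem h3) h4
  have h7 : s⁻¹ * ((ν i)⁻¹ * ((r i)⁻¹ * n * r i)) * s =
      (q.out⁻¹ * (r i * s))⁻¹ * (((r i)⁻¹ * q.out)⁻¹ * ((ν i)⁻¹ * ((r i)⁻¹ * n * r i)) *
        ((r i)⁻¹ * q.out)) * (q.out⁻¹ * (r i * s)) := by group
  rw [h7]
  exact B02_cent _ _ ht h5

end MX
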