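import Pool.Agent.helper81.MX.B11
import Pool.Agent.helper81.MX.B13
import Pool.Agent.helper81.MX.B14

set_option autoImplicit false

namespace MX
open scoped MatrixGroups

theorem B16_norm {G : Type*} [Group G] (K F : Subgroup G) (h : ∀ k ∈ K, ∀ f ∈ F, k * f * k⁻¹ ∈ F) :
    K ≤ Subgroup.normalizer (F : Set G) := by
  intro k hk
  rw [Subgroup.mem_normalizer_iff]
  intro f
  refine ⟨fun hf => h k hk f hf, fun hf => ?_⟩
  have h1 := h k⁻¹ (K.inv_mem hk) _ hf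
  have e : k⁻¹ * (k * f * k⁻¹) * k⁻¹⁻¹ = f := by group
  rw [e] at h1
  exact h1

theorem B16_sup {G : Type*} [Group G] (A B : Subgroup G) (h : ∀ a ∈ A, ∀ b ∈ B, a * b * a⁻¹ ∈ B)
    (x : G) : x ∈ A ⊔ B ↔ ∃ a ∈ A, ∃ b ∈ B, a * b = x := by
  constructor
  · intro hx
    have hle : A ⊔ B ≤
        { carrier := {x | ∃ a ∈ A, ∃ b ∈ B, a * b = x}
          mul_mem' := by
            rintro _ _ ⟨a, ha, b, hb, rfl⟩ ⟨a', ha', b', hb', rfl⟩
            refine ⟨a * a', A.mul_mem ha ha', a'⁻¹ * b * a'⁻¹⁻¹ * b',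
              B.mul_mem (h _ (A.inv_mem ha') _ hb) hb', ?_⟩
            group
          one_mem' := ⟨1, A.one_mem, 1, B.one_mem, by simp⟩
          inv_mem' := by
            rintro _ ⟨a, ha, b, hb, rfl⟩
            refine ⟨a⁻¹, A.inv_mem ha, a * b⁻¹ * a⁻¹, h _ ha _ (B.inv_mem hb), ?_⟩
            group : Subgroup G } := by
      refine sup_le ?_ ?_
      · intro a ha
        exact ⟨a, ha, 1, B.one_mem, by simp⟩
      · intro b hb
        exact ⟨1, A.one_mem, b, hb, by simp⟩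
    exact hle hx
  · rintro ⟨a, ha, b, hb, rfl⟩
    exact (A ⊔ B).mul_mem ((le_sup_left : A ≤ A ⊔ B) ha) ((le_sup_right : B ≤ A ⊔ B) hb)

theorem B16_core {G : Type*} [Group G] {L N M : Subgroup G} [N.Normal] (hMf : Mfac L N)
    (hY : ∀ (g : G) (l : G), l ∈ L → ∃ y ∈ M ⊓ N, l⁻¹ * (g⁻¹ * y * g) ∈ CC L)
    (hK : TT L ≤ keyS L N M ∧
      ∀ g : G, g ∈ keyS L N M ↔ M ⊓ N ⊓ cj g (CC L) = M ⊓ N ⊓ CC L)
    (hne : keyS L N M ≠ TT L) :
    (M ⊓ keyS L N M) ⊔ DS L (keyS L N M) =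
      keyS L N M ⊓ Subgroup.normalizer (FF L N (keyS L N M) M : Set G) ∧
    (M ⊓ keyS L N M) ⊔ DS L (keyS L N M) ≠ keyS L N M := by
  obtain ⟨hLN, hNT, hLC, hcomp, hout⟩ := Mfac_basic hMf
  obtain ⟨hTS, hKS⟩ := hK
  have hNn : N.Normal := inferInstance
  have hSdef : keyS L N M = N ⊔ (M ⊓ Subgroup.normalizer ((M ⊓ N ⊓ CC L : Subgroup G) : Set G)) := rfl
  set S := keyS L N M with hS
  have hCT : CC L ≤ TT L := Subgroup.centralizer_le_normalizer (L : Set G)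
  have hNS : N ≤ S := hNT.trans hTS
  have hDC : DS L S ≤ CC L := by
    intro d hd
    have h1 := hd 1 S.one_mem
    simpa using h1
  have hDS : DS L S ≤ S := hDC.trans (hCT.trans hTS)
  have hDn : ∀ s ∈ S, ∀ d ∈ DS L S, s * d * s⁻¹ ∈ DS L S := by
    intro s hs d hd t ht
    have h1 := hd (s⁻¹ * t) (S.mul_mem (S.inv_mem hs) ht)
    have e : (s⁻¹ * t)⁻¹ * d * (s⁻¹ * t) = t⁻¹ * (s * d * s⁻¹) * t := by group
    rw [e] at h1
    exact h1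
  have hCn : ∀ t ∈ TT L, ∀ c ∈ CC L, t * c * t⁻¹ ∈ CC L := by
    intro t ht c hc
    rw [Subgroup.mem_centralizer_iff] at hc ⊢
    intro x hx
    have h1 : t⁻¹ * x * t⁻¹⁻¹ ∈ L :=
      (Subgroup.mem_normalizer_iff.1 ((TT L).inv_mem ht) x).1 hx
    have h2 := hc _ h1
    have h3 : t * (t⁻¹ * x * t⁻¹⁻¹ * c) * t⁻¹ = t * (c * (t⁻¹ * x * t⁻¹⁻¹)) * t⁻¹ := by rw [h2]
    calc x * (t * c * t⁻¹) = t * (t⁻¹ * x * t⁻¹⁻¹ * c) * t⁻¹ := by group
      _ = t * (c * (t⁻¹ * x * t⁻¹⁻¹)) * t⁻¹ := h3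
      _ = t * c * t⁻¹ * x := by group
  -- membership in F
  have hmemF : ∀ f : G, f ∈ FF L N S M ↔ ∃ y ∈ M ⊓ N, ∃ d ∈ N ⊓ DS L S, y * d = f := by
    intro f
    refine B16_sup (M ⊓ N) (N ⊓ DS L S) ?_ f
    intro y hy d hd
    exact ⟨hNn.conj_mem d hd.1 y, hDn y (hNS hy.2) d hd.2⟩
  have hMS : ∀ k ∈ M ⊓ S, ∀ f ∈ FF L N S M, k * f * k⁻¹ ∈ FF L N S M := by
    intro k hk f hf
    obtain ⟨y, hy, d, hd, rfl⟩ := (hmemF f).1 hf
    refine (hmemF _).2 ⟨k * y * k⁻¹, ⟨M.mul_mem (M.mul_mem hk.1 hy.1) (M.inv_mem hk.1),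
      hNn.conj_mem y hy.2 k⟩, k * d * k⁻¹, ⟨hNn.conj_mem d hd.1 k, hDn k hk.2 d hd.2⟩, ?_⟩
    group
  have hDF : ∀ k ∈ DS L S, ∀ f ∈ FF L N S M, k * f * k⁻¹ ∈ FF L N S M := by
    intro k hk f hf
    obtain ⟨y, hy, d, hd, rfl⟩ := (hmemF f).1 hf
    have hyS : y ∈ S := hNS hy.2
    have h1 : y⁻¹ * k * y⁻¹⁻¹ ∈ DS L S := hDn _ (S.inv_mem hyS) k hk
    have h2 : y⁻¹ * k * y⁻¹⁻¹ * d * k⁻¹ ∈ DS L S :=
      (DS L S).mul_mem ((DS L S).mul_mem h1 hd.2) ((DS L S).inv_mem hk)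
    have h3 : y⁻¹ * k * y⁻¹⁻¹ * d * k⁻¹ ∈ N := by
      have e : y⁻¹ * k * y⁻¹⁻¹ * d * k⁻¹ = y⁻¹ * (k * (y * d) * k⁻¹) := by group
      rw [e]
      exact N.mul_mem (N.inv_mem hy.2) (hNn.conj_mem _ (N.mul_mem hy.2 hd.1) k)
    refine (hmemF _).2 ⟨y, hy, _, ⟨h3, h2⟩, ?_⟩
    group
  have hMSn : M ⊓ S ≤ Subgroup.normalizer (FF L N S M : Set G) := B16_norm _ _ hMS
  have hDSn : DS L S ≤ Subgroup.normalizer (FF L N S M : Set G) := B16_norm _ _ hDF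
  -- F ⊓ C ≤ D
  have hFC : ∀ f ∈ FF L N S M, f ∈ CC L → f ∈ DS L S := by
    intro f hf hfC
    obtain ⟨y, hy, d, hd, rfl⟩ := (hmemF f).1 hf
    have hyC : y ∈ CC L := by
      have h1 := (CC L).mul_mem hfC ((CC L).inv_mem (hDC hd.2))
      simpa using h1
    refine (DS L S).mul_mem ?_ hd.2
    intro s hs
    have h1 : y ∈ M ⊓ N ⊓ cj s (CC L) := by
      rw [(hKS s).1 hs]
      exact ⟨hy, hyC⟩
    exact (mem_cj s (CC L) y).1 h1.2
  -- key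
  have hkey : ∀ n ∈ N, n ∈ CC L → n ∈ Subgroup.normalizer (FF L N S M : Set G) → n ∈ DS L S := by
    intro n hn hnC hnF s hs
    have hsn : s⁻¹ * n * s ∈ N := by
      have := hNn.conj_mem n hn s⁻¹
      simpa using this
    obtain ⟨l, hl, hlc⟩ := hcomp _ hsn
    have hlcomm : ∀ x ∈ L, x * l = l * x := by
      intro x hx
      obtain ⟨y, hy, hyx⟩ := hY s x hx
      have hyF : y ∈ FF L N S M := (le_sup_left : M ⊓ N ≤ FF L N S M) hy
      have h1 : n * y * n⁻¹ * y⁻¹ ∈ FF L N S M :=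
        (FF L N S M).mul_mem ((Subgroup.mem_normalizer_iff.1 hnF y).1 hyF)
          ((FF L N S M).inv_mem hyF)
      have h2 : n * y * n⁻¹ * y⁻¹ ∈ CC L := by
        have h3 := hCn y (hNT hy.2) _ ((CC L).inv_mem hnC)
        have h4 := (CC L).mul_mem hnC h3
        have e : n * (y * n⁻¹ * y⁻¹) = n * y * n⁻¹ * y⁻¹ := by group
        rw [e] at h4
        exact h4
      have h3 : s⁻¹ * (n * y * n⁻¹ * y⁻¹) * s ∈ CC L := hFC _ h1 h2 s hs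
      -- write n'' = l c, y'' = x c'
      obtain ⟨c, hc, hlc'⟩ : ∃ c ∈ CC L, s⁻¹ * n * s = l * c := ⟨l⁻¹ * (s⁻¹ * n * s), hlc, by group⟩
      obtain ⟨c', hc', hxc'⟩ : ∃ c' ∈ CC L, s⁻¹ * y * s = x * c' :=
        ⟨x⁻¹ * (s⁻¹ * y * s), hyx, by group⟩
      have hcl : ∀ z ∈ L, ∀ w ∈ CC L, z * w = w * z := by
        intro z hz w hw
        exact (Subgroup.mem_centralizer_iff.1 hw) z hz
      have e1 : s⁻¹ * (n * y * n⁻¹ * y⁻¹) * s =
          (s⁻¹ * n * s) * (s⁻¹ * y * s) * (s⁻¹ * n * s)⁻¹ * (s⁻¹ * y * s)⁻¹ := by group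
      have e2 : (l * c) * (x * c') * (l * c)⁻¹ * (x * c')⁻¹ =
          (l * x * l⁻¹ * x⁻¹) * (c * c' * c⁻¹ * c'⁻¹) := by
        have a1 : c * x = x * c := (hcl x hx c hc).symm
        have a2 : c * c' * c⁻¹ * l⁻¹ = l⁻¹ * (c * c' * c⁻¹) :=
          (hcl _ (L.inv_mem hl) _ ((CC L).mul_mem ((CC L).mul_mem hc hc') ((CC L).inv_mem hc))).symm
        have a3 : c * c' * c⁻¹ * c'⁻¹ * x⁻¹ = x⁻¹ * (c * c' * c⁻¹ * c'⁻¹) :=
          (hcl _ (L.inv_mem hx) _ ((CC L).mul_mem ((CC L).mul_mem ((CC L).mul_mem hc hc')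
            ((CC L).inv_mem hc)) ((CC L).inv_mem hc'))).symm
        calc (l * c) * (x * c') * (l * c)⁻¹ * (x * c')⁻¹
            = l * (c * x) * c' * c⁻¹ * l⁻¹ * c'⁻¹ * x⁻¹ := by group
          _ = l * (x * c) * c' * c⁻¹ * l⁻¹ * c'⁻¹ * x⁻¹ := by rw [a1]
          _ = l * x * (c * c' * c⁻¹ * l⁻¹) * c'⁻¹ * x⁻¹ := by group
          _ = l * x * (l⁻¹ * (c * c' * c⁻¹)) * c'⁻¹ * x⁻¹ := by rw [a2]
          _ = l * x * l⁻¹ * (c * c' * c⁻¹ * c'⁻¹ * x⁻¹) := by group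
          _ = l * x * l⁻¹ * (x⁻¹ * (c * c' * c⁻¹ * c'⁻¹)) := by rw [a3]
          _ = (l * x * l⁻¹ * x⁻¹) * (c * c' * c⁻¹ * c'⁻¹) := by group
      rw [e1, hlc', hxc', e2] at h3
      have h4 : c * c' * c⁻¹ * c'⁻¹ ∈ CC L :=
        (CC L).mul_mem ((CC L).mul_mem ((CC L).mul_mem hc hc') ((CC L).inv_mem hc))
          ((CC L).inv_mem hc')
      have h5 : l * x * l⁻¹ * x⁻¹ ∈ CC L := by
        have h6 := (CC L).mul_mem h3 ((CC L).inv_mem h4)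
        rw [mul_inv_cancel_right] at h6
        exact h6
      have h6 : l * x * l⁻¹ * x⁻¹ ∈ L ⊓ CC L :=
        ⟨L.mul_mem (L.mul_mem (L.mul_mem hl hx) (L.inv_mem hl)) (L.inv_mem hx), h5⟩
      rw [hLC, Subgroup.mem_bot] at h6
      have h7 : l * x * l⁻¹ * x⁻¹ * x * l = 1 * x * l := by rw [h6]
      calc x * l = 1 * x * l := by group
        _ = l * x * l⁻¹ * x⁻¹ * x * l := h7.symm
        _ = l * x := by group
    have hlC : l ∈ CC L := Subgroup.mem_centralizer_iff.2 hlcomm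
    have h8 : l ∈ L ⊓ CC L := ⟨hl, hlC⟩
    have h9 := (CC L).mul_mem hlC hlc
    have e : l * (l⁻¹ * (s⁻¹ * n * s)) = s⁻¹ * n * s := by group
    rw [e] at h9
    exact h9
  have hmain : (M ⊓ S) ⊔ DS L S = S ⊓ Subgroup.normalizer (FF L N S M : Set G) := by
    refine le_antisymm (sup_le (le_inf inf_le_right hMSn) (le_inf hDS hDSn)) ?_
    rintro g ⟨hgS, hgF⟩
    have hg' : g ∈ N ⊔ (M ⊓ Subgroup.normalizer ((M ⊓ N ⊓ CC L : Subgroup G) : Set G)) := hgS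
    rw [Subgroup.mem_sup_of_normal_left] at hg'
    obtain ⟨n, hn, m, hm, rfl⟩ := hg'
    have hmS : m ∈ S := (le_sup_right :
      (M ⊓ Subgroup.normalizer ((M ⊓ N ⊓ CC L : Subgroup G) : Set G)) ≤ S) hm
    have hmMS : m ∈ M ⊓ S := ⟨hm.1, hmS⟩
    have hnF : n ∈ Subgroup.normalizer (FF L N S M : Set G) := by
      have h1 := (Subgroup.normalizer (FF L N S M : Set G)).mul_mem hgF
        ((Subgroup.normalizer (FF L N S M : Set G)).inv_mem (hMSn hmMS))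
      rw [mul_inv_cancel_right] at h1
      exact h1
    obtain ⟨l, hl, hlc⟩ := hcomp n hn
    obtain ⟨y, hy, hyl⟩ := hY 1 l hl
    have hyl' : l⁻¹ * y ∈ CC L := by simpa using hyl
    have hyMS : y ∈ M ⊓ S := ⟨hy.1, hNS hy.2⟩
    have h1 : y⁻¹ * n ∈ CC L := by
      have h2 := (CC L).mul_mem ((CC L).inv_mem hyl') hlc
      have e : (l⁻¹ * y)⁻¹ * (l⁻¹ * n) = y⁻¹ * n := by group
      rw [e] at h2
      exact h2
    have h2 : y⁻¹ * n ∈ DS L S := by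
      refine hkey _ (N.mul_mem (N.inv_mem hy.2) hn) h1 ?_
      exact (Subgroup.normalizer (FF L N S M : Set G)).mul_mem
        ((Subgroup.normalizer (FF L N S M : Set G)).inv_mem (hMSn hyMS)) hnF
    have e : n * m = y * (y⁻¹ * n) * m := by group
    rw [e]
    exact Subgroup.mul_mem _ (Subgroup.mul_mem _ ((le_sup_left : M ⊓ S ≤ _) hyMS)
      ((le_sup_right : DS L S ≤ (M ⊓ S) ⊔ DS L S) h2)) ((le_sup_left : M ⊓ S ≤ _) hmMS)
  refine ⟨hmain, ?_⟩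
  intro heq
  rw [hmain] at heq
  have hSF : S ≤ Subgroup.normalizer (FF L N S M : Set G) := by
    intro x hx
    rw [← heq] at hx
    exact hx.2
  obtain ⟨s, hs, hsT⟩ : ∃ s ∈ S, s ∉ TT L := by
    by_contra hcon
    push Not at hcon
    exact hne (le_antisymm hcon hTS)
  have hLC' : ∀ x ∈ L, x ∈ CC L := by
    intro x hx
    have h1 : s * x * s⁻¹ ∈ CC L := hout s hsT x hx
    have h2 : s * x * s⁻¹ ∈ N := hNn.conj_mem x (hLN hx) s
    have h3 := hkey _ h2 h1 (hSF (hNS h2)) s hs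
    have e : s⁻¹ * (s * x * s⁻¹) * s = x := by group
    rw [e] at h3
    exact h3
  obtain ⟨a, ha, b, hb, hab⟩ := hMf.nc
  exact hab ((Subgroup.mem_centralizer_iff.1 (hLC' b hb)) a ha)

/-- B16 -/
theorem FF_norm {G : Type*} [Group G] [Finite G] {L N M : Subgroup G} [N.Normal] (hMf : Mfac L N)
    (hN : MinN N) (hD : DT L N M) :
    (M ⊓ keyS L N M) ⊔ DS L (keyS L N M) =
      keyS L N M ⊓ Subgroup.normalizer (FF L N (keyS L N M) M : Set G) ∧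
    (M ⊓ keyS L N M) ⊔ DS L (keyS L N M) ≠ keyS L N M :=
  B16_core hMf (Y_onto hMf hD) (keyS_iff hMf hD) (keyS_ne hMf hN hD)

end MX
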