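import Pool.Agent.helper81.MX.Defs5
import Pool.Agent.helper81.MX.M02
import Pool.Agent.helper81.MX.M07
import Pool.Agent.helper81.MX.B01
import Pool.Agent.helper81.MX.B02
import Pool.Agent.helper81.MX.B13
import Pool.Agent.helper81.MX.B16

set_option autoImplicit false

namespace MX
open scoped MatrixGroups

theorem B17_cc {G : Type*} [Group G] (a b : G) (H : Subgroup G) : cj a (cj b H) = cj (a * b) H := by
  ext x
  rw [mem_cj, mem_cj, mem_cj]
  have : b⁻¹ * (a⁻¹ * x * a) * b = (a * b)⁻¹ * x * (a * b) := by group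
  rw [this]

theorem B17_one {G : Type*} [Group G] (H : Subgroup G) : cj 1 H = H := by
  ext x
  rw [mem_cj]
  simp

theorem B17_mono {G : Type*} [Group G] (g : G) {H K : Subgroup G} (h : H ≤ K) : cj g H ≤ cj g K :=
  Subgroup.map_mono h

theorem B17_inv {G : Type*} [Group G] (g : G) (H : Subgroup G) : cj g⁻¹ (cj g H) = H := by
  rw [B17_cc, inv_mul_cancel, B17_one]

theorem B17_inv' {G : Type*} [Group G] (g : G) (H : Subgroup G) : cj g (cj g⁻¹ H) = H := by
  rw [B17_cc, mul_inv_cancel, B17_one]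

theorem B17_top {G : Type*} [Group G] (g : G) : cj g (⊤ : Subgroup G) = ⊤ := by
  ext x
  rw [mem_cj]
  exact ⟨fun _ => Subgroup.mem_top _, fun _ => Subgroup.mem_top _⟩

theorem B17_coatom {G : Type*} [Group G] (g : G) {M : Subgroup G} (hM : IsCoatom M) :
    IsCoatom (cj g M) := by
  refine ⟨fun h => hM.1 ?_, fun B hB => ?_⟩
  · rw [← B17_inv g M, h, B17_top]
  · have h1 : M < cj g⁻¹ B := by
      refine lt_of_le_of_ne ?_ ?_
      · rw [← B17_inv g M]
        exact B17_mono _ hB.le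
      · intro h
        apply hB.ne
        rw [h, B17_inv']
    have h2 := hM.2 _ h1
    rw [← B17_inv' g B, h2, B17_top]

theorem B17_CC {G : Type*} [Group G] {L : Subgroup G} {x : G} (hx : x ∈ TT L) {c : G}
    (hc : c ∈ CC L) : x * c * x⁻¹ ∈ CC L := by
  rw [Subgroup.mem_centralizer_iff] at hc ⊢
  intro l hl
  have h1 : x⁻¹ * l * x ∈ L := by
    have h2 := (Subgroup.mem_normalizer_iff.1 ((TT L).inv_mem hx) l).1 hl
    rwa [inv_inv] at h2
  have h3 := hc _ h1
  calc l * (x * c * x⁻¹) = x * ((x⁻¹ * l * x) * c) * x⁻¹ := by group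
    _ = x * (c * (x⁻¹ * l * x)) * x⁻¹ := by rw [h3]
    _ = x * c * x⁻¹ * l := by group

theorem B17_CC_iff {G : Type*} [Group G] {L : Subgroup G} {x : G} (hx : x ∈ TT L) (c : G) :
    x⁻¹ * c * x ∈ CC L ↔ c ∈ CC L := by
  constructor
  · intro h
    have h1 := B17_CC hx h
    have h2 : x * (x⁻¹ * c * x) * x⁻¹ = c := by group
    rwa [h2] at h1
  · intro h
    have h1 := B17_CC ((TT L).inv_mem hx) h
    rwa [inv_inv] at h1

theorem B17_N {G : Type*} [Group G] (N : Subgroup G) [N.Normal] (x y : G) :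
    x⁻¹ * y * x ∈ N ↔ y ∈ N := by
  constructor
  · intro h
    have h1 := Subgroup.Normal.conj_mem (H := N) inferInstance _ h x
    have h2 : x * (x⁻¹ * y * x) * x⁻¹ = y := by group
    rwa [h2] at h1
  · intro h
    have h1 := Subgroup.Normal.conj_mem (H := N) inferInstance _ h x⁻¹
    rwa [inv_inv] at h1

theorem B17_DS {G : Type*} [Group G] (L S : Subgroup G) {t : G} (ht : t ∈ S) (y : G) :
    t⁻¹ * y * t ∈ DS L S ↔ y ∈ DS L S := by
  have key : ∀ t ∈ S, ∀ y ∈ DS L S, t⁻¹ * y * t ∈ DS L S := by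
    intro t ht y hy s hs
    have h1 := hy (t * s) (S.mul_mem ht hs)
    have h2 : s⁻¹ * (t⁻¹ * y * t) * s = (t * s)⁻¹ * y * (t * s) := by group
    rw [h2]
    exact h1
  constructor
  · intro h
    have h1 := key t⁻¹ (S.inv_mem ht) _ h
    have h2 : t⁻¹⁻¹ * (t⁻¹ * y * t) * t⁻¹ = y := by group
    rwa [h2] at h1
  · exact key t ht y

theorem B17_DT {G : Type*} [Group G] [Finite G] {L N M : Subgroup G} [N.Normal]
    (hMf : Mfac L N) (hD : DT L N M) (x : G) (hx : x ∈ N) : DT L N (cj x M) := by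
  have hxT : x ∈ TT L := (Mfac_basic hMf).2.1 hx
  obtain ⟨pmul, -, pinv, -, -, -, -, -, -, pim⟩ := pa_basic L
  refine ⟨B17_coatom x hD.max, fun h => hD.notle ?_, ?_, fun h => hD.ndiag ?_⟩
  · intro n hn
    have h1 : x * n * x⁻¹ ∈ cj x M := h (Subgroup.Normal.conj_mem inferInstance n hn x)
    rw [mem_cj] at h1
    have h2 : x⁻¹ * (x * n * x⁻¹) * x = n := by group
    rwa [h2] at h1
  · rw [eq_top_iff]
    intro a _
    rw [pim]
    have h1 : (pa L x)⁻¹ * a * pa L x ∈ imA L M := by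
      rw [hD.top]
      exact Subgroup.mem_top _
    rw [pim] at h1
    obtain ⟨m, hm, hmT, hma⟩ := h1
    refine ⟨x * m * x⁻¹, ?_, (TT L).mul_mem ((TT L).mul_mem hxT hmT) ((TT L).inv_mem hxT), ?_⟩
    · rw [mem_cj]
      have h2 : x⁻¹ * (x * m * x⁻¹) * x = m := by group
      rw [h2]
      exact hm
    · rw [pmul _ ((TT L).mul_mem hxT hmT) _ ((TT L).inv_mem hxT), pmul _ hxT _ hmT, pinv _ hxT,
        hma]
      group
  · intro y hy
    have h1 : x * y * x⁻¹ ∈ cj x M ⊓ N := by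
      refine ⟨(mem_cj _ _ _).2 ?_, Subgroup.Normal.conj_mem inferInstance y hy.2 x⟩
      have h2 : x⁻¹ * (x * y * x⁻¹) * x = y := by group
      rw [h2]
      exact hy.1
    have h3 := h h1
    rw [← B17_CC_iff hxT] at h3
    have h2 : x⁻¹ * (x * y * x⁻¹) * x = y := by group
    rwa [h2] at h3

theorem B17_keyS {G : Type*} [Group G] [Finite G] {L N M : Subgroup G} [N.Normal]
    (hMf : Mfac L N) (hD : DT L N M) (x : G) (hx : x ∈ N) :
    keyS L N (cj x M) = keyS L N M := by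
  have hxT : x ∈ TT L := (Mfac_basic hMf).2.1 hx
  have hD' := B17_DT hMf hD x hx
  obtain ⟨hT, hk⟩ := keyS_iff hMf hD
  obtain ⟨-, hk'⟩ := keyS_iff hMf hD'
  ext g
  rw [hk' g]
  have h1 : x⁻¹ * g ∈ keyS L N M ↔ g ∈ keyS L N M := by
    constructor
    · intro h
      have h2 := (keyS L N M).mul_mem (hT hxT) h
      rwa [mul_inv_cancel_left] at h2
    · intro h
      exact (keyS L N M).mul_mem ((keyS L N M).inv_mem (hT hxT)) h
  rw [← h1, hk (x⁻¹ * g)]
  have e1 : cj x M ⊓ N ⊓ cj g (CC L) = cj x (M ⊓ N ⊓ cj (x⁻¹ * g) (CC L)) := by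
    ext y
    rw [mem_cj]
    simp only [Subgroup.mem_inf, mem_cj, B17_N]
    have h3 : (x⁻¹ * g)⁻¹ * (x⁻¹ * y * x) * (x⁻¹ * g) = g⁻¹ * y * g := by group
    rw [h3]
  have e2 : cj x M ⊓ N ⊓ CC L = cj x (M ⊓ N ⊓ CC L) := by
    ext y
    rw [mem_cj]
    simp only [Subgroup.mem_inf, mem_cj, B17_N, B17_CC_iff hxT]
  rw [e1, e2]
  constructor
  · intro h
    rw [← B17_inv x (M ⊓ N ⊓ cj (x⁻¹ * g) (CC L)), h, B17_inv]
  · intro h
    rw [h]

/-- B17 -/
theorem keyS_conj {G : Type*} [Group G] [Finite G] {L N M M' : Subgroup G} [N.Normal]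
    (hMf : Mfac L N) (hN : MinN N) (hD : DT L N M) (hD' : DT L N M') (S : Subgroup G)
    (hS : keyS L N M = S) (hS' : keyS L N M' = S) (x : G) (hx : x ∈ N)
    (hF : cj x (FF L N S M) = FF L N S M') : SC M M' := by
  have hxT : x ∈ TT L := (Mfac_basic hMf).2.1 hx
  have hD₁ := B17_DT hMf hD x hx
  have hS₁ : keyS L N (cj x M) = S := (B17_keyS hMf hD x hx).trans hS
  have hTS : TT L ≤ S := by
    rw [← hS]
    exact (keyS_iff hMf hD).1
  have hNS : N ≤ S := (Mfac_basic hMf).2.1.trans hTS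
  have hF₁ : FF L N S (cj x M) = FF L N S M' := by
    rw [← hF]
    unfold FF
    have e1 : cj x M ⊓ N = cj x (M ⊓ N) := by
      ext y
      rw [mem_cj]
      simp only [Subgroup.mem_inf, mem_cj, B17_N]
    have e2 : N ⊓ DS L S = cj x (N ⊓ DS L S) := by
      ext y
      rw [mem_cj]
      simp only [Subgroup.mem_inf, B17_N, B17_DS L S (hNS hx)]
    have e3 : cj x ((M ⊓ N) ⊔ (N ⊓ DS L S)) = cj x (M ⊓ N) ⊔ cj x (N ⊓ DS L S) :=
      Subgroup.map_sup _ _ _
    rw [e3, ← e1, ← e2]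
  obtain ⟨g1, g2⟩ := FF_norm hMf hN hD₁
  obtain ⟨g3, -⟩ := FF_norm hMf hN hD'
  rw [hS₁] at g1 g2
  rw [hS'] at g3
  have hconj : SC (cj x M) M' := by
    refine GP N S (DS L S) hNS ?_ ?_ (fun r ν hr hν => ce_S hMf S hTS r ν hr hν) (cj x M) M'
      hD₁.max hD'.max hD₁.notle hD'.notle ?_ g2
    · intro g hg
      have h1 := hg 1 S.one_mem
      have h2 : (1 : G)⁻¹ * g * 1 = g := by group
      rw [h2] at h1
      have hCT : CC L ≤ TT L := by
        intro c hc
        rw [Subgroup.mem_normalizer_iff]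
        rw [Subgroup.mem_centralizer_iff] at hc
        intro y
        constructor
        · intro hy
          have h3 : c * y * c⁻¹ = y := by
            rw [← hc y hy]
            group
          rw [h3]
          exact hy
        · intro hy
          have h3 := hc _ hy
          have h4 : y = c * y * c⁻¹ := by
            calc y = c⁻¹ * ((c * y * c⁻¹) * c) := by group
              _ = c⁻¹ * (c * (c * y * c⁻¹)) := by rw [h3]
              _ = c * y * c⁻¹ := by group
          rw [h4]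
          exact hy
      exact hTS (hCT h1)
    · intro s hs d hd
      have h1 := (B17_DS L S (S.inv_mem hs) d).2 hd
      rwa [inv_inv] at h1
    · rw [g1, g3, hF₁]
  obtain ⟨y, hy⟩ := hconj
  refine ⟨y * x, ?_⟩
  rw [← B17_cc, hy]

end MX
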