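import Pool.Agent.helper81.MX.Defs5
import Pool.Agent.helper81.MX.M02

set_option autoImplicit false

namespace MX

theorem B11_cc {G : Type*} [Group G] {L : Subgroup G} {t c : G} (ht : t ∈ TT L)
    (hc : c ∈ CC L) : t⁻¹ * c * t ∈ CC L := by
  rw [Subgroup.mem_centralizer_iff] at hc ⊢
  intro x hx
  have h1 : t * x * t⁻¹ ∈ L := (Subgroup.mem_normalizer_iff.1 ht x).1 hx
  have h2 := hc _ h1
  calc x * (t⁻¹ * c * t) = t⁻¹ * (t * x * t⁻¹ * c) * t := by group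
    _ = t⁻¹ * (c * (t * x * t⁻¹)) * t := by rw [h2]
    _ = t⁻¹ * c * t * x := by group

theorem B11_im {G : Type*} [Group G] {L M : Subgroup G} (h : imA L M = ⊤) {l : G} (hl : l ∈ L) :
    ∃ m ∈ M, m ∈ TT L ∧ l⁻¹ * m ∈ CC L := by
  have hlT : l ∈ TT L := Subgroup.le_normalizer hl
  have h1 : L.normalizerMonoidHom.rangeRestrict ⟨l, hlT⟩ ∈ imA L M := by
    rw [h]
    exact Subgroup.mem_top _
  obtain ⟨m, hm, hml⟩ := h1
  have h2 : L.normalizerMonoidHom m = L.normalizerMonoidHom ⟨l, hlT⟩ := congrArg Subtype.val hml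
  refine ⟨m.1, hm, m.2, ?_⟩
  have h3 : (⟨l, hlT⟩ : TT L)⁻¹ * m ∈ L.normalizerMonoidHom.ker := by
    rw [MonoidHom.mem_ker, map_mul, map_inv, h2, inv_mul_cancel]
  rw [Subgroup.normalizerMonoidHom_ker, Subgroup.mem_subgroupOf] at h3
  exact h3

/-- B11 -/
theorem Y_onto {G : Type*} [Group G] [Finite G] {L N M : Subgroup G} [N.Normal] (hMf : Mfac L N)
    (hD : DT L N M) (g : G) (l : G) (hl : l ∈ L) :
    ∃ y ∈ M ⊓ N, l⁻¹ * (g⁻¹ * y * g) ∈ CC L := by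
  obtain ⟨hLN, hNT, hLC, hcomp, -⟩ := Mfac_basic hMf
  have hN : N.Normal := inferInstance
  have hcl : ∀ c ∈ CC L, ∀ x ∈ L, c * x = x * c := fun c hc x hx =>
    (Subgroup.mem_centralizer_iff.1 hc x hx).symm
  -- the elements of `L` which are components of elements of `M ⊓ N`
  let K : Subgroup L :=
    { carrier := {k | ∃ y ∈ M ⊓ N, (k : G)⁻¹ * y ∈ CC L}
      one_mem' := ⟨1, Subgroup.one_mem _, by
        rw [mul_one]
        exact Subgroup.inv_mem _ (Subgroup.one_mem _)⟩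
      mul_mem' := by
        rintro a b ⟨y, hy, hya⟩ ⟨z, hz, hzb⟩
        refine ⟨y * z, Subgroup.mul_mem _ hy hz, ?_⟩
        have h1 : ((a * b : L) : G)⁻¹ * (y * z) =
            ((b : G)⁻¹ * ((a : G)⁻¹ * y) * b) * ((b : G)⁻¹ * z) := by
          push_cast
          group
        rw [h1]
        exact Subgroup.mul_mem _ (B11_cc (Subgroup.le_normalizer b.2) hya) hzb
      inv_mem' := by
        rintro a ⟨y, hy, hya⟩
        refine ⟨y⁻¹, Subgroup.inv_mem _ hy, ?_⟩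
        have h1 : ((a⁻¹ : L) : G)⁻¹ * y⁻¹ = (a : G) * (((a : G)⁻¹ * y)⁻¹) * (a : G)⁻¹ := by
          push_cast
          group
        rw [h1]
        have h2 := B11_cc (Subgroup.inv_mem _ (Subgroup.le_normalizer a.2)) (Subgroup.inv_mem _ hya)
        rwa [inv_inv] at h2 }
  have hKn : K.Normal := by
    constructor
    rintro k ⟨y, hy, hyk⟩ x
    obtain ⟨m, hm, hmT, hmx⟩ := B11_im hD.top x.2
    refine ⟨m * y * m⁻¹, ⟨?_, ?_⟩, ?_⟩
    · exact M.mul_mem (M.mul_mem hm hy.1) (M.inv_mem hm)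
    · exact hN.conj_mem y hy.2 m
    · -- `m = x c`
      have h1 : ((x : G)⁻¹ * m) * (k : G)⁻¹ = (k : G)⁻¹ * ((x : G)⁻¹ * m) :=
        hcl _ hmx _ (L.inv_mem k.2)
      have h2 : ((x * k * x⁻¹ : L) : G)⁻¹ * (m * y * m⁻¹) =
          m * ((k : G)⁻¹ * y) * m⁻¹ := by
        push_cast
        calc ((x : G) * k * (x : G)⁻¹)⁻¹ * (m * y * m⁻¹)
            = (x : G) * ((k : G)⁻¹ * ((x : G)⁻¹ * m)) * y * m⁻¹ := by group
          _ = (x : G) * (((x : G)⁻¹ * m) * (k : G)⁻¹) * y * m⁻¹ := by rw [h1]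
          _ = m * ((k : G)⁻¹ * y) * m⁻¹ := by group
      rw [h2]
      have h3 := B11_cc (Subgroup.inv_mem _ hmT) hyk
      rwa [inv_inv] at h3
  have hKtop : K = ⊤ := by
    have := hMf.simple
    rcases this.eq_bot_or_eq_top_of_normal K hKn with h | h
    · exfalso
      apply hD.ndiag
      intro y hy
      obtain ⟨a, ha, hay⟩ := hcomp y hy.2
      have h1 : (⟨a, ha⟩ : L) ∈ K := ⟨y, hy, hay⟩
      rw [h, Subgroup.mem_bot] at h1
      have h2 : a = 1 := congrArg Subtype.val h1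
      rwa [h2, inv_one, one_mul] at hay
    · exact h
  have hall : ∀ a ∈ L, ∃ y ∈ M ⊓ N, a⁻¹ * y ∈ CC L := by
    intro a ha
    have h1 : (⟨a, ha⟩ : L) ∈ K := by
      rw [hKtop]
      exact Subgroup.mem_top _
    exact h1
  have hMN : M ⊔ N = ⊤ := by
    rcases hD.max.le_iff.1 (le_sup_left : M ≤ M ⊔ N) with h | h
    · exact h
    · exact absurd (h ▸ le_sup_right) hD.notle
  have hg : g ∈ M ⊔ N := by
    rw [hMN]
    exact Subgroup.mem_top _
  rw [← SetLike.mem_coe, Subgroup.mul_normal] at hg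
  obtain ⟨m, hm, n, hn, rfl⟩ := hg
  have hnT : n ∈ TT L := hNT hn
  have hl' : n * l * n⁻¹ ∈ L := (Subgroup.mem_normalizer_iff.1 hnT l).1 hl
  obtain ⟨y, hy, hyl⟩ := hall _ hl'
  refine ⟨m * y * m⁻¹, ⟨?_, ?_⟩, ?_⟩
  · exact M.mul_mem (M.mul_mem hm hy.1) (M.inv_mem hm)
  · exact hN.conj_mem y hy.2 m
  · have h1 : l⁻¹ * ((m * n)⁻¹ * (m * y * m⁻¹) * (m * n)) =
        n⁻¹ * ((n * l * n⁻¹)⁻¹ * y) * n := by group
    show l⁻¹ * ((m * n)⁻¹ * (m * y * m⁻¹) * (m * n)) ∈ CC L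
    rw [h1]
    exact B11_cc hnT hyl

end MX
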