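import Pool.Agent.helper81.MX.Defs5
import Pool.Agent.helper81.MX.M02
import Pool.Agent.helper81.MX.M07
import Pool.Agent.helper81.MX.B11
import Pool.Agent.helper81.MX.B13

set_option autoImplicit false

namespace MX
open scoped MatrixGroups

/-- B18 -/
theorem Sg_exists {G : Type*} [Group G] [Finite G] {L N M : Subgroup G} [N.Normal] (hMf : Mfac L N)
    (hD : DT L N M) (m : G) (hm : m ∈ M) (hmS : m ∈ keyS L N M) :
    ∃ b : MulAut (LA L), Sg L N M m b := by
  obtain ⟨-, hNT, -, hNL, -⟩ := Mfac_basic hMf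
  obtain ⟨pmul, -, -, pone, -, pL, pLs, -, pLA, -⟩ := pa_basic L
  have hNLA : ∀ n ∈ N, pa L n ∈ LA L := by
    intro n hn
    rw [pLA n (hNT hn)]
    obtain ⟨l, hl, hc⟩ := hNL n hn
    have h1 : n = l * (l⁻¹ * n) := by group
    rw [h1]
    exact Subgroup.mul_mem_sup hl hc
  have hconjN : ∀ y : G, y ∈ M ⊓ N → m * y * m⁻¹ ∈ M ⊓ N := fun y hy =>
    ⟨M.mul_mem (M.mul_mem hm hy.1) (M.inv_mem hm), Subgroup.Normal.conj_mem inferInstance y hy.2 m⟩
  have hconjN' : ∀ y : G, y ∈ M ⊓ N → m⁻¹ * y * m ∈ M ⊓ N := fun y hy => by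
    have h1 := Subgroup.Normal.conj_mem (H := N) inferInstance y hy.2 m⁻¹
    rw [inv_inv] at h1
    exact ⟨M.mul_mem (M.mul_mem (M.inv_mem hm) hy.1) hm, h1⟩
  let f₁ : (M ⊓ N : Subgroup G) →* LA L :=
    { toFun := fun y => ⟨pa L y, hNLA y y.2.2⟩
      map_one' := Subtype.ext (by
        change pa L 1 = 1
        exact (pone 1 (TT L).one_mem).2 (CC L).one_mem)
      map_mul' := fun x y => Subtype.ext (pmul x (hNT x.2.2) y (hNT y.2.2)) }
  let f₂ : (M ⊓ N : Subgroup G) →* LA L :=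
    { toFun := fun y => ⟨pa L (m * y * m⁻¹), hNLA _ (hconjN y y.2).2⟩
      map_one' := Subtype.ext (by
        change pa L (m * 1 * m⁻¹) = 1
        rw [mul_one, mul_inv_cancel]
        exact (pone 1 (TT L).one_mem).2 (CC L).one_mem)
      map_mul' := fun x y => Subtype.ext (by
        change pa L (m * ((x : G) * (y : G)) * m⁻¹) = pa L (m * x * m⁻¹) * pa L (m * y * m⁻¹)
        rw [← pmul _ (hNT (hconjN x x.2).2) _ (hNT (hconjN y y.2).2)]
        congr 1
        group) }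
  have hf₁ : Function.Surjective f₁ := by
    rintro ⟨a, ha⟩
    obtain ⟨l, hl, rfl⟩ := pLs a ha
    obtain ⟨y, hy, hc⟩ := Y_onto hMf hD 1 l hl
    have h1 : l⁻¹ * y ∈ CC L := by
      have h2 : l⁻¹ * (1⁻¹ * y * 1) = l⁻¹ * y := by group
      rwa [h2] at hc
    refine ⟨⟨y, hy⟩, Subtype.ext ?_⟩
    change pa L y = pa L l
    have h3 : y = l * (l⁻¹ * y) := by group
    have hlT : l ∈ TT L := Subgroup.le_normalizer hl
    have hcT : l⁻¹ * y ∈ TT L := (TT L).mul_mem ((TT L).inv_mem hlT) (hNT hy.2)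
    rw [h3, pmul l hlT _ hcT, (pone _ hcT).2 h1, mul_one]
  have hf₂ : Function.Surjective f₂ := by
    intro a
    obtain ⟨y, hy⟩ := hf₁ a
    refine ⟨⟨m⁻¹ * y * m, hconjN' y y.2⟩, ?_⟩
    rw [← hy]
    apply Subtype.ext
    change pa L (m * (m⁻¹ * (y : G) * m) * m⁻¹) = pa L y
    congr 1
    group
  have hkey : M ⊓ N ⊓ cj m (CC L) = M ⊓ N ⊓ CC L := ((keyS_iff hMf hD).2 m).1 hmS
  have hker₁ : ∀ y : (M ⊓ N : Subgroup G), y ∈ f₁.ker ↔ (y : G) ∈ CC L := by
    intro y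
    rw [MonoidHom.mem_ker, ← pone _ (hNT y.2.2)]
    exact ⟨fun h => congrArg Subtype.val h, fun h => Subtype.ext h⟩
  have hker₂ : ∀ y : (M ⊓ N : Subgroup G), y ∈ f₂.ker ↔ m * (y : G) * m⁻¹ ∈ CC L := by
    intro y
    rw [MonoidHom.mem_ker, ← pone _ (hNT (hconjN y y.2).2)]
    exact ⟨fun h => congrArg Subtype.val h, fun h => Subtype.ext h⟩
  have hker : f₁.ker = f₂.ker := by
    ext y
    rw [hker₁, hker₂]
    constructor
    · intro h
      have h1 : m * (y : G) * m⁻¹ ∈ M ⊓ N ⊓ cj m (CC L) := by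
        refine ⟨hconjN y y.2, (mem_cj _ _ _).2 ?_⟩
        have h2 : m⁻¹ * (m * (y : G) * m⁻¹) * m = y := by group
        rw [h2]
        exact h
      rw [hkey] at h1
      exact h1.2
    · intro h
      have h1 : m * (y : G) * m⁻¹ ∈ M ⊓ N ⊓ cj m (CC L) := by
        rw [hkey]
        exact ⟨hconjN y y.2, h⟩
      have h3 := (mem_cj _ _ _).1 h1.2
      have h2 : m⁻¹ * (m * (y : G) * m⁻¹) * m = y := by group
      rwa [h2] at h3
  let b : MulAut (LA L) := (QuotientGroup.quotientKerEquivOfSurjective f₁ hf₁).symm.trans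
    ((QuotientGroup.quotientMulEquivOfEq hker).trans
      (QuotientGroup.quotientKerEquivOfSurjective f₂ hf₂))
  have hb : ∀ y : (M ⊓ N : Subgroup G), b (f₁ y) = f₂ y := by
    intro y
    have h1 : (QuotientGroup.quotientKerEquivOfSurjective f₁ hf₁).symm (f₁ y) =
        QuotientGroup.mk y := by
      rw [MulEquiv.symm_apply_eq]
      rfl
    change (QuotientGroup.quotientKerEquivOfSurjective f₂ hf₂)
      ((QuotientGroup.quotientMulEquivOfEq hker)
        ((QuotientGroup.quotientKerEquivOfSurjective f₁ hf₁).symm (f₁ y))) = f₂ y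
    rw [h1]
    rfl
  exact ⟨b, fun y hy _ _ => hb ⟨y, hy⟩⟩

end MX
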