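import Pool.Agent.helper81.MX.Defs5
import Pool.Agent.helper81.MX.M02
import Pool.Agent.helper81.MX.M03
import Pool.Agent.helper81.MX.M07
import Pool.Agent.helper81.MX.B11
import Pool.Agent.helper81.MX.B18

set_option autoImplicit false

namespace MX
open scoped MatrixGroups

theorem B19_mem {G : Type*} [Group G] {L N : Subgroup G} (hMf : Mfac L N) (n : G) (hn : n ∈ N) :
    pa L n ∈ LA L := by
  obtain ⟨l, hl, hc⟩ := (Mfac_basic hMf).2.2.2.1 n hn
  have h := (pa_basic L).2.2.2.2.2.2.2.2.1 n ((Mfac_basic hMf).2.1 hn)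
  rw [h]
  have e : n = l * (l⁻¹ * n) := by group
  rw [e]
  exact Subgroup.mul_mem_sup hl hc

/-- The projection to the component. -/
noncomputable def B19_th {G : Type*} [Group G] {L N : Subgroup G} (hMf : Mfac L N) : N →* LA L where
  toFun n := ⟨pa L (n : G), B19_mem hMf n n.2⟩
  map_one' := Subtype.ext (M07_one L)
  map_mul' a b := Subtype.ext (M07_mul L a ((Mfac_basic hMf).2.1 a.2) b ((Mfac_basic hMf).2.1 b.2))

/-- Conjugation. -/
def B19_c {G : Type*} [Group G] (N : Subgroup G) [hN : N.Normal] (m : G) : N →* N where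
  toFun f := ⟨m⁻¹ * f * m, by
    have h := hN.conj_mem f f.2 m⁻¹
    rwa [inv_inv] at h⟩
  map_one' := by
    apply Subtype.ext
    show m⁻¹ * 1 * m = 1
    group
  map_mul' a b := by
    apply Subtype.ext
    show m⁻¹ * (a * b) * m = (m⁻¹ * a * m) * (m⁻¹ * b * m)
    group

theorem B19_th_val {G : Type*} [Group G] {L N : Subgroup G} (hMf : Mfac L N) (n : N) :
    ((B19_th hMf n : LA L) : AA L) = pa L (n : G) := rfl

theorem B19_th_one {G : Type*} [Group G] {L N : Subgroup G} (hMf : Mfac L N) (n : N) :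
    B19_th hMf n = 1 ↔ (n : G) ∈ CC L := by
  have h := M07_cent L (n : G) ((Mfac_basic hMf).2.1 n.2)
  rw [← h]
  constructor
  · intro h1
    exact congrArg Subtype.val h1
  · intro h1
    exact Subtype.ext h1

theorem B19_Sg {G : Type*} [Group G] {L N M : Subgroup G} [hN : N.Normal] (hMf : Mfac L N) (m : G)
    (hm : m ∈ M) (b : MulAut (LA L)) (hb : Sg L N M m b) (y : N) (hy : (y : G) ∈ M) :
    b (B19_th hMf (B19_c N m y)) = B19_th hMf y := by
  have h1 : m⁻¹ * (y : G) * m ∈ M ⊓ N :=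
    ⟨M.mul_mem (M.mul_mem (M.inv_mem hm) hy) hm, (B19_c N m y).2⟩
  have e : m * (m⁻¹ * (y : G) * m) * m⁻¹ = y := by group
  have h2 : pa L (m * (m⁻¹ * (y : G) * m) * m⁻¹) ∈ LA L := by
    rw [e]; exact B19_mem hMf y y.2
  have h3 := hb _ h1 (B19_mem hMf _ h1.2) h2
  have h4 : B19_th hMf (B19_c N m y) = ⟨pa L (m⁻¹ * (y : G) * m), B19_mem hMf _ h1.2⟩ := rfl
  rw [h4, h3]
  apply Subtype.ext
  show pa L (m * (m⁻¹ * (y : G) * m) * m⁻¹) = pa L (y : G)
  rw [e]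

theorem B19_CT {G : Type*} [Group G] (L : Subgroup G) (c t : G) (hc : c ∈ CC L) (ht : t ∈ TT L) :
    t⁻¹ * c * t ∈ CC L := by
  have hcT : c ∈ TT L := Subgroup.centralizer_le_normalizer (L : Set G) hc
  have h1 := (M07_cent L c hcT).2 hc
  rw [← M07_cent L _ (Subgroup.mul_mem _ (Subgroup.mul_mem _ (Subgroup.inv_mem _ ht) hcT) ht)]
  rw [M07_mul L _ (Subgroup.mul_mem _ (Subgroup.inv_mem _ ht) hcT) _ ht,
    M07_mul L _ (Subgroup.inv_mem _ ht) _ hcT, M07_inv L t ht, h1, mul_one, inv_mul_cancel]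

theorem B19_CH {G : Type*} [Group G] [Finite G] {L N M : Subgroup G} [hN : N.Normal]
    (hMf : Mfac L N) (hD : DT L N M) (S : Subgroup G) {ι : Type*} (m : ι → G)
    (b : ι → MulAut (LA L)) (hm : ∀ i, m i ∈ M ⊓ S) (hb : ∀ i, Sg L N M (m i) (b i))
    (hcov : ∀ s ∈ S, ∃ i, (m i)⁻¹ * s ∈ TT L) (f : N) :
    (f : G) ∈ FF L N S M ↔ ∀ i, b i (B19_th hMf (B19_c N (m i) f)) = B19_th hMf f := by
  constructor
  · intro hf
    let E : Subgroup N := ⨅ i, MonoidHom.eqLocus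
      (((b i).toMonoidHom.comp (B19_th hMf)).comp (B19_c N (m i))) (B19_th hMf)
    have hle : FF L N S M ≤ E.map N.subtype := by
      unfold FF
      refine sup_le ?_ ?_
      · rintro y ⟨hyM, hyN⟩
        refine ⟨⟨y, hyN⟩, ?_, rfl⟩
        show (⟨y, hyN⟩ : N) ∈ E
        rw [Subgroup.mem_iInf]
        intro i
        exact B19_Sg hMf (m i) (hm i).1 (b i) (hb i) ⟨y, hyN⟩ hyM
      · rintro d ⟨hdN, hd⟩
        refine ⟨⟨d, hdN⟩, ?_, rfl⟩
        show (⟨d, hdN⟩ : N) ∈ E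
        rw [Subgroup.mem_iInf]
        intro i
        show b i (B19_th hMf (B19_c N (m i) ⟨d, hdN⟩)) = B19_th hMf ⟨d, hdN⟩
        have h1 : B19_th hMf (B19_c N (m i) ⟨d, hdN⟩) = 1 := by
          rw [B19_th_one]
          exact hd (m i) (hm i).2
        have h2 : B19_th hMf ⟨d, hdN⟩ = 1 := by
          rw [B19_th_one]
          have h3 := hd 1 S.one_mem
          have e : (1 : G)⁻¹ * d * 1 = d := by group
          rwa [e] at h3
        rw [h1, h2, map_one]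
    obtain ⟨f', hf', hff⟩ := hle hf
    have e : f' = f := Subtype.ext hff
    rw [e] at hf'
    have hf2 : f ∈ E := hf'
    rw [Subgroup.mem_iInf] at hf2
    intro i
    exact hf2 i
  · intro hf
    obtain ⟨l, hl, hlc⟩ := (Mfac_basic hMf).2.2.2.1 (f : G) f.2
    obtain ⟨y, hy, hyc⟩ := Y_onto hMf hD 1 l hl
    have e1 : l⁻¹ * ((1 : G)⁻¹ * y * 1) = l⁻¹ * y := by group
    rw [e1] at hyc
    let y' : N := ⟨y, hy.2⟩
    have hyf : B19_th hMf y' = B19_th hMf f := by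
      have h1 : B19_th hMf (y'⁻¹ * f) = 1 := by
        rw [B19_th_one]
        have e : ((y'⁻¹ * f : N) : G) = (l⁻¹ * y)⁻¹ * (l⁻¹ * f) := by
          show y⁻¹ * (f : G) = (l⁻¹ * y)⁻¹ * (l⁻¹ * f)
          group
        rw [e]
        exact Subgroup.mul_mem _ (Subgroup.inv_mem _ hyc) hlc
      rw [map_mul, map_inv] at h1
      exact inv_mul_eq_one.1 h1
    have hd : ((y'⁻¹ * f : N) : G) ∈ DS L S := by
      intro s hs
      obtain ⟨i, hi⟩ := hcov s hs
      have h1 : B19_th hMf (B19_c N (m i) (y'⁻¹ * f)) = 1 := by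
        apply (b i).injective
        rw [map_mul, map_mul, map_mul, map_inv, map_inv, map_inv, hf i,
          B19_Sg hMf (m i) (hm i).1 (b i) (hb i) y' hy.1, hyf, inv_mul_cancel, map_one]
      rw [B19_th_one] at h1
      have h2 := B19_CT L _ _ h1 hi
      have e : ((m i)⁻¹ * s)⁻¹ * ((B19_c N (m i) (y'⁻¹ * f) : N) : G) * ((m i)⁻¹ * s) =
          s⁻¹ * ((y'⁻¹ * f : N) : G) * s := by
        show ((m i)⁻¹ * s)⁻¹ * ((m i)⁻¹ * ((y'⁻¹ * f : N) : G) * (m i)) * ((m i)⁻¹ * s) =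
          s⁻¹ * ((y'⁻¹ * f : N) : G) * s
        group
      rwa [e] at h2
    have e : (f : G) = y * ((y'⁻¹ * f : N) : G) := by
      show (f : G) = y * (y⁻¹ * (f : G))
      group
    rw [e]
    unfold FF
    exact Subgroup.mul_mem_sup hy ⟨(y'⁻¹ * f : N).2, hd⟩

theorem B19_fam {G : Type*} [Group G] [Finite G] {L N M M' : Subgroup G} [hN : N.Normal]
    (hMf : Mfac L N) (hD : DT L N M) (hD' : DT L N M') (S : Subgroup G)
    (hS : keyS L N M = S) (hS' : keyS L N M' = S)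
    (h : ∀ m ∈ M ⊓ S, ∀ m' ∈ M' ⊓ S, m⁻¹ * m' ∈ N → ∀ b b' : MulAut (LA L), Sg L N M m b →
      Sg L N M' m' b' → ∃ x : LA L, b' = MulAut.conj x * b) (s : G) (hs : s ∈ S) :
    ∃ (m m' : G) (b b' : MulAut (LA L)) (w : LA L), m ∈ M ⊓ S ∧ m' ∈ M' ⊓ S ∧ m⁻¹ * m' ∈ N ∧
      m⁻¹ * s ∈ TT L ∧ Sg L N M m b ∧ Sg L N M' m' b' ∧ b' = MulAut.conj w * b ∧
      (s ∈ TT L → m = 1 ∧ m' = 1 ∧ w = 1) := by
  by_cases hsT : s ∈ TT L
  · refine ⟨1, 1, 1, 1, 1, Subgroup.one_mem _, Subgroup.one_mem _, ?_, ?_, ?_, ?_, ?_,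
      fun _ => ⟨rfl, rfl, rfl⟩⟩
    · rw [mul_one, inv_one]; exact N.one_mem
    · rw [inv_one, one_mul]; exact hsT
    · intro y hy h1 h2
      apply Subtype.ext
      show pa L y = pa L (1 * y * 1⁻¹)
      have e : (1 : G) * y * 1⁻¹ = y := by group
      rw [e]
    · intro y hy h1 h2
      apply Subtype.ext
      show pa L y = pa L (1 * y * 1⁻¹)
      have e : (1 : G) * y * 1⁻¹ = y := by group
      rw [e]
    · rw [map_one, one_mul]
  · have hNS : N ≤ S := by rw [← hS]; exact le_sup_left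
    have key : ∀ X : Subgroup G, IsCoatom X → ¬ N ≤ X → ∃ n ∈ N, ∃ x ∈ X, n * x = s := by
      intro X hX hNX
      have h1 : N ⊔ X = ⊤ := by
        have h2 := hX.2 (N ⊔ X) (lt_of_le_of_ne le_sup_right (fun e => hNX (by
          rw [e]; exact le_sup_left)))
        exact h2
      have h2 : s ∈ N ⊔ X := by rw [h1]; exact Subgroup.mem_top s
      rw [Subgroup.mem_sup_of_normal_left] at h2
      exact h2
    obtain ⟨n, hn, m, hm, hnm⟩ := key M hD.max hD.notle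
    obtain ⟨n', hn', m', hm', hnm'⟩ := key M' hD'.max hD'.notle
    have hmS : m ∈ S := by
      have e : m = n⁻¹ * s := by rw [← hnm]; group
      rw [e]; exact S.mul_mem (S.inv_mem (hNS hn)) hs
    have hmS' : m' ∈ S := by
      have e : m' = n'⁻¹ * s := by rw [← hnm']; group
      rw [e]; exact S.mul_mem (S.inv_mem (hNS hn')) hs
    obtain ⟨b, hb⟩ := Sg_exists hMf hD m hm (by rw [hS]; exact hmS)
    obtain ⟨b', hb'⟩ := Sg_exists hMf hD' m' hm' (by rw [hS']; exact hmS')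
    have hmm : m⁻¹ * m' ∈ N := by
      have e : m⁻¹ * m' = s⁻¹ * (n * n'⁻¹) * s⁻¹⁻¹ := by
        have e1 : m = n⁻¹ * s := by rw [← hnm]; group
        have e2 : m' = n'⁻¹ * s := by rw [← hnm']; group
        rw [e1, e2]; group
      rw [e]
      exact hN.conj_mem _ (N.mul_mem hn (N.inv_mem hn')) _
    obtain ⟨w, hw⟩ := h m ⟨hm, hmS⟩ m' ⟨hm', hmS'⟩ hmm b b' hb hb'
    refine ⟨m, m', b, b', w, ⟨hm, hmS⟩, ⟨hm', hmS'⟩, hmm, ?_, hb, hb', hw,
      fun hc => absurd hc hsT⟩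
    have e : m⁻¹ * s = m⁻¹ * n * m⁻¹⁻¹ := by rw [← hnm]; group
    rw [e]
    exact (Mfac_basic hMf).2.1 (hN.conj_mem _ hn _)

/-- B19 -/
theorem F_conj {G : Type*} [Group G] [Finite G] {L N M M' : Subgroup G} [N.Normal]
    (hMf : Mfac L N) (hN : MinN N) (hD : DT L N M) (hD' : DT L N M') (S : Subgroup G)
    (hS : keyS L N M = S) (hS' : keyS L N M' = S)
    (h : ∀ m ∈ M ⊓ S, ∀ m' ∈ M' ⊓ S, m⁻¹ * m' ∈ N → ∀ b b' : MulAut (LA L), Sg L N M m b →
      Sg L N M' m' b' → ∃ x : LA L, b' = MulAut.conj x * b) :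
    ∃ x ∈ N, cj x (FF L N S M) = FF L N S M' := by
  classical
  let ι := S ⧸ (TT L).subgroupOf S
  have fam := fun i : ι => B19_fam hMf hD hD' S hS hS' h ((Quotient.out i : S) : G)
    (Quotient.out i : S).2
  choose m m' b b' w hm hm' hmm hms hb hb' hbw hT using fam
  have hNT := (Mfac_basic hMf).2.1
  have hcov : ∀ s ∈ S, ∃ i, (m i)⁻¹ * s ∈ TT L := by
    intro s hs
    refine ⟨QuotientGroup.mk ⟨s, hs⟩, ?_⟩
    have h1 : (QuotientGroup.mk (Quotient.out (QuotientGroup.mk ⟨s, hs⟩ : ι)) : ι) =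
      QuotientGroup.mk ⟨s, hs⟩ := Quotient.out_eq _
    rw [QuotientGroup.eq, Subgroup.mem_subgroupOf] at h1
    have h2 := Subgroup.mul_mem _ (hms (QuotientGroup.mk ⟨s, hs⟩)) h1
    have e : (m (QuotientGroup.mk ⟨s, hs⟩))⁻¹ *
        ((Quotient.out (QuotientGroup.mk ⟨s, hs⟩ : ι) : S) : G) *
        (((Quotient.out (QuotientGroup.mk ⟨s, hs⟩ : ι) : S)⁻¹ * ⟨s, hs⟩ : S) : G) =
        (m (QuotientGroup.mk ⟨s, hs⟩))⁻¹ * s := by
      show (m (QuotientGroup.mk ⟨s, hs⟩))⁻¹ *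
        ((Quotient.out (QuotientGroup.mk ⟨s, hs⟩ : ι) : S) : G) *
        (((Quotient.out (QuotientGroup.mk ⟨s, hs⟩ : ι) : S) : G)⁻¹ * s) =
        (m (QuotientGroup.mk ⟨s, hs⟩))⁻¹ * s
      group
    rwa [e] at h2
  have hcov' : ∀ s ∈ S, ∃ i, (m' i)⁻¹ * s ∈ TT L := by
    intro s hs
    obtain ⟨i, hi⟩ := hcov s hs
    refine ⟨i, ?_⟩
    have e : (m' i)⁻¹ * s = ((m i)⁻¹ * m' i)⁻¹ * ((m i)⁻¹ * s) := by group
    rw [e]
    exact Subgroup.mul_mem _ (Subgroup.inv_mem _ (hNT (hmm i))) hi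
  have hr : ∀ i j, i ≠ j → (m i)⁻¹ * m j ∉ Subgroup.normalizer (L : Set G) := by
    intro i j hij hc
    apply hij
    rw [← Quotient.out_eq i, ← Quotient.out_eq j]
    apply QuotientGroup.eq.2
    rw [Subgroup.mem_subgroupOf]
    have h1 := Subgroup.mul_mem _ (Subgroup.mul_mem _ (Subgroup.inv_mem _ (hms i)) hc) (hms j)
    have e : ((m i)⁻¹ * ((Quotient.out i : S) : G))⁻¹ * ((m i)⁻¹ * m j) *
        ((m j)⁻¹ * ((Quotient.out j : S) : G)) =
        (((Quotient.out i : S)⁻¹ * (Quotient.out j : S) : S) : G) := by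
      show _ = ((Quotient.out i : S) : G)⁻¹ * ((Quotient.out j : S) : G)
      group
    rw [e] at h1
    exact h1
  have hl : ∀ i, ∃ l ∈ L, pa L l = ((B19_th hMf ⟨(m i)⁻¹ * m' i, hmm i⟩ *
      (b i)⁻¹ ((w i)⁻¹) : LA L) : AA L) := by
    intro i
    exact (pa_basic L).2.2.2.2.2.2.1 _ (Subtype.property _)
  choose l hlL hlpa using hl
  obtain ⟨x, hxN, hx, -⟩ := comp_exists hMf m hr l hlL
  have hX : ∀ i, B19_th hMf (B19_c N (m i) ⟨x, hxN⟩) =
      B19_th hMf ⟨(m i)⁻¹ * m' i, hmm i⟩ * (b i)⁻¹ ((w i)⁻¹) := by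
    intro i
    apply Subtype.ext
    rw [← hlpa i, B19_th_val]
    have hlT : l i ∈ TT L := Subgroup.le_normalizer (hlL i)
    have hcT := Subgroup.centralizer_le_normalizer (L : Set G) (hx i)
    have h1 := (M07_cent L _ hcT).2 (hx i)
    have e : ((B19_c N (m i) ⟨x, hxN⟩ : N) : G) = l i * ((l i)⁻¹ * ((m i)⁻¹ * x * m i)) := by
      show (m i)⁻¹ * x * m i = l i * ((l i)⁻¹ * ((m i)⁻¹ * x * m i))
      group
    rw [e, M07_mul L _ hlT _ hcT, h1, mul_one]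
  have hx1 : B19_th hMf ⟨x, hxN⟩ = 1 := by
    let i₀ : ι := QuotientGroup.mk 1
    have h1 : (QuotientGroup.mk (Quotient.out i₀ : S) : ι) = QuotientGroup.mk 1 := Quotient.out_eq _
    have h2 : ((Quotient.out i₀ : S) : G) ∈ TT L := by
      have h3 := h1.symm
      rw [QuotientGroup.eq, Subgroup.mem_subgroupOf, inv_one, one_mul] at h3
      exact h3
    obtain ⟨h3, h4, h5⟩ := hT i₀ h2
    have h6 := hX i₀
    have e1 : B19_c N (m i₀) ⟨x, hxN⟩ = ⟨x, hxN⟩ := by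
      apply Subtype.ext
      show (m i₀)⁻¹ * x * m i₀ = x
      rw [h3]; group
    have e2 : (⟨(m i₀)⁻¹ * m' i₀, hmm i₀⟩ : N) = 1 := by
      apply Subtype.ext
      show (m i₀)⁻¹ * m' i₀ = 1
      rw [h3, h4]; group
    rw [e1, e2, h5, map_one, inv_one, map_one, mul_one] at h6
    exact h6
  refine ⟨x, hxN, ?_⟩
  have hFN : ∀ X : Subgroup G, FF L N S X ≤ N := by
    intro X
    unfold FF
    exact sup_le inf_le_right inf_le_left
  have main : ∀ z : N, (z : G) ∈ cj x (FF L N S M) ↔ (z : G) ∈ FF L N S M' := by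
    intro z
    rw [mem_cj]
    have e0 : x⁻¹ * (z : G) * x = ((B19_c N x z : N) : G) := rfl
    rw [e0, B19_CH hMf hD S m b hm hb hcov (B19_c N x z), B19_CH hMf hD' S m' b' hm' hb' hcov' z]
    have e1 : B19_th hMf (B19_c N x z) = B19_th hMf z := by
      have e2 : B19_c N x z = (⟨x, hxN⟩ : N)⁻¹ * z * ⟨x, hxN⟩ := rfl
      rw [e2, map_mul, map_mul, map_inv, hx1, inv_one, one_mul, mul_one]
    rw [e1]
    apply forall_congr'
    intro i
    have e3 : B19_c N (m i) (B19_c N x z) = (B19_c N (m i) ⟨x, hxN⟩)⁻¹ * (B19_c N (m i) z) *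
        (B19_c N (m i) ⟨x, hxN⟩) := by
      rw [← map_inv, ← map_mul, ← map_mul]
      rfl
    have e4 : B19_c N (m' i) z = (⟨(m i)⁻¹ * m' i, hmm i⟩ : N)⁻¹ * (B19_c N (m i) z) *
        ⟨(m i)⁻¹ * m' i, hmm i⟩ := by
      apply Subtype.ext
      show (m' i)⁻¹ * (z : G) * m' i = ((m i)⁻¹ * m' i)⁻¹ * ((m i)⁻¹ * (z : G) * m i) *
        ((m i)⁻¹ * m' i)
      group
    have e3' := congrArg (B19_th hMf) e3
    rw [map_mul, map_mul, map_inv, hX i] at e3'
    have e4' := congrArg (B19_th hMf) e4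
    rw [map_mul, map_mul, map_inv] at e4'
    rw [e3', e4', hbw i]
    have e5 : (b i) ((B19_th hMf ⟨(m i)⁻¹ * m' i, hmm i⟩ * (b i)⁻¹ ((w i)⁻¹))⁻¹ *
        B19_th hMf (B19_c N (m i) z) *
        (B19_th hMf ⟨(m i)⁻¹ * m' i, hmm i⟩ * (b i)⁻¹ ((w i)⁻¹))) =
        (MulAut.conj (w i) * b i) ((B19_th hMf ⟨(m i)⁻¹ * m' i, hmm i⟩)⁻¹ *
          B19_th hMf (B19_c N (m i) z) * B19_th hMf ⟨(m i)⁻¹ * m' i, hmm i⟩) := by
      rw [MulAut.mul_apply, MulAut.conj_apply]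
      simp only [map_mul, map_inv, MulAut.apply_inv_self, mul_inv_rev, inv_inv]
      group
    rw [e5]
  ext z
  constructor
  · intro hz
    have hzN : z ∈ N := by
      rw [mem_cj] at hz
      have h1 := hFN M hz
      have h2 := Subgroup.Normal.conj_mem inferInstance _ h1 x
      have e : x * (x⁻¹ * z * x) * x⁻¹ = z := by group
      rwa [e] at h2
    exact (main ⟨z, hzN⟩).1 hz
  · intro hz
    exact (main ⟨z, hFN M' hz⟩).2 hz

end MX
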