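import Pool.Agent.helper81.MX.Defs5
import Pool.Agent.helper81.MX.M02
import Pool.Agent.helper81.MX.M07
import Pool.Agent.helper81.MX.B11
import Pool.Agent.helper81.MX.B13
import Pool.Agent.helper81.MX.B18

/-! Row B20: the induced outer automorphisms agree everywhere if they agree at one element outside the normalizer. -/

set_option autoImplicit false

namespace MX
open scoped MatrixGroups

section B20

variable {G : Type*} [Group G]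

theorem B20_LA {L N : Subgroup G} (hMf : Mfac L N) (y : G) (hy : y ∈ N) : pa L y ∈ LA L := by
  obtain ⟨-, hNT, -, hNL, -⟩ := Mfac_basic hMf
  obtain ⟨-, -, -, -, -, -, -, -, pLA, -⟩ := pa_basic L
  rw [pLA y (hNT hy)]
  obtain ⟨l, hl, hc⟩ := hNL y hy
  have h1 : y = l * (l⁻¹ * y) := by group
  rw [h1]
  exact Subgroup.mul_mem_sup hl hc

theorem B20_onto [Finite G] {L N M : Subgroup G} [N.Normal] (hMf : Mfac L N) (hD : DT L N M)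
    (a : AA L) (ha : a ∈ LA L) : ∃ y ∈ M ⊓ N, pa L y = a := by
  obtain ⟨-, hNT, -, -, -⟩ := Mfac_basic hMf
  obtain ⟨pmul, -, -, pone, -, -, pLs, -, -, -⟩ := pa_basic L
  obtain ⟨l, hl, rfl⟩ := pLs a ha
  obtain ⟨y, hy, hc⟩ := Y_onto hMf hD 1 l hl
  have h1 : l⁻¹ * y ∈ CC L := by
    have h2 : l⁻¹ * (1⁻¹ * y * 1) = l⁻¹ * y := by group
    rwa [h2] at hc
  refine ⟨y, hy, ?_⟩
  have h3 : y = l * (l⁻¹ * y) := by group
  have hlT : l ∈ TT L := Subgroup.le_normalizer hl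
  have hcT : l⁻¹ * y ∈ TT L := (TT L).mul_mem ((TT L).inv_mem hlT) (hNT hy.2)
  rw [h3, pmul l hlT _ hcT, (pone _ hcT).2 h1, mul_one]

theorem B20_conj {M N : Subgroup G} (hN : N.Normal) {m y : G} (hm : m ∈ M) (hy : y ∈ M ⊓ N) :
    m * y * m⁻¹ ∈ M ⊓ N :=
  ⟨M.mul_mem (M.mul_mem hm hy.1) (M.inv_mem hm), hN.conj_mem y hy.2 m⟩

/-- uniqueness -/
theorem B20_uniq [Finite G] {L N M : Subgroup G} [N.Normal] (hMf : Mfac L N) (hD : DT L N M)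
    {m : G} (hm : m ∈ M) {b b₂ : MulAut (LA L)} (h : Sg L N M m b) (h₂ : Sg L N M m b₂) :
    b = b₂ := by
  ext1 ⟨a, ha⟩
  obtain ⟨y, hy, rfl⟩ := B20_onto hMf hD a ha
  have h1 := B20_LA hMf (m * y * m⁻¹) (B20_conj inferInstance hm hy).2
  rw [h y hy ha h1, h₂ y hy ha h1]

theorem B20_mul {L N M : Subgroup G} [N.Normal] (hMf : Mfac L N)
    {m₁ m₂ : G} (hm₂ : m₂ ∈ M) {b₁ b₂ : MulAut (LA L)} (h₁ : Sg L N M m₁ b₁)
    (h₂ : Sg L N M m₂ b₂) : Sg L N M (m₁ * m₂) (b₁ * b₂) := by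
  intro y hy k1 k2
  have hy2 := B20_conj (N := N) inferInstance hm₂ hy
  have h3 := B20_LA hMf _ hy2.2
  have e : m₁ * (m₂ * y * m₂⁻¹) * m₁⁻¹ = m₁ * m₂ * y * (m₁ * m₂)⁻¹ := by group
  rw [MulAut.mul_apply, h₂ y hy k1 h3]
  have h4 := h₁ _ hy2 h3 (by rw [e]; exact k2)
  rw [h4]
  exact Subtype.ext (congrArg (pa L) e)

theorem B20_inv {L N M : Subgroup G} [N.Normal]
    {m : G} (hm : m ∈ M) {b : MulAut (LA L)} (h : Sg L N M m⁻¹ b) : Sg L N M m b⁻¹ := by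
  intro y hy k1 k2
  change b.symm _ = _
  rw [MulEquiv.symm_apply_eq]
  have hy2 := B20_conj (N := N) inferInstance hm hy
  have e : m⁻¹ * (m * y * m⁻¹) * m⁻¹⁻¹ = y := by group
  have h4 := h _ hy2 k2 (by rw [e]; exact k1)
  rw [h4]
  exact Subtype.ext (congrArg (pa L) e.symm)

theorem B20_TT [Finite G] {L N M : Subgroup G} [N.Normal] (hMf : Mfac L N) (hD : DT L N M)
    {m : G} (hm : m ∈ M) (hT : m ∈ TT L) {b : MulAut (LA L)} (h : Sg L N M m b) :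
    ∀ a (ha : a ∈ LA L), ((b ⟨a, ha⟩ : LA L) : AA L) = pa L m * a * (pa L m)⁻¹ := by
  intro a ha
  obtain ⟨-, hNT, -, -, -⟩ := Mfac_basic hMf
  obtain ⟨pmul, -, pinv, -⟩ := pa_basic L
  obtain ⟨y, hy, rfl⟩ := B20_onto hMf hD a ha
  have h1 := B20_LA hMf (m * y * m⁻¹) (B20_conj inferInstance hm hy).2
  rw [h y hy ha h1]
  change pa L (m * y * m⁻¹) = _
  rw [pmul _ ((TT L).mul_mem hT (hNT hy.2)) _ ((TT L).inv_mem hT), pmul _ hT _ (hNT hy.2),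
    pinv _ hT]

/-- the relation -/
def B20_R (L N M M' S : Subgroup G) (m : G) : Prop :=
  ∀ m' ∈ M' ⊓ S, m⁻¹ * m' ∈ N → ∀ b b' : MulAut (LA L), Sg L N M m b →
    Sg L N M' m' b' → ∃ x : LA L, b' = MulAut.conj x * b

end B20

/-- B20 -/
theorem Sg_all {G : Type*} [Group G] [Finite G] {L N M M' : Subgroup G} [N.Normal]
    (hMf : Mfac L N) (hN : MinN N) (hD : DT L N M) (hD' : DT L N M') (S : Subgroup G)
    (hS : keyS L N M = S) (hS' : keyS L N M' = S) (hcov : TT L ⋖ S)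
    (m₀ m₀' : G) (hm₀ : m₀ ∈ M ⊓ S) (hm₀' : m₀' ∈ M' ⊓ S) (hn₀ : m₀⁻¹ * m₀' ∈ N) (hT : m₀ ∉ TT L)
    (b₀ b₀' : MulAut (LA L)) (hb₀ : Sg L N M m₀ b₀) (hb₀' : Sg L N M' m₀' b₀')
    (hx : ∃ x : LA L, b₀' = MulAut.conj x * b₀) :
    ∀ m ∈ M ⊓ S, ∀ m' ∈ M' ⊓ S, m⁻¹ * m' ∈ N → ∀ b b' : MulAut (LA L), Sg L N M m b →
      Sg L N M' m' b' → ∃ x : LA L, b' = MulAut.conj x * b := by
  have hNn : N.Normal := inferInstance
  obtain ⟨-, hNT, -, -, -⟩ := Mfac_basic hMf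
  have hNT : N ≤ TT L := hNT
  have hTS : TT L ≤ S := hcov.le
  have hNS : N ≤ S := hNT.trans hTS
  obtain ⟨pmul, -, pinv, -⟩ := pa_basic L
  have hsup : ∀ {K : Subgroup G}, DT L N K → ∀ g ∈ S, ∃ k ∈ K ⊓ S, g⁻¹ * k ∈ N := by
    intro K hK g hg
    have htop : K ⊔ N = ⊤ := by
      apply hK.max.2
      refine lt_of_le_of_ne le_sup_left ?_
      intro he
      exact hK.notle (he ▸ le_sup_right)
    have h1 : g ∈ K ⊔ N := by rw [htop]; exact Subgroup.mem_top g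
    obtain ⟨k, hk, n, hn, rfl⟩ := Subgroup.mem_sup_of_normal_right.1 h1
    refine ⟨k, ⟨hk, ?_⟩, ?_⟩
    · have e : k = (k * n) * n⁻¹ := by group
      rw [e]
      exact S.mul_mem hg (S.inv_mem (hNS hn))
    · have e : (k * n)⁻¹ * k = n⁻¹ := by group
      rw [e]
      exact N.inv_mem hn
  have hex : ∀ m ∈ M ⊓ S, ∃ b, Sg L N M m b := fun m hm =>
    Sg_exists hMf hD m hm.1 (by rw [hS]; exact hm.2)
  have hex' : ∀ m ∈ M' ⊓ S, ∃ b, Sg L N M' m b := fun m hm =>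
    Sg_exists hMf hD' m hm.1 (by rw [hS']; exact hm.2)
  -- the subgroup
  have hmul : ∀ m₁ ∈ M ⊓ S, ∀ m₂ ∈ M ⊓ S, B20_R L N M M' S m₁ → B20_R L N M M' S m₂ →
      B20_R L N M M' S (m₁ * m₂) := by
    intro m₁ hm₁ m₂ hm₂ h₁ h₂ m' hm' hmm b b' hb hb'
    obtain ⟨k₁, hk₁, hkn₁⟩ := hsup hD' m₁ hm₁.2
    have hk₂ : k₁⁻¹ * m' ∈ M' ⊓ S := (M' ⊓ S).mul_mem ((M' ⊓ S).inv_mem hk₁) hm'
    have hkn₂ : m₂⁻¹ * (k₁⁻¹ * m') ∈ N := by
      have e : m₂⁻¹ * (k₁⁻¹ * m') = (m₂⁻¹ * (m₁⁻¹ * k₁)⁻¹ * m₂⁻¹⁻¹) * ((m₁ * m₂)⁻¹ * m') := by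
        group
      rw [e]
      exact N.mul_mem (hNn.conj_mem _ (N.inv_mem hkn₁) _) hmm
    obtain ⟨b₁, hb₁⟩ := hex m₁ hm₁
    obtain ⟨b₂, hb₂⟩ := hex m₂ hm₂
    obtain ⟨c₁, hc₁⟩ := hex' k₁ hk₁
    obtain ⟨c₂, hc₂⟩ := hex' _ hk₂
    have e1 : b = b₁ * b₂ :=
      B20_uniq hMf hD (M.mul_mem hm₁.1 hm₂.1) hb (B20_mul hMf hm₂.1 hb₁ hb₂)
    have e2 : b' = c₁ * c₂ := by
      have h3 := B20_mul hMf hk₂.1 hc₁ hc₂
      rw [mul_inv_cancel_left] at h3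
      exact B20_uniq hMf hD' hm'.1 hb' h3
    obtain ⟨x₁, hx₁⟩ := h₁ k₁ hk₁ hkn₁ b₁ c₁ hb₁ hc₁
    obtain ⟨x₂, hx₂⟩ := h₂ _ hk₂ hkn₂ b₂ c₂ hb₂ hc₂
    refine ⟨x₁ * b₁ x₂, ?_⟩
    rw [e1, e2, hx₁, hx₂]
    ext1 z
    simp only [MulAut.mul_apply, MulAut.conj_apply, map_mul, map_inv, mul_inv_rev, mul_assoc]
  have hinv : ∀ m ∈ M ⊓ S, B20_R L N M M' S m → B20_R L N M M' S m⁻¹ := by
    intro m hm h m' hm' hmm b b' hb hb'
    have h1 : m⁻¹ * m'⁻¹ ∈ N := by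
      have e : m⁻¹ * m'⁻¹ = m⁻¹ * (m⁻¹⁻¹ * m')⁻¹ * m⁻¹⁻¹ := by group
      rw [e]
      exact hNn.conj_mem _ (N.inv_mem hmm) _
    have hb2 : Sg L N M m b⁻¹ := B20_inv hm.1 hb
    have hb2' : Sg L N M' m'⁻¹ b'⁻¹ := B20_inv (M'.inv_mem hm'.1) (by rw [inv_inv]; exact hb')
    obtain ⟨x, hx⟩ := h _ ((M' ⊓ S).inv_mem hm') h1 _ _ hb2 hb2'
    refine ⟨b x⁻¹, ?_⟩
    have h3 : b' = (MulAut.conj x * b⁻¹)⁻¹ := by rw [← hx, inv_inv]
    rw [h3]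
    ext1 z
    change (MulAut.conj x * b⁻¹).symm _ = _
    rw [MulEquiv.symm_apply_eq]
    simp only [MulAut.mul_apply, MulAut.conj_apply, MulAut.conj_inv_apply, map_mul, map_inv,
      MulAut.inv_apply_self]
    group
  have hone : B20_R L N M M' S 1 := by
    intro m' hm' hmm b b' hb hb'
    rw [inv_one, one_mul] at hmm
    have h1T : (1 : G) ∈ TT L := (TT L).one_mem
    have hmT : m' ∈ TT L := hNT hmm
    refine ⟨⟨pa L m', B20_LA hMf _ hmm⟩, ?_⟩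
    ext1 ⟨a, ha⟩
    apply Subtype.ext
    rw [B20_TT hMf hD' hm'.1 hmT hb' a ha, MulAut.mul_apply, MulAut.conj_apply]
    have h4 := B20_TT hMf hD M.one_mem h1T hb a ha
    rw [(pa_basic L).2.1, inv_one, one_mul, mul_one] at h4
    simp only [Subgroup.coe_mul, Subgroup.coe_inv, h4]
  have hTT : ∀ m ∈ M ⊓ S, m ∈ TT L → B20_R L N M M' S m := by
    intro m hm hmT m' hm' hmm b b' hb hb'
    have hm'T : m' ∈ TT L := by
      have e : m' = m * (m⁻¹ * m') := by group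
      rw [e]
      exact (TT L).mul_mem hmT (hNT hmm)
    have hnn : m' * m⁻¹ ∈ N := by
      have e : m' * m⁻¹ = m * (m⁻¹ * m') * m⁻¹ := by group
      rw [e]
      exact hNn.conj_mem _ hmm _
    refine ⟨⟨pa L (m' * m⁻¹), B20_LA hMf _ hnn⟩, ?_⟩
    ext1 ⟨a, ha⟩
    apply Subtype.ext
    rw [B20_TT hMf hD' hm'.1 hm'T hb' a ha, MulAut.mul_apply, MulAut.conj_apply]
    have h4 := B20_TT hMf hD hm.1 hmT hb a ha
    simp only [Subgroup.coe_mul, Subgroup.coe_inv, h4]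
    rw [pmul _ hm'T _ ((TT L).inv_mem hmT), pinv _ hmT]
    group
  let P : Subgroup G :=
    { carrier := {m | m ∈ M ⊓ S ∧ B20_R L N M M' S m}
      mul_mem' := fun {x y} hx hy => ⟨(M ⊓ S).mul_mem hx.1 hy.1, hmul x hx.1 y hy.1 hx.2 hy.2⟩
      one_mem' := ⟨(M ⊓ S).one_mem, hone⟩
      inv_mem' := fun {x} hx => ⟨(M ⊓ S).inv_mem hx.1, hinv x hx.1 hx.2⟩ }
  have hm₀P : m₀ ∈ P := by
    refine ⟨hm₀, ?_⟩
    intro m' hm' hmm b b' hb hb'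
    obtain ⟨x, hx⟩ := hx
    -- `m' = m₀' n` with `n ∈ M' ⊓ N`
    have hn : m₀'⁻¹ * m' ∈ M' ⊓ S := (M' ⊓ S).mul_mem ((M' ⊓ S).inv_mem hm₀') hm'
    have hnN : m₀'⁻¹ * m' ∈ N := by
      have e : m₀'⁻¹ * m' = (m₀⁻¹ * m₀')⁻¹ * (m₀⁻¹ * m') := by group
      rw [e]
      exact N.mul_mem (N.inv_mem hn₀) hmm
    obtain ⟨c, hc⟩ := hex' _ hn
    have e2 : b' = b₀' * c := by
      have h3 := B20_mul hMf hn.1 hb₀' hc
      rw [mul_inv_cancel_left] at h3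
      exact B20_uniq hMf hD' hm'.1 hb' h3
    have hcc : c = MulAut.conj (⟨pa L (m₀'⁻¹ * m'), B20_LA hMf _ hnN⟩ : LA L) := by
      ext1 ⟨a, ha⟩
      apply Subtype.ext
      rw [B20_TT hMf hD' hn.1 (hNT hnN) hc a ha, MulAut.conj_apply]
      rfl
    have e1 : b = b₀ := B20_uniq hMf hD hm₀.1 hb hb₀
    refine ⟨x * b₀ ⟨pa L (m₀'⁻¹ * m'), B20_LA hMf _ hnN⟩, ?_⟩
    rw [e1, e2, hx, hcc]
    ext1 z
    simp only [MulAut.mul_apply, MulAut.conj_apply, map_mul, map_inv, mul_inv_rev, mul_assoc]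
  have hPN : N ⊔ P = S := by
    have h1 : TT L ≤ N ⊔ P := by
      intro t ht
      obtain ⟨k, hk, hkn⟩ := hsup hD t (hTS ht)
      have hkT : k ∈ TT L := by
        have e : k = t * (t⁻¹ * k) := by group
        rw [e]
        exact (TT L).mul_mem ht (hNT hkn)
      have hkP : k ∈ P := ⟨hk, hTT k hk hkT⟩
      have e : t = (t * (t⁻¹ * k)⁻¹ * t⁻¹) * k := by group
      rw [e]
      exact Subgroup.mul_mem_sup (hNn.conj_mem _ (N.inv_mem hkn) _) hkP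
    have h2 : N ⊔ P ≤ S := sup_le hNS (fun x hx => hx.1.2)
    rcases hcov.eq_or_eq h1 h2 with h3 | h3
    · exfalso
      apply hT
      rw [← h3]
      exact (le_sup_right : P ≤ N ⊔ P) hm₀P
    · exact h3
  intro m hm
  have hmP : m ∈ P := by
    have h1 : m ∈ N ⊔ P := by rw [hPN]; exact hm.2
    obtain ⟨n, hn, q, hq, hnq⟩ := Subgroup.mem_sup_of_normal_left.1 h1
    have hnM : n ∈ M ⊓ S := by
      have e : n = m * q⁻¹ := by rw [← hnq]; group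
      rw [e]
      exact (M ⊓ S).mul_mem hm ((M ⊓ S).inv_mem hq.1)
    have hnP : n ∈ P := ⟨hnM, hTT n hnM (hNT hn)⟩
    rw [← hnq]
    exact P.mul_mem hnP hq
  exact hmP.2

end MX
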