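import Pool.Agent.helper81.MX.Defs5
import Pool.Agent.helper81.MX.M02
import Pool.Agent.helper81.MX.M07

set_option autoImplicit false

namespace MX
open scoped MatrixGroups

section B03

variable {G : Type*} [Group G]

theorem B03_normal {L N : Subgroup G} (hMf : Mfac L N) : N.Normal := by
  refine ⟨?_⟩
  intro n hn g
  have h1 : cj g N ≤ N := by
    rw [cj, Subgroup.map_le_iff_le_comap]
    conv_lhs => rw [hMf.sup]
    refine iSup_le ?_
    intro h x hx
    rw [mem_cj] at hx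
    rw [Subgroup.mem_comap]
    change g * x * g⁻¹ ∈ N
    have h2 : g * x * g⁻¹ ∈ cj (g * h) L := by
      rw [mem_cj]
      have e : (g * h)⁻¹ * (g * x * g⁻¹) * (g * h) = h⁻¹ * x * h := by group
      rw [e]; exact hx
    rw [hMf.sup]
    exact (le_iSup (fun g : G => cj g L) (g * h)) h2
  apply h1
  rw [mem_cj]
  have e : g⁻¹ * (g * n * g⁻¹) * g = n := by group
  rw [e]; exact hn

theorem B03_prod {N M : Subgroup G} (hN : N.Normal) (hM : IsCoatom M) (hNM : ¬ N ≤ M) (g : G) :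
    ∃ m ∈ M, ∃ n ∈ N, g = m * n := by
  have h1 : M ⊔ N = ⊤ := by
    rcases hM.le_iff.1 (le_sup_left : M ≤ M ⊔ N) with h | h
    · exact h
    · exact absurd (by rw [← h]; exact le_sup_right) hNM
  have h2 : g ∈ M ⊔ N := by rw [h1]; exact Subgroup.mem_top _
  rw [Subgroup.mem_sup_of_normal_right] at h2
  obtain ⟨m, hm, n, hn, h⟩ := h2
  exact ⟨m, hm, n, hn, h.symm⟩

/-- B03 -/
theorem imA_coatom {G : Type*} [Group G] [Finite G] {L N : Subgroup G} (hMf : Mfac L N)
    (M : Subgroup G) (hM : IsCoatom M) (hN : ¬ N ≤ M) (hne : imA L M ≠ ⊤) :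
    IsCoatom (imA L M) ∧ ¬ LA L ≤ imA L M := by
  obtain ⟨hLN, hNT, hLC, hdec, hout⟩ := Mfac_basic hMf
  obtain ⟨pmul, pone, pinv, pker, psurj, pL, pLA, pact, pmem, pim⟩ := pa_basic L
  have hNn := B03_normal hMf
  have hprod := B03_prod hNn hM hN
  have hCT : CC L ≤ TT L := Subgroup.centralizer_le_normalizer _
  have hLT : L ≤ TT L := le_trans hLN hNT
  -- an element of `N` acts as an element of `L`
  have hNL : ∀ n ∈ N, ∃ l ∈ L, pa L n = pa L l := by
    intro n hn
    obtain ⟨l, hl, hc⟩ := hdec n hn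
    refine ⟨l, hl, ?_⟩
    have h1 := pmul l (hLT hl) _ (hCT hc)
    rw [(pker _ (hCT hc)).2 hc, mul_one] at h1
    rw [← h1]
    congr 1
    group
  refine ⟨⟨hne, ?_⟩, ?_⟩
  · intro Y hY
    by_contra hYtop
    obtain ⟨hle, hnle⟩ := lt_iff_le_not_ge.1 hY
    have hex : ∃ t ∈ TT L, pa L t ∉ Y := by
      by_contra hcon
      push Not at hcon
      apply hYtop
      rw [eq_top_iff]
      intro a _
      obtain ⟨g, hg, rfl⟩ := psurj a
      exact hcon g hg
    obtain ⟨t0, ht0, ht0Y⟩ := hex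
    have hMY : ∀ m ∈ M, m ∈ TT L → pa L m ∈ Y := by
      intro m hm hmT
      exact hle ((pim M _).2 ⟨m, hm, hmT, rfl⟩)
    let M2 : Subgroup G :=
      { carrier := {g | ∀ m ∈ M, ∀ m' ∈ M, m⁻¹ * g * m' ∈ TT L → pa L (m⁻¹ * g * m') ∈ Y}
        mul_mem' := by
          intro g h hg hh m hm m' hm' hT
          obtain ⟨m'', hm'', n, hn, hd⟩ := hprod (h * m')
          have h1 : m''⁻¹ * h * m' ∈ TT L := by
            have e : m''⁻¹ * h * m' = n := by rw [mul_assoc, hd]; group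
            rw [e]; exact hNT hn
          have h2 : m⁻¹ * g * m'' ∈ TT L := by
            have e : m⁻¹ * g * m'' = (m⁻¹ * (g * h) * m') * (m''⁻¹ * h * m')⁻¹ := by group
            rw [e]; exact (TT L).mul_mem hT ((TT L).inv_mem h1)
          have e : m⁻¹ * (g * h) * m' = (m⁻¹ * g * m'') * (m''⁻¹ * h * m') := by group
          rw [e, pmul _ h2 _ h1]
          exact Y.mul_mem (hg m hm m'' hm'' h2) (hh m'' hm'' m' hm' h1)
        one_mem' := by
          intro m hm m' hm' hT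
          have e : m⁻¹ * 1 * m' = m⁻¹ * m' := by group
          rw [e] at hT ⊢
          exact hMY _ (M.mul_mem (M.inv_mem hm) hm') hT
        inv_mem' := by
          intro g hg m hm m' hm' hT
          have e : m⁻¹ * g⁻¹ * m' = (m'⁻¹ * g * m)⁻¹ := by group
          rw [e] at hT ⊢
          have h1 := (TT L).inv_mem hT
          rw [inv_inv] at h1
          rw [pinv _ h1]
          exact Y.inv_mem (hg m' hm' m hm h1) }
    have hM2 : ∀ g : G, g ∈ M2 ↔
      ∀ m ∈ M, ∀ m' ∈ M, m⁻¹ * g * m' ∈ TT L → pa L (m⁻¹ * g * m') ∈ Y := fun g => Iff.rfl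
    have hMM2 : M ≤ M2 := by
      intro g hg
      rw [hM2]
      intro m hm m' hm' hT
      exact hMY _ (M.mul_mem (M.mul_mem (M.inv_mem hm) hg) hm') hT
    have hM2top : M2 ≠ ⊤ := by
      intro h
      apply ht0Y
      have h1 : t0 ∈ M2 := by rw [h]; exact Subgroup.mem_top _
      have h2 := (hM2 t0).1 h1 1 M.one_mem 1 M.one_mem (by simpa using ht0)
      simpa using h2
    have hM2M : M2 = M := by
      rcases hM.le_iff.1 hMM2 with h | h
      · exact absurd h hM2top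
      · exact h
    apply hnle
    intro y hy
    obtain ⟨t, ht, rfl⟩ := psurj y
    obtain ⟨m, hm, n, hn, rfl⟩ := hprod t
    have hmT : m ∈ TT L := by
      have e : m = (m * n) * n⁻¹ := by group
      rw [e]; exact (TT L).mul_mem ht ((TT L).inv_mem (hNT hn))
    obtain ⟨l, hl, hnl⟩ := hNL n hn
    rw [pmul m hmT n (hNT hn)] at hy ⊢
    have hpm : pa L m ∈ imA L M := (pim M _).2 ⟨m, hm, hmT, rfl⟩
    refine (imA L M).mul_mem hpm ?_
    have hlY : pa L l ∈ Y := by
      rw [← hnl]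
      have h1 := Y.mul_mem (Y.inv_mem (hle hpm)) hy
      rwa [inv_mul_cancel_left] at h1
    have hlM2 : l ∈ M2 := by
      rw [hM2]
      intro m1 hm1 m2 hm2 hT
      have e : m1⁻¹ * l * m2 = (m1⁻¹ * m2) * (m2⁻¹ * l * m2) := by group
      by_cases hm2T : m2 ∈ TT L
      · have h1 : m2⁻¹ * l * m2 ∈ TT L :=
          (TT L).mul_mem ((TT L).mul_mem ((TT L).inv_mem hm2T) (hLT hl)) hm2T
        have h2 : m1⁻¹ * m2 ∈ TT L := by
          have e2 : m1⁻¹ * m2 = (m1⁻¹ * l * m2) * (m2⁻¹ * l * m2)⁻¹ := by group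
          rw [e2]; exact (TT L).mul_mem hT ((TT L).inv_mem h1)
        rw [e, pmul _ h2 _ h1]
        refine Y.mul_mem (hMY _ (M.mul_mem (M.inv_mem hm1) hm2) h2) ?_
        rw [pmul _ ((TT L).mul_mem ((TT L).inv_mem hm2T) (hLT hl)) _ hm2T,
          pmul _ ((TT L).inv_mem hm2T) _ (hLT hl), pinv _ hm2T]
        exact Y.mul_mem (Y.mul_mem (Y.inv_mem (hMY m2 hm2 hm2T)) hlY) (hMY m2 hm2 hm2T)
      · have h1 : m2⁻¹ * l * m2 ∈ CC L := by
          have h3 := hout m2⁻¹ (fun h => hm2T (by simpa using (TT L).inv_mem h)) l hl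
          rwa [inv_inv] at h3
        have h2 : m1⁻¹ * m2 ∈ TT L := by
          have e2 : m1⁻¹ * m2 = (m1⁻¹ * l * m2) * (m2⁻¹ * l * m2)⁻¹ := by group
          rw [e2]; exact (TT L).mul_mem hT ((TT L).inv_mem (hCT h1))
        rw [e, pmul _ h2 _ (hCT h1), (pker _ (hCT h1)).2 h1, mul_one]
        exact hMY _ (M.mul_mem (M.inv_mem hm1) hm2) h2
    rw [hnl]
    rw [hM2M] at hlM2
    exact (pim M _).2 ⟨l, hlM2, hLT hl, rfl⟩
  · intro hle
    apply hne
    rw [eq_top_iff]
    intro y _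
    obtain ⟨t, ht, rfl⟩ := psurj y
    obtain ⟨m, hm, n, hn, rfl⟩ := hprod t
    have hmT : m ∈ TT L := by
      have e : m = (m * n) * n⁻¹ := by group
      rw [e]; exact (TT L).mul_mem ht ((TT L).inv_mem (hNT hn))
    obtain ⟨l, hl, hnl⟩ := hNL n hn
    rw [pmul m hmT n (hNT hn), hnl]
    exact (imA L M).mul_mem ((pim M _).2 ⟨m, hm, hmT, rfl⟩) (hle (pL l hl).1)

end B03

end MX
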