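import Pool.Agent.helper81.MX.Defs5
import Pool.Agent.helper81.MX.M02
import Pool.Agent.helper81.MX.M03
import Pool.Agent.helper81.MX.M07
import Pool.Agent.helper81.MX.B01

set_option autoImplicit false

namespace MX
open scoped MatrixGroups

section B04

variable {G : Type*} [Group G]

theorem B04_mem (L M : Subgroup G) (t : G) :
    t ∈ (M ⊓ TT L) ⊔ CC L ↔ t ∈ TT L ∧ pa L t ∈ imA L M := by
  obtain ⟨pmul, pone, pinv, pker, psurj, pL, pLA, pact, pmem, pim⟩ := pa_basic L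
  have hCT : CC L ≤ TT L := Subgroup.centralizer_le_normalizer _
  constructor
  · intro h
    have h1 : (M ⊓ TT L) ⊔ CC L ≤ ((imA L M).comap (L.normalizerMonoidHom.rangeRestrict)).map
        (TT L).subtype := by
      refine sup_le ?_ ?_
      · intro x hx
        refine ⟨⟨x, hx.2⟩, ?_, rfl⟩
        exact ⟨⟨x, hx.2⟩, hx.1, rfl⟩
      · intro x hx
        refine ⟨⟨x, hCT hx⟩, ?_, rfl⟩
        change L.normalizerMonoidHom.rangeRestrict ⟨x, hCT hx⟩ ∈ imA L M
        have h2 : pa L x = L.normalizerMonoidHom.rangeRestrict ⟨x, hCT hx⟩ := by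
          rw [pa]
          exact dif_pos (hCT hx)
        rw [← h2, (pker x (hCT hx)).2 hx]
        exact Subgroup.one_mem _
    obtain ⟨y, hy, rfl⟩ := h1 h
    refine ⟨y.2, ?_⟩
    have h2 : pa L ((TT L).subtype y) = L.normalizerMonoidHom.rangeRestrict y := by
      rw [pa]
      exact dif_pos y.2
    rw [h2]
    exact hy
  · rintro ⟨ht, hp⟩
    obtain ⟨m, hm, hmT, hmt⟩ := (pim M _).1 hp
    have h1 : m⁻¹ * t ∈ CC L := by
      rw [← pker _ ((TT L).mul_mem ((TT L).inv_mem hmT) ht), pmul _ ((TT L).inv_mem hmT) _ ht,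
        pinv _ hmT, hmt, inv_mul_cancel]
    have h2 : t = m * (m⁻¹ * t) := by group
    rw [h2]
    exact Subgroup.mul_mem _ ((le_sup_left : M ⊓ TT L ≤ _) ⟨hm, hmT⟩)
      ((le_sup_right : CC L ≤ (M ⊓ TT L) ⊔ CC L) h1)

theorem B04_cj_mul (g h : G) (H : Subgroup G) : cj g (cj h H) = cj (g * h) H := by
  ext x
  rw [mem_cj, mem_cj, mem_cj]
  have e : (g * h)⁻¹ * x * (g * h) = h⁻¹ * (g⁻¹ * x * g) * h := by group
  rw [e]

/-- B04 -/
theorem case1_conj {G : Type*} [Group G] [Finite G] {L N : Subgroup G} [N.Normal] (hMf : Mfac L N)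
    (M M' : Subgroup G) (hM : IsCoatom M) (hM' : IsCoatom M') (hN : ¬ N ≤ M) (hN' : ¬ N ≤ M')
    (hne : imA L M ≠ ⊤) (hc : SC (imA L M) (imA L M')) : SC M M' := by
  obtain ⟨hLN, hNT, hLC, hdec, hout⟩ := Mfac_basic hMf
  obtain ⟨pmul, pone, pinv, pker, psurj, pL, pLA, pact, pmem, pim⟩ := pa_basic L
  have hCT : CC L ≤ TT L := Subgroup.centralizer_le_normalizer _
  have hLT : L ≤ TT L := le_trans hLN hNT
  obtain ⟨a, ha⟩ := hc
  obtain ⟨t, ht, rfl⟩ := psurj a
  have hCn : ∀ s ∈ TT L, ∀ d ∈ CC L, s * d * s⁻¹ ∈ CC L := by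
    intro s hs d hd
    have h1 : s * d * s⁻¹ ∈ TT L := (TT L).mul_mem ((TT L).mul_mem hs (hCT hd)) ((TT L).inv_mem hs)
    rw [← pker _ h1, pmul _ ((TT L).mul_mem hs (hCT hd)) _ ((TT L).inv_mem hs), pmul _ hs _ (hCT hd),
      pinv _ hs, (pker _ (hCT hd)).2 hd, mul_one, mul_inv_cancel]
  -- the conjugate of `M`
  have hM1 : IsCoatom (cj t M) := by
    have h1 : cj t M = (MulAut.conj t).mapSubgroup M := rfl
    rw [h1, OrderIso.isCoatom_iff]
    exact hM
  have hN1 : ¬ N ≤ cj t M := by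
    intro h
    apply hN
    intro n hn
    have h1 : t * n * t⁻¹ ∈ N := ‹N.Normal›.conj_mem n hn t
    have h2 := h h1
    rw [mem_cj] at h2
    have e : t⁻¹ * (t * n * t⁻¹) * t = n := by group
    rwa [e] at h2
  have him : imA L (cj t M) = imA L M' := by
    rw [← ha]
    ext y
    rw [mem_cj, pim, pim]
    constructor
    · rintro ⟨m, hm, hmT, rfl⟩
      rw [mem_cj] at hm
      have hmT' : t⁻¹ * m * t ∈ TT L := (TT L).mul_mem ((TT L).mul_mem ((TT L).inv_mem ht) hmT) ht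
      refine ⟨t⁻¹ * m * t, hm, hmT', ?_⟩
      rw [pmul _ ((TT L).mul_mem ((TT L).inv_mem ht) hmT) _ ht, pmul _ ((TT L).inv_mem ht) _ hmT,
        pinv _ ht]
    · rintro ⟨m, hm, hmT, h⟩
      have hmT' : t * m * t⁻¹ ∈ TT L := (TT L).mul_mem ((TT L).mul_mem ht hmT) ((TT L).inv_mem ht)
      refine ⟨t * m * t⁻¹, ?_, hmT', ?_⟩
      · rw [mem_cj]
        have e : t⁻¹ * (t * m * t⁻¹) * t = m := by group
        rw [e]; exact hm
      · rw [pmul _ ((TT L).mul_mem ht hmT) _ ((TT L).inv_mem ht), pmul _ ht _ hmT, pinv _ ht, h]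
        group
  have hkey : SC (cj t M) M' := by
    refine GP N (TT L) (CC L) hNT hCT hCn ?_ (cj t M) M' hM1 hM' hN1 hN' ?_ ?_
    · intro r ν hr hν
      have hx : ∀ i, ∃ l ∈ L, l⁻¹ * ν i ∈ CC L := fun i => hdec (ν i) (hν i)
      choose x hxL hxC using hx
      obtain ⟨n, hn, h1, -⟩ := comp_exists hMf r (by
        intro i j hij hm
        apply hij
        rw [← hr i, ← hr j]
        exact QuotientGroup.eq.2 hm) x hxL
      refine ⟨n, hn, ?_⟩
      intro i
      have h2 := (CC L).mul_mem ((CC L).inv_mem (hxC i)) (h1 i)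
      have e2 : ((x i)⁻¹ * ν i)⁻¹ * ((x i)⁻¹ * ((r i)⁻¹ * n * r i)) =
        (ν i)⁻¹ * ((r i)⁻¹ * n * r i) := by group
      rwa [e2] at h2
    · ext y
      rw [B04_mem, B04_mem, him]
    · intro h
      apply hne
      have h1 : imA L M' = ⊤ := by
        rw [eq_top_iff]
        intro y _
        obtain ⟨g, hg, rfl⟩ := psurj y
        have hg' : g ∈ cj t M ⊓ TT L ⊔ CC L := by rw [h]; exact hg
        rw [B04_mem, him] at hg'
        exact hg'.2
      rw [h1] at ha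
      rw [eq_top_iff]
      intro y _
      have h2 : pa L t * y * (pa L t)⁻¹ ∈ cj (pa L t) (imA L M) := by
        rw [ha]; exact Subgroup.mem_top _
      rw [mem_cj] at h2
      have e : (pa L t)⁻¹ * (pa L t * y * (pa L t)⁻¹) * pa L t = y := by group
      rwa [e] at h2
  obtain ⟨g, hg⟩ := hkey
  refine ⟨g * t, ?_⟩
  rw [← hg, B04_cj_mul]

end B04

end MX
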