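import Pool.Agent.helper81.MX.Defs5
import Pool.Agent.helper81.MX.R01
import Pool.Agent.helper81.MX.B03
import Pool.Agent.helper81.MX.B04

set_option autoImplicit false

namespace MX
open scoped MatrixGroups

/-- B05 -/
theorem case1_count {G : Type*} [Group G] [Finite G] {L N : Subgroup G} [N.Normal]
    (hMf : Mfac L N) :
    (mcl G (fun M => ¬ N ≤ M ∧ imA L M ≠ ⊤)).ncard ≤
      (mcl (AA L) (fun X => ¬ LA L ≤ X)).ncard := by
  have hfin : Finite (Set (Subgroup (AA L))) := inferInstance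
  refine mcl_le _ (fun M : Subgroup G => Set.range (fun g : AA L => cj g (imA L M))) _
    (Set.toFinite _) ?_ ?_
  · rintro H hH ⟨hN, hne⟩
    obtain ⟨h1, h2⟩ := imA_coatom hMf H hH hN hne
    exact ⟨imA L H, h1, h2, rfl⟩
  · rintro H K hH ⟨hN, hne⟩ hK ⟨hN', _⟩ heq
    refine case1_conj hMf H K hH hK hN hN' hne ?_
    have h1 : cj (1 : AA L) (imA L K) ∈ Set.range (fun g : AA L => cj g (imA L K)) := ⟨1, rfl⟩
    have heq' : Set.range (fun g : AA L => cj g (imA L H)) =
      Set.range (fun g : AA L => cj g (imA L K)) := heq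
    rw [← heq'] at h1
    obtain ⟨g, hg⟩ := h1
    refine ⟨g, ?_⟩
    have h2 : cj (1 : AA L) (imA L K) = imA L K := by
      ext x
      rw [mem_cj]
      simp
    have h3 : cj g (imA L H) = cj (1 : AA L) (imA L K) := hg
    rw [h3, h2]

end MX
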