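import Pool.Agent.helper81.MX.Defs5
import Pool.Agent.helper81.MX.S02

set_option autoImplicit false

namespace MX
open scoped MatrixGroups

/-- C08 -/
theorem orders_psl {G : Type*} [Group G] [Finite G] (L : Subgroup G)
    (hL : ∃ p : ℕ, p.Prime ∧ 5 ≤ p ∧ Nonempty (L ≃* PSL(2, ZMod p))) :
    (∃ x ∈ L, orderOf x = 2) ∧ ∃ x ∈ L, orderOf x = 3 := by
  obtain ⟨p, hp, h5, ⟨e⟩⟩ := hL
  haveI : Fact p.Prime := ⟨hp⟩
  obtain ⟨-, -, -, -, -, hcard, -, ⟨e2⟩⟩ := PS_basic (p := p) h5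
  have hc : Nat.card L = Nat.card (PS p) := (Nat.card_congr e.toEquiv).trans
    (Nat.card_congr e2.toEquiv).symm
  rw [← hc] at hcard
  have hodd : p % 2 = 1 := by
    rcases hp.eq_two_or_odd with h | h
    · omega
    · exact h
  have h3 : p % 3 ≠ 0 := by
    intro h
    have h' : 3 ∣ p := Nat.dvd_of_mod_eq_zero h
    have := (Nat.prime_dvd_prime_iff_eq Nat.prime_three hp).1 h'
    omega
  have key : ∀ q : ℕ, q.Prime → q ∣ Nat.card L → ∃ x ∈ L, orderOf x = q := by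
    intro q hq hd
    haveI : Fact q.Prime := ⟨hq⟩
    obtain ⟨x, hx⟩ := exists_prime_orderOf_dvd_card' (G := L) q hd
    exact ⟨x, x.2, by rw [Subgroup.orderOf_coe, hx]⟩
  refine ⟨key 2 Nat.prime_two ?_, key 3 Nat.prime_three ?_⟩
  · obtain ⟨k, hk⟩ : ∃ k, p = 2 * k + 1 := ⟨p / 2, by omega⟩
    have h4 : 4 ∣ 2 * Nat.card L := by
      rw [hcard, hk]
      have e1 : (2 * k + 1) * (2 * k + 1 - 1) * (2 * k + 1 + 1) =
          4 * ((2 * k + 1) * k * (k + 1)) := by
        rw [Nat.add_sub_cancel]; ring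
      rw [e1]
      exact Dvd.intro _ rfl
    omega
  · have h3' : 3 ∣ 2 * Nat.card L := by
      rw [hcard]
      rcases (by omega : p % 3 = 1 ∨ p % 3 = 2) with h | h
      · have : 3 ∣ p - 1 := by omega
        exact Dvd.dvd.mul_right (Dvd.dvd.mul_left this _) _
      · have : 3 ∣ p + 1 := by omega
        exact Dvd.dvd.mul_left this _
    omega

end MX
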