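import Pool.Agent.helper81.MX.AU45
import Pool.Agent.helper81.MX.AU3

set_option autoImplicit false

namespace MX
open scoped MatrixGroups

/-- AU5 -/
theorem out_PS {p : ℕ} [Fact p.Prime] (hp : 5 ≤ p) (A : Subgroup (PG p)) (hA : PS p ≤ A)
    (b₁ b₂ b₃ : MulAut ((PS p).subgroupOf A)) :
    (∃ x : (PS p).subgroupOf A, b₂ = MulAut.conj x * b₁) ∨
    (∃ x : (PS p).subgroupOf A, b₃ = MulAut.conj x * b₁) ∨
    (∃ x : (PS p).subgroupOf A, b₃ = MulAut.conj x * b₂) :=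
  out_PS_of hp (aut_PS hp) A hA b₁ b₂ b₃

end MX
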