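import Pool.Agent.helper81.MX.Defs3
import Pool.Agent.helper81.MX.R01
import Pool.Agent.helper81.MX.U02

/-!
Row W05: at most one class of maximal subgroups of type `U`.
-/

set_option autoImplicit false

namespace MX

open scoped MatrixGroups

theorem W05_sc {p : ℕ} (A : Subgroup (PG p)) (X X' : Subgroup A) (k : PG p) (hk : k ∈ A)
    (h : cj k (X.map A.subtype) = X'.map A.subtype) : SC X X' := by
  refine ⟨⟨k, hk⟩, ?_⟩
  have hm : ∀ (Y : Subgroup A) (y : A), (y : PG p) ∈ Y.map A.subtype ↔ y ∈ Y := by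
    intro Y y
    constructor
    · rintro ⟨z, hz, hzy⟩
      have : z = y := Subtype.ext hzy
      rw [← this]
      exact hz
    · intro hy
      exact ⟨y, hy, rfl⟩
  ext x
  rw [mem_cj, ← hm X, ← hm X' x, ← h, mem_cj]
  exact Iff.rfl

theorem W05_norm {p : ℕ} (A U : Subgroup (PG p)) (s : PG p) (hs : s ∈ A) :
    cj s (A ⊓ Subgroup.normalizer (U : Set (PG p))) =
      A ⊓ Subgroup.normalizer ((cj s U : Subgroup (PG p)) : Set (PG p)) := by
  ext x
  rw [mem_cj, Subgroup.mem_inf, Subgroup.mem_inf, Subgroup.mem_normalizer_iff,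
    Subgroup.mem_normalizer_iff]
  have hA : s⁻¹ * x * s ∈ A ↔ x ∈ A := by
    constructor
    · intro h
      have h2 := A.mul_mem (A.mul_mem hs h) (A.inv_mem hs)
      have e : s * (s⁻¹ * x * s) * s⁻¹ = x := by group
      rwa [e] at h2
    · intro h
      exact A.mul_mem (A.mul_mem (A.inv_mem hs) h) hs
  rw [hA]
  apply and_congr_right
  intro _
  constructor
  · intro h y
    rw [mem_cj, mem_cj, h (s⁻¹ * y * s)]
    have e : s⁻¹ * x * s * (s⁻¹ * y * s) * (s⁻¹ * x * s)⁻¹ = s⁻¹ * (x * y * x⁻¹) * s := by group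
    rw [e]
  · intro h y
    have h2 := h (s * y * s⁻¹)
    rw [mem_cj, mem_cj] at h2
    have e1 : s⁻¹ * (s * y * s⁻¹) * s = y := by group
    have e2 : s⁻¹ * (x * (s * y * s⁻¹) * x⁻¹) * s = s⁻¹ * x * s * y * (s⁻¹ * x * s)⁻¹ := by group
    rw [e1, e2] at h2
    exact h2

/-- W05 -/
theorem cntU {p : ℕ} [Fact p.Prime] (hp : 5 ≤ p) (A : Subgroup (PG p)) (hA : PS p ≤ A) :
    (mcl A (TyU A)).ncard ≤ 1 := by
  have : Finite (PG p) := U02_finite p
  have h := mcl_le (G := A) (TyU A) (fun _ => ()) (Set.univ : Set Unit) (Set.toFinite _)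
    (fun _ _ _ => Set.mem_univ _) ?_
  · rw [Set.ncard_univ, Nat.card_unique] at h
    exact h
  · rintro X X' _ ⟨U, hU, hX⟩ _ ⟨U', hU', hX'⟩ _
    obtain ⟨s, hs, hsU⟩ := unip_conj hp U U' hU hU'
    apply W05_sc A X X' s (hA hs)
    rw [hX, hX', W05_norm A U s (hA hs), hsU]

end MX
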