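import Pool.Agent.helper81.MX.T02

set_option autoImplicit false

namespace MX

open scoped MatrixGroups

section T05

variable {p : ℕ} [Fact p.Prime]

theorem T05_univ (hp : 5 ≤ p) (c e b : ZMod p) (hD : e ^ 2 - 4 * c * b ≠ 0) :
    ∃ x y : ZMod p, c * x ^ 2 + e * x * y + b * y ^ 2 = 1 := by
  have hodd : Fintype.card (ZMod p) % 2 = 1 := by
    rw [ZMod.card]
    rcases (Fact.out : p.Prime).eq_two_or_odd with h | h
    · omega
    · exact h
  have h2 : (2 : ZMod p) ≠ 0 := by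
    intro h
    have h3 : ((2 : ℕ) : ZMod p) = 0 := by exact_mod_cast h
    rw [ZMod.natCast_eq_zero_iff] at h3
    have := Nat.le_of_dvd (by norm_num) h3
    omega
  by_cases hc : c = 0
  · have he : e ≠ 0 := by
      intro he
      apply hD
      rw [hc, he]; ring
    refine ⟨(1 - b) / e, 1, ?_⟩
    rw [hc]
    field_simp
    ring
  · obtain ⟨X, Y, hXY⟩ := FiniteField.exists_root_sum_quadratic
      (f := Polynomial.C 1 * Polynomial.X ^ 2 + Polynomial.C 0 * Polynomial.X + Polynomial.C (-(4 * c)))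
      (g := Polynomial.C (-(e ^ 2 - 4 * c * b)) * Polynomial.X ^ 2 + Polynomial.C 0 * Polynomial.X + Polynomial.C 0)
      (Polynomial.degree_quadratic one_ne_zero) (Polynomial.degree_quadratic (neg_ne_zero.2 hD)) hodd
    simp at hXY
    refine ⟨(X - e * Y) / (2 * c), Y, ?_⟩
    field_simp
    linear_combination hXY

/-- a cyclic vector of determinant one -/
theorem T05_cyc (hp : 5 ≤ p) (G : Matrix (Fin 2) (Fin 2) (ZMod p))
    (hG : G.trace ^ 2 - 4 * G.det ≠ 0) :
    ∃ P : SL(2, ZMod p), G * (P : Matrix (Fin 2) (Fin 2) (ZMod p)) =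
      (P : Matrix (Fin 2) (Fin 2) (ZMod p)) * !![0, - G.det; 1, G.trace] := by
  obtain ⟨x, y, hxy⟩ := T05_univ hp (G 1 0) (G 1 1 - G 0 0) (- G 0 1) (by
    intro h
    apply hG
    rw [Matrix.trace_fin_two, Matrix.det_fin_two]
    linear_combination h)
  refine ⟨⟨!![x, G 0 0 * x + G 0 1 * y; y, G 1 0 * x + G 1 1 * y], ?_⟩, ?_⟩
  · rw [Matrix.det_fin_two_of]
    linear_combination hxy
  · have e : G = !![G 0 0, G 0 1; G 1 0, G 1 1] := Matrix.eta_fin_two G
    have h1 : G * !![x, G 0 0 * x + G 0 1 * y; y, G 1 0 * x + G 1 1 * y] =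
      !![x, G 0 0 * x + G 0 1 * y; y, G 1 0 * x + G 1 1 * y] * !![0, - G.det; 1, G.trace] := by
      rw [Matrix.trace_fin_two, Matrix.det_fin_two]
      generalize G 0 0 = a at *
      generalize G 0 1 = b at *
      generalize G 1 0 = c at *
      generalize G 1 1 = d at *
      rw [e, Matrix.mul_fin_two, Matrix.mul_fin_two]
      ext i j
      fin_cases i <;> fin_cases j <;> simp <;> ring
    exact h1

end T05

theorem tor_conj_two {p : ℕ} [Fact p.Prime] (hp : 5 ≤ p) (g h : GL (Fin 2) (ZMod p))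
    (hg : dsc g ≠ 0) (hh : dsc h ≠ 0) (hs : IsSquare (dsc g * dsc h)) :
    ∃ s ∈ PS p, cj s (tor g) = tor h := by
  have h2 : (2 : ZMod p) ≠ 0 := by
    intro h
    have h3 : ((2 : ℕ) : ZMod p) = 0 := by exact_mod_cast h
    rw [ZMod.natCast_eq_zero_iff] at h3
    have := Nat.le_of_dvd (by norm_num) h3
    omega
  obtain ⟨r, hr⟩ := hs
  have hr0 : r ≠ 0 := by
    rintro rfl
    rw [mul_zero] at hr
    rcases mul_eq_zero.1 hr with h | h
    · exact hg h
    · exact hh h
  set α : ZMod p := r / dsc h with hα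
  have hα0 : α ≠ 0 := div_ne_zero hr0 hh
  have hα2 : α ^ 2 * dsc h = dsc g := by
    rw [hα]
    field_simp
    linear_combination -hr
  set G : Matrix (Fin 2) (Fin 2) (ZMod p) := (g : Matrix (Fin 2) (Fin 2) (ZMod p)) with hG
  set H : Matrix (Fin 2) (Fin 2) (ZMod p) := (h : Matrix (Fin 2) (Fin 2) (ZMod p)) with hH
  set β : ZMod p := (G.trace - α * H.trace) / 2 with hβ
  have hβ2 : 2 * β = G.trace - α * H.trace := by
    rw [hβ]; field_simp
  set H' : Matrix (Fin 2) (Fin 2) (ZMod p) := α • H + Matrix.scalar (Fin 2) β with hH'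
  have ht : H'.trace = G.trace := by
    have : H'.trace = α * H.trace + 2 * β := by
      rw [hH', Matrix.trace_add, Matrix.trace_smul, smul_eq_mul, Matrix.scalar_apply,
        Matrix.trace_diagonal, Fin.sum_univ_two]
      ring
    rw [this, hβ2]; ring
  have hd : H'.det = G.det := by
    have e1 : H'.det = α ^ 2 * H.det + α * β * H.trace + β ^ 2 := by
      rw [hH', Matrix.det_fin_two, Matrix.det_fin_two, Matrix.trace_fin_two]
      simp [Matrix.scalar_apply]
      ring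
    have e2 : α ^ 2 * (H.trace ^ 2 - 4 * H.det) = G.trace ^ 2 - 4 * G.det := hα2
    have e3 : (4 : ZMod p) * H'.det = 4 * G.det := by
      rw [e1]
      linear_combination -e2 + (2 * α * H.trace + 2 * β + (G.trace - α * H.trace)) * hβ2
    have h4 : (4 : ZMod p) ≠ 0 := by
      have : (4 : ZMod p) = 2 * 2 := by norm_num
      rw [this]
      exact mul_ne_zero h2 h2
    exact mul_left_cancel₀ h4 e3
  obtain ⟨P, hP⟩ := T05_cyc hp G hg
  obtain ⟨Q, hQ⟩ := T05_cyc hp H' (by rw [ht, hd]; exact hg)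
  rw [ht, hd] at hQ
  set K : SL(2, ZMod p) := Q * P⁻¹ with hK
  refine ⟨sk K, ⟨QuotientGroup.mk K, rfl⟩, ?_⟩
  have e1 := (tor_conj g (Matrix.SpecialLinearGroup.toGL K)).1
  change cj (pk (Matrix.SpecialLinearGroup.toGL K)) (tor g) = tor h
  rw [e1]
  have e2 : (K : Matrix (Fin 2) (Fin 2) (ZMod p)) * G = H' * (K : Matrix (Fin 2) (Fin 2) (ZMod p)) := by
    have e3 : (K : Matrix (Fin 2) (Fin 2) (ZMod p)) * (P : Matrix (Fin 2) (Fin 2) (ZMod p)) =
      (Q : Matrix (Fin 2) (Fin 2) (ZMod p)) := by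
      rw [← Matrix.SpecialLinearGroup.coe_mul, hK, inv_mul_cancel_right]
    have e4 : (P : Matrix (Fin 2) (Fin 2) (ZMod p)) * ((P⁻¹ : SL(2, ZMod p)) : Matrix (Fin 2) (Fin 2) (ZMod p)) = 1 := by
      rw [← Matrix.SpecialLinearGroup.coe_mul, mul_inv_cancel, Matrix.SpecialLinearGroup.coe_one]
    calc (K : Matrix (Fin 2) (Fin 2) (ZMod p)) * G
        = (K : Matrix (Fin 2) (Fin 2) (ZMod p)) * (G * (P : Matrix (Fin 2) (Fin 2) (ZMod p))) *
          ((P⁻¹ : SL(2, ZMod p)) : Matrix (Fin 2) (Fin 2) (ZMod p)) := by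
            rw [← mul_assoc, mul_assoc _ (P : Matrix (Fin 2) (Fin 2) (ZMod p)), e4, mul_one]
      _ = H' * ((K : Matrix (Fin 2) (Fin 2) (ZMod p)) * (P : Matrix (Fin 2) (Fin 2) (ZMod p))) *
          ((P⁻¹ : SL(2, ZMod p)) : Matrix (Fin 2) (Fin 2) (ZMod p)) := by
            rw [hP, ← mul_assoc, e3, ← hQ]
      _ = H' * (K : Matrix (Fin 2) (Fin 2) (ZMod p)) := by
            rw [mul_assoc, mul_assoc (K : Matrix (Fin 2) (Fin 2) (ZMod p)), e4, mul_one]
  have e5 : ((Matrix.SpecialLinearGroup.toGL K * g * (Matrix.SpecialLinearGroup.toGL K)⁻¹ :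
      GL (Fin 2) (ZMod p)) : Matrix (Fin 2) (Fin 2) (ZMod p)) = H' := by
    have e6 : ((Matrix.SpecialLinearGroup.toGL K * g : GL (Fin 2) (ZMod p)) :
      Matrix (Fin 2) (Fin 2) (ZMod p)) =
      H' * ((Matrix.SpecialLinearGroup.toGL K : GL (Fin 2) (ZMod p)) :
      Matrix (Fin 2) (Fin 2) (ZMod p)) := e2
    rw [Units.val_mul, e6, mul_assoc, ← Units.val_mul, mul_inv_cancel, Units.val_one, mul_one]
  unfold tor
  have e7 : Subgroup.centralizer ({Matrix.SpecialLinearGroup.toGL K * g *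
      (Matrix.SpecialLinearGroup.toGL K)⁻¹} : Set (GL (Fin 2) (ZMod p))) =
      Subgroup.centralizer ({h} : Set (GL (Fin 2) (ZMod p))) := by
    ext x
    rw [Subgroup.mem_centralizer_singleton_iff, Subgroup.mem_centralizer_singleton_iff]
    rw [Units.ext_iff, Units.ext_iff, Units.val_mul x h, Units.val_mul h x,
      Units.val_mul x (Matrix.SpecialLinearGroup.toGL K * g * (Matrix.SpecialLinearGroup.toGL K)⁻¹),
      Units.val_mul (Matrix.SpecialLinearGroup.toGL K * g * (Matrix.SpecialLinearGroup.toGL K)⁻¹) x,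
      e5, hH', ← hH]
    have e8 : (x : Matrix (Fin 2) (Fin 2) (ZMod p)) * Matrix.scalar (Fin 2) β =
      Matrix.scalar (Fin 2) β * (x : Matrix (Fin 2) (Fin 2) (ZMod p)) :=
      (Matrix.scalar_commute β (fun r => mul_comm _ _) _).symm
    rw [mul_add, add_mul, e8, add_left_inj, Matrix.mul_smul, Matrix.smul_mul]
    constructor
    · intro h9
      exact smul_right_injective _ hα0 h9
    · intro h9
      rw [h9]
  rw [e7]

end MX
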