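import Pool.Agent.helper81.MX.W05
import Pool.Agent.helper81.MX.T05

/-!
Row W06: at most one class of maximal subgroups of type `D` for given quadratic character.
-/

set_option autoImplicit false

namespace MX

open scoped MatrixGroups

theorem W06_sq {p : ℕ} [Fact p.Prime] (a b : ZMod p) (ha : a ≠ 0) (hb : b ≠ 0)
    (h : IsSquare a ↔ IsSquare b) : IsSquare (a * b) := by
  classical
  by_cases h1 : IsSquare a
  · exact h1.mul (h.1 h1)
  · have h2 : ¬ IsSquare b := fun hb' => h1 (h.2 hb')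
    have e1 := (quadraticChar_neg_one_iff_not_isSquare (a := a)).2 h1
    have e2 := (quadraticChar_neg_one_iff_not_isSquare (a := b)).2 h2
    rw [← quadraticChar_one_iff_isSquare (mul_ne_zero ha hb), map_mul, e1, e2]
    norm_num

theorem W06_of {p : ℕ} [Fact p.Prime]
    (h05 : ∀ g h : GL (Fin 2) (ZMod p), dsc g ≠ 0 → dsc h ≠ 0 → IsSquare (dsc g * dsc h) →
      ∃ s ∈ PS p, cj s (tor g) = tor h)
    (A : Subgroup (PG p)) (hA : PS p ≤ A) (sq : Prop) :
    (mcl A (TyD A sq)).ncard ≤ 1 := by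
  have : Finite (PG p) := U02_finite p
  have h := mcl_le (G := A) (TyD A sq) (fun _ => ()) (Set.univ : Set Unit) (Set.toFinite _)
    (fun _ _ _ => Set.mem_univ _) ?_
  · rw [Set.ncard_univ, Nat.card_unique] at h
    exact h
  · rintro X X' _ ⟨g, hg, hgs, hX⟩ _ ⟨g', hg', hgs', hX'⟩ _
    obtain ⟨s, hs, hsU⟩ := h05 g g' hg hg' (W06_sq _ _ hg hg' (hgs.trans hgs'.symm))
    apply W05_sc A X X' s (hA hs)
    rw [hX, hX', W05_norm A (tor g) s (hA hs), hsU]

/-- W06 -/
theorem cntD {p : ℕ} [Fact p.Prime] (hp : 5 ≤ p) (A : Subgroup (PG p)) (hA : PS p ≤ A) (sq : Prop) :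
    (mcl A (TyD A sq)).ncard ≤ 1 :=
  W06_of (fun g h hg hh hs => tor_conj_two hp g h hg hh hs) A hA sq

end MX
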