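import Pool.Agent.helper81.MX.ORD

/-!
K01: the Klein four subgroups of PSL(2,p) are conjugate in PGL(2,p) (by helper3).
-/

set_option autoImplicit false

namespace MX

open scoped MatrixGroups

section quat

variable {F : Type*} [Field F]

theorem K01_sq {x : Matrix (Fin 2) (Fin 2) F} (ht : x.trace = 0) (hd : x.det = 1) :
    x * x = -1 := by
  rw [Matrix.trace_fin_two] at ht
  rw [Matrix.det_fin_two] at hd
  have h1 : x 1 1 = -x 0 0 := by linear_combination ht
  rw [h1] at hd
  ext i j
  fin_cases i <;> fin_cases j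
  · simp [Matrix.mul_apply, Fin.sum_univ_two]
    linear_combination -hd
  · simp [Matrix.mul_apply, Fin.sum_univ_two, h1]
    ring
  · simp [Matrix.mul_apply, Fin.sum_univ_two, h1]
    ring
  · simp [Matrix.mul_apply, Fin.sum_univ_two, h1]
    linear_combination -hd

theorem K01_anti {x y : Matrix (Fin 2) (Fin 2) F} (hx : x.trace = 0) (hy : y.trace = 0)
    (hxy : (x * y).trace = 0) : y * x = -(x * y) := by
  rw [Matrix.trace_fin_two] at hx hy hxy
  simp only [Matrix.mul_apply, Fin.sum_univ_two] at hxy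
  have h1 : x 1 1 = -x 0 0 := by linear_combination hx
  have h2 : y 1 1 = -y 0 0 := by linear_combination hy
  rw [h1, h2] at hxy
  ext i j
  fin_cases i <;> fin_cases j
  · simp [Matrix.mul_apply, Fin.sum_univ_two]
    linear_combination hxy
  · simp [Matrix.mul_apply, Fin.sum_univ_two, h1, h2]
    ring
  · simp [Matrix.mul_apply, Fin.sum_univ_two, h1, h2]
    ring
  · simp [Matrix.mul_apply, Fin.sum_univ_two, h1, h2]
    linear_combination hxy

/-- the intertwiner -/
def K01_g (x y x' y' m : Matrix (Fin 2) (Fin 2) F) : Matrix (Fin 2) (Fin 2) F :=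
  m - x' * m * x - y' * m * y - x' * y' * m * (x * y)

theorem K01_gx {x y x' y' : Matrix (Fin 2) (Fin 2) F} (hx : x * x = -1)
    (hx' : x' * x' = -1) (ha : y * x = -(x * y)) (m : Matrix (Fin 2) (Fin 2) F) :
    K01_g x y x' y' m * x = x' * K01_g x y x' y' m := by
  unfold K01_g
  have e1 : (m - x' * m * x - y' * m * y - x' * y' * m * (x * y)) * x =
      m * x - x' * m * (x * x) - y' * m * (y * x) - x' * y' * m * (x * (y * x)) := by
    noncomm_ring
  have e2 : x' * (m - x' * m * x - y' * m * y - x' * y' * m * (x * y)) =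
      x' * m - (x' * x') * m * x - x' * y' * m * y - (x' * x') * y' * m * (x * y) := by
    noncomm_ring
  have e3 : x * (y * x) = y := by
    rw [ha]
    have : x * -(x * y) = -((x * x) * y) := by noncomm_ring
    rw [this, hx]; simp
  rw [e1, e2, e3, hx, hx', ha]
  noncomm_ring

theorem K01_gy {x y x' y' : Matrix (Fin 2) (Fin 2) F} (hy : y * y = -1)
    (hy' : y' * y' = -1) (ha' : y' * x' = -(x' * y')) (m : Matrix (Fin 2) (Fin 2) F) :
    K01_g x y x' y' m * y = y' * K01_g x y x' y' m := by
  unfold K01_g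
  have e1 : (m - x' * m * x - y' * m * y - x' * y' * m * (x * y)) * y =
      m * y - x' * m * (x * y) - y' * m * (y * y) - x' * y' * m * (x * (y * y)) := by
    noncomm_ring
  have e2 : y' * (m - x' * m * x - y' * m * y - x' * y' * m * (x * y)) =
      y' * m - (y' * x') * m * x - (y' * y') * m * y - (y' * x') * y' * m * (x * y) := by
    noncomm_ring
  have e3 : (y' * x') * y' = x' := by
    rw [ha']
    have : -(x' * y') * y' = -(x' * (y' * y')) := by noncomm_ring
    rw [this, hy']; simp
  rw [e1, e2, e3, hy, hy', ha']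
  noncomm_ring

/-- a nonzero intertwiner is invertible -/
theorem K01_inv (h2 : (2 : F) ≠ 0) {x y x' y' g : Matrix (Fin 2) (Fin 2) F} (hx : x * x = -1)
    (hy : y * y = -1) (ha : y * x = -(x * y)) (hgx : g * x = x' * g) (hgy : g * y = y' * g)
    (hg : g ≠ 0) : g.det ≠ 0 := by
  intro hdet
  obtain ⟨v, hv0, hv⟩ := Matrix.exists_mulVec_eq_zero_iff.2 hdet
  -- every vector killed by `g` is a multiple of `v`
  have key : ∀ w : Fin 2 → F, g.mulVec w = 0 → ∃ c : F, w = c • v := by
    intro w hw
    by_cases hd : v 0 * w 1 - v 1 * w 0 = 0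
    · have hv1 : v 0 ≠ 0 ∨ v 1 ≠ 0 := by
        by_contra hcon
        push Not at hcon
        apply hv0
        funext i
        fin_cases i
        · exact hcon.1
        · exact hcon.2
      rcases hv1 with h | h
      · refine ⟨w 0 / v 0, ?_⟩
        funext i
        fin_cases i
        · simp [h]
        · simp
          field_simp
          linear_combination hd
      · refine ⟨w 1 / v 1, ?_⟩
        funext i
        fin_cases i
        · simp
          field_simp
          linear_combination -hd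
        · simp [h]
    · exfalso
      apply hg
      have a0 := congrFun hv 0
      have a1 := congrFun hv 1
      have b0 := congrFun hw 0
      have b1 := congrFun hw 1
      simp [Matrix.mulVec, dotProduct, Fin.sum_univ_two] at a0 a1 b0 b1
      ext i j
      fin_cases i <;> fin_cases j
      · have : (v 0 * w 1 - v 1 * w 0) * g 0 0 = 0 := by linear_combination w 1 * a0 - v 1 * b0
        simpa [hd] using this
      · have : (v 0 * w 1 - v 1 * w 0) * g 0 1 = 0 := by linear_combination v 0 * b0 - w 0 * a0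
        simpa [hd] using this
      · have : (v 0 * w 1 - v 1 * w 0) * g 1 0 = 0 := by linear_combination w 1 * a1 - v 1 * b1
        simpa [hd] using this
      · have : (v 0 * w 1 - v 1 * w 0) * g 1 1 = 0 := by linear_combination v 0 * b1 - w 0 * a1
        simpa [hd] using this
  obtain ⟨α, hα⟩ := key (x.mulVec v) (by
    rw [Matrix.mulVec_mulVec, hgx, ← Matrix.mulVec_mulVec, hv, Matrix.mulVec_zero])
  obtain ⟨β, hβ⟩ := key (y.mulVec v) (by
    rw [Matrix.mulVec_mulVec, hgy, ← Matrix.mulVec_mulVec, hv, Matrix.mulVec_zero])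
  have c1 : (α * α) • v = -v := by
    have : (x * x).mulVec v = (α * α) • v := by
      rw [← Matrix.mulVec_mulVec, hα, Matrix.mulVec_smul, hα, smul_smul]
    rw [← this, hx, Matrix.neg_mulVec, Matrix.one_mulVec]
  have c2 : (β * β) • v = -v := by
    have : (y * y).mulVec v = (β * β) • v := by
      rw [← Matrix.mulVec_mulVec, hβ, Matrix.mulVec_smul, hβ, smul_smul]
    rw [← this, hy, Matrix.neg_mulVec, Matrix.one_mulVec]
  have c3 : (α * β) • v = -((α * β) • v) := by
    have e1 : (y * x).mulVec v = (α * β) • v := by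
      rw [← Matrix.mulVec_mulVec, hα, Matrix.mulVec_smul, hβ, smul_smul]
    have e2 : (x * y).mulVec v = (α * β) • v := by
      rw [← Matrix.mulVec_mulVec, hβ, Matrix.mulVec_smul, hα, smul_smul, mul_comm]
    rw [← e1]
    conv_rhs => rw [e1, ← e2]
    rw [ha, Matrix.neg_mulVec]
  have d3 : (2 * (α * β)) • v = 0 := by
    rw [two_mul, add_smul]
    nth_rewrite 1 [c3]
    simp
  have d1 : (α * α + 1) • v = 0 := by rw [add_smul, c1, one_smul]; simp
  have d2 : (β * β + 1) • v = 0 := by rw [add_smul, c2, one_smul]; simp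
  have f3 := (smul_eq_zero.1 d3).resolve_right hv0
  have f1 := (smul_eq_zero.1 d1).resolve_right hv0
  have f2 := (smul_eq_zero.1 d2).resolve_right hv0
  have f4 : α * β = 0 := (mul_eq_zero.1 f3).resolve_left h2
  have : (1 : F) = 0 := by linear_combination -(β * β + 1) * f1 + f1 + f2 + α * β * f4
  exact one_ne_zero this

/-- two quaternion pairs are conjugate -/
theorem K01_quat (h2 : (2 : F) ≠ 0) {x y x' y' : Matrix (Fin 2) (Fin 2) F}
    (tx : x.trace = 0) (ty : y.trace = 0) (txy : (x * y).trace = 0) (dx : x.det = 1)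
    (dy : y.det = 1) (tx' : x'.trace = 0) (ty' : y'.trace = 0) (txy' : (x' * y').trace = 0)
    (dx' : x'.det = 1) (dy' : y'.det = 1) :
    ∃ g : Matrix (Fin 2) (Fin 2) F, g.det ≠ 0 ∧ g * x = x' * g ∧ g * y = y' * g := by
  have hx := K01_sq tx dx
  have hy := K01_sq ty dy
  have hx' := K01_sq tx' dx'
  have hy' := K01_sq ty' dy'
  have ha := K01_anti tx ty txy
  have ha' := K01_anti tx' ty' txy'
  have hm : ∃ m : Matrix (Fin 2) (Fin 2) F, K01_g x y x' y' m ≠ 0 := by
    by_contra hcon
    push Not at hcon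
    have e1 := congrFun (congrFun (hcon !![1, 0; 0, 0]) 0) 0
    have e2 := congrFun (congrFun (hcon !![0, 0; 1, 0]) 1) 0
    rw [Matrix.trace_fin_two] at tx' ty' txy'
    unfold K01_g at e1 e2
    simp only [Matrix.mul_apply, Fin.sum_univ_two] at txy'
    simp [Matrix.mul_apply, Fin.sum_univ_two] at e1 e2
    apply h2
    linear_combination e1 + e2 + x 0 0 * tx' + y 0 0 * ty' +
      (x 0 0 * y 0 0 + x 0 1 * y 1 0) * txy'
  obtain ⟨m, hm⟩ := hm
  have hgx := K01_gx (y' := y') hx hx' ha m
  have hgy := K01_gy (x := x) (x' := x') hy hy' ha' m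
  exact ⟨K01_g x y x' y' m, K01_inv h2 hx hy ha hgx hgy hm, hgx, hgy⟩

end quat

/-- lifting a group of order four -/
theorem K01_lift {p : ℕ} [Fact p.Prime] (hp : 5 ≤ p) (V : Subgroup (PG p)) (hV : V ≤ PS p)
    (h4 : Nat.card V = 4) (h2 : ∀ v ∈ V, v * v = 1) :
    ∃ x y : SL(2, ZMod p), (x : Matrix (Fin 2) (Fin 2) (ZMod p)).trace = 0 ∧
      (y : Matrix (Fin 2) (Fin 2) (ZMod p)).trace = 0 ∧
      ((x : Matrix (Fin 2) (Fin 2) (ZMod p)) * (y : Matrix (Fin 2) (Fin 2) (ZMod p))).trace = 0 ∧
      Subgroup.closure ({sk x, sk y} : Set (PG p)) = V := by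
  classical
  have : Fact (Nat.Prime 2) := ⟨Nat.prime_two⟩
  have : Finite V := Nat.finite_of_card_ne_zero (by rw [h4]; norm_num)
  -- two elements
  have hVn : (V : Set (PG p)).ncard = 4 := by
    rw [← h4]; rfl
  obtain ⟨a, haV, ha1⟩ : ∃ a ∈ V, a ≠ 1 := by
    by_contra hcon
    push Not at hcon
    have hle : (V : Set (PG p)) ⊆ {1} := fun v hv => hcon v hv
    have := Set.ncard_le_ncard hle (Set.finite_singleton _)
    rw [hVn, Set.ncard_singleton] at this
    omega
  obtain ⟨b, hbV, hb⟩ : ∃ b ∈ V, b ≠ 1 ∧ b ≠ a := by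
    by_contra hcon
    push Not at hcon
    have hle : (V : Set (PG p)) ⊆ {1, a} := by
      intro v hv
      by_cases h : v = 1
      · exact Or.inl h
      · exact Or.inr (hcon v hv h)
    have := Set.ncard_le_ncard hle (Set.toFinite _)
    have h3 := Set.ncard_insert_le (1 : PG p) {a}
    rw [Set.ncard_singleton] at h3
    rw [hVn] at this
    omega
  obtain ⟨hb1, hba⟩ := hb
  have hab : a * b ≠ 1 := by
    intro h
    apply hba
    have h5 := h2 a haV
    exact mul_left_cancel (h.trans h5.symm)
  -- the closure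
  have hcl : Subgroup.closure ({a, b} : Set (PG p)) = V := by
    have hle : Subgroup.closure ({a, b} : Set (PG p)) ≤ V := by
      rw [Subgroup.closure_le]
      rintro v (rfl | rfl)
      · exact haV
      · exact hbV
    have hdvd := Subgroup.card_dvd_of_le hle
    rw [h4] at hdvd
    have : Finite (Subgroup.closure ({a, b} : Set (PG p))) :=
      Nat.finite_of_card_ne_zero (fun h => by rw [h] at hdvd; omega)
    have h3 : 3 ≤ Nat.card (Subgroup.closure ({a, b} : Set (PG p))) := by
      have hsub : ({1, a, b} : Set (PG p)) ⊆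
          (Subgroup.closure ({a, b} : Set (PG p)) : Set (PG p)) := by
        rintro v (rfl | rfl | rfl)
        · exact Subgroup.one_mem _
        · exact Subgroup.subset_closure (by simp)
        · exact Subgroup.subset_closure (by simp)
      have hc := Set.ncard_le_ncard hsub (Set.toFinite _)
      have h5 : ({1, a, b} : Set (PG p)).ncard = 3 := by
        rw [Set.ncard_insert_of_notMem (by
          rintro (h | h)
          · exact ha1 h.symm
          · exact hb1 h.symm), Set.ncard_pair (fun h => hba h.symm)]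
      rw [h5] at hc
      exact hc
    have h5 : Nat.card (Subgroup.closure ({a, b} : Set (PG p))) = 4 := by
      have h6 := Nat.le_of_dvd (by norm_num) hdvd
      interval_cases h7 : Nat.card (Subgroup.closure ({a, b} : Set (PG p)))
      · omega
      · rfl
    exact Subgroup.eq_of_le_of_card_ge hle (by rw [h4, h5])
  obtain ⟨q, hq⟩ := hV haV
  obtain ⟨x, rfl⟩ := QuotientGroup.mk_surjective q
  obtain ⟨r, hr⟩ := hV hbV
  obtain ⟨y, rfl⟩ := QuotientGroup.mk_surjective r
  have hqx : sk x = a := hq
  have hry : sk y = b := hr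
  refine ⟨x, y, ?_, ?_, ?_, ?_⟩
  · rw [← (order_trace hp x).1, hqx]
    exact orderOf_eq_prime (by rw [pow_two]; exact h2 a haV) ha1
  · rw [← (order_trace hp y).1, hry]
    exact orderOf_eq_prime (by rw [pow_two]; exact h2 b hbV) hb1
  · have h5 := (order_trace hp (x * y)).1.1 (by
      have hm : (sk (x * y) : PG p) = sk x * sk y :=
        map_mul (Matrix.SpecialLinearGroup.toPGL (n := Fin 2) (R := ZMod p)) x y
      rw [hm, hqx, hry]
      exact orderOf_eq_prime (by rw [pow_two]; exact h2 _ (V.mul_mem haV hbV)) hab)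
    rwa [Matrix.SpecialLinearGroup.coe_mul] at h5
  · rw [hqx, hry]; exact hcl

/-- K01 -/
theorem klein_conj {p : ℕ} [Fact p.Prime] (hp : 5 ≤ p) (V V' : Subgroup (PG p))
    (hV : V ≤ PS p) (hV' : V' ≤ PS p) (h4 : Nat.card V = 4) (h4' : Nat.card V' = 4)
    (h2 : ∀ v ∈ V, v * v = 1) (h2' : ∀ v ∈ V', v * v = 1) :
    ∃ k : PG p, cj k V = V' := by
  obtain ⟨x, y, tx, ty, txy, hcl⟩ := K01_lift hp V hV h4 h2
  obtain ⟨x', y', tx', ty', txy', hcl'⟩ := K01_lift hp V' hV' h4' h2'
  have h20 : (2 : ZMod p) ≠ 0 := by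
    intro h
    have h3 : ((2 : ℕ) : ZMod p) = 0 := by exact_mod_cast h
    rw [ZMod.natCast_eq_zero_iff] at h3
    have := Nat.le_of_dvd (by norm_num) h3
    omega
  obtain ⟨g, hg, hgx, hgy⟩ := K01_quat h20 tx ty txy x.2 y.2 tx' ty' txy' x'.2 y'.2
  set k : GL (Fin 2) (ZMod p) := Matrix.GeneralLinearGroup.mkOfDetNeZero g hg with hk
  have hkx : k * Matrix.SpecialLinearGroup.toGL x = Matrix.SpecialLinearGroup.toGL x' * k := by
    apply Units.ext
    exact hgx
  have hky : k * Matrix.SpecialLinearGroup.toGL y = Matrix.SpecialLinearGroup.toGL y' * k := by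
    apply Units.ext
    exact hgy
  have ex : pk k * sk x * (pk k)⁻¹ = sk x' := by
    have h := congrArg (fun z => (Matrix.ProjGenLinGroup.mk z : PG p)) hkx
    simp only [map_mul] at h
    rw [mul_inv_eq_iff_eq_mul]
    exact h
  have ey : pk k * sk y * (pk k)⁻¹ = sk y' := by
    have h := congrArg (fun z => (Matrix.ProjGenLinGroup.mk z : PG p)) hky
    simp only [map_mul] at h
    rw [mul_inv_eq_iff_eq_mul]
    exact h
  refine ⟨pk k, ?_⟩
  rw [← hcl, ← hcl']
  unfold cj
  rw [MonoidHom.map_closure, Set.image_pair]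
  show Subgroup.closure {pk k * sk x * (pk k)⁻¹, pk k * sk y * (pk k)⁻¹} = _
  rw [ex, ey]

end MX
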