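import Pool.Agent.helper81.MX.Defs2

set_option autoImplicit false

/-! Row mx:K02 (helper79). -/

namespace MX

open scoped MatrixGroups Pointwise

/-- Two subgroups of order four of a subgroup `S` of a finite group with `8 ∤ |S|` are conjugate by
an element of `S`. -/
theorem K02_aux {G : Type*} [Group G] [Finite G] (S V V' : Subgroup G) (h8 : ¬ 8 ∣ Nat.card S)
    (hV : V ≤ S) (hV' : V' ≤ S) (h4 : Nat.card V = 4) (h4' : Nat.card V' = 4) :
    ∃ k ∈ S, cj k V = V' := by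
  have : Fact (Nat.Prime 2) := ⟨Nat.prime_two⟩
  have key : ∀ W : Subgroup G, W ≤ S → Nat.card W = 4 →
      IsPGroup 2 (W.subgroupOf S) ∧ ¬ 2 ∣ (W.subgroupOf S).index := by
    intro W hW hc
    have hc2 : Nat.card (W.subgroupOf S) = 4 := by
      rw [Nat.card_congr (Subgroup.subgroupOfEquivOfLe hW).toEquiv, hc]
    refine ⟨IsPGroup.of_card (n := 2) (by rw [hc2]; norm_num), ?_⟩
    rintro ⟨c, hc'⟩
    apply h8
    refine ⟨c, ?_⟩
    rw [← Subgroup.card_mul_index (W.subgroupOf S), hc2, hc']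
    ring
  obtain ⟨a1, a2⟩ := key V hV h4
  obtain ⟨b1, b2⟩ := key V' hV' h4'
  obtain ⟨g, hg⟩ := MulAction.exists_smul_eq S (a1.toSylow a2) (b1.toSylow b2)
  refine ⟨g, g.2, ?_⟩
  have hg2 : ∀ x : S, x ∈ V'.subgroupOf S ↔ g⁻¹ * x * g ∈ V.subgroupOf S := by
    intro x
    have h1 : x ∈ (b1.toSylow b2) ↔ x ∈ (g • (a1.toSylow a2)) := by rw [hg]
    rw [IsPGroup.mem_toSylow] at h1
    rw [h1]
    have h2 : x ∈ (g • (a1.toSylow a2)) ↔
        x ∈ (MulAut.conj g • ((a1.toSylow a2 : Sylow 2 S) : Subgroup S)) := by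
      rw [← Sylow.coe_subgroup_smul]
      rfl
    rw [h2, Subgroup.mem_pointwise_smul_iff_inv_smul_mem, IsPGroup.toSylow_coe]
    have h3 : (MulAut.conj g)⁻¹ • x = g⁻¹ * x * g := by
      rw [← map_inv]
      simp [MulAut.smul_def, MulAut.conj_apply]
    rw [h3]
  ext x
  rw [mem_cj]
  constructor
  · intro h
    have hx : x ∈ S := by
      have h1 := hV h
      have h2 : x = (g : G) * ((g : G)⁻¹ * x * (g : G)) * (g : G)⁻¹ := by group
      rw [h2]
      exact S.mul_mem (S.mul_mem g.2 h1) (S.inv_mem g.2)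
    have := (hg2 ⟨x, hx⟩).2 (by
      rw [Subgroup.mem_subgroupOf]
      exact h)
    rw [Subgroup.mem_subgroupOf] at this
    exact this
  · intro h
    have := (hg2 ⟨x, hV' h⟩).1 (by
      rw [Subgroup.mem_subgroupOf]
      exact h)
    rw [Subgroup.mem_subgroupOf] at this
    exact this

/-- K02 -/
theorem klein_conj_small {p : ℕ} [Fact p.Prime] (hp : 5 ≤ p) (h8 : ¬ 8 ∣ Nat.card (PS p))
    (V V' : Subgroup (PG p)) (hV : V ≤ PS p) (hV' : V' ≤ PS p) (h4 : Nat.card V = 4)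
    (h4' : Nat.card V' = 4) : ∃ k ∈ PS p, cj k V = V' := by
  have : NeZero p := ⟨(Fact.out : p.Prime).ne_zero⟩
  have : Finite (PG p) := Quotient.finite _
  exact K02_aux (PS p) V V' h8 hV hV' h4 h4'

end MX
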