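import Pool.Agent.helper81.MX.Defs

set_option autoImplicit false

namespace MX
open scoped MatrixGroups

theorem R02_cj_cj {G : Type*} [Group G] (a g : G) (H : Subgroup G) :
    cj a (cj g H) = cj (a * g) H := by
  ext x
  rw [mem_cj, mem_cj, mem_cj]
  have e : g⁻¹ * (a⁻¹ * x * a) * g = (a * g)⁻¹ * x * (a * g) := by group
  rw [e]

theorem R02_range {G : Type*} [Group G] {H K : Subgroup G} (h : SC H K) :
    Set.range (fun g : G => cj g H) = Set.range (fun g : G => cj g K) := by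
  obtain ⟨g, rfl⟩ := h
  ext M
  simp only [Set.mem_range]
  constructor
  · rintro ⟨a, rfl⟩
    exact ⟨a * g⁻¹, by rw [R02_cj_cj, inv_mul_cancel_right]⟩
  · rintro ⟨a, rfl⟩
    exact ⟨a * g, by rw [R02_cj_cj]⟩

/-- R02 -/
theorem mcl_le_two {G : Type*} [Group G] [Finite G] (P : Subgroup G → Prop) {X : Type*}
    (f : Subgroup G → X) (S : Set X) (hS : S.Finite)
    (h1 : ∀ H, IsCoatom H → P H → f H ∈ S)
    (h2 : ∀ H₁ H₂ H₃, IsCoatom H₁ → P H₁ → IsCoatom H₂ → P H₂ → IsCoatom H₃ → P H₃ →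
      f H₁ = f H₂ → f H₂ = f H₃ → SC H₁ H₂ ∨ SC H₁ H₃ ∨ SC H₂ H₃) :
    (mcl G P).ncard ≤ 2 * S.ncard := by
  classical
  have hex : ∀ T : Set (Subgroup G), ∃ H : Subgroup G, T ∈ mcl G P →
      IsCoatom H ∧ P H ∧ T = Set.range (fun g : G => cj g H) := by
    intro T
    by_cases hT : T ∈ mcl G P
    · obtain ⟨H, hH⟩ := hT
      exact ⟨H, fun _ => hH⟩
    · exact ⟨⊤, fun h => absurd h hT⟩
  choose r hr using hex
  have hfin : (mcl G P).Finite := Set.toFinite _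
  rw [Set.ncard_eq_toFinset_card _ hfin, Set.ncard_eq_toFinset_card _ hS]
  have hle : hfin.toFinset.card ≤ 2 * (hfin.toFinset.image fun T => f (r T)).card := by
    refine Finset.card_le_mul_card_image _ 2 fun x _ => ?_
    by_contra hcon
    rw [not_le, Finset.two_lt_card] at hcon
    obtain ⟨T₁, m1, T₂, m2, T₃, m3, n12, n13, n23⟩ := hcon
    rw [Finset.mem_filter, Set.Finite.mem_toFinset] at m1 m2 m3
    obtain ⟨a1, b1, c1⟩ := hr T₁ m1.1
    obtain ⟨a2, b2, c2⟩ := hr T₂ m2.1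
    obtain ⟨a3, b3, c3⟩ := hr T₃ m3.1
    rcases h2 _ _ _ a1 b1 a2 b2 a3 b3 (m1.2.trans m2.2.symm) (m2.2.trans m3.2.symm) with h | h | h
    · exact n12 (by rw [c1, c2, R02_range h])
    · exact n13 (by rw [c1, c3, R02_range h])
    · exact n23 (by rw [c2, c3, R02_range h])
  refine hle.trans (Nat.mul_le_mul_left 2 (Finset.card_le_card ?_))
  intro x hx
  rw [Finset.mem_image] at hx
  obtain ⟨T, hT, rfl⟩ := hx
  rw [Set.Finite.mem_toFinset] at hT ⊢
  obtain ⟨a1, b1, -⟩ := hr T hT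
  exact h1 _ a1 b1

end MX
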