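import Pool.Agent.helper81.MX.Defs2

set_option autoImplicit false

namespace MX
open scoped MatrixGroups

theorem SP_mem {p : ℕ} [Fact p.Prime] (g : GL (Fin 2) (ZMod p))
    (h : IsSquare (g : Matrix (Fin 2) (Fin 2) (ZMod p)).det) : pk g ∈ PS p := by
  obtain ⟨r, hr⟩ := h
  have hg0 : (g : Matrix (Fin 2) (Fin 2) (ZMod p)).det ≠ 0 := by
    have h1 := (Matrix.GeneralLinearGroup.det g).ne_zero
    rwa [Matrix.GeneralLinearGroup.val_det_apply] at h1
  have hr0 : r ≠ 0 := by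
    rintro rfl
    rw [mul_zero] at hr
    exact hg0 hr
  have hdet : (r⁻¹ • (g : Matrix (Fin 2) (Fin 2) (ZMod p))).det = 1 := by
    rw [Matrix.det_smul, hr, Fintype.card_fin]
    field_simp
  refine ⟨QuotientGroup.mk ⟨r⁻¹ • (g : Matrix (Fin 2) (Fin 2) (ZMod p)), hdet⟩, ?_⟩
  rw [Matrix.ProjectiveSpecialLinearGroup.toPGL_mk, Matrix.ProjGenLinGroup.mk_eq_mk_iff]
  refine ⟨Units.mk0 r hr0, Units.ext ?_⟩
  rw [Units.val_mul]
  have h2 : ((Matrix.GeneralLinearGroup.scalar (Fin 2) (Units.mk0 r hr0) :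
      GL (Fin 2) (ZMod p)) : Matrix (Fin 2) (Fin 2) (ZMod p)) = r • 1 := by
    ext i j
    fin_cases i <;> fin_cases j <;> simp
  rw [h2, Matrix.mul_smul, Matrix.mul_one]
  change r • (r⁻¹ • (g : Matrix (Fin 2) (Fin 2) (ZMod p))) = _
  rw [smul_smul, mul_inv_cancel₀ hr0, one_smul]

theorem SP_cj {G : Type*} [Group G] (a b : G) (X : Subgroup G) : cj a (cj b X) = cj (a * b) X := by
  ext x
  rw [mem_cj, mem_cj, mem_cj]
  have : b⁻¹ * (a⁻¹ * x * a) * b = (a * b)⁻¹ * x * (a * b) := by group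
  rw [this]

/-- SP: splitting of a PGL-class in at most two PSL-classes -/
theorem split_two {p : ℕ} [Fact p.Prime] (hp : 5 ≤ p) (X₁ X₂ X₃ : Subgroup (PG p))
    (h12 : ∃ k : PG p, cj k X₁ = X₂) (h13 : ∃ k : PG p, cj k X₁ = X₃) :
    (∃ k ∈ PS p, cj k X₁ = X₂) ∨ (∃ k ∈ PS p, cj k X₁ = X₃) ∨ (∃ k ∈ PS p, cj k X₂ = X₃) := by
  obtain ⟨k, rfl⟩ := h12
  obtain ⟨l, rfl⟩ := h13
  obtain ⟨g, rfl⟩ := Matrix.ProjGenLinGroup.mk_surjective k
  obtain ⟨h, rfl⟩ := Matrix.ProjGenLinGroup.mk_surjective l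
  have hd : ∀ x : GL (Fin 2) (ZMod p), (x : Matrix (Fin 2) (Fin 2) (ZMod p)).det ≠ 0 := by
    intro x
    have h1 := (Matrix.GeneralLinearGroup.det x).ne_zero
    rwa [Matrix.GeneralLinearGroup.val_det_apply] at h1
  by_cases hg : IsSquare (g : Matrix (Fin 2) (Fin 2) (ZMod p)).det
  · exact Or.inl ⟨_, SP_mem g hg, rfl⟩
  · by_cases hh : IsSquare (h : Matrix (Fin 2) (Fin 2) (ZMod p)).det
    · exact Or.inr (Or.inl ⟨_, SP_mem h hh, rfl⟩)
    · refine Or.inr (Or.inr ⟨pk (h * g⁻¹), SP_mem _ ?_, ?_⟩)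
      · have hmul : (h : Matrix (Fin 2) (Fin 2) (ZMod p)).det =
            ((h * g⁻¹ : GL (Fin 2) (ZMod p)) : Matrix (Fin 2) (Fin 2) (ZMod p)).det *
              (g : Matrix (Fin 2) (Fin 2) (ZMod p)).det := by
          rw [← Matrix.det_mul, ← Units.val_mul, inv_mul_cancel_right]
        have h1 := congrArg (quadraticChar (ZMod p)) hmul
        rw [map_mul, quadraticChar_neg_one_iff_not_isSquare.2 hg,
          quadraticChar_neg_one_iff_not_isSquare.2 hh] at h1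
        exact (quadraticChar_one_iff_isSquare (hd _)).1 (by omega)
      · rw [SP_cj]
        congr 1
        change Matrix.ProjGenLinGroup.mk (h * g⁻¹) * Matrix.ProjGenLinGroup.mk g = _
        rw [← map_mul, inv_mul_cancel_right]

end MX
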