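import Pool.Agent.helper81.MX.Defs3
import Pool.Agent.helper81.MX.R01
import Pool.Agent.helper81.MX.R02
import Pool.Agent.helper81.MX.K01
import Pool.Agent.helper81.MX.K02
import Pool.Agent.helper81.MX.SP

/-!
Row W07: classes of maximal subgroups of Klein type.
-/

set_option autoImplicit false

namespace MX

open scoped MatrixGroups

theorem W07_norm {G : Type*} [Group G] (A V : Subgroup G) (k : G) (hk : k ∈ A) :
    cj k (A ⊓ Subgroup.normalizer (V : Set G)) = A ⊓ Subgroup.normalizer ((cj k V : Subgroup G) : Set G) := by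
  ext x
  rw [mem_cj, Subgroup.mem_inf, Subgroup.mem_inf]
  have hA : k⁻¹ * x * k ∈ A ↔ x ∈ A := by
    rw [A.mul_mem_cancel_right hk, A.mul_mem_cancel_left (A.inv_mem hk)]
  have hN : k⁻¹ * x * k ∈ Subgroup.normalizer (V : Set G) ↔
      x ∈ Subgroup.normalizer ((cj k V : Subgroup G) : Set G) := by
    rw [Subgroup.mem_normalizer_iff'', Subgroup.mem_normalizer_iff'']
    constructor
    · intro h y
      rw [mem_cj, mem_cj]
      have h1 := h (k⁻¹ * y * k)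
      have e : (k⁻¹ * x * k)⁻¹ * (k⁻¹ * y * k) * (k⁻¹ * x * k) = k⁻¹ * (x⁻¹ * y * x) * k := by group
      rwa [e] at h1
    · intro h y
      have h1 := h (k * y * k⁻¹)
      rw [mem_cj, mem_cj] at h1
      have e1 : k⁻¹ * (k * y * k⁻¹) * k = y := by group
      have e2 : k⁻¹ * (x⁻¹ * (k * y * k⁻¹) * x) * k = (k⁻¹ * x * k)⁻¹ * y * (k⁻¹ * x * k) := by group
      rwa [e1, e2] at h1
  rw [hA, hN]

theorem W07_map {G : Type*} [Group G] (A : Subgroup G) (X : Subgroup A) (g : A) :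
    (cj g X).map A.subtype = cj (g : G) (X.map A.subtype) := by
  ext x
  rw [mem_cj]
  constructor
  · rintro ⟨y, hy, rfl⟩
    rw [SetLike.mem_coe, mem_cj] at hy
    exact ⟨g⁻¹ * y * g, hy, rfl⟩
  · rintro ⟨y, hy, hxy⟩
    refine ⟨g * y * g⁻¹, ?_, ?_⟩
    · rw [SetLike.mem_coe, mem_cj]
      have e : g⁻¹ * (g * y * g⁻¹) * g = y := by group
      rw [e]
      exact hy
    · have e : (A.subtype (g * y * g⁻¹) : G) = (g : G) * A.subtype y * (g : G)⁻¹ := rfl
      rw [e, hxy]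
      group

/-- conjugate groups of four give conjugate maximal subgroups -/
theorem W07_sc {p : ℕ} (A : Subgroup (PG p)) (X X' : Subgroup A) (V V' : Subgroup (PG p))
    (hX : X.map A.subtype = A ⊓ Subgroup.normalizer (V : Set (PG p)))
    (hX' : X'.map A.subtype = A ⊓ Subgroup.normalizer (V' : Set (PG p)))
    (k : PG p) (hk : k ∈ A) (h : cj k V = V') : SC X X' := by
  refine ⟨⟨k, hk⟩, ?_⟩
  apply Subgroup.map_injective A.subtype_injective
  rw [W07_map, hX, hX', W07_norm A V k hk, h]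

/-- W07 -/
theorem cntK {p : ℕ} [Fact p.Prime] (hp : 5 ≤ p) (A : Subgroup (PG p)) (hA : PS p ≤ A) :
    (mcl A (TyK A)).ncard ≤ 2 ∧
    ((A = ⊤ ∨ ¬ 8 ∣ Nat.card (PS p)) → (mcl A (TyK A)).ncard ≤ 1) := by
  have hfin : Finite (PG p) := Finite.of_surjective _ Matrix.ProjGenLinGroup.mk_surjective
  constructor
  · have h := mcl_le_two (G := A) (TyK A) (X := Unit) (fun _ => ()) {()} (Set.finite_singleton _)
      (fun _ _ _ => rfl) (by
        rintro X₁ X₂ X₃ - ⟨V₁, a1, b1, c1, d1⟩ - ⟨V₂, a2, b2, c2, d2⟩ - ⟨V₃, a3, b3, c3, d3⟩ - -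
        rcases split_two hp V₁ V₂ V₃ (klein_conj hp V₁ V₂ a1 a2 b1 b2 c1 c2)
          (klein_conj hp V₁ V₃ a1 a3 b1 b3 c1 c3) with ⟨k, hk, h⟩ | ⟨k, hk, h⟩ | ⟨k, hk, h⟩
        · exact Or.inl (W07_sc A X₁ X₂ V₁ V₂ d1 d2 k (hA hk) h)
        · exact Or.inr (Or.inl (W07_sc A X₁ X₃ V₁ V₃ d1 d3 k (hA hk) h))
        · exact Or.inr (Or.inr (W07_sc A X₂ X₃ V₂ V₃ d2 d3 k (hA hk) h)))
    rwa [Set.ncard_singleton, mul_one] at h
  · intro hc
    have h := mcl_le (G := A) (TyK A) (X := Unit) (fun _ => ()) {()} (Set.finite_singleton _)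
      (fun _ _ _ => rfl) (by
        rintro X₁ X₂ - ⟨V₁, a1, b1, c1, d1⟩ - ⟨V₂, a2, b2, c2, d2⟩ -
        rcases hc with rfl | hc
        · obtain ⟨k, h⟩ := klein_conj hp V₁ V₂ a1 a2 b1 b2 c1 c2
          exact W07_sc ⊤ X₁ X₂ V₁ V₂ d1 d2 k (Subgroup.mem_top k) h
        · obtain ⟨k, hk, h⟩ := klein_conj_small hp hc V₁ V₂ a1 a2 b1 b2
          exact W07_sc A X₁ X₂ V₁ V₂ d1 d2 k (hA hk) h)
    rwa [Set.ncard_singleton] at h

end MX
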