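import Pool.Agent.helper81.MX.Defs2

/-!
Row E02: icosahedral subgroups are conjugate.
-/

set_option autoImplicit false

namespace MX

open scoped MatrixGroups

/-- an element of `PSL` is the class of a matrix of determinant one -/
theorem E02_lift {p : ℕ} [Fact p.Prime] {g : PG p} (hg : g ∈ PS p) : ∃ z : SL(2, ZMod p), sk z = g := by
  obtain ⟨q, rfl⟩ := hg
  obtain ⟨z, rfl⟩ := QuotientGroup.mk_surjective q
  exact ⟨z, rfl⟩

/-- E02 -/
theorem ico_conj {p : ℕ} [Fact p.Prime] (hp : 5 < p)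
    (hroot : ∀ (X : Subgroup (PG p)), X ≤ PS p → Ico X → ∀ (c : ZMod p), c ^ 2 = c + 1 →
      ∃ x y : SL(2, ZMod p), sk x ∈ X ∧ sk y ∈ X ∧
      (x : Matrix (Fin 2) (Fin 2) (ZMod p)).trace = 0 ∧
      (y : Matrix (Fin 2) (Fin 2) (ZMod p)).trace = 1 ∧
      ((x * y : SL(2, ZMod p)) : Matrix (Fin 2) (Fin 2) (ZMod p)).trace = c ∧
      X = Subgroup.closure ({sk x, sk y} : Set (PG p)))
    (hfr : ∀ x y x' y' : SL(2, ZMod p),
      (x : Matrix (Fin 2) (Fin 2) (ZMod p)).trace = 0 → (x' : Matrix (Fin 2) (Fin 2) (ZMod p)).trace = 0 →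
      (y : Matrix (Fin 2) (Fin 2) (ZMod p)).trace = 1 → (y' : Matrix (Fin 2) (Fin 2) (ZMod p)).trace = 1 →
      ((x * y : SL(2, ZMod p)) : Matrix (Fin 2) (Fin 2) (ZMod p)).trace =
        ((x' * y' : SL(2, ZMod p)) : Matrix (Fin 2) (Fin 2) (ZMod p)).trace →
      ((x * y : SL(2, ZMod p)) : Matrix (Fin 2) (Fin 2) (ZMod p)).trace ^ 2 ≠ 3 →
      ∃ k : PG p, k * sk x * k⁻¹ = sk x' ∧ k * sk y * k⁻¹ = sk y')
    (hord : ∀ x : SL(2, ZMod p), (orderOf (sk x) = 5 ↔ ((x : Matrix (Fin 2) (Fin 2) (ZMod p)).trace ^ 2 =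
      (x : Matrix (Fin 2) (Fin 2) (ZMod p)).trace + 1 ∨
      (x : Matrix (Fin 2) (Fin 2) (ZMod p)).trace ^ 2 =
      - (x : Matrix (Fin 2) (Fin 2) (ZMod p)).trace + 1)))
    (X X' : Subgroup (PG p)) (hX : X ≤ PS p) (hX' : X' ≤ PS p) (hI : Ico X) (hI' : Ico X') :
    ∃ k : PG p, cj k X = X' := by
  -- a root of `c ^ 2 = c + 1`
  obtain ⟨c, hc⟩ : ∃ c : ZMod p, c ^ 2 = c + 1 := by
    obtain ⟨x, y, _, _, h5⟩ := hI.2.1
    obtain ⟨z, hz⟩ := E02_lift (hX (x * y).2)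
    have h6 : orderOf (sk z) = 5 := by
      rw [hz, Subgroup.orderOf_coe]
      exact h5
    rcases (hord z).1 h6 with h | h
    · exact ⟨_, h⟩
    · refine ⟨-(z : Matrix (Fin 2) (Fin 2) (ZMod p)).trace, ?_⟩
      rw [neg_sq]
      exact h
  have hc3 : c ^ 2 ≠ 3 := by
    intro h3
    have h1 : c = 2 := by
      rw [hc] at h3
      linear_combination h3
    rw [h1] at h3
    have h4 : (1 : ZMod p) = 0 := by linear_combination h3
    exact one_ne_zero h4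
  obtain ⟨x, y, _, _, hx, hy, hxy, hcl⟩ := hroot X hX hI c hc
  obtain ⟨x', y', _, _, hx', hy', hxy', hcl'⟩ := hroot X' hX' hI' c hc
  obtain ⟨k, hk1, hk2⟩ := hfr x y x' y' hx hx' hy hy' (hxy.trans hxy'.symm) (by rw [hxy]; exact hc3)
  refine ⟨k, ?_⟩
  rw [hcl, hcl']
  unfold cj
  rw [MonoidHom.map_closure, Set.image_pair]
  have e1 : (MulAut.conj k).toMonoidHom (sk x) = sk x' := by
    rw [← hk1]
    rfl
  have e2 : (MulAut.conj k).toMonoidHom (sk y) = sk y' := by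
    rw [← hk2]
    rfl
  rw [e1, e2]

end MX
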