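import Pool.Agent.helper81.MX.Defs2

/-!
Row FR: pairs of matrices of determinant one with the same traces are conjugate (Fricke).
-/

set_option autoImplicit false

namespace MX
open scoped MatrixGroups

/-- the companion matrix of `X ^ 2 - t X + 1` -/
def FR_C {k : Type*} [Field k] (t : k) : Matrix (Fin 2) (Fin 2) k := !![0, -1; 1, t]

theorem FR_ext {k : Type*} {a b c d a' b' c' d' : k} (h1 : a = a') (h2 : b = b') (h3 : c = c') (h4 : d = d') :
    (!![a, b; c, d] : Matrix (Fin 2) (Fin 2) k) = !![a', b'; c', d'] := by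
  subst h1 h2 h3 h4
  rfl

theorem FR_det {k : Type*} [Field k] (x y : Matrix (Fin 2) (Fin 2) k) :
    (x * y - y * x).det = 4 * x.det * y.det - y.det * x.trace ^ 2 - x.det * y.trace ^ 2 - (x * y).trace ^ 2 +
      x.trace * y.trace * (x * y).trace := by
  rw [Matrix.eta_fin_two x, Matrix.eta_fin_two y]
  simp only [Matrix.mul_fin_two, Matrix.det_fin_two, Matrix.trace_fin_two, Matrix.sub_apply, Matrix.of_apply,
    Matrix.cons_val', Matrix.cons_val_zero, Matrix.cons_val_one, Matrix.cons_val_fin_one]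
  ring

/-- a matrix which is not scalar is similar to its companion matrix -/
theorem FR_comp {k : Type*} [Field k] (x : Matrix (Fin 2) (Fin 2) k) (hx : x.det = 1)
    (hns : ¬ (x 0 1 = 0 ∧ x 1 0 = 0 ∧ x 0 0 = x 1 1)) :
    ∃ M : Matrix (Fin 2) (Fin 2) k, M.det ≠ 0 ∧ x * M = M * FR_C x.trace := by
  obtain ⟨a, b, c, d, rfl⟩ : ∃ a b c d, x = !![a, b; c, d] := ⟨_, _, _, _, Matrix.eta_fin_two x⟩
  simp only [Matrix.of_apply, Matrix.cons_val', Matrix.cons_val_zero, Matrix.cons_val_one,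
    Matrix.cons_val_fin_one] at hns
  rw [Matrix.det_fin_two_of] at hx
  have key : ∀ v w : k, (!![a, b; c, d] : Matrix (Fin 2) (Fin 2) k) * !![v, a * v + b * w; w, c * v + d * w] =
      !![v, a * v + b * w; w, c * v + d * w] * FR_C (Matrix.trace !![a, b; c, d]) := by
    intro v w
    rw [Matrix.trace_fin_two_of, FR_C, Matrix.mul_fin_two, Matrix.mul_fin_two]
    apply FR_ext
    · ring
    · linear_combination (-v) * hx
    · ring
    · linear_combination (-w) * hx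
  by_cases hc : c = 0
  · by_cases hb : b = 0
    · refine ⟨!![1, a * 1 + b * 1; 1, c * 1 + d * 1], ?_, key 1 1⟩
      rw [Matrix.det_fin_two_of, hb, hc]
      intro h
      apply hns
      refine ⟨hb, hc, ?_⟩
      linear_combination -h
    · refine ⟨!![0, a * 0 + b * 1; 1, c * 0 + d * 1], ?_, key 0 1⟩
      rw [Matrix.det_fin_two_of]
      intro h
      apply hb
      linear_combination -h
  · refine ⟨!![1, a * 1 + b * 0; 0, c * 1 + d * 0], ?_, key 1 0⟩
    rw [Matrix.det_fin_two_of]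
    intro h
    apply hc
    linear_combination h

/-- two points of a conic -/
theorem FR_lin {k : Type*} [Field k] (p1 q1 p2 q2 : k) (h : p1 * q2 = q1 * p2) :
    ∃ α β : k, (α ≠ 0 ∨ β ≠ 0) ∧ α * p1 + β * p2 = 0 ∧ α * q1 + β * q2 = 0 := by
  by_cases h1 : p1 = 0
  · by_cases h2 : p2 = 0
    · by_cases h3 : q1 = 0
      · exact ⟨1, 0, Or.inl one_ne_zero, by rw [h1]; ring, by rw [h3]; ring⟩
      · exact ⟨-q2, q1, Or.inr h3, by rw [h1, h2]; ring, by ring⟩
    · exact ⟨-p2, p1, Or.inl (neg_ne_zero.mpr h2), by ring, by linear_combination h⟩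
  · exact ⟨-p2, p1, Or.inr h1, by ring, by linear_combination h⟩

theorem FR_u {k : Type*} [Field k] (t : k) (y y' : Matrix (Fin 2) (Fin 2) k) (hy : y.det = 1) (hy' : y'.det = 1)
    (hs : y.trace = y'.trace) (hz : (FR_C t * y).trace = (FR_C t * y').trace) :
    ∃ u : Matrix (Fin 2) (Fin 2) k, u ≠ 0 ∧ u * FR_C t = FR_C t * u ∧ u * y = y' * u := by
  obtain ⟨e, f, g, h, rfl⟩ : ∃ a b c d, y = !![a, b; c, d] := ⟨_, _, _, _, Matrix.eta_fin_two y⟩
  obtain ⟨e', f', g', h', rfl⟩ : ∃ a b c d, y' = !![a, b; c, d] := ⟨_, _, _, _, Matrix.eta_fin_two y'⟩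
  rw [FR_C, Matrix.mul_fin_two, Matrix.mul_fin_two, Matrix.trace_fin_two_of, Matrix.trace_fin_two_of] at hz
  rw [Matrix.trace_fin_two_of, Matrix.trace_fin_two_of] at hs
  rw [Matrix.det_fin_two_of] at hy hy'
  obtain ⟨α, β, hne, e1, e2⟩ := FR_lin (g - g') (h - h') (e + t * g - h') (f + t * h + g' - t * h') (by
    linear_combination (-1 : k) * hy + hy' - g' * hz + h' * hs)
  refine ⟨!![α, -β; β, α + t * β], ?_, ?_, ?_⟩
  · intro h0
    have h1 := congrFun (congrFun h0 0) 0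
    have h2 := congrFun (congrFun h0 1) 0
    simp only [Matrix.of_apply, Matrix.cons_val', Matrix.cons_val_zero, Matrix.cons_val_one,
      Matrix.cons_val_fin_one, Matrix.zero_apply] at h1 h2
    rcases hne with h3 | h3
    · exact h3 h1
    · exact h3 h2
  · rw [FR_C, Matrix.mul_fin_two, Matrix.mul_fin_two]
    apply FR_ext <;> ring
  · rw [Matrix.mul_fin_two, Matrix.mul_fin_two]
    apply FR_ext
    · linear_combination (-1 : k) * e2 + α * hs + β * hz
    · linear_combination e1 - t * e2 + α * hz - β * hs + β * t * hz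
    · linear_combination e1
    · linear_combination e2

/-- the kernel of a nonzero singular matrix is a line -/
theorem FR_par {k : Type*} [Field k] (u : Matrix (Fin 2) (Fin 2) k) (hu : u ≠ 0) (v w : Fin 2 → k) (hv : v ≠ 0)
    (h1 : u.mulVec v = 0) (h2 : u.mulVec w = 0) : ∃ c : k, w = c • v := by
  have a1 : ∀ i, u i 0 * v 0 + u i 1 * v 1 = 0 := by
    intro i
    have := congrFun h1 i
    rwa [Matrix.mulVec_eq_sum, Finset.sum_apply, Fin.sum_univ_two] at this
  have a2 : ∀ i, u i 0 * w 0 + u i 1 * w 1 = 0 := by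
    intro i
    have := congrFun h2 i
    rwa [Matrix.mulVec_eq_sum, Finset.sum_apply, Fin.sum_univ_two] at this
  have a3 : v 0 * w 1 - v 1 * w 0 = 0 := by
    by_contra hne
    apply hu
    apply Matrix.ext
    intro i j
    have b1 : u i 0 * (v 0 * w 1 - v 1 * w 0) = 0 := by
      linear_combination w 1 * a1 i - v 1 * a2 i
    have b2 : u i 1 * (v 0 * w 1 - v 1 * w 0) = 0 := by
      linear_combination v 0 * a2 i - w 0 * a1 i
    have c1 := (mul_eq_zero.mp b1).resolve_right hne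
    have c2 := (mul_eq_zero.mp b2).resolve_right hne
    rw [Matrix.zero_apply]
    fin_cases j
    · exact c1
    · exact c2
  by_cases h0 : v 0 = 0
  · by_cases h0' : v 1 = 0
    · exfalso
      apply hv
      funext i
      fin_cases i
      · exact h0
      · exact h0'
    · refine ⟨w 1 / v 1, ?_⟩
      funext i
      fin_cases i
      · show w 0 = w 1 / v 1 * v 0
        field_simp
        linear_combination (-1 : k) * a3
      · show w 1 = w 1 / v 1 * v 1
        field_simp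
  · refine ⟨w 0 / v 0, ?_⟩
    funext i
    fin_cases i
    · show w 0 = w 0 / v 0 * v 0
      field_simp
    · show w 1 = w 0 / v 0 * v 1
      field_simp
      linear_combination a3

theorem FR_inv {k : Type*} [Field k] (C y y' u : Matrix (Fin 2) (Fin 2) k) (hu : u ≠ 0) (h1 : u * C = C * u)
    (h2 : u * y = y' * u) (h3 : (C * y - y * C).det ≠ 0) : u.det ≠ 0 := by
  intro h4
  obtain ⟨v, hv, hv1⟩ := Matrix.exists_mulVec_eq_zero_iff.mpr h4
  have a1 : u.mulVec (C.mulVec v) = 0 := by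
    rw [Matrix.mulVec_mulVec, h1, ← Matrix.mulVec_mulVec, hv1, Matrix.mulVec_zero]
  have a2 : u.mulVec (y.mulVec v) = 0 := by
    rw [Matrix.mulVec_mulVec, h2, ← Matrix.mulVec_mulVec, hv1, Matrix.mulVec_zero]
  obtain ⟨c, hc⟩ := FR_par u hu v _ hv hv1 a1
  obtain ⟨d, hd⟩ := FR_par u hu v _ hv hv1 a2
  apply h3
  apply Matrix.exists_mulVec_eq_zero_iff.mp
  refine ⟨v, hv, ?_⟩
  rw [Matrix.sub_mulVec, ← Matrix.mulVec_mulVec, ← Matrix.mulVec_mulVec, hd, hc, Matrix.mulVec_smul,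
    Matrix.mulVec_smul, hc, hd, smul_smul, smul_smul, mul_comm, sub_self]

/-- Fricke's lemma over a field -/
theorem FR_field {k : Type*} [Field k] (x y x' y' : Matrix (Fin 2) (Fin 2) k) (hx : x.det = 1) (hy : y.det = 1)
    (hx' : x'.det = 1) (hy' : y'.det = 1) (h1 : x.trace = x'.trace) (h2 : y.trace = y'.trace)
    (h3 : (x * y).trace = (x' * y').trace)
    (h4 : x.trace ^ 2 + y.trace ^ 2 + (x * y).trace ^ 2 - x.trace * y.trace * (x * y).trace ≠ 4) :
    ∃ g : Matrix (Fin 2) (Fin 2) k, g.det ≠ 0 ∧ g * x = x' * g ∧ g * y = y' * g := by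
  have w1 : (x * y - y * x).det ≠ 0 := by
    intro h
    apply h4
    rw [FR_det, hx, hy] at h
    linear_combination (-1 : k) * h
  have w2 : (x' * y' - y' * x').det ≠ 0 := by
    intro h
    apply h4
    rw [FR_det, hx', hy', ← h1, ← h2, ← h3] at h
    linear_combination (-1 : k) * h
  have ns : ∀ x y : Matrix (Fin 2) (Fin 2) k, (x * y - y * x).det ≠ 0 →
      ¬ (x 0 1 = 0 ∧ x 1 0 = 0 ∧ x 0 0 = x 1 1) := by
    rintro x y h ⟨b1, b2, b3⟩
    apply h
    have e : x * y - y * x = 0 := by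
      rw [Matrix.eta_fin_two x, Matrix.eta_fin_two y, b1, b2, b3, Matrix.mul_fin_two, Matrix.mul_fin_two,
        sub_eq_zero]
      apply FR_ext <;> ring
    rw [e]
    exact Matrix.det_zero
  obtain ⟨M, hM, hM1⟩ := FR_comp x hx (ns x y w1)
  obtain ⟨M', hM', hM1'⟩ := FR_comp x' hx' (ns x' y' w2)
  have iM : IsUnit M.det := isUnit_iff_ne_zero.mpr hM
  have iM' : IsUnit M'.det := isUnit_iff_ne_zero.mpr hM'
  have d1 : ∀ (N : Matrix (Fin 2) (Fin 2) k) (z : Matrix (Fin 2) (Fin 2) k), IsUnit N.det →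
      (N⁻¹ * z * N).det = z.det ∧ (N⁻¹ * z * N).trace = z.trace := by
    intro N z hN
    constructor
    · rw [Matrix.det_mul, Matrix.det_mul, mul_comm, ← mul_assoc, ← Matrix.det_mul, Matrix.mul_nonsing_inv _ hN,
        Matrix.det_one, one_mul]
    · rw [Matrix.trace_mul_comm, ← mul_assoc, Matrix.mul_nonsing_inv _ hN, one_mul]
  have c1 : FR_C x.trace = M⁻¹ * x * M := by
    rw [mul_assoc, hM1, ← mul_assoc, Matrix.nonsing_inv_mul _ iM, one_mul]
  have c2 : FR_C x.trace = M'⁻¹ * x' * M' := by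
    rw [mul_assoc, hM1', ← mul_assoc, Matrix.nonsing_inv_mul _ iM', one_mul, h1]
  have c3 : ∀ (N z w : Matrix (Fin 2) (Fin 2) k), IsUnit N.det → (N⁻¹ * z * N) * (N⁻¹ * w * N) = N⁻¹ * (z * w) * N := by
    intro N z w hN
    rw [show (N⁻¹ * z * N) * (N⁻¹ * w * N) = N⁻¹ * z * (N * N⁻¹) * w * N by noncomm_ring,
      Matrix.mul_nonsing_inv _ hN]
    noncomm_ring
  have e1 : (FR_C x.trace * (M⁻¹ * y * M)).trace = (x * y).trace := by
    rw [c1, c3 M x y iM, (d1 M (x * y) iM).2]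
  have e2 : (FR_C x.trace * (M'⁻¹ * y' * M')).trace = (x * y).trace := by
    rw [c2, c3 M' x' y' iM', (d1 M' (x' * y') iM').2, h3]
  obtain ⟨u, hu, hu1, hu2⟩ := FR_u x.trace (M⁻¹ * y * M) (M'⁻¹ * y' * M') (by rw [(d1 M y iM).1, hy])
    (by rw [(d1 M' y' iM').1, hy']) (by rw [(d1 M y iM).2, (d1 M' y' iM').2, h2]) (by rw [e1, e2])
  have hu3 : u.det ≠ 0 := by
    refine FR_inv (FR_C x.trace) (M⁻¹ * y * M) (M'⁻¹ * y' * M') u hu hu1 hu2 ?_
    rw [c1, c3 M x y iM, c3 M y x iM, ← sub_mul, ← mul_sub, (d1 M _ iM).1]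
    exact w1
  refine ⟨M' * u * M⁻¹, ?_, ?_, ?_⟩
  · rw [Matrix.det_mul, Matrix.det_mul, Matrix.det_nonsing_inv]
    exact mul_ne_zero (mul_ne_zero hM' hu3) (by rw [Ring.inverse_eq_inv']; exact inv_ne_zero hM)
  · have f1 : M⁻¹ * x = FR_C x.trace * M⁻¹ := by
      rw [c1, mul_assoc, mul_assoc, Matrix.mul_nonsing_inv _ iM, mul_one]
    have f2 : M' * FR_C x.trace = x' * M' := by
      rw [hM1', h1]
    rw [mul_assoc, f1, ← mul_assoc, mul_assoc M' u, hu1, ← mul_assoc, f2, mul_assoc, mul_assoc, mul_assoc]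
  · have f1 : M⁻¹ * y = (M⁻¹ * y * M) * M⁻¹ := by
      rw [mul_assoc, mul_assoc, Matrix.mul_nonsing_inv _ iM, mul_one]
    have f2 : M' * (M'⁻¹ * y' * M') = y' * M' := by
      rw [← mul_assoc, ← mul_assoc, Matrix.mul_nonsing_inv _ iM', one_mul]
    rw [mul_assoc, f1, ← mul_assoc, mul_assoc M' u, hu2, ← mul_assoc, f2, mul_assoc, mul_assoc, mul_assoc]

/-- FR: Fricke -/
theorem fricke {p : ℕ} [Fact p.Prime] (hp : 5 ≤ p) (x y x' y' : SL(2, ZMod p))
    (h1 : (x : Matrix (Fin 2) (Fin 2) (ZMod p)).trace = (x' : Matrix (Fin 2) (Fin 2) (ZMod p)).trace)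
    (h2 : (y : Matrix (Fin 2) (Fin 2) (ZMod p)).trace = (y' : Matrix (Fin 2) (Fin 2) (ZMod p)).trace)
    (h3 : ((x * y : SL(2, ZMod p)) : Matrix (Fin 2) (Fin 2) (ZMod p)).trace =
      ((x' * y' : SL(2, ZMod p)) : Matrix (Fin 2) (Fin 2) (ZMod p)).trace)
    (h4 : (x : Matrix (Fin 2) (Fin 2) (ZMod p)).trace ^ 2 + (y : Matrix (Fin 2) (Fin 2) (ZMod p)).trace ^ 2 +
      ((x * y : SL(2, ZMod p)) : Matrix (Fin 2) (Fin 2) (ZMod p)).trace ^ 2 -
      (x : Matrix (Fin 2) (Fin 2) (ZMod p)).trace * (y : Matrix (Fin 2) (Fin 2) (ZMod p)).trace *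
      ((x * y : SL(2, ZMod p)) : Matrix (Fin 2) (Fin 2) (ZMod p)).trace ≠ 4) :
    ∃ k : PG p, k * sk x * k⁻¹ = sk x' ∧ k * sk y * k⁻¹ = sk y' := by
  rw [Matrix.SpecialLinearGroup.coe_mul] at h3 h4
  rw [Matrix.SpecialLinearGroup.coe_mul] at h3
  obtain ⟨g, hg, g1, g2⟩ := FR_field (x : Matrix (Fin 2) (Fin 2) (ZMod p)) (y : Matrix (Fin 2) (Fin 2) (ZMod p))
    (x' : Matrix (Fin 2) (Fin 2) (ZMod p)) (y' : Matrix (Fin 2) (Fin 2) (ZMod p)) x.2 y.2 x'.2 y'.2 h1 h2 h3 h4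
  have key : ∀ a b : SL(2, ZMod p), g * (a : Matrix (Fin 2) (Fin 2) (ZMod p)) = (b : Matrix (Fin 2) (Fin 2) (ZMod p)) * g →
      pk (Matrix.GeneralLinearGroup.mkOfDetNeZero g hg) * sk a *
        (pk (Matrix.GeneralLinearGroup.mkOfDetNeZero g hg))⁻¹ = sk b := by
    intro a b hab
    rw [mul_inv_eq_iff_eq_mul]
    show Matrix.ProjGenLinGroup.mk _ * Matrix.ProjGenLinGroup.mk _ = Matrix.ProjGenLinGroup.mk _ * Matrix.ProjGenLinGroup.mk _
    rw [← map_mul, ← map_mul]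
    congr 1
    apply Units.ext
    exact hab
  exact ⟨_, key x x' g1, key y y' g2⟩

end MX
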