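import Pool.Agent.helper81.MX.Defs3
import Pool.Agent.helper81.MX.R02
import Pool.Agent.helper81.MX.E01
import Pool.Agent.helper81.MX.E02
import Pool.Agent.helper81.MX.ORD
import Pool.Agent.helper81.MX.SP
import Pool.Agent.helper81.MX.S02
import Pool.Agent.helper81.MX.FR

/-!
# Row W08 of project MX
-/

set_option autoImplicit false

namespace MX

open scoped MatrixGroups

theorem W08_sc {p : ℕ} (A : Subgroup (PG p)) (X X' : Subgroup A) (k : PG p) (hk : k ∈ A)
    (h : cj k (X.map A.subtype) = X'.map A.subtype) : SC X X' := by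
  have hmem : ∀ (Z : Subgroup A) (z : A), (z : PG p) ∈ Z.map A.subtype ↔ z ∈ Z := by
    intro Z z
    constructor
    · rintro ⟨w, hw, hwz⟩
      have h1 : w = z := Subtype.ext hwz
      rw [← h1]
      exact hw
    · intro hz
      exact ⟨z, hz, rfl⟩
  refine ⟨⟨k, hk⟩, ?_⟩
  ext z
  rw [mem_cj, ← hmem X, ← hmem X', ← h, mem_cj]
  rfl

theorem W08_Ico {X Y : Type*} [Group X] [Group Y] (e : X ≃* Y) (h : Ico X) : Ico Y := by
  obtain ⟨h1, ⟨a, b, ha, hb, hab⟩, h3, h4⟩ := h
  refine ⟨?_, ?_, ?_, ?_⟩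
  · rw [← h1]
    exact (Nat.card_congr e.toEquiv).symm
  · refine ⟨e a, e b, ?_, ?_, ?_⟩
    · rw [MulEquiv.orderOf_eq, ha]
    · rw [MulEquiv.orderOf_eq, hb]
    · rw [← map_mul, MulEquiv.orderOf_eq, hab]
  · intro x y hx hy hxy
    have h5 := h3 (e.symm x) (e.symm y) (by rw [MulEquiv.orderOf_eq, hx])
      (by rw [MulEquiv.orderOf_eq, hy]) (by rw [← map_mul, MulEquiv.orderOf_eq, hxy])
    have h6 : (Subgroup.closure ({e.symm x, e.symm y} : Set X)).map e.toMonoidHom = ⊤ := by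
      rw [h5]
      exact Subgroup.map_top_of_surjective _ e.surjective
    rw [MonoidHom.map_closure, Set.image_pair] at h6
    have h7 : e.toMonoidHom (e.symm x) = x := e.apply_symm_apply x
    have h8 : e.toMonoidHom (e.symm y) = y := e.apply_symm_apply y
    rw [h7, h8] at h6
    exact h6
  · intro Z hZ
    have h5 : Z.comap e.toMonoidHom = ⊤ := by
      apply h4
      intro x hx
      rw [Subgroup.mem_comap]
      apply hZ
      have h6 : orderOf (e.toMonoidHom x) = orderOf x := MulEquiv.orderOf_eq e x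
      rw [h6]
      exact hx
    rw [eq_top_iff]
    intro y _
    have h6 : e.symm y ∈ Z.comap e.toMonoidHom := by
      rw [h5]
      exact Subgroup.mem_top _
    rw [Subgroup.mem_comap] at h6
    have h7 : e.toMonoidHom (e.symm y) = y := e.apply_symm_apply y
    rw [h7] at h6
    exact h6

theorem W08_fin {p : ℕ} [Fact p.Prime] (hp : 5 ≤ p) : Finite (PG p) := by
  apply Nat.finite_of_card_ne_zero
  obtain ⟨_, _, _, _, hc, _⟩ := PS_basic hp
  rw [hc]
  have h1 : 0 < p := by omega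
  have h2 : 0 < p - 1 := by omega
  positivity

theorem W08_empty {p : ℕ} [Fact p.Prime] (hp : 5 ≤ p) (A : Subgroup (PG p)) (hA : PS p ≤ A)
    (h : A = ⊤ ∨ p = 5 ∨ p = 7) : mcl A (TyI A) = ∅ := by
  rw [Set.eq_empty_iff_forall_notMem]
  rintro S ⟨H, _, ⟨hAP, hH, hI⟩, _⟩
  have hfin : Finite (PG p) := W08_fin hp
  obtain ⟨_, hidx, _, _, _, hcard, _, _⟩ := PS_basic hp
  have h60 : Nat.card H = 60 := hI.1
  have hdvd : Nat.card H ∣ Nat.card A := Subgroup.card_subgroup_dvd_card H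
  rcases h with h | h | h
  · rw [← hAP, h, Subgroup.index_top] at hidx
    omega
  · apply hH
    rw [← hAP] at hcard
    apply Subgroup.eq_top_of_card_eq
    rw [h60]
    subst h
    omega
  · rw [← hAP] at hcard
    rw [h60] at hdvd
    subst h
    omega

theorem cntI {p : ℕ} [Fact p.Prime] (hp : 5 ≤ p) (A : Subgroup (PG p)) (hA : PS p ≤ A) :
    (mcl A (TyI A)).ncard ≤ 2 ∧
    ((A = ⊤ ∨ p = 5 ∨ p = 7) → (mcl A (TyI A)).ncard = 0) := by
  constructor
  · by_cases h5 : p = 5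
    · rw [W08_empty hp A hA (Or.inr (Or.inl h5)), Set.ncard_empty]
      omega
    have hp5 : 5 < p := by omega
    have hfin : Finite (PG p) := W08_fin hp
    have key := mcl_le_two (TyI A) (fun _ : Subgroup A => ()) {()} (Set.finite_singleton _)
      (fun _ _ _ => rfl) ?_
    · rw [Set.ncard_singleton] at key
      exact key
    intro H₁ H₂ H₃ _ hT₁ _ hT₂ _ hT₃ _ _
    have hroot := ico_root (p := p) hp5
    have hfr : ∀ x y x' y' : SL(2, ZMod p),
        (x : Matrix (Fin 2) (Fin 2) (ZMod p)).trace = 0 →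
        (x' : Matrix (Fin 2) (Fin 2) (ZMod p)).trace = 0 →
        (y : Matrix (Fin 2) (Fin 2) (ZMod p)).trace = 1 →
        (y' : Matrix (Fin 2) (Fin 2) (ZMod p)).trace = 1 →
        ((x * y : SL(2, ZMod p)) : Matrix (Fin 2) (Fin 2) (ZMod p)).trace =
          ((x' * y' : SL(2, ZMod p)) : Matrix (Fin 2) (Fin 2) (ZMod p)).trace →
        ((x * y : SL(2, ZMod p)) : Matrix (Fin 2) (Fin 2) (ZMod p)).trace ^ 2 ≠ 3 →
        ∃ k : PG p, k * sk x * k⁻¹ = sk x' ∧ k * sk y * k⁻¹ = sk y' := by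
      intro x y x' y' hx hx' hy hy' hxy h3
      apply fricke hp x y x' y' (by rw [hx, hx']) (by rw [hy, hy']) hxy
      intro h4
      apply h3
      rw [hx, hy] at h4
      linear_combination h4
    have hord : ∀ x : SL(2, ZMod p), (orderOf (sk x) = 5 ↔
        ((x : Matrix (Fin 2) (Fin 2) (ZMod p)).trace ^ 2 =
          (x : Matrix (Fin 2) (Fin 2) (ZMod p)).trace + 1 ∨
        (x : Matrix (Fin 2) (Fin 2) (ZMod p)).trace ^ 2 =
          - (x : Matrix (Fin 2) (Fin 2) (ZMod p)).trace + 1)) := fun x =>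
      (order_trace hp x).2.2 hp5
    have hle : ∀ H : Subgroup A, TyI A H → H.map A.subtype ≤ PS p := by
      intro H hT
      rw [← hT.1]
      exact Subgroup.map_subtype_le H
    have hI : ∀ H : Subgroup A, TyI A H → Ico (H.map A.subtype) := by
      intro H hT
      exact W08_Ico (H.equivMapOfInjective A.subtype A.subtype_injective) hT.2.2
    have h12 := ico_conj hp5 hroot hfr hord _ _ (hle H₁ hT₁) (hle H₂ hT₂) (hI H₁ hT₁) (hI H₂ hT₂)
    have h13 := ico_conj hp5 hroot hfr hord _ _ (hle H₁ hT₁) (hle H₃ hT₃) (hI H₁ hT₁) (hI H₃ hT₃)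
    rcases split_two hp _ _ _ h12 h13 with ⟨k, hk, h⟩ | ⟨k, hk, h⟩ | ⟨k, hk, h⟩
    · exact Or.inl (W08_sc A H₁ H₂ k (hA hk) h)
    · exact Or.inr (Or.inl (W08_sc A H₁ H₃ k (hA hk) h))
    · exact Or.inr (Or.inr (W08_sc A H₂ H₃ k (hA hk) h))
  · intro h
    rw [W08_empty hp A hA h, Set.ncard_empty]

end MX
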