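import Pool.Agent.helper81.MX.R03
import Pool.Agent.helper81.MX.Defs3

/-!
W09: the number of classes of maximal subgroups of PSL(2,p) (by helper3).
-/

set_option autoImplicit false

namespace MX

open scoped MatrixGroups

/-- W09, with the rows it uses as hypotheses -/
theorem cntPS_of {p : ℕ} [Fact p.Prime] (hp : 5 ≤ p)
    (hfin : Finite (PS p))
    (hcard : 2 * Nat.card (PS p) = p * (p - 1) * (p + 1))
    (hW03 : ∀ X : Subgroup (PS p), IsCoatom X → ¬ (PS p).subgroupOf (PS p) ≤ X →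
      TyU (PS p) X ∨ TyD (PS p) True X ∨ TyD (PS p) False X ∨ TyK (PS p) X ∨ TyI (PS p) X)
    (hU : (mcl (PS p) (TyU (PS p))).ncard ≤ 1)
    (hD : ∀ sq : Prop, (mcl (PS p) (TyD (PS p) sq)).ncard ≤ 1)
    (hK : (mcl (PS p) (TyK (PS p))).ncard ≤ 2 ∧
      ((PS p = ⊤ ∨ ¬ 8 ∣ Nat.card (PS p)) → (mcl (PS p) (TyK (PS p))).ncard ≤ 1))
    (hI : (mcl (PS p) (TyI (PS p))).ncard ≤ 2 ∧
      ((PS p = ⊤ ∨ p = 5 ∨ p = 7) → (mcl (PS p) (TyI (PS p))).ncard = 0)) :
    2 * (mcl (PS p) (fun X => ¬ (PS p).subgroupOf (PS p) ≤ X)).ncard ≤ p + 3 := by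
  have h1 := mcl_union_le (G := PS p) (fun X => ¬ (PS p).subgroupOf (PS p) ≤ X) (TyU (PS p))
    (fun X => TyD (PS p) True X ∨ TyD (PS p) False X ∨ TyK (PS p) X ∨ TyI (PS p) X)
    (fun X hX h => hW03 X hX h)
  have h2 := mcl_union_le (G := PS p)
    (fun X => TyD (PS p) True X ∨ TyD (PS p) False X ∨ TyK (PS p) X ∨ TyI (PS p) X)
    (TyD (PS p) True) (fun X => TyD (PS p) False X ∨ TyK (PS p) X ∨ TyI (PS p) X)
    (fun X _ h => h)
  have h3 := mcl_union_le (G := PS p)
    (fun X => TyD (PS p) False X ∨ TyK (PS p) X ∨ TyI (PS p) X)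
    (TyD (PS p) False) (fun X => TyK (PS p) X ∨ TyI (PS p) X)
    (fun X _ h => h)
  have h4 := mcl_union_le (G := PS p) (fun X => TyK (PS p) X ∨ TyI (PS p) X)
    (TyK (PS p)) (TyI (PS p)) (fun X _ h => h)
  have hD1 := hD True
  have hD2 := hD False
  obtain ⟨hK1, hK2⟩ := hK
  obtain ⟨hI1, hI2⟩ := hI
  have hprime : p.Prime := Fact.out
  rcases Nat.lt_or_ge p 11 with hlt | hge
  · have hp57 : p = 5 ∨ p = 7 := by
      interval_cases p
      · exact Or.inl rfl
      · exact absurd hprime (by norm_num)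
      · exact Or.inr rfl
      · exact absurd hprime (by norm_num)
      · exact absurd hprime (by norm_num)
      · exact absurd hprime (by norm_num)
    have hI3 := hI2 (Or.inr hp57)
    rcases hp57 with h5 | h7
    · have h60 : Nat.card (PS p) = 60 := by
        rw [h5] at hcard ⊢
        omega
      have hK3 := hK2 (Or.inr (by rw [h60]; norm_num))
      omega
    · omega
  · omega

end MX
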