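import Pool.Agent.helper81.MX.Defs3

set_option autoImplicit false

/-!
Row mx:W10 (helper22). `cntPG` is the last theorem once W03, W05, W06, W07, W08 are landed:
`W10_of hp (max_types hp) (cntU hp) (cntD hp) (cntK hp) (cntI hp)`.
-/

namespace MX
open scoped MatrixGroups

theorem W10_of {p : ℕ} [Fact p.Prime]
    (h3 : ∀ (A : Subgroup (PG p)), PS p ≤ A → ∀ (X : Subgroup A), IsCoatom X →
      ¬ (PS p).subgroupOf A ≤ X → TyU A X ∨ TyD A True X ∨ TyD A False X ∨ TyK A X ∨ TyI A X)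
    (h5 : ∀ (A : Subgroup (PG p)), PS p ≤ A → (mcl A (TyU A)).ncard ≤ 1)
    (h6 : ∀ (A : Subgroup (PG p)), PS p ≤ A → ∀ sq : Prop, (mcl A (TyD A sq)).ncard ≤ 1)
    (h7 : ∀ (A : Subgroup (PG p)), PS p ≤ A → (mcl A (TyK A)).ncard ≤ 2 ∧
      ((A = ⊤ ∨ ¬ 8 ∣ Nat.card (PS p)) → (mcl A (TyK A)).ncard ≤ 1))
    (h8 : ∀ (A : Subgroup (PG p)), PS p ≤ A → (mcl A (TyI A)).ncard ≤ 2 ∧
      ((A = ⊤ ∨ p = 5 ∨ p = 7) → (mcl A (TyI A)).ncard = 0)) :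
    (mcl (⊤ : Subgroup (PG p)) (fun X => ¬ (PS p).subgroupOf ⊤ ≤ X)).ncard ≤ 4 := by
  have : Finite (PG p) := Quotient.finite _
  have ht : PS p ≤ (⊤ : Subgroup (PG p)) := le_top
  have hsub : mcl (⊤ : Subgroup (PG p)) (fun X => ¬ (PS p).subgroupOf ⊤ ≤ X) ⊆
      mcl (⊤ : Subgroup (PG p)) (TyU ⊤) ∪ (mcl (⊤ : Subgroup (PG p)) (TyD ⊤ True) ∪
        (mcl (⊤ : Subgroup (PG p)) (TyD ⊤ False) ∪ (mcl (⊤ : Subgroup (PG p)) (TyK ⊤) ∪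
          mcl (⊤ : Subgroup (PG p)) (TyI ⊤)))) := by
    rintro S ⟨H, hH, hP, rfl⟩
    rcases h3 ⊤ ht H hH hP with h | h | h | h | h
    · exact Or.inl ⟨H, hH, h, rfl⟩
    · exact Or.inr (Or.inl ⟨H, hH, h, rfl⟩)
    · exact Or.inr (Or.inr (Or.inl ⟨H, hH, h, rfl⟩))
    · exact Or.inr (Or.inr (Or.inr (Or.inl ⟨H, hH, h, rfl⟩)))
    · exact Or.inr (Or.inr (Or.inr (Or.inr ⟨H, hH, h, rfl⟩)))
  have h1 := Set.ncard_le_ncard hsub (Set.toFinite _)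
  have a1 := Set.ncard_union_le (mcl (⊤ : Subgroup (PG p)) (TyU ⊤))
    (mcl (⊤ : Subgroup (PG p)) (TyD ⊤ True) ∪
        (mcl (⊤ : Subgroup (PG p)) (TyD ⊤ False) ∪ (mcl (⊤ : Subgroup (PG p)) (TyK ⊤) ∪
          mcl (⊤ : Subgroup (PG p)) (TyI ⊤))))
  have a2 := Set.ncard_union_le (mcl (⊤ : Subgroup (PG p)) (TyD ⊤ True))
    (mcl (⊤ : Subgroup (PG p)) (TyD ⊤ False) ∪ (mcl (⊤ : Subgroup (PG p)) (TyK ⊤) ∪
          mcl (⊤ : Subgroup (PG p)) (TyI ⊤)))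
  have a3 := Set.ncard_union_le (mcl (⊤ : Subgroup (PG p)) (TyD ⊤ False))
    (mcl (⊤ : Subgroup (PG p)) (TyK ⊤) ∪ mcl (⊤ : Subgroup (PG p)) (TyI ⊤))
  have a4 := Set.ncard_union_le (mcl (⊤ : Subgroup (PG p)) (TyK ⊤))
    (mcl (⊤ : Subgroup (PG p)) (TyI ⊤))
  have b1 := h5 ⊤ ht
  have b2 := h6 ⊤ ht True
  have b3 := h6 ⊤ ht False
  have b4 := (h7 ⊤ ht).2 (Or.inl rfl)
  have b5 := (h8 ⊤ ht).2 (Or.inl rfl)
  omega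

end MX
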