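import Pool.Agent.helper81.MX.Defs3
import Pool.Agent.helper81.MX.ORD

set_option autoImplicit false

namespace MX
open scoped MatrixGroups

/-- the companion matrix -/
def W11_cm {p : ℕ} (a : ZMod p) : SL(2, ZMod p) :=
  ⟨!![0, -1; 1, a], by simp [Matrix.det_fin_two]⟩

theorem W11_mul {p : ℕ} (x y : SL(2, ZMod p)) : sk (x * y) = sk x * sk y := map_mul _ _ _

theorem W11_invm {p : ℕ} (x : SL(2, ZMod p)) : sk x⁻¹ = (sk x)⁻¹ := map_inv _ _

theorem W11_sk {p : ℕ} [Fact p.Prime] {x y : SL(2, ZMod p)} (h : sk x = sk y) :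
    ∃ u : ZMod p, u ^ 2 = 1 ∧ y.1 = u • x.1 := by
  have h1 : sk (x⁻¹ * y) = 1 := by
    rw [W11_mul, W11_invm, h, inv_mul_cancel]
  have h2 : x⁻¹ * y ∈ Subgroup.center (SL(2, ZMod p)) := by
    rw [← Matrix.SpecialLinearGroup.toPGL_ker, MonoidHom.mem_ker]
    exact h1
  rw [Matrix.SpecialLinearGroup.mem_center_iff] at h2
  obtain ⟨r, hr, h3⟩ := h2
  rw [Fintype.card_fin] at hr
  refine ⟨r, hr, ?_⟩
  have h4 : y = x * (x⁻¹ * y) := by group
  have h5 : y.1 = x.1 * (x⁻¹ * y).1 := by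
    conv_lhs => rw [h4]
    rfl
  rw [h5, ← h3, Matrix.scalar_apply, ← Matrix.smul_one_eq_diagonal, Matrix.mul_smul,
    Matrix.mul_one]

theorem W11_rep {p : ℕ} [Fact p.Prime] (s : PS p) : ∃ σ : SL(2, ZMod p), sk σ = s.1 := by
  obtain ⟨q, hq⟩ := s.2
  obtain ⟨σ, rfl⟩ := QuotientGroup.mk_surjective q
  exact ⟨σ, hq⟩

/-- conjugate elements of `PSL(2,p)` -/
theorem W11_conj {p : ℕ} [Fact p.Prime] {x y : SL(2, ZMod p)}
    (h : IsConj (⟨sk x, sk_mem x⟩ : PS p) ⟨sk y, sk_mem y⟩) :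
    ∃ σ : SL(2, ZMod p), ∃ u : ZMod p, u ^ 2 = 1 ∧ y.1 = u • (σ * x * σ⁻¹).1 := by
  obtain ⟨s, hs⟩ := isConj_iff.1 h
  obtain ⟨σ, hσ⟩ := W11_rep s
  have h1 : sk (σ * x * σ⁻¹) = sk y := by
    have h2 := congrArg Subtype.val hs
    have h3 : s.1 * sk x * s.1⁻¹ = sk y := h2
    rw [W11_mul, W11_mul, W11_invm, hσ]
    exact h3
  obtain ⟨u, hu, h2⟩ := W11_sk h1
  exact ⟨σ, u, hu, h2⟩

theorem W11_tr {p : ℕ} [Fact p.Prime] (σ x : SL(2, ZMod p)) :
    (σ * x * σ⁻¹).1.trace = x.1.trace := by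
  have h1 : (σ * x * σ⁻¹).1 = σ.1 * x.1 * (σ⁻¹).1 := rfl
  have h2 : (σ⁻¹).1 * σ.1 = 1 := by
    have : (σ⁻¹ * σ).1 = (1 : SL(2, ZMod p)).1 := by rw [inv_mul_cancel]
    exact this
  rw [h1, Matrix.trace_mul_comm, ← mul_assoc, h2, one_mul]

theorem W11_inv {p : ℕ} [Fact p.Prime] {x y : SL(2, ZMod p)}
    (h : IsConj (⟨sk x, sk_mem x⟩ : PS p) ⟨sk y, sk_mem y⟩) : x.1.trace ^ 2 = y.1.trace ^ 2 := by
  obtain ⟨σ, u, hu, h1⟩ := W11_conj h
  rw [h1, Matrix.trace_smul, W11_tr, smul_eq_mul, mul_pow, hu, one_mul]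

theorem W11_two {p : ℕ} [Fact p.Prime] (hp : 5 ≤ p) {ν : ZMod p} (hν : ¬ IsSquare ν) :
    ¬ IsConj (⟨sk (W11_cm (2 : ZMod p)), sk_mem _⟩ : PS p) ⟨sk (uu (-ν)), sk_mem _⟩ := by
  intro h
  have n2 : (2 : ZMod p) ≠ 0 := by exact_mod_cast ORD_nat (p := p) 2 (by norm_num) (by omega)
  obtain ⟨σ, u, hu, h1⟩ := W11_conj h
  have t1 : (uu (-ν)).1.trace = 2 := by
    rw [Matrix.trace_fin_two]
    show (1 : ZMod p) + 1 = 2
    norm_num
  have t2 : (W11_cm (2 : ZMod p)).1.trace = 2 := by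
    rw [Matrix.trace_fin_two]
    show (0 : ZMod p) + 2 = 2
    rw [zero_add]
  have hu1 : u = 1 := by
    have h2 := congrArg Matrix.trace h1
    rw [Matrix.trace_smul, W11_tr, t1, t2, smul_eq_mul] at h2
    have h3 : (u - 1) * 2 = 0 := by linear_combination -h2
    rcases mul_eq_zero.1 h3 with h4 | h4
    · exact sub_eq_zero.1 h4
    · exact absurd h4 n2
  rw [hu1, one_smul] at h1
  have h2 : uu (-ν) * σ = σ * W11_cm (2 : ZMod p) := by
    have h3 : uu (-ν) = σ * W11_cm (2 : ZMod p) * σ⁻¹ := Subtype.ext h1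
    rw [h3]
    group
  have h3 : (uu (-ν)).1 * σ.1 = σ.1 * (W11_cm (2 : ZMod p)).1 := congrArg Subtype.val h2
  have e00 := congrFun (congrFun h3 0) 0
  have e01 := congrFun (congrFun h3 0) 1
  have e10 := congrFun (congrFun h3 1) 0
  have hd := σ.2
  rw [Matrix.det_fin_two] at hd
  simp only [Matrix.mul_apply, Fin.sum_univ_two] at e00 e01 e10
  change 1 * σ.1 0 0 + (-ν) * σ.1 1 0 = σ.1 0 0 * 0 + σ.1 0 1 * 1 at e00
  change 1 * σ.1 0 1 + (-ν) * σ.1 1 1 = σ.1 0 0 * (-1) + σ.1 0 1 * 2 at e01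
  change 0 * σ.1 0 0 + 1 * σ.1 1 0 = σ.1 1 0 * 0 + σ.1 1 1 * 1 at e10
  -- `c = d`, `b - a = -ν d`, `d (a - b) = 1`
  have hcd : σ.1 1 0 = σ.1 1 1 := by linear_combination e10
  have h5 : ν * (σ.1 1 1 * σ.1 1 1) = 1 := by
    rw [hcd] at hd
    linear_combination hd - σ.1 1 1 * e01
  have hd0 : σ.1 1 1 ≠ 0 := by
    intro h6
    rw [h6, mul_zero, mul_zero] at h5
    exact zero_ne_one h5
  apply hν
  refine ⟨(σ.1 1 1)⁻¹, ?_⟩
  field_simp
  linear_combination h5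

theorem W11_ne {p : ℕ} [Fact p.Prime] (a : ZMod p) : sk (W11_cm a) ≠ 1 := by
  intro h
  have h1 := ((ORD_one _).1 h).2.1
  change (1 : ZMod p) = 0 at h1
  exact one_ne_zero h1

theorem W11_une {p : ℕ} [Fact p.Prime] {a : ZMod p} (ha : a ≠ 0) : sk (uu a) ≠ 1 := by
  intro h
  have h1 := ((ORD_one _).1 h).1
  exact ha h1

/-- W11 -/
theorem kapPS {p : ℕ} [Fact p.Prime] (hp : 5 ≤ p) :
    p + 3 ≤ 2 * kap ((PS p).subgroupOf (PS p)) := by
  have hpp : p.Prime := Fact.out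
  have hodd : p % 2 = 1 := by
    rcases hpp.eq_two_or_odd with h | h
    · omega
    · exact h
  obtain ⟨ν, hν⟩ : ∃ ν : ZMod p, ¬ IsSquare ν := by
    refine FiniteField.exists_nonsquare ?_
    rw [ZMod.ringChar_zmod_n]
    omega
  have hν0 : ν ≠ 0 := fun h => hν (h ▸ ⟨0, by rw [mul_zero]⟩)
  have : Finite (PG p) := Finite.of_surjective (pk : GL (Fin 2) (ZMod p) → PG p)
    (fun q => by
      obtain ⟨g, hg⟩ := QuotientGroup.mk_surjective q
      exact ⟨g, hg⟩)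
  have : Finite (PS p) := inferInstance
  have : Finite (ConjClasses (PS p)) := Finite.of_surjective _ ConjClasses.mk_surjective
  let f : Option (Fin ((p + 1) / 2)) →
      {c : ConjClasses (PS p) // ∃ x ∈ (PS p).subgroupOf (PS p), x ≠ 1 ∧ c = ConjClasses.mk x} :=
    fun o => match o with
    | none => ⟨ConjClasses.mk ⟨sk (uu (-ν)), sk_mem _⟩, ⟨sk (uu (-ν)), sk_mem _⟩,
        Subgroup.mem_subgroupOf.2 (sk_mem _),
        fun h => W11_une (neg_ne_zero.2 hν0) (congrArg Subtype.val h), rfl⟩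
    | some a => ⟨ConjClasses.mk ⟨sk (W11_cm (a : ZMod p)), sk_mem _⟩,
        ⟨sk (W11_cm (a : ZMod p)), sk_mem _⟩, Subgroup.mem_subgroupOf.2 (sk_mem _),
        fun h => W11_ne _ (congrArg Subtype.val h), rfl⟩
  have hsq : ∀ a b : ℕ, a < (p + 1) / 2 → b < (p + 1) / 2 → (a : ZMod p) ^ 2 = (b : ZMod p) ^ 2 →
      a = b := by
    intro a b ha hb h
    rcases sq_eq_sq_iff_eq_or_eq_neg.1 h with h | h
    · rw [ZMod.natCast_eq_natCast_iff'] at h
      rwa [Nat.mod_eq_of_lt (by omega), Nat.mod_eq_of_lt (by omega)] at h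
    · have h1 : ((a + b : ℕ) : ZMod p) = 0 := by
        push_cast
        rw [h, neg_add_cancel]
      rw [ZMod.natCast_eq_zero_iff] at h1
      rcases Nat.eq_zero_or_pos (a + b) with h2 | h2
      · omega
      · have := Nat.le_of_dvd h2 h1
        omega
  have tcm : ∀ a : ZMod p, (W11_cm a).1.trace = a := by
    intro a
    rw [Matrix.trace_fin_two]
    show (0 : ZMod p) + a = a
    rw [zero_add]
  have tuu : ∀ a : ZMod p, (uu a).1.trace = 2 := by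
    intro a
    rw [Matrix.trace_fin_two]
    show (1 : ZMod p) + 1 = 2
    norm_num
  have hne : ∀ a : Fin ((p + 1) / 2), ¬ IsConj (⟨sk (W11_cm (a : ZMod p)), sk_mem _⟩ : PS p)
      ⟨sk (uu (-ν)), sk_mem _⟩ := by
    intro a h
    have h1 := W11_inv h
    rw [tcm, tuu] at h1
    have h2 : (a : ℕ) = 2 := hsq a 2 a.2 (by omega) (by push_cast; exact h1)
    rw [h2] at h
    push_cast at h
    exact W11_two hp hν h
  have hinj : Function.Injective f := by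
    rintro (_ | a) (_ | b) h
    · rfl
    · exact absurd (ConjClasses.mk_eq_mk_iff_isConj.1 (congrArg Subtype.val h)).symm (hne b)
    · exact absurd (ConjClasses.mk_eq_mk_iff_isConj.1 (congrArg Subtype.val h)) (hne a)
    · have h1 := W11_inv (ConjClasses.mk_eq_mk_iff_isConj.1 (congrArg Subtype.val h))
      rw [tcm, tcm] at h1
      rw [Fin.ext (hsq a b a.2 b.2 h1)]
  have hcard := Nat.card_le_card_of_injective f hinj
  rw [Finite.card_option, Nat.card_eq_fintype_card, Fintype.card_fin] at hcard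
  have : (p + 1) / 2 + 1 ≤ kap ((PS p).subgroupOf (PS p)) := hcard
  omega

end MX
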