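import Pool.Agent.helper81.MX.Defs3
import Pool.Agent.helper81.MX.ORD
import Pool.Agent.helper81.MX.U02
import Pool.Agent.helper81.MX.AU2

/-!
# Row W12 of project MX
-/

set_option autoImplicit false

namespace MX
open scoped MatrixGroups

theorem W12_ord {G : Type*} [Group G] (a b : G) (h : ConjClasses.mk a = ConjClasses.mk b) :
    orderOf a = orderOf b := by
  rw [ConjClasses.mk_eq_mk_iff_isConj, isConj_iff] at h
  obtain ⟨c, hc⟩ := h
  have h1 : (MulAut.conj c) a = b := by rw [MulAut.conj_apply]; exact hc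
  rw [← h1]
  exact (MulEquiv.orderOf_eq (MulAut.conj c) a).symm

theorem W12_ordp {p : ℕ} [Fact p.Prime] : orderOf (sk (uu 1 : SL(2, ZMod p))) = p := by
  apply orderOf_eq_prime
  · rw [← map_pow, ← AU2_uu_pow, ORD_one]
    simp [uu]
  · rw [ne_eq, ORD_one]
    simp [uu]

/-- W12 -/
theorem kap3 {p : ℕ} [Fact p.Prime] (hp : 5 ≤ p) (A : Subgroup (PG p)) (hA : PS p ≤ A) :
    3 ≤ kap ((PS p).subgroupOf A) := by
  have hf := U02_finite p
  set x2 : SL(2, ZMod p) := ⟨!![0, 1; -1, 0], by simp [Matrix.det_fin_two_of]⟩ with hx2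
  set x3 : SL(2, ZMod p) := ⟨!![1, 1; -1, 0], by simp [Matrix.det_fin_two_of]⟩ with hx3
  have o2 : orderOf (sk x2) = 2 := by
    rw [(order_trace hp x2).1]
    simp [hx2, Matrix.trace_fin_two]
  have o3 : orderOf (sk x3) = 3 := by
    rw [(order_trace hp x3).2.1]
    simp [hx3, Matrix.trace_fin_two]
  have op := W12_ordp (p := p)
  let y : Fin 3 → SL(2, ZMod p) := ![x2, x3, uu 1]
  let q : Fin 3 → ℕ := ![2, 3, p]
  have hq : ∀ i, orderOf (sk (y i)) = q i := by
    intro i
    fin_cases i
    · exact o2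
    · exact o3
    · exact op
  have hq1 : ∀ i, q i ≠ 1 := by
    intro i
    fin_cases i
    · change 2 ≠ 1; omega
    · change 3 ≠ 1; omega
    · change p ≠ 1; omega
  have hqi : Function.Injective q := by
    intro i j
    fin_cases i <;> fin_cases j <;> simp [q] <;> omega
  let z : Fin 3 → A := fun i => ⟨sk (y i), hA (sk_mem _)⟩
  have hz : ∀ i, orderOf (z i) = q i := by
    intro i
    rw [← hq i, ← Subgroup.orderOf_coe]
  let f : Fin 3 → {c : ConjClasses A // ∃ x ∈ (PS p).subgroupOf A, x ≠ 1 ∧ c = ConjClasses.mk x} :=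
    fun i => ⟨ConjClasses.mk (z i), z i, by
      rw [Subgroup.mem_subgroupOf]; exact sk_mem _, by
      intro h
      apply hq1 i
      rw [← hz i, h, orderOf_one], rfl⟩
  have hfi : Function.Injective f := by
    intro i j hij
    apply hqi
    rw [← hz i, ← hz j]
    apply W12_ord
    exact congrArg Subtype.val hij
  have := Nat.card_le_card_of_injective f hfi
  rw [Nat.card_fin] at this
  exact this

end MX
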