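import Pool.Agent.helper81.MX.Defs3

set_option autoImplicit false

namespace MX
open scoped MatrixGroups

theorem W13_mem {p : ℕ} [Fact p.Prime] (g : GL (Fin 2) (ZMod p)) :
    pk g ∈ PS p ↔ IsSquare (g : Matrix (Fin 2) (Fin 2) (ZMod p)).det := by
  constructor
  · rintro ⟨x, hx⟩
    induction x using QuotientGroup.induction_on with | H X =>
    obtain ⟨u, hu⟩ : ∃ u, Matrix.SpecialLinearGroup.toGL X *
        (Matrix.GeneralLinearGroup.scalar (Fin 2)) u = g := by
      simpa [Matrix.ProjGenLinGroup.mk_eq_mk_iff] using hx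
    refine ⟨u, ?_⟩
    rw [← hu]
    simp [Matrix.GeneralLinearGroup.coe_scalar]
    ring
  · rintro ⟨c, hc⟩
    have hc0 : c ≠ 0 := by
      rintro rfl
      rw [mul_zero] at hc
      exact (Matrix.isUnits_det_units g).ne_zero hc
    have hd : (c⁻¹ • (g : Matrix (Fin 2) (Fin 2) (ZMod p))).det = 1 := by
      rw [Matrix.det_smul, hc, Fintype.card_fin]
      field_simp
    have hq : Matrix.ProjGenLinGroup.mk (Matrix.SpecialLinearGroup.toGL
        (⟨c⁻¹ • (g : Matrix (Fin 2) (Fin 2) (ZMod p)), hd⟩ : SL(2, ZMod p))) = pk g := by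
      rw [Matrix.ProjGenLinGroup.mk_eq_mk_iff]
      refine ⟨Units.mk0 c hc0, Units.ext ?_⟩
      have e : ((Matrix.SpecialLinearGroup.toGL
        (⟨c⁻¹ • (g : Matrix (Fin 2) (Fin 2) (ZMod p)), hd⟩ : SL(2, ZMod p)) :
          GL (Fin 2) (ZMod p)) : Matrix (Fin 2) (Fin 2) (ZMod p))
          = c⁻¹ • (g : Matrix (Fin 2) (Fin 2) (ZMod p)) := rfl
      rw [Units.val_mul, e, Matrix.GeneralLinearGroup.coe_scalar, Units.val_mk0]
      ext i j
      fin_cases i <;> fin_cases j <;> simp [Matrix.mul_apply, Fin.sum_univ_two] <;> field_simp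
    rw [← hq]
    exact ⟨_, Matrix.ProjectiveSpecialLinearGroup.toPGL_mk _⟩

/-- W13 -/
theorem dflmrk {p : ℕ} [Fact p.Prime] (hp : 5 ≤ p) (A : Subgroup (PG p)) (hA : PS p ≤ A) :
    (∀ a : A, ∃ l ∈ (PS p).subgroupOf A, a * l ∈ Df ((PS p).subgroupOf A)) ∧
    (∀ a : A, a ∉ (PS p).subgroupOf A → ∃ l ∈ (PS p).subgroupOf A,
      a * l ∉ Df ((PS p).subgroupOf A)) := by
  -- for every nonsquare class there is `l` with `a * l` a given matrix class
  have key : ∀ a : A, a ∉ (PS p).subgroupOf A → ∀ f : ZMod p, ∃ l ∈ (PS p).subgroupOf A,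
      ∃ h : GL (Fin 2) (ZMod p), ∃ e : ZMod p, e ≠ 0 ∧ ¬ IsSquare e ∧
        (h : Matrix (Fin 2) (Fin 2) (ZMod p)) = !![0, e; -1, f] ∧ ((a * l : A) : PG p) = pk h := by
    intro a ha f
    obtain ⟨g, hg⟩ := Matrix.ProjGenLinGroup.mk_surjective (a : PG p)
    have hg' : pk g = (a : PG p) := hg
    have hnsq : ¬ IsSquare (g : Matrix (Fin 2) (Fin 2) (ZMod p)).det := by
      rw [← W13_mem, hg']
      exact fun h => ha (Subgroup.mem_subgroupOf.2 h)
    have he : (g : Matrix (Fin 2) (Fin 2) (ZMod p)).det ≠ 0 := by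
      intro h
      rw [h] at hnsq
      exact hnsq (IsSquare.zero)
    have hdet : (!![0, (g : Matrix (Fin 2) (Fin 2) (ZMod p)).det; -1, f] :
        Matrix (Fin 2) (Fin 2) (ZMod p)).det = (g : Matrix (Fin 2) (Fin 2) (ZMod p)).det := by
      rw [Matrix.det_fin_two_of]; ring
    have hdet0 : (!![0, (g : Matrix (Fin 2) (Fin 2) (ZMod p)).det; -1, f] :
        Matrix (Fin 2) (Fin 2) (ZMod p)).det ≠ 0 := by rw [hdet]; exact he
    have hl : pk (g⁻¹ * Matrix.GeneralLinearGroup.mkOfDetNeZero _ hdet0) ∈ PS p := by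
      rw [W13_mem]
      have e1 : ((g⁻¹ * Matrix.GeneralLinearGroup.mkOfDetNeZero _ hdet0 : GL (Fin 2) (ZMod p)) :
          Matrix (Fin 2) (Fin 2) (ZMod p)).det = 1 := by
        rw [Units.val_mul, Matrix.det_mul]
        have e2 : ((Matrix.GeneralLinearGroup.mkOfDetNeZero _ hdet0 : GL (Fin 2) (ZMod p)) :
          Matrix (Fin 2) (Fin 2) (ZMod p)).det = (g : Matrix (Fin 2) (Fin 2) (ZMod p)).det := hdet
        rw [e2, ← Matrix.det_mul, ← Units.val_mul, inv_mul_cancel, Units.val_one, Matrix.det_one]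
      rw [e1]
      exact IsSquare.one
    refine ⟨⟨_, hA hl⟩, Subgroup.mem_subgroupOf.2 hl,
      Matrix.GeneralLinearGroup.mkOfDetNeZero _ hdet0, _, he, hnsq, rfl, ?_⟩
    rw [Subgroup.coe_mul, ← hg', ← map_mul, mul_inv_cancel_left]
  constructor
  · intro a
    by_cases ha : a ∈ (PS p).subgroupOf A
    · exact ⟨a⁻¹, inv_mem ha, Or.inl (mul_inv_cancel a)⟩
    · obtain ⟨l, hl, h, e, he, -, hh, hal⟩ := key a ha 0
      refine ⟨l, hl, Or.inr ⟨fun hc => ha ?_, ?_⟩⟩
      · exact (Subgroup.mul_mem_cancel_right _ hl).1 hc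
      · apply Subtype.ext
        rw [Subgroup.coe_mul, hal, ← map_mul, Subgroup.coe_one]
        show Matrix.ProjGenLinGroup.mk (h * h) = 1
        have hs : h * h = Matrix.GeneralLinearGroup.scalar (Fin 2) (Units.mk0 (-e) (neg_ne_zero.2 he)) := by
          apply Units.ext
          rw [Units.val_mul, hh, Matrix.GeneralLinearGroup.coe_scalar]
          ext i j
          fin_cases i <;> fin_cases j <;> simp [Matrix.mul_apply, Fin.sum_univ_two]
        rw [hs, Matrix.ProjGenLinGroup.mk_scalar]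
  · intro a ha
    obtain ⟨l, hl, h, e, he, -, hh, hal⟩ := key a ha 1
    refine ⟨l, hl, ?_⟩
    rintro (h1 | ⟨-, h1⟩)
    · exact ha ((Subgroup.mul_mem_cancel_right _ hl).1 (by rw [h1]; exact one_mem _))
    · have h2 : (((a * l) * (a * l) : A) : PG p) = 1 := by rw [h1, Subgroup.coe_one]
      rw [Subgroup.coe_mul, hal, ← map_mul] at h2
      have h3 : Matrix.ProjGenLinGroup.mk (h * h) = 1 := h2
      rw [Matrix.ProjGenLinGroup.mk_eq_one, Matrix.GeneralLinearGroup.center_eq_range_scalar] at h3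
      obtain ⟨u, hu⟩ := h3
      have h4 : (Matrix.GeneralLinearGroup.scalar (Fin 2) u : Matrix (Fin 2) (Fin 2) (ZMod p)) 1 0
          = ((h * h : GL (Fin 2) (ZMod p)) : Matrix (Fin 2) (Fin 2) (ZMod p)) 1 0 := by rw [hu]
      rw [Units.val_mul, hh, Matrix.GeneralLinearGroup.coe_scalar] at h4
      simp [Matrix.mul_apply, Fin.sum_univ_two] at h4

end MX
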