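import Pool.Agent.helper81.MX.Defs3

/-!
W15: the facts on almost simple groups are invariant under isomorphism.
-/

set_option autoImplicit false

namespace MX

section W15

variable {A B : Type*} [Group A] [Group B]

theorem W15_cj (e : A ≃* B) (g : A) (H : Subgroup A) :
    cj (e g) (H.map e.toMonoidHom) = (cj g H).map e.toMonoidHom := by
  ext x
  rw [mem_cj]
  constructor
  · rintro ⟨y, hy, hxy⟩
    refine ⟨g * y * g⁻¹, ?_, ?_⟩
    · have h1 : g * y * g⁻¹ ∈ cj g H := by
        rw [mem_cj]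
        have h2 : g⁻¹ * (g * y * g⁻¹) * g = y := by group
        rw [h2]
        exact hy
      exact h1
    · have h3 : e y = (e g)⁻¹ * x * e g := hxy
      change e (g * y * g⁻¹) = x
      rw [map_mul, map_mul, map_inv, h3]
      group
  · rintro ⟨y, hy, hxy⟩
    have hy' : y ∈ cj g H := hy
    rw [mem_cj] at hy'
    refine ⟨g⁻¹ * y * g, hy', ?_⟩
    have h3 : e y = x := hxy
    change e (g⁻¹ * y * g) = (e g)⁻¹ * x * e g
    rw [map_mul, map_mul, map_inv, h3]

theorem W15_coatom (e : A ≃* B) (H : Subgroup A) :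
    IsCoatom (H.map e.toMonoidHom) ↔ IsCoatom H :=
  (e.mapSubgroup).isCoatom_iff H

theorem W15_map_inj (e : A ≃* B) :
    Function.Injective (fun H : Subgroup A => H.map e.toMonoidHom) :=
  Subgroup.map_injective e.injective

theorem W15_le (e : A ≃* B) (L H : Subgroup A) :
    L.map e.toMonoidHom ≤ H.map e.toMonoidHom ↔ L ≤ H :=
  Subgroup.map_le_map_iff_of_injective e.injective

theorem W15_range (e : A ≃* B) (H : Subgroup A) :
    (fun K : Subgroup A => K.map e.toMonoidHom) '' (Set.range (fun g : A => cj g H)) =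
      Set.range (fun g : B => cj g (H.map e.toMonoidHom)) := by
  ext K
  constructor
  · rintro ⟨K', ⟨g, rfl⟩, rfl⟩
    exact ⟨e g, W15_cj e g H⟩
  · rintro ⟨g, rfl⟩
    refine ⟨cj (e.symm g) H, ⟨e.symm g, rfl⟩, ?_⟩
    have h1 := W15_cj e (e.symm g) H
    rw [e.apply_symm_apply] at h1
    exact h1.symm

theorem W15_mcl (e : A ≃* B) (L : Subgroup A) :
    (mcl A (fun X => ¬ L ≤ X)).ncard = (mcl B (fun X => ¬ L.map e.toMonoidHom ≤ X)).ncard := by
  have hinj : Function.Injective
      (fun S : Set (Subgroup A) => (fun K : Subgroup A => K.map e.toMonoidHom) '' S) :=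
    (W15_map_inj e).image_injective
  rw [← Set.ncard_image_of_injective _ hinj]
  congr 1
  ext S
  constructor
  · rintro ⟨T, ⟨H, hH, hL, rfl⟩, rfl⟩
    refine ⟨H.map e.toMonoidHom, (W15_coatom e H).2 hH, ?_, W15_range e H⟩
    intro h
    exact hL ((W15_le e L H).1 h)
  · rintro ⟨H, hH, hL, rfl⟩
    have h1 : (H.comap e.toMonoidHom).map e.toMonoidHom = H :=
      Subgroup.map_comap_eq_self_of_surjective e.surjective H
    refine ⟨Set.range (fun g : A => cj g (H.comap e.toMonoidHom)),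
      ⟨H.comap e.toMonoidHom, ?_, ?_, rfl⟩, ?_⟩
    · rw [← W15_coatom e, h1]
      exact hH
    · intro h
      apply hL
      rw [← h1]
      exact (W15_le e _ _).2 h
    · have h2 := W15_range e (H.comap e.toMonoidHom)
      rw [h1] at h2
      exact h2

theorem W15_kap (e : A ≃* B) (L : Subgroup A) : kap L = kap (L.map e.toMonoidHom) := by
  unfold kap
  refine Nat.card_congr (Equiv.ofBijective
    (fun c => ⟨ConjClasses.map e.toMonoidHom c.1, ?_⟩) ⟨?_, ?_⟩)
  · obtain ⟨x, hx, hx1, hc⟩ := c.2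
    refine ⟨e x, ⟨x, hx, rfl⟩, ?_, ?_⟩
    · intro h
      exact hx1 (e.map_eq_one_iff.1 h)
    · rw [hc]
      rfl
  · intro c d hcd
    apply Subtype.ext
    have h1 : ConjClasses.map e.toMonoidHom c.1 = ConjClasses.map e.toMonoidHom d.1 :=
      congrArg Subtype.val hcd
    obtain ⟨x, hx⟩ := ConjClasses.exists_rep c.1
    obtain ⟨y, hy⟩ := ConjClasses.exists_rep d.1
    rw [← hx, ← hy] at h1 ⊢
    have h2 : ConjClasses.mk (e x) = ConjClasses.mk (e y) := h1
    rw [ConjClasses.mk_eq_mk_iff_isConj] at h2 ⊢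
    rw [isConj_iff] at h2 ⊢
    obtain ⟨g, hg⟩ := h2
    refine ⟨e.symm g, ?_⟩
    apply e.injective
    rw [map_mul, map_mul, map_inv, e.apply_symm_apply, hg]
  · rintro ⟨c, x, ⟨y, hy, hxy⟩, hx1, hc⟩
    have hxy' : e y = x := hxy
    refine ⟨⟨ConjClasses.mk y, y, hy, ?_, rfl⟩, ?_⟩
    · rintro rfl
      exact hx1 (by rw [← hxy', map_one])
    · apply Subtype.ext
      change ConjClasses.mk (e y) = c
      rw [hc, hxy']

theorem W15_index (e : A ≃* B) (L : Subgroup A) :
    Nat.card (A ⧸ L) = Nat.card (B ⧸ L.map e.toMonoidHom) := by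
  have h := Subgroup.index_map_equiv L e
  unfold Subgroup.index at h
  exact h.symm

theorem W15_df (e : A ≃* B) (L : Subgroup A) (a : A) :
    e a ∈ Df (L.map e.toMonoidHom) ↔ a ∈ Df L := by
  have h1 : e a ∈ L.map e.toMonoidHom ↔ a ∈ L := by
    constructor
    · rintro ⟨y, hy, hxy⟩
      have hxy' : e y = e a := hxy
      rw [← e.injective hxy']
      exact hy
    · intro h
      exact ⟨a, h, rfl⟩
  have h2 : e a = 1 ↔ a = 1 := e.map_eq_one_iff
  have h3 : e a * e a = 1 ↔ a * a = 1 := by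
    rw [← map_mul]
    exact e.map_eq_one_iff
  change (e a = 1 ∨ (e a ∉ L.map e.toMonoidHom ∧ e a * e a = 1)) ↔ (a = 1 ∨ (a ∉ L ∧ a * a = 1))
  rw [h1, h2, h3]

theorem W15_conj {X Y : Type*} [Group X] [Group Y] (f : X ≃* Y) (x : X) :
    MulAut.congr f (MulAut.conj x) = MulAut.conj (f x) := by
  ext y
  change f (x * f.symm y * x⁻¹) = f x * y * (f x)⁻¹
  rw [map_mul, map_mul, map_inv, f.apply_symm_apply]

end W15

/-- W15 -/
theorem Facts_iso {A B : Type*} [Group A] [Group B] [Finite A] (e : A ≃* B) (L : Subgroup A)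
    (M : Subgroup B) (he : L.map e.toMonoidHom = M) (h : Facts M) : Facts L := by
  subst he
  have hf : ∃ f : L ≃* L.map e.toMonoidHom, True := ⟨e.subgroupMap L, trivial⟩
  obtain ⟨f, -⟩ := hf
  refine ⟨?_, ?_, ?_, ?_, ?_, ?_⟩
  · rw [W15_mcl e L, W15_kap e L, W15_index e L]
    exact h.cnt
  · rw [W15_index e L]
    exact h.idx
  · rw [W15_kap e L]
    exact h.three
  · intro a
    obtain ⟨m, ⟨l, hl, hlm⟩, hm⟩ := h.dfl (e a)
    have hlm' : e l = m := hlm
    refine ⟨l, hl, ?_⟩
    rw [← W15_df e L, map_mul, hlm']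
    exact hm
  · intro a ha
    have ha' : e a ∉ L.map e.toMonoidHom := by
      rintro ⟨y, hy, hya⟩
      have hya' : e y = e a := hya
      rw [← e.injective hya'] at ha
      exact ha hy
    obtain ⟨m, ⟨l, hl, hlm⟩, hm⟩ := h.mrk (e a) ha'
    have hlm' : e l = m := hlm
    refine ⟨l, hl, ?_⟩
    rw [← W15_df e L, map_mul, hlm']
    exact hm
  · intro b₁ b₂ b₃
    have key : ∀ b b' : MulAut L, (∃ x : L.map e.toMonoidHom,
        MulAut.congr f b' = MulAut.conj x * MulAut.congr f b) → ∃ x : L, b' = MulAut.conj x * b := by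
      rintro b b' ⟨x, hx⟩
      refine ⟨f.symm x, ?_⟩
      apply (MulAut.congr f).injective
      rw [map_mul, W15_conj, f.apply_symm_apply]
      exact hx
    rcases h.out (MulAut.congr f b₁) (MulAut.congr f b₂) (MulAut.congr f b₃) with h1 | h1 | h1
    · exact Or.inl (key _ _ h1)
    · exact Or.inr (Or.inl (key _ _ h1))
    · exact Or.inr (Or.inr (key _ _ h1))

end MX
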