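import Pool.Agent.helper81.MX.Defs3

set_option autoImplicit false

/-!
Row mx:W16 (helper9). The final theorem is one line after `W16_of`, once AU4, W14, W15 are landed (import them):

theorem Facts_of_Std {A : Type*} [Group A] [Finite A] (L : Subgroup A) (h : Std L) : Facts L :=
  W16_of L (Std_embed L h) (fun hp A hA => Facts_PS hp A hA) (fun e L M he h => Facts_iso e L M he h)
-/

namespace MX
open scoped MatrixGroups

theorem W16_of {A : Type*} [Group A] [Finite A] (L : Subgroup A)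
    (hAU4 : ∃ p : ℕ, p.Prime ∧ 5 ≤ p ∧ ∃ e : A →* PG p, Function.Injective e ∧ L.map e = PS p)
    (hW14 : ∀ {p : ℕ} [Fact p.Prime], 5 ≤ p → ∀ A : Subgroup (PG p), PS p ≤ A →
      Facts ((PS p).subgroupOf A))
    (hW15 : ∀ {B : Type} [Group B] (e : A ≃* B) (L : Subgroup A)
      (M : Subgroup B), L.map e.toMonoidHom = M → Facts M → Facts L) : Facts L := by
  obtain ⟨p, hp, hp5, e, he, hL⟩ := hAU4
  have : Fact p.Prime := ⟨hp⟩
  have hA : PS p ≤ e.range := by
    rw [← hL]
    rintro _ ⟨x, _, rfl⟩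
    exact ⟨x, rfl⟩
  refine hW15 (MonoidHom.ofInjective he) L ((PS p).subgroupOf e.range) ?_ (hW14 hp5 e.range hA)
  ext x
  rw [Subgroup.mem_subgroupOf, ← hL]
  constructor
  · rintro ⟨a, ha, rfl⟩
    exact ⟨a, ha, rfl⟩
  · rintro ⟨a, ha, hax⟩
    exact ⟨a, ha, Subtype.ext hax⟩

end MX
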