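import Pool.Agent.helper81.MX.W03
import Pool.Agent.helper81.MX.W05
import Pool.Agent.helper81.MX.W06
import Pool.Agent.helper81.MX.W07
import Pool.Agent.helper81.MX.W08
import Pool.Agent.helper81.MX.W09
import Pool.Agent.helper81.MX.W10
import Pool.Agent.helper81.MX.W11
import Pool.Agent.helper81.MX.W12
import Pool.Agent.helper81.MX.W13
import Pool.Agent.helper81.MX.W15
import Pool.Agent.helper81.MX.W16
import Pool.Agent.helper81.MX.AU4
import Pool.Agent.helper81.MX.AU5
import Pool.Agent.helper81.MX.S02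

set_option autoImplicit false

namespace MX
open scoped MatrixGroups

/-- W09 -/
theorem cntPS {p : ℕ} [Fact p.Prime] (hp : 5 ≤ p) :
    2 * (mcl (PS p) (fun X => ¬ (PS p).subgroupOf (PS p) ≤ X)).ncard ≤ p + 3 := by
  haveI : Finite (PG p) := Quotient.finite _
  exact cntPS_of hp inferInstance (PS_basic hp).2.2.2.2.2.1
    (fun X hX h => max_types hp (PS p) le_rfl X hX h) (cntU hp (PS p) le_rfl)
    (fun sq => cntD hp (PS p) le_rfl sq) (cntK hp (PS p) le_rfl) (cntI hp (PS p) le_rfl)

/-- W10 -/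
theorem cntPG {p : ℕ} [Fact p.Prime] (hp : 5 ≤ p) :
    (mcl (⊤ : Subgroup (PG p)) (fun X => ¬ (PS p).subgroupOf ⊤ ≤ X)).ncard ≤ 4 :=
  W10_of (fun A hA X hX h => max_types hp A hA X hX h) (cntU hp) (cntD hp) (cntK hp) (cntI hp)

/-- W14 -/
theorem Facts_PS {p : ℕ} [Fact p.Prime] (hp : 5 ≤ p) (A : Subgroup (PG p)) (hA : PS p ≤ A) :
    Facts ((PS p).subgroupOf A) := by
  haveI : Finite (PG p) := Quotient.finite _
  have hidx : (PS p).index = 2 := (PS_basic hp).2.1
  have hrel : (PS p).relIndex A * A.index = 2 := by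
    rw [Subgroup.relIndex_mul_index hA, hidx]
  have hq : Nat.card (A ⧸ (PS p).subgroupOf A) = (PS p).relIndex A := rfl
  have hpos : 0 < (PS p).relIndex A := by
    rcases Nat.eq_zero_or_pos ((PS p).relIndex A) with h | h
    · rw [h] at hrel; omega
    · exact h
  have hle : (PS p).relIndex A ≤ 2 := by
    apply Nat.le_of_dvd (by norm_num)
    exact ⟨A.index, hrel.symm⟩
  refine ⟨?_, ?_, kap3 hp A hA, (dflmrk hp A hA).1, (dflmrk hp A hA).2, out_PS hp A hA⟩
  · rw [hq]
    rcases (show (PS p).relIndex A = 1 ∨ (PS p).relIndex A = 2 by omega) with h | h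
    · have hAS : A = PS p := le_antisymm (Subgroup.relIndex_eq_one.1 h) hA
      subst hAS
      have h1 := cntPS (p := p) hp
      have h2 := kapPS (p := p) hp
      omega
    · have hAT : A = ⊤ := by
        rw [← Subgroup.index_eq_one]
        rw [h] at hrel; omega
      subst hAT
      have h1 := cntPG (p := p) hp
      have h2 := kap3 hp (⊤ : Subgroup (PG p)) hA
      omega
  · rw [hq]; exact hle

/-- W16 -/
theorem Facts_of_Std {A : Type*} [Group A] [Finite A] (L : Subgroup A) (h : Std L) : Facts L :=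
  W16_of L (Std_embed L h) (fun hp A hA => Facts_PS hp A hA) (fun e L M he h => Facts_iso e L M he h)

end MX
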