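import Pool.Agent.helper81.MX.R04

/-!
The number of classes of maximal subgroups as the cardinality of `mcl`.
-/

set_option autoImplicit false

namespace MX

theorem mcl_top_eq (G : Type) [Group G] :
    (mcl G (fun H => ¬ (⊤ : Subgroup G) ≤ H)).ncard =
      Nat.card {S : Set (Subgroup G) // ∃ H : Subgroup G, IsCoatom H ∧
        S = Set.range (fun g : G => H.map (MulAut.conj g).toMonoidHom)} := by
  have h : mcl G (fun H => ¬ (⊤ : Subgroup G) ≤ H) =
      {S : Set (Subgroup G) | ∃ H : Subgroup G, IsCoatom H ∧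
        S = Set.range (fun g : G => H.map (MulAut.conj g).toMonoidHom)} := by
    ext S
    constructor
    · rintro ⟨H, h1, _, h2⟩
      exact ⟨H, h1, h2⟩
    · rintro ⟨H, h1, h2⟩
      exact ⟨H, h1, fun h => h1.1 (top_le_iff.mp h), h2⟩
  rw [h]
  rfl

theorem mcl_mono {G : Type*} [Group G] [Finite G] (P Q : Subgroup G → Prop)
    (h : ∀ H, IsCoatom H → P H → Q H) : (mcl G P).ncard ≤ (mcl G Q).ncard := by
  apply Set.ncard_le_ncard
  · rintro S ⟨H, h1, h2, h3⟩
    exact ⟨H, h1, h H h1 h2, h3⟩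
  · exact Set.toFinite _

theorem rel_final {G : Type} [Group G] [Finite G] (N : Subgroup G) [N.Normal] (h : RI G N) :
    Nat.card {S : Set (Subgroup G) // ∃ H : Subgroup G, IsCoatom H ∧
        S = Set.range (fun g : G => H.map (MulAut.conj g).toMonoidHom)} +
      Nat.card (ConjClasses (G ⧸ N)) ≤
    Nat.card {S : Set (Subgroup (G ⧸ N)) // ∃ H : Subgroup (G ⧸ N), IsCoatom H ∧
        S = Set.range (fun g : G ⧸ N => H.map (MulAut.conj g).toMonoidHom)} +
      Nat.card (ConjClasses G) := by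
  rw [← mcl_top_eq G, ← mcl_top_eq (G ⧸ N)]
  have h2 := mcl_step N (⊤ : Subgroup G) le_top
  have h3 : (mcl (G ⧸ N) (fun H => ¬ (⊤ : Subgroup G).map (QuotientGroup.mk' N) ≤ H)).ncard ≤
      (mcl (G ⧸ N) (fun H => ¬ (⊤ : Subgroup (G ⧸ N)) ≤ H)).ncard := by
    apply mcl_mono
    intro H hH _ h
    exact hH.1 (top_le_iff.mp h)
  have h1 : (mcl G (fun H => ¬ N ≤ H)).ncard + Nat.card (ConjClasses (G ⧸ N)) ≤
      Nat.card (ConjClasses G) := h
  omega

end MX
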