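import Pool.Agent.helper81.MX.Defs

set_option autoImplicit false

namespace MX

theorem R06_kk_top {G : Type} [Group G] [Finite G] : kk (G ⧸ (⊤ : Subgroup G)) = 1 := by
  have hs : Subsingleton (G ⧸ (⊤ : Subgroup G)) := by
    refine ⟨fun a b => ?_⟩
    induction a using QuotientGroup.induction_on with
    | H a =>
      induction b using QuotientGroup.induction_on with
      | H b => exact QuotientGroup.eq.2 (Subgroup.mem_top _)
  have h2 : Subsingleton (ConjClasses (G ⧸ (⊤ : Subgroup G))) := by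
    refine ⟨fun a b => ?_⟩
    obtain ⟨x, rfl⟩ := ConjClasses.exists_rep a
    obtain ⟨y, rfl⟩ := ConjClasses.exists_rep b
    rw [Subsingleton.elim x y]
  have h3 : Nonempty (ConjClasses (G ⧸ (⊤ : Subgroup G))) := ⟨ConjClasses.mk 1⟩
  exact Nat.card_eq_one_iff_unique.2 ⟨h2, h3⟩

theorem main_of_RI {G : Type} [Group G] [Finite G] (h : RI G ⊤) :
    Nat.card {S : Set (Subgroup G) // ∃ H : Subgroup G, IsCoatom H ∧
          S = Set.range (fun g : G => H.map (MulAut.conj g).toMonoidHom)}
        < Nat.card (ConjClasses G) := by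
  unfold RI at h
  rw [R06_kk_top] at h
  have e : mcl G (fun H => ¬ (⊤ : Subgroup G) ≤ H) = {S : Set (Subgroup G) | ∃ H : Subgroup G,
      IsCoatom H ∧ S = Set.range (fun g : G => H.map (MulAut.conj g).toMonoidHom)} := by
    ext S
    constructor
    · rintro ⟨H, h1, -, h3⟩
      exact ⟨H, h1, h3⟩
    · rintro ⟨H, h1, h3⟩
      exact ⟨H, h1, fun h4 => h1.1 (top_le_iff.1 h4), h3⟩
  rw [e, ← Nat.card_coe_set_eq] at h
  exact h

end MX
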