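import Pool.Agent.helper81.MX.Defs4

/-!
Row mx:A02 (helper23).
-/

set_option autoImplicit false

namespace MX

open scoped MatrixGroups

theorem A02_dualM {W : Type*} [AddCommGroup W] [Finite W] (p : ℕ) [Fact p.Prime]
    (iM : Module (ZMod p) W) : Nat.card (W →ₗ[ZMod p] ZMod p) = Nat.card W := by
  have iF : Module.Finite (ZMod p) W := Module.Finite.of_finite
  have iB : Module.Free (ZMod p) W := inferInstance
  let b : Module.Basis (Fin (Module.finrank (ZMod p) W)) (ZMod p) W := Module.finBasis (ZMod p) W
  exact Nat.card_congr b.toDualEquiv.toEquiv.symm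

theorem A02_dual {W : Type*} [AddCommGroup W] [Finite W] (p : ℕ) [Fact p.Prime]
    (hp : ∀ w : W, p • w = 0) : Nat.card (W →+ ZMod p) = Nat.card W := by
  let iM : Module (ZMod p) W := AddCommGroup.zmodModule hp
  let e1 : (W →+ ZMod p) ≃ (W →ₗ[ZMod p] ZMod p) :=
    { toFun := fun f => f.toZModLinearMap p
      invFun := fun f => f.toAddMonoidHom
      left_inv := fun f => by ext; rfl
      right_inv := fun f => by ext; rfl }
  rw [Nat.card_congr e1]
  exact A02_dualM p iM

/-- A02 -/
theorem lin_count {V : Type*} [AddCommGroup V] [Finite V] (p : ℕ) [Fact p.Prime]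
    (hp : ∀ v : V, p • v = 0) (g h : V →+ V) :
    Nat.card {x : V × V // x.1 + g x.2 = x.2 + h x.1} =
      Nat.card V * Nat.card {l : V →+ ZMod p // (∀ v, l (g v) = l v) ∧ ∀ v, l (h v) = l v} := by
  let Φ : V × V →+ V :=
    { toFun := fun x => (x.1 - h x.1) - (x.2 - g x.2)
      map_zero' := by simp
      map_add' := by
        intro x y
        simp only [Prod.fst_add, Prod.snd_add, map_add]
        abel }
  have hΦ : ∀ u v : V, Φ (u, v) = (u - h u) - (v - g v) := fun _ _ => rfl
  -- the left set is the kernel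
  have h1 : Nat.card {x : V × V // x.1 + g x.2 = x.2 + h x.1} = Nat.card Φ.ker := by
    refine Nat.card_congr (Equiv.subtypeEquivRight fun x => ?_)
    rw [AddMonoidHom.mem_ker]
    have : Φ x = (x.1 + g x.2) - (x.2 + h x.1) := by
      rw [show x = (x.1, x.2) from rfl, hΦ]
      abel
    rw [this, sub_eq_zero]
  -- the forms are the forms on the quotient
  let e : {l : V →+ ZMod p // (∀ v, l (g v) = l v) ∧ ∀ v, l (h v) = l v} ≃
      (V ⧸ Φ.range →+ ZMod p) :=
    { toFun := fun l => QuotientAddGroup.lift Φ.range l.1 (by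
        rintro _ ⟨⟨u, v⟩, rfl⟩
        rw [AddMonoidHom.mem_ker, hΦ, map_sub, map_sub, map_sub, l.2.1, l.2.2]
        simp)
      invFun := fun f => ⟨f.comp (QuotientAddGroup.mk' Φ.range), by
        constructor
        · intro v
          have h2 : (QuotientAddGroup.mk' Φ.range) (g v) = (QuotientAddGroup.mk' Φ.range) v := by
            rw [← sub_eq_zero, ← map_sub, ← AddMonoidHom.mem_ker, QuotientAddGroup.ker_mk']
            refine ⟨(0, v), ?_⟩
            rw [hΦ]
            simp
          rw [AddMonoidHom.comp_apply, AddMonoidHom.comp_apply, h2]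
        · intro v
          have h2 : (QuotientAddGroup.mk' Φ.range) (h v) = (QuotientAddGroup.mk' Φ.range) v := by
            rw [← sub_eq_zero, ← map_sub, ← AddMonoidHom.mem_ker, QuotientAddGroup.ker_mk']
            refine ⟨(-v, 0), ?_⟩
            rw [hΦ, map_neg, map_zero]
            abel
          rw [AddMonoidHom.comp_apply, AddMonoidHom.comp_apply, h2]⟩
      left_inv := fun l => by
        apply Subtype.ext
        ext v
        rfl
      right_inv := fun f => by
        ext v
        rfl }
  have h3 : Nat.card {l : V →+ ZMod p // (∀ v, l (g v) = l v) ∧ ∀ v, l (h v) = l v} =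
      Nat.card (V ⧸ Φ.range) := by
    rw [Nat.card_congr e]
    refine A02_dual p fun w => ?_
    obtain ⟨v, rfl⟩ := QuotientAddGroup.mk'_surjective Φ.range w
    rw [← map_nsmul, hp, map_zero]
  rw [h1, h3]
  have h4 := Φ.ker.card_eq_card_quotient_mul_card_addSubgroup
  have h5 := Φ.range.card_eq_card_quotient_mul_card_addSubgroup
  have h6 : Nat.card ((V × V) ⧸ Φ.ker) = Nat.card Φ.range :=
    Nat.card_congr (QuotientAddGroup.quotientKerEquivRange Φ).toEquiv
  rw [h6, Nat.card_prod] at h4
  have h7 : 0 < Nat.card Φ.range := Nat.card_pos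
  have h8 : Nat.card Φ.range * Nat.card Φ.ker =
      Nat.card Φ.range * (Nat.card V * Nat.card (V ⧸ Φ.range)) := by
    rw [← h4]
    calc Nat.card V * Nat.card V = Nat.card V * (Nat.card (V ⧸ Φ.range) * Nat.card Φ.range) := by
          rw [← h5]
      _ = _ := by ring
  exact Nat.eq_of_mul_eq_mul_left h7 h8

end MX
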