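import Pool.Agent.helper81.MX.A02

/-! Row A03: commuting pairs in the semidirect product. -/

set_option autoImplicit false

namespace MX
open scoped MatrixGroups

/-- Commuting pairs of the semidirect product. -/
def A03_e1 {H V : Type*} [Group H] [AddCommGroup V] [DistribMulAction H V] :
    {x : SD H V × SD H V // Commute x.1 x.2} ≃
      Σ x : {x : H × H // x.1 * x.2 = x.2 * x.1},
        {y : V × V // y.1 + DistribSMul.toAddMonoidHom V x.1.1 y.2 =
          y.2 + DistribSMul.toAddMonoidHom V x.1.2 y.1} where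
  toFun x := ⟨⟨(x.1.1.right, x.1.2.right), by
      have := congrArg SemidirectProduct.right x.2.eq
      simpa using this⟩,
    ⟨(Multiplicative.toAdd x.1.1.left, Multiplicative.toAdd x.1.2.left), by
      have := congrArg (fun z => Multiplicative.toAdd (SemidirectProduct.left z)) x.2.eq
      exact this⟩⟩
  invFun y := ⟨(⟨Multiplicative.ofAdd y.2.1.1, y.1.1.1⟩, ⟨Multiplicative.ofAdd y.2.1.2, y.1.1.2⟩), by
      refine SemidirectProduct.ext ?_ ?_
      · exact congrArg Multiplicative.ofAdd y.2.2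
      · exact y.1.2⟩
  left_inv x := rfl
  right_inv y := rfl

/-- Triples. -/
def A03_e2 {H V : Type*} [Group H] [AddCommGroup V] [DistribMulAction H V] (p : ℕ) :
    {x : H × H × (V →+ ZMod p) // x.1 * x.2.1 = x.2.1 * x.1 ∧
      (∀ v, x.2.2 (x.1 • v) = x.2.2 v) ∧ ∀ v, x.2.2 (x.2.1 • v) = x.2.2 v} ≃
      Σ x : {x : H × H // x.1 * x.2 = x.2 * x.1},
        {l : V →+ ZMod p // (∀ v, l (DistribSMul.toAddMonoidHom V x.1.1 v) = l v) ∧
          ∀ v, l (DistribSMul.toAddMonoidHom V x.1.2 v) = l v} where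
  toFun x := ⟨⟨(x.1.1, x.1.2.1), x.2.1⟩, ⟨x.1.2.2, x.2.2⟩⟩
  invFun y := ⟨(y.1.1.1, y.1.1.2, y.2.1), y.1.2, y.2.2⟩
  left_inv x := rfl
  right_inv y := rfl

/-- A03 -/
theorem comm_SD {H V : Type*} [Group H] [AddCommGroup V] [DistribMulAction H V] [Finite H] [Finite V]
    (p : ℕ) [Fact p.Prime] (hp : ∀ v : V, p • v = 0) :
    kk (SD H V) * Nat.card H = Nat.card {x : H × H × (V →+ ZMod p) // x.1 * x.2.1 = x.2.1 * x.1 ∧
      (∀ v, x.2.2 (x.1 • v) = x.2.2 v) ∧ ∀ v, x.2.2 (x.2.1 • v) = x.2.2 v} := by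
  classical
  haveI := Fintype.ofFinite H
  haveI : Fintype {x : H × H // x.1 * x.2 = x.2 * x.1} := Fintype.ofFinite _
  haveI : Finite (V →+ ZMod p) := DFunLike.finite _
  have h1 := card_comm_eq_card_conjClasses_mul_card (SD H V)
  have hSD : Nat.card (SD H V) = Nat.card V * Nat.card H := by
    have e : SD H V ≃ V × H := ⟨fun x => (Multiplicative.toAdd x.left, x.right),
      fun y => ⟨Multiplicative.ofAdd y.1, y.2⟩, fun _ => rfl, fun _ => rfl⟩
    rw [Nat.card_congr e, Nat.card_prod]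
  rw [hSD, Nat.card_congr A03_e1, Nat.card_sigma] at h1
  rw [Nat.card_congr (A03_e2 p), Nat.card_sigma]
  have hV : 0 < Nat.card V := Nat.card_pos
  apply Nat.eq_of_mul_eq_mul_left hV
  rw [Finset.mul_sum]
  have h2 : ∀ x : {x : H × H // x.1 * x.2 = x.2 * x.1},
      Nat.card {y : V × V // y.1 + DistribSMul.toAddMonoidHom V x.1.1 y.2 =
          y.2 + DistribSMul.toAddMonoidHom V x.1.2 y.1} =
      Nat.card V * Nat.card {l : V →+ ZMod p //
        (∀ v, l (DistribSMul.toAddMonoidHom V x.1.1 v) = l v) ∧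
          ∀ v, l (DistribSMul.toAddMonoidHom V x.1.2 v) = l v} := fun x =>
    lin_count p hp _ _
  simp only [h2] at h1
  rw [h1]
  unfold kk
  ring

end MX
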