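import Pool.Agent.helper81.MX.Defs4
import Pool.Agent.helper81.MX.A05
import Pool.Agent.helper81.MX.A06

set_option autoImplicit false

namespace MX
open scoped MatrixGroups

/-- A23 -/
theorem star_all
    (hquot : ∀ (G : Type) [Group G] (N : Subgroup G) [N.Normal], Good G → Good (G ⧸ N))
    (hfaith : ∀ {H V : Type} [Group H] [Finite H] [AddCommGroup V] [Finite V] [DistribMulAction H V],
      Good H → Irr H V → Fth H V → ∀ (p : ℕ) [Fact p.Prime], (∀ v : V, p • v = 0) →
      h1 H V ≤ Dn H V p)
    {H V : Type} [Group H] [Finite H] [AddCommGroup V] [Finite V] [DistribMulAction H V]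
    (hG : Good H) (hirr : Irr H V) (p : ℕ) [Fact p.Prime]
    (hp : ∀ v : V, p • v = 0) : h1 H V ≤ Dn H V p := by
  let f : H →* Multiplicative (AddAut V) := DistribMulAction.toAddAut H V
  let e : (H ⧸ f.ker) →* Multiplicative (AddAut V) := QuotientGroup.kerLift f
  let act : DistribMulAction (H ⧸ f.ker) V :=
    { smul := fun x v => (Multiplicative.toAdd (e x)) v
      one_smul := fun v => by
        show (Multiplicative.toAdd (e 1)) v = v
        rw [map_one]
        rfl
      mul_smul := fun x y v => by
        show (Multiplicative.toAdd (e (x * y))) v =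
          (Multiplicative.toAdd (e x)) ((Multiplicative.toAdd (e y)) v)
        rw [map_mul]
        rfl
      smul_zero := fun x => map_zero (Multiplicative.toAdd (e x))
      smul_add := fun x a b => map_add (Multiplicative.toAdd (e x)) a b }
  let q : H →* H ⧸ f.ker := QuotientGroup.mk' f.ker
  have hq : Function.Surjective q := QuotientGroup.mk'_surjective _
  have hact : ∀ (h : H) (v : V), h • v = q h • v := fun h v => rfl
  have hirr' : Irr (H ⧸ f.ker) V := by
    refine ⟨hirr.1, fun U hU => hirr.2 U fun h v hv => ?_⟩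
    rw [hact]
    exact hU (q h) v hv
  have hF : Fth (H ⧸ f.ker) V := by
    intro x hx
    apply QuotientGroup.kerLift_injective f
    rw [map_one]
    apply Multiplicative.toAdd.injective
    apply AddEquiv.ext
    intro v
    exact hx v
  have h1' := hfaith (hquot H f.ker hG) hirr' hF p hp
  calc h1 H V ≤ Nat.card (PhiS V q) * h1 (H ⧸ f.ker) V := h1_le_Phi q hq hact
    _ ≤ Nat.card (PhiS V q) * Dn (H ⧸ f.ker) V p := Nat.mul_le_mul_left _ h1'
    _ ≤ Dn H V p := Phi_le_Dn q hq hact hirr' p hp

end MX
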