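import Pool.Agent.helper81.MX.Defs3
import Pool.Agent.helper81.MX.S02

set_option autoImplicit false

/-!
Rows mx:AU4, mx:AU5, from the statement of AU3 (`aut_PS`).
-/

namespace MX
open scoped MatrixGroups

/-- the statement of AU3 for one prime -/
def AU45_st (p : ℕ) : Prop :=
  ∀ β : MulAut (PS p), ∃ k : PG p, ∀ x : PS p, ((β x : PS p) : PG p) = k * x * k⁻¹

theorem AU45_uniq {p : ℕ} (hc : ∀ a : PG p, (∀ x ∈ PS p, a * x = x * a) → a = 1) (k k' : PG p)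
    (h : ∀ x : PS p, k * (x : PG p) * k⁻¹ = k' * x * k'⁻¹) : k = k' := by
  have h1 : k'⁻¹ * k = 1 := by
    apply hc
    intro x hx
    have h2 := h ⟨x, hx⟩
    simp only at h2
    have h3 : k'⁻¹ * (k * x * k⁻¹) * k = k'⁻¹ * (k' * x * k'⁻¹) * k := by rw [h2]
    have e1 : k'⁻¹ * (k * x * k⁻¹) * k = k'⁻¹ * k * x := by group
    have e2 : k'⁻¹ * (k' * x * k'⁻¹) * k = x * (k'⁻¹ * k) := by group
    rw [e1, e2] at h3
    exact h3
  have h4 := congrArg (fun z => k' * z) h1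
  simpa using h4

/-- AU4 from AU3 -/
theorem Std_embed_of {A : Type*} [Group A] (L : Subgroup A) (h : Std L)
    (hAU3 : ∀ p : ℕ, p.Prime → 5 ≤ p → AU45_st p) :
    ∃ p : ℕ, p.Prime ∧ 5 ≤ p ∧ ∃ e : A →* PG p, Function.Injective e ∧ L.map e = PS p := by
  obtain ⟨hN, hcent, p, hp, hp5, ⟨φ⟩⟩ := h
  haveI : Fact p.Prime := ⟨hp⟩
  haveI := hN
  obtain ⟨-, -, -, hc, -, -, -, ⟨ψ⟩⟩ := PS_basic (p := p) hp5
  let θ : L ≃* PS p := φ.trans ψ.symm
  let β : A → MulAut (PS p) := fun a => (θ.symm.trans ((MulAut.conjNormal a : MulAut L).trans θ))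
  have hβ : ∀ (a : A) (x : PS p), β a x = θ (MulAut.conjNormal a (θ.symm x)) := fun _ _ => rfl
  choose k hk using fun a => hAU3 p hp hp5 (β a)
  have hmul : ∀ a b : A, k (a * b) = k a * k b := by
    intro a b
    apply AU45_uniq hc
    intro x
    rw [← hk]
    have e1 : β (a * b) x = β a (β b x) := by
      rw [hβ, hβ, hβ, MulEquiv.symm_apply_apply, map_mul, MulAut.mul_apply]
    rw [e1, hk, hk]
    group
  let e : A →* PG p := MonoidHom.mk' k hmul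
  have hL : ∀ l : L, k (l : A) = (θ l : PG p) := by
    intro l
    apply AU45_uniq hc
    intro x
    rw [← hk, hβ]
    have e1 : MulAut.conjNormal (l : A) (θ.symm x) = l * θ.symm x * l⁻¹ := by
      apply Subtype.ext
      rw [MulAut.conjNormal_apply]
      rfl
    rw [e1, map_mul, map_mul, map_inv, MulEquiv.apply_symm_apply]
    rfl
  refine ⟨p, hp, hp5, e, ?_, ?_⟩
  · rw [injective_iff_map_eq_one]
    intro a ha
    apply hcent
    intro x hx
    have h1 : β a (θ ⟨x, hx⟩) = θ ⟨x, hx⟩ := by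
      apply Subtype.ext
      rw [hk]
      have h2 : k a = 1 := ha
      rw [h2]
      group
    rw [hβ, MulEquiv.symm_apply_apply] at h1
    have h3 := congrArg Subtype.val (θ.injective h1)
    rw [MulAut.conjNormal_apply] at h3
    simp only at h3
    exact mul_inv_eq_iff_eq_mul.1 h3
  · ext y
    constructor
    · rintro ⟨l, hl, rfl⟩
      have h1 := hL ⟨l, hl⟩
      change k l ∈ PS p
      rw [h1]
      exact (θ ⟨l, hl⟩).2
    · intro hy
      refine ⟨θ.symm ⟨y, hy⟩, (θ.symm ⟨y, hy⟩).2, ?_⟩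
      change k (θ.symm ⟨y, hy⟩ : A) = y
      rw [hL, MulEquiv.apply_symm_apply]

/-- AU5 from AU3 -/
theorem out_PS_of {p : ℕ} [Fact p.Prime] (hp : 5 ≤ p) (hAU3 : AU45_st p) (A : Subgroup (PG p))
    (hA : PS p ≤ A) (b₁ b₂ b₃ : MulAut ((PS p).subgroupOf A)) :
    (∃ x : (PS p).subgroupOf A, b₂ = MulAut.conj x * b₁) ∨
    (∃ x : (PS p).subgroupOf A, b₃ = MulAut.conj x * b₁) ∨
    (∃ x : (PS p).subgroupOf A, b₃ = MulAut.conj x * b₂) := by
  obtain ⟨-, hidx, -, -, -, -, -, -⟩ := PS_basic (p := p) hp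
  let ι : (PS p).subgroupOf A ≃* PS p := Subgroup.subgroupOfEquivOfLe hA
  have hk : ∀ b : MulAut ((PS p).subgroupOf A), ∃ k : PG p, ∀ y : (PS p).subgroupOf A,
      (ι (b y) : PG p) = k * (ι y : PG p) * k⁻¹ := by
    intro b
    obtain ⟨k, hk⟩ := hAU3 (ι.symm.trans ((b : (PS p).subgroupOf A ≃* (PS p).subgroupOf A).trans ι))
    refine ⟨k, fun y => ?_⟩
    rw [← hk (ι y)]
    change (ι (b y) : PG p) = (ι (b (ι.symm (ι y))) : PG p)
    rw [MulEquiv.symm_apply_apply]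
  have key : ∀ (b b' : MulAut ((PS p).subgroupOf A)) (k k' : PG p),
      (∀ y, (ι (b y) : PG p) = k * (ι y : PG p) * k⁻¹) →
      (∀ y, (ι (b' y) : PG p) = k' * (ι y : PG p) * k'⁻¹) → (k' ∈ PS p ↔ k ∈ PS p) →
      ∃ x : (PS p).subgroupOf A, b' = MulAut.conj x * b := by
    intro b b' k k' h h' hiff
    have hs : k' * k⁻¹ ∈ PS p := by
      rw [Subgroup.mul_mem_iff_of_index_two hidx, inv_mem_iff]
      exact hiff
    refine ⟨ι.symm ⟨k' * k⁻¹, hs⟩, ?_⟩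
    ext y : 1
    apply ι.injective
    apply Subtype.ext
    rw [h', MulAut.mul_apply, MulAut.conj_apply, map_mul, map_mul, map_inv,
      MulEquiv.apply_symm_apply]
    change _ = k' * k⁻¹ * (ι (b y) : PG p) * (k' * k⁻¹)⁻¹
    rw [h]
    group
  obtain ⟨k₁, h1⟩ := hk b₁
  obtain ⟨k₂, h2⟩ := hk b₂
  obtain ⟨k₃, h3⟩ := hk b₃
  by_cases c1 : k₁ ∈ PS p <;> by_cases c2 : k₂ ∈ PS p <;> by_cases c3 : k₃ ∈ PS p
  · exact Or.inl (key b₁ b₂ k₁ k₂ h1 h2 (by tauto))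
  · exact Or.inl (key b₁ b₂ k₁ k₂ h1 h2 (by tauto))
  · exact Or.inr (Or.inl (key b₁ b₃ k₁ k₃ h1 h3 (by tauto)))
  · exact Or.inr (Or.inr (key b₂ b₃ k₂ k₃ h2 h3 (by tauto)))
  · exact Or.inr (Or.inr (key b₂ b₃ k₂ k₃ h2 h3 (by tauto)))
  · exact Or.inr (Or.inl (key b₁ b₃ k₁ k₃ h1 h3 (by tauto)))
  · exact Or.inl (key b₁ b₂ k₁ k₂ h1 h2 (by tauto))
  · exact Or.inl (key b₁ b₂ k₁ k₂ h1 h2 (by tauto))

end MX
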