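import Pool.Agent.helper81.MX.Defs5
import Pool.Agent.helper81.MX.M02
import Pool.Agent.helper81.MX.M03
import Pool.Agent.helper81.MX.M04
import Pool.Agent.helper81.MX.M07

/-!
# Row B07 of project MX
-/

set_option autoImplicit false

namespace MX

open scoped MatrixGroups

section B07

variable {G : Type*} [Group G]

theorem B07_match {N M : Subgroup G} (hN : N.Normal) (h2 : M ⊔ N = ⊤) (g : G) :
    ∃ m ∈ M, m⁻¹ * g ∈ N := by
  have h : g ∈ M ⊔ N := by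
    rw [h2]
    exact Subgroup.mem_top g
  obtain ⟨m, hm, n, hn, h3⟩ := Subgroup.mem_sup_of_normal_right.1 h
  refine ⟨m, hm, ?_⟩
  rw [← h3, inv_mul_cancel_left]
  exact hn

theorem B07_CT (L : Subgroup G) {t c : G} (ht : t ∈ TT L) (hc : c ∈ CC L) :
    t⁻¹ * c * t ∈ CC L := by
  rw [Subgroup.mem_centralizer_iff] at hc ⊢
  intro x hx
  have h1 : t * x * t⁻¹ ∈ (L : Set G) := (Subgroup.mem_normalizer_iff.1 ht x).1 hx
  have h2 := hc _ h1
  calc x * (t⁻¹ * c * t) = t⁻¹ * ((t * x * t⁻¹) * c) * t := by group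
    _ = t⁻¹ * (c * (t * x * t⁻¹)) * t := by rw [h2]
    _ = t⁻¹ * c * t * x := by group

/-- the main step: matching elements of `M ⊓ T` and `M'` agree modulo `C` -/
theorem B07_main [Finite G] {L N : Subgroup G} (hMf : Mfac L N) (hN : MinN N)
    (M M' : Subgroup G) (h2 : M ⊔ N = ⊤) (h2' : M' ⊔ N = ⊤)
    (h : ∀ m ∈ M, ∀ m' ∈ M', m ∈ TT L → m⁻¹ * m' ∈ N → m⁻¹ * m' ∈ CC L) : SC M M' := by
  classical
  have hNn : N.Normal := hN.1
  obtain ⟨hLN, hNT, _, hcomp, _⟩ := Mfac_basic hMf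
  have hNT' : N ≤ TT L := hNT
  have hCT : CC L ≤ TT L := Subgroup.centralizer_le_normalizer (L : Set G)
  -- representatives
  have hr : ∀ i : G ⧸ TT L, ∃ r r' l : G, r ∈ M ∧ r' ∈ M' ∧ r⁻¹ * r' ∈ N ∧
      (r : G ⧸ TT L) = i ∧ (r' : G ⧸ TT L) = i ∧ l ∈ L ∧ l⁻¹ * (r⁻¹ * r') ∈ CC L := by
    intro i
    obtain ⟨g, rfl⟩ := QuotientGroup.mk_surjective i
    obtain ⟨m, hm, hmg⟩ := B07_match hNn h2 g
    obtain ⟨m', hm', hmg'⟩ := B07_match hNn h2' m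
    have h3 : m⁻¹ * m' ∈ N := by
      have h4 := N.inv_mem hmg'
      rwa [mul_inv_rev, inv_inv] at h4
    obtain ⟨l, hl, hlc⟩ := hcomp _ h3
    refine ⟨m, m', l, hm, hm', h3, ?_, ?_, hl, hlc⟩
    · exact QuotientGroup.eq.2 (hNT' hmg)
    · apply QuotientGroup.eq.2
      have h4 : m'⁻¹ * g = (m'⁻¹ * m) * (m⁻¹ * g) := by group
      rw [h4]
      exact (TT L).mul_mem (hNT' hmg') (hNT' hmg)
  choose r r' l hrM hr'M hrr hri hri' hl hlc using hr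
  obtain ⟨y, hyN, hy, _⟩ := comp_exists hMf r (by
    intro i j hij h4
    apply hij
    rw [← hri i, ← hri j]
    exact QuotientGroup.eq.2 h4) l hl
  -- y g_i = g_i' c_i
  have hc : ∀ i, (r' i)⁻¹ * y * r i ∈ CC L := by
    intro i
    have h4 := (CC L).mul_mem ((CC L).inv_mem (hlc i)) (hy i)
    have e : ((l i)⁻¹ * ((r i)⁻¹ * r' i))⁻¹ * ((l i)⁻¹ * ((r i)⁻¹ * y * r i)) =
      (r' i)⁻¹ * y * r i := by group
    rwa [e] at h4
  have key : ∀ m ∈ M, ∀ m' ∈ M', m⁻¹ * m' ∈ N → y * m * y⁻¹ = m' := by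
    intro m hm m' hm' hmm
    have hz : m'⁻¹ * (y * m * y⁻¹) = 1 := by
      apply comp_unique hN hMf
      · have e : m'⁻¹ * (y * m * y⁻¹) = (m'⁻¹ * y * m'⁻¹⁻¹) * (m⁻¹ * m')⁻¹ * y⁻¹ := by group
        rw [e]
        exact N.mul_mem (N.mul_mem (hNn.conj_mem _ hyN _) (N.inv_mem hmm)) (N.inv_mem hyN)
      · intro g
        obtain ⟨j, hj⟩ : ∃ j : G ⧸ TT L, j = (g : G ⧸ TT L) := ⟨_, rfl⟩
        obtain ⟨i, hi⟩ : ∃ i : G ⧸ TT L, i = ((m * r j : G) : G ⧸ TT L) := ⟨_, rfl⟩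
        have hs : (r' j)⁻¹ * g ∈ TT L := by
          rw [← QuotientGroup.eq, hri' j, hj]
        have ht : (r i)⁻¹ * (m * r j) ∈ TT L := by
          rw [← QuotientGroup.eq, hri i, hi]
        have htM : (r i)⁻¹ * (m * r j) ∈ M :=
          M.mul_mem (M.inv_mem (hrM i)) (M.mul_mem hm (hrM j))
        have htM' : (r' i)⁻¹ * (m' * r' j) ∈ M' :=
          M'.mul_mem (M'.inv_mem (hr'M i)) (M'.mul_mem hm' (hr'M j))
        have htt : ((r i)⁻¹ * (m * r j))⁻¹ * ((r' i)⁻¹ * (m' * r' j)) ∈ N := by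
          have e : ((r i)⁻¹ * (m * r j))⁻¹ * ((r' i)⁻¹ * (m' * r' j)) =
            ((r j)⁻¹ * (m⁻¹ * (r i * (r' i)⁻¹) * m) * r j) *
              ((r j)⁻¹ * (m⁻¹ * m') * r j) * ((r j)⁻¹ * r' j) := by group
          have a1 : r i * (r' i)⁻¹ ∈ N := by
            have h5 := hNn.conj_mem _ (N.inv_mem (hrr i)) (r' i)
            have e2 : r' i * ((r i)⁻¹ * r' i)⁻¹ * (r' i)⁻¹ = r i * (r' i)⁻¹ := by group
            rwa [e2] at h5
          have a2 := hNn.conj_mem _ a1 m⁻¹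
          rw [inv_inv] at a2
          have a3 := hNn.conj_mem _ a2 (r j)⁻¹
          rw [inv_inv] at a3
          have a4 := hNn.conj_mem _ hmm (r j)⁻¹
          rw [inv_inv] at a4
          rw [e]
          exact N.mul_mem (N.mul_mem a3 a4) (hrr j)
        have hstar := h _ htM _ htM' ht htt
        have hci := B07_CT L ht (hc i)
        have hcj := hc j
        have hw : (r' j)⁻¹ * (m'⁻¹ * (y * m * y⁻¹)) * r' j ∈ CC L := by
          have h5 := (CC L).mul_mem ((CC L).mul_mem ((CC L).inv_mem hstar) hci)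
            ((CC L).inv_mem hcj)
          have e : (((r i)⁻¹ * (m * r j))⁻¹ * ((r' i)⁻¹ * (m' * r' j)))⁻¹ *
              (((r i)⁻¹ * (m * r j))⁻¹ * ((r' i)⁻¹ * y * r i) * ((r i)⁻¹ * (m * r j))) *
              ((r' j)⁻¹ * y * r j)⁻¹ = (r' j)⁻¹ * (m'⁻¹ * (y * m * y⁻¹)) * r' j := by group
          rwa [e] at h5
        have h6 := B07_CT L hs hw
        have e : ((r' j)⁻¹ * g)⁻¹ * ((r' j)⁻¹ * (m'⁻¹ * (y * m * y⁻¹)) * r' j) *
            ((r' j)⁻¹ * g) = g⁻¹ * (m'⁻¹ * (y * m * y⁻¹)) * g := by group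
        rwa [e] at h6
    rw [← eq_inv_mul_iff_mul_eq] at hz
    rw [mul_one, inv_inv] at hz
    exact hz
  refine ⟨y, ?_⟩
  ext x
  rw [mem_cj]
  constructor
  · intro hx
    obtain ⟨m', hm', hmm⟩ := B07_match hNn h2' (y⁻¹ * x * y)
    have h3 : (y⁻¹ * x * y)⁻¹ * m' ∈ N := by
      have h4 := N.inv_mem hmm
      rwa [mul_inv_rev, inv_inv] at h4
    have h4 := key _ hx _ hm' h3
    have e : y * (y⁻¹ * x * y) * y⁻¹ = x := by group
    rw [e] at h4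
    rw [h4]
    exact hm'
  · intro hx
    obtain ⟨m, hm, hmm⟩ := B07_match hNn h2 x
    have h4 := key _ hm _ hx hmm
    rw [← h4]
    have e : y⁻¹ * (y * m * y⁻¹) * y = m := by group
    rw [e]
    exact hm

end B07

theorem compl_conj {G : Type*} [Group G] [Finite G] {L N : Subgroup G} (hMf : Mfac L N)
    (hN : MinN N) (M M' : Subgroup G) (h1 : M ⊓ N = ⊥) (h2 : M ⊔ N = ⊤) (h1' : M' ⊓ N = ⊥)
    (h2' : M' ⊔ N = ⊤) (l : G) (hl : l ∈ L)
    (h : ∀ m ∈ M, ∀ m' ∈ M', m ∈ TT L → m⁻¹ * m' ∈ N →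
      pa L m' = pa L l * pa L m * (pa L l)⁻¹) : SC M M' := by
  have hNn : N.Normal := hN.1
  obtain ⟨hLN, hNT, _, _, _⟩ := Mfac_basic hMf
  have hNT' : N ≤ TT L := hNT
  obtain ⟨pmul, _, pinv, pone, _⟩ := pa_basic L
  have hlT : l ∈ TT L := Subgroup.le_normalizer hl
  have hlN : l ∈ N := hLN hl
  have h3 : cj l M ⊔ N = ⊤ := by
    rw [eq_top_iff]
    intro g _
    obtain ⟨m, hm, hmg⟩ := B07_match hNn h2 g
    rw [Subgroup.mem_sup_of_normal_right]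
    refine ⟨l * m * l⁻¹, ?_, (l * m * l⁻¹)⁻¹ * g, ?_, by group⟩
    · rw [mem_cj]
      have e : l⁻¹ * (l * m * l⁻¹) * l = m := by group
      rw [e]
      exact hm
    · have e : (l * m * l⁻¹)⁻¹ * g = l * (m⁻¹ * l⁻¹ * m⁻¹⁻¹) * (m⁻¹ * g) := by group
      rw [e]
      exact N.mul_mem (N.mul_mem hlN (hNn.conj_mem _ (N.inv_mem hlN) _)) hmg
  obtain ⟨y, hy⟩ := B07_main hMf hN (cj l M) M' h3 h2' (by
    intro m hm m' hm' hmT hmm
    rw [mem_cj] at hm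
    have hm0T : l⁻¹ * m * l ∈ TT L := (TT L).mul_mem ((TT L).mul_mem ((TT L).inv_mem hlT) hmT) hlT
    have hmm0 : (l⁻¹ * m * l)⁻¹ * m' ∈ N := by
      have e : (l⁻¹ * m * l)⁻¹ * m' = l⁻¹ * (m⁻¹ * l * m⁻¹⁻¹) * (m⁻¹ * m') := by group
      rw [e]
      exact N.mul_mem (N.mul_mem (N.inv_mem hlN) (hNn.conj_mem _ hlN _)) hmm
    have h4 := h _ hm _ hm' hm0T hmm0
    have hm'T : m' ∈ TT L := by
      have e : m' = m * (m⁻¹ * m') := by group
      rw [e]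
      exact (TT L).mul_mem hmT (hNT' hmm)
    have h5 : pa L (l⁻¹ * m * l) = (pa L l)⁻¹ * pa L m * pa L l := by
      rw [pmul _ ((TT L).mul_mem ((TT L).inv_mem hlT) hmT) _ hlT,
        pmul _ ((TT L).inv_mem hlT) _ hmT, pinv _ hlT]
    rw [h5] at h4
    have h6 : pa L m' = pa L m := by
      rw [h4]
      group
    have h7 : pa L (m⁻¹ * m') = 1 := by
      rw [pmul _ ((TT L).inv_mem hmT) _ hm'T, pinv _ hmT, h6, inv_mul_cancel]
    exact (pone _ ((TT L).mul_mem ((TT L).inv_mem hmT) hm'T)).1 h7)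
  refine ⟨y * l, ?_⟩
  rw [← hy]
  ext x
  rw [mem_cj, mem_cj, mem_cj]
  have e : (y * l)⁻¹ * x * (y * l) = l⁻¹ * (y⁻¹ * x * y) * l := by group
  rw [e]

end MX
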