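import Pool.Agent.helper81.MX.Defs5
import Pool.Agent.helper81.MX.R02
import Pool.Agent.helper81.MX.B06
import Pool.Agent.helper81.MX.B08
import Pool.Agent.helper81.MX.B09

/-!
# Row B10 of project MX
-/

set_option autoImplicit false

namespace MX

/-- B10 -/
theorem case2a_count {G : Type*} [Group G] [Finite G] {L N : Subgroup G} (hMf : Mfac L N)
    (hN : MinN N)
    (hout : ∀ b₁ b₂ b₃ : MulAut (LA L), (∃ x : LA L, b₂ = MulAut.conj x * b₁) ∨
      (∃ x : LA L, b₃ = MulAut.conj x * b₁) ∨ (∃ x : LA L, b₃ = MulAut.conj x * b₂)) :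
    (mcl G (fun M => ¬ N ≤ M ∧ imA L M = ⊤ ∧ M ⊓ N ≤ CC L)).ncard ≤ 2 * (QQ L N).ncard := by
  refine mcl_le_two _ (fun M => N ⊔ (M ⊓ CC L)) (QQ L N) (Set.toFinite _) ?_ ?_
  · intro H hH hP
    have h := case2a_compl hMf hN H hH hP.1 hP.2.2
    exact key_mem hMf hN H h.1 h.2 hP.2.1
  · intro H₁ H₂ H₃ hH₁ hP₁ hH₂ hP₂ hH₃ hP₃ e1 e2
    have h1 := case2a_compl hMf hN H₁ hH₁ hP₁.1 hP₁.2.2
    have h2 := case2a_compl hMf hN H₂ hH₂ hP₂.1 hP₂.2.2
    have h3 := case2a_compl hMf hN H₃ hH₃ hP₃.1 hP₃.2.2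
    have e3 : N ⊔ (H₁ ⊓ CC L) = N ⊔ (H₂ ⊓ CC L) := e1
    have e4 : N ⊔ (H₂ ⊓ CC L) = N ⊔ (H₃ ⊓ CC L) := e2
    have h := case2a_three hMf hN hout ![H₁, H₂, H₃] ?_ ?_ ?_ ?_
    · exact h
    · intro i
      fin_cases i
      · exact h1.1
      · exact h2.1
      · exact h3.1
    · intro i
      fin_cases i
      · exact h1.2
      · exact h2.2
      · exact h3.2
    · intro i
      fin_cases i
      · exact hP₁.2.1
      · exact hP₂.2.1
      · exact hP₃.2.1
    · intro i j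
      fin_cases i <;> fin_cases j
      · rfl
      · exact e3
      · exact e3.trans e4
      · exact e3.symm
      · rfl
      · exact e4
      · exact (e3.trans e4).symm
      · exact e4.symm
      · rfl

end MX
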