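import Pool.Agent.helper81.MX.B11

set_option autoImplicit false

namespace MX
open scoped MatrixGroups

theorem B12_map {Y L : Type*} [Group Y] [Group L] (hs : IsSimpleGroup L) (c : Y →* L)
    (hc : Function.Surjective c) (K : Subgroup Y) (hK : K.Normal) : K.map c = ⊥ ∨ K.map c = ⊤ :=
  hs.eq_bot_or_eq_top_of_normal _ (Subgroup.Normal.map hK c hc)

theorem B12_two {Y L : Type*} [Group Y] [Group L] (hs : IsSimpleGroup L) (c d : Y →* L)
    (hc : Function.Surjective c) (hd : Function.Surjective d) (hk : c.ker ≠ d.ker) :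
    c.ker.map d = ⊤ := by
  rcases B12_map hs d hd c.ker inferInstance with h | h
  · exfalso
    have h1 : c.ker ≤ d.ker := (Subgroup.map_eq_bot_iff c.ker).1 h
    rcases B12_map hs c hc d.ker inferInstance with h2 | h2
    · exact hk (le_antisymm h1 ((Subgroup.map_eq_bot_iff d.ker).1 h2))
    · have h3 : ∀ y : Y, y ∈ d.ker := by
        intro y
        have h4 : c y ∈ d.ker.map c := by
          rw [h2]
          exact Subgroup.mem_top _
        obtain ⟨k, hk1, hk2⟩ := h4
        have h5 : k⁻¹ * y ∈ c.ker := by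
          rw [MonoidHom.mem_ker, map_mul, map_inv, hk2, inv_mul_cancel]
        have h6 := d.ker.mul_mem hk1 (h1 h5)
        rw [mul_inv_cancel_left] at h6
        exact h6
      obtain ⟨a, b, hab⟩ := hs.exists_pair_ne
      obtain ⟨a', rfl⟩ := hd a
      obtain ⟨b', rfl⟩ := hd b
      exact hab ((MonoidHom.mem_ker.1 (h3 a')).trans (MonoidHom.mem_ker.1 (h3 b')).symm)
  · exact h

theorem B12_many {Y L ι : Type*} [Group Y] [Group L] (hs : IsSimpleGroup L)
    (hnc : ∃ a b : L, a * b ≠ b * a) (c : ι → Y →* L) (hc : ∀ i, Function.Surjective (c i))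
    (hk : ∀ i j, i ≠ j → (c i).ker ≠ (c j).ker) (s : Finset ι) :
    ∀ j, j ∉ s → (⨅ i ∈ s, (c i).ker).map (c j) = ⊤ := by
  classical
  induction s using Finset.induction_on with
  | empty =>
    intro j _
    simp only [Finset.notMem_empty, iInf_false, iInf_top]
    rw [← MonoidHom.range_eq_map]
    exact MonoidHom.range_eq_top.2 (hc j)
  | insert i s his ih =>
    intro j hj
    have hji : j ≠ i := fun h => hj (by rw [h]; exact Finset.mem_insert_self _ _)
    have hjs : j ∉ s := fun h => hj (Finset.mem_insert_of_mem h)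
    have h1 := ih j hjs
    have h2 := B12_two hs (c i) (c j) (hc i) (hc j) (hk i j (Ne.symm hji))
    have hn : (⨅ k ∈ insert i s, (c k).ker).Normal := by
      refine ⟨?_⟩
      intro y hy z
      rw [Subgroup.mem_iInf] at hy ⊢
      intro k
      have := hy k
      rw [Subgroup.mem_iInf] at this ⊢
      intro hks
      exact ((c k).normal_ker).conj_mem y (this hks) z
    rcases B12_map hs (c j) (hc j) _ hn with h | h
    · exfalso
      obtain ⟨a, b, hab⟩ := hnc
      have ha : a ∈ (c i).ker.map (c j) := by rw [h2]; exact Subgroup.mem_top _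
      have hb : b ∈ (⨅ k ∈ s, (c k).ker).map (c j) := by rw [h1]; exact Subgroup.mem_top _
      obtain ⟨y, hy, rfl⟩ := ha
      obtain ⟨z, hz, rfl⟩ := hb
      have hyz : y * z * y⁻¹ * z⁻¹ ∈ (⨅ k ∈ insert i s, (c k).ker) := by
        rw [Subgroup.mem_iInf]
        intro k
        rw [Subgroup.mem_iInf]
        intro hks
        rcases Finset.mem_insert.1 hks with rfl | hks
        · have h3 : z * y⁻¹ * z⁻¹ ∈ (c k).ker :=
            ((c k).normal_ker).conj_mem _ ((c k).ker.inv_mem hy) z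
          have h4 := (c k).ker.mul_mem hy h3
          have e : y * (z * y⁻¹ * z⁻¹) = y * z * y⁻¹ * z⁻¹ := by group
          rw [e] at h4
          exact h4
        · have hz' : z ∈ (⨅ k ∈ s, (c k).ker) := hz
          rw [Subgroup.mem_iInf] at hz'
          have hz2 := hz' k
          rw [Subgroup.mem_iInf] at hz2
          have hz3 := hz2 hks
          exact (c k).ker.mul_mem (((c k).normal_ker).conj_mem z hz3 y) ((c k).ker.inv_mem hz3)
      have h5 : c j (y * z * y⁻¹ * z⁻¹) ∈ (⨅ k ∈ insert i s, (c k).ker).map (c j) :=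
        ⟨_, hyz, rfl⟩
      rw [h, Subgroup.mem_bot] at h5
      simp only [map_mul, map_inv] at h5
      apply hab
      calc c j y * c j z = (c j y * c j z * (c j y)⁻¹ * (c j z)⁻¹) * (c j z * c j y) := by group
        _ = c j z * c j y := by rw [h5, one_mul]
    · exact h

theorem B12_abs {Y L ι : Type*} [Group Y] [Group L] [Finite ι] (hs : IsSimpleGroup L)
    (hnc : ∃ a b : L, a * b ≠ b * a) (c : ι → Y →* L) (hc : ∀ i, Function.Surjective (c i))
    (hk : ∀ i j, i ≠ j → (c i).ker ≠ (c j).ker) (x : ι → L) : ∃ y, ∀ i, c i y = x i := by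
  classical
  have hfin : ∀ s : Finset ι, ∃ y, ∀ i ∈ s, c i y = x i := by
    intro s
    induction s using Finset.induction_on with
    | empty => exact ⟨1, by simp⟩
    | insert j s hj ih =>
      obtain ⟨y, hy⟩ := ih
      have h1 : x j * (c j y)⁻¹ ∈ (⨅ i ∈ s, (c i).ker).map (c j) := by
        rw [B12_many hs hnc c hc hk s j hj]
        exact Subgroup.mem_top _
      obtain ⟨k, hk1, hk2⟩ := h1
      refine ⟨k * y, ?_⟩
      intro i hi
      rcases Finset.mem_insert.1 hi with rfl | hi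
      · rw [map_mul, hk2]
        group
      · have hk' : k ∈ (⨅ i ∈ s, (c i).ker) := hk1
        rw [Subgroup.mem_iInf] at hk'
        have hk3 := hk' i
        rw [Subgroup.mem_iInf] at hk3
        rw [map_mul, MonoidHom.mem_ker.1 (hk3 hi), one_mul, hy i hi]
  have : Fintype ι := Fintype.ofFinite ι
  obtain ⟨y, hy⟩ := hfin Finset.univ
  exact ⟨y, fun i => hy i (Finset.mem_univ i)⟩

/-- the component map -/
theorem B12_cmp {G : Type*} [Group G] {L N : Subgroup G} (hMf : Mfac L N) :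
    ∃ f : N →* L, ∀ (n : N) (l : L), f n = l ↔ (l : G)⁻¹ * n ∈ CC L := by
  obtain ⟨hLN, hNT, hLC, hcomp, -⟩ := Mfac_basic hMf
  have hu : ∀ (n : N) (l l' : L), (l : G)⁻¹ * n ∈ CC L → (l' : G)⁻¹ * n ∈ CC L → l = l' := by
    intro n l l' h h'
    have h1 : (l' : G)⁻¹ * l ∈ CC L := by
      have h2 := (CC L).mul_mem h' ((CC L).inv_mem h)
      have e : (l' : G)⁻¹ * n * ((l : G)⁻¹ * n)⁻¹ = (l' : G)⁻¹ * l := by group
      rw [e] at h2
      exact h2
    have h2 : (l' : G)⁻¹ * l ∈ L ⊓ CC L := ⟨L.mul_mem (L.inv_mem l'.2) l.2, h1⟩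
    rw [hLC, Subgroup.mem_bot] at h2
    exact Subtype.ext (inv_mul_eq_one.1 h2).symm
  have hex : ∀ n : N, ∃ l : L, (l : G)⁻¹ * n ∈ CC L := by
    intro n
    obtain ⟨l, hl, h⟩ := hcomp n n.2
    exact ⟨⟨l, hl⟩, h⟩
  choose f hf using hex
  refine ⟨MonoidHom.mk' f ?_, ?_⟩
  · intro a b
    refine hu (a * b) _ _ (hf (a * b)) ?_
    have h1 : ((f a * f b : L) : G)⁻¹ * ((a * b : N) : G) =
        ((f b : G)⁻¹ * ((f a : G)⁻¹ * a) * f b) * ((f b : G)⁻¹ * b) := by
      push_cast
      group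
    rw [h1]
    exact (CC L).mul_mem (B11_cc (Subgroup.le_normalizer (f b).2) (hf a)) (hf b)
  · intro n l
    constructor
    · intro h
      rw [← h]
      exact hf n
    · intro h
      exact hu n _ _ (hf n) h

/-- B12 -/
theorem Y_indep {G : Type*} [Group G] [Finite G] {L N M : Subgroup G} [N.Normal] (hMf : Mfac L N)
    (hD : DT L N M) {ι : Type*} [Finite ι] (g : ι → G)
    (hg : ∀ i j, i ≠ j → M ⊓ N ⊓ cj (g i) (CC L) ≠ M ⊓ N ⊓ cj (g j) (CC L))
    (x : ι → G) (hx : ∀ i, x i ∈ L) :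
    ∃ y ∈ M ⊓ N, ∀ i, (x i)⁻¹ * ((g i)⁻¹ * y * g i) ∈ CC L := by
  have hNn : N.Normal := inferInstance
  obtain ⟨f, hf⟩ := B12_cmp hMf
  have hmem : ∀ (i : ι) (y : (M ⊓ N : Subgroup G)), (g i)⁻¹ * (y : G) * g i ∈ N := by
    intro i y
    have := hNn.conj_mem y y.2.2 (g i)⁻¹
    simpa using this
  let e : ι → (M ⊓ N : Subgroup G) →* N := fun i =>
    MonoidHom.mk' (fun y => (⟨(g i)⁻¹ * (y : G) * g i, hmem i y⟩ : N)) (by
      intro a b
      apply Subtype.ext
      show (g i)⁻¹ * ((a * b : (M ⊓ N : Subgroup G)) : G) * g i =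
        ((g i)⁻¹ * (a : G) * g i) * ((g i)⁻¹ * (b : G) * g i)
      push_cast
      group)
  have he : ∀ i (y : (M ⊓ N : Subgroup G)), ((e i y : N) : G) = (g i)⁻¹ * (y : G) * g i :=
    fun i y => rfl
  have hsurj : ∀ i, Function.Surjective (f.comp (e i)) := by
    intro i l
    obtain ⟨y, hy, hyl⟩ := Y_onto hMf hD (g i) l l.2
    refine ⟨⟨y, hy⟩, ?_⟩
    rw [MonoidHom.comp_apply, hf, he]
    exact hyl
  have hker : ∀ i (y : (M ⊓ N : Subgroup G)), y ∈ (f.comp (e i)).ker ↔
      (y : G) ∈ M ⊓ N ⊓ cj (g i) (CC L) := by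
    intro i y
    rw [MonoidHom.mem_ker, MonoidHom.comp_apply, hf, he]
    constructor
    · intro h
      refine ⟨y.2, (mem_cj _ _ _).2 ?_⟩
      simpa using h
    · intro h
      have h1 := (mem_cj _ _ _).1 h.2
      simpa using h1
  have hk : ∀ i j, i ≠ j → (f.comp (e i)).ker ≠ (f.comp (e j)).ker := by
    intro i j hij h
    apply hg i j hij
    ext z
    constructor
    · intro hz
      have h1 : (⟨z, hz.1⟩ : (M ⊓ N : Subgroup G)) ∈ (f.comp (e i)).ker := (hker i _).2 hz
      rw [h] at h1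
      exact (hker j _).1 h1
    · intro hz
      have h1 : (⟨z, hz.1⟩ : (M ⊓ N : Subgroup G)) ∈ (f.comp (e j)).ker := (hker j _).2 hz
      rw [← h] at h1
      exact (hker i _).1 h1
  have hnc : ∃ a b : L, a * b ≠ b * a := by
    obtain ⟨a, ha, b, hb, hab⟩ := hMf.nc
    exact ⟨⟨a, ha⟩, ⟨b, hb⟩, fun h => hab (congrArg Subtype.val h)⟩
  obtain ⟨y, hy⟩ := B12_abs hMf.simple hnc (fun i => f.comp (e i)) hsurj hk
    (fun i => ⟨x i, hx i⟩)
  refine ⟨y, y.2, ?_⟩
  intro i
  have h1 := hy i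
  rw [MonoidHom.comp_apply, hf, he] at h1
  exact h1

end MX
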