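import Pool.Agent.helper81.MX.Defs5
import Pool.Agent.helper81.MX.M02
import Pool.Agent.helper81.MX.B15
import Pool.Agent.helper81.MX.B17
import Pool.Agent.helper81.MX.B18
import Pool.Agent.helper81.MX.B19
import Pool.Agent.helper81.MX.B20

set_option autoImplicit false

namespace MX
open scoped MatrixGroups

/-- B21 -/
theorem case2b_three {G : Type*} [Group G] [Finite G] {L N : Subgroup G} [N.Normal]
    (hMf : Mfac L N) (hN : MinN N)
    (hout : ∀ b₁ b₂ b₃ : MulAut (LA L), (∃ x : LA L, b₂ = MulAut.conj x * b₁) ∨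
      (∃ x : LA L, b₃ = MulAut.conj x * b₁) ∨ (∃ x : LA L, b₃ = MulAut.conj x * b₂))
    (M : Fin 3 → Subgroup G) (hD : ∀ i, DT L N (M i))
    (hk : ∀ i j, keyS L N (M i) = keyS L N (M j)) :
    SC (M 0) (M 1) ∨ SC (M 0) (M 2) ∨ SC (M 1) (M 2) := by
  obtain ⟨S, hS⟩ : ∃ S, keyS L N (M 0) = S := ⟨_, rfl⟩
  have hSi : ∀ i, keyS L N (M i) = S := fun i => (hk i 0).trans hS
  have hcov : TT L ⋖ S := by
    have h1 := keyS_cov hMf hN (hD 0)
    rw [hS] at h1
    exact h1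
  have hNT : N ≤ TT L := (Mfac_basic hMf).2.1
  have hNS : N ≤ S := hNT.trans hcov.le
  obtain ⟨s, hsS, hsT⟩ := SetLike.exists_of_lt hcov.lt
  have hm : ∀ i, ∃ m ∈ M i, s⁻¹ * m ∈ N := by
    intro i
    have h1 : N ⊔ M i = ⊤ := by
      refine (hD i).max.2 _ (lt_of_le_of_ne le_sup_right ?_)
      intro h
      apply (hD i).notle
      rw [h]
      exact le_sup_left
    have h2 : s ∈ N ⊔ M i := by
      rw [h1]
      exact Subgroup.mem_top s
    obtain ⟨n, hn, m, hm, rfl⟩ := Subgroup.mem_sup_of_normal_left.1 h2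
    refine ⟨m, hm, ?_⟩
    have h3 : (n * m)⁻¹ * m = m⁻¹ * n⁻¹ * m⁻¹⁻¹ := by group
    rw [h3]
    exact Subgroup.Normal.conj_mem inferInstance _ (N.inv_mem hn) _
  choose m hmM hmN using hm
  have hmS : ∀ i, m i ∈ S := by
    intro i
    have h1 : m i = s * (s⁻¹ * m i) := by group
    rw [h1]
    exact S.mul_mem hsS (hNS (hmN i))
  have hmT : ∀ i, m i ∉ TT L := by
    intro i h
    apply hsT
    have h1 : s = m i * (s⁻¹ * m i)⁻¹ := by group
    rw [h1]
    exact (TT L).mul_mem h ((TT L).inv_mem (hNT (hmN i)))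
  have hmm : ∀ i j, (m i)⁻¹ * m j ∈ N := by
    intro i j
    have h1 : (m i)⁻¹ * m j = (s⁻¹ * m i)⁻¹ * (s⁻¹ * m j) := by group
    rw [h1]
    exact N.mul_mem (N.inv_mem (hmN i)) (hmN j)
  have hb : ∀ i, ∃ b : MulAut (LA L), Sg L N (M i) (m i) b := fun i =>
    Sg_exists hMf (hD i) (m i) (hmM i) (by
      rw [hSi i]
      exact hmS i)
  choose b hb using hb
  have key : ∀ i j, (∃ x : LA L, b j = MulAut.conj x * b i) → SC (M i) (M j) := by
    intro i j hx
    have h1 := Sg_all hMf hN (hD i) (hD j) S (hSi i) (hSi j) hcov (m i) (m j)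
      ⟨hmM i, hmS i⟩ ⟨hmM j, hmS j⟩ (hmm i j) (hmT i) (b i) (b j) (hb i) (hb j) hx
    obtain ⟨x, hxN, hF⟩ := F_conj hMf hN (hD i) (hD j) S (hSi i) (hSi j) h1
    exact keyS_conj hMf hN (hD i) (hD j) S (hSi i) (hSi j) x hxN hF
  rcases hout (b 0) (b 1) (b 2) with h | h | h
  · exact Or.inl (key 0 1 h)
  · exact Or.inr (Or.inl (key 0 2 h))
  · exact Or.inr (Or.inr (key 1 2 h))

end MX
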