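import Pool.Agent.helper81.MX.C07o
import Pool.Agent.helper81.MX.B15
import Pool.Agent.helper81.MX.B21

set_option autoImplicit false

namespace MX
open scoped MatrixGroups

/-- B22 -/
theorem case2b_count {G : Type*} [Group G] [Finite G] {L N : Subgroup G} [N.Normal]
    (hMf : Mfac L N) (hN : MinN N)
    (hout : ∀ b₁ b₂ b₃ : MulAut (LA L), (∃ x : LA L, b₂ = MulAut.conj x * b₁) ∨
      (∃ x : LA L, b₃ = MulAut.conj x * b₁) ∨ (∃ x : LA L, b₃ = MulAut.conj x * b₂)) :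
    (mcl G (fun M => ¬ N ≤ M ∧ imA L M = ⊤ ∧ ¬ M ⊓ N ≤ CC L)).ncard ≤ 2 * (BB L).ncard :=
  case2b_count_of (fun _ hD => keyS_cov hMf hN hD) (fun M hD hk => case2b_three hMf hN hout M hD hk)

end MX
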