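import Pool.Agent.helper81.MX.Defs

/-! Row R03 of MX (MP_8aef6e_al). -/

set_option autoImplicit false

namespace MX

/-- R03 -/
theorem mcl_union_le {G : Type*} [Group G] [Finite G] (P Q R : Subgroup G → Prop)
    (h : ∀ H, IsCoatom H → P H → Q H ∨ R H) :
    (mcl G P).ncard ≤ (mcl G Q).ncard + (mcl G R).ncard := by
  have hsub : mcl G P ⊆ mcl G Q ∪ mcl G R := by
    rintro S ⟨H, hH, hP, rfl⟩
    rcases h H hH hP with hQ | hR
    · exact Or.inl ⟨H, hH, hQ, rfl⟩
    · exact Or.inr ⟨H, hH, hR, rfl⟩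
  exact (Set.ncard_le_ncard hsub (Set.toFinite _)).trans (Set.ncard_union_le _ _)

end MX
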