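import Pool.Agent.helper81.MX.Defs5
import Pool.Agent.helper81.MX.R03
import Pool.Agent.helper81.MX.B05
import Pool.Agent.helper81.MX.B10
import Pool.Agent.helper81.MX.B22

/-!
# Row B23 of project MX
-/

set_option autoImplicit false

namespace MX

/-- B23 -/
theorem upper {G : Type*} [Group G] [Finite G] {L N : Subgroup G} [N.Normal]
    (hMf : Mfac L N) (hN : MinN N)
    (hout : ∀ b₁ b₂ b₃ : MulAut (LA L), (∃ x : LA L, b₂ = MulAut.conj x * b₁) ∨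
      (∃ x : LA L, b₃ = MulAut.conj x * b₁) ∨ (∃ x : LA L, b₃ = MulAut.conj x * b₂)) :
    (mcl G (fun M => ¬ N ≤ M)).ncard ≤ (mcl (AA L) (fun X => ¬ LA L ≤ X)).ncard +
      2 * (QQ L N).ncard + 2 * (BB L).ncard := by
  have h1 := mcl_union_le (G := G) (fun M => ¬ N ≤ M) (fun M => ¬ N ≤ M ∧ imA L M ≠ ⊤)
    (fun M => ¬ N ≤ M ∧ imA L M = ⊤) (fun H _ hH => by
      by_cases h : imA L H = ⊤
      · exact Or.inr ⟨hH, h⟩
      · exact Or.inl ⟨hH, h⟩)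
  have h2 := mcl_union_le (G := G) (fun M => ¬ N ≤ M ∧ imA L M = ⊤)
    (fun M => ¬ N ≤ M ∧ imA L M = ⊤ ∧ M ⊓ N ≤ CC L)
    (fun M => ¬ N ≤ M ∧ imA L M = ⊤ ∧ ¬ M ⊓ N ≤ CC L) (fun H _ hH => by
      by_cases h : H ⊓ N ≤ CC L
      · exact Or.inl ⟨hH.1, hH.2, h⟩
      · exact Or.inr ⟨hH.1, hH.2, h⟩)
  have h3 := case1_count (G := G) hMf
  have h4 := case2a_count hMf hN hout
  have h5 := case2b_count hMf hN hout
  omega

end MX
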