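import Pool.Agent.helper81.MX.Defs5

/-!
Separation of the kernels.
-/

set_option autoImplicit false

namespace MX

/-- the product of the subgroups `Q` and `X`, if `X` normalises `Q` -/
def C04_mul {G : Type*} [Group G] (Q X : Subgroup G) (h : ∀ x ∈ X, ∀ q ∈ Q, x * q * x⁻¹ ∈ Q) :
    Subgroup G where
  carrier := {g | ∃ q ∈ Q, ∃ x ∈ X, g = q * x}
  mul_mem' := by
    rintro a b ⟨q, hq, x, hx, rfl⟩ ⟨q', hq', x', hx', rfl⟩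
    refine ⟨q * (x * q' * x⁻¹), Q.mul_mem hq (h x hx q' hq'), x * x', X.mul_mem hx hx', ?_⟩
    group
  one_mem' := ⟨1, Q.one_mem, 1, X.one_mem, by group⟩
  inv_mem' := by
    rintro a ⟨q, hq, x, hx, rfl⟩
    refine ⟨x⁻¹ * q⁻¹ * (x⁻¹)⁻¹, h _ (X.inv_mem hx) _ (Q.inv_mem hq), x⁻¹, X.inv_mem hx, ?_⟩
    group

theorem C04_gen {G : Type*} [Group G] (T Q X : Subgroup G) (hQT : Q ≤ T)
    (hQn : ∀ t ∈ T, ∀ q ∈ Q, t * q * t⁻¹ ∈ Q)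
    (hmax : ∀ K : Subgroup G, Q ≤ K → K ≤ T → (∀ t ∈ T, ∀ k ∈ K, t * k * t⁻¹ ∈ K) → K = Q ∨ K = T)
    (hXT : X ≤ T) (hXn : ∀ t ∈ T, ∀ x ∈ X, t * x * t⁻¹ ∈ X) (hX : ¬ X ≤ Q) :
    ∀ t ∈ T, ∃ q ∈ Q, ∃ x ∈ X, t = q * x := by
  set K := C04_mul Q X (fun x hx q hq => hQn x (hXT hx) q hq) with hK
  have h1 : Q ≤ K := fun q hq => ⟨q, hq, 1, X.one_mem, by group⟩
  have h2 : K ≤ T := by
    rintro g ⟨q, hq, x, hx, rfl⟩
    exact T.mul_mem (hQT hq) (hXT hx)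
  have h3 : ∀ t ∈ T, ∀ k ∈ K, t * k * t⁻¹ ∈ K := by
    rintro t ht g ⟨q, hq, x, hx, rfl⟩
    refine ⟨t * q * t⁻¹, hQn t ht q hq, t * x * t⁻¹, hXn t ht x hx, ?_⟩
    group
  rcases hmax K h1 h2 h3 with h | h
  · exfalso
    apply hX
    intro x hx
    rw [← h]
    exact ⟨1, Q.one_mem, x, hx, by group⟩
  · intro t ht
    have : t ∈ K := by rw [h]; exact ht
    exact this

theorem C04_step {G : Type*} [Group G] (T Q X Y : Subgroup G) (hQT : Q ≤ T)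
    (hQn : ∀ t ∈ T, ∀ q ∈ Q, t * q * t⁻¹ ∈ Q)
    (hmax : ∀ K : Subgroup G, Q ≤ K → K ≤ T → (∀ t ∈ T, ∀ k ∈ K, t * k * t⁻¹ ∈ K) → K = Q ∨ K = T)
    (hne : ∃ a ∈ T, ∃ b ∈ T, a * b * a⁻¹ * b⁻¹ ∉ Q)
    (hXT : X ≤ T) (hXn : ∀ t ∈ T, ∀ x ∈ X, t * x * t⁻¹ ∈ X) (hX : ¬ X ≤ Q)
    (hYT : Y ≤ T) (hYn : ∀ t ∈ T, ∀ x ∈ Y, t * x * t⁻¹ ∈ Y) (hY : ¬ Y ≤ Q) :
    ¬ X ⊓ Y ≤ Q := by
  intro hle
  obtain ⟨a, ha, b, hb, hab⟩ := hne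
  obtain ⟨q1, hq1, x, hx, rfl⟩ := C04_gen T Q X hQT hQn hmax hXT hXn hX a ha
  obtain ⟨q2, hq2, y, hy, rfl⟩ := C04_gen T Q Y hQT hQn hmax hYT hYn hY b hb
  apply hab
  have hc : x * y * x⁻¹ * y⁻¹ ∈ Q := by
    apply hle
    refine Subgroup.mem_inf.2 ⟨?_, ?_⟩
    · have e : x * y * x⁻¹ * y⁻¹ = x * (y * x⁻¹ * y⁻¹) := by group
      rw [e]
      exact X.mul_mem hx (hXn y (hYT hy) _ (X.inv_mem hx))
    · exact Y.mul_mem (hYn x (hXT hx) _ hy) (Y.inv_mem hy)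
  have e : q1 * x * (q2 * y) * (q1 * x)⁻¹ * (q2 * y)⁻¹ =
      q1 * (x * q2 * x⁻¹) * (x * y * x⁻¹ * y⁻¹) * (y * q1⁻¹ * y⁻¹) * q2⁻¹ := by group
  rw [e]
  exact Q.mul_mem (Q.mul_mem (Q.mul_mem (Q.mul_mem hq1 (hQn x (hXT hx) _ hq2)) hc)
    (hQn y (hYT hy) _ (Q.inv_mem hq1))) (Q.inv_mem hq2)

/-- C04 -/
theorem QQ_sep {G : Type*} [Group G] [Finite G] {L N : Subgroup G} (Q : Subgroup G)
    (hQ : Q ∈ QQ L N) : ∃ y ∈ L ⊔ CC L, y ∉ Q ∧ ∀ Q' ∈ QQ L N, Q' ≠ Q → y ∈ Q' := by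
  classical
  obtain ⟨hNQ, hQT, hQn, hQc, hmax, hne⟩ := hQ
  have hTT : L ⊔ CC L ≤ Subgroup.normalizer (L : Set G) := by
    refine sup_le Subgroup.le_normalizer ?_
    exact Subgroup.centralizer_le_normalizer _
  have hQn' : ∀ t ∈ L ⊔ CC L, ∀ q ∈ Q, t * q * t⁻¹ ∈ Q := fun t ht => hQn t (hTT ht)
  have key : ∀ s : Finset (Subgroup G), (∀ Q' ∈ s, Q' ∈ QQ L N ∧ Q' ≠ Q) →
      ∃ I : Subgroup G, I ≤ L ⊔ CC L ∧ (∀ t ∈ L ⊔ CC L, ∀ x ∈ I, t * x * t⁻¹ ∈ I) ∧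
        (∀ Q' ∈ s, I ≤ Q') ∧ ¬ I ≤ Q := by
    intro s
    induction s using Finset.induction_on with
    | empty =>
      intro _
      refine ⟨L ⊔ CC L, le_rfl, ?_, by simp, ?_⟩
      · intro t ht x hx
        exact Subgroup.mul_mem _ (Subgroup.mul_mem _ ht hx) (Subgroup.inv_mem _ ht)
      · intro hle
        obtain ⟨a, ha, b, hb, hab⟩ := hne
        apply hab
        apply hle
        exact Subgroup.mul_mem _ (Subgroup.mul_mem _ (Subgroup.mul_mem _ ha hb)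
          (Subgroup.inv_mem _ ha)) (Subgroup.inv_mem _ hb)
    | insert Q' s hn ih =>
      intro hs
      obtain ⟨I, hIT, hIn, hIs, hIQ⟩ := ih (fun R hR => hs R (Finset.mem_insert_of_mem hR))
      obtain ⟨⟨hNQ', hQT', hQnn', hQc', _, _⟩, hne'⟩ := hs Q' (Finset.mem_insert_self _ _)
      have hQ'n : ∀ t ∈ L ⊔ CC L, ∀ q ∈ Q', t * q * t⁻¹ ∈ Q' := fun t ht => hQnn' t (hTT ht)
      have hQ'Q : ¬ Q' ≤ Q := by
        intro hle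
        apply hne'
        apply Subgroup.eq_of_le_of_card_ge hle
        rw [hQc, hQc']
      refine ⟨I ⊓ Q', inf_le_left.trans hIT, ?_, ?_, ?_⟩
      · intro t ht x hx
        exact Subgroup.mem_inf.2 ⟨hIn t ht x (Subgroup.mem_inf.1 hx).1,
          hQ'n t ht x (Subgroup.mem_inf.1 hx).2⟩
      · intro R hR
        rcases Finset.mem_insert.1 hR with rfl | hR
        · exact inf_le_right
        · exact inf_le_left.trans (hIs R hR)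
      · exact C04_step (L ⊔ CC L) Q I Q' hQT hQn' hmax hne hIT hIn hIQ hQT' hQ'n hQ'Q
  have hfin : Finite (Subgroup G) := inferInstance
  have hset : {Q' : Subgroup G | Q' ∈ QQ L N ∧ Q' ≠ Q}.Finite := Set.toFinite _
  obtain ⟨I, hIT, _, hIs, hIQ⟩ := key hset.toFinset (fun Q' hQ' => by simpa using hQ')
  obtain ⟨y, hyI, hyQ⟩ := SetLike.not_le_iff_exists.1 hIQ
  refine ⟨y, hIT hyI, hyQ, ?_⟩
  intro Q' hQ' hne'
  exact hIs Q' (by simpa using ⟨hQ', hne'⟩) hyI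

end MX
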