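import Pool.Agent.helper81.MX.Defs5
import Pool.Agent.helper81.MX.M02
import Pool.Agent.helper81.MX.M07
import Pool.Agent.helper81.MX.C01
import Pool.Agent.helper81.MX.C02
import Pool.Agent.helper81.MX.C04

set_option autoImplicit false

namespace MX
open scoped MatrixGroups

theorem C05_normal {G : Type*} [Group G] (L : Subgroup G) : (LA L).Normal := by
  refine ⟨?_⟩
  intro a ha g
  rw [LA, Subgroup.mem_subgroupOf] at ha ⊢
  obtain ⟨x, hx⟩ := ha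
  refine ⟨((g : AA L) : MulAut L) x, ?_⟩
  rw [Subgroup.coe_mul, Subgroup.coe_mul, Subgroup.coe_inv, ← hx]
  ext z
  simp [MulAut.conj_apply]

theorem C05_key {G : Type*} [Group G] {L N : Subgroup G} (hNT : N ≤ TT L)
    (h01' : ∀ g r : G, ((r : G ⧸ TT L) ∈ Mk L g ↔
      r⁻¹ * g * r ∈ TT L ∧ pa L (r⁻¹ * g * r) ∉ Df (LA L)))
    (h02 : ∀ g ∈ TT L, ∀ a : AA L, (pa L g)⁻¹ * a ∈ LA L → ∃ n ∈ N, pa L (g * n) = a ∧
      ∀ i ∈ Mk L (g * n), i = ((1 : G) : G ⧸ TT L))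
    (g : G) (hg : g ∈ TT L) (a : AA L) (ha : (pa L g)⁻¹ * a ∈ LA L) (hD : a ∉ Df (LA L)) :
    ∃ g' : G, g⁻¹ * g' ∈ N ∧ g' ∈ TT L ∧ pa L g' = a ∧ Mk L g' = {((1 : G) : G ⧸ TT L)} := by
  obtain ⟨n, hn, h1, h2⟩ := h02 g hg a ha
  have hgn : g * n ∈ TT L := mul_mem hg (hNT hn)
  refine ⟨g * n, by simpa using hn, hgn, h1, ?_⟩
  refine Set.Subset.antisymm (fun i hi => h2 i hi) ?_
  intro i hi
  rw [Set.mem_singleton_iff] at hi
  rw [hi, h01' (g * n) 1]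
  have e : (1 : G)⁻¹ * (g * n) * 1 = g * n := by group
  rw [e, h1]
  exact ⟨hgn, hD⟩

theorem C05_fix {G : Type*} [Group G] {L : Subgroup G}
    (h01 : ∀ g h : G, Mk L (h * g * h⁻¹) = (fun i : G ⧸ TT L => h • i) '' Mk L g)
    (g g' h : G) (hg : Mk L g = {((1 : G) : G ⧸ TT L)}) (hg' : Mk L g' = {((1 : G) : G ⧸ TT L)})
    (he : h * g * h⁻¹ = g') : h ∈ TT L := by
  have h1 := h01 g h
  rw [he, hg', hg, Set.image_singleton, Set.singleton_eq_singleton_iff] at h1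
  have h2 : ((1 : G) : G ⧸ TT L) = ((h * 1 : G) : G ⧸ TT L) := h1
  rw [QuotientGroup.eq] at h2
  simpa using h2

theorem C05_inj {G : Type*} [Group G] {L N : Subgroup G} (y y' z z' h : G) (Q : Subgroup G)
    (hQ : Q ∈ QQ L N) (hh : h ∈ TT L) (hz : y⁻¹ * z ∈ N) (hz' : y'⁻¹ * z' ∈ N)
    (he : h * z * h⁻¹ = z') : y ∈ Q ↔ y' ∈ Q := by
  have hNQ : N ≤ Q := hQ.1
  have hinv := hQ.2.2.1
  have h1 : y ∈ Q ↔ z ∈ Q := by
    constructor
    · intro hy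
      have := mul_mem hy (hNQ hz)
      simpa using this
    · intro hzz
      have := mul_mem hzz (inv_mem (hNQ hz))
      simpa using this
  have h2 : y' ∈ Q ↔ z' ∈ Q := by
    constructor
    · intro hy
      have := mul_mem hy (hNQ hz')
      simpa using this
    · intro hzz
      have := mul_mem hzz (inv_mem (hNQ hz'))
      simpa using this
  rw [h1, h2]
  constructor
  · intro hzz
    rw [← he]
    exact hinv h hh z hzz
  · intro hzz
    have := hinv h⁻¹ (inv_mem hh) z' hzz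
    rw [← he] at this
    have e : h⁻¹ * (h * z * h⁻¹) * h⁻¹⁻¹ = z := by group
    rwa [e] at this

theorem C05_of {G : Type*} [Group G] [Finite G] {L N : Subgroup G} [N.Normal] (hMf : Mfac L N)
    (hm : ∀ a : AA L, a ∉ LA L → ∃ l ∈ LA L, a * l ∉ Df (LA L))
    (hi : Nat.card (AA L ⧸ LA L) ≤ 2)
    (h01 : ∀ g h : G, Mk L (h * g * h⁻¹) = (fun i : G ⧸ TT L => h • i) '' Mk L g)
    (h01' : ∀ g r : G, ((r : G ⧸ TT L) ∈ Mk L g ↔
      r⁻¹ * g * r ∈ TT L ∧ pa L (r⁻¹ * g * r) ∉ Df (LA L)))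
    (h02 : ∀ g ∈ TT L, ∀ a : AA L, (pa L g)⁻¹ * a ∈ LA L → ∃ n ∈ N, pa L (g * n) = a ∧
      ∀ i ∈ Mk L (g * n), i = ((1 : G) : G ⧸ TT L))
    (h04 : ∀ Q ∈ QQ L N, ∃ y ∈ L ⊔ CC L, y ∉ Q ∧ ∀ Q' ∈ QQ L N, Q' ≠ Q → y ∈ Q') :
    kap (LA L) * (1 + (QQ L N).ncard) + (Nat.card (AA L ⧸ LA L) - 1) ≤ (Zm L 1).ncard := by
  classical
  have hNT : N ≤ TT L := (Mfac_basic hMf).2.1
  obtain ⟨hpm, hp1, hpi, hpc, hps, hpL, hpLs, hpv, hpLC, hpI⟩ := pa_basic L
  have hLA : (LA L).Normal := C05_normal L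
  have hLC : L ⊔ CC L ≤ TT L :=
    sup_le Subgroup.le_normalizer (Subgroup.centralizer_le_normalizer (L : Set G))
  -- the y's
  choose yq hyq1 hyq2 hyq3 using h04
  let y : Option (QQ L N) → G := fun o => match o with
    | none => 1
    | some Q => yq Q.1 Q.2
  have hy1 : ∀ o, y o ∈ L ⊔ CC L := by
    rintro (_ | Q)
    · exact one_mem _
    · exact hyq1 Q.1 Q.2
  have hyne : ∀ o o', (∀ Q ∈ QQ L N, (y o ∈ Q ↔ y o' ∈ Q)) → o = o' := by
    rintro (_ | Q) (_ | Q') hoo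
    · rfl
    · exact absurd ((hoo Q'.1 Q'.2).1 (one_mem _)) (hyq2 Q'.1 Q'.2)
    · exact absurd ((hoo Q.1 Q.2).2 (one_mem _)) (hyq2 Q.1 Q.2)
    · by_contra hne
      have hne' : Q.1 ≠ Q'.1 := fun hc => hne (by rw [Subtype.ext hc])
      exact hyq2 Q.1 Q.2 ((hoo Q.1 Q.2).2 (hyq3 Q'.1 Q'.2 Q.1 Q.2 hne'))
  -- the a's
  let K := {c : ConjClasses (AA L) // ∃ x ∈ LA L, x ≠ 1 ∧ c = ConjClasses.mk x}
  have hK : ∀ c : K, ∃ x ∈ LA L, x ≠ 1 ∧ c.1 = ConjClasses.mk x := fun c => c.2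
  choose rp hrp1 hrp2 hrp3 using hK
  have hDf : ∀ c : K, rp c ∉ Df (LA L) := by
    intro c hc
    rcases hc with hc | hc
    · exact hrp2 c hc
    · exact hc.1 (hrp1 c)
  have hex : ∀ x : K × Option (QQ L N), ∃ g' : G, (y x.2)⁻¹ * g' ∈ N ∧ g' ∈ TT L ∧
      pa L g' = rp x.1 ∧ Mk L g' = {((1 : G) : G ⧸ TT L)} := by
    intro x
    refine C05_key hNT h01' h02 (y x.2) (hLC (hy1 x.2)) (rp x.1) ?_ (hDf x.1)
    exact mul_mem (inv_mem ((hpLC _ (hLC (hy1 x.2))).2 (hy1 x.2))) (hrp1 x.1)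
  choose F hF1 hF2 hF3 hF4 using hex
  have hmem : ∀ g : G, Mk L g = {((1 : G) : G ⧸ TT L)} → ConjClasses.mk g ∈ Zm L 1 := by
    intro g hg
    exact ⟨g, rfl, by rw [hg, Set.ncard_singleton]⟩
  have hinj : ∀ x x', ConjClasses.mk (F x) = ConjClasses.mk (F x') → x = x' := by
    intro x x' hxx
    rw [ConjClasses.mk_eq_mk_iff_isConj, isConj_iff] at hxx
    obtain ⟨h, hh⟩ := hxx
    have hT := C05_fix h01 (F x) (F x') h (hF4 x) (hF4 x') hh
    refine Prod.ext ?_ ?_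
    · refine Subtype.ext ?_
      rw [hrp3 x.1, hrp3 x'.1, ConjClasses.mk_eq_mk_iff_isConj, isConj_iff]
      refine ⟨pa L h, ?_⟩
      rw [← hF3 x, ← hF3 x', ← hh, hpm _ (mul_mem hT (hF2 x)) _ (inv_mem hT), hpm _ hT _ (hF2 x),
        hpi _ hT]
    · exact hyne _ _ (fun Q hQ => C05_inj (y x.2) (y x'.2) (F x) (F x') h Q hQ hT (hF1 x) (hF1 x') hh)
  have hfinZ : (Zm L 1).Finite := Set.toFinite _
  have hcard : Nat.card (K × Option (QQ L N)) = kap (LA L) * (1 + (QQ L N).ncard) := by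
    rw [Nat.card_prod, Finite.card_option, Nat.card_coe_set_eq, add_comm]
    rfl
  by_cases h2 : Nat.card (AA L ⧸ LA L) ≤ 1
  · have e0 : Nat.card (AA L ⧸ LA L) - 1 = 0 := by omega
    rw [e0, add_zero, ← hcard, ← Nat.card_coe_set_eq]
    refine Nat.card_le_card_of_injective
      (fun x => (⟨ConjClasses.mk (F x), hmem _ (hF4 x)⟩ : Zm L 1)) ?_
    intro x x' hxx
    exact hinj x x' (congrArg Subtype.val hxx)
  · have e1 : Nat.card (AA L ⧸ LA L) - 1 = 1 := by omega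
    have hnt : ∃ a : AA L, a ∉ LA L := by
      by_contra hc
      push Not at hc
      apply h2
      have : Subsingleton (AA L ⧸ LA L) := by
        refine ⟨fun u v => ?_⟩
        obtain ⟨u, rfl⟩ := QuotientGroup.mk_surjective u
        obtain ⟨v, rfl⟩ := QuotientGroup.mk_surjective v
        exact QuotientGroup.eq.2 (hc _)
      exact Finite.card_le_one_iff_subsingleton.2 this
    obtain ⟨a0, ha0⟩ := hnt
    obtain ⟨l, hl, hla⟩ := hm a0 ha0
    have haL : a0 * l ∉ LA L := fun hc => ha0 (by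
      have := mul_mem hc (inv_mem hl)
      simpa using this)
    obtain ⟨g0, hg0, hg0a⟩ := hps (a0 * l)
    obtain ⟨g1, hg1, hg1T, hg1a, hg1M⟩ := C05_key hNT h01' h02 g0 hg0 (a0 * l)
      (by rw [hg0a, inv_mul_cancel]; exact one_mem _) hla
    have hne : ∀ x, ConjClasses.mk (F x) ≠ ConjClasses.mk g1 := by
      intro x hxx
      rw [ConjClasses.mk_eq_mk_iff_isConj, isConj_iff] at hxx
      obtain ⟨h, hh⟩ := hxx
      have hT := C05_fix h01 (F x) g1 h (hF4 x) hg1M hh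
      apply haL
      rw [← hg1a, ← hh, hpm _ (mul_mem hT (hF2 x)) _ (inv_mem hT), hpm _ hT _ (hF2 x), hpi _ hT,
        hF3 x]
      exact hLA.conj_mem _ (hrp1 x.1) _
    rw [e1, ← hcard, ← Finite.card_option, ← Nat.card_coe_set_eq]
    refine Nat.card_le_card_of_injective
      (fun o : Option (K × Option (QQ L N)) => match o with
        | none => (⟨ConjClasses.mk g1, hmem _ hg1M⟩ : Zm L 1)
        | some x => (⟨ConjClasses.mk (F x), hmem _ (hF4 x)⟩ : Zm L 1)) ?_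
    rintro (_ | x) (_ | x') hxx
    · rfl
    · exact absurd (congrArg Subtype.val hxx).symm (hne x')
    · exact absurd (congrArg Subtype.val hxx) (hne x)
    · rw [hinj x x' (congrArg Subtype.val hxx)]

/-- C05 -/
theorem Z1_count {G : Type*} [Group G] [Finite G] {L N : Subgroup G} [N.Normal] (hMf : Mfac L N)
    (hd : ∀ a : AA L, ∃ l ∈ LA L, a * l ∈ Df (LA L))
    (hm : ∀ a : AA L, a ∉ LA L → ∃ l ∈ LA L, a * l ∉ Df (LA L))
    (hi : Nat.card (AA L ⧸ LA L) ≤ 2) :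
    kap (LA L) * (1 + (QQ L N).ncard) + (Nat.card (AA L ⧸ LA L) - 1) ≤ (Zm L 1).ncard :=
  C05_of hMf hm hi (fun g h => (Mk_conj L g h).1) (fun g r => (Mk_conj L g 1).2.2 r)
    (fun g hg a ha => (adjust hMf hd g).2 hg a ha) (fun Q hQ => QQ_sep Q hQ)

end MX
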