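import Pool.Agent.helper81.MX.C07o
import Pool.Agent.helper81.MX.C01
import Pool.Agent.helper81.MX.C03
import Pool.Agent.helper81.MX.C05
import Pool.Agent.helper81.MX.C06

set_option autoImplicit false

namespace MX
open scoped MatrixGroups

/-- C07 -/
theorem lower {G : Type*} [Group G] [Finite G] {L N : Subgroup G} [N.Normal] (hMf : Mfac L N)
    (hd : ∀ a : AA L, ∃ l ∈ LA L, a * l ∈ Df (LA L))
    (hm : ∀ a : AA L, a ∉ LA L → ∃ l ∈ LA L, a * l ∉ Df (LA L))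
    (hi : Nat.card (AA L ⧸ LA L) ≤ 2)
    (h2 : ∃ x ∈ L, orderOf x = 2) (h3 : ∃ x ∈ L, orderOf x = 3) :
    kk (G ⧸ N) + kap (LA L) * (1 + (QQ L N).ncard) + (Nat.card (AA L ⧸ LA L) - 1) +
      2 * (BB L).ncard ≤ kk G :=
  lower_of (fun g h => (Mk_conj L g h).2.1) (Z0_count hMf hd) (Z1_count hMf hd hm hi)
    (Z2_count hMf h2 h3)

end MX
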