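import Pool.Agent.helper81.MX.Defs5
import Pool.Agent.helper81.MX.R02

set_option autoImplicit false

namespace MX

/-- C07 from the rows C01, C03, C05, C06. -/
theorem lower_of {G : Type*} [Group G] [Finite G] {L N : Subgroup G} [N.Normal]
    (hconj : ∀ g h : G, (Mk L (h * g * h⁻¹)).ncard = (Mk L g).ncard)
    (h0 : kk (G ⧸ N) ≤ (Zm L 0).ncard)
    (h1 : kap (LA L) * (1 + (QQ L N).ncard) + (Nat.card (AA L ⧸ LA L) - 1) ≤ (Zm L 1).ncard)
    (h2 : 2 * (BB L).ncard ≤ (Zm L 2).ncard) :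
    kk (G ⧸ N) + kap (LA L) * (1 + (QQ L N).ncard) + (Nat.card (AA L ⧸ LA L) - 1) +
      2 * (BB L).ncard ≤ kk G := by
  classical
  haveI : Finite (ConjClasses G) := inferInstanceAs (Finite (Quotient (IsConj.setoid G)))
  have hdis : ∀ i j : ℕ, i ≠ j → Disjoint (Zm L i) (Zm L j) := by
    intro i j hij
    rw [Set.disjoint_left]
    rintro c ⟨g, hg, hgi⟩ ⟨g', hg', hgj⟩
    apply hij
    have hc : IsConj g g' := ConjClasses.mk_eq_mk_iff_isConj.1 (hg.symm.trans hg')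
    obtain ⟨h, hh⟩ := isConj_iff.1 hc
    have := hconj g h
    rw [hh, hgi, hgj] at this
    exact this.symm
  have hu : (Zm L 0 ∪ Zm L 1 ∪ Zm L 2).ncard =
      (Zm L 0).ncard + (Zm L 1).ncard + (Zm L 2).ncard := by
    rw [Set.ncard_union_eq _ (Set.toFinite _) (Set.toFinite _),
      Set.ncard_union_eq (hdis 0 1 (by norm_num)) (Set.toFinite _) (Set.toFinite _)]
    rw [Set.disjoint_union_left]
    exact ⟨hdis 0 2 (by norm_num), hdis 1 2 (by norm_num)⟩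
  have hle : (Zm L 0 ∪ Zm L 1 ∪ Zm L 2).ncard ≤ kk G := by
    have := Set.ncard_le_ncard (Set.subset_univ (Zm L 0 ∪ Zm L 1 ∪ Zm L 2)) (Set.toFinite _)
    rwa [Set.ncard_univ] at this
  omega

/-- B22 from the rows B15, B21. -/
theorem case2b_count_of {G : Type*} [Group G] [Finite G] {L N : Subgroup G}
    (h15 : ∀ M : Subgroup G, DT L N M → keyS L N M ∈ BB L)
    (h21 : ∀ (M : Fin 3 → Subgroup G), (∀ i, DT L N (M i)) →
      (∀ i j, keyS L N (M i) = keyS L N (M j)) →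
      SC (M 0) (M 1) ∨ SC (M 0) (M 2) ∨ SC (M 1) (M 2)) :
    (mcl G (fun M => ¬ N ≤ M ∧ imA L M = ⊤ ∧ ¬ M ⊓ N ≤ CC L)).ncard ≤ 2 * (BB L).ncard := by
  refine mcl_le_two _ (keyS L N) (BB L) (Set.toFinite _) ?_ ?_
  · rintro M hM ⟨a, b, c⟩
    exact h15 M ⟨hM, a, b, c⟩
  · rintro M₁ M₂ M₃ hM₁ ⟨a₁, b₁, c₁⟩ hM₂ ⟨a₂, b₂, c₂⟩ hM₃ ⟨a₃, b₃, c₃⟩ h12 h23
    have d₁ : DT L N M₁ := ⟨hM₁, a₁, b₁, c₁⟩
    have d₂ : DT L N M₂ := ⟨hM₂, a₂, b₂, c₂⟩
    have d₃ : DT L N M₃ := ⟨hM₃, a₃, b₃, c₃⟩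
    have hD : ∀ i : Fin 3, DT L N (![M₁, M₂, M₃] i) := by
      intro i
      fin_cases i
      · exact d₁
      · exact d₂
      · exact d₃
    have hK : ∀ i : Fin 3, keyS L N (![M₁, M₂, M₃] i) = keyS L N M₁ := by
      intro i
      fin_cases i
      · rfl
      · exact h12.symm
      · exact (h12.trans h23).symm
    exact h21 ![M₁, M₂, M₃] hD (fun i j => (hK i).trans (hK j).symm)

end MX
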