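import Pool.Agent.helper81.MX.Defs5

/-!
# Row mx:C09

The assembly of the nonabelian case: the upper bound (row B23, `upper`) and the lower bound (row C07,
`lower`) enter as the hypotheses `hup` and `hlow`, with exactly the conclusions of these rows. Once
B23 and C07 are landed, the statement of the row is one line:

theorem RI_nonabelian {G : Type*} [Group G] [Finite G] {L N : Subgroup G} [N.Normal]
    (hMf : Mfac L N) (hN : MinN N) (hF : Facts (LA L))
    (h2 : ∃ x ∈ L, orderOf x = 2) (h3 : ∃ x ∈ L, orderOf x = 3) : RI G N :=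
  RI_nonabelian_of hF (upper hMf hN hF.out) (lower hMf hF.dfl hF.mrk hF.idx h2 h3)
-/

set_option autoImplicit false

namespace MX
open scoped MatrixGroups

/-- C09, with the conclusions of `upper` and `lower` as hypotheses -/
theorem RI_nonabelian_of {G : Type*} [Group G] [Finite G] {L N : Subgroup G} [N.Normal]
    (hF : Facts (LA L))
    (hup : (mcl G (fun M => ¬ N ≤ M)).ncard ≤ (mcl (AA L) (fun X => ¬ LA L ≤ X)).ncard +
      2 * (QQ L N).ncard + 2 * (BB L).ncard)
    (hlow : kk (G ⧸ N) + kap (LA L) * (1 + (QQ L N).ncard) + (Nat.card (AA L ⧸ LA L) - 1) +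
      2 * (BB L).ncard ≤ kk G) : RI G N := by
  have h1 := hF.cnt
  have h2 := hF.three
  have h3 : 2 * (QQ L N).ncard ≤ kap (LA L) * (QQ L N).ncard :=
    Nat.mul_le_mul_right _ (by omega)
  have h4 : kap (LA L) * (1 + (QQ L N).ncard) = kap (LA L) + kap (LA L) * (QQ L N).ncard := by
    rw [Nat.mul_add, Nat.mul_one]
  rw [h4] at hlow
  unfold RI
  omega

end MX
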