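import Mathlib

/-!
Definitions for MP_8aef6e_al: the number of classes of maximal subgroups against the number of classes of elements.
-/

set_option autoImplicit false

namespace MX

open scoped MatrixGroups

section basic

variable {G : Type*} [Group G]

/-- The conjugate of a subgroup. -/
def cj (g : G) (H : Subgroup G) : Subgroup G := H.map (MulAut.conj g).toMonoidHom

theorem mem_cj (g : G) (H : Subgroup G) (x : G) : x ∈ cj g H ↔ g⁻¹ * x * g ∈ H := by
  constructor
  · rintro ⟨y, hy, rfl⟩
    have : g⁻¹ * ((MulAut.conj g).toMonoidHom y) * g = y := by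
      simp [MulAut.conj_apply]; group
    rw [this]; exact hy
  · intro h
    exact ⟨g⁻¹ * x * g, h, by simp [MulAut.conj_apply]; group⟩

/-- Conjugate subgroups. -/
def SC (H K : Subgroup G) : Prop := ∃ g : G, cj g H = K

/-- The set of conjugacy classes of maximal subgroups with property `P`. -/
def mcl (G : Type*) [Group G] (P : Subgroup G → Prop) : Set (Set (Subgroup G)) :=
  {S | ∃ H : Subgroup G, IsCoatom H ∧ P H ∧ S = Set.range (fun g : G => cj g H)}

/-- The number of conjugacy classes of elements. -/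
noncomputable def kk (G : Type*) [Group G] : ℕ := Nat.card (ConjClasses G)

/-- The relative inequality: `c(G,N) + k(G/N) ≤ k(G)`. -/
def RI (G : Type*) [Group G] (N : Subgroup G) [N.Normal] : Prop :=
  (mcl G (fun H => ¬ N ≤ H)).ncard + kk (G ⧸ N) ≤ kk G

/-- `N` is a minimal normal subgroup. -/
def MinN (N : Subgroup G) : Prop :=
  N.Normal ∧ N ≠ ⊥ ∧ ∀ K : Subgroup G, K.Normal → K ≤ N → K = ⊥ ∨ K = N

/-- `L` is a nonabelian simple factor of the normal subgroup `N`. -/
structure Mfac (L N : Subgroup G) : Prop where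
  simple : IsSimpleGroup L
  nc : ∃ a ∈ L, ∃ b ∈ L, a * b ≠ b * a
  comm : ∀ g : G, cj g L = L ∨ ∀ x ∈ L, ∀ y ∈ cj g L, x * y = y * x
  sup : N = ⨆ g : G, cj g L

end basic

/-- A finite group with a subnormal series whose factors are commutative or `PSL(2,p)`, `p ≥ 5` prime. -/
inductive Good : (G : Type) → [Group G] → Prop
  | triv (G : Type) [Group G] (h : Subsingleton G) : Good G
  | ext (G : Type) [Group G] (N : Subgroup G) [N.Normal] (hN : Good N)
      (hq : (∀ a b : G ⧸ N, a * b = b * a) ∨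
        ∃ p : ℕ, p.Prime ∧ 5 ≤ p ∧ Nonempty ((G ⧸ N) ≃* PSL(2, ZMod p))) : Good G

section cohom

variable (H : Type*) [Group H] (V : Type*) [AddCommGroup V] [DistribMulAction H V]

/-- `V` is an irreducible `H`-module. -/
def Irr : Prop := Nontrivial V ∧
  ∀ U : AddSubgroup V, (∀ h : H, ∀ v ∈ U, h • v ∈ U) → U = ⊥ ∨ U = ⊤

/-- Derivations. -/
def Der : AddSubgroup (H → V) where
  carrier := {α | ∀ g h : H, α (g * h) = α g + g • α h}
  add_mem' := by
    intro a b ha hb g h
    simp only [Pi.add_apply]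
    rw [ha g h, hb g h, smul_add]; abel
  zero_mem' := by intro g h; simp
  neg_mem' := by
    intro a ha g h
    simp only [Pi.neg_apply]
    rw [ha g h, smul_neg]; abel

/-- The inner derivation of a vector. -/
def inn : V →+ (H → V) where
  toFun v := fun h => h • v - v
  map_zero' := by funext h; simp
  map_add' := by intro v w; funext h; simp only [Pi.add_apply, smul_add]; abel

/-- Inner derivations. -/
def Inn : AddSubgroup (H → V) := (inn H V).range

/-- The order of `H^1(H,V)`. -/
noncomputable def h1 : ℕ := (Inn H V).relIndex (Der H V)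

/-- The pairs `(h, lam)`, `lam` a nonzero linear form fixed by `h`. -/
def Pr (p : ℕ) : Type _ :=
  {x : H × (V →+ ZMod p) // x.2 ≠ 0 ∧ ∀ v : V, x.2 (x.1 • v) = x.2 v}

/-- Conjugacy of pairs. -/
def PrRel (p : ℕ) (x y : Pr H V p) : Prop :=
  ∃ g : H, y.1.1 = g * x.1.1 * g⁻¹ ∧ ∀ v : V, y.1.2 v = x.1.2 (g⁻¹ • v)

/-- The setoid of conjugacy of pairs. -/
def PrSetoid (p : ℕ) : Setoid (Pr H V p) where
  r := PrRel H V p
  iseqv := by
    refine ⟨fun x => ⟨1, by simp, by simp⟩, ?_, ?_⟩
    · rintro x y ⟨g, h1, h2⟩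
      refine ⟨g⁻¹, ?_, ?_⟩
      · rw [h1]; group
      · intro v
        rw [h2]; simp
    · rintro x y z ⟨g, h1, h2⟩ ⟨k, h3, h4⟩
      refine ⟨k * g, ?_, ?_⟩
      · rw [h3, h1]; group
      · intro v
        rw [h4, h2, smul_smul, mul_inv_rev]

/-- The number of classes of pairs. -/
noncomputable def Dn (p : ℕ) : ℕ := Nat.card (Quotient (PrSetoid H V p))

/-- `V` is a semisimple module for the subgroup `R`. -/
def SS (R : Subgroup H) : Prop :=
  ∀ U : AddSubgroup V, (∀ r ∈ R, ∀ v ∈ U, r • v ∈ U) →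
    ∃ U' : AddSubgroup V, (∀ r ∈ R, ∀ v ∈ U', r • v ∈ U') ∧ IsCompl U U'

/-- The action as a homomorphism into the automorphisms of the multiplicative version of `V`. -/
def phi : H →* MulAut (Multiplicative V) where
  toFun h := AddEquiv.toMultiplicative (DistribMulAction.toAddEquiv V h)
  map_one' := by
    ext v
    exact congrArg Multiplicative.ofAdd (one_smul H (Multiplicative.toAdd v))
  map_mul' := by
    intro g h
    ext v
    exact congrArg Multiplicative.ofAdd (mul_smul g h (Multiplicative.toAdd v))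

theorem phi_apply (h : H) (v : V) :
    phi H V h (Multiplicative.ofAdd v) = Multiplicative.ofAdd (h • v) := rfl

/-- The semidirect product. -/
abbrev SD := (Multiplicative V) ⋊[phi H V] H

end cohom

section std

variable {A : Type*} [Group A]

/-- `A` is almost simple with socle `L` isomorphic to some `PSL(2,p)`. -/
def Std (L : Subgroup A) : Prop :=
  L.Normal ∧ (∀ a : A, (∀ x ∈ L, a * x = x * a) → a = 1) ∧
    ∃ p : ℕ, p.Prime ∧ 5 ≤ p ∧ Nonempty (L ≃* PSL(2, ZMod p))

/-- The number of nontrivial `A`-classes inside `L`. -/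
noncomputable def kap (L : Subgroup A) : ℕ :=
  Nat.card {c : ConjClasses A // ∃ x ∈ L, x ≠ 1 ∧ c = ConjClasses.mk x}

/-- The default set. -/
def Df (L : Subgroup A) : Set A := {a | a = 1 ∨ (a ∉ L ∧ a * a = 1)}

/-- The facts on almost simple groups which are used in the reduction. -/
structure Facts (L : Subgroup A) : Prop where
  cnt : (mcl A (fun X => ¬ L ≤ X)).ncard ≤ kap L + (Nat.card (A ⧸ L) - 1)
  idx : Nat.card (A ⧸ L) ≤ 2
  three : 3 ≤ kap L
  dfl : ∀ a : A, ∃ l ∈ L, a * l ∈ Df L
  mrk : ∀ a : A, a ∉ L → ∃ l ∈ L, a * l ∉ Df L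
  out : ∀ b₁ b₂ b₃ : MulAut L, (∃ x : L, b₂ = MulAut.conj x * b₁) ∨
    (∃ x : L, b₃ = MulAut.conj x * b₁) ∨ (∃ x : L, b₃ = MulAut.conj x * b₂)

end std

section soc

variable {G : Type*} [Group G]

/-- The group induced by the normalizer on `L`. -/
def AA (L : Subgroup G) : Subgroup (MulAut L) := L.normalizerMonoidHom.range

/-- The inner automorphisms of `L` inside `AA L`. -/
def LA (L : Subgroup G) : Subgroup (AA L) := (MulAut.conj : L →* MulAut L).range.subgroupOf (AA L)

/-- The action of an element of the normalizer (total function). -/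
noncomputable def pa (L : Subgroup G) (g : G) : AA L := by
  classical
  exact if h : g ∈ Subgroup.normalizer (L : Set G) then L.normalizerMonoidHom.rangeRestrict ⟨g, h⟩ else 1

/-- The image of the part of `M` in the normalizer. -/
def imA (L M : Subgroup G) : Subgroup (AA L) :=
  (M.subgroupOf (Subgroup.normalizer (L : Set G))).map L.normalizerMonoidHom.rangeRestrict

/-- The marked cosets of an element. -/
def Mk (L : Subgroup G) (g : G) : Set (G ⧸ Subgroup.normalizer (L : Set G)) :=
  {i | ∃ r : G, (r : G ⧸ Subgroup.normalizer (L : Set G)) = i ∧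
    r⁻¹ * g * r ∈ Subgroup.normalizer (L : Set G) ∧ pa L (r⁻¹ * g * r) ∉ Df (LA L)}

/-- The minimal overgroups of the normalizer (minimal block systems). -/
def BB (L : Subgroup G) : Set (Subgroup G) := {S | Subgroup.normalizer (L : Set G) ⋖ S}

/-- The possible kernels for the complement type. -/
def QQ (L N : Subgroup G) : Set (Subgroup G) :=
  {Q | N ≤ Q ∧ Q ≤ L ⊔ Subgroup.centralizer (L : Set G) ∧
    (∀ t ∈ Subgroup.normalizer (L : Set G), ∀ q ∈ Q, t * q * t⁻¹ ∈ Q) ∧
    Nat.card Q = Nat.card (Subgroup.centralizer (L : Set G)) ∧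
    (∀ K : Subgroup G, Q ≤ K → K ≤ L ⊔ Subgroup.centralizer (L : Set G) →
      (∀ t ∈ L ⊔ Subgroup.centralizer (L : Set G), ∀ k ∈ K, t * k * t⁻¹ ∈ K) →
      K = Q ∨ K = L ⊔ Subgroup.centralizer (L : Set G)) ∧
    ∃ a ∈ L ⊔ Subgroup.centralizer (L : Set G), ∃ b ∈ L ⊔ Subgroup.centralizer (L : Set G),
      a * b * a⁻¹ * b⁻¹ ∉ Q}

end soc

end MX
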