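import Pool.Agent.helper81.MX.Defs

/-!
Definitions for the module part of the proof.
-/

set_option autoImplicit false

namespace MX

section

variable (H : Type*) [Group H] (V : Type*) [AddCommGroup V] [DistribMulAction H V]

/-- Every derivation is inner. -/
def AllInner : Prop := ∀ α ∈ Der H V, ∃ v : V, ∀ h : H, α h = h • v - v

/-- The action is faithful. -/
def Fth : Prop := ∀ h : H, (∀ v : V, h • v = v) → h = 1

/-- The fixed points of a subgroup. -/
def fixS (R : Subgroup H) : AddSubgroup V where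
  carrier := {v | ∀ r ∈ R, r • v = v}
  add_mem' := by
    intro a b ha hb r hr
    rw [smul_add, ha r hr, hb r hr]
  zero_mem' := by intro r _; simp
  neg_mem' := by
    intro a ha r hr
    rw [smul_neg, ha r hr]

/-- The commutator `[V,x]`. -/
def cmm (x : H) : AddSubgroup V where
  carrier := {v | ∃ u : V, v = x • u - u}
  add_mem' := by
    rintro a b ⟨u, rfl⟩ ⟨w, rfl⟩
    exact ⟨u + w, by rw [smul_add]; abel⟩
  zero_mem' := ⟨0, by simp⟩
  neg_mem' := by
    rintro a ⟨u, rfl⟩
    exact ⟨-u, by rw [smul_neg]; abel⟩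

end

/-- Restrictions of derivations to the kernel of `q`. -/
def PhiS {H Hq : Type*} [Group H] [Group Hq] (V : Type*) [AddCommGroup V] [DistribMulAction H V]
    (q : H →* Hq) : AddSubgroup (q.ker → V) where
  carrier := {f | ∃ α ∈ Der H V, ∀ c : q.ker, f c = α c}
  add_mem' := by
    rintro a b ⟨α, hα, h1⟩ ⟨β, hβ, h2⟩
    exact ⟨α + β, (Der H V).add_mem hα hβ, fun c => by simp [h1, h2]⟩
  zero_mem' := ⟨0, (Der H V).zero_mem, fun c => by simp⟩
  neg_mem' := by
    rintro a ⟨α, hα, h1⟩
    exact ⟨-α, (Der H V).neg_mem hα, fun c => by simp [h1]⟩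

/-- `V` is induced from the `T`-module `W`. -/
structure IndM {T H W V : Type*} [Group T] [Group H] [AddCommGroup W] [AddCommGroup V]
    [DistribMulAction T W] [DistribMulAction H V] (i : T →* H) (j : W →+ V) (pr : V →+ W) : Prop where
  inj : Function.Injective i
  equi : ∀ (t : T) (w : W), j (t • w) = i t • j w
  prj : ∀ w : W, pr (j w) = w
  prz : ∀ h : H, h ∉ i.range → ∀ w : W, pr (h • j w) = 0
  pre : ∀ (t : T) (v : V), pr (i t • v) = t • pr v
  gen : ∀ U : AddSubgroup V, (∀ (h : H) (w : W), h • j w ∈ U) → U = ⊤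

/-- `G` is the semidirect product of `N` (a copy of `V`) and `H`. -/
structure Spl {G : Type*} [Group G] (N H : Subgroup G) {V : Type*} [AddCommGroup V]
    [DistribMulAction H V] (j : Multiplicative V →* G) : Prop where
  inj : Function.Injective j
  rng : j.range = N
  act : ∀ (h : H) (v : V), j (Multiplicative.ofAdd (h • v)) =
    (h : G) * j (Multiplicative.ofAdd v) * (h : G)⁻¹
  dis : N ⊓ H = ⊥
  top : N ⊔ H = ⊤

end MX
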