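import Pool.Agent.helper81.MX.M02

set_option autoImplicit false

namespace MX
open scoped MatrixGroups

/-- M05 -/
theorem Mfac_psl {G : Type} [Group G] [Finite G] (hG : Good G)
    (hnormal : ∀ {G : Type} [Group G], Good G → ∀ (N : Subgroup G) [N.Normal], Good N)
    (hiso : ∀ {G : Type} [Group G], Good G → ∀ {H : Type} [Group H], (G ≃* H) → Good H)
    (hsimple : ∀ {G : Type} [Group G], Good G → IsSimpleGroup G → (∃ a b : G, a * b ≠ b * a) →
      ∃ p : ℕ, p.Prime ∧ 5 ≤ p ∧ Nonempty (G ≃* PSL(2, ZMod p)))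
    {L N : Subgroup G} (hN : MinN N) (hM : Mfac L N) :
    ∃ p : ℕ, p.Prime ∧ 5 ≤ p ∧ Nonempty (L ≃* PSL(2, ZMod p)) := by
  have hNn : N.Normal := hN.1
  obtain ⟨hLN, hNL, -⟩ := Mfac_basic hM
  have h1 : Good N := hnormal hG N
  have h2 : (L.subgroupOf N).Normal := Subgroup.normal_subgroupOf_iff_le_normalizer hLN |>.2 hNL
  have h3 : Good (L.subgroupOf N) := hnormal h1 (L.subgroupOf N)
  have h4 : Good L := hiso h3 (Subgroup.subgroupOfEquivOfLe hLN)
  refine hsimple h4 hM.simple ?_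
  obtain ⟨a, ha, b, hb, hab⟩ := hM.nc
  refine ⟨⟨a, ha⟩, ⟨b, hb⟩, fun h => hab ?_⟩
  exact congrArg Subtype.val h

end MX
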