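import Pool.Agent.helper81.MX.Defs2

set_option autoImplicit false

namespace MX
open scoped MatrixGroups

/-- T02 -/
theorem tor_conj {p : ℕ} [Fact p.Prime] (g k : GL (Fin 2) (ZMod p)) :
    cj (pk k) (tor g) = tor (k * g * k⁻¹) ∧ pk g ∈ tor g := by
  constructor
  · ext y
    rw [mem_cj]
    constructor
    · rintro ⟨h, hh, hy⟩
      have hc : h * g = g * h := Subgroup.mem_centralizer_singleton_iff.1 hh
      refine ⟨k * h * k⁻¹, ?_, ?_⟩
      · refine Subgroup.mem_centralizer_singleton_iff.2 ?_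
        calc k * h * k⁻¹ * (k * g * k⁻¹) = k * (h * g) * k⁻¹ := by group
          _ = k * (g * h) * k⁻¹ := by rw [hc]
          _ = k * g * k⁻¹ * (k * h * k⁻¹) := by group
      · rw [map_mul, map_mul, map_inv, hy]
        group
    · rintro ⟨h, hh, hy⟩
      have hc : h * (k * g * k⁻¹) = k * g * k⁻¹ * h := Subgroup.mem_centralizer_singleton_iff.1 hh
      refine ⟨k⁻¹ * h * k, ?_, ?_⟩
      · refine Subgroup.mem_centralizer_singleton_iff.2 ?_
        calc k⁻¹ * h * k * g = k⁻¹ * (h * (k * g * k⁻¹)) * k := by group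
          _ = k⁻¹ * (k * g * k⁻¹ * h) * k := by rw [hc]
          _ = g * (k⁻¹ * h * k) := by group
      · rw [map_mul, map_mul, map_inv, hy]
  · exact ⟨g, Subgroup.mem_centralizer_singleton_iff.2 rfl, rfl⟩

end MX
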