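import Pool.Agent.helper81.MX.Defs2

set_option autoImplicit false

/-!
# Row mx:T06 (MP_8aef6e_al), by helper29
-/

namespace MX
open scoped MatrixGroups

theorem T06_mem {p : ℕ} [Fact p.Prime] (g h : GL (Fin 2) (ZMod p)) :
    pk h ∈ tor g ↔ h * g = g * h := by
  constructor
  · rintro ⟨h', hh, he⟩
    obtain ⟨u, hu1, hu2⟩ := Matrix.ProjGenLinGroup.mk_eq_mk_iff'.mp he
    have h1 : h' * g = g * h' := (Subgroup.mem_centralizer_iff.mp hh g rfl).symm
    have h2 := Subgroup.mem_center_iff.mp hu1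
    rw [← hu2, mul_assoc, ← h2 g, ← mul_assoc, h1, mul_assoc]
  · intro hc
    refine ⟨h, ?_, rfl⟩
    show h ∈ Subgroup.centralizer ({g} : Set (GL (Fin 2) (ZMod p)))
    rw [Subgroup.mem_centralizer_iff]
    intro y hy
    rw [Set.mem_singleton_iff.mp hy]
    exact hc.symm

theorem T06_alg {F : Type*} [Field F] (h2 : (2 : F) ≠ 0) (a b c d x y z w : F)
    (hD : (a - d) ^ 2 + 4 * (b * c) ≠ 0) (h01 : x * b + y * d = a * y + b * w)
    (h10 : z * a + w * c = c * x + d * z) (h00 : y * c = b * z) (ht : x + w = a + d)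
    (hd : x * w - y * z = a * d - b * c) :
    (x = a ∧ y = b ∧ z = c ∧ w = d) ∨ (x = d ∧ y = -b ∧ z = -c ∧ w = a) := by
  have hU1 : b * (x - w) = y * (a - d) := by linear_combination h01
  have hU2 : c * (x - w) = z * (a - d) := by linear_combination -h10
  have hU3 : (x - w) ^ 2 + 4 * (y * z) = (a - d) ^ 2 + 4 * (b * c) := by
    linear_combination (x + w + (a + d)) * ht - 4 * hd
  have h4 : ((a - d) ^ 2 + 4 * (b * c)) * ((x - w - (a - d)) * (x - w + (a - d))) = 0 := by
    have e1 : (b * (x - w)) * (c * (x - w)) = (y * (a - d)) * (z * (a - d)) := by rw [hU1, hU2]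
    linear_combination 4 * e1 + (a - d) ^ 2 * hU3
  have h5 := (mul_eq_zero.mp h4).resolve_left hD
  have key : ∀ s t : F, 2 * s = 2 * t → s = t := fun s t h => mul_left_cancel₀ h2 h
  by_cases he : a - d = 0
  · have hx : x - w = 0 := by
      rcases mul_eq_zero.mp h5 with h | h
      · linear_combination h + he
      · linear_combination h - he
    have hxa : x = a := by
      apply key
      linear_combination ht + hx - he
    have hwd : w = d := by linear_combination ht - hxa
    have hbc : y * z = b * c := by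
      linear_combination -hd + (x * hwd + d * hxa)
    have had : a = d := by linear_combination he
    have hbc0 : b * c ≠ 0 := by
      intro h
      apply hD
      rw [he, h]
      ring
    have hb : b ≠ 0 := left_ne_zero_of_mul hbc0
    have hc : c ≠ 0 := right_ne_zero_of_mul hbc0
    have h6 : c * ((y - b) * (y + b)) = 0 := by
      have e2 : y * (y * c) = y * (b * z) := by rw [h00]
      linear_combination e2 + b * hbc
    rcases mul_eq_zero.mp ((mul_eq_zero.mp h6).resolve_left hc) with h | h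
    · left
      have hy : y = b := by linear_combination h
      refine ⟨hxa, hy, ?_, hwd⟩
      apply mul_left_cancel₀ hb
      rw [← h00, hy]
    · right
      have hy : y = -b := by linear_combination h
      refine ⟨by rw [hxa, had], hy, ?_, by rw [hwd, had]⟩
      apply mul_left_cancel₀ hb
      rw [← h00, hy]
      ring
  · rcases mul_eq_zero.mp h5 with h | h
    · left
      have hxw : x - w = a - d := by linear_combination h
      have hxa : x = a := by
        apply key
        linear_combination ht + hxw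
      refine ⟨hxa, ?_, ?_, by linear_combination ht - hxa⟩
      · apply mul_right_cancel₀ he
        rw [← hU1, hxw]
      · apply mul_right_cancel₀ he
        rw [← hU2, hxw]
    · right
      have hxw : x - w = -(a - d) := by linear_combination h
      have hxa : x = d := by
        apply key
        linear_combination ht + hxw
      refine ⟨hxa, ?_, ?_, by linear_combination ht - hxa⟩
      · apply mul_right_cancel₀ he
        rw [← hU1, hxw]
        ring
      · apply mul_right_cancel₀ he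
        rw [← hU2, hxw]
        ring

theorem T06_ex {F : Type*} [Field F] (a b c d : F) (hD : (a - d) ^ 2 + 4 * (b * c) ≠ 0) :
    ∃ x y z : F, x * x + y * z ≠ 0 ∧ x * (a - d) + y * c + z * b = 0 := by
  by_cases hb : b = 0
  · have had : a - d ≠ 0 := by
      intro h
      apply hD
      rw [h, hb]
      ring
    by_cases hc : c = 0
    · exact ⟨0, 1, 1, by simp, by rw [hb, hc]; ring⟩
    · refine ⟨c, -(a - d), 0, ?_, by rw [hb]; ring⟩
      rw [mul_zero, add_zero]
      exact mul_ne_zero hc hc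
  · by_cases hc : c = 0
    · refine ⟨b, 0, -(a - d), ?_, by rw [hc]; ring⟩
      rw [zero_mul, add_zero]
      exact mul_ne_zero hb hb
    · refine ⟨0, b, -c, ?_, by ring⟩
      rw [zero_mul, zero_add, mul_neg]
      exact neg_ne_zero.mpr (mul_ne_zero hb hc)

theorem T06_dsc {p : ℕ} [Fact p.Prime] (g : GL (Fin 2) (ZMod p)) :
    dsc g = ((g : Matrix (Fin 2) (Fin 2) (ZMod p)) 0 0 - (g : Matrix (Fin 2) (Fin 2) (ZMod p)) 1 1) ^ 2 +
      4 * ((g : Matrix (Fin 2) (Fin 2) (ZMod p)) 0 1 * (g : Matrix (Fin 2) (Fin 2) (ZMod p)) 1 0) := by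
  rw [dsc, Matrix.trace_fin_two, Matrix.det_fin_two]
  ring

theorem T06_two {p : ℕ} [Fact p.Prime] (hp : 5 ≤ p) : (2 : ZMod p) ≠ 0 := by
  intro h
  have h1 : ((2 : ℕ) : ZMod p) = 0 := by exact_mod_cast h
  rw [ZMod.natCast_eq_zero_iff] at h1
  have := Nat.le_of_dvd (by norm_num) h1
  omega

theorem T06_two_val {p : ℕ} [Fact p.Prime] (hp : 5 ≤ p) (g X : GL (Fin 2) (ZMod p))
    (hg : dsc g ≠ 0) (hc : X * g = g * X)
    (ht : (X : Matrix (Fin 2) (Fin 2) (ZMod p)).trace = (g : Matrix (Fin 2) (Fin 2) (ZMod p)).trace)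
    (hd : (X : Matrix (Fin 2) (Fin 2) (ZMod p)).det = (g : Matrix (Fin 2) (Fin 2) (ZMod p)).det) :
    X = g ∨ (X : Matrix (Fin 2) (Fin 2) (ZMod p)) = (g : Matrix (Fin 2) (Fin 2) (ZMod p)).adjugate := by
  set G : Matrix (Fin 2) (Fin 2) (ZMod p) := g.val with hG
  set Y : Matrix (Fin 2) (Fin 2) (ZMod p) := X.val with hY
  have hc' : Y * G = G * Y := by
    have := congrArg (fun M : GL (Fin 2) (ZMod p) => (M : Matrix (Fin 2) (Fin 2) (ZMod p))) hc
    simpa using this
  rw [T06_dsc] at hg
  rw [Matrix.trace_fin_two, Matrix.trace_fin_two] at ht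
  rw [Matrix.det_fin_two, Matrix.det_fin_two] at hd
  have e00 := congrFun (congrFun hc' 0) 0
  have e01 := congrFun (congrFun hc' 0) 1
  have e10 := congrFun (congrFun hc' 1) 0
  rw [Matrix.mul_apply, Matrix.mul_apply, Fin.sum_univ_two, Fin.sum_univ_two] at e00 e01 e10
  rcases T06_alg (T06_two hp) (G 0 0) (G 0 1) (G 1 0) (G 1 1) (Y 0 0) (Y 0 1) (Y 1 0) (Y 1 1) hg e01 e10
    (by linear_combination e00) ht hd with ⟨h1, h2, h3, h4⟩ | ⟨h1, h2, h3, h4⟩
  · left
    apply Units.ext
    ext i j
    fin_cases i <;> fin_cases j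
    · exact h1
    · exact h2
    · exact h3
    · exact h4
  · right
    rw [Matrix.adjugate_fin_two]
    ext i j
    fin_cases i <;> fin_cases j
    · exact h1
    · exact h2
    · exact h3
    · exact h4

theorem T06_last {F : Type*} [Field F] (G K M : Matrix (Fin 2) (Fin 2) F) (t : F)
    (h1 : M * G = (t • (1 : Matrix (Fin 2) (Fin 2) F) - G) * M)
    (h2 : K * G = (t • (1 : Matrix (Fin 2) (Fin 2) F) - G) * K) :
    K * M * G = G * (K * M) := by
  have e1 : M * G = t • M - G * M := by
    rw [h1, sub_mul]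
    simp
  have e2 : K * G = t • K - G * K := by
    rw [h2, sub_mul]
    simp
  rw [mul_assoc, e1, mul_sub, ← mul_assoc, e2, sub_mul, mul_assoc]
  simp

theorem T06_c {F : Type*} [Field F] (G M N : Matrix (Fin 2) (Fin 2) F) (t : F)
    (h1 : M * G = (t • (1 : Matrix (Fin 2) (Fin 2) F) - G) * M) (h2 : M * N = 1) (h3 : N * M = 1) :
    N * G = (t • (1 : Matrix (Fin 2) (Fin 2) F) - G) * N := by
  have e1 : M * G = t • M - G * M := by
    rw [h1, sub_mul]
    simp
  have e2 : N * (M * G) * N = N * (t • M - G * M) * N := by rw [e1]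
  have e3 : N * (M * G) * N = G * N := by
    rw [← mul_assoc, h3, one_mul]
  have e4 : N * (t • M - G * M) * N = t • N - N * G := by
    rw [mul_sub, sub_mul, mul_smul_comm, h3, smul_mul_assoc, one_mul, mul_assoc, mul_assoc, h2, mul_one]
  rw [e3, e4] at e2
  rw [sub_mul, e2]
  simp

theorem T06_c2 {F : Type*} [Field F] (G K M N : Matrix (Fin 2) (Fin 2) F) (t : F)
    (h1 : M * G = (t • (1 : Matrix (Fin 2) (Fin 2) F) - G) * M) (h2 : M * N = 1) (h3 : N * M = 1)
    (h : K * G = G * K) : M * K * N * G = G * (M * K * N) := by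
  have e1 : M * G = t • M - G * M := by
    rw [h1, sub_mul]
    simp
  have e2 : N * G = t • N - G * N := by
    rw [T06_c G M N t h1 h2 h3, sub_mul]
    simp
  have e5 : M * K * (G * N) = t • (M * K * N) - G * (M * K * N) := by
    calc M * K * (G * N) = M * (K * G) * N := by simp only [mul_assoc]
      _ = (M * G) * (K * N) := by rw [h]; simp only [mul_assoc]
      _ = (t • M - G * M) * (K * N) := by rw [e1]
      _ = _ := by rw [sub_mul, smul_mul_assoc]; simp only [mul_assoc]
  rw [mul_assoc (M * K), e2, mul_sub, mul_smul_comm, e5]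
  simp

theorem tor_norm {p : ℕ} [Fact p.Prime] (hp : 5 ≤ p) (g : GL (Fin 2) (ZMod p)) (hg : dsc g ≠ 0) :
    (tor g).relIndex (Subgroup.normalizer (tor g : Set (PG p))) = 2 := by
  set G : Matrix (Fin 2) (Fin 2) (ZMod p) := g.val with hG
  have hg' := hg
  rw [T06_dsc] at hg'
  obtain ⟨x, y, z, hdet, hlin⟩ := T06_ex _ _ _ _ hg'
  have hMdet : (!![x, y; z, -x] : Matrix (Fin 2) (Fin 2) (ZMod p)).det ≠ 0 := by
    rw [Matrix.det_fin_two_of]
    intro h
    apply hdet
    linear_combination -h
  set m : GL (Fin 2) (ZMod p) := Matrix.GeneralLinearGroup.mkOfDetNeZero _ hMdet with hm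
  have hmG : (m : Matrix (Fin 2) (Fin 2) (ZMod p)) * G = G.adjugate * m := by
    rw [Matrix.adjugate_fin_two]
    have hmv : (m : Matrix (Fin 2) (Fin 2) (ZMod p)) = !![x, y; z, -x] := rfl
    rw [hmv]
    ext i j
    rw [Matrix.mul_apply, Matrix.mul_apply, Fin.sum_univ_two, Fin.sum_univ_two]
    fin_cases i <;> fin_cases j
    · show x * G 0 0 + y * G 1 0 = G 1 1 * x + (-G 0 1) * z
      linear_combination hlin
    · show x * G 0 1 + y * G 1 1 = G 1 1 * y + (-G 0 1) * (-x)
      ring
    · show z * G 0 0 + (-x) * G 1 0 = (-G 1 0) * x + G 0 0 * z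
      ring
    · show z * G 0 1 + (-x) * G 1 1 = (-G 1 0) * y + G 0 0 * (-x)
      linear_combination hlin
  have hadj : G.adjugate = G.trace • (1 : Matrix (Fin 2) (Fin 2) (ZMod p)) - G := by
    rw [Matrix.adjugate_fin_two, Matrix.trace_fin_two]
    ext i j
    fin_cases i <;> fin_cases j <;> simp
  have hne : G.adjugate ≠ G := by
    intro h
    rw [Matrix.adjugate_fin_two] at h
    have e00 := congrFun (congrFun h 0) 0
    have e01 := congrFun (congrFun h 0) 1
    have e1 : G 1 1 = G 0 0 := e00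
    have e2 : -G 0 1 = G 0 1 := e01
    have e3 : G 0 1 = 0 := by
      have : 2 * G 0 1 = 0 := by linear_combination -e2
      exact (mul_eq_zero.mp this).resolve_left (T06_two hp)
    apply hg'
    show (G 0 0 - G 1 1) ^ 2 + 4 * (G 0 1 * G 1 0) = 0
    rw [e1, e3]
    ring
  -- conjugates
  have hnorm : ∀ k : GL (Fin 2) (ZMod p), pk k ∈ Subgroup.normalizer (tor g : Set (PG p)) →
      (k * g = g * k ∨ (k : Matrix (Fin 2) (Fin 2) (ZMod p)) * G = G.adjugate * k) := by
    intro k hk
    rw [Subgroup.mem_normalizer_iff] at hk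
    have h1 : pk g ∈ tor g := (T06_mem g g).mpr rfl
    have h2 := (hk (pk g)).mp h1
    have h3 : pk (k * g * k⁻¹) ∈ tor g := by
      have : pk (k * g * k⁻¹) = pk k * pk g * (pk k)⁻¹ := by
        rw [pk, map_mul, map_mul, map_inv]
      rw [this]
      exact h2
    have h4 := (T06_mem g _).mp h3
    have e1 : ((k * g * k⁻¹ : GL (Fin 2) (ZMod p)) : Matrix (Fin 2) (Fin 2) (ZMod p)) =
        (k : Matrix (Fin 2) (Fin 2) (ZMod p)) * G * ((k⁻¹ : GL (Fin 2) (ZMod p)) : Matrix (Fin 2) (Fin 2) (ZMod p)) := by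
      rw [Units.val_mul, Units.val_mul]
    have e2 : ((k⁻¹ : GL (Fin 2) (ZMod p)) : Matrix (Fin 2) (Fin 2) (ZMod p)) *
        (k : Matrix (Fin 2) (Fin 2) (ZMod p)) = 1 := by
      rw [← Units.val_mul, inv_mul_cancel, Units.val_one]
    rcases T06_two_val hp g (k * g * k⁻¹) hg h4 (by
      rw [e1, Matrix.trace_mul_comm, ← mul_assoc, e2, one_mul]) (by
      rw [e1, Matrix.det_mul_comm, ← mul_assoc, e2, one_mul]) with h | h
    · left
      exact mul_inv_eq_iff_eq_mul.mp h
    · right
      rw [← h, e1, mul_assoc, e2, mul_one]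
  have hcm : ∀ X : GL (Fin 2) (ZMod p), X * g = g * X ↔
      (X : Matrix (Fin 2) (Fin 2) (ZMod p)) * G = G * X := by
    intro X
    rw [← Units.val_inj, Units.val_mul, Units.val_mul]
  rw [Subgroup.relIndex_eq_two_iff_exists_notMem_and]
  refine ⟨pk m, ?_, ?_, ?_⟩
  · rw [Subgroup.mem_normalizer_iff]
    intro b
    obtain ⟨k, rfl⟩ := Matrix.ProjGenLinGroup.mk_surjective b
    have e : pk m * Matrix.ProjGenLinGroup.mk k * (pk m)⁻¹ = pk (m * k * m⁻¹) := by
      rw [pk, pk, map_mul, map_mul, map_inv]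
    show pk k ∈ tor g ↔ pk m * Matrix.ProjGenLinGroup.mk k * (pk m)⁻¹ ∈ tor g
    rw [e, T06_mem, T06_mem, hcm, hcm]
    have hmm : (m : Matrix (Fin 2) (Fin 2) (ZMod p)) * ((m⁻¹ : GL (Fin 2) (ZMod p)) : Matrix (Fin 2) (Fin 2) (ZMod p)) = 1 := by
      rw [← Units.val_mul, mul_inv_cancel, Units.val_one]
    have hmm' : ((m⁻¹ : GL (Fin 2) (ZMod p)) : Matrix (Fin 2) (Fin 2) (ZMod p)) * (m : Matrix (Fin 2) (Fin 2) (ZMod p)) = 1 := by
      rw [← Units.val_mul, inv_mul_cancel, Units.val_one]
    rw [Units.val_mul, Units.val_mul]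
    generalize (m : Matrix (Fin 2) (Fin 2) (ZMod p)) = M at hmG hmm hmm'
    generalize ((m⁻¹ : GL (Fin 2) (ZMod p)) : Matrix (Fin 2) (Fin 2) (ZMod p)) = N at hmm hmm'
    generalize (k : Matrix (Fin 2) (Fin 2) (ZMod p)) = K
    have e3 : M * G = (G.trace • (1 : Matrix (Fin 2) (Fin 2) (ZMod p)) - G) * M := by
      rw [← hadj, hmG]
    constructor
    · intro h
      exact T06_c2 G K M N G.trace e3 hmm hmm' h
    · intro h
      have h5 := T06_c2 G (M * K * N) N M G.trace (T06_c G M N G.trace e3 hmm hmm') hmm' hmm h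
      have e6 : N * (M * K * N) * M = K := by
        calc N * (M * K * N) * M = (N * M) * K * (N * M) := by simp only [mul_assoc]
          _ = K := by rw [hmm', one_mul, mul_one]
      rw [e6] at h5
      exact h5
  · rw [T06_mem, hcm, hmG]
    intro h
    apply hne
    have := congrArg (fun M => M * ((m⁻¹ : GL (Fin 2) (ZMod p)) : Matrix (Fin 2) (Fin 2) (ZMod p))) h
    simp only [mul_assoc] at this
    rw [← Units.val_mul, mul_inv_cancel, Units.val_one, mul_one, mul_one] at this
    exact this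
  · intro b hb
    obtain ⟨k, rfl⟩ := Matrix.ProjGenLinGroup.mk_surjective b
    rcases hnorm k hb with h | h
    · right
      exact (T06_mem g k).mpr h
    · left
      have e : Matrix.ProjGenLinGroup.mk k * pk m = pk (k * m) :=
        (map_mul Matrix.ProjGenLinGroup.mk k m).symm
      rw [e, T06_mem, hcm, Units.val_mul]
      generalize (m : Matrix (Fin 2) (Fin 2) (ZMod p)) = M at hmG
      generalize (k : Matrix (Fin 2) (Fin 2) (ZMod p)) = K at h
      exact T06_last G K M G.trace (by rw [hmG, hadj]) (by rw [h, hadj])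

end MX
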