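import Pool.Agent.helper81.MX.Defs3
import Pool.Agent.helper81.MX.T02
import Pool.Agent.helper81.MX.T03
import Pool.Agent.helper81.MX.T04
import Pool.Agent.helper81.MX.T06

set_option autoImplicit false

namespace MX
open scoped MatrixGroups

theorem P01_finite (p : ℕ) [Fact p.Prime] : Finite (PG p) := by
  have : Function.Surjective (Matrix.ProjGenLinGroup.mk : GL (Fin 2) (ZMod p) → PG p) :=
    Matrix.ProjGenLinGroup.mk_surjective
  exact Finite.of_surjective _ this

theorem P01_dsc {p : ℕ} [Fact p.Prime] (g k : GL (Fin 2) (ZMod p)) :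
    dsc (k * g * k⁻¹) = dsc g := by
  have h1 : k.1 * (k⁻¹).1 = 1 := by rw [← Units.val_mul, mul_inv_cancel, Units.val_one]
  have h2 : (k⁻¹).1 * k.1 = 1 := by rw [← Units.val_mul, inv_mul_cancel, Units.val_one]
  have h3 : (k * g * k⁻¹).1 = k.1 * g.1 * (k⁻¹).1 := by rw [Units.val_mul, Units.val_mul]
  have h4 : k.1.det * (k⁻¹).1.det = 1 := by rw [← Matrix.det_mul, h1, Matrix.det_one]
  rw [dsc, dsc, h3, Matrix.trace_mul_comm, ← mul_assoc, h2, one_mul, Matrix.det_mul,
    Matrix.det_mul]
  linear_combination (-4 * g.1.det) * h4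

theorem P01_ne {p : ℕ} [Fact p.Prime] (g : GL (Fin 2) (ZMod p)) (hg : dsc g ≠ 0) : pk g ≠ 1 := by
  intro h
  obtain ⟨h1, h2, h3⟩ := T04_one g h
  apply hg
  rw [dsc, Matrix.trace_fin_two, Matrix.det_fin_two, h1, h2, h3]
  ring

/-- P01 -/
theorem part_tor {p : ℕ} [Fact p.Prime] (hp : 5 ≤ p) (X : Subgroup (PG p))
    (hX : ¬ p ∣ Nat.card X) : Part X (torP X) := by
  have hfin := P01_finite p
  refine ⟨fun C hC => hC.1, ?_, ?_, ?_, ?_, ?_⟩
  · -- cov
    intro x hx
    obtain ⟨g, hg⟩ := Matrix.ProjGenLinGroup.mk_surjective x.1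
    have hg1 : pk g ≠ 1 := by
      intro h
      apply hx
      apply Subtype.ext
      rw [← hg]
      exact h
    have hd : dsc g ≠ 0 := by
      intro hd
      have h1 := (tor_unip hp g hd hg1).2
      apply hX
      have h2 : orderOf x = p := by
        rw [← Subgroup.orderOf_coe, ← hg]
        exact h1
      have h3 := orderOf_dvd_natCard x
      rwa [h2] at h3
    have hm : x ∈ (tor g).subgroupOf X := by
      rw [Subgroup.mem_subgroupOf, ← hg]
      exact (tor_conj g 1).2
    refine ⟨(tor g).subgroupOf X, ⟨?_, g, hd, rfl⟩, hm⟩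
    intro h
    rw [h, Subgroup.mem_bot] at hm
    exact hx hm
  · -- dis
    rintro C ⟨_, g, hg, rfl⟩ D ⟨_, h, hh, rfl⟩ x hx hxC hxD
    obtain ⟨k, hk⟩ := Matrix.ProjGenLinGroup.mk_surjective x.1
    have hk1 : pk k ≠ 1 := by
      intro h
      apply hx
      apply Subtype.ext
      rw [← hk]
      exact h
    rw [Subgroup.mem_subgroupOf, ← hk] at hxC hxD
    rw [← tor_eq g k (P01_ne g hg) hk1 hxC, tor_eq h k (P01_ne h hh) hk1 hxD]
  · -- conj
    rintro C ⟨hC, g, hg, rfl⟩ x
    obtain ⟨k, hk⟩ := Matrix.ProjGenLinGroup.mk_surjective x.1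
    refine ⟨?_, k * g * k⁻¹, by rwa [P01_dsc], ?_⟩
    · intro h
      apply hC
      rw [eq_bot_iff]
      intro y hy
      have h1 : x * y * x⁻¹ ∈ cj x ((tor g).subgroupOf X) := by
        rw [mem_cj]
        have h2 : x⁻¹ * (x * y * x⁻¹) * x = y := by group
        rwa [h2]
      rw [h, Subgroup.mem_bot] at h1
      rw [Subgroup.mem_bot]
      have h2 : y = x⁻¹ * (x * y * x⁻¹) * x := by group
      rw [h2, h1]
      group
    · ext y
      rw [mem_cj, Subgroup.mem_subgroupOf, Subgroup.mem_subgroupOf, ← (tor_conj g k).1, mem_cj]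
      have h1 : ((x⁻¹ * y * x : X) : PG p) = (pk k)⁻¹ * (y : PG p) * pk k := by
        push_cast
        rw [← hk]
      rw [h1]
  · -- cyc
    rintro C ⟨_, g, hg, rfl⟩
    have hcyc := (tor_cyc hp g hg).1
    let f : (tor g).subgroupOf X →* tor g :=
      { toFun := fun y => ⟨(y.1 : PG p), Subgroup.mem_subgroupOf.mp y.2⟩
        map_one' := rfl
        map_mul' := fun _ _ => rfl }
    have hf : Function.Injective f := by
      intro a b hab
      apply Subtype.ext
      apply Subtype.ext
      exact Subtype.mk.inj hab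
    exact isCyclic_of_injective f hf
  · -- idx
    rintro C ⟨hC, g, hg, rfl⟩
    set C := (tor g).subgroupOf X with hCdef
    set N := Subgroup.normalizer (C : Set X) with hN
    have hrel := tor_norm hp g hg
    have hle : N.map X.subtype ≤ Subgroup.normalizer (tor g : Set (PG p)) := by
      rintro _ ⟨x, hx, rfl⟩
      obtain ⟨k, hk⟩ := Matrix.ProjGenLinGroup.mk_surjective x.1
      obtain ⟨⟨c, hc⟩, hc0⟩ := Subgroup.ne_bot_iff_exists_ne_one.mp hC
      have hc1 : c ≠ 1 := fun h => hc0 (Subtype.ext h)
      obtain ⟨y, hy⟩ := Matrix.ProjGenLinGroup.mk_surjective c.1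
      have hy1 : pk y ≠ 1 := by
        intro h
        apply hc1
        apply Subtype.ext
        rw [← hy]
        exact h
      have hyg : pk y ∈ tor g := by
        have := Subgroup.mem_subgroupOf.mp hc
        rwa [← hy] at this
      have h1 : x * c * x⁻¹ ∈ C := (Subgroup.mem_normalizer_iff.mp hx c).mp hc
      have hkk : pk (k * y * k⁻¹) = pk k * pk y * (pk k)⁻¹ := by
        show Matrix.ProjGenLinGroup.mk (k * y * k⁻¹) = _
        rw [map_mul, map_mul, map_inv]
      have h2 : pk (k * y * k⁻¹) ∈ tor g := by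
        have h3 := Subgroup.mem_subgroupOf.mp h1
        have h4 : ((x * c * x⁻¹ : X) : PG p) = pk (k * y * k⁻¹) := by
          rw [hkk]
          push_cast
          rw [← hk, ← hy]
        rwa [h4] at h3
      have h3 : pk (k * y * k⁻¹) ≠ 1 := by
        intro h
        rw [hkk] at h
        apply hy1
        have h5 : pk y = (pk k)⁻¹ * (pk k * pk y * (pk k)⁻¹) * pk k := by group
        rw [h5, h]
        group
      have h4 : cj (pk k) (tor g) = tor g := by
        rw [← tor_eq g y (P01_ne g hg) hy1 hyg, (tor_conj y k).1,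
          tor_eq g _ (P01_ne g hg) h3 h2, tor_eq g y (P01_ne g hg) hy1 hyg]
      rw [Subgroup.mem_normalizer_iff]
      intro z
      have h5 : (X.subtype x) = pk k := hk.symm
      rw [h5]
      constructor
      · intro hz
        rw [← h4, mem_cj]
        have h6 : (pk k)⁻¹ * (pk k * z * (pk k)⁻¹) * pk k = z := by group
        rwa [h6]
      · intro hz
        rw [← h4, mem_cj] at hz
        have h6 : (pk k)⁻¹ * (pk k * z * (pk k)⁻¹) * pk k = z := by group
        rwa [h6] at hz
    have hle2 : (tor g).relIndex (N.map X.subtype) ≤ 2 :=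
      (Subgroup.relIndex_le_of_le_right hle (by rw [hrel]; norm_num)).trans hrel.le
    have hCN : C ≤ N := Subgroup.le_normalizer
    have hcardN : Nat.card (N.map X.subtype) = Nat.card N :=
      Nat.card_congr (N.equivMapOfInjective X.subtype X.subtype_injective).symm.toEquiv
    have hmul := Subgroup.card_mul_index ((tor g).subgroupOf (N.map X.subtype))
    have hcardC : Nat.card ((tor g).subgroupOf (N.map X.subtype)) = Nat.card C := by
      apply Nat.card_congr
      refine
        { toFun := fun y => ⟨⟨y.1.1, ?_⟩, ?_⟩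
          invFun := fun y => ⟨⟨y.1.1, ?_⟩, ?_⟩
          left_inv := fun y => rfl
          right_inv := fun y => rfl }
      · obtain ⟨x, _, hx⟩ := y.1.2
        rw [← hx]
        exact x.2
      · rw [hCdef, Subgroup.mem_subgroupOf]
        exact Subgroup.mem_subgroupOf.mp y.2
      · exact ⟨y.1, hCN y.2, rfl⟩
      · rw [Subgroup.mem_subgroupOf]
        exact Subgroup.mem_subgroupOf.mp y.2
    have hidx : ((tor g).subgroupOf (N.map X.subtype)).index =
      (tor g).relIndex (N.map X.subtype) := rfl
    rw [hidx, hcardC, hcardN] at hmul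
    have hpos : 0 < Nat.card N := Nat.card_pos
    have hr0 : (tor g).relIndex (N.map X.subtype) ≠ 0 := by
      intro h
      rw [h, mul_zero] at hmul
      omega
    have hr : (tor g).relIndex (N.map X.subtype) = 1 ∨
        (tor g).relIndex (N.map X.subtype) = 2 := by omega
    rcases hr with h | h
    · left
      rw [h, mul_one] at hmul
      exact hmul.symm
    · right
      rw [h, mul_comm] at hmul
      exact hmul.symm

end MX
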