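import Pool.Agent.helper81.MX.Defs3

/-!
Row mx:PT0: the numerical part of the classification.
-/

set_option autoImplicit false

namespace MX

theorem PT0_pred {m c : ℕ} (hc : 2 ≤ c) : m * (c - 1) + m = c * m := by
  obtain ⟨t, rfl⟩ := Nat.exists_eq_add_of_le hc
  rw [show 2 + t - 1 = t + 1 by omega]
  ring

theorem PT0_A (c₀ m₀ c₁ m₁ n : ℕ) (h₀ : n = c₀ * m₀) (h₁ : n = 2 * (c₁ * m₁)) (hm₁ : 0 < m₁)
    (hc₀ : 2 ≤ c₀) (hc₁ : 2 ≤ c₁) (hn : 2 ≤ n)
    (hs : m₀ * (c₀ - 1) + m₁ * (c₁ - 1) = n - 1) :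
    2 * c₁ = n ∨ (n = 12 ∧ c₀ = 3 ∧ c₁ = 2) := by
  have e₀ := PT0_pred (m := m₀) hc₀
  have e₁ := PT0_pred (m := m₁) hc₁
  have hP : c₁ * m₁ + 1 = m₀ + m₁ := by omega
  have hP2 : 2 * m₁ ≤ c₁ * m₁ := Nat.mul_le_mul_right m₁ hc₁
  rcases Nat.lt_or_ge c₀ 4 with h4 | h4
  · interval_cases c₀
    · left
      have h5 : m₁ = 1 := by omega
      rw [h5] at h₁
      omega
    · rcases Nat.lt_or_ge c₁ 3 with h3 | h3
      · have h5 : c₁ = 2 := by omega
        subst h5
        right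
        omega
      · have h6 : 3 * m₁ ≤ c₁ * m₁ := Nat.mul_le_mul_right m₁ h3
        omega
  · have h6 : 4 * m₀ ≤ c₀ * m₀ := Nat.mul_le_mul_right m₀ h4
    omega

theorem PT0_C (c₀ m₀ c₁ m₁ c₂ m₂ N : ℕ) (h₀ : N = c₀ * m₀) (h₁ : N = c₁ * m₁) (h₂ : N = c₂ * m₂)
    (hm₀ : 0 < m₀) (hm₂ : 0 < m₂) (hc₀ : 2 ≤ c₀) (h01 : c₀ ≤ c₁) (h12 : c₁ ≤ c₂)
    (hs : m₀ + m₁ + m₂ = N + 1) :
    c₂ = N ∨ (N = 6 ∧ c₁ = 3 ∧ c₂ = 3) ∨ (N = 12 ∧ c₀ = 2 ∧ c₁ = 3 ∧ c₂ = 4) ∨
      (N = 30 ∧ c₀ = 2 ∧ c₁ = 3 ∧ c₂ = 5) := by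
  rcases Nat.lt_or_ge c₀ 3 with h3 | h3
  · have h5 : c₀ = 2 := by omega
    subst h5
    rcases Nat.lt_or_ge c₁ 4 with h4 | h4
    · interval_cases c₁
      · left
        have h6 : m₂ = 1 := by omega
        rw [h6] at h₂
        omega
      · right
        rcases Nat.lt_or_ge c₂ 6 with h6 | h6
        · interval_cases c₂
          · left; omega
          · right; left; omega
          · right; right; omega
        · have h7 : 6 * m₂ ≤ c₂ * m₂ := Nat.mul_le_mul_right m₂ h6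
          omega
    · have h6 : 4 * m₁ ≤ c₁ * m₁ := Nat.mul_le_mul_right m₁ h4
      have h7 : 4 * m₂ ≤ c₂ * m₂ := Nat.mul_le_mul_right m₂ (h4.trans h12)
      omega
  · have h6 : 3 * m₀ ≤ c₀ * m₀ := Nat.mul_le_mul_right m₀ h3
    have h7 : 3 * m₁ ≤ c₁ * m₁ := Nat.mul_le_mul_right m₁ (h3.trans h01)
    have h8 : 3 * m₂ ≤ c₂ * m₂ := Nat.mul_le_mul_right m₂ ((h3.trans h01).trans h12)
    omega

theorem numeric (n : ℕ) (hn : 2 ≤ n) {ι : Type*} [Fintype ι] (c f : ι → ℕ) (hc : ∀ i, 2 ≤ c i)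
    (hf : ∀ i, f i = 1 ∨ f i = 2) (hd : ∀ i, f i * c i ∣ n)
    (hs : ∑ i, (n / (f i * c i)) * (c i - 1) = n - 1) :
    (∃ i, f i * c i = n) ∨
    (n = 12 ∧ (∃ i, f i = 1 ∧ c i = 3) ∧ ∀ i, c i = 2 ∨ c i = 3) ∨
    (n = 12 ∧ ∃ i j, i ≠ j ∧ c i = 3 ∧ c j = 3) ∨
    (n = 24 ∧ (∀ i, f i = 2) ∧ ∃ i j k, c i = 2 ∧ c j = 3 ∧ c k = 4 ∧ ∀ l, l = i ∨ l = j ∨ l = k) ∨
    (n = 60 ∧ (∀ i, f i = 2) ∧ ∃ i j k, c i = 2 ∧ c j = 3 ∧ c k = 5 ∧ ∀ l, l = i ∨ l = j ∨ l = k) := by
  classical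
  choose m hm using hd
  have hm0 : ∀ i, 0 < m i := by
    intro i
    rcases Nat.eq_zero_or_pos (m i) with h | h
    · have := hm i
      rw [h, mul_zero] at this
      omega
    · exact h
  have hq : ∀ i, n / (f i * c i) = m i := by
    intro i
    have h1 : 0 < f i * c i := by
      have h2 := hc i
      rcases hf i with h | h <;> rw [h] <;> omega
    conv_lhs => rw [hm i]
    exact Nat.mul_div_cancel_left _ h1
  simp only [hq] at hs
  -- lower bounds for the terms
  have hterm : ∀ i, n ≤ 4 * (m i * (c i - 1)) ∧ (f i = 1 → n ≤ 2 * (m i * (c i - 1))) := by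
    intro i
    have h1 := PT0_pred (m := m i) (hc i)
    have h2 : 2 * m i ≤ c i * m i := Nat.mul_le_mul_right (m i) (hc i)
    have h3 : n = f i * (c i * m i) := by rw [← mul_assoc]; exact hm i
    constructor
    · rcases hf i with h | h <;> rw [h] at h3 <;> omega
    · intro h
      rw [h] at h3
      omega
  have hcard : Fintype.card ι * n ≤ 4 * (n - 1) := by
    rw [← hs, Finset.mul_sum]
    calc Fintype.card ι * n = ∑ i : ι, n := by simp
      _ ≤ ∑ i, 4 * (m i * (c i - 1)) := Finset.sum_le_sum fun i _ => (hterm i).1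
  have hcard4 : Fintype.card ι < 4 := by
    by_contra hcon
    push Not at hcon
    have := Nat.mul_le_mul_right n hcon
    omega
  -- the case of an index with `f = 1` and one with `f = 2`, no others
  have hA : ∀ i j : ι, (∀ l, l = i ∨ l = j) → f i = 1 → f j = 2 →
      m i * (c i - 1) + m j * (c j - 1) = n - 1 →
      (∃ i, f i * c i = n) ∨ (n = 12 ∧ (∃ i, f i = 1 ∧ c i = 3) ∧ ∀ i, c i = 2 ∨ c i = 3) := by
    intro i j hl hi hj hsum
    have h1 : n = c i * m i := by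
      have := hm i
      rwa [hi, one_mul] at this
    have h2 : n = 2 * (c j * m j) := by
      have := hm j
      rwa [hj, mul_assoc] at this
    rcases PT0_A (c i) (m i) (c j) (m j) n h1 h2 (hm0 j) (hc i) (hc j) hn hsum with h3 | ⟨h3, h4, h5⟩
    · left
      exact ⟨j, by rw [hj]; exact h3⟩
    · right
      refine ⟨h3, ⟨i, hi, h4⟩, fun l => ?_⟩
      rcases hl l with rfl | rfl
      · exact Or.inr h4
      · exact Or.inl h5
  have hk : Fintype.card ι = 0 ∨ Fintype.card ι = 1 ∨ Fintype.card ι = 2 ∨ Fintype.card ι = 3 := by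
    omega
  rcases hk with hk | hk | hk | hk
  · have h1 : IsEmpty ι := Fintype.card_eq_zero_iff.1 hk
    rw [Finset.univ_eq_empty, Finset.sum_empty] at hs
    omega
  · let e : Fin 1 ≃ ι := (Fintype.equivFinOfCardEq hk).symm
    rw [← Equiv.sum_comp e, Fin.sum_univ_one] at hs
    left
    refine ⟨e 0, ?_⟩
    have h1 := PT0_pred (m := m (e 0)) (hc (e 0))
    have h2 := hm (e 0)
    have h3 := hc (e 0)
    have h4 := hm0 (e 0)
    have h5 : 2 * m (e 0) ≤ c (e 0) * m (e 0) := Nat.mul_le_mul_right _ h3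
    rw [mul_assoc] at h2
    rcases hf (e 0) with h | h
    · rw [h] at h2 ⊢
      have h6 : m (e 0) = 1 := by omega
      rw [h6] at h2
      omega
    · rw [h] at h2
      omega
  · let e : Fin 2 ≃ ι := (Fintype.equivFinOfCardEq hk).symm
    rw [← Equiv.sum_comp e, Fin.sum_univ_two] at hs
    have hl : ∀ l, l = e 0 ∨ l = e 1 := by
      intro l
      obtain ⟨a, rfl⟩ := e.surjective l
      fin_cases a
      · exact Or.inl rfl
      · exact Or.inr rfl
    have t0 := hterm (e 0)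
    have t1 := hterm (e 1)
    rcases hf (e 0) with h0 | h0 <;> rcases hf (e 1) with h1 | h1
    · have := t0.2 h0
      have := t1.2 h1
      omega
    · rcases hA (e 0) (e 1) hl h0 h1 hs with h | h
      · exact Or.inl h
      · exact Or.inr (Or.inl h)
    · rcases hA (e 1) (e 0) (fun l => (hl l).symm) h1 h0 (by rw [add_comm]; exact hs) with h | h
      · exact Or.inl h
      · exact Or.inr (Or.inl h)
    · exfalso
      have a0 := PT0_pred (m := m (e 0)) (hc (e 0))
      have a1 := PT0_pred (m := m (e 1)) (hc (e 1))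
      have b0 := hm (e 0)
      have b1 := hm (e 1)
      rw [h0, mul_assoc] at b0
      rw [h1, mul_assoc] at b1
      have d0 := hm0 (e 0)
      have d1 := hm0 (e 1)
      omega
  · let e0 : Fin 3 ≃ ι := (Fintype.equivFinOfCardEq hk).symm
    obtain ⟨e, hmono⟩ : ∃ e : Fin 3 ≃ ι, Monotone (fun a => c (e a)) :=
      ⟨(Tuple.sort (fun a => c (e0 a))).trans e0, Tuple.monotone_sort (fun a => c (e0 a))⟩
    rw [← Equiv.sum_comp e, Fin.sum_univ_three] at hs
    have hl : ∀ l, l = e 0 ∨ l = e 1 ∨ l = e 2 := by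
      intro l
      obtain ⟨a, rfl⟩ := e.surjective l
      fin_cases a
      · exact Or.inl rfl
      · exact Or.inr (Or.inl rfl)
      · exact Or.inr (Or.inr rfl)
    have t0 := hterm (e 0)
    have t1 := hterm (e 1)
    have t2 := hterm (e 2)
    have h0 : f (e 0) = 2 := by
      rcases hf (e 0) with h | h
      · have := t0.2 h
        omega
      · exact h
    have h1 : f (e 1) = 2 := by
      rcases hf (e 1) with h | h
      · have := t1.2 h
        omega
      · exact h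
    have h2 : f (e 2) = 2 := by
      rcases hf (e 2) with h | h
      · have := t2.2 h
        omega
      · exact h
    have hf2 : ∀ i, f i = 2 := by
      intro i
      rcases hl i with rfl | rfl | rfl
      · exact h0
      · exact h1
      · exact h2
    have a0 := PT0_pred (m := m (e 0)) (hc (e 0))
    have a1 := PT0_pred (m := m (e 1)) (hc (e 1))
    have a2 := PT0_pred (m := m (e 2)) (hc (e 2))
    have b0 := hm (e 0)
    have b1 := hm (e 1)
    have b2 := hm (e 2)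
    rw [h0, mul_assoc] at b0
    rw [h1, mul_assoc] at b1
    rw [h2, mul_assoc] at b2
    have hC := PT0_C (c (e 0)) (m (e 0)) (c (e 1)) (m (e 1)) (c (e 2)) (m (e 2)) (c (e 0) * m (e 0)) rfl
      (by omega) (by omega) (hm0 _) (hm0 _) (hc _) (hmono (by decide)) (hmono (by decide)) (by omega)
    rcases hC with h | ⟨h, h3, h4⟩ | ⟨h, h3, h4, h5⟩ | ⟨h, h3, h4, h5⟩
    · left
      exact ⟨e 2, by rw [h2]; omega⟩
    · right; right; left
      refine ⟨by omega, e 1, e 2, ?_, h3, h4⟩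
      intro h6
      have h7 := e.injective h6
      exact absurd h7 (by decide)
    · right; right; right; left
      exact ⟨by omega, hf2, e 0, e 1, e 2, h3, h4, h5, hl⟩
    · right; right; right; right
      exact ⟨by omega, hf2, e 0, e 1, e 2, h3, h4, h5, hl⟩

end MX
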