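import Pool.Agent.helper81.MX.Defs3

set_option autoImplicit false

/-! Row mx:PT1 (helper79). -/

namespace MX

theorem PT1_cj_one {X : Type*} [Group X] (C : Subgroup X) : cj 1 C = C := by
  ext x
  rw [mem_cj, inv_one, one_mul, mul_one]

theorem PT1_cj_mul {X : Type*} [Group X] (g h : X) (C : Subgroup X) :
    cj (g * h) C = cj g (cj h C) := by
  ext x
  rw [mem_cj, mem_cj, mem_cj]
  have h1 : (g * h)⁻¹ * x * (g * h) = h⁻¹ * (g⁻¹ * x * g) * h := by group
  rw [h1]

theorem PT1_norm {X : Type*} [Group X] (g : X) (C : Subgroup X) :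
    g ∈ Subgroup.normalizer (C : Set X) ↔ cj g C = C :=
  Subgroup.mem_normalizer_iff_map_conj_eq

theorem PT1_card_cj {X : Type*} [Group X] (g : X) (C : Subgroup X) :
    Nat.card (cj g C) = Nat.card C :=
  (Nat.card_congr (C.equivMapOfInjective (MulAut.conj g).toMonoidHom
    (MulAut.conj g).injective).toEquiv).symm

theorem PT1_orbit {X : Type*} [Group X] [Finite X] (C : Subgroup X) :
    Nat.card (Set.range (fun g : X => cj g C)) =
      Nat.card X / Nat.card (Subgroup.normalizer (C : Set X)) := by
  have h1 : Nat.card (Set.range (fun g : X => cj g C)) =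
      (Subgroup.normalizer (C : Set X)).index := by
    rw [← Nat.card_congr (Setoid.quotientKerEquivRange (fun g : X => cj g C))]
    have h2 : Setoid.ker (fun g : X => cj g C) =
        QuotientGroup.leftRel (Subgroup.normalizer (C : Set X)) := by
      ext a b
      rw [Setoid.ker_def, QuotientGroup.leftRel_apply, PT1_norm]
      constructor
      · intro h
        rw [PT1_cj_mul, ← h, ← PT1_cj_mul, inv_mul_cancel, PT1_cj_one]
      · intro h
        have h3 : cj a (cj (a⁻¹ * b) C) = cj a C := by rw [h]
        rw [← PT1_cj_mul, mul_inv_cancel_left] at h3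
        exact h3.symm
    rw [h2]
    rfl
  rw [h1, ← Subgroup.card_mul_index (Subgroup.normalizer (C : Set X)),
    Nat.mul_div_cancel_left _ Nat.card_pos]

theorem PT1_refl {X : Type*} [Group X] (C : Subgroup X) : SC C C := ⟨1, PT1_cj_one C⟩

theorem PT1_symm {X : Type*} [Group X] {C D : Subgroup X} (h : SC C D) : SC D C := by
  obtain ⟨g, rfl⟩ := h
  exact ⟨g⁻¹, by rw [← PT1_cj_mul, inv_mul_cancel, PT1_cj_one]⟩

theorem PT1_trans {X : Type*} [Group X] {C D E : Subgroup X} (h : SC C D) (h' : SC D E) :
    SC C E := by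
  obtain ⟨g, rfl⟩ := h
  obtain ⟨k, rfl⟩ := h'
  exact ⟨k * g, PT1_cj_mul k g C⟩

theorem PT1_total {X : Type*} [Group X] [Fintype X] (P : Set (Subgroup X)) [Fintype P]
    (h : Part X P) : ∑ D : P, (Nat.card D.1 - 1) = Nat.card X - 1 := by
  classical
  have h1 : (Finset.univ.erase (1 : X)) =
      Finset.univ.biUnion (fun D : P => (Finset.univ.filter (fun x : X => x ∈ D.1)).erase 1) := by
    ext x
    simp only [Finset.mem_erase, Finset.mem_univ, and_true, Finset.mem_biUnion, true_and,
      Finset.mem_filter]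
    constructor
    · intro hx
      obtain ⟨C, hC, hxC⟩ := h.cov x hx
      exact ⟨⟨C, hC⟩, hx, hxC⟩
    · rintro ⟨-, hx, -⟩
      exact hx
  have h2 : Nat.card X - 1 = (Finset.univ.erase (1 : X)).card := by
    rw [Finset.card_erase_of_mem (Finset.mem_univ _), Finset.card_univ, Nat.card_eq_fintype_card]
  rw [h2, h1, Finset.card_biUnion]
  · refine Finset.sum_congr rfl fun D _ => ?_
    rw [Finset.card_erase_of_mem (by simp [D.1.one_mem]), Nat.card_eq_fintype_card,
      Fintype.card_subtype]
  · intro D _ E _ hne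
    refine Finset.disjoint_left.2 ?_
    intro x hx hx'
    simp only [Finset.mem_erase, Finset.mem_filter, Finset.mem_univ, true_and] at hx hx'
    exact hne (Subtype.ext (h.dis D.1 D.2 E.1 E.2 x hx.1 hx.2 hx'.2))

/-- PT1 -/
theorem class_eq {X : Type*} [Group X] [Finite X] (P : Set (Subgroup X)) (h : Part X P) :
    ∃ (m : ℕ) (C : Fin m → Subgroup X), (∀ i, C i ∈ P) ∧ (∀ D ∈ P, ∃ i, SC (C i) D) ∧
      (∀ i j, SC (C i) (C j) → i = j) ∧
      ∑ i, (Nat.card X / Nat.card (Subgroup.normalizer (C i : Set X))) * (Nat.card (C i) - 1) =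
        Nat.card X - 1 := by
  classical
  let _ : Fintype X := Fintype.ofFinite X
  let _ : Fintype P := Fintype.ofFinite P
  let r : Setoid P :=
    { r := fun D E => SC D.1 E.1
      iseqv := ⟨fun D => PT1_refl D.1, fun {_ _} h => PT1_symm h, fun {_ _ _} h h' =>
        PT1_trans h h'⟩ }
  let _ : Fintype (Quotient r) := Fintype.ofFinite (Quotient r)
  let e : Fin (Nat.card (Quotient r)) ≃ Quotient r := (Finite.equivFin (Quotient r)).symm
  have hout : ∀ q : Quotient r, ∀ D : P, Quotient.mk r D = q ↔ SC (Quotient.out q).1 D.1 := by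
    intro q D
    constructor
    · intro hq
      have h1 : Quotient.mk r (Quotient.out q) = Quotient.mk r D := by
        rw [Quotient.out_eq, hq]
      exact Quotient.exact h1
    · intro hq
      have h1 : Quotient.mk r (Quotient.out q) = Quotient.mk r D := Quotient.sound hq
      rw [← h1, Quotient.out_eq]
  refine ⟨Nat.card (Quotient r), fun i => (Quotient.out (e i)).1, fun i => (Quotient.out (e i)).2,
    ?_, ?_, ?_⟩
  · intro D hD
    refine ⟨e.symm (Quotient.mk r ⟨D, hD⟩), ?_⟩
    have h1 := (hout (e (e.symm (Quotient.mk r ⟨D, hD⟩))) ⟨D, hD⟩).1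
      (Equiv.apply_symm_apply e _).symm
    exact h1
  · intro i j hij
    have h1 : Quotient.mk r (Quotient.out (e i)) = Quotient.mk r (Quotient.out (e j)) :=
      Quotient.sound hij
    rw [Quotient.out_eq, Quotient.out_eq] at h1
    exact e.injective h1
  · rw [e.sum_comp (fun q : Quotient r => (Nat.card X /
      Nat.card (Subgroup.normalizer ((Quotient.out q).1 : Set X))) *
        (Nat.card (Quotient.out q).1 - 1))]
    rw [← PT1_total P h, ← Finset.sum_fiberwise Finset.univ (fun D : P => Quotient.mk r D)]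
    refine Finset.sum_congr rfl fun q _ => ?_
    have h1 : ∀ D ∈ Finset.univ.filter (fun D : P => Quotient.mk r D = q),
        Nat.card D.1 - 1 = Nat.card (Quotient.out q).1 - 1 := by
      intro D hD
      rw [Finset.mem_filter] at hD
      obtain ⟨g, hg⟩ := (hout q D).1 hD.2
      rw [← hg, PT1_card_cj]
    rw [Finset.sum_congr rfl h1, Finset.sum_const, smul_eq_mul]
    congr 1
    rw [← PT1_orbit, ← Fintype.card_subtype, ← Nat.card_eq_fintype_card]
    refine Nat.card_congr ?_
    exact
      { toFun := fun D => ⟨⟨D.1, by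
            obtain ⟨g, hg⟩ := D.2
            rw [← hg]
            exact h.conj _ (Quotient.out q).2 g⟩, (hout q _).2 D.2⟩
        invFun := fun D => ⟨D.1.1, (hout q _).1 D.2⟩
        left_inv := fun D => rfl
        right_inv := fun D => rfl }

end MX
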