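import Pool.Agent.helper81.MX.Defs3
import Pool.Agent.helper81.MX.PT0
import Pool.Agent.helper81.MX.PT1

set_option autoImplicit false

namespace MX
open scoped MatrixGroups Pointwise

theorem pt2_card_cj {X : Type*} [Group X] (g : X) (H : Subgroup X) :
    Nat.card (cj g H) = Nat.card H :=
  Subgroup.card_map_of_injective (MulAut.conj g).injective

theorem pt2_normalizer_cj {X : Type*} [Group X] (g : X) (H : Subgroup X) :
    Subgroup.normalizer (cj g H : Set X) = cj g (Subgroup.normalizer (H : Set X)) := by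
  ext x
  rw [mem_cj, Subgroup.mem_normalizer_iff, Subgroup.mem_normalizer_iff]
  constructor
  · intro h y
    have := h (g * y * g⁻¹)
    simp only [mem_cj] at this ⊢
    have e1 : g⁻¹ * (g * y * g⁻¹) * g = y := by group
    have e2 : g⁻¹ * (x * (g * y * g⁻¹) * x⁻¹) * g = g⁻¹ * x * g * y * (g⁻¹ * x * g)⁻¹ := by group
    rw [e1, e2] at this
    exact this
  · intro h y
    have := h (g⁻¹ * y * g)
    simp only [mem_cj] at this ⊢
    have e2 : g⁻¹ * x * g * (g⁻¹ * y * g) * (g⁻¹ * x * g)⁻¹ = g⁻¹ * (x * y * x⁻¹) * g := by group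
    rw [e2] at this
    exact this

theorem pt2_cj_cj {X : Type*} [Group X] (g k : X) (H : Subgroup X) :
    cj g (cj k H) = cj (g * k) H := by
  ext x
  rw [mem_cj, mem_cj, mem_cj]
  have e : k⁻¹ * (g⁻¹ * x * g) * k = (g * k)⁻¹ * x * (g * k) := by group
  rw [e]

theorem pt2_cj_one {X : Type*} [Group X] (H : Subgroup X) : cj 1 H = H := by
  ext x
  rw [mem_cj]
  simp

theorem pt2_SC_symm {X : Type*} [Group X] {H K : Subgroup X} (h : SC H K) : SC K H := by
  obtain ⟨g, rfl⟩ := h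
  exact ⟨g⁻¹, by rw [pt2_cj_cj, inv_mul_cancel, pt2_cj_one]⟩

theorem pt2_SC_trans {X : Type*} [Group X] {H K L : Subgroup X} (h : SC H K) (h' : SC K L) :
    SC H L := by
  obtain ⟨g, rfl⟩ := h
  obtain ⟨k, rfl⟩ := h'
  exact ⟨k * g, (pt2_cj_cj k g H).symm⟩

theorem pt2_SC_card {X : Type*} [Group X] {H K : Subgroup X} (h : SC H K) :
    Nat.card K = Nat.card H := by
  obtain ⟨g, rfl⟩ := h
  exact pt2_card_cj g H

theorem pt2_SC_norm {X : Type*} [Group X] {H K : Subgroup X} (h : SC H K) :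
    Nat.card (Subgroup.normalizer (K : Set X)) = Nat.card (Subgroup.normalizer (H : Set X)) := by
  obtain ⟨g, rfl⟩ := h
  rw [pt2_normalizer_cj]
  exact pt2_card_cj g _

theorem pt2_sylow {X : Type*} [Group X] [Finite X] (hX : Nat.card X = 12) (H K : Subgroup X)
    (hH : Nat.card H = 3) (hK : Nat.card K = 3) : SC H K := by
  have hfac : (Nat.card X).factorization 3 = 1 := by
    rw [hX]
    have h12 : (12 : ℕ) = 3 * 4 := rfl
    rw [h12, Nat.factorization_mul (by norm_num) (by norm_num), Finsupp.add_apply,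
      Nat.Prime.factorization_self Nat.prime_three,
      Nat.factorization_eq_zero_of_not_dvd (by norm_num)]
  have : Fact (Nat.Prime 3) := ⟨Nat.prime_three⟩
  let SH : Sylow 3 X := Sylow.ofCard H (by rw [hfac, hH]; norm_num)
  let SK : Sylow 3 X := Sylow.ofCard K (by rw [hfac, hK]; norm_num)
  obtain ⟨g, hg⟩ := MulAction.exists_smul_eq X SH SK
  refine ⟨g, ?_⟩
  have h1 : ((g • SH : Sylow 3 X) : Subgroup X) = K := by rw [hg]; rfl
  have h2 : ((g • SH : Sylow 3 X) : Subgroup X) = MulAut.conj g • H := rfl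
  rw [← h1, h2]
  ext x
  rw [mem_cj, Subgroup.mem_pointwise_smul_iff_inv_smul_mem]
  have : (MulAut.conj g)⁻¹ • x = g⁻¹ * x * g := by
    rw [← map_inv, MulAut.smul_def, MulAut.conj_apply, inv_inv]
  rw [this]

theorem pt2_tri {X : Type*} [Group X] [Finite X] (P : Set (Subgroup X)) (m n q : ℕ)
    (C : Fin m → Subgroup X) (hCP : ∀ i, C i ∈ P) (hcov : ∀ D ∈ P, ∃ i, SC (C i) D)
    (hn : Nat.card X = n) (hq2 : q ≠ 2) (hq3 : q ≠ 3)
    (hN : ∀ i, Nat.card (Subgroup.normalizer (C i : Set X)) = 2 * Nat.card (C i))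
    (i j k : Fin m) (hi : Nat.card (C i) = 2) (hj : Nat.card (C j) = 3) (hk : Nat.card (C k) = q)
    (hall : ∀ l, l = i ∨ l = j ∨ l = k) : Tri X P n q := by
  have hcase : ∀ l, Nat.card (C l) = 2 ∨ Nat.card (C l) = 3 ∨ Nat.card (C l) = q := by
    intro l
    rcases hall l with rfl | rfl | rfl
    · exact Or.inl hi
    · exact Or.inr (Or.inl hj)
    · exact Or.inr (Or.inr hk)
  have hinj : ∀ l l', Nat.card (C l) = Nat.card (C l') → l = l' := by
    intro l l' hll
    rcases hall l with rfl | rfl | rfl <;> rcases hall l' with rfl | rfl | rfl <;>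
      first
      | rfl
      | (exfalso; omega)
  refine ⟨hn, ?_, ?_, ⟨C i, hCP i, hi⟩, ⟨C j, hCP j, hj⟩, ⟨C k, hCP k, hk⟩⟩
  · intro D hD
    obtain ⟨l, hl⟩ := hcov D hD
    rw [pt2_SC_norm hl, pt2_SC_card hl]
    exact ⟨hcase l, hN l⟩
  · intro D hD E hE hDE
    obtain ⟨l, hl⟩ := hcov D hD
    obtain ⟨l', hl'⟩ := hcov E hE
    have : l = l' := hinj l l' (by rw [← pt2_SC_card hl, ← pt2_SC_card hl', hDE])
    subst this
    exact pt2_SC_trans (pt2_SC_symm hl) hl'

/-- PT2 -/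
theorem part_cases {X : Type*} [Group X] [Finite X] (P : Set (Subgroup X)) (h : Part X P)
    (hX : 2 ≤ Nat.card X) :
    (∃ C ∈ P, Subgroup.normalizer (C : Set X) = ⊤) ∨
    (Nat.card X = 12 ∧ (∃ C ∈ P, Nat.card C = 3 ∧ Nat.card (Subgroup.normalizer (C : Set X)) = 3) ∧
      ∀ D ∈ P, Nat.card D = 2 ∨ Nat.card D = 3) ∨
    Tri X P 24 4 ∨ Tri X P 60 5 := by
  obtain ⟨m, C, hCP, hcov, hinj, hsum⟩ := class_eq P h
  have hc : ∀ i, 2 ≤ Nat.card (C i) := by
    intro i
    have h1 : 1 < Nat.card (C i) := (Subgroup.one_lt_card_iff_ne_bot _).2 (h.ne _ (hCP i))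
    omega
  have hex : ∀ i, ∃ f : ℕ, (f = 1 ∨ f = 2) ∧
      f * Nat.card (C i) = Nat.card (Subgroup.normalizer (C i : Set X)) := by
    intro i
    rcases h.idx _ (hCP i) with h1 | h1
    · exact ⟨1, Or.inl rfl, by rw [h1, one_mul]⟩
    · exact ⟨2, Or.inr rfl, h1.symm⟩
  choose f hf hfN using hex
  have hd : ∀ i, f i * Nat.card (C i) ∣ Nat.card X := by
    intro i
    rw [hfN]
    exact Subgroup.card_subgroup_dvd_card _
  have hs : ∑ i, (Nat.card X / (f i * Nat.card (C i))) * (Nat.card (C i) - 1) =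
      Nat.card X - 1 := by
    rw [← hsum]
    refine Finset.sum_congr rfl ?_
    intro i _
    rw [hfN]
  rcases numeric (Nat.card X) hX (fun i => Nat.card (C i)) f hc hf hd hs with
    ⟨i, hi⟩ | ⟨hn, ⟨i, hi1, hi2⟩, hall⟩ | ⟨hn, i, j, hij, hi, hj⟩ |
    ⟨hn, hf2, i, j, k, hi, hj, hk, hall⟩ | ⟨hn, hf2, i, j, k, hi, hj, hk, hall⟩
  · refine Or.inl ⟨C i, hCP i, ?_⟩
    apply Subgroup.eq_top_of_card_eq
    rw [← hfN]
    exact hi
  · refine Or.inr (Or.inl ⟨hn, ⟨C i, hCP i, hi2, ?_⟩, ?_⟩)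
    · rw [← hfN, hi1, one_mul]
      exact hi2
    · intro D hD
      obtain ⟨l, hl⟩ := hcov D hD
      rw [pt2_SC_card hl]
      exact hall l
  · exact absurd (hinj i j (pt2_sylow hn (C i) (C j) hi hj)) hij
  · refine Or.inr (Or.inr (Or.inl ?_))
    exact pt2_tri P m 24 4 C hCP hcov hn (by norm_num) (by norm_num)
      (fun i => by rw [← hfN, hf2]) i j k hi hj hk hall
  · refine Or.inr (Or.inr (Or.inr ?_))
    exact pt2_tri P m 60 5 C hCP hcov hn (by norm_num) (by norm_num)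
      (fun i => by rw [← hfN, hf2]) i j k hi hj hk hall

end MX
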