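import Pool.Agent.helper81.MX.Defs3

set_option autoImplicit false

namespace MX
open scoped MatrixGroups

/-- PT3 -/
theorem klein12 {X : Type*} [Group X] [Finite X] (P : Set (Subgroup X)) (h : Part X P)
    (hX : Nat.card X = 12)
    (hC : ∃ C ∈ P, Nat.card C = 3 ∧ Nat.card (Subgroup.normalizer (C : Set X)) = 3)
    (hD : ∀ D ∈ P, Nat.card D = 2 ∨ Nat.card D = 3) : ∃ V : Subgroup X, KleinN V := by
  classical
  obtain ⟨C, hCP, hC3, hCN⟩ := hC
  have hNC : C = Subgroup.normalizer (C : Set X) :=
    Subgroup.eq_of_le_of_card_ge Subgroup.le_normalizer (by rw [hCN, hC3])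
  have hcyc : IsCyclic C := h.cyc C hCP
  obtain ⟨c, hc⟩ := (Subgroup.isCyclic_iff_exists_zpowers_eq_top C).1 hcyc
  have hcC : c ∈ C := by
    rw [← hc]
    exact Subgroup.mem_zpowers c
  have hord : orderOf c = 3 := by
    rw [← Nat.card_zpowers, hc, hC3]
  have hc3 : c ^ 3 = 1 := by
    rw [← hord]
    exact pow_orderOf_eq_one c
  have hc1 : c ≠ 1 := by
    rintro rfl
    rw [orderOf_one] at hord
    omega
  have hcc : c ≠ c⁻¹ := by
    intro h1
    have h2 : c ^ 2 = 1 := by
      rw [pow_two]
      nth_rewrite 2 [h1]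
      exact mul_inv_cancel c
    have h3 := orderOf_dvd_of_pow_eq_one h2
    rw [hord] at h3
    omega
  -- normalizing
  have hnorm : ∀ g : X, (g * c * g⁻¹ = c ∨ g * c * g⁻¹ = c⁻¹) → g ∈ C := by
    intro g hg
    rw [hNC, Subgroup.mem_normalizer_iff]
    have h0 : g * c * g⁻¹ ∈ C := by
      rcases hg with h1 | h1
      · rw [h1]
        exact hcC
      · rw [h1]
        exact C.inv_mem hcC
    have h1 : ∀ x ∈ C, g * x * g⁻¹ ∈ C := by
      intro x hx
      rw [← hc] at hx
      obtain ⟨k, rfl⟩ := Subgroup.mem_zpowers_iff.1 hx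
      have h2 : g * c ^ k * g⁻¹ = (g * c * g⁻¹) ^ k := (conj_zpow (i := k) (a := g) (b := c)).symm
      rw [h2]
      exact C.zpow_mem h0 k
    have h2 : Function.Bijective (fun x : C => (⟨g * x * g⁻¹, h1 x x.2⟩ : C)) := by
      refine Finite.injective_iff_bijective.1 ?_
      intro x y hxy
      have h3 := congrArg Subtype.val hxy
      simp only at h3
      exact Subtype.ext (mul_left_cancel (mul_right_cancel h3))
    intro x
    constructor
    · exact h1 x
    · intro hx
      obtain ⟨y, hy⟩ := h2.2 ⟨_, hx⟩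
      have h3 := congrArg Subtype.val hy
      simp only at h3
      have h4 : (y : X) = x := mul_left_cancel (mul_right_cancel h3)
      rw [← h4]
      exact y.2
  have hcomm : ∀ g ∈ C, g * c * g⁻¹ = c := by
    intro g hg
    rw [← hc] at hg
    obtain ⟨k, rfl⟩ := Subgroup.mem_zpowers_iff.1 hg
    have : c ^ k * c = c * c ^ k := by
      rw [← zpow_add_one, ← zpow_one_add, add_comm]
    rw [this]
    group
  -- the eight elements
  let F : (X ⧸ C) × Bool → X := fun z => z.1.out * (if z.2 then c else c⁻¹) * (z.1.out)⁻¹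
  have hFinj : Function.Injective F := by
    rintro ⟨q, b⟩ ⟨q', b'⟩ hF
    simp only [F] at hF
    have hh : ∀ g g' : X, g * (if b then c else c⁻¹) * g⁻¹ = g' * (if b' then c else c⁻¹) * g'⁻¹ →
        g'⁻¹ * g ∈ C ∧ b = b' := by
      intro g g' hg
      have h1 : (g'⁻¹ * g) * (if b then c else c⁻¹) * (g'⁻¹ * g)⁻¹ = (if b' then c else c⁻¹) := by
        calc (g'⁻¹ * g) * (if b then c else c⁻¹) * (g'⁻¹ * g)⁻¹
            = g'⁻¹ * (g * (if b then c else c⁻¹) * g⁻¹) * g' := by group
          _ = g'⁻¹ * (g' * (if b' then c else c⁻¹) * g'⁻¹) * g' := by rw [hg]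
          _ = _ := by group
      generalize g'⁻¹ * g = k at h1 ⊢
      have h2 : k ∈ C := by
        apply hnorm
        cases b <;> cases b'
        · left
          simp only [Bool.false_eq_true, if_false] at h1
          have h3 := congrArg (·⁻¹) h1
          simp only [mul_inv_rev, inv_inv] at h3
          rw [← mul_assoc] at h3
          exact h3
        · right
          simp only [Bool.false_eq_true, if_false, if_true] at h1
          have h3 := congrArg (·⁻¹) h1
          simp only [mul_inv_rev, inv_inv] at h3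
          rw [← mul_assoc] at h3
          exact h3
        · right
          simpa using h1
        · left
          simpa using h1
      refine ⟨h2, ?_⟩
      have h4 := hcomm k h2
      have h5 : k * c⁻¹ * k⁻¹ = c⁻¹ := by
        have h6 := congrArg (·⁻¹) h4
        simp only [mul_inv_rev, inv_inv] at h6
        rw [← mul_assoc] at h6
        exact h6
      cases b <;> cases b'
      · rfl
      · simp only [Bool.false_eq_true, if_false, if_true] at h1
        rw [h5] at h1
        exact absurd h1.symm hcc
      · simp only [Bool.false_eq_true, if_false, if_true] at h1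
        rw [h4] at h1
        exact absurd h1 hcc
      · rfl
    obtain ⟨h1, h2⟩ := hh _ _ hF
    have h3 : q' = q := by
      rw [← QuotientGroup.out_eq' q, ← QuotientGroup.out_eq' q']
      exact QuotientGroup.eq.2 h1
    rw [h3, h2]
  have hF3 : ∀ z, F z ^ 3 = 1 ∧ F z ≠ 1 := by
    intro z
    simp only [F]
    constructor
    · rw [conj_pow]
      split_ifs
      · rw [hc3, mul_one, mul_inv_cancel]
      · rw [inv_pow, hc3, inv_one, mul_one, mul_inv_cancel]
    · intro h1
      have h2 : (if z.2 = true then c else c⁻¹) = 1 := by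
        calc (if z.2 = true then c else c⁻¹)
            = z.1.out⁻¹ * (z.1.out * (if z.2 = true then c else c⁻¹) * z.1.out⁻¹) * z.1.out := by
              group
          _ = 1 := by rw [h1]; group
      split_ifs at h2
      · exact hc1 h2
      · exact hc1 (inv_eq_one.1 h2)
  have hidx : Nat.card (X ⧸ C) = 4 := by
    have h1 := Subgroup.card_eq_card_quotient_mul_card_subgroup C
    rw [hX, hC3] at h1
    omega
  have hT : (Set.range F).ncard = 8 := by
    rw [← Set.image_univ, Set.ncard_image_of_injective _ hFinj, Set.ncard_univ, Nat.card_prod,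
      hidx]
    simp
  -- the Sylow 2-subgroup
  have hf2 : Fact (Nat.Prime 2) := ⟨Nat.prime_two⟩
  obtain ⟨V, hV⟩ := Sylow.exists_subgroup_card_pow_prime (G := X) 2 (n := 2) (by
    rw [hX]
    norm_num)
  have hV4 : Nat.card V = 4 := by rw [hV]; norm_num
  have hVp : ∀ v ∈ V, v ^ 4 = 1 := by
    intro v hv
    have h1 := pow_card_eq_one' (G := V) (x := ⟨v, hv⟩)
    rw [hV4] at h1
    exact congrArg Subtype.val h1
  have hno : ∀ v ∈ V, ¬ (v ^ 3 = 1 ∧ v ≠ 1) := by
    rintro v hv ⟨h1, h2⟩
    apply h2
    have h3 := hVp v hv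
    rw [pow_succ, h1, one_mul] at h3
    exact h3
  have hVT : (V : Set X) ⊆ (Set.range F)ᶜ := by
    rintro v hv ⟨z, rfl⟩
    exact hno _ hv (hF3 z)
  have hcardT : ((Set.range F)ᶜ).ncard = 4 := by
    have h1 := Set.ncard_add_ncard_compl (Set.range F)
    rw [hT, hX] at h1
    omega
  have hVeq : (V : Set X) = (Set.range F)ᶜ := by
    refine Set.eq_of_subset_of_ncard_le hVT ?_
    rw [hcardT]
    have : (V : Set X).ncard = 4 := by
      rw [← hV4]
      rfl
    rw [this]
  have hmem : ∀ v : X, v ∈ V ↔ ¬ (v ^ 3 = 1 ∧ v ≠ 1) := by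
    intro v
    constructor
    · exact hno v
    · intro h1
      by_contra h2
      have h3 : v ∈ Set.range F := by
        by_contra h4
        apply h2
        have : v ∈ (V : Set X) := by
          rw [hVeq]
          exact h4
        exact this
      obtain ⟨z, rfl⟩ := h3
      exact h1 (hF3 z)
  have hVN : V.Normal := by
    refine ⟨fun v hv g => ?_⟩
    rw [hmem] at hv ⊢
    rintro ⟨h1, h2⟩
    apply hv
    rw [conj_pow] at h1
    constructor
    · calc v ^ 3 = g⁻¹ * (g * v ^ 3 * g⁻¹) * g := by group
        _ = 1 := by rw [h1]; group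
    · rintro rfl
      exact h2 (by group)
  have hV2 : ∀ v ∈ V, v * v = 1 := by
    intro v hv
    by_cases h1 : v = 1
    · rw [h1, mul_one]
    · obtain ⟨D, hDP, hvD⟩ := h.cov v h1
      have h2 := pow_card_eq_one' (G := D) (x := ⟨v, hvD⟩)
      rcases hD D hDP with h3 | h3
      · rw [h3] at h2
        have h4 := congrArg Subtype.val h2
        rw [← pow_two]
        exact h4
      · rw [h3] at h2
        have h4 := congrArg Subtype.val h2
        exact absurd ⟨h4, h1⟩ (hno v hv)
  refine ⟨V, hVN, hV4, hV2, fun v hv hv1 => ?_⟩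
  by_contra hcen
  push Not at hcen
  have h1 : v ∈ C := by
    apply hnorm
    left
    rw [← hcen c]
    group
  have h2 := pow_card_eq_one' (G := C) (x := ⟨v, h1⟩)
  rw [hC3] at h2
  exact hno v hv ⟨congrArg Subtype.val h2, hv1⟩

end MX
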