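import Pool.Agent.helper81.MX.PT5

set_option autoImplicit false

namespace MX
open scoped MatrixGroups

theorem PT4_core_index {X : Type*} [Group X] [Finite X] (N : Subgroup X) (hN : N.index = 3) :
    N.normalCore.index ∣ 6 := by
  rw [Subgroup.normalCore_eq_ker, Subgroup.index_ker]
  have h1 : Nat.card (MulAction.toPermHom X (X ⧸ N)).range ∣ Nat.card (Equiv.Perm (X ⧸ N)) :=
    Subgroup.card_subgroup_dvd_card _
  have h2 : Nat.card (Equiv.Perm (X ⧸ N)) = 6 := by
    rw [Nat.card_perm, ← Subgroup.index_eq_card, hN]
    rfl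
  rwa [h2] at h1

/-- PT4 -/
theorem klein24 {X : Type*} [Group X] [Finite X] (P : Set (Subgroup X)) (h : Part X P)
    (hT : Tri X P 24 4) : ∃ V : Subgroup X, KleinN V := by
  obtain ⟨hX, hP, hconj, -, -, ⟨C, hC, hCc⟩⟩ := hT
  set N := Subgroup.normalizer (C : Set X) with hN
  have hNc : Nat.card N = 8 := by rw [(hP C hC).2, hCc]
  have hNi : N.index = 3 := by
    have h1 := N.index_mul_card
    rw [hNc, hX] at h1
    omega
  set K := N.normalCore with hK
  have hKN : K ≤ N := N.normalCore_le
  have hKi : K.index ∣ 6 := PT4_core_index N hNi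
  have hKm : K.index * Nat.card K = 24 := by rw [K.index_mul_card, hX]
  have hKd : Nat.card K ∣ 8 := by
    rw [← hNc]
    exact Subgroup.card_dvd_of_le hKN
  have hKc : Nat.card K = 4 ∨ Nat.card K = 8 := by
    have h1 : K.index ≤ 6 := Nat.le_of_dvd (by norm_num) hKi
    have h2 : Nat.card K ≤ 8 := Nat.le_of_dvd (by norm_num) hKd
    have h3 : 0 < Nat.card K := Nat.card_pos
    interval_cases hk : Nat.card K <;> simp_all <;> omega
  have hKnorm : K.Normal := N.normalCore_normal
  have hcase : Nat.card K = 4 := by
    rcases hKc with h1 | h1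
    · exact h1
    · exfalso
      have hKeq : K = N := Subgroup.eq_of_le_of_card_ge hKN (by rw [h1, hNc])
      have hNnorm : N.Normal := by rw [← hKeq]; exact hKnorm
      have hcount := PT5_count P h C hC
      rw [← hN, hNi, hCc] at hcount
      have hsub : {x : X | x ≠ 1 ∧ ∃ g, x ∈ cj g C} ⊆ (N : Set X) := by
        rintro x ⟨-, g, hg⟩
        have h2 : x ^ 3 ∈ N := by
          have := Subgroup.pow_index_mem N x
          rwa [hNi] at this
        have h3 : x ^ 4 = 1 := by
          have h4 : orderOf x ∣ 4 := by
            have := Subgroup.orderOf_dvd_natCard (cj g C) hg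
            rwa [PT5_card_cj, hCc] at this
          exact orderOf_dvd_iff_pow_eq_one.mp h4
        have h5 : x = x ^ 4 * (x ^ 3)⁻¹ := by group
        rw [h3, one_mul] at h5
        have h6 : (x ^ 3)⁻¹ ∈ N := N.inv_mem h2
        rw [← h5] at h6
        exact h6
      have hle := Set.ncard_le_ncard hsub (Set.toFinite _)
      rw [hcount] at hle
      have hcN : (N : Set X).ncard = Nat.card N := rfl
      rw [hcN, hNc] at hle
      omega
  refine ⟨K, hKnorm, hcase, ?_, ?_⟩
  · -- exponent 2
    intro v hv
    by_cases hv1 : v = 1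
    · rw [hv1, mul_one]
    have hd : orderOf v ∣ 4 := by
      rw [← hcase]
      exact Subgroup.orderOf_dvd_natCard K hv
    have h124 : orderOf v = 1 ∨ orderOf v = 2 ∨ orderOf v = 4 := by
      have hle : orderOf v ≤ 4 := Nat.le_of_dvd (by norm_num) hd
      have hpos : 0 < orderOf v := orderOf_pos v
      interval_cases hk : orderOf v <;> simp_all
    rcases h124 with h1 | h1 | h1
    · exact absurd (orderOf_eq_one_iff.mp h1) hv1
    · have := pow_orderOf_eq_one v
      rw [h1, pow_two] at this
      exact this
    · exfalso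
      obtain ⟨E, hE, hvE⟩ := h.cov v hv1
      have hEd : 4 ∣ Nat.card E := by
        rw [← h1]
        exact Subgroup.orderOf_dvd_natCard E hvE
      have hE4 : Nat.card E = 4 := by
        rcases (hP E hE).1 with h2 | h2 | h2
        · rw [h2] at hEd; omega
        · rw [h2] at hEd; omega
        · exact h2
      have e1 := PT5_zpow E v hvE (by rw [hE4, h1])
      have e2 := PT5_zpow K v hv (by rw [hcase, h1])
      have hEK : E = K := by rw [← e1, e2]
      have h3 := (hP E hE).2
      rw [hE4, hEK, Subgroup.normalizer_eq_top_iff.mpr hKnorm, Subgroup.card_top, hX] at h3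
      omega
  · -- no central elements
    intro v hv hv1
    by_contra hcon
    push Not at hcon
    obtain ⟨E, hE, hvE⟩ := h.cov v hv1
    have h1 : ∀ g : X, cj g E = E := by
      intro g
      apply h.dis _ (h.conj E hE g) _ hE v hv1 _ hvE
      rw [mem_cj]
      have : g⁻¹ * v * g = v := by
        rw [mul_assoc, ← hcon g, ← mul_assoc, inv_mul_cancel, one_mul]
      rw [this]
      exact hvE
    have h2 : Subgroup.normalizer (E : Set X) = ⊤ := by
      rw [eq_top_iff]
      intro g _
      have h3 : cj 1 E = cj g E := by rw [h1, h1]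
      have h4 := (PT5_cj_eq_iff E 1 g).mp h3
      simpa using h4
    have h3 := (hP E hE).2
    rw [h2, Subgroup.card_top, hX] at h3
    rcases (hP E hE).1 with h4 | h4 | h4 <;> omega

end MX
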