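import Pool.Agent.helper81.MX.Defs3

set_option autoImplicit false

namespace MX
open scoped MatrixGroups

theorem PT5_cj_eq_iff {X : Type*} [Group X] (D : Subgroup X) (g k : X) :
    cj g D = cj k D ↔ g⁻¹ * k ∈ Subgroup.normalizer (D : Set X) := by
  rw [Subgroup.mem_normalizer_iff]
  constructor
  · intro h x
    have h1 : x ∈ D ↔ k * x * k⁻¹ ∈ cj k D := by
      rw [mem_cj]
      have : k⁻¹ * (k * x * k⁻¹) * k = x := by group
      rw [this]
    have h2 : k * x * k⁻¹ ∈ cj g D ↔ g⁻¹ * k * x * (g⁻¹ * k)⁻¹ ∈ D := by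
      rw [mem_cj]
      have : g⁻¹ * (k * x * k⁻¹) * g = g⁻¹ * k * x * (g⁻¹ * k)⁻¹ := by group
      rw [this]
    rw [h1, ← h, h2]
  · intro h
    ext x
    rw [mem_cj, mem_cj]
    have h1 := h (k⁻¹ * x * k)
    have h2 : g⁻¹ * k * (k⁻¹ * x * k) * (g⁻¹ * k)⁻¹ = g⁻¹ * x * g := by group
    rw [h2] at h1
    exact h1.symm

theorem PT5_card_conj {X : Type*} [Group X] (D : Subgroup X) :
    (Set.range (fun g : X => cj g D)).ncard = (Subgroup.normalizer (D : Set X)).index := by
  rw [Subgroup.index_eq_card]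
  have hw : ∀ a b : X, (QuotientGroup.leftRel (Subgroup.normalizer (D : Set X))).r a b →
      (⟨cj a D, ⟨a, rfl⟩⟩ : Set.range (fun g : X => cj g D)) = ⟨cj b D, ⟨b, rfl⟩⟩ := by
    intro a b hab
    have h1 : a⁻¹ * b ∈ Subgroup.normalizer (D : Set X) := QuotientGroup.leftRel_apply.mp hab
    apply Subtype.ext
    exact (PT5_cj_eq_iff D a b).mpr h1
  let f : X ⧸ Subgroup.normalizer (D : Set X) → Set.range (fun g : X => cj g D) :=
    Quotient.lift (fun a : X => (⟨cj a D, ⟨a, rfl⟩⟩ : Set.range (fun g : X => cj g D))) hw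
  have hf : Function.Bijective f := by
    constructor
    · intro a b
      induction a using Quotient.inductionOn with
      | h a =>
        induction b using Quotient.inductionOn with
        | h b =>
          intro hab
          have h1 : cj a D = cj b D := congrArg Subtype.val hab
          apply Quotient.sound
          exact QuotientGroup.leftRel_apply.mpr ((PT5_cj_eq_iff D a b).mp h1)
    · rintro ⟨_, ⟨a, rfl⟩⟩
      exact ⟨Quotient.mk _ a, rfl⟩
  have h1 := Nat.card_congr (Equiv.ofBijective f hf)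
  rw [h1]
  rfl

theorem PT5_card_cj {X : Type*} [Group X] (D : Subgroup X) (g : X) :
    Nat.card (cj g D) = Nat.card D := by
  unfold cj
  exact Subgroup.card_map_of_injective (MulAut.conj g).injective

/-- the number of nontrivial elements in the conjugates of a member -/
theorem PT5_count {X : Type*} [Group X] [Finite X] (P : Set (Subgroup X)) (h : Part X P)
    (D : Subgroup X) (hD : D ∈ P) :
    {x : X | x ≠ 1 ∧ ∃ g, x ∈ cj g D}.ncard =
      (Subgroup.normalizer (D : Set X)).index * (Nat.card D - 1) := by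
  classical
  haveI : Fintype X := Fintype.ofFinite X
  set R : Finset (Subgroup X) := (Set.toFinite (Set.range (fun g : X => cj g D))).toFinset with hR
  have hRc : R.card = (Subgroup.normalizer (D : Set X)).index := by
    rw [← PT5_card_conj D, Set.ncard_eq_toFinset_card _ (Set.toFinite _)]
  have hRm : ∀ E, E ∈ R ↔ ∃ g, cj g D = E := by
    intro E
    rw [hR, Set.Finite.mem_toFinset]
    rfl
  set u : Subgroup X → Finset X := fun E => (Finset.univ.filter (fun x => x ∈ E)).erase 1 with hu
  have hset : {x : X | x ≠ 1 ∧ ∃ g, x ∈ cj g D} = ((R.biUnion u : Finset X) : Set X) := by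
    ext x
    simp only [Set.mem_ofPred_eq, Finset.coe_biUnion, Set.mem_iUnion, Finset.mem_coe, hu,
      Finset.mem_erase, Finset.mem_filter, Finset.mem_univ, true_and, exists_prop]
    constructor
    · rintro ⟨h1, g, hg⟩
      exact ⟨cj g D, (hRm _).mpr ⟨g, rfl⟩, h1, hg⟩
    · rintro ⟨E, hE, h1, h2⟩
      obtain ⟨g, rfl⟩ := (hRm _).mp hE
      exact ⟨h1, g, h2⟩
  rw [hset, Set.ncard_coe_finset, Finset.card_biUnion]
  · have hcard : ∀ E ∈ R, (u E).card = Nat.card D - 1 := by
      intro E hE
      obtain ⟨g, rfl⟩ := (hRm _).mp hE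
      rw [← PT5_card_cj D g, hu]
      simp only
      rw [Finset.card_erase_of_mem (by simp)]
      congr 1
      rw [Nat.card_eq_fintype_card, Fintype.card_subtype]
    rw [Finset.sum_congr rfl hcard, Finset.sum_const, smul_eq_mul, hRc]
  · intro E hE F hF hEF
    rw [Function.onFun, Finset.disjoint_left]
    intro x hx hx'
    simp only [hu, Finset.mem_erase, Finset.mem_filter, Finset.mem_univ, true_and] at hx hx'
    obtain ⟨g, rfl⟩ := (hRm _).mp hE
    obtain ⟨k, rfl⟩ := (hRm _).mp hF
    exact hEF (h.dis _ (h.conj D hD g) _ (h.conj D hD k) x hx.1 hx.2 hx'.2)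

theorem PT5_zpow {X : Type*} [Group X] [Finite X] (D : Subgroup X) (x : X) (hx : x ∈ D)
    (h : Nat.card D = orderOf x) : Subgroup.zpowers x = D := by
  apply Subgroup.eq_of_le_of_card_ge
  · rw [Subgroup.zpowers_le]
    exact hx
  · rw [h, Nat.card_zpowers]

theorem PT5_order {X : Type*} [Group X] [Finite X] (D : Subgroup X) (x : X) (hx : x ∈ D)
    (h1 : x ≠ 1) (hp : (Nat.card D).Prime) : orderOf x = Nat.card D := by
  have hd : orderOf x ∣ Nat.card D := Subgroup.orderOf_dvd_natCard D hx
  rcases (Nat.dvd_prime hp).mp hd with h | h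
  · exact absurd (orderOf_eq_one_iff.mp h) h1
  · exact h

/-- PT5 -/
theorem tri60_count {X : Type*} [Group X] [Finite X] (P : Set (Subgroup X)) (h : Part X P)
    (hT : Tri X P 60 5) :
    (∀ x : X, x ≠ 1 → orderOf x = 2 ∨ orderOf x = 3 ∨ orderOf x = 5) ∧
    {x : X | orderOf x = 2}.ncard = 15 ∧ {x : X | orderOf x = 3}.ncard = 20 ∧
    {x : X | orderOf x = 5}.ncard = 24 ∧
    (∀ x y : X, orderOf x = 2 → orderOf y = 2 → ∃ g, g * x * g⁻¹ = y) ∧
    (∀ x : X, orderOf x = 2 → Nat.card (Subgroup.centralizer ({x} : Set X)) = 4) ∧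
    (∀ y : X, orderOf y = 3 → Nat.card (Subgroup.normalizer (Subgroup.zpowers y : Set X)) = 6) ∧
    (∀ x y : X, orderOf x = 3 → orderOf y = 3 → ∃ g, g * x * g⁻¹ = y ∨ g * x * g⁻¹ = y⁻¹) := by
  obtain ⟨hX, hP, hconj, ⟨D2, hD2, hD2c⟩, ⟨D3, hD3, hD3c⟩, ⟨D5, hD5, hD5c⟩⟩ := hT
  have hprime : ∀ D ∈ P, (Nat.card D).Prime := by
    intro D hD
    rcases (hP D hD).1 with h1 | h1 | h1 <;> rw [h1]
    · exact Nat.prime_two
    · exact Nat.prime_three
    · exact Nat.prime_five
  -- the member of a nontrivial element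
  have hmem : ∀ x : X, x ≠ 1 → ∃ D ∈ P, x ∈ D ∧ Nat.card D = orderOf x := by
    intro x hx
    obtain ⟨D, hD, hxD⟩ := h.cov x hx
    exact ⟨D, hD, hxD, (PT5_order D x hxD hx (hprime D hD)).symm⟩
  have hne : ∀ (x : X) (q : ℕ), orderOf x = q → q.Prime → x ≠ 1 := by
    rintro x q hx hq rfl
    rw [orderOf_one] at hx
    exact hq.one_lt.ne hx
  have hcount : ∀ (q : ℕ) (D : Subgroup X), q.Prime → D ∈ P → Nat.card D = q →
      {x : X | orderOf x = q}.ncard = (Subgroup.normalizer (D : Set X)).index * (q - 1) := by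
    intro q D hq hD hDq
    rw [← hDq, ← PT5_count P h D hD]
    congr 1
    ext x
    simp only [Set.mem_ofPred_eq]
    constructor
    · intro hx
      have hx1 : x ≠ 1 := hne x _ hx (by rw [hDq]; exact hq)
      obtain ⟨E, hE, hxE, hEc⟩ := hmem x hx1
      obtain ⟨g, hg⟩ := hconj D hD E hE (by rw [hEc, hx])
      exact ⟨hx1, g, by rw [hg]; exact hxE⟩
    · rintro ⟨hx1, g, hg⟩
      have h1 := PT5_order (cj g D) x hg hx1 (hprime _ (h.conj D hD g))
      rw [h1, PT5_card_cj]
  have hindex : ∀ (D : Subgroup X), D ∈ P →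
      (Subgroup.normalizer (D : Set X)).index * (2 * Nat.card D) = 60 := by
    intro D hD
    rw [← (hP D hD).2, Subgroup.index_mul_card, hX]
  have c2 := hcount 2 D2 Nat.prime_two hD2 hD2c
  have c3 := hcount 3 D3 Nat.prime_three hD3 hD3c
  have c5 := hcount 5 D5 Nat.prime_five hD5 hD5c
  have i2 := hindex D2 hD2
  have i3 := hindex D3 hD3
  have i5 := hindex D5 hD5
  rw [hD2c] at i2
  rw [hD3c] at i3
  rw [hD5c] at i5
  refine ⟨?_, by rw [c2]; omega, by rw [c3]; omega, by rw [c5]; omega, ?_, ?_, ?_, ?_⟩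
  · intro x hx
    obtain ⟨D, hD, -, hDc⟩ := hmem x hx
    rw [← hDc]
    exact (hP D hD).1
  · -- conjugacy of involutions
    intro x y hx hy
    obtain ⟨D, hD, hxD, hDc⟩ := hmem x (hne x 2 hx Nat.prime_two)
    obtain ⟨E, hE, hyE, hEc⟩ := hmem y (hne y 2 hy Nat.prime_two)
    obtain ⟨g, hg⟩ := hconj D hD E hE (by rw [hDc, hEc, hx, hy])
    refine ⟨g, ?_⟩
    have h1 : g * x * g⁻¹ ∈ Subgroup.zpowers y := by
      rw [PT5_zpow E y hyE hEc, ← hg, mem_cj]
      have : g⁻¹ * (g * x * g⁻¹) * g = x := by group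
      rw [this]
      exact hxD
    have h2 : g * x * g⁻¹ ≠ 1 := by
      intro h3
      apply hne x 2 hx Nat.prime_two
      rw [mul_inv_eq_one] at h3
      exact mul_eq_left.mp h3
    classical
    rw [mem_zpowers_iff_mem_range_orderOf, hy] at h1
    simp only [Finset.mem_image, Finset.mem_range] at h1
    obtain ⟨k, hk, hk'⟩ := h1
    interval_cases k
    · rw [pow_zero] at hk'
      exact absurd hk'.symm h2
    · rw [pow_one] at hk'
      exact hk'.symm
  · -- centralizer of an involution
    intro x hx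
    obtain ⟨D, hD, hxD, hDc⟩ := hmem x (hne x 2 hx Nat.prime_two)
    have hzp := PT5_zpow D x hxD hDc
    have hcard := (hP D hD).2
    rw [hDc, hx] at hcard
    have heq : Subgroup.centralizer ({x} : Set X) = Subgroup.normalizer (D : Set X) := by
      ext g
      rw [Subgroup.mem_centralizer_iff, Subgroup.mem_normalizer_iff]
      constructor
      · intro hg z
        have h1 : x * g = g * x := hg x (by simp)
        rw [← hzp]
        simp only [Subgroup.mem_zpowers_iff]
        have h3 : ∀ k : ℤ, g * x ^ k * g⁻¹ = x ^ k := by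
          intro k
          have h2 : Commute g x := h1.symm
          rw [(h2.zpow_right k).eq, mul_inv_cancel_right]
        constructor
        · rintro ⟨k, rfl⟩
          exact ⟨k, (h3 k).symm⟩
        · rintro ⟨k, hk⟩
          refine ⟨k, ?_⟩
          have h4 : z = g⁻¹ * x ^ k * g := by
            rw [hk]
            group
          have h6 : g * x ^ k = x ^ k * g := ((show Commute g x from h1.symm).zpow_right k).eq
          rw [h4, mul_assoc, ← h6, inv_mul_cancel_left]
      · intro hg z hz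
        rw [Set.mem_singleton_iff] at hz
        subst hz
        have h1 : g * z * g⁻¹ ∈ Subgroup.zpowers z := by
          rw [hzp]
          exact (hg z).mp hxD
        have h2 : g * z * g⁻¹ ≠ 1 := by
          intro h3
          apply hne z 2 hx Nat.prime_two
          rw [mul_inv_eq_one] at h3
          exact mul_eq_left.mp h3
        classical
        rw [mem_zpowers_iff_mem_range_orderOf, hx] at h1
        simp only [Finset.mem_image, Finset.mem_range] at h1
        obtain ⟨k, hk, hk'⟩ := h1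
        interval_cases k
        · rw [pow_zero] at hk'
          exact absurd hk'.symm h2
        · rw [pow_one] at hk'
          rw [eq_mul_inv_iff_mul_eq] at hk'
          exact hk'
    rw [heq, hcard]
  · -- normalizer of a subgroup of order 3
    intro y hy
    obtain ⟨D, hD, hyD, hDc⟩ := hmem y (hne y 3 hy Nat.prime_three)
    rw [PT5_zpow D y hyD hDc, (hP D hD).2, hDc, hy]
  · intro x y hx hy
    obtain ⟨D, hD, hxD, hDc⟩ := hmem x (hne x 3 hx Nat.prime_three)
    obtain ⟨E, hE, hyE, hEc⟩ := hmem y (hne y 3 hy Nat.prime_three)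
    obtain ⟨g, hg⟩ := hconj D hD E hE (by rw [hDc, hEc, hx, hy])
    refine ⟨g, ?_⟩
    have h1 : g * x * g⁻¹ ∈ Subgroup.zpowers y := by
      rw [PT5_zpow E y hyE hEc, ← hg, mem_cj]
      have : g⁻¹ * (g * x * g⁻¹) * g = x := by group
      rw [this]
      exact hxD
    have h2 : g * x * g⁻¹ ≠ 1 := by
      intro h3
      apply hne x 3 hx Nat.prime_three
      rw [mul_inv_eq_one] at h3
      exact mul_eq_left.mp h3
    classical
    rw [mem_zpowers_iff_mem_range_orderOf, hy] at h1
    simp only [Finset.mem_image, Finset.mem_range] at h1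
    obtain ⟨k, hk, hk'⟩ := h1
    interval_cases k
    · rw [pow_zero] at hk'
      exact absurd hk'.symm h2
    · rw [pow_one] at hk'
      exact Or.inl hk'.symm
    · right
      rw [← hk', eq_inv_iff_mul_eq_one]
      rw [← pow_succ]
      have := pow_orderOf_eq_one y
      rwa [hy] at this

end MX
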