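import Pool.Agent.helper81.MX.Defs3

set_option autoImplicit false

namespace MX
open scoped MatrixGroups

theorem PT6_odd {X : Type*} [Group X] [Finite X] (hX : Nat.card X = 60)
    (h3 : {x : X | orderOf x = 3}.ncard = 20) (h5 : {x : X | orderOf x = 5}.ncard = 24)
    (Y : Subgroup X) (hY : ∀ x : X, Odd (orderOf x) → x ∈ Y) : Y = ⊤ := by
  have h1 : ({1} : Set X).ncard = 1 := Set.ncard_singleton 1
  have hd1 : Disjoint {x : X | orderOf x = 3} {x : X | orderOf x = 5} := by
    rw [Set.disjoint_left]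
    intro x hx hx'
    simp only [Set.mem_ofPred_eq] at hx hx'
    omega
  have hd2 : Disjoint ({1} : Set X) ({x : X | orderOf x = 3} ∪ {x : X | orderOf x = 5}) := by
    rw [Set.disjoint_left]
    intro x hx hx'
    rw [Set.mem_singleton_iff] at hx
    subst hx
    simp only [Set.mem_union, Set.mem_ofPred_eq, orderOf_one] at hx'
    omega
  have hc : (({1} : Set X) ∪ ({x : X | orderOf x = 3} ∪ {x : X | orderOf x = 5})).ncard = 45 := by
    rw [Set.ncard_union_eq hd2 (Set.toFinite _) (Set.toFinite _),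
      Set.ncard_union_eq hd1 (Set.toFinite _) (Set.toFinite _), h1, h3, h5]
  have hsub : (({1} : Set X) ∪ ({x : X | orderOf x = 3} ∪ {x : X | orderOf x = 5})) ⊆ (Y : Set X) := by
    rintro x (hx | hx | hx)
    · rw [Set.mem_singleton_iff] at hx
      subst hx
      exact Y.one_mem
    · simp only [Set.mem_ofPred_eq] at hx
      exact hY x (by rw [hx]; decide)
    · simp only [Set.mem_ofPred_eq] at hx
      exact hY x (by rw [hx]; decide)
  have hle := Set.ncard_le_ncard hsub (Set.toFinite _)
  rw [hc] at hle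
  have hcY : (Y : Set X).ncard = Nat.card Y := rfl
  rw [hcY] at hle
  have hdvd : Nat.card Y ∣ 60 := by
    rw [← hX]
    exact Subgroup.card_subgroup_dvd_card Y
  have h60 : Nat.card Y = 60 := by
    obtain ⟨k, hk⟩ := hdvd
    have hk1 : k ≤ 1 := by
      by_contra hcon
      push Not at hcon
      nlinarith
    interval_cases k
    · omega
    · omega
  exact Subgroup.eq_top_of_card_eq Y (by rw [h60, hX])

/-- PT6 -/
theorem sixty_gen {X : Type*} [Group X] [Finite X] (hX : Nat.card X = 60)
    (h3 : {x : X | orderOf x = 3}.ncard = 20) (h5 : {x : X | orderOf x = 5}.ncard = 24) :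
    (∀ x y : X, orderOf x = 2 → orderOf y = 3 → orderOf (x * y) = 5 →
      Subgroup.closure ({x, y} : Set X) = ⊤) ∧
    ∀ Y : Subgroup X, (∀ x : X, Odd (orderOf x) → x ∈ Y) → Y = ⊤ := by
  refine ⟨?_, fun Y hY => PT6_odd hX h3 h5 Y hY⟩
  intro x y hx hy hxy
  set K := Subgroup.closure ({x, y} : Set X) with hK
  have hxK : x ∈ K := Subgroup.subset_closure (by simp)
  have hyK : y ∈ K := Subgroup.subset_closure (by simp)
  have hxyK : x * y ∈ K := K.mul_mem hxK hyK
  have d2 : 2 ∣ Nat.card K := by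
    rw [← hx]
    exact Subgroup.orderOf_dvd_natCard K hxK
  have d3 : 3 ∣ Nat.card K := by
    rw [← hy]
    exact Subgroup.orderOf_dvd_natCard K hyK
  have d5 : 5 ∣ Nat.card K := by
    rw [← hxy]
    exact Subgroup.orderOf_dvd_natCard K hxyK
  have hidx : K.index * Nat.card K = 60 := by
    rw [← hX]
    exact K.index_mul_card
  have h30 : 30 ∣ Nat.card K := by omega
  obtain ⟨k, hk⟩ := h30
  rw [hk] at hidx
  have hidx' : K.index * k = 2 := by nlinarith
  have hcases : K.index = 1 ∨ K.index = 2 := by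
    have hd : K.index ∣ 2 := ⟨k, hidx'.symm⟩
    exact (Nat.dvd_prime Nat.prime_two).mp hd
  rcases hcases with h | h
  · exact Subgroup.index_eq_one.mp h
  · apply PT6_odd hX h3 h5
    intro z hz
    obtain ⟨m, hm⟩ := hz
    have h2 : z ^ 2 ∈ K := Subgroup.sq_mem_of_index_two h z
    have h3 : (z ^ 2) ^ (m + 1) = z := by
      rw [← pow_mul, show 2 * (m + 1) = (2 * m + 1) + 1 by ring, ← hm, pow_succ, pow_orderOf_eq_one,
        one_mul]
    rw [← h3]
    exact K.pow_mem h2 _

end MX
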