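import Pool.Agent.helper81.MX.Defs3

/-!
# Row PT7 of project MX

Count the pairs `(x, y)`, `x` an involution inverting `y` of order 3: some `x` inverts at most 4
elements `y`. If no product `x y` has order 5 the remaining 16 elements `y` normalise the
centralizer of `x`, which is then normal; contradiction.
-/

set_option autoImplicit false

namespace MX

open Finset

section PT7

variable {X : Type*} [Group X]

/-- an involution `x` inverting `y` normalises the group generated by `y` -/
theorem PT7_norm {x y : X} (hx : x * x = 1) (h : x * y * x⁻¹ = y⁻¹) :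
    x ∈ Subgroup.normalizer (Subgroup.zpowers y : Set X) := by
  have h1 : ∀ z ∈ Subgroup.zpowers y, x * z * x⁻¹ ∈ Subgroup.zpowers y := by
    rintro z ⟨k, rfl⟩
    refine ⟨-k, ?_⟩
    have h2 : x * y ^ k * x⁻¹ = (x * y * x⁻¹) ^ k := by rw [conj_zpow]
    show y ^ (-k) = x * y ^ k * x⁻¹
    rw [h2, h, inv_zpow, zpow_neg]
  have hinv : x⁻¹ = x := inv_eq_of_mul_eq_one_right hx
  rw [Subgroup.mem_normalizer_iff]
  intro z
  constructor
  · exact h1 z
  · intro hz
    have h2 := h1 _ hz
    have e : x * (x * z * x⁻¹) * x⁻¹ = (x * x) * z * (x⁻¹ * x⁻¹) := by group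
    rw [e, hinv, hx, one_mul, mul_one] at h2
    exact h2

/-- if `x` is an involution with centralizer of order 4, `y³ = 1`, `(x y)³ = 1` then `y`
normalises the centralizer -/
theorem PT7_klein [Finite X] {x y : X} (hx : orderOf x = 2) (hy : y ^ 3 = 1)
    (hxy : (x * y) ^ 3 = 1) (hc : Nat.card (Subgroup.centralizer ({x} : Set X)) = 4) :
    y ∈ Subgroup.normalizer (Subgroup.centralizer ({x} : Set X) : Set X) := by
  classical
  have hxx : x * x = 1 := by
    have := pow_orderOf_eq_one x
    rwa [hx, pow_two] at this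
  have hx1 : x ≠ 1 := by
    intro h
    rw [h, orderOf_one] at hx
    omega
  have hyyy : y * y * y = 1 := by
    rw [← hy, pow_succ, pow_two]
  obtain ⟨x₁, hx₁⟩ : ∃ x₁ : X, x₁ = y * x * y⁻¹ := ⟨_, rfl⟩
  obtain ⟨x₂, hx₂⟩ : ∃ x₂ : X, x₂ = y * x₁ * y⁻¹ := ⟨_, rfl⟩
  have hyinv : y⁻¹ = y * y := by
    apply inv_eq_of_mul_eq_one_right
    rw [← mul_assoc]
    exact hyyy
  have e3 : y * x₂ * y⁻¹ = x := by
    rw [hx₂, hx₁]
    have e : y * (y * (y * x * y⁻¹) * y⁻¹) * y⁻¹ = (y * y * y) * x * (y * y * y)⁻¹ := by group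
    rw [e, hyyy, one_mul, inv_one, mul_one]
  have x11 : x₁ * x₁ = 1 := by
    rw [hx₁]
    have e : y * x * y⁻¹ * (y * x * y⁻¹) = y * (x * x) * y⁻¹ := by group
    rw [e, hxx, mul_one, mul_inv_cancel]
  have x22 : x₂ * x₂ = 1 := by
    rw [hx₂]
    have e : y * x₁ * y⁻¹ * (y * x₁ * y⁻¹) = y * (x₁ * x₁) * y⁻¹ := by group
    rw [e, x11, mul_one, mul_inv_cancel]
  have hprod : x * x₁ * x₂ = 1 := by
    have e : x * x₁ * x₂ = x * y * x * y * x * y⁻¹ * y⁻¹ := by
      rw [hx₂, hx₁]
      group
    have e2 : x * y * x * y * x * y⁻¹ * y⁻¹ = (x * y) ^ 3 := by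
      have e4 : y⁻¹ * y⁻¹ = y := by
        rw [hyinv]
        calc y * y * (y * y) = (y * y * y) * y := by group
          _ = y := by rw [hyyy, one_mul]
      calc x * y * x * y * x * y⁻¹ * y⁻¹ = x * y * x * y * x * (y⁻¹ * y⁻¹) := by group
        _ = x * y * x * y * x * y := by rw [e4]
        _ = (x * y) ^ 3 := by
          rw [pow_succ, pow_two]
          group
    rw [e, e2, hxy]
  have h12 : x * x₁ = x₂ := by
    have h1 := eq_inv_of_mul_eq_one_left hprod
    rw [h1]
    exact inv_eq_of_mul_eq_one_right x22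
  have x1ne : x₁ ≠ 1 := by
    intro h
    apply hx1
    have h1 : x = y⁻¹ * x₁ * y := by
      rw [hx₁]
      group
    rw [h1, h]
    group
  have x2ne : x₂ ≠ 1 := by
    intro h
    apply x1ne
    have h1 : x₁ = y⁻¹ * x₂ * y := by
      rw [hx₂]
      group
    rw [h1, h]
    group
  have n1 : x ≠ x₁ := by
    intro h
    apply x2ne
    rw [← h12, ← h]
    exact hxx
  have n2 : x ≠ x₂ := by
    intro h
    apply x1ne
    rw [← h12] at h
    exact mul_left_cancel ((h.symm).trans (mul_one x).symm)
  have n3 : x₁ ≠ x₂ := by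
    intro h
    apply hx1
    rw [← h12] at h
    exact (mul_right_cancel ((one_mul x₁).trans h)).symm
  have c1 : x₁ ∈ Subgroup.centralizer ({x} : Set X) := by
    rw [Subgroup.mem_centralizer_singleton_iff]
    have h1 : (x * x₁) * (x * x₁) = 1 := by rw [h12, x22]
    have h2 : x * (x * x₁ * (x * x₁)) * x₁ = x₁ * x := by
      calc x * (x * x₁ * (x * x₁)) * x₁ = (x * x) * x₁ * x * (x₁ * x₁) := by group
        _ = x₁ * x := by rw [hxx, x11, one_mul, mul_one]
    rw [h1, mul_one] at h2
    first
      | exact h2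
      | exact h2.symm
  have c0 : x ∈ Subgroup.centralizer ({x} : Set X) := by
    rw [Subgroup.mem_centralizer_singleton_iff]
  have c2 : x₂ ∈ Subgroup.centralizer ({x} : Set X) := by
    rw [← h12]
    exact Subgroup.mul_mem _ c0 c1
  have hall : ∀ z ∈ Subgroup.centralizer ({x} : Set X), z = 1 ∨ z = x ∨ z = x₁ ∨ z = x₂ := by
    have hfin : (Subgroup.centralizer ({x} : Set X) : Set X).Finite := Set.toFinite _
    have hcard : (hfin.toFinset).card = 4 := by
      rw [← hc, ← Set.ncard_eq_toFinset_card _ hfin]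
      rfl
    have hsub : ({1, x, x₁, x₂} : Finset X) ⊆ hfin.toFinset := by
      intro z hz
      rw [Set.Finite.mem_toFinset]
      simp only [Finset.mem_insert, Finset.mem_singleton] at hz
      rcases hz with rfl | rfl | rfl | rfl
      · exact Subgroup.one_mem _
      · exact c0
      · exact c1
      · exact c2
    have hcard2 : ({1, x, x₁, x₂} : Finset X).card = 4 := by
      rw [Finset.card_insert_of_notMem, Finset.card_insert_of_notMem,
        Finset.card_insert_of_notMem, Finset.card_singleton]
      · simpa using n3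
      · simp [n1, n2]
      · simp [hx1.symm, x1ne.symm, x2ne.symm]
    have heq : ({1, x, x₁, x₂} : Finset X) = hfin.toFinset :=
      Finset.eq_of_subset_of_card_le hsub (by rw [hcard, hcard2])
    intro z hz
    have h1 : z ∈ hfin.toFinset := (Set.Finite.mem_toFinset hfin).2 hz
    rw [← heq] at h1
    simpa only [Finset.mem_insert, Finset.mem_singleton] using h1
  have hfwd : ∀ z ∈ Subgroup.centralizer ({x} : Set X),
      y * z * y⁻¹ ∈ Subgroup.centralizer ({x} : Set X) := by
    intro z hz
    rcases hall z hz with rfl | rfl | rfl | rfl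
    · rw [mul_one, mul_inv_cancel]
      exact Subgroup.one_mem _
    · rw [← hx₁]
      exact c1
    · rw [← hx₂]
      exact c2
    · rw [e3]
      exact c0
  rw [Subgroup.mem_normalizer_iff]
  intro z
  constructor
  · exact hfwd z
  · intro hz
    have h1 := hfwd _ (hfwd _ hz)
    have e : y * (y * (y * z * y⁻¹) * y⁻¹) * y⁻¹ = (y * y * y) * z * (y * y * y)⁻¹ := by group
    rw [e, hyyy, one_mul, inv_one, mul_one] at h1
    exact h1

end PT7

theorem sixty_pair {X : Type*} [Group X] [Finite X] (hX : Nat.card X = 60)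
    (h0 : ∀ x : X, x ≠ 1 → orderOf x = 2 ∨ orderOf x = 3 ∨ orderOf x = 5)
    (h2 : {x : X | orderOf x = 2}.ncard = 15) (h3 : {x : X | orderOf x = 3}.ncard = 20)
    (h5 : {x : X | orderOf x = 5}.ncard = 24)
    (hconj : ∀ x y : X, orderOf x = 2 → orderOf y = 2 → ∃ g, g * x * g⁻¹ = y)
    (hcent : ∀ x : X, orderOf x = 2 → Nat.card (Subgroup.centralizer ({x} : Set X)) = 4)
    (hnorm : ∀ y : X, orderOf y = 3 →
      Nat.card (Subgroup.normalizer (Subgroup.zpowers y : Set X)) = 6)
    (hconj3 : ∀ x y : X, orderOf x = 3 → orderOf y = 3 → ∃ g, g * x * g⁻¹ = y ∨ g * x * g⁻¹ = y⁻¹) :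
    ∃ x y : X, orderOf x = 2 ∧ orderOf y = 3 ∧ orderOf (x * y) = 5 := by
  classical
  have : Fintype X := Fintype.ofFinite X
  obtain ⟨S2, hS2⟩ : ∃ S : Finset X, ∀ x, x ∈ S ↔ orderOf x = 2 :=
    ⟨univ.filter fun x => orderOf x = 2, by intro x; simp⟩
  obtain ⟨S3, hS3⟩ : ∃ S : Finset X, ∀ x, x ∈ S ↔ orderOf x = 3 :=
    ⟨univ.filter fun x => orderOf x = 3, by intro x; simp⟩
  have c2 : S2.card = 15 := by
    rw [← h2, ← Set.ncard_coe_finset]
    congr 1
    ext x
    exact hS2 x
  have c3 : S3.card = 20 := by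
    rw [← h3, ← Set.ncard_coe_finset]
    congr 1
    ext x
    exact hS3 x
  by_contra hne
  push Not at hne
  -- each element of order 3 is inverted by at most 3 involutions
  have hy3 : ∀ y ∈ S3, (S2.filter fun x => x * y * x⁻¹ = y⁻¹).card ≤ 3 := by
    intro y hy
    have oy := (hS3 y).1 hy
    have hyyy : y ^ 3 = 1 := by
      have := pow_orderOf_eq_one y
      rwa [oy] at this
    have hy1 : y ≠ 1 := by
      intro h
      rw [h, orderOf_one] at oy
      omega
    have hyy : y ≠ y⁻¹ := by
      intro h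
      have h4 : y ^ 2 = 1 := by
        rw [pow_two]
        nth_rewrite 1 [h]
        exact inv_mul_cancel y
      have h5 := orderOf_dvd_of_pow_eq_one h4
      rw [oy] at h5
      omega
    have hfin : (Subgroup.normalizer (Subgroup.zpowers y : Set X) : Set X).Finite :=
      Set.toFinite _
    have hcard : (hfin.toFinset).card = 6 := by
      rw [← hnorm y oy, ← Set.ncard_eq_toFinset_card _ hfin]
      rfl
    have hdis : Disjoint (S2.filter fun x => x * y * x⁻¹ = y⁻¹) ({1, y, y⁻¹} : Finset X) := by
      rw [Finset.disjoint_left]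
      intro z hz hz'
      have h4 := (hS2 z).1 (Finset.mem_filter.1 hz).1
      simp only [Finset.mem_insert, Finset.mem_singleton] at hz'
      rcases hz' with rfl | rfl | rfl
      · rw [orderOf_one] at h4
        omega
      · omega
      · rw [orderOf_inv] at h4
        omega
    have hsub : (S2.filter fun x => x * y * x⁻¹ = y⁻¹) ∪ ({1, y, y⁻¹} : Finset X) ⊆
        hfin.toFinset := by
      intro z hz
      rw [Set.Finite.mem_toFinset]
      rcases Finset.mem_union.1 hz with h | h
      · have h4 := (hS2 z).1 (Finset.mem_filter.1 h).1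
        apply PT7_norm
        · have := pow_orderOf_eq_one z
          rwa [h4, pow_two] at this
        · exact (Finset.mem_filter.1 h).2
      · simp only [Finset.mem_insert, Finset.mem_singleton] at h
        have h6 : y ∈ Subgroup.normalizer (Subgroup.zpowers y : Set X) :=
          Subgroup.le_normalizer (Subgroup.mem_zpowers y)
        rcases h with rfl | rfl | rfl
        · exact Subgroup.one_mem _
        · exact h6
        · exact Subgroup.inv_mem _ h6
    have h7 := Finset.card_le_card hsub
    rw [Finset.card_union_of_disjoint hdis, hcard] at h7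
    have h8 : ({1, y, y⁻¹} : Finset X).card = 3 := by
      rw [Finset.card_insert_of_notMem, Finset.card_insert_of_notMem, Finset.card_singleton]
      · simpa using hyy
      · simp [hy1]
        try exact fun h => hy1 h.symm
    omega
  -- some involution inverts at most 4 elements
  obtain ⟨x, hx, hx4⟩ : ∃ x ∈ S2, (S3.filter fun y => x * y * x⁻¹ = y⁻¹).card ≤ 4 := by
    by_contra hcon
    push Not at hcon
    have h4 := Finset.sum_card_bipartiteAbove_eq_sum_card_bipartiteBelow (s := S2) (t := S3)
      (fun x y : X => x * y * x⁻¹ = y⁻¹)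
    have h6 : S2.card * 5 ≤ ∑ a ∈ S2, (S3.bipartiteAbove (fun x y : X => x * y * x⁻¹ = y⁻¹) a).card := by
      rw [← smul_eq_mul]
      apply Finset.card_nsmul_le_sum
      intro a ha
      exact hcon a ha
    have h7 : ∑ b ∈ S3, (S2.bipartiteBelow (fun x y : X => x * y * x⁻¹ = y⁻¹) b).card ≤
        S3.card * 3 := by
      rw [← smul_eq_mul]
      apply Finset.sum_le_card_nsmul
      intro b hb
      exact hy3 b hb
    rw [c2] at h6
    rw [c3] at h7
    omega
  have ox := (hS2 x).1 hx
  have hxx : x * x = 1 := by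
    have := pow_orderOf_eq_one x
    rwa [ox, pow_two] at this
  have hcx := hcent x ox
  -- the other elements of order 3 normalise the centralizer
  have hrest : ∀ y ∈ S3, ¬ (x * y * x⁻¹ = y⁻¹) →
      y ∈ Subgroup.normalizer (Subgroup.centralizer ({x} : Set X) : Set X) := by
    intro y hy hny
    have oy := (hS3 y).1 hy
    have hyyy : y ^ 3 = 1 := by
      have := pow_orderOf_eq_one y
      rwa [oy] at this
    have hxy1 : x * y ≠ 1 := by
      intro h
      have h4 : y = x⁻¹ := (inv_eq_of_mul_eq_one_right h).symm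
      rw [h4, orderOf_inv] at oy
      omega
    rcases h0 _ hxy1 with h | h | h
    · exfalso
      apply hny
      have h4 := pow_orderOf_eq_one (x * y)
      rw [h, pow_two] at h4
      have hinv : x⁻¹ = x := inv_eq_of_mul_eq_one_right hxx
      rw [hinv]
      apply eq_inv_of_mul_eq_one_left
      rw [← h4]
      group
    · apply PT7_klein ox hyyy _ hcx
      have h4 := pow_orderOf_eq_one (x * y)
      rwa [h] at h4
    · exact absurd h (hne x y ox oy)
  have hfin : (Subgroup.normalizer (Subgroup.centralizer ({x} : Set X) : Set X) : Set X).Finite :=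
    Set.toFinite _
  have hcard : (hfin.toFinset).card =
      Nat.card (Subgroup.normalizer (Subgroup.centralizer ({x} : Set X) : Set X)) := by
    rw [← Set.ncard_eq_toFinset_card _ hfin]
    rfl
  have hsplit := Finset.card_filter_add_card_filter_not (s := S3) (fun y => x * y * x⁻¹ = y⁻¹)
  have hsub : (S3.filter fun y => ¬ (x * y * x⁻¹ = y⁻¹)) ⊆ hfin.toFinset := by
    intro z hz
    rw [Set.Finite.mem_toFinset]
    exact hrest z (Finset.mem_filter.1 hz).1 (Finset.mem_filter.1 hz).2
  have hle := Finset.card_le_card hsub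
  rw [hcard] at hle
  have h16 : 16 ≤ Nat.card (Subgroup.normalizer (Subgroup.centralizer ({x} : Set X) : Set X)) := by
    omega
  have hd4 : 4 ∣ Nat.card (Subgroup.normalizer (Subgroup.centralizer ({x} : Set X) : Set X)) := by
    rw [← hcx]
    exact Subgroup.card_dvd_of_le Subgroup.le_normalizer
  have hd3 : 3 ∣ Nat.card (Subgroup.normalizer (Subgroup.centralizer ({x} : Set X) : Set X)) := by
    have h6 : 0 < (S3.filter fun y => ¬ (x * y * x⁻¹ = y⁻¹)).card := by omega
    obtain ⟨y, hy⟩ := Finset.card_pos.1 h6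
    have oy := (hS3 y).1 (Finset.mem_filter.1 hy).1
    have hyN := hrest y (Finset.mem_filter.1 hy).1 (Finset.mem_filter.1 hy).2
    rw [← oy]
    exact Subgroup.orderOf_dvd_natCard _ hyN
  have hd60 : Nat.card (Subgroup.normalizer (Subgroup.centralizer ({x} : Set X) : Set X)) ∣ 60 := by
    rw [← hX]
    exact Subgroup.card_subgroup_dvd_card _
  have h60 : Nat.card (Subgroup.normalizer (Subgroup.centralizer ({x} : Set X) : Set X)) = 60 := by
    obtain ⟨m, hm⟩ := hd60
    obtain ⟨a, ha⟩ := hd4
    obtain ⟨b, hb⟩ := hd3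
    generalize Nat.card (Subgroup.normalizer (Subgroup.centralizer ({x} : Set X) : Set X)) = k
      at *
    have hm3 : m ≤ 3 := by
      by_contra hcon
      push Not at hcon
      nlinarith
    interval_cases m <;> omega
  have htop : Subgroup.normalizer (Subgroup.centralizer ({x} : Set X) : Set X) = ⊤ :=
    Subgroup.eq_top_of_card_eq _ (by rw [h60, hX])
  have hfin2 : (Subgroup.centralizer ({x} : Set X) : Set X).Finite := Set.toFinite _
  have hcard2 : (hfin2.toFinset).card = 4 := by
    rw [← hcx, ← Set.ncard_eq_toFinset_card _ hfin2]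
    rfl
  have hsub2 : S2 ⊆ hfin2.toFinset := by
    intro z hz
    rw [Set.Finite.mem_toFinset]
    obtain ⟨g, hg⟩ := hconj x z ox ((hS2 z).1 hz)
    have hgN : g ∈ Subgroup.normalizer (Subgroup.centralizer ({x} : Set X) : Set X) := by
      rw [htop]
      exact Subgroup.mem_top g
    have hxc : x ∈ Subgroup.centralizer ({x} : Set X) := by
      rw [Subgroup.mem_centralizer_singleton_iff]
    have h6 := (Subgroup.mem_normalizer_iff.1 hgN x).1 hxc
    rw [hg] at h6
    exact h6
  have h7 := Finset.card_le_card hsub2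
  omega

end MX
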