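import Pool.Agent.helper81.MX.Defs3
import Pool.Agent.helper81.MX.PT2
import Pool.Agent.helper81.MX.PT3
import Pool.Agent.helper81.MX.PT4
import Pool.Agent.helper81.MX.PT5
import Pool.Agent.helper81.MX.PT6
import Pool.Agent.helper81.MX.PT7

/-!
Row mx:PT8: assembly of PT2, ..., PT7.
-/

set_option autoImplicit false

namespace MX
open scoped MatrixGroups

theorem part_final {X : Type*} [Group X] [Finite X] (P : Set (Subgroup X)) (h : Part X P) :
    (∃ C : Subgroup X, (C ∈ P ∨ C = ⊥) ∧ Subgroup.normalizer (C : Set X) = ⊤) ∨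
    (∃ V : Subgroup X, KleinN V) ∨ Ico X := by
  by_cases hX : 2 ≤ Nat.card X
  · rcases part_cases P h hX with ⟨C, hC, hC2⟩ | ⟨h12, hC, hD⟩ | hT | hT
    · exact Or.inl ⟨C, Or.inl hC, hC2⟩
    · exact Or.inr (Or.inl (klein12 P h h12 hC hD))
    · exact Or.inr (Or.inl (klein24 P h hT))
    · right; right
      obtain ⟨h0, h2, h3, h5, hconj, hcent, hnorm, hconj3⟩ := tri60_count P h hT
      have h60 : Nat.card X = 60 := hT.1
      obtain ⟨hg1, hg2⟩ := sixty_gen h60 h3 h5
      exact ⟨h60, sixty_pair h60 h0 h2 h3 h5 hconj hcent hnorm hconj3, hg1, hg2⟩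
  · left
    refine ⟨⊥, Or.inr rfl, ?_⟩
    have h1 : 0 < Nat.card X := Nat.card_pos
    have h2 : Nat.card X = 1 := by omega
    have h3 : Subsingleton X := (Nat.card_eq_one_iff_unique.1 h2).1
    rw [Subgroup.eq_top_iff']
    intro x
    rw [Subsingleton.elim x 1]
    exact one_mem _

end MX
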