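import Pool.Agent.helper81.MX.Defs

set_option autoImplicit false

/-! Row mx:Q01 (helper9). -/

namespace MX
open scoped MatrixGroups

/-- Q01 -/
theorem Good.iso {G : Type} [Group G] (hG : Good G) {H : Type} [Group H] (e : G ≃* H) : Good H := by
  induction hG generalizing H with
  | triv G h => exact Good.triv H e.symm.toEquiv.subsingleton
  | ext G N hN hq ih =>
    have hn : (N.map (e : G →* H)).Normal := Subgroup.Normal.map inferInstance (e : G →* H) e.surjective
    have h1 : Good (N.map (e : G →* H)) := ih (e.subgroupMap N)
    let q : G ⧸ N ≃* H ⧸ (N.map (e : G →* H)) := QuotientGroup.congr N (N.map (e : G →* H)) e rfl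
    refine Good.ext H (N.map (e : G →* H)) h1 ?_
    rcases hq with hq | ⟨p, hp, hp5, ⟨f⟩⟩
    · left
      intro a b
      apply q.symm.injective
      rw [map_mul, map_mul]
      exact hq _ _
    · right
      exact ⟨p, hp, hp5, ⟨q.symm.trans f⟩⟩

end MX
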