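import Pool.Agent.helper81.MX.Defs
import Pool.Agent.helper81.MX.Q02

/-!
Row mx:Q03 (helper23): a quotient of a good group is good.
-/

set_option autoImplicit false

namespace MX

open scoped MatrixGroups

/-- Q03 -/
theorem Good.quot {G : Type} [Group G] (hG : Good G)
    (hiso : ∀ {G : Type} [Group G], Good G → ∀ {H : Type} [Group H], (G ≃* H) → Good H)
    (N : Subgroup G) [N.Normal] : Good (G ⧸ N) := by
  rename_i hNn
  revert N
  induction hG with
  | triv G h =>
    intro N _
    exact Good.triv (G ⧸ N) (Quotient.instSubsingletonQuotient _)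
  | ext G K hK hq ih =>
    intro N hN
    have h1 : Good (K ⧸ (N.subgroupOf K)) := ih (N.subgroupOf K)
    obtain ⟨e⟩ := Q02_equiv N K
    have hKn : K.Normal := inferInstance
    have hmn : (K.map (QuotientGroup.mk' N)).Normal :=
      hKn.map _ (QuotientGroup.mk'_surjective N)
    refine Good.ext (G ⧸ N) (K.map (QuotientGroup.mk' N)) (hiso h1 e) ?_
    let φ : G ⧸ K →* (G ⧸ N) ⧸ (K.map (QuotientGroup.mk' N)) :=
      QuotientGroup.map K (K.map (QuotientGroup.mk' N)) (QuotientGroup.mk' N)
        (Subgroup.le_comap_map _ _)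
    have hφ : Function.Surjective φ := by
      intro x
      obtain ⟨y, rfl⟩ := QuotientGroup.mk'_surjective _ x
      obtain ⟨z, rfl⟩ := QuotientGroup.mk'_surjective N y
      exact ⟨QuotientGroup.mk' K z, rfl⟩
    rcases hq with hq | ⟨p, hp, hp5, ⟨g⟩⟩
    · left
      intro a b
      obtain ⟨a, rfl⟩ := hφ a
      obtain ⟨b, rfl⟩ := hφ b
      rw [← map_mul, ← map_mul, hq]
    · have : Fact p.Prime := ⟨hp⟩
      have hsim : IsSimpleGroup PSL(2, ZMod p) :=
        Matrix.ProjectiveSpecialLinearGroup.rank_two_simple (by rw [Nat.card_zmod]; omega)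
      have hsim' : IsSimpleGroup (G ⧸ K) := g.isSimpleGroup
      rcases hsim'.eq_bot_or_eq_top_of_normal φ.ker inferInstance with hb | ht
      · right
        have hbij : Function.Bijective φ := ⟨(MonoidHom.ker_eq_bot_iff φ).1 hb, hφ⟩
        exact ⟨p, hp, hp5, ⟨(MulEquiv.ofBijective φ hbij).symm.trans g⟩⟩
      · left
        intro a b
        obtain ⟨a, rfl⟩ := hφ a
        obtain ⟨b, rfl⟩ := hφ b
        have h2 : ∀ x, φ x = 1 := fun x => by
          rw [← MonoidHom.mem_ker, ht]
          exact Subgroup.mem_top x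
        rw [h2, h2]

end MX
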