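import Pool.Agent.helper81.MX.Defs

/-! Row mx:Q04: a nonabelian simple good group is some PSL(2,p). -/

set_option autoImplicit false

namespace MX

open scoped MatrixGroups

theorem Q04_aux {G : Type} [Group G] (hG : Good G) :
    ∀ (H : Type) [Group H], (H ≃* G) → IsSimpleGroup H → (∃ a b : H, a * b ≠ b * a) →
      ∃ p : ℕ, p.Prime ∧ 5 ≤ p ∧ Nonempty (H ≃* PSL(2, ZMod p)) := by
  induction hG with
  | triv G h =>
    intro H _ e hs _
    exfalso
    obtain ⟨a, b, hab⟩ := hs.exists_pair_ne
    exact hab (e.injective (Subsingleton.elim _ _))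
  | ext G N hN hq ih =>
    intro H _ e hs hnc
    have : IsSimpleGroup G := by
      have : Nontrivial G := by
        obtain ⟨a, b, hab⟩ := hs.exists_pair_ne
        exact ⟨⟨e a, e b, fun h => hab (e.injective h)⟩⟩
      exact IsSimpleGroup.isSimpleGroup_of_surjective e.toMonoidHom e.surjective
    rcases IsSimpleGroup.eq_bot_or_eq_top_of_normal N inferInstance with hb | ht
    · have f : G ≃* G ⧸ N :=
        (QuotientGroup.quotientBot (G := G)).symm.trans
          (QuotientGroup.quotientMulEquivOfEq hb.symm)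
      rcases hq with hq | ⟨p, hp, hp5, ⟨φ⟩⟩
      · exfalso
        obtain ⟨a, b, hab⟩ := hnc
        apply hab
        apply (e.trans f).injective
        rw [map_mul, map_mul]
        exact hq _ _
      · exact ⟨p, hp, hp5, ⟨(e.trans f).trans φ⟩⟩
    · have f : G ≃* N :=
        (Subgroup.topEquiv (G := G)).symm.trans (MulEquiv.subgroupCongr ht.symm)
      exact ih H (e.trans f) hs hnc

/-- Q04 -/
theorem Good.simple {G : Type} [Group G] (hG : Good G) [IsSimpleGroup G]
    (hnc : ∃ a b : G, a * b ≠ b * a) :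
    ∃ p : ℕ, p.Prime ∧ 5 ≤ p ∧ Nonempty (G ≃* PSL(2, ZMod p)) :=
  Q04_aux hG G (MulEquiv.refl G) inferInstance hnc

end MX
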