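import Pool.Agent.helper81.MX.Defs2

/-!
A class of `PGL(2,p)` lies in `PSL(2,p)` if and only if the determinant is a square.
-/

set_option autoImplicit false

namespace MX

open scoped MatrixGroups

theorem pk_mem_PS {p : ℕ} [Fact p.Prime] (hp : 5 ≤ p) (g : GL (Fin 2) (ZMod p)) :
    pk g ∈ PS p ↔ IsSquare (g : Matrix (Fin 2) (Fin 2) (ZMod p)).det := by
  constructor
  · rintro ⟨X, hX⟩
    induction X using QuotientGroup.induction_on with | H X =>
    obtain ⟨u, hu⟩ : ∃ u, Matrix.SpecialLinearGroup.toGL X *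
        (Matrix.GeneralLinearGroup.scalar (Fin 2)) u = g := by
      simpa [pk, Matrix.ProjGenLinGroup.mk_eq_mk_iff] using hX
    refine ⟨(u : ZMod p), ?_⟩
    rw [← hu]
    simp [Matrix.det_mul, pow_two]
  · rintro ⟨c, hc⟩
    have hc0 : c ≠ 0 := by
      rintro rfl
      have h1 : IsUnit (g : Matrix (Fin 2) (Fin 2) (ZMod p)).det :=
        (Matrix.isUnit_iff_isUnit_det _).1 g.isUnit
      rw [hc] at h1
      simp at h1
    have hdet : (c⁻¹ • (g : Matrix (Fin 2) (Fin 2) (ZMod p))).det = 1 := by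
      rw [Matrix.det_smul, hc]
      simp only [Fintype.card_fin]
      field_simp
    refine ⟨QuotientGroup.mk ⟨c⁻¹ • (g : Matrix (Fin 2) (Fin 2) (ZMod p)), hdet⟩, ?_⟩
    simp only [Matrix.ProjectiveSpecialLinearGroup.toPGL_mk, pk,
      Matrix.ProjGenLinGroup.mk_eq_mk_iff]
    refine ⟨Units.mk0 c hc0, Units.ext ?_⟩
    simp only [Units.val_mul, Matrix.SpecialLinearGroup.coe_GL_coe_matrix,
      Matrix.GeneralLinearGroup.coe_scalar]
    ext i j
    simp [Matrix.mul_apply, Matrix.smul_apply, Matrix.diagonal_apply, hc0, mul_comm]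

end MX
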