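import Pool.Agent.helper81.MX.Defs2

set_option autoImplicit false

namespace MX
open scoped MatrixGroups

theorem T01_scalar {p : ℕ} [Fact p.Prime] (g : GL (Fin 2) (ZMod p)) (h1 : g.1 0 1 = 0)
    (h2 : g.1 1 0 = 0) (h3 : g.1 0 0 = g.1 1 1) : pk g = 1 := by
  have hd : g.1.det ≠ 0 := by
    have := (Matrix.isUnit_iff_isUnit_det g.1).mp g.isUnit
    exact this.ne_zero
  rw [Matrix.det_fin_two, h1, h2, mul_zero, sub_zero, ← h3] at hd
  have ha : g.1 0 0 ≠ 0 := fun h => hd (by rw [h, mul_zero])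
  have hg : g = Matrix.GeneralLinearGroup.scalar (Fin 2) (Units.mk0 _ ha) := by
    apply Units.ext
    ext i j
    fin_cases i <;> fin_cases j <;> simp [h1, h2, h3]
  rw [hg]
  exact Matrix.ProjGenLinGroup.mk_scalar _

theorem T01_comm {F : Type*} [Field F] (A B : Matrix (Fin 2) (Fin 2) F) :
    A * B = B * A ↔ A 0 1 * B 1 0 = B 0 1 * A 1 0 ∧
      A 0 1 * (B 0 0 - B 1 1) = B 0 1 * (A 0 0 - A 1 1) ∧
      A 1 0 * (B 0 0 - B 1 1) = B 1 0 * (A 0 0 - A 1 1) := by
  constructor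
  · intro h
    have h1 := congrFun (congrFun h 0) 0
    have h2 := congrFun (congrFun h 0) 1
    have h3 := congrFun (congrFun h 1) 0
    simp only [Matrix.mul_apply, Fin.sum_univ_two] at h1 h2 h3
    refine ⟨?_, ?_, ?_⟩
    · linear_combination h1
    · linear_combination -h2
    · linear_combination h3
  · rintro ⟨h1, h2, h3⟩
    ext i j
    fin_cases i <;> fin_cases j <;> simp [Matrix.mul_apply, Fin.sum_univ_two]
    · linear_combination h1
    · linear_combination -h2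
    · linear_combination h3
    · linear_combination -h1

theorem T01_trans {F : Type*} [Field F] (a1 a2 a3 b1 b2 b3 c1 c2 c3 : F)
    (h1 : a1 * b2 = b1 * a2) (h2 : a1 * b3 = b1 * a3) (h3 : a2 * b3 = b2 * a3)
    (k1 : b1 * c2 = c1 * b2) (k2 : b1 * c3 = c1 * b3) (k3 : b2 * c3 = c2 * b3)
    (hb : b1 ≠ 0 ∨ b2 ≠ 0 ∨ b3 ≠ 0) :
    a1 * c2 = c1 * a2 ∧ a1 * c3 = c1 * a3 ∧ a2 * c3 = c2 * a3 := by
  rcases hb with hb | hb | hb
  · refine ⟨?_, ?_, ?_⟩ <;> apply mul_left_cancel₀ hb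
    · linear_combination a1 * k1 + c1 * h1
    · linear_combination a1 * k2 + c1 * h2
    · linear_combination c2 * h2 - c3 * h1 + a1 * k3
  · refine ⟨?_, ?_, ?_⟩ <;> apply mul_left_cancel₀ hb
    · linear_combination c2 * h1 + a2 * k1
    · linear_combination c3 * h1 + a2 * k2 + c1 * h3
    · linear_combination a2 * k3 + c2 * h3
  · refine ⟨?_, ?_, ?_⟩ <;> apply mul_left_cancel₀ hb
    · linear_combination c2 * h2 + a3 * k1 - c1 * h3
    · linear_combination c3 * h2 + a3 * k2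
    · linear_combination c3 * h3 + a3 * k3

theorem T01_commute {p : ℕ} [Fact p.Prime] {x g y : GL (Fin 2) (ZMod p)} (hg : pk g ≠ 1)
    (h1 : x * g = g * x) (h2 : g * y = y * g) : x * y = y * x := by
  have hg' : g.1 0 1 ≠ 0 ∨ g.1 1 0 ≠ 0 ∨ g.1 0 0 - g.1 1 1 ≠ 0 := by
    by_contra h
    push Not at h
    exact hg (T01_scalar g h.1 h.2.1 (sub_eq_zero.mp h.2.2))
  have e1 := (T01_comm x.1 g.1).mp (by rw [← Units.val_mul, h1, Units.val_mul])
  have e2 := (T01_comm g.1 y.1).mp (by rw [← Units.val_mul, h2, Units.val_mul])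
  apply Units.ext
  rw [Units.val_mul, Units.val_mul]
  rw [T01_comm]
  exact T01_trans _ _ _ _ _ _ _ _ _ e1.1 e1.2.1 e1.2.2 e2.1 e2.2.1 e2.2.2 hg'

theorem T01_mem {p : ℕ} [Fact p.Prime] (g h : GL (Fin 2) (ZMod p)) :
    pk h ∈ tor g ↔ h * g = g * h := by
  constructor
  · rintro ⟨k, hk, hkh⟩
    obtain ⟨u, hu⟩ := Matrix.ProjGenLinGroup.mk_eq_mk_iff.mp hkh
    have hk' := Subgroup.mem_centralizer_iff.mp hk g (Set.mem_singleton g)
    have hc : Matrix.GeneralLinearGroup.scalar (Fin 2) u * g =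
        g * Matrix.GeneralLinearGroup.scalar (Fin 2) u := by
      have hm : Matrix.GeneralLinearGroup.scalar (Fin 2) u ∈
          Subgroup.center (GL (Fin 2) (ZMod p)) := by
        rw [Matrix.GeneralLinearGroup.center_eq_range_scalar]
        exact ⟨u, rfl⟩
      exact (Subgroup.mem_center_iff.mp hm g).symm
    rw [← hu, mul_assoc, hc, ← mul_assoc, ← hk', mul_assoc]
  · intro hc
    refine ⟨h, ?_, rfl⟩
    rw [SetLike.mem_coe, Subgroup.mem_centralizer_iff]
    intro y hy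
    rw [Set.mem_singleton_iff.mp hy]
    exact hc.symm

/-- T01 -/
theorem tor_eq {p : ℕ} [Fact p.Prime] (g h : GL (Fin 2) (ZMod p)) (hg : pk g ≠ 1) (hh : pk h ≠ 1)
    (h1 : pk h ∈ tor g) : tor h = tor g := by
  have hc := (T01_mem g h).mp h1
  ext x
  induction x using Matrix.ProjGenLinGroup.induction_on with
  | mk y =>
    show pk y ∈ tor h ↔ pk y ∈ tor g
    rw [T01_mem, T01_mem]
    exact ⟨fun h2 => T01_commute hh h2 hc, fun h2 => T01_commute hg h2 hc.symm⟩

end MX
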