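import Pool.Agent.helper81.MX.Defs2

/-!
Row mx:U04 (helper23).
-/

set_option autoImplicit false

namespace MX

open scoped MatrixGroups

/-- U04 -/
theorem unip_stab {p : ℕ} [Fact p.Prime] (hp : 5 ≤ p)
    (h1 : ∀ U U' : Subgroup (PG p), Nat.card U = p → Nat.card U' = p → U ≠ U' → PS p ≤ U ⊔ U')
    (X : Subgroup (PG p)) (hX : p ∣ Nat.card X) (hS : ¬ PS p ≤ X) :
    ∃ U : Subgroup (PG p), Nat.card U = p ∧ U ≤ X ∧ X ≤ Subgroup.normalizer (U : Set (PG p)) := by
  have hfin : Finite (PG p) := Quotient.finite _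
  obtain ⟨x, hx⟩ := exists_prime_orderOf_dvd_card' p hX
  have hxo : orderOf (x : PG p) = p := by rw [Subgroup.orderOf_coe, hx]
  have hU : Nat.card (Subgroup.zpowers (x : PG p)) = p := by rw [Nat.card_zpowers, hxo]
  have hUX : Subgroup.zpowers (x : PG p) ≤ X := by
    rw [Subgroup.zpowers_le]
    exact x.2
  refine ⟨Subgroup.zpowers (x : PG p), hU, hUX, fun g hg => ?_⟩
  have hcard : Nat.card (cj g (Subgroup.zpowers (x : PG p))) = p := by
    exact (Nat.card_congr ((Subgroup.zpowers (x : PG p)).equivMapOfInjective _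
      (MulAut.conj g).injective).toEquiv).symm.trans hU
  have hcX : cj g (Subgroup.zpowers (x : PG p)) ≤ X := by
    intro y hy
    rw [mem_cj] at hy
    have h2 := X.mul_mem (X.mul_mem hg (hUX hy)) (X.inv_mem hg)
    have h3 : g * (g⁻¹ * y * g) * g⁻¹ = y := by group
    rwa [h3] at h2
  have hcj : cj g (Subgroup.zpowers (x : PG p)) = Subgroup.zpowers (x : PG p) := by
    by_contra hne
    exact hS ((h1 _ _ hU hcard (Ne.symm hne)).trans (sup_le hUX hcX))
  rw [Subgroup.mem_normalizer_iff]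
  intro h
  have h4 := mem_cj g (Subgroup.zpowers (x : PG p)) (g * h * g⁻¹)
  rw [hcj] at h4
  have h5 : g⁻¹ * (g * h * g⁻¹) * g = h := by group
  rw [h5] at h4
  exact h4.symm

end MX
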