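import Pool.Agent.helper81.MX.Defs3
import Pool.Agent.helper81.MX.S02

/-!
# Row W01 of project MX
-/

set_option autoImplicit false

namespace MX
open scoped MatrixGroups

/-- W01 with the simplicity of `PS p` as hypothesis. -/
theorem W01_of {p : ℕ} [Fact p.Prime] (hs : IsSimpleGroup (PS p)) (Z : Subgroup (PG p))
    (h1 : Z ⊓ PS p ≠ ⊥) (h2 : ¬ PS p ≤ Z) : ¬ PS p ≤ Subgroup.normalizer (Z : Set (PG p)) := by
  intro hn
  have hN : (Z.subgroupOf (PS p)).Normal := by
    refine ⟨fun z hz g => ?_⟩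
    rw [Subgroup.mem_subgroupOf] at hz ⊢
    have hg := hn g.2
    rw [Subgroup.mem_normalizer_iff] at hg
    have := (hg (z : PG p)).1 hz
    simpa using this
  rcases hs.eq_bot_or_eq_top_of_normal _ hN with h | h
  · apply h1
    rw [Subgroup.subgroupOf_eq_bot] at h
    exact h.eq_bot
  · apply h2
    rw [Subgroup.subgroupOf_eq_top] at h
    exact h

/-- W01 -/
theorem not_norm {p : ℕ} [Fact p.Prime] (hp : 5 ≤ p) (Z : Subgroup (PG p))
    (h1 : Z ⊓ PS p ≠ ⊥) (h2 : ¬ PS p ≤ Z) : ¬ PS p ≤ Subgroup.normalizer (Z : Set (PG p)) :=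
  W01_of (PS_basic hp).2.2.1 Z h1 h2

end MX
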