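import Pool.Agent.helper81.MX.Defs3

set_option autoImplicit false

namespace MX

open scoped MatrixGroups

/-- W02 -/
theorem max_eq {p : ℕ} (A : Subgroup (PG p)) (hA : PS p ≤ A) (X : Subgroup A) (hX : IsCoatom X)
    (hS : ¬ (PS p).subgroupOf A ≤ X) (Z : Subgroup (PG p))
    (hZ : X.map A.subtype ≤ Subgroup.normalizer (Z : Set (PG p)))
    (hn : ¬ PS p ≤ Subgroup.normalizer (Z : Set (PG p))) :
    X.map A.subtype = A ⊓ Subgroup.normalizer (Z : Set (PG p)) := by
  have h1 : X ≤ (Subgroup.normalizer (Z : Set (PG p))).subgroupOf A := Subgroup.map_le_iff_le_comap.1 hZ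
  have h2 : (Subgroup.normalizer (Z : Set (PG p))).subgroupOf A ≠ ⊤ := by
    intro h
    exact hn (hA.trans (Subgroup.subgroupOf_eq_top.1 h))
  have h3 : X = (Subgroup.normalizer (Z : Set (PG p))).subgroupOf A := by
    rcases h1.lt_or_eq with h | h
    · exact absurd (hX.2 _ h) h2
    · exact h
  rw [h3, Subgroup.subgroupOf_map_subtype, inf_comm]

end MX
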