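import Pool.Agent.helper81.MX.Defs3
import Pool.Agent.helper81.MX.S02
import Pool.Agent.helper81.MX.T01
import Pool.Agent.helper81.MX.T02
import Pool.Agent.helper81.MX.T03
import Pool.Agent.helper81.MX.U01
import Pool.Agent.helper81.MX.U04
import Pool.Agent.helper81.MX.W01
import Pool.Agent.helper81.MX.W02
import Pool.Agent.helper81.MX.PT2
import Pool.Agent.helper81.MX.PT3
import Pool.Agent.helper81.MX.PT4
import Pool.Agent.helper81.MX.PT5
import Pool.Agent.helper81.MX.PT6
import Pool.Agent.helper81.MX.PT7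
import Pool.Agent.helper81.MX.P01

/-!
Row W03: classification of the maximal subgroups of `A`, `PSL ≤ A ≤ PGL`, which do not contain `PSL`.
-/

set_option autoImplicit false

namespace MX
open scoped MatrixGroups

/-- assembly of the partition rows -/
theorem W03_part {X : Type*} [Group X] [Finite X] (P : Set (Subgroup X)) (h : Part X P) :
    Nat.card X = 1 ∨ (∃ C ∈ P, Subgroup.normalizer (C : Set X) = ⊤) ∨
    (∃ V : Subgroup X, KleinN V) ∨ Ico X := by
  by_cases h1 : Nat.card X = 1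
  · exact Or.inl h1
  have h2 : 2 ≤ Nat.card X := by
    have : 0 < Nat.card X := Nat.card_pos
    omega
  rcases part_cases P h h2 with h3 | h3 | h3 | h3
  · exact Or.inr (Or.inl h3)
  · exact Or.inr (Or.inr (Or.inl (klein12 P h h3.1 h3.2.1 h3.2.2)))
  · exact Or.inr (Or.inr (Or.inl (klein24 P h h3)))
  · obtain ⟨a1, a2, a3, a4, a5, a6, a7, a8⟩ := tri60_count P h h3
    have b1 := sixty_gen h3.1 a3 a4
    have b2 := sixty_pair h3.1 a1 a2 a3 a4 a5 a6 a7 a8
    exact Or.inr (Or.inr (Or.inr ⟨h3.1, b2, b1.1, b1.2⟩))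

/-- transport of `Ico` -/
theorem W03_ico {X Y : Type*} [Group X] [Group Y] (e : X ≃* Y) (h : Ico Y) : Ico X := by
  obtain ⟨h1, ⟨x, y, hx, hy, hxy⟩, h3, h4⟩ := h
  refine ⟨(Nat.card_congr e.toEquiv).trans h1, ⟨e.symm x, e.symm y, ?_, ?_, ?_⟩, ?_, ?_⟩
  · rw [MulEquiv.orderOf_eq]; exact hx
  · rw [MulEquiv.orderOf_eq]; exact hy
  · rw [← map_mul, MulEquiv.orderOf_eq]; exact hxy
  · intro x y hx hy hxy
    have h5 := h3 (e x) (e y) (by rw [MulEquiv.orderOf_eq]; exact hx)
      (by rw [MulEquiv.orderOf_eq]; exact hy) (by rw [← map_mul, MulEquiv.orderOf_eq]; exact hxy)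
    have h6 : (Subgroup.closure ({x, y} : Set X)).map e.toMonoidHom = ⊤ := by
      rw [MonoidHom.map_closure, Set.image_pair]
      exact h5
    rw [eq_top_iff]
    intro z _
    have h7 : e z ∈ (Subgroup.closure ({x, y} : Set X)).map e.toMonoidHom := by
      rw [h6]; exact Subgroup.mem_top _
    obtain ⟨w, hw, hwz⟩ := h7
    have : w = z := e.injective hwz
    rw [← this]
    exact hw
  · intro Z hZ
    have h5 := h4 (Z.map e.toMonoidHom) (by
      intro y hy
      refine ⟨e.symm y, hZ _ (by rw [MulEquiv.orderOf_eq]; exact hy), ?_⟩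
      exact e.apply_symm_apply y)
    rw [eq_top_iff]
    intro z _
    have h7 : e z ∈ Z.map e.toMonoidHom := by
      rw [h5]; exact Subgroup.mem_top _
    obtain ⟨w, hw, hwz⟩ := h7
    have : w = z := e.injective hwz
    rw [← this]
    exact hw

theorem W03_odd {G : Type*} [Group G] (H : Subgroup G) (hH : H.index = 2) (x : G)
    (hx : Odd (orderOf x)) : x ∈ H := by
  obtain ⟨m, hm⟩ := hx
  have h1 : x = (x * x) ^ (m + 1) := by
    rw [← pow_two, ← pow_mul]
    have h2 : 2 * (m + 1) = orderOf x + 1 := by omega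
    rw [h2, pow_succ, pow_orderOf_eq_one, one_mul]
  rw [h1]
  exact H.pow_mem (Subgroup.mul_self_mem_of_index_two hH x) _

theorem W03_dsc {p : ℕ} [Fact p.Prime] (g : GL (Fin 2) (ZMod p)) (h : dsc g ≠ 0) : pk g ≠ 1 := by
  intro h1
  apply h
  have h2 : pk (1 : GL (Fin 2) (ZMod p)) = pk g := (map_one _).trans h1.symm
  obtain ⟨u, hu⟩ := Matrix.ProjGenLinGroup.mk_eq_mk_iff.1 h2
  rw [one_mul] at hu
  rw [← hu]
  unfold dsc
  rw [Matrix.trace_fin_two, Matrix.det_fin_two]
  simp
  ring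

instance W03_fin {p : ℕ} [Fact p.Prime] : Finite (PG p) :=
  Finite.of_surjective _ Matrix.ProjGenLinGroup.mk_surjective

/-- a torus contains an element which is not an involution -/
theorem W03_sq {p : ℕ} [Fact p.Prime] (hp : 5 ≤ p) (g : GL (Fin 2) (ZMod p)) (hg : pk g ≠ 1) :
    ∃ x ∈ tor g, x * x ≠ 1 := by
  set M := (g : Matrix (Fin 2) (Fin 2) (ZMod p)) with hM
  set t : ZMod p := M 0 0 + M 1 1 with ht
  set D : ZMod p := M 0 0 * M 1 1 - M 0 1 * M 1 0 with hD
  have h2 : (2 : ZMod p) ≠ 0 := by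
    intro h
    have : ((2 : ℕ) : ZMod p) = 0 := by exact_mod_cast h
    rw [ZMod.natCast_eq_zero_iff] at this
    have := Nat.le_of_dvd (by norm_num) this
    omega
  obtain ⟨a, ha⟩ : ∃ a : ZMod p, (2 * a + t) * (a ^ 2 + t * a + D) ≠ 0 := by
    set P : Polynomial (ZMod p) := (Polynomial.C 2 * Polynomial.X + Polynomial.C t) *
      (Polynomial.X ^ 2 + Polynomial.C t * Polynomial.X + Polynomial.C D) with hP
    have d1 : (Polynomial.C (2 : ZMod p) * Polynomial.X + Polynomial.C t).natDegree = 1 :=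
      Polynomial.natDegree_linear h2
    have d2 : (Polynomial.X ^ 2 + Polynomial.C t * Polynomial.X + Polynomial.C D).natDegree = 2 := by
      compute_degree!
    have n1 : (Polynomial.C (2 : ZMod p) * Polynomial.X + Polynomial.C t) ≠ 0 := by
      intro h; rw [h] at d1; simp at d1
    have n2 : (Polynomial.X ^ 2 + Polynomial.C t * Polynomial.X + Polynomial.C D) ≠ 0 := by
      intro h; rw [h] at d2; simp at d2
    have hP0 : P ≠ 0 := mul_ne_zero n1 n2
    have hPd : P.natDegree = 3 := by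
      rw [hP, Polynomial.natDegree_mul n1 n2, d1, d2]
    obtain ⟨a, ha⟩ := Polynomial.exists_eval_ne_zero_of_natDegree_lt_card P hP0 (by
      rw [hPd, Cardinal.mk_fintype, ZMod.card]
      exact_mod_cast (by omega : 3 < p))
    refine ⟨a, ?_⟩
    rw [hP] at ha
    simpa using ha
  have ha1 : 2 * a + t ≠ 0 := left_ne_zero_of_mul ha
  have ha2 : a ^ 2 + t * a + D ≠ 0 := right_ne_zero_of_mul ha
  set X : Matrix (Fin 2) (Fin 2) (ZMod p) := !![a + M 0 0, M 0 1; M 1 0, a + M 1 1] with hX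
  have hdet : X.det ≠ 0 := by
    rw [hX, Matrix.det_fin_two_of]
    have : (a + M 0 0) * (a + M 1 1) - M 0 1 * M 1 0 = a ^ 2 + t * a + D := by
      rw [ht, hD]; ring
    rw [this]
    exact ha2
  set x : GL (Fin 2) (ZMod p) := Matrix.GeneralLinearGroup.mkOfDetNeZero X hdet with hx
  have hxX : (x : Matrix (Fin 2) (Fin 2) (ZMod p)) = X := rfl
  refine ⟨pk x, ⟨x, ?_, rfl⟩, ?_⟩
  · show x ∈ Subgroup.centralizer ({g} : Set (GL (Fin 2) (ZMod p)))
    rw [Subgroup.mem_centralizer_iff]
    intro h hh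
    rw [Set.mem_singleton_iff.1 hh]
    apply Units.ext
    rw [Units.val_mul, Units.val_mul, hxX, ← hM, hX]
    ext i j
    fin_cases i <;> fin_cases j <;> simp [Matrix.mul_apply, Fin.sum_univ_two] <;> ring
  · intro h1
    apply hg
    have h3 : pk (1 : GL (Fin 2) (ZMod p)) = pk (x * x) := by
      rw [pk, pk, map_one, map_mul]; exact h1.symm
    obtain ⟨u, hu⟩ := Matrix.ProjGenLinGroup.mk_eq_mk_iff.1 h3
    rw [one_mul] at hu
    have hu' := congrArg (fun y : GL (Fin 2) (ZMod p) => (y : Matrix (Fin 2) (Fin 2) (ZMod p))) hu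
    simp only [Units.val_mul, hxX] at hu'
    have e01 := congrFun (congrFun hu' 0) 1
    have e10 := congrFun (congrFun hu' 1) 0
    have e00 := congrFun (congrFun hu' 0) 0
    have e11 := congrFun (congrFun hu' 1) 1
    rw [hX] at e01 e10 e00 e11
    simp [Matrix.mul_apply, Fin.sum_univ_two] at e01 e10 e00 e11
    have f01 : M 0 1 = 0 := by
      have : (2 * a + t) * M 0 1 = 0 := by rw [ht]; linear_combination -e01
      exact (mul_eq_zero.1 this).resolve_left ha1
    have f10 : M 1 0 = 0 := by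
      have : (2 * a + t) * M 1 0 = 0 := by rw [ht]; linear_combination -e10
      exact (mul_eq_zero.1 this).resolve_left ha1
    have f00 : M 0 0 = M 1 1 := by
      have : (2 * a + t) * (M 0 0 - M 1 1) = 0 := by rw [ht]; linear_combination e11 - e00
      exact sub_eq_zero.1 ((mul_eq_zero.1 this).resolve_left ha1)
    have hM0 : M 1 1 ≠ 0 := by
      intro h4
      have h5 : M.det ≠ 0 := by
        have := g.det.ne_zero
        rwa [Matrix.GeneralLinearGroup.val_det_apply] at this
      apply h5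
      rw [Matrix.det_fin_two, f00, f01, h4]
      ring
    have h4 : pk (1 : GL (Fin 2) (ZMod p)) = pk g := by
      refine Matrix.ProjGenLinGroup.mk_eq_mk_iff.2 ⟨Units.mk0 (M 1 1) hM0, ?_⟩
      rw [one_mul]
      apply Units.ext
      rw [← hM]
      ext i j
      fin_cases i <;> fin_cases j <;> simp [f01, f10, f00]
    rw [← h4]
    exact map_one _

/-- the torus is contained in no larger group normalizing ... : the numerical facts -/
theorem W03_tor {p : ℕ} [Fact p.Prime] (hp : 5 ≤ p) (g : GL (Fin 2) (ZMod p)) (hg : dsc g ≠ 0) :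
    ¬ PS p ≤ Subgroup.normalizer (tor g : Set (PG p)) := by
  obtain ⟨hN, hidx, -, -, -, -, ⟨a, ha, b, hb, hab⟩, -⟩ := PS_basic hp
  have hcyc := (tor_cyc hp g hg).1
  refine not_norm hp (tor g) ?_ ?_
  · intro hbot
    have hsq : ∀ x ∈ tor g, x * x = 1 := by
      intro x hx
      have h1 : x * x ∈ tor g ⊓ PS p :=
        ⟨(tor g).mul_mem hx hx, Subgroup.mul_self_mem_of_index_two hidx x⟩
      rw [hbot] at h1
      exact Subgroup.mem_bot.1 h1
    obtain ⟨x, hx, hx2⟩ := W03_sq hp g (W03_dsc g hg)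
    exact hx2 (hsq x hx)
  · intro hle
    apply hab
    have h1 : IsMulCommutative (tor g) := inferInstance
    have h2 := h1.is_comm.comm (⟨a, hle ha⟩ : tor g) ⟨b, hle hb⟩
    exact congrArg Subtype.val h2

theorem W03_cj_norm {G : Type*} [Group G] (H : Subgroup G) (y : G) (h : cj y H = H) :
    y ∈ Subgroup.normalizer (H : Set G) := by
  rw [Subgroup.mem_normalizer_iff]
  intro x
  constructor
  · intro hx
    have h1 : y * x * y⁻¹ ∈ cj y H := by
      rw [mem_cj]
      have : y⁻¹ * (y * x * y⁻¹) * y = x := by group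
      rw [this]
      exact hx
    rw [h] at h1
    exact h1
  · intro hx
    have h0 : y * x * y⁻¹ ∈ H := hx
    rw [← h, mem_cj] at h0
    have : y⁻¹ * (y * x * y⁻¹) * y = x := by group
    rw [this] at h0
    exact h0

/-- a normal member of the partition gives a normalized torus -/
theorem W03_normal {p : ℕ} [Fact p.Prime] (Y : Subgroup (PG p)) (g : GL (Fin 2) (ZMod p))
    (hg : dsc g ≠ 0) (hC : (tor g).subgroupOf Y ≠ ⊥)
    (hN : Subgroup.normalizer (((tor g).subgroupOf Y : Subgroup Y) : Set Y) = ⊤) :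
    Y ≤ Subgroup.normalizer (tor g : Set (PG p)) := by
  intro y hy
  apply W03_cj_norm
  obtain ⟨c, hc, hc1⟩ := (Subgroup.ne_bot_iff_exists_ne_one).1 hC |>.elim fun c hc =>
    (⟨c.1, c.2, fun h => hc (Subtype.ext h)⟩ : ∃ c : Y, c ∈ (tor g).subgroupOf Y ∧ c ≠ 1)
  have hpg := W03_dsc g hg
  obtain ⟨h, hh⟩ := Matrix.ProjGenLinGroup.mk_surjective (c : PG p)
  obtain ⟨k, hk⟩ := Matrix.ProjGenLinGroup.mk_surjective y
  have hctor : (c : PG p) ∈ tor g := Subgroup.mem_subgroupOf.1 hc
  have hpc : pk h ≠ 1 := by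
    rw [pk, hh]
    intro h1
    exact hc1 (Subtype.ext h1)
  have h1 : tor h = tor g := tor_eq g h hpg hpc (by rw [pk, hh]; exact hctor)
  have hy' : (⟨y, hy⟩ : Y) ∈ Subgroup.normalizer (((tor g).subgroupOf Y : Subgroup Y) : Set Y) := by
    rw [hN]; exact Subgroup.mem_top _
  rw [Subgroup.mem_normalizer_iff] at hy'
  have h2 : (⟨y, hy⟩ : Y) * c * (⟨y, hy⟩ : Y)⁻¹ ∈ (tor g).subgroupOf Y := (hy' c).1 hc
  have h3 : y * c * y⁻¹ ∈ tor g := Subgroup.mem_subgroupOf.1 h2
  have h4 : pk (k * h * k⁻¹) = y * c * y⁻¹ := by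
    rw [pk, map_mul, map_mul, map_inv, hh, hk]
  have h5 : pk (k * h * k⁻¹) ≠ 1 := by
    rw [h4]
    intro h6
    apply hc1
    apply Subtype.ext
    have : (c : PG p) = y⁻¹ * (y * c * y⁻¹) * y := by group
    rw [this, h6]
    simp
  have h6 : tor (k * h * k⁻¹) = tor g := tor_eq g _ hpg h5 (by rw [h4]; exact h3)
  have h7 := (tor_conj h k).1
  rw [h1, h6] at h7
  rw [pk, hk] at h7
  exact h7

/-- the Klein case -/
theorem W03_klein {p : ℕ} [Fact p.Prime] (hp : 5 ≤ p) (Y : Subgroup (PG p)) (V : Subgroup Y)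
    (hV : KleinN V) : V.map Y.subtype ≤ PS p := by
  obtain ⟨hN, hidx, -⟩ := PS_basic hp
  obtain ⟨hVn, hV4, hV2, hVc⟩ := hV
  by_contra hcon
  rw [SetLike.not_le_iff_exists] at hcon
  obtain ⟨w', ⟨w, hw, rfl⟩, hwP⟩ := hcon
  -- the elements of `V` in `PS`
  have hfin : Finite V := Nat.finite_of_card_ne_zero (by rw [hV4]; norm_num)
  set Q : Subgroup V := (PS p).comap (Y.subtype.comp V.subtype) with hQ
  have hQw : (⟨w, hw⟩ : V) ∉ Q := hwP
  have hQi : Q.index = 2 := by
    rw [Subgroup.index_eq_two_iff]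
    refine ⟨⟨w, hw⟩, fun b => ?_⟩
    have h1 : b * ⟨w, hw⟩ ∈ Q ↔ (((b : V) : Y) : PG p) * (w : PG p) ∈ PS p := Iff.rfl
    have h2 : b ∈ Q ↔ (((b : V) : Y) : PG p) ∈ PS p := Iff.rfl
    rw [h1, h2, Subgroup.mul_mem_iff_of_index_two hidx]
    have h3 : ¬ (w : PG p) ∈ PS p := hwP
    unfold Xor
    tauto
  have hQc : Nat.card Q = 2 := by
    have h1 := Q.card_mul_index
    rw [hQi, hV4] at h1
    omega
  obtain ⟨q, hq1⟩ : ∃ q : Q, q ≠ 1 := by
    have : Nontrivial Q := by
      rw [← Finite.one_lt_card_iff_nontrivial, hQc]; norm_num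
    exact exists_ne 1
  have huniq : ∀ r : Q, r ≠ 1 → r = q := by
    intro r hr
    by_contra hrq
    have h1 : ({1, q, r} : Set Q).ncard = 3 := by
      rw [Set.ncard_eq_three]
      exact ⟨1, q, r, hq1.symm, hr.symm, fun h => hrq h.symm, rfl⟩
    have h2 : ({1, q, r} : Set Q).ncard ≤ Nat.card Q := by
      rw [← Set.ncard_univ]
      exact Set.ncard_le_ncard (Set.subset_univ _) Set.finite_univ
    omega
  have hqne : ((q : V) : Y) ≠ 1 := by
    intro h
    apply hq1
    apply Subtype.ext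
    apply Subtype.ext
    exact h
  obtain ⟨x, hx⟩ := hVc ((q : V) : Y) (q : V).2 hqne
  apply hx
  have hm : x * ((q : V) : Y) * x⁻¹ ∈ V := hVn.conj_mem _ (q : V).2 x
  have hm2 : (⟨x * ((q : V) : Y) * x⁻¹, hm⟩ : V) ∈ Q := by
    show ((x * ((q : V) : Y) * x⁻¹ : Y) : PG p) ∈ PS p
    exact hN.conj_mem _ q.2 (x : PG p)
  have h3 := huniq ⟨⟨x * ((q : V) : Y) * x⁻¹, hm⟩, hm2⟩ (by
    intro h
    apply hqne
    have h4 : x * ((q : V) : Y) * x⁻¹ = 1 :=
      congrArg (fun t : Q => ((t : V) : Y)) h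
    have h5 : ((q : V) : Y) = x⁻¹ * (x * ((q : V) : Y) * x⁻¹) * x := by group
    rw [h5, h4]
    simp)
  have h4 : x * ((q : V) : Y) * x⁻¹ = ((q : V) : Y) :=
    congrArg (fun t : Q => ((t : V) : Y)) h3
  have h5 : x * ((q : V) : Y) = (x * ((q : V) : Y) * x⁻¹) * x := by group
  rw [h5, h4]

/-- W03: classification of the maximal subgroups -/
theorem max_types {p : ℕ} [Fact p.Prime] (hp : 5 ≤ p) (A : Subgroup (PG p)) (hA : PS p ≤ A)
    (X : Subgroup A) (hX : IsCoatom X) (hS : ¬ (PS p).subgroupOf A ≤ X) :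
    TyU A X ∨ TyD A True X ∨ TyD A False X ∨ TyK A X ∨ TyI A X := by
  obtain ⟨hN, hidx, -, -, -, -, ⟨a, ha, b, hb, hab⟩, -⟩ := PS_basic hp
  set Y := X.map A.subtype with hY
  have hYS : ¬ PS p ≤ Y := by
    intro h
    apply hS
    intro x hx
    obtain ⟨y, hy, hyx⟩ := h (Subgroup.mem_subgroupOf.1 hx)
    have : y = x := Subtype.ext hyx
    rw [← this]
    exact hy
  have hmem : Y ≤ A := by
    rintro x ⟨y, _, rfl⟩
    exact y.2
  -- dihedral types
  have hD : ∀ g : GL (Fin 2) (ZMod p), dsc g ≠ 0 → Y ≤ Subgroup.normalizer (tor g : Set (PG p)) →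
      TyD A True X ∨ TyD A False X := by
    intro g hg hYg
    have h1 := max_eq A hA X hX hS (tor g) hYg (W03_tor hp g hg)
    by_cases h2 : IsSquare (dsc g)
    · exact Or.inl ⟨g, hg, by simp [h2], h1⟩
    · exact Or.inr ⟨g, hg, by simp [h2], h1⟩
  by_cases hpY : p ∣ Nat.card Y
  · left
    obtain ⟨U, hU, hUY, hYU⟩ := unip_stab hp (fun U U' => two_unip hp U U') Y hpY hYS
    have hUP : U ≤ PS p := by
      intro x hx
      apply W03_odd (PS p) hidx
      have h1 : orderOf x ∣ p := by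
        have := orderOf_dvd_natCard (⟨x, hx⟩ : U)
        rw [Subgroup.orderOf_mk] at this
        exact this.trans (dvd_of_eq hU)
      have h2 : Odd p := (Fact.out : p.Prime).odd_of_ne_two (by omega)
      exact Odd.of_dvd_nat h2 h1
    refine ⟨U, hU, max_eq A hA X hX hS U hYU (not_norm hp U ?_ ?_)⟩
    · rw [inf_eq_left.2 hUP]
      intro h
      rw [h, Subgroup.card_bot] at hU
      omega
    · intro h
      exact hYS (h.trans hUY)
  · right
    have hpart := part_tor hp Y hpY
    rcases W03_part (torP Y) hpart with h1 | ⟨C, ⟨hC0, g, hg, rfl⟩, hCN⟩ | ⟨V, hV⟩ | hI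
    · -- the trivial group
      have hbot : Y = ⊥ := Subgroup.eq_bot_of_card_eq Y h1
      obtain ⟨g, hg⟩ : ∃ g : GL (Fin 2) (ZMod p), dsc g ≠ 0 := by
        have h2 : (2 : ZMod p) ≠ 0 := by
          intro h
          have : ((2 : ℕ) : ZMod p) = 0 := by exact_mod_cast h
          rw [ZMod.natCast_eq_zero_iff] at this
          have := Nat.le_of_dvd (by norm_num) this
          omega
        refine ⟨Matrix.GeneralLinearGroup.mkOfDetNeZero !![1, 0; 0, 2] ?_, ?_⟩
        · rw [Matrix.det_fin_two_of]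
          simpa using h2
        · have e : ((Matrix.GeneralLinearGroup.mkOfDetNeZero
              (!![1, 0; 0, 2] : Matrix (Fin 2) (Fin 2) (ZMod p)) (by
              rw [Matrix.det_fin_two_of]; simpa using h2) : GL (Fin 2) (ZMod p)) :
              Matrix (Fin 2) (Fin 2) (ZMod p)) = !![1, 0; 0, 2] := rfl
          unfold dsc
          rw [e, Matrix.trace_fin_two_of, Matrix.det_fin_two_of]
          have : ((1 : ZMod p) + 2) ^ 2 - 4 * (1 * 2 - 0 * 0) = 1 := by ring
          rw [this]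
          exact one_ne_zero
      rcases hD g hg (by rw [hbot]; exact bot_le) with h | h
      · exact Or.inl h
      · exact Or.inr (Or.inl h)
    · rcases hD g hg (W03_normal Y g hg hC0 hCN) with h | h
      · exact Or.inl h
      · exact Or.inr (Or.inl h)
    · right; right; left
      have hVP := W03_klein hp Y V hV
      obtain ⟨hVn, hV4, hV2, hVc⟩ := hV
      have hc4 : Nat.card (V.map Y.subtype) = 4 := by
        rw [← hV4]
        exact (Nat.card_congr (V.equivMapOfInjective _ Y.subtype_injective).toEquiv).symm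
      have hv2 : ∀ v ∈ V.map Y.subtype, v * v = 1 := by
        rintro _ ⟨v, hv, rfl⟩
        exact congrArg Subtype.val (hV2 v hv)
      refine ⟨V.map Y.subtype, hVP, hc4, hv2, max_eq A hA X hX hS _ ?_ (not_norm hp _ ?_ ?_)⟩
      · intro y hy
        rw [Subgroup.mem_normalizer_iff]
        intro x
        constructor
        · rintro ⟨v, hv, rfl⟩
          exact ⟨⟨y, hy⟩ * v * ⟨y, hy⟩⁻¹, hVn.conj_mem v hv _, rfl⟩
        · rintro ⟨v, hv, hvx⟩
          refine ⟨⟨y, hy⟩⁻¹ * v * ⟨y, hy⟩, ?_, ?_⟩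
          · have := hVn.conj_mem v hv (⟨y, hy⟩⁻¹ : Y)
            rwa [inv_inv] at this
          · have e : Y.subtype (⟨y, hy⟩⁻¹ * v * ⟨y, hy⟩) = y⁻¹ * Y.subtype v * y := rfl
            rw [e, hvx]
            group
      · rw [inf_eq_left.2 hVP]
        intro h
        rw [h, Subgroup.card_bot] at hc4
        norm_num at hc4
      · intro h
        apply hab
        have h1 := hv2 a (h ha)
        have h2 := hv2 b (h hb)
        have h3 := hv2 (a * b) ((V.map Y.subtype).mul_mem (h ha) (h hb))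
        have e1 : a⁻¹ = a := inv_eq_of_mul_eq_one_left h1
        have e2 : b⁻¹ = b := inv_eq_of_mul_eq_one_left h2
        have e3 : a * b = (a * b)⁻¹ := eq_inv_of_mul_eq_one_left h3
        rw [e3, mul_inv_rev, e1, e2]
    · right; right; right
      have hYP : Y ≤ PS p := by
        have h1 := hI.2.2.2 ((PS p).subgroupOf Y) (by
          intro x hx
          rw [Subgroup.mem_subgroupOf]
          apply W03_odd (PS p) hidx
          rwa [Subgroup.orderOf_coe])
        intro y hy
        have h2 : (⟨y, hy⟩ : Y) ∈ (PS p).subgroupOf Y := by rw [h1]; exact Subgroup.mem_top _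
        exact Subgroup.mem_subgroupOf.1 h2
      refine ⟨?_, hX.1, ?_⟩
      · have h1 : X < (PS p).subgroupOf A := by
          refine lt_of_le_of_ne ?_ ?_
          · intro x hx
            rw [Subgroup.mem_subgroupOf]
            exact hYP ⟨x, hx, rfl⟩
          · intro h
            exact hS h.ge
        have h2 := hX.2 _ h1
        refine le_antisymm ?_ hA
        intro y hy
        have h3 : (⟨y, hy⟩ : A) ∈ (PS p).subgroupOf A := by rw [h2]; exact Subgroup.mem_top _
        exact Subgroup.mem_subgroupOf.1 h3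
      · exact W03_ico (X.equivMapOfInjective _ A.subtype_injective) hI

end MX
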