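import Pool.Agent.helper81.MX.Defs3

/-!
# Row W04 of project MX
-/

set_option autoImplicit false

namespace MX
open scoped MatrixGroups

/-- W04 -/
theorem sc_of {p : ℕ} (A : Subgroup (PG p)) (X X' : Subgroup A) (k : PG p) (hk : k ∈ A)
    (h : cj k (X.map A.subtype) = X'.map A.subtype) : SC X X' := by
  refine ⟨⟨k, hk⟩, ?_⟩
  ext x
  have h1 : (x : PG p) ∈ cj k (X.map A.subtype) ↔ (x : PG p) ∈ X'.map A.subtype := by rw [h]
  have h2 : (x : PG p) ∈ X'.map A.subtype ↔ x ∈ X' := by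
    constructor
    · rintro ⟨y, hy, hyx⟩
      have : y = x := Subtype.ext hyx
      rwa [this] at hy
    · intro hx
      exact ⟨x, hx, rfl⟩
  have h3 : (x : PG p) ∈ cj k (X.map A.subtype) ↔ x ∈ cj (⟨k, hk⟩ : A) X := by
    rw [mem_cj, mem_cj]
    constructor
    · rintro ⟨y, hy, hyx⟩
      have : y = (⟨k, hk⟩ : A)⁻¹ * x * ⟨k, hk⟩ := Subtype.ext hyx
      rwa [this] at hy
    · intro hx
      exact ⟨_, hx, rfl⟩
  rw [← h3, h1, h2]

end MX
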