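import Pool.Agent.helper81.MX.W09
import Pool.Agent.helper81.MX.W10
import Pool.Agent.helper81.MX.W11
import Pool.Agent.helper81.MX.W13
import Pool.Agent.helper81.MX.AU45
import Pool.Agent.helper81.MX.S02

set_option autoImplicit false

namespace MX

open scoped MatrixGroups

theorem W14_cases {p : ℕ} [Fact p.Prime] (hp : 5 ≤ p) (A : Subgroup (PG p)) (hA : PS p ≤ A) :
    (A = PS p ∧ Nat.card (A ⧸ (PS p).subgroupOf A) = 1) ∨
    (A = ⊤ ∧ Nat.card (A ⧸ (PS p).subgroupOf A) = 2) := by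
  have h2 : (PS p).index = 2 := (PS_basic (p := p) hp).2.1
  have h3 : (PS p).relIndex A * A.index = 2 := by
    rw [Subgroup.relIndex_mul_index hA, h2]
  have h4 : Nat.card (A ⧸ (PS p).subgroupOf A) = (PS p).relIndex A := rfl
  rw [h4]
  have h5 : (PS p).relIndex A ∣ 2 := ⟨_, h3.symm⟩
  rcases (Nat.dvd_prime Nat.prime_two).1 h5 with h | h
  · left
    exact ⟨le_antisymm (Subgroup.relIndex_eq_one.1 h) hA, h⟩
  · right
    refine ⟨?_, h⟩
    rw [h] at h3
    have h6 : A.index = 1 := by omega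
    exact Subgroup.index_eq_one.1 h6

/-- W14 with the rows W09 W10 W12 AU3 as hypotheses. -/
theorem W14_of {p : ℕ} [Fact p.Prime] (hp : 5 ≤ p)
    (h9 : 2 * (mcl (PS p) (fun X => ¬ (PS p).subgroupOf (PS p) ≤ X)).ncard ≤ p + 3)
    (h10 : (mcl (⊤ : Subgroup (PG p)) (fun X => ¬ (PS p).subgroupOf ⊤ ≤ X)).ncard ≤ 4)
    (h12 : ∀ A : Subgroup (PG p), PS p ≤ A → 3 ≤ kap ((PS p).subgroupOf A))
    (hAU3 : AU45_st p) (A : Subgroup (PG p)) (hA : PS p ≤ A) :
    Facts ((PS p).subgroupOf A) where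
  cnt := by
    rcases W14_cases hp A hA with ⟨h, hc⟩ | ⟨h, hc⟩
    · rw [hc]
      subst h
      have h11 := kapPS (p := p) hp
      omega
    · rw [hc]
      subst h
      have := h12 ⊤ hA
      omega
  idx := by
    rcases W14_cases hp A hA with ⟨_, hc⟩ | ⟨_, hc⟩ <;> rw [hc]
    exact one_le_two
  three := h12 A hA
  dfl := (dflmrk hp A hA).1
  mrk := (dflmrk hp A hA).2
  out := out_PS_of hp hAU3 A hA

end MX
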